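import Pool.Agent.P.MP_74db7f_al.F.KD

/-! K1: the field `ℚ((q⁻¹))` has the required properties. -/

namespace Pool.Agent.P.MP_74db7f_al

open scoped Classical Topology
open Filter

namespace K1

open HahnSeries WithZero

/-- `q = X⁻¹` -/
noncomputable def qq : LaurentSeries ℚ := single (-1) 1

theorem qq_zpow (k : ℤ) : qq ^ k = single (-k) 1 := by
  rw [qq, RatFunc.single_zpow (-1), RatFunc.single_zpow (-k), ← zpow_mul, neg_one_mul]

theorem qq_ne : qq ≠ 0 := single_ne_zero one_ne_zero

theorem v_qq (k : ℤ) : Valued.v (qq ^ k) = exp k := by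
  rw [qq_zpow, LaurentSeries.valuation_single_zpow, neg_neg]

/-- the embedding of the Laurent polynomials -/
noncomputable def emb : LaurentPolynomial ℤ →+* LaurentSeries ℚ :=
  LaurentPolynomial.eval₂ (Int.castRingHom _) (Units.mk0 qq qq_ne)

theorem emb_C_mul_T (a m : ℤ) :
    emb (LaurentPolynomial.C a * LaurentPolynomial.T m) = single (-m) (a : ℚ) := by
  rw [emb, LaurentPolynomial.eval₂_C_mul_T, Units.val_zpow_eq_zpow_val, Units.val_mk0, qq_zpow,
    eq_intCast, ← single_zero_intCast, single_mul_single, zero_add, mul_one]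

theorem emb_T : emb (LaurentPolynomial.T 1) = qq := by
  have := emb_C_mul_T 1 1
  rwa [map_one, one_mul, Int.cast_one] at this

theorem coeff_emb (r : LaurentPolynomial ℤ) (n : ℤ) : (emb r).coeff n = (r.coeff (-n) : ℚ) := by
  induction r using LaurentPolynomial.induction_on' with
  | add p q hp hq => simp [hp, hq]
  | C_mul_T m a =>
    rw [emb_C_mul_T, coeff_single, ← LaurentPolynomial.single_eq_C_mul_T,
      AddMonoidAlgebra.coeff_single, Finsupp.single_apply]
    by_cases h : n = -m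
    · rw [if_pos h, if_pos (by omega)]
    · rw [if_neg h, if_neg (by omega), Int.cast_zero]

theorem coeff_sq {x : LaurentSeries ℚ} {D : ℤ} (h : ∀ n < D, x.coeff n = 0) :
    (x ^ 2).coeff (D + D) = x.coeff D ^ 2 := by
  by_cases hx : x = 0
  · simp [hx]
  have h1 : D ≤ x.order := not_lt.mp fun hlt => hx (coeff_order_eq_zero.mp (h _ hlt))
  rcases h1.eq_or_lt with h2 | h2
  · rw [h2, sq, coeff_mul_order_add_order, leadingCoeff_eq, sq]
  · rw [coeff_eq_zero_of_lt_order h2, coeff_eq_zero_of_lt_order, zero_pow two_ne_zero]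
    rw [sq, order_mul hx hx]
    omega

theorem approx (x : LaurentSeries ℚ) (D : ℤ) (hD : x.order ≤ D) : ∃ N : ℤ, N ≠ 0 ∧
    ∃ r : LaurentPolynomial ℤ, ∀ n < D, ((N : LaurentSeries ℚ) * x - emb r).coeff n = 0 := by
  induction D, hD using Int.leInduction with
  | base => exact ⟨1, one_ne_zero, 0, fun n hn => by simpa using coeff_eq_zero_of_lt_order hn⟩
  | succ D _ ih =>
    obtain ⟨N, hN, r, hr⟩ := ih
    obtain ⟨c, hc⟩ : ∃ c, c = ((N : LaurentSeries ℚ) * x - emb r).coeff D := ⟨_, rfl⟩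
    refine ⟨c.den * N, mul_ne_zero (Int.natCast_ne_zero.mpr c.den_ne_zero) hN,
      ((c.den : ℤ) : LaurentPolynomial ℤ) * r +
        LaurentPolynomial.C c.num * LaurentPolynomial.T (-D), fun n hn => ?_⟩
    have e : (((c.den : ℤ) * N : ℤ) : LaurentSeries ℚ) * x -
        emb (((c.den : ℤ) : LaurentPolynomial ℤ) * r +
        LaurentPolynomial.C c.num * LaurentPolynomial.T (-D)) =
        single 0 ((c.den : ℤ) : ℚ) * ((N : LaurentSeries ℚ) * x - emb r) - single D (c.num : ℚ) := by
      rw [map_add, emb_C_mul_T, map_mul, map_intCast, neg_neg, single_zero_intCast, Int.cast_mul]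
      ring
    rw [e, coeff_sub, coeff_single_zero_mul, coeff_single]
    rcases (Int.lt_add_one_iff.mp hn).eq_or_lt with rfl | h
    · rw [← hc, if_pos rfl, Int.cast_natCast, Rat.den_mul_eq_num, sub_self]
    · rw [hr n h, if_neg h.ne, mul_zero, sub_zero]

/-- the valuation has rank one -/
@[reducible] noncomputable def rk :
    (Valued.v : Valuation (LaurentSeries ℚ) (WithZero (Multiplicative ℤ))).RankOne where
  hom' := (WithZeroMulInt.toNNReal (e := 2) two_ne_zero).comp
    MonoidWithZeroHom.ValueGroup₀.embedding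
  strictMono' := (WithZeroMulInt.toNNReal_strictMono one_lt_two).comp
    MonoidWithZeroHom.ValueGroup₀.embedding_strictMono
  exists_val_nontrivial := ⟨qq ^ (1 : ℤ), by rw [v_qq]; exact exp_ne_zero, by
    rw [v_qq, ← exp_zero, ne_eq, exp_inj]; exact one_ne_zero⟩

end K1

open K1 WithZero in
/-- Take `K = LaurentSeries ℚ` with `q ↦ X⁻¹` and the norm of the rank one valuation
(`Valued.toNormedField`), or the completion of `RatFunc ℚ` at infinity. -/
theorem exists_goodK : ∃ (K : Type) (_ : NontriviallyNormedField K) (_ : CompleteSpace K)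
    (_ : IsUltrametricDist K) (_ : Algebra (LaurentPolynomial ℤ) K), GoodK K := by
  let _ := rk
  let _ : NontriviallyNormedField (LaurentSeries ℚ) :=
    Valued.toNontriviallyNormedField _ (WithZero (Multiplicative ℤ))
  let _ : Algebra (LaurentPolynomial ℤ) (LaurentSeries ℚ) := emb.toAlgebra
  have hq : qK (LaurentSeries ℚ) = qq := emb_T
  have hle : ∀ x y : LaurentSeries ℚ, ‖x‖ ≤ ‖y‖ ↔ Valued.v x ≤ Valued.v y :=
    fun x y => Valued.toNormedField.norm_le_iff
  have key : ∀ (x : LaurentSeries ℚ) (k : ℤ), ‖x‖ ≤ ‖qq‖ ^ k ↔ ∀ n < -k, x.coeff n = 0 := by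
    intro x k
    rw [← norm_zpow, hle, v_qq, ← LaurentSeries.valuation_le_iff_coeff_lt_eq_zero, neg_neg]
  have h1 : 1 < ‖qq‖ := by
    refine Valued.toNormedField.one_lt_norm_iff.mpr ?_
    rw [← zpow_one qq, v_qq, ← exp_zero, exp_lt_exp]
    exact zero_lt_one
  have h0 : 0 < ‖qq‖ := zero_lt_one.trans h1
  have disc : ∀ x : LaurentSeries ℚ, x ≠ 0 → ∃ k : ℤ, ‖x‖ = ‖qq‖ ^ k := by
    intro x hx
    have e : Valued.v x = Valued.v (qq ^ log (Valued.v x)) := by
      rw [v_qq, exp_log ((Valuation.ne_zero_iff _).mpr hx)]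
    refine ⟨log (Valued.v x), ?_⟩
    rw [← norm_zpow]
    exact le_antisymm ((hle _ _).mpr e.le) ((hle _ _).mpr e.ge)
  refine ⟨LaurentSeries ℚ, inferInstance, LaurentSeries.instLaurentSeriesComplete,
    Valued.instIsUltrametricDist _ (WithZero (Multiplicative ℤ)), inferInstance,
    ⟨hq ▸ h1, hq ▸ disc, fun r n => ?_, fun n x i => ?_, fun x δ hδ => ?_⟩⟩
  · rw [hq, key, mem_dR]
    refine ⟨fun h k hk => ?_, fun h k hk => ?_⟩
    · have := h (-k) (by omega)
      rw [RingHom.algebraMap_toAlgebra, coeff_emb, neg_neg] at this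
      exact_mod_cast this
    · rw [RingHom.algebraMap_toAlgebra, coeff_emb, h (-k) (by omega), Int.cast_zero]
  · obtain ⟨j, -, hj⟩ := Finset.exists_max_image Finset.univ (fun j => ‖x j‖) ⟨i, Finset.mem_univ i⟩
    refine (pow_le_pow_left₀ (norm_nonneg _) (hj i (Finset.mem_univ i)) 2).trans ?_
    by_cases hx : x j = 0
    · rw [hx, norm_zero, zero_pow two_ne_zero]
      exact norm_nonneg _
    obtain ⟨k, hk⟩ := disc _ hx
    have h2 : ∀ l, ∀ n < -k, (x l).coeff n = 0 :=
      fun l => (key _ _).mp (hk ▸ hj l (Finset.mem_univ l))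
    have h3 : (x j).coeff (-k) ≠ 0 := by
      intro h
      have h4 := (key (x j) (k - 1)).mpr fun n hn => by
        rcases (show n = -k ∨ n < -k by omega) with rfl | hn'
        · exact h
        · exact h2 j n hn'
      rw [hk, zpow_le_zpow_iff_right₀ h1] at h4
      omega
    have h4 : (∑ l, x l ^ 2).coeff (-k + -k) ≠ 0 := by
      rw [HahnSeries.coeff_sum, Finset.sum_congr rfl fun l _ => coeff_sq (h2 l)]
      exact (Finset.sum_pos' (fun l _ => sq_nonneg ((x l).coeff (-k)))
        ⟨j, Finset.mem_univ j, sq_pos_of_ne_zero h3⟩).ne'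
    obtain ⟨m, hm⟩ := disc (∑ l, x l ^ 2) fun h => h4 (by rw [h]; rfl)
    have h5 : k + k ≤ m := by
      by_contra hlt
      exact h4 ((key _ m).mp hm.le _ (by omega))
    rw [hk, hm, sq, ← zpow_add₀ h0.ne']
    exact zpow_le_zpow_right₀ h1.le h5
  · obtain ⟨m, hm⟩ := exists_pow_lt_of_lt_one hδ (inv_lt_one_of_one_lt₀ h1)
    obtain ⟨N, hN, r, hr⟩ := approx x (max x.order m) (le_max_left _ _)
    refine ⟨N, hN, r, lt_of_le_of_lt ?_ hm⟩
    rw [inv_pow, ← zpow_natCast, ← zpow_neg, key]
    exact fun n hn => hr n (by omega)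

end Pool.Agent.P.MP_74db7f_al
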