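import Pool.Agent.P.MP_74db7f_al.F.AD

/-! A1: root strings, translations and levels for an extended Cartan matrix. -/

namespace Pool.Agent.P.MP_74db7f_al

open Matrix CoxeterSystem

variable {B : Type*} [Fintype B] [DecidableEq B] {W : Type*} [Group W] {M : CoxeterMatrix B}
  (cs : CoxeterSystem M W) {A : Matrix B B ℤ} (h : GC M A)

theorem phi_mul (x y : W) (v : B → ℤ) : phi cs h (x * y) v = phi cs h x (phi cs h y v) := by
  rw [map_mul, Module.End.mul_apply]

@[simp] theorem phi_one (v : B → ℤ) : phi cs h 1 v = v := by simp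

@[simp] theorem phi_inv_phi (x : W) (v : B → ℤ) : phi cs h x⁻¹ (phi cs h x v) = v := by
  rw [← phi_mul, inv_mul_cancel, phi_one]

@[simp] theorem phi_phi_inv (x : W) (v : B → ℤ) : phi cs h x (phi cs h x⁻¹ v) = v := by
  rw [← phi_mul, mul_inv_cancel, phi_one]

theorem phi_inj {x : W} (hx : ∀ i, phi cs h x (al i) = al i) : x = 1 := by
  by_contra h1
  obtain ⟨j, hj⟩ := cs.exists_rightDescent_of_ne_one h1
  have := ht_desc cs h x j hj
  rw [hx, ht_al] at this
  omega

variable {cs h}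

theorem Root.phi {γ : B → ℤ} (hγ : Root cs h γ) (x : W) : Root cs h (phi cs h x γ) := by
  obtain ⟨y, j, rfl⟩ := hγ
  exact ⟨x * y, j, (phi_mul cs h x y _).symm⟩

theorem Root.neg {γ : B → ℤ} (hγ : Root cs h γ) : Root cs h (-γ) := by
  obtain ⟨y, j, rfl⟩ := hγ
  exact ⟨y * cs.simple j, j, by rw [phi_mul_simple, sig_al h, map_neg]⟩

theorem Root.ht_ne {γ : B → ℤ} (hγ : Root cs h γ) : ht γ ≠ 0 := by
  rcases hγ.sign with h1 | h1 <;> omega

theorem Root.eq_al {i : B} {c : ℤ} (hγ : Root cs h (c • al i)) (hc : 0 < c) : c = 1 := by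
  obtain ⟨y, j, e⟩ := hγ
  have h1 : c • Pool.Agent.P.MP_74db7f_al.phi cs h y⁻¹ (al i) = al j := by
    rw [← map_smul, e, phi_inv_phi]
  have h2 := congrFun h1 j
  simp only [al, Pi.smul_apply, smul_eq_mul, Pi.single_eq_same] at h2
  exact Int.eq_one_of_mul_eq_one_right hc.le h2

theorem phi_add_rad (x : W) (v : B → ℤ) {ρ : B → ℤ} (hρ : A *ᵥ ρ = 0) :
    phi cs h x (v + ρ) = phi cs h x v + ρ := by
  rw [map_add, phi_ker cs h x hρ]

theorem phi_refl (y : W) (j : B) (v : B → ℤ) : phi cs h (y * cs.simple j * y⁻¹) v =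
    v - (A *ᵥ phi cs h y⁻¹ v) j • phi cs h y (al j) := by
  rw [phi_mul, phi_mul_simple, sig_apply, map_sub, map_smul, phi_phi_inv]

variable (cs h) in
/-- radical vectors which can be added to the root `β` -/
def Str (β : B → ℤ) : Set (B → ℤ) := {ρ | A *ᵥ ρ = 0 ∧ Root cs h (β + ρ)}

theorem Str.refl {β ρ ρ' : B → ℤ} (h1 : ρ ∈ Str cs h β) (h2 : ρ' ∈ Str cs h β) :
    (2 : ℤ) • ρ - ρ' ∈ Str cs h β := by
  refine ⟨by rw [mulVec_sub, mulVec_smul, h1.1, h2.1]; simp, ?_⟩
  obtain ⟨y, j, e⟩ := h1.2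
  have h3 := (h2.2.phi (y * cs.simple j * y⁻¹)).neg
  have h4 : A *ᵥ (ρ' - ρ) = 0 := by rw [mulVec_sub, h1.1, h2.1, sub_zero]
  have h5 : β + ρ' = phi cs h y (al j) + (ρ' - ρ) := by rw [← e]; abel
  have h6 : phi cs h y⁻¹ (β + ρ') = al j + (ρ' - ρ) := by
    rw [h5, phi_add_rad _ _ h4, phi_inv_phi]
  rw [phi_refl, h6, mulVec_add, h4, add_zero, mulVec_al, h.diag, ← e] at h3
  convert h3 using 1
  module

theorem Str.zero {β : B → ℤ} (hβ : Root cs h β) : (0 : B → ℤ) ∈ Str cs h β :=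
  ⟨mulVec_zero _, by simpa using hβ⟩

theorem Str.line {β ρ σ : B → ℤ} (h1 : ρ ∈ Str cs h β) (h2 : ρ + σ ∈ Str cs h β) (k : ℤ) :
    ρ + k • σ ∈ Str cs h β := by
  have key : ∀ k : ℤ, ρ + k • σ ∈ Str cs h β ∧ ρ + (k + 1) • σ ∈ Str cs h β := by
    intro k
    induction k using Int.induction_on with
    | zero => simpa using ⟨h1, h2⟩
    | succ k ih =>
      refine ⟨ih.2, ?_⟩
      convert Str.refl ih.2 ih.1 using 1
      module
    | pred k ih =>
      refine ⟨?_, by simpa using ih.1⟩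
      convert Str.refl ih.1 ih.2 using 1
      module
  exact (key k).1

theorem Str.sign {β ρ σ : B → ℤ} (h1 : ρ ∈ Str cs h β) (h2 : ρ + σ ∈ Str cs h β) :
    0 ≤ σ ∨ σ ≤ 0 := by
  by_contra hc
  push Not at hc
  obtain ⟨hi, hj⟩ := hc
  obtain ⟨i, hi⟩ := not_forall.1 hi
  obtain ⟨j, hj⟩ := not_forall.1 hj
  simp only [Pi.zero_apply, not_le] at hi hj
  have := (Str.line h1 h2 (|(β + ρ) i| + |(β + ρ) j| + 1)).2.sign
  have a1 := le_abs_self ((β + ρ) i)
  have a2 := neg_abs_le ((β + ρ) j)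
  have a3 := abs_nonneg ((β + ρ) i)
  have a4 := abs_nonneg ((β + ρ) j)
  rcases this with h3 | h3
  · have := h3.1 i
    simp only [Pi.add_apply, Pi.smul_apply, smul_eq_mul, Pi.zero_apply] at this a1 a3 a4
    nlinarith
  · have := h3.1 j
    simp only [Pi.add_apply, Pi.smul_apply, smul_eq_mul, Pi.zero_apply] at this a2 a3 a4
    nlinarith

theorem Str.phi (β : B → ℤ) (x : W) : Str cs h (phi cs h x β) = Str cs h β := by
  ext ρ
  constructor
  · rintro ⟨h1, h2⟩
    refine ⟨h1, ?_⟩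
    have := h2.phi x⁻¹
    rwa [phi_add_rad _ _ h1, phi_inv_phi] at this
  · rintro ⟨h1, h2⟩
    refine ⟨h1, ?_⟩
    have := h2.phi x
    rwa [phi_add_rad _ _ h1] at this

theorem Str.neg {β : B → ℤ} (hβ : Root cs h β) : Str cs h (-β) = Str cs h β := by
  have key : ∀ {β ρ : B → ℤ}, Root cs h β → ρ ∈ Str cs h β → ρ ∈ Str cs h (-β) := by
    intro β ρ hβ hρ
    have h1 := Str.refl (Str.zero hβ) hρ
    refine ⟨hρ.1, ?_⟩
    convert h1.2.neg using 1
    module
  ext ρ
  exact ⟨fun hρ => by simpa using key hβ.neg hρ, key hβ⟩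

/-- the level -/
def lev (S0 : Finset B) : (B → ℤ) →ₗ[ℤ] ℤ := ∑ o ∈ S0ᶜ, LinearMap.proj o

theorem lev_apply (S0 : Finset B) (v : B → ℤ) : lev S0 v = ∑ o ∈ S0ᶜ, v o := by simp [lev]

theorem lev_al (S0 : Finset B) (i : B) : lev S0 (al i) = if i ∈ S0 then 0 else 1 := by
  simp [lev_apply, al, Pi.single_apply]

theorem lev_nonneg (S0 : Finset B) {v : B → ℤ} (hv : 0 ≤ v) : 0 ≤ lev S0 v := by
  rw [lev_apply]
  exact Finset.sum_nonneg fun o _ => hv o

theorem lev_nonpos (S0 : Finset B) {v : B → ℤ} (hv : v ≤ 0) : lev S0 v ≤ 0 := by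
  rw [lev_apply]
  exact Finset.sum_nonpos fun o _ => hv o

theorem supp_of_lev {S0 : Finset B} {v : B → ℤ} (hv : 0 ≤ v ∨ v ≤ 0) (h0 : lev S0 v = 0) :
    ∀ o, o ∉ S0 → v o = 0 := by
  intro o ho
  rw [lev_apply] at h0
  rcases hv with hv | hv
  · exact (Finset.sum_eq_zero_iff_of_nonneg fun o _ => hv o).1 h0 o (Finset.mem_compl.2 ho)
  · exact (Finset.sum_eq_zero_iff_of_nonpos fun o _ => hv o).1 h0 o (Finset.mem_compl.2 ho)

theorem phi_W0 {S0 : Finset B} {u : W} (hu : u ∈ Subgroup.closure (cs.simple '' (S0 : Set B)))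
    (v : B → ℤ) {o : B} (ho : o ∉ S0) : phi cs h u v o = v o := by
  induction hu using Subgroup.closure_induction generalizing v with
  | mem x hx =>
    obtain ⟨i, hi, rfl⟩ := hx
    have : o ≠ i := fun e => ho (e ▸ hi)
    rw [phi_simple, sig_apply]
    simp [al, this]
  | one => simp
  | mul x y _ _ hx hy => rw [phi_mul, hx, hy]
  | inv x _ hx => rw [← hx (phi cs h x⁻¹ v), phi_phi_inv]

theorem lev_W0 {S0 : Finset B} {u : W} (hu : u ∈ Subgroup.closure (cs.simple '' (S0 : Set B)))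
    (v : B → ℤ) : lev S0 (phi cs h u v) = lev S0 v := by
  rw [lev_apply, lev_apply]
  exact Finset.sum_congr rfl fun o ho => phi_W0 hu v (Finset.mem_compl.1 ho)

variable (cs h) in
/-- the hypotheses on the extended Cartan matrix -/
structure AH (S0 : Finset B) : Prop where
  nd : ∀ v : B → ℤ, (∀ i, i ∉ S0 → v i = 0) → (∀ i ∈ S0, (A *ᵥ v) i = 0) → v = 0
  sp : ∀ o, o ∉ S0 → ∃ u ∈ Subgroup.closure (cs.simple '' (S0 : Set B)), ∃ i ∈ S0,
    A *ᵥ (al o + phi cs h u (al i)) = 0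
  con : ∀ i, ∃ o, o ∉ S0 ∧ Relation.ReflTransGen (fun a b => A a b ≠ 0) i o
  fin : {k | ∃ γ, Root cs h γ ∧ A *ᵥ γ = k}.Finite
  co : ∀ y i j, A *ᵥ phi cs h y (al j) = A *ᵥ al i → ∀ v, (A *ᵥ phi cs h y⁻¹ v) j = (A *ᵥ v) i

section form

variable {d : B → ℝ} (hd : (Matrix.of fun i j => d i * (A i j : ℝ)).PosSemidef)
include hd

omit [DecidableEq B] in
theorem bf_symm (u v : B → ℤ) : bf A d u v = bf A d v u := by
  have hs : ∀ a b, d a * (A a b : ℝ) = d b * (A b a : ℝ) := fun a b => by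
    simpa using hd.1.apply b a
  simp only [bf, mulVec, dotProduct, Int.cast_sum, Int.cast_mul, Finset.mul_sum]
  rw [Finset.sum_comm]
  refine Finset.sum_congr rfl fun i _ => Finset.sum_congr rfl fun j _ => ?_
  linear_combination (u j * v i : ℝ) * hs j i

omit hd in
theorem bf_al (j : B) (v : B → ℤ) : bf A d (al j) v = d j * ((A *ᵥ v) j : ℤ) := by
  simp [bf, al, Pi.single_apply]

omit hd in
theorem bf_sub_left (u v : B → ℤ) (t : ℤ) (j : B) :
    bf A d (u - t • al j) v = bf A d u v - t * (d j * ((A *ᵥ v) j : ℤ)) := by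
  rw [← bf_al]
  simp only [bf, Pi.sub_apply, Pi.smul_apply, smul_eq_mul, Int.cast_sub, Int.cast_mul,
    Finset.mul_sum, ← Finset.sum_sub_distrib]
  exact Finset.sum_congr rfl fun i _ => by ring

theorem bf_phi (x : W) (u v : B → ℤ) : bf A d (phi cs h x u) (phi cs h x v) = bf A d u v := by
  induction x using cs.simple_induction_left with
  | one => simp
  | mul_simple_left w j ih =>
    rw [phi_mul, phi_mul, phi_simple, ← ih, sig_apply, bf_sub_left, bf_symm hd, sig_apply,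
      bf_sub_left, bf_symm hd, mulVec_sub, mulVec_smul]
    simp only [Pi.sub_apply, Pi.smul_apply, mulVec_al, h.diag, smul_eq_mul]
    push_cast
    ring

end form

theorem exists_AH (cs : CoxeterSystem M W) (hM : AffType M) :
    ∃ (A : Matrix B B ℤ) (h : GC M A) (S0 : Finset B), AH cs h S0 := by
  obtain ⟨A, d, S0, h1, h2, h3, h4, h5, h6, h7, h8⟩ := hM
  have hs : ∀ a b, d a * (A a b : ℝ) = d b * (A b a : ℝ) := fun a b => by
    simpa using h4.1.apply b a
  have h : GC M A := ⟨h1, h2, fun i j e => by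
    have := hs i j
    rw [e, Int.cast_zero, mul_zero] at this
    exact_mod_cast (mul_eq_zero.1 this.symm).resolve_left (h3 j).ne', h5⟩
  refine ⟨A, h, S0, fun v hv hv' => h6 v hv ?_, fun o ho => ?_, h8, finite_kap cs h h3 h4, ?_⟩
  · have e : bf A d v v = 0 := Finset.sum_eq_zero fun i _ => by
      by_cases hi : i ∈ S0
      · simp [hv' i hi]
      · simp [hv i hi]
    rw [bf_eq] at e
    have := (h4.dotProduct_mulVec_zero_iff (x := fun i => (v i : ℝ))).1 (by simpa using e)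
    funext i
    have h9 := congrFun this i
    simp only [mulVec, dotProduct, Matrix.of_apply, Pi.zero_apply, mul_assoc,
      ← Finset.mul_sum] at h9 ⊢
    exact_mod_cast (mul_eq_zero.1 h9).resolve_left (h3 i).ne'
  · obtain ⟨ω, hω, i, hi, e⟩ := h7 o ho
    refine ⟨cs.wordProd ω, ?_, i, hi, ?_⟩
    · clear e
      induction ω with
      | nil => simp
      | cons j ω ih =>
        rw [wordProd_cons]
        exact mul_mem (Subgroup.subset_closure ⟨j, hω j (by simp), rfl⟩)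
          (ih fun k hk => hω k (by simp [hk]))
    · have : ∀ ω : List B, phi cs h (cs.wordProd ω) (al i) =
          ω.foldr (srefl A) (Pi.single i 1) := by
        intro ω
        induction ω with
        | nil => simp [al]
        | cons j ω ih => rw [wordProd_cons, phi_mul, ih, phi_simple, sig_apply]; rfl
      rw [this]
      exact e
  · intro y i j e v
    have k1 : ∀ v, d j * ((A *ᵥ phi cs h y⁻¹ v) j : ℤ) = d i * ((A *ᵥ v) i : ℤ) := by
      intro v
      rw [← bf_al, ← bf_al, ← bf_phi (cs := cs) (h := h) h4 y, phi_phi_inv, bf_symm h4,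
        bf_symm h4 (al i)]
      simp only [bf, e]
    have k2 := k1 (phi cs h y (al j))
    rw [phi_inv_phi, e, mulVec_al, mulVec_al, h1, h1] at k2
    have k3 : d j = d i := by simpa using k2
    have k4 := k1 v
    rw [k3] at k4
    exact_mod_cast mul_left_cancel₀ (h3 i).ne' k4

end Pool.Agent.P.MP_74db7f_al
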