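import Pool.Agent.P.MP_74db7f_al.F.A1

/-! A2: translations, the cocycle `kap` and the generator of a root string. -/

namespace Pool.Agent.P.MP_74db7f_al

open Matrix CoxeterSystem

variable {B : Type*} [Fintype B] [DecidableEq B] {W : Type*} [Group W] {M : CoxeterMatrix B}
  {cs : CoxeterSystem M W} {A : Matrix B B ℤ} {h : GC M A} {S0 : Finset B}

omit [DecidableEq B] in
theorem rad_sub {u v : B → ℤ} (e : A *ᵥ u = A *ᵥ v) : A *ᵥ (u - v) = 0 := by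
  rw [mulVec_sub, e, sub_self]

theorem A_phi_congr (w : W) {u v : B → ℤ} (e : A *ᵥ u = A *ᵥ v) :
    A *ᵥ phi cs h w u = A *ᵥ phi cs h w v := by
  have := phi_add_rad (cs := cs) (h := h) w v (rad_sub e)
  rw [add_sub_cancel] at this
  rw [this, mulVec_add, rad_sub e, add_zero]

variable (cs h) in
/-- translations -/
def Tr (t : W) : Prop := ∀ v, A *ᵥ phi cs h t v = A *ᵥ v

theorem Tr.one : Tr cs h 1 := fun v => by simp

theorem Tr.mul {t t' : W} (h1 : Tr cs h t) (h2 : Tr cs h t') : Tr cs h (t * t') := fun v => by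
  rw [phi_mul, h1, h2]

theorem Tr.inv {t : W} (h1 : Tr cs h t) : Tr cs h t⁻¹ := fun v => by
  rw [← h1, phi_phi_inv]

theorem Tr.conj {t : W} (h1 : Tr cs h t) (w : W) : Tr cs h (w * t * w⁻¹) := fun v => by
  rw [phi_mul, phi_mul, A_phi_congr w (h1 _), phi_phi_inv]

theorem Tr.str {t : W} (h1 : Tr cs h t) {β : B → ℤ} (hβ : Root cs h β) :
    phi cs h t β - β ∈ Str cs h β :=
  ⟨rad_sub (h1 β), by simpa using hβ.phi t⟩

variable (cs h S0) in
/-- the image of the origin -/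
noncomputable def kap (w : W) : (B → ℤ) →ₗ[ℤ] ℤ := lev S0 ∘ₗ phi cs h w⁻¹ - lev S0

theorem kap_apply (w : W) (v : B → ℤ) :
    kap cs h S0 w v = lev S0 (phi cs h w⁻¹ v) - lev S0 v := rfl

theorem kap_congr (w : W) {u v : B → ℤ} (e : A *ᵥ u = A *ᵥ v) :
    kap cs h S0 w u = kap cs h S0 w v := by
  rw [← sub_eq_zero, ← map_sub, kap_apply, phi_ker cs h _ (rad_sub e), sub_self]

theorem kap_mul (g w : W) (v : B → ℤ) :
    kap cs h S0 (g * w) v = kap cs h S0 g v + kap cs h S0 w (phi cs h g⁻¹ v) := by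
  simp only [kap_apply, _root_.mul_inv_rev, phi_mul]
  ring

theorem kap_W0 {u : W} (hu : u ∈ Subgroup.closure (cs.simple '' (S0 : Set B))) :
    kap cs h S0 u = 0 := by
  refine LinearMap.ext fun v => ?_
  rw [kap_apply, lev_W0 (inv_mem hu), sub_self, LinearMap.zero_apply]

theorem Tr.kap_mul {t : W} (h1 : Tr cs h t) (w : W) :
    kap cs h S0 (t * w) = kap cs h S0 t + kap cs h S0 w := by
  refine LinearMap.ext fun v => ?_
  rw [Pool.Agent.P.MP_74db7f_al.kap_mul, kap_congr w (h1.inv v), LinearMap.add_apply]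

theorem Tr.kap_inv {t : W} (h1 : Tr cs h t) : kap cs h S0 t⁻¹ = -kap cs h S0 t := by
  rw [eq_neg_iff_add_eq_zero, ← h1.inv.kap_mul, inv_mul_cancel, kap_W0 (one_mem _)]

theorem Tr.kap_conj {t : W} (h1 : Tr cs h t) (w : W) (v : B → ℤ) :
    kap cs h S0 (w * t * w⁻¹) v = kap cs h S0 t (phi cs h w⁻¹ v) := by
  have := Pool.Agent.P.MP_74db7f_al.kap_mul (cs := cs) (h := h) (S0 := S0) w w⁻¹ v
  rw [mul_inv_cancel, kap_W0 (one_mem _), LinearMap.zero_apply] at this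
  rw [mul_assoc, Pool.Agent.P.MP_74db7f_al.kap_mul, h1.kap_mul, LinearMap.add_apply]
  omega

theorem AH.str_eq (H : AH cs h S0) {β ρ ρ' : B → ℤ} (h1 : ρ ∈ Str cs h β)
    (h2 : ρ' ∈ Str cs h β) (e : lev S0 ρ' = lev S0 ρ) : ρ' = ρ := by
  have h3 := Str.sign (σ := ρ' - ρ) h1 (by simpa using h2)
  refine sub_eq_zero.1 (H.nd _ (supp_of_lev h3 (by rw [map_sub, e, sub_self])) fun i _ => ?_)
  rw [mulVec_sub, h1.1, h2.1, sub_zero, Pi.zero_apply]

theorem AH.tr_ext (H : AH cs h S0) {t t' : W} (h1 : Tr cs h t) (h2 : Tr cs h t')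
    (e : kap cs h S0 t = kap cs h S0 t') : t = t' := by
  have h3 := h2.inv.mul h1
  have h4 : kap cs h S0 (t'⁻¹ * t) = 0 := by rw [h2.inv.kap_mul, h2.kap_inv, e, neg_add_cancel]
  rw [eq_comm, ← inv_mul_eq_one, ← inv_eq_one]
  refine phi_inj cs h fun i => sub_eq_zero.1 (H.str_eq (Str.zero (root_al cs h i))
    (h3.inv.str (root_al cs h i)) ?_)
  rw [map_sub, ← kap_apply, h4, map_zero, LinearMap.zero_apply]

theorem AH.tau (H : AH cs h S0) {i j : B} {y : W} {ρ : B → ℤ} (hρ : A *ᵥ ρ = 0)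
    (e : al i + ρ = phi cs h y (al j)) (v : B → ℤ) :
    phi cs h (cs.simple i * (y * cs.simple j * y⁻¹)) v = v - (A *ᵥ v) i • ρ := by
  rw [phi_mul, phi_refl, H.co y i j (by rw [← e, mulVec_add, hρ, add_zero]), ← e, map_sub,
    map_smul, phi_add_rad _ _ hρ, phi_simple, sig_al h, sig_apply]
  module

theorem AH.exists_tau (H : AH cs h S0) {i : B} {ρ : B → ℤ} (hρ : ρ ∈ Str cs h (al i)) :
    ∃ t, Tr cs h t ∧ ∀ v, phi cs h t v = v - (A *ᵥ v) i • ρ := by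
  obtain ⟨y, j, e⟩ := hρ.2
  refine ⟨_, fun v => ?_, H.tau hρ.1 e⟩
  rw [H.tau hρ.1 e, mulVec_sub, mulVec_smul, hρ.1, smul_zero, sub_zero]

theorem AH.sp' (H : AH cs h S0) {o : B} (ho : o ∉ S0) :
    ∃ y ∈ Subgroup.closure (cs.simple '' (S0 : Set B)), ∃ i ∈ S0,
      A *ᵥ (phi cs h y (al i) - al o) = 0 := by
  obtain ⟨u, hu, i, hi, e⟩ := H.sp o ho
  refine ⟨u * cs.simple i, mul_mem hu (Subgroup.subset_closure ⟨i, hi, rfl⟩), i, hi, ?_⟩
  rw [phi_mul_simple, sig_al h, map_neg, ← neg_add', add_comm, mulVec_neg, e, neg_zero]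

theorem AH.decomp (H : AH cs h S0) (w : W) :
    ∃ t, Tr cs h t ∧ ∃ u ∈ Subgroup.closure (cs.simple '' (S0 : Set B)), w = t * u := by
  induction w using cs.simple_induction with
  | simple o =>
    by_cases ho : o ∈ S0
    · exact ⟨1, Tr.one, _, Subgroup.subset_closure ⟨o, ho, rfl⟩, (one_mul _).symm⟩
    obtain ⟨y, hy, i, hi, e⟩ := H.sp' ho
    have h1 := H.tau e (add_sub_cancel _ _)
    refine ⟨cs.simple o * (y * cs.simple i * y⁻¹), fun v => ?_, (y * cs.simple i * y⁻¹)⁻¹,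
      inv_mem (mul_mem (mul_mem hy (Subgroup.subset_closure ⟨i, hi, rfl⟩)) (inv_mem hy)), ?_⟩
    · rw [h1, mulVec_sub, mulVec_smul, e, smul_zero, sub_zero]
    · rw [mul_inv_cancel_right]
  | one => exact ⟨1, Tr.one, 1, one_mem _, (one_mul _).symm⟩
  | mul w w' h1 h2 =>
    obtain ⟨t, ht, u, hu, rfl⟩ := h1
    obtain ⟨t', ht', u', hu', rfl⟩ := h2
    exact ⟨_, ht.mul (ht'.conj u), _, mul_mem hu hu', by group⟩

theorem AH.exists_lev_ne (H : AH cs h S0) {β : B → ℤ} (hβ : Root cs h β) :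
    ∃ ρ ∈ Str cs h β, lev S0 ρ ≠ 0 := by
  obtain ⟨x, i, rfl⟩ := hβ
  rw [Str.phi]
  obtain ⟨o, ho, hc⟩ := H.con i
  induction hc using Relation.ReflTransGen.head_induction_on with
  | refl =>
    obtain ⟨y, hy, i, hi, e⟩ := H.sp' ho
    refine ⟨_, ⟨e, y, i, add_sub_cancel _ _⟩, ?_⟩
    rw [map_sub, lev_W0 hy, lev_al, lev_al, if_pos hi, if_neg ho]
    omega
  | @head a b hab _ ih =>
    obtain ⟨ρ, hρ, h0⟩ := ih
    obtain ⟨t, ht, e⟩ := H.exists_tau hρ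
    refine ⟨_, ht.str (root_al cs h a), ?_⟩
    rw [e, sub_sub_cancel_left, map_neg, map_smul, mulVec_al, neg_ne_zero]
    exact mul_ne_zero (fun e => hab (h.zero _ _ e)) h0

theorem AH.exists_lev_zero (H : AH cs h S0) {β : B → ℤ} (hβ : Root cs h β) :
    ∃ ρ ∈ Str cs h β, lev S0 (β + ρ) = 0 := by
  obtain ⟨x, j, rfl⟩ := hβ
  obtain ⟨t, ht, u, hu, rfl⟩ := H.decomp x
  obtain ⟨y, hy, i, hi, e⟩ : ∃ y ∈ Subgroup.closure (cs.simple '' (S0 : Set B)), ∃ i ∈ S0,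
      A *ᵥ (phi cs h y (al i) - al j) = 0 := by
    by_cases hj : j ∈ S0
    · exact ⟨1, one_mem _, j, hj, by simp⟩
    · exact H.sp' hj
  rw [mulVec_sub, sub_eq_zero] at e
  refine ⟨phi cs h (u * y) (al i) - phi cs h (t * u) (al j), ⟨rad_sub ?_, u * y, i, by simp⟩, ?_⟩
  · rw [phi_mul, phi_mul, ht, A_phi_congr u e]
  · rw [add_sub_cancel, lev_W0 (mul_mem hu hy), lev_al, if_pos hi]

theorem AH.exists_gen (H : AH cs h S0) {β : B → ℤ} (hβ : Root cs h β) :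
    ∃ ρ, 0 < lev S0 ρ ∧ ∀ σ, σ ∈ Str cs h β ↔ ∃ k : ℤ, σ = k • ρ := by
  have hn : ∀ {ρ}, ρ ∈ Str cs h β → -ρ ∈ Str cs h β := fun hρ => by
    simpa using Str.refl (Str.zero hβ) hρ
  obtain ⟨m, ⟨ρ, hρ, rfl, h0⟩, hm⟩ := Int.exists_least_of_bdd
    (P := fun m => ∃ ρ ∈ Str cs h β, lev S0 ρ = m ∧ 0 < m) ⟨0, fun _ ⟨_, _, _, h1⟩ => h1.le⟩ (by
      obtain ⟨ρ, hρ, h0⟩ := H.exists_lev_ne hβ
      rcases lt_or_gt_of_ne h0 with h1 | h1
      · exact ⟨_, _, hn hρ, rfl, by rw [map_neg]; omega⟩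
      · exact ⟨_, _, hρ, rfl, h1⟩)
  have hl : ∀ k : ℤ, k • ρ ∈ Str cs h β := fun k => by
    simpa using Str.line (Str.zero hβ) (σ := ρ) (by simpa using hρ) k
  refine ⟨ρ, h0, fun σ => ⟨fun hσ => ?_, fun ⟨k, e⟩ => e ▸ hl k⟩⟩
  set q := lev S0 σ / (2 * lev S0 ρ)
  have a1 := Int.emod_nonneg (lev S0 σ) (b := 2 * lev S0 ρ) (by omega)
  have a2 := Int.emod_lt_of_pos (lev S0 σ) (b := 2 * lev S0 ρ) (by omega)
  have a3 := Int.mul_ediv_add_emod (lev S0 σ) (2 * lev S0 ρ)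
  have b1 := hn (Str.refl (hl q) hσ)
  have b2 := Str.refl hρ b1
  have c1 : lev S0 (-((2 : ℤ) • q • ρ - σ)) = lev S0 σ % (2 * lev S0 ρ) := by
    simp only [map_neg, map_sub, map_smul, smul_eq_mul]
    linear_combination -a3
  by_cases c2 : lev S0 σ % (2 * lev S0 ρ) = 0
  · have := H.str_eq (Str.zero hβ) b1 (by rw [c1, c2, map_zero])
    exact ⟨2 * q, by linear_combination (exp := 1) this⟩
  · have d1 := hm _ ⟨_, b1, c1, by omega⟩
    have d2 := hm (2 * lev S0 ρ - lev S0 σ % (2 * lev S0 ρ)) ⟨_, b2, by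
      rw [map_sub, c1, map_smul, smul_eq_mul], by omega⟩
    have := H.str_eq hρ b1 (by omega)
    exact ⟨2 * q + 1, by linear_combination (exp := 1) this⟩

end Pool.Agent.P.MP_74db7f_al
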