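import Pool.Agent.P.MP_74db7f_al.F.A2

/-! A3: the translation lattice in coordinates; finite roots. -/

namespace Pool.Agent.P.MP_74db7f_al

open Matrix CoxeterSystem

variable {B : Type*} [Fintype B] [DecidableEq B] {W : Type*} [Group W] {M : CoxeterMatrix B}
  {cs : CoxeterSystem M W} {A : Matrix B B ℤ} {h : GC M A} {S0 : Finset B}

variable (cs h S0) in
/-- the translation lattice in coordinates -/
structure PD where
  n : ℕ
  io : Lat n →ₗ[ℤ] (B → ℤ) →ₗ[ℤ] ℤ
  io_inj : Function.Injective io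
  tr : Lat n → W
  tr_Tr : ∀ x, Tr cs h (tr x)
  tr_kap : ∀ x, kap cs h S0 (tr x) = io x
  kp : W → Lat n
  kp_eq : ∀ w, io (kp w) = kap cs h S0 w
  gr : W →* (Lat n ≃ₗ[ℤ] Lat n)
  gr_eq : ∀ w x v, io (gr w x) v = io x (phi cs h w⁻¹ v)

theorem AH.exists_PD (H : AH cs h S0) : Nonempty (PD cs h S0) := by
  let X : Submodule ℤ ((B → ℤ) →ₗ[ℤ] ℤ) := AddSubgroup.toIntSubmodule
    { carrier := {f | ∃ t, Tr cs h t ∧ kap cs h S0 t = f}
      add_mem' := by
        rintro _ _ ⟨t, ht, rfl⟩ ⟨t', ht', rfl⟩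
        exact ⟨_, ht.mul ht', ht.kap_mul _⟩
      zero_mem' := ⟨1, Tr.one, kap_W0 (one_mem _)⟩
      neg_mem' := by
        rintro _ ⟨t, ht, rfl⟩
        exact ⟨_, ht.inv, ht.kap_inv⟩ }
  let e := (Module.finBasis ℤ X).equivFun
  let io := X.subtype ∘ₗ e.symm.toLinearMap
  have inj : Function.Injective io := X.injective_subtype.comp e.symm.injective
  have h1 : ∀ x, ∃ t, Tr cs h t ∧ kap cs h S0 t = io x := fun x => (e.symm x).2
  have h2 : ∀ w, ∃ x, io x = kap cs h S0 w := fun w => by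
    obtain ⟨t, ht, u, hu, rfl⟩ := H.decomp w
    have : kap cs h S0 (t * u) = kap cs h S0 t := by
      rw [ht.kap_mul, kap_W0 hu, add_zero]
    exact ⟨e ⟨_, t, ht, rfl⟩, by simp [io, this]⟩
  choose tr h3 h4 using h1
  choose kp h5 using h2
  have h6 : ∀ w x v, io (kp (w * tr x * w⁻¹)) v = io x (phi cs h w⁻¹ v) := fun w x v => by
    rw [h5, (h3 x).kap_conj, h4]
  have ext : ∀ {x y}, (∀ v, io x v = io y v) → x = y := fun e => inj (LinearMap.ext e)
  exact ⟨⟨_, io, inj, tr, h3, h4, kp, h5,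
    { toFun := fun w =>
        { toFun := fun x => kp (w * tr x * w⁻¹)
          invFun := fun x => kp (w⁻¹ * tr x * w⁻¹⁻¹)
          map_add' := fun x y => ext fun v => by
            simp only [h6, map_add, LinearMap.add_apply]
          map_smul' := fun c x => ext fun v => by
            simp only [h6, map_smul, LinearMap.smul_apply, RingHom.id_apply]
          left_inv := fun x => ext fun v => by
            simp only [h6]
            rw [inv_inv, phi_inv_phi]
          right_inv := fun x => ext fun v => by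
            simp only [h6]
            rw [inv_inv, phi_phi_inv] }
      map_one' := LinearEquiv.ext fun x => ext fun v => by
        simp only [LinearEquiv.coe_mk, LinearMap.coe_mk, AddHom.coe_mk, h6]
        simp
      map_mul' := fun g w => LinearEquiv.ext fun x => ext fun v => by
        simp only [LinearEquiv.mul_apply, LinearEquiv.coe_mk, LinearMap.coe_mk, AddHom.coe_mk, h6]
        rw [_root_.mul_inv_rev, phi_mul] }, h6⟩⟩

variable (S0) in
/-- the positive generator of a string -/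
noncomputable def gen (S : Set (B → ℤ)) : B → ℤ :=
  Classical.epsilon fun ρ => 0 < lev S0 ρ ∧ ∀ σ, σ ∈ S ↔ ∃ k : ℤ, σ = k • ρ

variable (cs h S0) in
/-- the generator of the string through `β` -/
noncomputable def rho (β : B → ℤ) : B → ℤ := gen S0 (Str cs h β)

variable (cs h S0) in
/-- its level -/
noncomputable def mm (β : B → ℤ) : ℤ := lev S0 (rho cs h S0 β)

variable (cs h S0) in
/-- the normalised level -/
noncomputable def nlv (β : B → ℤ) : ℤ := lev S0 β / mm cs h S0 β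

namespace AH

variable (H : AH cs h S0) {β : B → ℤ} (hβ : Root cs h β)
include H hβ

theorem mm_pos : 0 < mm cs h S0 β := (Classical.epsilon_spec (H.exists_gen hβ)).1

theorem mem_str {σ : B → ℤ} : σ ∈ Str cs h β ↔ ∃ k : ℤ, σ = k • rho cs h S0 β :=
  (Classical.epsilon_spec (H.exists_gen hβ)).2 σ

theorem smul_rho (k : ℤ) : k • rho cs h S0 β ∈ Str cs h β := (H.mem_str hβ).2 ⟨k, rfl⟩

theorem str_add {ρ : B → ℤ} (hρ : ρ ∈ Str cs h β) : Str cs h (β + ρ) = Str cs h β := by
  obtain ⟨k, e⟩ := (H.mem_str hβ).1 hρ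
  ext σ
  have : σ ∈ Str cs h (β + ρ) ↔ ρ + σ ∈ Str cs h β := by
    simp only [Str, Set.mem_ofPred_eq, mulVec_add, hρ.1, zero_add, add_assoc]
  rw [this, H.mem_str hβ, H.mem_str hβ, e]
  exact ⟨fun ⟨l, e⟩ => ⟨l - k, by linear_combination (exp := 1) e⟩,
    fun ⟨l, e⟩ => ⟨k + l, by linear_combination (exp := 1) e⟩⟩

theorem mm_dvd {ρ : B → ℤ} (hρ : ρ ∈ Str cs h β) : mm cs h S0 β ∣ lev S0 ρ := by
  obtain ⟨k, rfl⟩ := (H.mem_str hβ).1 hρ
  rw [map_smul]
  exact Dvd.intro_left k rfl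

theorem mm_nlv : mm cs h S0 β * nlv cs h S0 β = lev S0 β := by
  obtain ⟨ρ, hρ, e⟩ := H.exists_lev_zero hβ
  refine Int.mul_ediv_cancel' ?_
  rw [map_add, add_eq_zero_iff_eq_neg] at e
  rw [e]
  exact (H.mm_dvd hβ hρ).neg_right

theorem ht_rho : 0 < ht (rho cs h S0 β) := by
  have h1 := H.mm_pos hβ
  have h2 := Str.sign (σ := rho cs h S0 β) (Str.zero hβ) (by simpa using H.smul_rho hβ 1)
  rcases h2 with h2 | h2
  · refine ht_pos h2 fun e => ?_
    rw [mm, e, map_zero] at h1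
    omega
  · have := lev_nonpos S0 h2
    rw [mm] at h1
    omega

end AH

namespace PD

variable (P : PD cs h S0)

theorem ext' {x y : Lat P.n} (e : ∀ v, P.io x v = P.io y v) : x = y := P.io_inj (LinearMap.ext e)

theorem io_congr (x : Lat P.n) {u v : B → ℤ} (e : A *ᵥ u = A *ᵥ v) : P.io x u = P.io x v := by
  rw [← P.tr_kap, kap_congr _ e]

/-- the finite root of `β` -/
noncomputable def gam (β : B → ℤ) : Du P.n :=
  Classical.epsilon fun γ => ∀ x, mm cs h S0 β * γ x = P.io x β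

variable (H : AH cs h S0) {β : B → ℤ} (hβ : Root cs h β)
include H hβ

theorem mm_gam (x : Lat P.n) : mm cs h S0 β * P.gam β x = P.io x β := by
  have h0 := (H.mm_pos hβ).ne'
  have h1 : ∀ x, mm cs h S0 β * (P.io x β / mm cs h S0 β) = P.io x β := fun x => by
    refine Int.mul_ediv_cancel' ?_
    rw [← P.tr_kap, kap_apply, ← map_sub]
    exact H.mm_dvd hβ ((P.tr_Tr x).inv.str hβ)
  refine Classical.epsilon_spec (p := fun γ : Du P.n => ∀ x, mm cs h S0 β * γ x = P.io x β)
    ⟨⟨⟨fun x => P.io x β / mm cs h S0 β, fun x y => mul_left_cancel₀ h0 ?_⟩,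
      fun c x => mul_left_cancel₀ h0 ?_⟩, h1⟩ x
  · rw [mul_add, h1, h1, h1, map_add, LinearMap.add_apply]
  · rw [RingHom.id_apply, smul_eq_mul, mul_left_comm, h1, h1, map_smul, LinearMap.smul_apply,
      smul_eq_mul]

theorem gam_eq {γ : Du P.n} (e : ∀ x, mm cs h S0 β * γ x = P.io x β) : P.gam β = γ :=
  LinearMap.ext fun x => mul_left_cancel₀ (H.mm_pos hβ).ne' ((P.mm_gam H hβ x).trans (e x).symm)

theorem gam_phi (w : W) : P.gam (phi cs h w⁻¹ β) = pbk (P.gr w) (P.gam β) := by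
  refine P.gam_eq H (hβ.phi _) fun x => ?_
  rw [mm, rho, Str.phi, ← P.gr_eq]
  exact P.mm_gam H hβ _

theorem gam_neg : P.gam (-β) = -P.gam β := by
  refine P.gam_eq H hβ.neg fun x => ?_
  rw [mm, rho, Str.neg hβ, map_neg, LinearMap.neg_apply, mul_neg]
  exact congrArg Neg.neg (P.mm_gam H hβ _)

theorem gam_add {ρ : B → ℤ} (hρ : ρ ∈ Str cs h β) : P.gam (β + ρ) = P.gam β := by
  refine P.gam_eq H hρ.2 fun x => ?_
  rw [mm, rho, H.str_add hβ hρ, P.io_congr x (v := β) (by rw [mulVec_add, hρ.1, add_zero])]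
  exact P.mm_gam H hβ _

theorem nlv_phi (w : W) :
    nlv cs h S0 (phi cs h w⁻¹ β) = nlv cs h S0 β + P.gam β (P.kp w) := by
  have h1 := H.mm_nlv (hβ.phi w⁻¹)
  have h2 : mm cs h S0 (phi cs h w⁻¹ β) = mm cs h S0 β := by rw [mm, rho, Str.phi]; rfl
  refine mul_left_cancel₀ (H.mm_pos hβ).ne' ?_
  rw [mul_add, P.mm_gam H hβ, P.kp_eq, kap_apply, H.mm_nlv hβ, ← h2, h1, add_sub_cancel]

omit P in
theorem nlv_add (k : ℤ) : nlv cs h S0 (β + k • rho cs h S0 β) = nlv cs h S0 β + k := by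
  have h1 := H.mm_nlv (H.smul_rho hβ k).2
  have h2 : mm cs h S0 (β + k • rho cs h S0 β) = mm cs h S0 β := by
    rw [mm, rho, H.str_add hβ (H.smul_rho hβ k)]; rfl
  refine mul_left_cancel₀ (H.mm_pos hβ).ne' ?_
  rw [mul_add, H.mm_nlv hβ, ← h2, h1, map_add, map_smul, smul_eq_mul, h2, mul_comm]
  rfl

omit hβ in
theorem finite_gam : {γ | ∃ β, Root cs h β ∧ P.gam β = γ}.Finite := by
  refine (H.fin.image fun k =>
    P.gam (Classical.epsilon fun β => Root cs h β ∧ A *ᵥ β = k)).subset ?_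
  rintro _ ⟨β, hβ, rfl⟩
  have := Classical.epsilon_spec (p := fun β' => Root cs h β' ∧ A *ᵥ β' = A *ᵥ β) ⟨β, hβ, rfl⟩
  refine ⟨_, ⟨β, hβ, rfl⟩, ?_⟩
  rw [← P.gam_add H hβ ⟨rad_sub this.2, by simpa using this.1⟩, add_sub_cancel]

omit hβ in
theorem exists_co (i : B) :
    ∃ a, ∀ v, P.io a v = mm cs h S0 (al i) * (A *ᵥ v) i := by
  obtain ⟨t, -, e⟩ := H.exists_tau (H.smul_rho (root_al cs h i) (-1))
  refine ⟨P.kp t⁻¹, fun v => ?_⟩
  rw [P.kp_eq, kap_apply, inv_inv, e, mm, map_sub, map_smul, map_smul, smul_eq_mul, smul_eq_mul]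
  ring

omit hβ in
theorem exists_cw : ∃ m : ℤ, 0 < m ∧ ∃ cw : B → Lat P.n,
    ∀ i ∈ S0, ∀ j ∈ S0, P.gam (al j) (cw i) = if i = j then m else 0 := by
  choose a ha using P.exists_co H
  let N : Matrix S0 S0 ℤ := fun j k => P.gam (al j) (a k)
  let D : Matrix S0 S0 ℤ := diagonal fun j => mm cs h S0 (al j)
  let A0 : Matrix S0 S0 ℤ := fun i j => A i j
  have h1 : D * N = A0ᵀ * D := by
    ext j k
    simp only [D, N, A0, diagonal_mul, mul_diagonal, transpose_apply]
    rw [P.mm_gam H (root_al cs h j), ha, mulVec_al, mul_comm]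
  have h2 : D.det ≠ 0 := by
    rw [det_diagonal]
    exact Finset.prod_ne_zero_iff.2 fun j _ => (H.mm_pos (root_al cs h j)).ne'
  have h3 : A0.det ≠ 0 := by
    intro e
    obtain ⟨v, hv, e⟩ := exists_mulVec_eq_zero_iff.2 e
    have := H.nd (∑ k : S0, v k • al (k : B)) (fun i hi => ?_) fun i hi => ?_
    · refine hv (funext fun j => ?_)
      simpa [al, Pi.single_apply, Subtype.coe_inj] using congrFun this j
    · simp only [Finset.sum_apply, Pi.smul_apply, al]
      exact Finset.sum_eq_zero fun k _ => by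
        rw [Pi.single_eq_of_ne (fun e : i = k => hi (e ▸ k.2)), smul_zero]
    · have := congrFun e ⟨i, hi⟩
      simp only [mulVec_sum, mulVec_smul, Finset.sum_apply, Pi.smul_apply, mulVec_al]
      simpa [A0, mulVec, dotProduct, mul_comm] using this
  have h4 : N.det ≠ 0 := by
    have := congrArg det h1
    rw [det_mul, det_mul, det_transpose, mul_comm] at this
    rwa [mul_right_cancel₀ h2 this]
  refine ⟨N.det * N.det, mul_self_pos.2 h4, fun i => if hi : i ∈ S0 then
    ∑ k : S0, (N.det * N.adjugate k ⟨i, hi⟩) • a k else 0, fun i hi j hj => ?_⟩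
  have := congrFun (congrFun (mul_adjugate N) ⟨j, hj⟩) ⟨i, hi⟩
  simp only [mul_apply, Matrix.smul_apply, one_apply, Subtype.mk.injEq, smul_eq_mul] at this
  simp only [dif_pos hi, map_sum, map_smul, smul_eq_mul, mul_assoc, ← Finset.mul_sum]
  rw [Finset.sum_congr rfl fun k _ => mul_comm _ _]
  refine (congrArg _ this).trans ?_
  by_cases e : i = j
  · simp [e]
  · simp [e, Ne.symm e]

end PD

end Pool.Agent.P.MP_74db7f_al
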