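import Pool.Agent.P.MP_74db7f_al.F.A3

/-! A4: existence of the affine datum. -/

namespace Pool.Agent.P.MP_74db7f_al

open Matrix CoxeterSystem

variable {B : Type*} [Fintype B] [DecidableEq B] {W : Type*} [Group W] {M : CoxeterMatrix B}
  {cs : CoxeterSystem M W} {A : Matrix B B ℤ} {h : GC M A} {S0 : Finset B}

namespace PD

variable (P : PD cs h S0)

theorem io_sum (x : Lat P.n) {v : B → ℤ} (hv : ∀ o, o ∉ S0 → v o = 0) :
    P.io x v = ∑ j ∈ S0, v j * P.io x (al j) := by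
  have : v = ∑ j ∈ S0, v j • al j := by
    funext k
    by_cases hk : k ∈ S0
    · simp [al, Pi.single_apply, hk]
    · simp [al, Pi.single_apply, hk, hv k hk]
  conv_lhs => rw [this]
  simp only [map_sum, map_smul, smul_eq_mul]

theorem kp_tr (x : Lat P.n) (w : W) : P.kp (P.tr x * w) = x + P.kp w :=
  P.io_inj (by rw [map_add, P.kp_eq, P.kp_eq, (P.tr_Tr x).kap_mul, P.tr_kap])

theorem kp_W0 {u : W} (hu : u ∈ Subgroup.closure (cs.simple '' (S0 : Set B))) (w : W) :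
    P.kp (u * w) = P.gr u (P.kp w) :=
  P.ext' fun v => by rw [P.gr_eq, P.kp_eq, P.kp_eq, kap_mul, kap_W0 hu]; simp

theorem kp_one : P.kp 1 = 0 := P.io_inj (by rw [P.kp_eq, kap_W0 (one_mem _), map_zero])

theorem gr_tr (x : Lat P.n) : P.gr (P.tr x) = 1 :=
  LinearEquiv.ext fun y => P.ext' fun v => by
    rw [P.gr_eq]
    exact P.io_congr y ((P.tr_Tr x).inv v)

/-- the level of the fundamental alcove -/
noncomputable def mu1 (z : Lat P.n) (γ : Du P.n) : ℤ := if 0 < γ z then 0 else -1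

/-- the level of the alcove of `w` -/
noncomputable def mu (z : Lat P.n) (w : W) (γ : Du P.n) : ℤ :=
  γ (P.kp w) + P.mu1 z (pbk (P.gr w) γ)

theorem mu_one (z : Lat P.n) (γ : Du P.n) : P.mu z 1 γ = P.mu1 z γ := by
  rw [mu, P.kp_one, map_zero, zero_add, map_one]
  rfl

variable (H : AH cs h S0) {m : ℤ} (hm : 0 < m) {cw : B → Lat P.n}
  (hc : ∀ i ∈ S0, ∀ j ∈ S0, P.gam (al j) (cw i) = if i = j then m else 0)
  {β : B → ℤ} (hβ : Root cs h β)
include H hc hβ

theorem gam_cw (h0 : lev S0 β = 0) {i : B} (hi : i ∈ S0) :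
    mm cs h S0 β * P.gam β (cw i) = β i * (mm cs h S0 (al i) * m) := by
  rw [P.mm_gam H hβ, P.io_sum _ (supp_of_lev (hβ.sign.imp And.left And.left) h0),
    Finset.sum_eq_single_of_mem i hi, ← P.mm_gam H (root_al cs h i), hc i hi i hi, if_pos rfl]
  intro j hj e
  rw [← P.mm_gam H (root_al cs h j), hc i hi j hj, if_neg e.symm, mul_zero, mul_zero]

include hm

theorem gam_cw_nonneg (h0 : lev S0 β = 0) (h1 : 0 ≤ β) {i : B} (hi : i ∈ S0) :
    0 ≤ P.gam β (cw i) := by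
  refine nonneg_of_mul_nonneg_right ?_ (H.mm_pos hβ)
  rw [P.gam_cw H hc hβ h0 hi]
  exact mul_nonneg (h1 i) (mul_pos (H.mm_pos (root_al cs h i)) hm).le

theorem gam_z_pos (h0 : lev S0 β = 0) (h1 : 0 < ht β) : 0 < P.gam β (∑ i ∈ S0, cw i) := by
  have h2 : 0 ≤ β := by
    rcases hβ.sign with h2 | h2
    · exact h2.1
    · omega
  obtain ⟨i, hi⟩ : ∃ i, β i ≠ 0 := by
    by_contra hn
    push Not at hn
    simp [ht_apply, hn] at h1
  have h3 : i ∈ S0 := by
    by_contra hn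
    exact hi (supp_of_lev (Or.inl h2) h0 i hn)
  rw [map_sum]
  refine Finset.sum_pos' (fun j hj => P.gam_cw_nonneg H hm hc hβ h0 h2 hj) ⟨i, h3, ?_⟩
  refine pos_of_mul_pos_left ?_ (H.mm_pos hβ).le
  rw [mul_comm, P.gam_cw H hc hβ h0 h3]
  exact mul_pos (lt_of_le_of_ne (h2 i) hi.symm) (mul_pos (H.mm_pos (root_al cs h i)) hm)

theorem gam_z_neg (h0 : lev S0 β = 0) (h1 : ht β < 0) : P.gam β (∑ i ∈ S0, cw i) < 0 := by
  have := P.gam_z_pos H hm hc hβ.neg (by rw [map_neg, h0, neg_zero]) (by rw [map_neg]; omega)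
  rw [P.gam_neg H hβ, LinearMap.neg_apply] at this
  omega

theorem gam_z_ne : P.gam β (∑ i ∈ S0, cw i) ≠ 0 := by
  obtain ⟨ρ, hρ, e⟩ := H.exists_lev_zero hβ
  rw [← P.gam_add H hβ hρ]
  rcases hρ.2.sign with h1 | h1
  · exact (P.gam_z_pos H hm hc hρ.2 e h1.2).ne'
  · exact (P.gam_z_neg H hm hc hρ.2 e h1.2).ne

theorem key_one : 0 < ht β ↔ 0 ≤ nlv cs h S0 β + P.mu1 (∑ i ∈ S0, cw i) (P.gam β) := by
  have h1 := H.mm_nlv hβ
  have h2 := H.mm_pos hβ
  have h3 := P.gam_z_pos H hm hc hβ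
  have h4 := P.gam_z_neg H hm hc hβ
  unfold mu1
  rcases hβ.sign with h5 | h5
  · have h6 := lev_nonneg S0 h5.1
    have h7 : 0 ≤ nlv cs h S0 β := nonneg_of_mul_nonneg_right (h1 ▸ h6) h2
    rcases h7.eq_or_lt with h8 | h8
    · rw [if_pos (h3 (by rw [← h1, ← h8, mul_zero]) h5.2)]
      omega
    · split_ifs <;> omega
  · have h6 := lev_nonpos S0 h5.1
    have h7 : nlv cs h S0 β ≤ 0 := nonpos_of_mul_nonpos_right (h1 ▸ h6) h2
    rcases h7.eq_or_lt with h8 | h8
    · rw [if_neg (h4 (by rw [← h1, h8, mul_zero]) h5.2).not_gt]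
      omega
    · split_ifs <;> omega

theorem key (w : W) (k : ℤ) : 0 < ht (phi cs h w⁻¹ (β + k • rho cs h S0 β)) ↔
    0 ≤ nlv cs h S0 β + k + P.mu (∑ i ∈ S0, cw i) w (P.gam β) := by
  have h1 := H.smul_rho hβ k
  rw [P.key_one H hm hc (h1.2.phi _), P.nlv_phi H h1.2, P.gam_phi H h1.2, P.gam_add H hβ h1,
    nlv_add H hβ, mu, add_assoc]

theorem mu_al (w : W) (i : B) (e : β = phi cs h w (al i)) :
    nlv cs h S0 β + P.mu (∑ i ∈ S0, cw i) w (P.gam β) = 0 := by
  have h1 := P.key H hm hc hβ w 0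
  have h2 := P.key H hm hc hβ w (-1)
  have h3 := H.ht_rho hβ
  rw [phi_add_rad _ _ (H.smul_rho hβ _).1, map_add, map_smul] at h1 h2
  have h4 : ht (phi cs h w⁻¹ β) = 1 := by rw [e, phi_inv_phi, ht_al]
  simp only [smul_eq_mul] at h1 h2
  omega

end PD

theorem exists_AD (cs : CoxeterSystem M W) (hM : AffType M) : Nonempty (AD cs) := by
  obtain ⟨A, h, S0, H⟩ := exists_AH cs hM
  obtain ⟨P⟩ := H.exists_PD
  obtain ⟨m, hm, cw, hc⟩ := P.exists_cw H
  have mem : ∀ {γ}, γ ∈ (P.finite_gam H).toFinset ↔ ∃ β, Root cs h β ∧ P.gam β = γ :=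
    (P.finite_gam H).mem_toFinset
  have ra := root_al cs h
  have m1 := fun i => P.mu_al H hm hc (ra i) 1 i (by simp)
  refine ⟨{
    n := P.n
    tr := P.tr
    tr_add := fun x y => H.tr_ext (P.tr_Tr _) ((P.tr_Tr x).mul (P.tr_Tr y)) (by
      rw [(P.tr_Tr x).kap_mul, P.tr_kap, P.tr_kap, P.tr_kap, map_add])
    gr := P.gr
    conj := fun w x => by
      rw [← mul_inv_eq_iff_eq_mul]
      refine H.tr_ext ((P.tr_Tr x).conj w) (P.tr_Tr _) (LinearMap.ext fun v => ?_)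
      rw [(P.tr_Tr x).kap_conj, P.tr_kap, P.tr_kap, P.gr_eq]
    gr_tr := P.gr_tr
    S0 := S0
    decomp := fun w => by
      obtain ⟨t, ht, u, hu, rfl⟩ := H.decomp w
      exact ⟨P.kp t, u, hu, by rw [← H.tr_ext ht (P.tr_Tr _) (by rw [P.tr_kap, P.kp_eq])]⟩
    R := (P.finite_gam H).toFinset
    sr := fun i => P.gam (al i)
    mu := P.mu (∑ i ∈ S0, cw i)
    sr_mem := fun i => mem.2 ⟨_, ra i, rfl⟩
    pb_mem' := fun w γ hγ => ?_
    neg_mem := fun γ hγ => ?_
    refl_simple := fun i => ?_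
    mu_neg := fun w γ hγ => ?_
    mu_one := fun γ _ => ?_
    mu_tr := fun x w γ _ => ?_
    mu_fin' := fun u hu w γ _ => ?_
    mu_simple := fun i => ?_
    mu_simple_ne := fun i γ hγ h1 h2 => ?_
    asc' := fun w i γ _ e => ?_
    S0_pos := fun i hi => ?_
    m := m
    m_pos := hm
    cw := cw
    cw_self := fun i hi => by rw [hc i hi i hi, if_pos rfl]
    cw_ne := fun i hi j hj e => by rw [hc i hi j hj, if_neg e]
    sep := fun x hx => ?_
    cw_pos := fun γ hγ h0 i hi => ?_ }⟩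
  · obtain ⟨β, hβ, rfl⟩ := mem.1 hγ
    exact mem.2 ⟨_, hβ.phi _, P.gam_phi H hβ w⟩
  · obtain ⟨β, hβ, rfl⟩ := mem.1 hγ
    exact mem.2 ⟨_, hβ.neg, P.gam_neg H hβ⟩
  · obtain ⟨a, ha⟩ := P.exists_co H i
    refine ⟨a, mul_left_cancel₀ (H.mm_pos (ra i)).ne' ?_, fun x => P.ext' fun v => ?_⟩
    · rw [P.mm_gam H (ra i), ha, mulVec_al, h.diag]
    · rw [P.gr_eq, inv_simple, phi_simple, sig_apply, map_sub, map_smul, map_sub, map_smul,
        LinearMap.sub_apply, LinearMap.smul_apply, ha, ← P.mm_gam H (ra i), smul_eq_mul,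
        smul_eq_mul]
      ring
  · obtain ⟨β, hβ, rfl⟩ := mem.1 hγ
    have := P.gam_z_ne H hm hc (hβ.phi w⁻¹)
    rw [P.gam_phi H hβ] at this
    simp only [PD.mu, PD.mu1, pbk, LinearMap.neg_apply, LinearMap.comp_apply] at this ⊢
    split_ifs <;> omega
  · rw [P.mu_one, PD.mu1]
    split_ifs <;> simp
  · rw [PD.mu, PD.mu, P.kp_tr, map_mul, P.gr_tr, one_mul, map_add]
    ring
  · rw [PD.mu, PD.mu, P.kp_W0 hu, map_mul]
    rfl
  · have h1 := P.key H hm hc (ra i) (cs.simple i) 0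
    have h2 := P.key H hm hc (ra i) (cs.simple i) 1
    have h3 := H.ht_rho (ra i)
    have h4 := (H.smul_rho (ra i) (-1)).2.ht_ne
    rw [phi_add_rad _ _ (H.smul_rho (ra i) _).1, inv_simple, phi_simple, sig_al h] at h1 h2
    simp only [map_add, map_neg, map_smul, smul_eq_mul, ht_al] at h1 h2 h4
    have := m1 i
    omega
  · obtain ⟨β, hβ, rfl⟩ := mem.1 hγ
    have h3 : ∀ k : ℤ, 0 < ht (phi cs h (cs.simple i)⁻¹ (β + k • rho cs h S0 β)) ↔
        0 < ht (phi cs h 1⁻¹ (β + k • rho cs h S0 β)) := by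
      intro k
      have h4 := H.smul_rho hβ k
      rw [← P.gam_add H hβ h4] at h1 h2
      rw [inv_simple, phi_simple, inv_one, phi_one]
      constructor
      · intro h5
        rcases (h4.2.sig cs h i).sig_pos cs h h5 i with h6 | ⟨c, h6, e⟩
        · rwa [sig_sig cs h] at h6
        · obtain rfl := Root.eq_al (e ▸ h4.2.sig cs h i) h6
          rw [← sig_sig cs h i (β + _), e, one_smul, sig_al h, P.gam_neg H (ra i)] at h2
          exact absurd rfl h2
      · intro h5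
        rcases h4.2.sig_pos cs h h5 i with h6 | ⟨c, h6, e⟩
        · exact h6
        · obtain rfl := Root.eq_al (e ▸ h4.2) h6
          rw [e, one_smul] at h1
          exact absurd rfl h1
    simp only [P.key H hm hc hβ] at h3
    have a1 := h3 (-nlv cs h S0 β - P.mu (∑ i ∈ S0, cw i) 1 (P.gam β))
    have a2 := h3 (-nlv cs h S0 β - P.mu (∑ i ∈ S0, cw i) (cs.simple i) (P.gam β))
    omega
  · have hβ := (ra i).phi w
    have h1 : γ = P.gam (phi cs h w (al i)) := by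
      have h2 := P.gam_phi H hβ w
      rw [phi_inv_phi, ← e] at h2
      refine LinearMap.ext fun x => ?_
      simpa [pbk] using LinearMap.congr_fun h2 ((P.gr w).symm x)
    have h2 := P.mu_al H hm hc hβ w i rfl
    have h3 := P.key_one H hm hc hβ
    rw [h1, P.mu_one]
    rcases cs.length_mul_simple w i with h4 | h4
    · have := ht_asc cs h w i (by omega)
      omega
    · have := ht_desc cs h w i (by omega)
      omega
  · have := m1 i
    rwa [nlv, lev_al, if_pos hi, Int.zero_ediv, zero_add] at this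
  · have h1 : ∀ v : B → ℤ, (∀ o, o ∉ S0 → v o = 0) → P.io x v = 0 := fun v hv => by
      rw [P.io_sum x hv]
      exact Finset.sum_eq_zero fun j hj => by
        rw [← P.mm_gam H (ra j), hx j hj, mul_zero, mul_zero]
    refine P.io_inj (LinearMap.pi_ext' fun j => LinearMap.ext_ring ?_)
    obtain ⟨ρ, hρ, e⟩ := H.exists_lev_zero (ra j)
    have := h1 _ (supp_of_lev (hρ.2.sign.imp And.left And.left) e)
    rw [P.io_congr x (v := al j) (by rw [mulVec_add, hρ.1, add_zero])] at this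
    simpa [al] using this
  · obtain ⟨β, hβ, rfl⟩ := mem.1 hγ
    obtain ⟨ρ, hρ, e⟩ := H.exists_lev_zero hβ
    rw [← P.gam_add H hβ hρ] at h0 ⊢
    refine P.gam_cw_nonneg H hm hc hρ.2 e ?_ hi
    have := (P.key_one H hm hc hρ.2).2 (by rw [← P.mu_one, h0, nlv, e]; simp)
    rcases hρ.2.sign with h1 | h1
    · exact h1.1
    · omega

end Pool.Agent.P.MP_74db7f_al
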