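import Pool.Agent.P.MP_74db7f_al.Rep
import Pool.Agent.P.MP_74db7f_al.DefsF

/-! Affine data: the geometric interface (paper, section 0). Definitions only. -/

namespace Pool.Agent.P.MP_74db7f_al

open scoped Classical

abbrev Lat (n : ℕ) := Fin n → ℤ

abbrev Du (n : ℕ) := Lat n →ₗ[ℤ] ℤ

/-- pull back of a functional -/
def pbk {n : ℕ} (e : Lat n ≃ₗ[ℤ] Lat n) (γ : Du n) : Du n := γ ∘ₗ e.toLinearMap

/-- The affine datum. `mu w γ` is the level of the alcove `w A₀`: `mu < γ < mu + 1`. -/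
structure AD {B W : Type*} [Group W] {M : CoxeterMatrix B} (cs : CoxeterSystem M W) where
  n : ℕ
  tr : Lat n → W
  tr_add : ∀ x y, tr (x + y) = tr x * tr y
  gr : W →* (Lat n ≃ₗ[ℤ] Lat n)
  conj : ∀ w x, w * tr x = tr (gr w x) * w
  gr_tr : ∀ x, gr (tr x) = 1
  S0 : Finset B
  decomp : ∀ w, ∃ x, ∃ u ∈ Subgroup.closure (cs.simple '' (S0 : Set B)), w = tr x * u
  R : Finset (Du n)
  sr : B → Du n
  mu : W → Du n → ℤ
  sr_mem : ∀ i, sr i ∈ R
  pb_mem' : ∀ w, ∀ γ ∈ R, pbk (gr w) γ ∈ R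
  neg_mem : ∀ γ ∈ R, -γ ∈ R
  refl_simple : ∀ i, ∃ a, sr i a = 2 ∧ ∀ x, gr (cs.simple i) x = x - sr i x • a
  mu_neg : ∀ w, ∀ γ ∈ R, mu w (-γ) = -1 - mu w γ
  mu_one : ∀ γ ∈ R, mu 1 γ = 0 ∨ mu 1 γ = -1
  mu_tr : ∀ x w, ∀ γ ∈ R, mu (tr x * w) γ = mu w γ + γ x
  mu_fin' : ∀ u ∈ Subgroup.closure (cs.simple '' (S0 : Set B)), ∀ w, ∀ γ ∈ R,
    mu (u * w) γ = mu w (pbk (gr u) γ)
  mu_simple : ∀ i, mu (cs.simple i) (sr i) = mu 1 (sr i) - 1
  mu_simple_ne : ∀ i, ∀ γ ∈ R, γ ≠ sr i → γ ≠ -sr i → mu (cs.simple i) γ = mu 1 γ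
  asc' : ∀ w i, ∀ γ ∈ R, pbk (gr w) γ = sr i →
    (cs.length w < cs.length (w * cs.simple i) ↔ mu w γ ≤ mu 1 γ)
  S0_pos : ∀ i ∈ S0, mu 1 (sr i) = 0
  m : ℤ
  m_pos : 0 < m
  cw : B → Lat n
  cw_self : ∀ i ∈ S0, sr i (cw i) = m
  cw_ne : ∀ i ∈ S0, ∀ j ∈ S0, i ≠ j → sr j (cw i) = 0
  sep : ∀ x, (∀ i ∈ S0, sr i x = 0) → x = 0
  cw_pos : ∀ γ ∈ R, mu 1 γ = 0 → ∀ i ∈ S0, 0 ≤ γ (cw i)

namespace AD

variable {B W : Type*} [Group W] {M : CoxeterMatrix B} {cs : CoxeterSystem M W} (D : AD cs)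

/-- `pb w γ = w⁻¹ γ` -/
def pb (w : W) (γ : Du D.n) : Du D.n := pbk (D.gr w) γ

/-- standard parabolic subgroup -/
def WJ (_D : AD cs) (J : Finset B) : Subgroup W := Subgroup.closure (cs.simple '' (J : Set B))

/-- the finite Weyl group -/
def W0 : Subgroup W := D.WJ D.S0

/-- `W_J` as a finset (for `J ⊆ S0`) -/
noncomputable def WF (J : Finset B) : Finset W :=
  if h : (D.WJ J : Set W).Finite then h.toFinset else ∅

/-- `|W₀|` -/
noncomputable def Mo : ℕ := (D.WF D.S0).card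

/-- positive roots -/
noncomputable def Rp : Finset (Du D.n) := D.R.filter fun γ => D.mu 1 γ = 0

/-- the dominant vector with stabiliser `W_J`; `R_J = {γ | γ (z J) = 0}` -/
noncomputable def z (J : Finset B) : Lat D.n := ∑ i ∈ D.S0 \ J, D.cw i

/-- `x ∈ X^J` -/
def Fix (J : Finset B) (x : Lat D.n) : Prop := ∀ j ∈ J, D.sr j x = 0

/-- `J`-dominant translation -/
def Dom (J : Finset B) (x : Lat D.n) : Prop := ∀ j ∈ J, 0 ≤ D.sr j x

/-- `J`-dominant alcove -/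
def ADom (J : Finset B) (g : W) : Prop := ∀ j ∈ J, 0 ≤ D.mu g (D.sr j)

/-- the degree `∑_{u ∈ W_J} u x`; its kernel is `X_J` -/
noncomputable def deg (J : Finset B) : Lat D.n →ₗ[ℤ] Lat D.n :=
  ∑ u ∈ D.WF J, (D.gr u).toLinearMap

/-- translation part -/
noncomputable def xp (w : W) : Lat D.n := (D.decomp w).choose

/-- finite part -/
noncomputable def fp (w : W) : W := (D.tr (D.xp w))⁻¹ * w

/-- degree of an element of `W` -/
noncomputable def degW (J : Finset B) (w : W) : Lat D.n := D.deg J (D.xp w)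

/-- the length function of the `J`-orientation -/
noncomputable def lenJ (J : Finset B) (w : W) : ℤ :=
  ∑ γ ∈ D.Rp, if γ (D.z J) = 0 then |D.mu w γ| else D.mu w γ

/-- the depth along `J` -/
noncomputable def lam (J : Finset B) (w : W) : ℤ :=
  ∑ γ ∈ D.Rp, if γ (D.z J) = 0 then |D.mu w γ| else 0

/-- `Y_J = X ⋊ W_J` -/
def YJ (J : Finset B) : Subgroup W :=
  Subgroup.closure (Set.range D.tr ∪ cs.simple '' (J : Set B))

/-- minimal coset representatives `Min(I, J)` of `W_I / W_J` -/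
noncomputable def Mn (I J : Finset B) : Finset W := (D.WF I).filter fun u => D.ADom J u⁻¹

/-- coroot -/
noncomputable def co (γ : Du D.n) : Lat D.n :=
  Classical.epsilon fun a => γ a = 2 ∧ ∃ r ∈ D.W0, ∀ x, D.gr r x = x - γ x • a

/-- reflection -/
noncomputable def rf (γ : Du D.n) : W :=
  Classical.epsilon fun r => r ∈ D.W0 ∧ ∀ x, D.gr r x = x - γ x • D.co γ

/-- invariant form -/
noncomputable def Bf (x y : Lat D.n) : ℤ := ∑ γ ∈ D.R, γ x * γ y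

/-- number of roots of `R_I⁺` negative on `x` -/
noncomputable def ngt (I : Finset B) (x : Lat D.n) : ℕ :=
  (D.Rp.filter fun γ => γ (D.z I) = 0 ∧ γ x < 0).card

/-- `w ∈ W₀` maps the simple roots in `J` onto those in `J'` -/
structure Mv (J J' : Finset B) (w : W) : Prop where
  mem : w ∈ D.W0
  sub : J ⊆ D.S0
  sub' : J' ⊆ D.S0
  fwd : ∀ j ∈ J, ∃ j' ∈ J', D.pb w (D.sr j') = D.sr j
  bwd : ∀ j' ∈ J', ∃ j ∈ J, D.pb w (D.sr j') = D.sr j

/-- elementary move inside `K = insert b J` -/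
structure El (J : Finset B) (b : B) (J' : Finset B) (w : W) : Prop extends D.Mv J J' w where
  bmem : b ∈ D.S0
  bnot : b ∉ J
  memK : w ∈ D.WJ (insert b J)
  subK : J' ⊆ insert b J
  neg : ∀ γ ∈ D.Rp, γ (D.z (insert b J)) = 0 → γ (D.z J) ≠ 0 → D.pb w⁻¹ γ ∉ D.Rp

end AD

end Pool.Agent.P.MP_74db7f_al
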