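import Pool.Agent.P.MP_74db7f_al.F.KD

/-! C1: basic facts on `K` and `c₀(W, K)` (paper, section 3). -/

namespace Pool.Agent.P.MP_74db7f_al

open scoped Classical Topology
open Filter

section GK

variable {K : Type*} [NontriviallyNormedField K] [Algebra (LaurentPolynomial ℤ) K] [GoodK K]

theorem qK_ne_zero : qK K ≠ 0 := by
  intro h
  have := GoodK.one_lt (K := K)
  rw [h, norm_zero] at this
  linarith

theorem algebraMap_T (k : ℤ) :
    algebraMap (LaurentPolynomial ℤ) K (LaurentPolynomial.T k) = qK K ^ k := by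
  have h0 := qK_ne_zero (K := K)
  have h1 : ∀ k : ℤ, algebraMap (LaurentPolynomial ℤ) K (LaurentPolynomial.T (k + 1)) =
      algebraMap (LaurentPolynomial ℤ) K (LaurentPolynomial.T k) * qK K := fun k => by
    rw [LaurentPolynomial.T_add, map_mul, qK]
  induction k using Int.induction_on with
  | zero => simp
  | succ k ih => rw [h1, ih, zpow_add_one₀ h0]
  | pred k ih =>
    have := h1 (-k - 1)
    rw [sub_add_cancel, ih] at this
    rw [zpow_sub_one₀ h0, this, mul_inv_cancel_right₀ h0]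

theorem algK_injective : Function.Injective (algebraMap (LaurentPolynomial ℤ) K) := by
  refine (injective_iff_map_eq_zero _).2 fun r hr => ?_
  ext k
  exact (GoodK.deg (K := K) r (k - 1)).1 (by rw [hr, norm_zero]; positivity) k (by omega)

theorem norm_intK {N : ℤ} (h : N ≠ 0) : ‖(N : K)‖ = 1 := by
  have e : (N : K) = algebraMap (LaurentPolynomial ℤ) K (LaurentPolynomial.C N) := by simp
  have c : ∀ k, (LaurentPolynomial.C N).coeff k = if k = 0 then N else 0 := fun k =>
    LaurentPolynomial.C_apply N k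
  have h1 : ‖(N : K)‖ ≤ ‖qK K‖ ^ (0 : ℤ) := by
    rw [e, GoodK.deg]
    intro k hk
    rw [c, if_neg (by omega)]
  have h2 : ¬‖(N : K)‖ ≤ ‖qK K‖ ^ (-1 : ℤ) := by
    rw [e, GoodK.deg]
    intro hc
    have := hc 0 (by omega)
    rw [c, if_pos rfl] at this
    exact h this
  obtain ⟨k, hk⟩ := GoodK.disc (N : K) fun e => h2 (by rw [e, norm_zero]; positivity)
  rw [hk, zpow_le_zpow_iff_right₀ GoodK.one_lt] at h1 h2
  rw [hk, show k = 0 by omega, zpow_zero]

theorem charZeroK : CharZero K := by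
  refine charZero_of_inj_zero fun n hn => ?_
  by_contra h
  have := norm_intK (K := K) (N := n) (by exact_mod_cast h)
  rw [Int.cast_natCast, hn, norm_zero] at this
  exact zero_ne_one this

theorem le_inv_of_lt_one {x : K} (h : ‖x‖ < 1) : ‖x‖ ≤ ‖qK K‖⁻¹ := by
  by_cases hx : x = 0
  · simp [hx]
  obtain ⟨k, hk⟩ := GoodK.disc x hx
  rw [hk, zpow_lt_one_iff_right₀ GoodK.one_lt] at h
  rw [hk, ← zpow_neg_one, zpow_le_zpow_iff_right₀ GoodK.one_lt]
  omega

theorem aniso_finset {ι : Type*} (s : Finset ι) (x : ι → K) {i : ι} (hi : i ∈ s) :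
    ‖x i‖ ^ 2 ≤ ‖∑ j ∈ s, x j ^ 2‖ := by
  have := GoodK.aniso _ (fun j => x (s.equivFin.symm j)) (s.equivFin ⟨i, hi⟩)
  rwa [Equiv.sum_comp s.equivFin.symm fun j : s => x j ^ 2, Finset.sum_coe_sort s (x · ^ 2),
    Equiv.symm_apply_apply] at this

end GK

instance {K E F : Type*} [NontriviallyNormedField K] [NormedAddCommGroup E] [NormedSpace K E]
    [NormedAddCommGroup F] [NormedSpace K F] [IsUltrametricDist F] :
    IsUltrametricDist (E →L[K] F) := by
  refine IsUltrametricDist.isUltrametricDist_of_forall_norm_add_le_max_norm fun f g =>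
    ContinuousLinearMap.opNorm_le_bound _ (le_max_of_le_left (norm_nonneg _)) fun x => ?_
  rw [max_mul_of_nonneg _ _ (norm_nonneg _)]
  exact (IsUltrametricDist.norm_add_le_max (f x) (g x)).trans
    (max_le_max (f.le_opNorm x) (g.le_opNorm x))

namespace C0

variable {W K : Type*} [NontriviallyNormedField K]

@[ext] theorem ext {f g : C0 W K} (h : ∀ w, f.co w = g.co w) : f = g := by
  exact Subtype.ext (lp.ext (funext h))

@[simp] theorem co_add (f g : C0 W K) (w : W) : (f + g).co w = f.co w + g.co w := rfl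

@[simp] theorem co_sub (f g : C0 W K) (w : W) : (f - g).co w = f.co w - g.co w := rfl

@[simp] theorem co_neg (f : C0 W K) (w : W) : (-f).co w = -f.co w := rfl

@[simp] theorem co_zero (w : W) : (0 : C0 W K).co w = 0 := rfl

@[simp] theorem co_smul (c : K) (f : C0 W K) (w : W) : (c • f).co w = c * f.co w := rfl

@[simp] theorem co_mk (f : W → K) (hf) (w : W) : (mk f hf).co w = f w := rfl

@[simp] theorem ev_apply (w : W) (f : C0 W K) : ev w f = f.co w := rfl

theorem co_sg (w v : W) : (sg w : C0 W K).co v = if v = w then 1 else 0 := by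
  exact Pi.single_apply w (1 : K) v

theorem co_fs (f : W →₀ K) (w : W) : (fs f).co w = f w := by
  rw [← ev_apply, fs, Finsupp.linearCombination_apply, Finsupp.sum, map_sum]
  simp only [ev_apply, co_smul, co_sg, mul_ite, mul_one, mul_zero, Finset.sum_ite_eq]
  split_ifs with h
  · rfl
  · exact (Finsupp.notMem_support_iff.1 h).symm

theorem fs_single (w : W) (c : K) : fs (Finsupp.single w c) = c • sg w := by
  simp [fs]

theorem fs_injective : Function.Injective (fs : (W →₀ K) → C0 W K) := by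
  intro f g h
  ext w
  rw [← co_fs, h, co_fs]

theorem norm_le {f : C0 W K} {c : ℝ} (hc : 0 ≤ c) (h : ∀ w, ‖f.co w‖ ≤ c) : ‖f‖ ≤ c := by
  exact lp.norm_le_of_forall_le (f := (show ↥(c0S W K) from f).1) hc h

theorem finite_ge (f : C0 W K) {ε : ℝ} (hε : 0 < ε) : {b | ε ≤ ‖f.co b‖}.Finite := by
  have := (NormedAddGroup.tendsto_nhds_zero.1 f.tendsto) ε hε
  rw [eventually_cofinite] at this
  simpa using this

theorem exists_norm_eq {f : C0 W K} (hf : f ≠ 0) : ∃ w, ‖f‖ = ‖f.co w‖ := by
  have h0 : 0 < ‖f‖ := norm_pos_iff.2 hf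
  have hfin := f.finite_ge (half_pos h0)
  have hne : {b | ‖f‖ / 2 ≤ ‖f.co b‖}.Nonempty := by
    by_contra hc
    have : ‖f‖ ≤ ‖f‖ / 2 := norm_le (half_pos h0).le fun b => by
      by_contra hb
      exact hc ⟨b, (not_le.1 hb).le⟩
    linarith
  obtain ⟨b, hb, hmax⟩ := Set.exists_max_image _ (fun b => ‖f.co b‖) hfin hne
  refine ⟨b, le_antisymm (norm_le (norm_nonneg _) fun b' => ?_) (f.norm_co_le b)⟩
  by_cases h : ‖f‖ / 2 ≤ ‖f.co b'‖
  · exact hmax b' h
  · exact (not_le.1 h).le.trans hb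

@[simp] theorem norm_sg (w : W) : ‖(sg w : C0 W K)‖ = 1 := by
  refine le_antisymm (norm_le zero_le_one fun b' => ?_) ?_
  · rw [co_sg]
    split_ifs <;> simp
  · simpa [co_sg] using (sg w : C0 W K).norm_co_le w

instance [Nonempty W] : Nontrivial (C0 W K) := by
  refine ⟨sg (Classical.arbitrary W), 0, fun h => ?_⟩
  simpa using congrArg norm h

instance [CompleteSpace K] : CompleteSpace (C0 W K) := by
  have : IsClosed (c0S W K : Set (lp (fun _ : W => K) ⊤)) := by
    refine isClosed_of_closure_subset fun f hf => ?_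
    change Tendsto (fun w => f w) cofinite (𝓝 0)
    rw [NormedAddGroup.tendsto_nhds_zero]
    intro ε hε
    obtain ⟨g, hg, h⟩ := Metric.mem_closure_iff.1 hf _ (half_pos hε)
    filter_upwards [NormedAddGroup.tendsto_nhds_zero.1 hg _ (half_pos hε)] with w hw
    have h1 := lp.norm_apply_le_norm ENNReal.top_ne_zero (f - g) w
    have h2 := norm_add_le (f w - g w) (g w)
    rw [dist_eq_norm] at h
    rw [sub_add_cancel] at h2
    change ‖f w - g w‖ ≤ _ at h1
    linarith
  exact this.completeSpace_coe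

instance [IsUltrametricDist K] : IsUltrametricDist (C0 W K) := by
  exact IsUltrametricDist.isUltrametricDist_of_forall_norm_add_le_max_norm fun f g =>
    norm_le (le_max_of_le_left (norm_nonneg _)) fun b =>
      (IsUltrametricDist.norm_add_le_max (f.co b) (g.co b)).trans
        (max_le_max (f.norm_co_le b) (g.norm_co_le b))

theorem hasSum (f : C0 W K) : HasSum (fun w => f.co w • (sg w : C0 W K)) f := by
  rw [HasSum, SummationFilter.unconditional_filter, Metric.tendsto_nhds]
  intro ε hε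
  filter_upwards [eventually_ge_atTop (f.finite_ge (half_pos hε)).toFinset] with s hs
  rw [dist_eq_norm]
  refine (norm_le (half_pos hε).le fun b => ?_).trans_lt (half_lt_self hε)
  rw [co_sub, ← ev_apply, map_sum]
  simp only [ev_apply, co_smul, co_sg, mul_ite, mul_one, mul_zero, Finset.sum_ite_eq]
  split_ifs with hb
  · simp [(half_pos hε).le]
  · rw [zero_sub, norm_neg]
    by_contra hc
    exact hb (hs (by simpa using (not_le.1 hc).le))

theorem exists_approx (f : C0 W K) {δ : ℝ} (hδ : 0 < δ) : ∃ g : W →₀ K, ‖f - fs g‖ < δ ∧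
    ∀ w, g w = f.co w ∨ g w = 0 := by
  have hε := half_pos hδ
  refine ⟨Finsupp.onFinset (f.finite_ge hε).toFinset
    (fun b => if δ / 2 ≤ ‖f.co b‖ then f.co b else 0) (fun b hb => by by_contra h; simp_all),
    (norm_le hε.le fun b => ?_).trans_lt (half_lt_self hδ), fun b => ?_⟩
  · simp only [co_sub, co_fs, Finsupp.onFinset_apply]
    split_ifs with h
    · simp [hε.le]
    · simpa using (not_le.1 h).le
  · simp only [Finsupp.onFinset_apply]
    split_ifs <;> simp

theorem induction {p : C0 W K → Prop} (hc : IsClosed {f | p f}) (h : ∀ g, p (fs g))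
    (f : C0 W K) : p f := by
  refine DenseRange.induction_on (Metric.denseRange_iff.2 fun f ε hε => ?_) f hc h
  obtain ⟨g, hg, -⟩ := f.exists_approx hε
  exact ⟨g, by rwa [dist_eq_norm]⟩

variable {E : Type*} [NormedAddCommGroup E] [NormedSpace K E]

theorem hasSum_clm (F : C0 W K →L[K] E) (f : C0 W K) :
    HasSum (fun b => f.co b • F (sg b)) (F f) := by
  simpa using (hasSum f).mapL F

theorem norm_clm_le [IsUltrametricDist E] (F : C0 W K →L[K] E) (f : C0 W K) {c : ℝ}
    (hc : 0 ≤ c) (h : ∀ b, ‖f.co b‖ * ‖F (sg b)‖ ≤ c) : ‖F f‖ ≤ c := by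
  rw [← (hasSum_clm F f).tsum_eq]
  exact IsUltrametricDist.norm_tsum_le_of_forall_le_of_nonneg hc fun b => by
    rw [norm_smul]; exact h b

theorem clm_ext {F G : C0 W K →L[K] E} (h : ∀ w, F (sg w) = G (sg w)) : F = G := by
  refine ContinuousLinearMap.ext fun f => (hasSum_clm F f).unique ?_
  simpa only [h] using hasSum_clm G f

theorem opNorm_le [IsUltrametricDist E] {F : C0 W K →L[K] E} {c : ℝ} (hc : 0 ≤ c)
    (h : ∀ w, ‖F (sg w)‖ ≤ c) : ‖F‖ ≤ c := by
  exact F.opNorm_le_bound hc fun f => norm_clm_le F f (by positivity) fun b => by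
    rw [mul_comm]; exact mul_le_mul (h b) (f.norm_co_le b) (norm_nonneg _) hc

theorem lift_sg [IsUltrametricDist E] [CompleteSpace E] {y : W → E} (hy : ∃ c, ∀ w, ‖y w‖ ≤ c)
    (w : W) : (lift y : C0 W K →L[K] E) (sg w) = y w := by
  obtain ⟨c, hy⟩ := hy
  have hc := (norm_nonneg _).trans (hy w)
  have hs : ∀ f : C0 W K, Summable fun b => f.co b • y b := fun f => by
    refine NonarchimedeanAddGroup.summable_of_tendsto_cofinite_zero ?_
    refine squeeze_zero_norm (a := fun b => ‖f.co b‖ * c) (fun b => ?_) ?_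
    · rw [norm_smul]
      exact mul_le_mul_of_nonneg_left (hy b) (norm_nonneg _)
    · simpa using f.tendsto.norm.mul_const c
  refine Classical.epsilon_spec (p := fun F : C0 W K →L[K] E => ∀ w, F (sg w) = y w)
    ⟨LinearMap.mkContinuous
      { toFun := fun f => ∑' b, f.co b • y b
        map_add' := fun f g => by
          simp only [co_add, add_smul]
          exact (hs f).tsum_add (hs g)
        map_smul' := fun k f => by
          simp only [co_smul, mul_smul, RingHom.id_apply]
          exact (hs f).tsum_const_smul k }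
      c fun f => IsUltrametricDist.norm_tsum_le_of_forall_le_of_nonneg
        (mul_nonneg hc (norm_nonneg _)) fun b => by
          rw [norm_smul, mul_comm]
          exact mul_le_mul (hy b) (f.norm_co_le b) (norm_nonneg _) hc, fun b => ?_⟩ w
  change ∑' b', (sg b : C0 W K).co b' • y b' = y b
  rw [tsum_eq_single b]
  · simp [co_sg]
  · intro b' hb'
    rw [co_sg, if_neg hb', zero_smul]

variable [IsUltrametricDist K] [CompleteSpace K]

@[simp] theorem ip_sg (w : W) (f : C0 W K) : ip (sg w) f = f.co w := by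
  have h : ∀ v : W, ‖(ev v : C0 W K →L[K] K)‖ ≤ 1 := fun v =>
    ContinuousLinearMap.opNorm_le_bound _ zero_le_one fun g : C0 W K => by
      simpa using g.norm_co_le v
  have h2 : (lift ev : C0 W K →L[K] C0 W K →L[K] K) (sg w) = ev w := lift_sg ⟨1, h⟩ w
  rw [ip, h2, ev_apply]

theorem ip_hasSum (f g : C0 W K) : HasSum (fun w => f.co w * g.co w) (ip f g) := by
  simpa using hasSum_clm (ip.flip g) f

theorem ip_comm (f g : C0 W K) : ip f g = ip g f := by
  exact (ip_hasSum f g).unique (by simpa [mul_comm] using ip_hasSum g f)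

theorem norm_ip_le (f g : C0 W K) : ‖ip f g‖ ≤ ‖f‖ * ‖g‖ := by
  rw [← (ip_hasSum f g).tsum_eq]
  exact IsUltrametricDist.norm_tsum_le_of_forall_le_of_nonneg (by positivity) fun b => by
    rw [norm_mul]
    exact mul_le_mul (f.norm_co_le b) (g.norm_co_le b) (norm_nonneg _) (norm_nonneg _)

theorem eq_of_ip {f g : C0 W K} (h : ∀ w, ip f (sg w) = ip g (sg w)) : f = g := by
  ext w
  rw [← ip_sg, ip_comm, h, ip_comm, ip_sg]

theorem exists_rep (φ : C0 W K →L[K] K) (h : Tendsto (fun w => φ (sg w)) cofinite (𝓝 0)) :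
    ∃ y, ∀ f, ip y f = φ f := by
  have : ip (mk _ h) = φ := clm_ext fun w => by rw [ip_comm, ip_sg, co_mk]
  exact ⟨mk _ h, fun f => by rw [this]⟩

variable [Algebra (LaurentPolynomial ℤ) K] [GoodK K]

theorem norm_sq_le_sum {ι : Type*} (s : Finset ι) (f : ι → C0 W K) {i : ι} (hi : i ∈ s) :
    ‖f i‖ ^ 2 ≤ ‖∑ j ∈ s, ip (f j) (f j)‖ := by
  by_cases hf : f i = 0
  · simp [hf]
  obtain ⟨b, hb⟩ := exists_norm_eq hf
  refine ge_of_tendsto (hasSum_sum fun j (_ : j ∈ s) => ip_hasSum (f j) (f j)).norm ?_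
  rw [SummationFilter.unconditional_filter]
  filter_upwards [eventually_ge_atTop {b}] with t ht
  have := aniso_finset (t ×ˢ s) (fun p => (f p.2).co p.1) (i := (b, i))
    (Finset.mem_product.2 ⟨ht (Finset.mem_singleton_self b), hi⟩)
  rw [Finset.sum_product] at this
  simpa only [hb, sq] using this

theorem norm_ip_self (f : C0 W K) : ‖ip f f‖ = ‖f‖ ^ 2 := by
  refine le_antisymm (by rw [sq]; exact norm_ip_le f f) ?_
  simpa using norm_sq_le_sum {()} (fun _ => f) (Finset.mem_singleton_self _)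

theorem eq_zero_of_ip_self {f : C0 W K} (h : ip f f = 0) : f = 0 := by
  have := norm_ip_self f
  rw [h, norm_zero] at this
  exact norm_eq_zero.1 (pow_eq_zero_iff two_ne_zero |>.1 this.symm)

theorem norm_le_of_orth {f g : C0 W K} (h : ip f g = 0) : ‖f‖ ≤ ‖f + g‖ := by
  by_cases hf : f = 0
  · simp [hf]
  have h1 : ip f (f + g) = ip f f := by rw [map_add, h, add_zero]
  have h2 := norm_ip_le f (f + g)
  rw [h1, norm_ip_self, sq] at h2
  exact le_of_mul_le_mul_left h2 (norm_pos_iff.2 hf)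

theorem norm_le_inv {f : C0 W K} (h : ‖f‖ < 1) : ‖f‖ ≤ ‖qK K‖⁻¹ := by
  exact norm_le (by positivity) fun w => le_inv_of_lt_one ((f.norm_co_le w).trans_lt h)

theorem exists_smul_norm_one {f : C0 W K} (hf : f ≠ 0) : ∃ c : K, c ≠ 0 ∧ ‖c • f‖ = 1 := by
  obtain ⟨w, hw⟩ := exists_norm_eq hf
  have h0 : f.co w ≠ 0 := fun e => hf (by rwa [e, norm_zero, norm_eq_zero] at hw)
  refine ⟨(f.co w)⁻¹, inv_ne_zero h0, ?_⟩
  rw [norm_smul, hw, norm_inv, inv_mul_cancel₀ (norm_ne_zero_iff.2 h0)]

end C0

end Pool.Agent.P.MP_74db7f_al
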