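import Pool.Agent.P.MP_74db7f_al.F.C1

/-! C2: adjoints, the C*-estimate, orthogonal complements, idempotents (paper, section 3). -/

namespace Pool.Agent.P.MP_74db7f_al

open scoped Classical Topology
open Filter

set_option linter.unusedSectionVars false

namespace C0

variable {W K : Type*} [NontriviallyNormedField K] [IsUltrametricDist K] [CompleteSpace K]
  [Algebra (LaurentPolynomial ℤ) K] [GoodK K] {c c' d d' : C0 W K →L[K] C0 W K}

theorem IsAdj.symm (h : IsAdj c c') : IsAdj c' c := fun ξ η => by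
  rw [ip_comm, ← h, ip_comm]

theorem IsAdj.unique (h : IsAdj c c') (h' : IsAdj c d') : c' = d' := by
  refine ContinuousLinearMap.ext fun η => eq_of_ip fun w => ?_
  rw [h.symm, h'.symm]

theorem isAdj_one : IsAdj (1 : C0 W K →L[K] C0 W K) 1 := fun _ _ => rfl

theorem IsAdj.mul (h : IsAdj c c') (h' : IsAdj d d') : IsAdj (c * d) (d' * c') := fun ξ η => by
  rw [mul_apply_eq_comp, mul_apply_eq_comp, h, h']

theorem IsAdj.add (h : IsAdj c c') (h' : IsAdj d d') : IsAdj (c + d) (c' + d') := fun ξ η => by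
  rw [add_apply, add_apply, map_add, map_add,
    add_apply, h, h']

theorem IsAdj.smul (h : IsAdj c c') (a : K) : IsAdj (a • c) (a • c') := fun ξ η => by
  rw [smul_apply, smul_apply, map_smul, map_smul,
    smul_apply, h]

theorem IsAdj.sub (h : IsAdj c c') (h' : IsAdj d d') : IsAdj (c - d) (c' - d') := fun ξ η => by
  rw [sub_apply, sub_apply, map_sub, map_sub,
    sub_apply, h, h']

theorem IsAdj.pow (h : IsAdj c c') (k : ℕ) : IsAdj (c ^ k) (c' ^ k) := by
  induction k with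
  | zero => exact isAdj_one
  | succ k ih =>
    rw [pow_succ, pow_succ']
    exact ih.mul h

theorem isAdj_of_sg (h : ∀ w v, ip (c (sg w)) (sg v) = ip (sg w) (c' (sg v))) : IsAdj c c' := by
  have h1 : ∀ w η, ip (c (sg w)) η = ip (sg w) (c' η) := fun w η =>
    DFunLike.congr_fun (clm_ext (F := ip (c (sg w))) (G := (ip (sg w)).comp c') (h w)) η
  intro ξ η
  have h2 := DFunLike.congr_fun (clm_ext (F := (ip η).comp c) (G := ip (c' η)) fun w => by
    rw [ContinuousLinearMap.comp_apply, ip_comm, h1, ip_comm]) ξ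
  rw [ip_comm, ip_comm ξ]
  exact h2

theorem IsAdj.norm_le (h : IsAdj c c') : ‖c'‖ ≤ ‖c‖ := by
  refine ContinuousLinearMap.opNorm_le_bound _ (norm_nonneg _) fun η =>
    C0.norm_le (by positivity) fun w => ?_
  rw [← ip_sg, ← h]
  refine (norm_ip_le _ _).trans ?_
  gcongr
  simpa using c.le_opNorm (sg w)

theorem IsAdj.inverse (h : IsAdj c c') (hc : IsUnit c) (hc' : IsUnit c') :
    IsAdj (Ring.inverse c) (Ring.inverse c') := fun ξ η => by
  have h1 : c (Ring.inverse c ξ) = ξ := by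
    rw [← mul_apply_eq_comp, Ring.mul_inverse_cancel _ hc]
    rfl
  have h2 : c' (Ring.inverse c' η) = η := by
    rw [← mul_apply_eq_comp, Ring.mul_inverse_cancel _ hc']
    rfl
  have h3 := h (Ring.inverse c ξ) (Ring.inverse c' η)
  rw [h1, h2] at h3
  exact h3.symm

theorem IsAdj.lim {a a' : ℕ → C0 W K →L[K] C0 W K} (h : ∀ k, IsAdj (a k) (a' k))
    (hl : Tendsto a atTop (𝓝 c)) : ∃ c', Tendsto a' atTop (𝓝 c') ∧ IsAdj c c' := by
  have h1 : CauchySeq a' := by
    have h2 := hl.cauchySeq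
    rw [Metric.cauchySeq_iff] at h2 ⊢
    intro ε hε
    obtain ⟨N, hN⟩ := h2 ε hε
    refine ⟨N, fun m hm n hn => lt_of_le_of_lt ?_ (hN m hm n hn)⟩
    rw [dist_eq_norm, dist_eq_norm]
    exact ((h m).sub (h n)).norm_le
  obtain ⟨c', hc'⟩ := cauchySeq_tendsto_of_complete h1
  refine ⟨c', hc', fun ξ η => ?_⟩
  have t1 : Tendsto (fun k => ip (a k ξ) η) atTop (𝓝 (ip (c ξ) η)) :=
    (Continuous.tendsto (f := fun x : C0 W K →L[K] C0 W K => ip (x ξ) η) (by fun_prop) c).comp hl
  have t2 : Tendsto (fun k => ip ξ (a' k η)) atTop (𝓝 (ip ξ (c' η))) :=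
    (Continuous.tendsto (f := fun x : C0 W K →L[K] C0 W K => ip ξ (x η)) (by fun_prop) c').comp hc'
  exact tendsto_nhds_unique (t1.congr fun k => h k ξ η) t2

theorem IsAdj.norm_sq_le (h : IsAdj c c') : ‖c‖ ^ 2 ≤ ‖c' * c‖ := by
  have h1 : ‖c‖ ≤ √‖c' * c‖ := by
    refine ContinuousLinearMap.opNorm_le_bound _ (Real.sqrt_nonneg _) fun ξ => ?_
    refine le_of_sq_le_sq ?_ (by positivity)
    rw [← norm_ip_self, h, mul_pow, Real.sq_sqrt (norm_nonneg _)]
    refine (norm_ip_le _ _).trans ?_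
    rw [sq, mul_left_comm]
    gcongr
    exact (c' * c).le_opNorm ξ
  have h2 := pow_le_pow_left₀ (norm_nonneg _) h1 2
  rwa [Real.sq_sqrt (norm_nonneg _)] at h2

theorem IsAdj.norm_sq_le_normal (h : IsAdj c c') (hc : c * c' = c' * c) : ‖c‖ ^ 2 ≤ ‖c ^ 2‖ := by
  have h1 : IsAdj (c' * c) (c' * c) := h.symm.mul h
  have e : c' * c * (c' * c) = c' ^ 2 * c ^ 2 := by
    rw [mul_assoc, ← mul_assoc c, hc, sq, sq, mul_assoc, mul_assoc]
  have h2 := h1.norm_sq_le
  rw [e] at h2
  refine le_of_sq_le_sq ?_ (norm_nonneg _)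
  calc (‖c‖ ^ 2) ^ 2 ≤ ‖c' * c‖ ^ 2 := pow_le_pow_left₀ (by positivity) h.norm_sq_le 2
    _ ≤ ‖c' ^ 2‖ * ‖c ^ 2‖ := h2.trans (norm_mul_le _ _)
    _ ≤ ‖c ^ 2‖ ^ 2 := by
      rw [sq ‖c ^ 2‖]
      exact mul_le_mul_of_nonneg_right (h.pow 2).norm_le (norm_nonneg _)

/-- (C*) -/
theorem IsAdj.norm_le_one (h : IsAdj c c') (hc : c * c' = c' * c)
    (hr : ∀ r : ℝ, 1 < r → ∃ A : ℝ, ∀ k : ℕ, ‖c ^ k‖ ≤ A * r ^ k) : ‖c‖ ≤ 1 := by
  have h1 : ∀ k : ℕ, ‖c‖ ^ 2 ^ k ≤ ‖c ^ 2 ^ k‖ := by
    intro k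
    induction k with
    | zero => simp
    | succ k ih =>
      rw [pow_succ, pow_mul, pow_mul]
      exact (pow_le_pow_left₀ (by positivity) ih 2).trans
        ((h.pow _).norm_sq_le_normal (Commute.pow_pow (show Commute c c' from hc) _ _).eq)
  by_contra hlt
  rw [not_le] at hlt
  obtain ⟨r, hr1, hr2⟩ := exists_between hlt
  obtain ⟨A, hA⟩ := hr r hr1
  have r0 : 0 < r := zero_lt_one.trans hr1
  have h2 : 1 < ‖c‖ / r := (one_lt_div r0).mpr hr2
  have h3 := (tendsto_pow_atTop_atTop_of_one_lt h2).comp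
    (tendsto_pow_atTop_atTop_of_one_lt (one_lt_two (α := ℕ)))
  obtain ⟨k, hk⟩ := (h3.eventually_gt_atTop A).exists
  rw [Function.comp_apply, div_pow, lt_div_iff₀ (pow_pos r0 _)] at hk
  exact absurd ((h1 k).trans (hA _)) (not_le.mpr hk)

/-- a closed subspace which approximates every basis vector is everything -/
theorem eq_top_of_approx (M : Submodule K (C0 W K)) (hM : IsClosed (M : Set (C0 W K)))
    (h : ∀ w, ∃ k ∈ M, ‖sg w - k‖ ≤ 1 / 2) : M = ⊤ := by
  choose k hk hk' using h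
  have hb : ∃ b, ∀ w, ‖k w‖ ≤ b := ⟨2, fun w => by
    have h1 := norm_sub_le (sg w) (sg w - k w)
    rw [sub_sub_cancel, norm_sg] at h1
    linarith [hk' w]⟩
  let F : C0 W K →L[K] C0 W K := lift k
  have hF : ∀ w, F (sg w) = k w := lift_sg hb
  have h1 : ‖1 - F‖ < 1 := (opNorm_le (c := 1 / 2) (by norm_num) fun w => by
    rw [sub_apply, hF]
    exact hk' w).trans_lt (by norm_num)
  have h2 : IsUnit F := by
    have := (Units.oneSub _ h1).isUnit
    rwa [Units.val_oneSub, sub_sub_cancel] at this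
  have h3 : ∀ f, F f ∈ M := by
    refine induction (hM.preimage F.continuous) fun g => ?_
    induction g using Finsupp.induction_linear with
    | zero => simp
    | add g g' h h' =>
      rw [map_add, map_add]
      exact add_mem h h'
    | single w a =>
      rw [fs_single, map_smul, hF]
      exact M.smul_mem a (hk w)
  refine eq_top_iff.mpr fun f _ => ?_
  have h4 : F (Ring.inverse F f) = f := by
    rw [← mul_apply_eq_comp, Ring.mul_inverse_cancel _ h2]
    rfl
  exact h4 ▸ h3 _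

/-- (OC): the quotient by `N` is finite dimensional (successive approximation), its functionals
are represented by vectors orthogonal to `N`, count dimensions. -/
theorem exists_orth (N : Submodule K (C0 W K)) (hN : IsClosed (N : Set (C0 W K)))
    (h : ∀ δ : ℝ, 0 < δ → ∀ᶠ w in cofinite, ∃ k ∈ N, ‖sg w - k‖ < δ) :
    (∀ ξ, ∃ k ∈ N, ∀ k' ∈ N, ip (ξ - k) k' = 0) ∧ ∃ U : Submodule K (C0 W K),
      FiniteDimensional K U ∧ ∀ y, (∀ k ∈ N, ip y k = 0) → y ∈ U := by
  have hS := h (1 / 2) (by norm_num)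
  rw [eventually_cofinite] at hS
  let U0 : Submodule K (C0 W K) :=
    Submodule.span K (sg '' {w | ¬ ∃ k ∈ N, ‖sg w - k‖ < 1 / 2})
  have fU0 : FiniteDimensional K U0 := FiniteDimensional.span_of_finite K (hS.image _)
  have htop : N ⊔ U0 = ⊤ :=
    eq_top_of_approx _ (Submodule.isClosed_sup_finiteDimensional N U0 hN) fun w => by
      by_cases hw : ∃ k ∈ N, ‖sg w - k‖ < 1 / 2
      · obtain ⟨k, hk, hk'⟩ := hw
        exact ⟨k, Submodule.mem_sup_left hk, hk'.le⟩
      · exact ⟨sg w, Submodule.mem_sup_right (Submodule.subset_span ⟨w, hw, rfl⟩), by simp⟩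
  have fQ : FiniteDimensional K (C0 W K ⧸ N) := by
    refine Module.Finite.of_surjective (N.mkQ.comp U0.subtype) fun x => ?_
    obtain ⟨y, rfl⟩ := N.mkQ_surjective x
    obtain ⟨k, hk, u, hu, rfl⟩ := Submodule.mem_sup.mp (htop ▸ Submodule.mem_top : y ∈ N ⊔ U0)
    refine ⟨⟨u, hu⟩, ?_⟩
    simp [(Submodule.Quotient.mk_eq_zero N).mpr hk]
  let P : Submodule K (C0 W K) :=
    { carrier := {y | ∀ k ∈ N, ip y k = 0}
      add_mem' := fun {a b} ha hb k hk => by
        rw [map_add, add_apply, ha k hk, hb k hk, add_zero]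
      zero_mem' := fun k _ => by simp
      smul_mem' := fun a y hy k hk => by
        rw [map_smul, smul_apply, hy k hk, smul_zero] }
  let j : P →ₗ[K] C0 W K ⧸ N := N.mkQ.comp P.subtype
  have hj : Function.Injective j := by
    rw [injective_iff_map_eq_zero]
    intro y hy
    exact Subtype.ext (eq_zero_of_ip_self (y.2 _ ((Submodule.Quotient.mk_eq_zero N).mp hy)))
  have fP : FiniteDimensional K P := Module.Finite.of_injective j hj
  let B : P →ₗ[K] Module.Dual K (C0 W K ⧸ N) :=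
    { toFun := fun y => N.liftQ (ip y.1).toLinearMap fun k hk => y.2 k hk
      map_add' := fun y z => N.linearMap_qext (LinearMap.ext fun x =>
        DFunLike.congr_fun (map_add ip y.1 z.1) x)
      map_smul' := fun a y => N.linearMap_qext (LinearMap.ext fun x =>
        DFunLike.congr_fun (map_smul ip a y.1) x) }
  have hB : Function.Surjective B := by
    intro ψ
    let φ : C0 W K →L[K] K :=
      (⟨ψ, ψ.continuous_of_finiteDimensional⟩ : (C0 W K ⧸ N) →L[K] K).comp N.mkQL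
    have hφ : ∀ x, φ x = ψ (N.mkQ x) := fun x => rfl
    have hφN : ∀ k ∈ N, φ k = 0 := fun k hk => by
      rw [hφ, Submodule.mkQ_apply, (Submodule.Quotient.mk_eq_zero N).mpr hk, map_zero]
    obtain ⟨y, hy⟩ := exists_rep φ (by
      rw [NormedAddGroup.tendsto_nhds_zero]
      intro ε hε
      have hp : 0 < ‖φ‖ + 1 := by positivity
      filter_upwards [h (ε / (‖φ‖ + 1)) (div_pos hε hp)] with w ⟨k, hk, hk'⟩
      have e : φ (sg w) = φ (sg w - k) := by rw [map_sub, hφN k hk, sub_zero]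
      rw [lt_div_iff₀ hp] at hk'
      rw [e]
      refine ((φ.le_opNorm _).trans ?_).trans_lt hk'
      rw [mul_comm]
      gcongr
      linarith)
    refine ⟨⟨y, fun k hk => (hy k).trans (hφN k hk)⟩,
      N.linearMap_qext (LinearMap.ext fun x => ?_)⟩
    exact hy x
  have hsurj : Function.Surjective j := by
    refine (LinearMap.injective_iff_surjective_of_finrank_eq_finrank (le_antisymm
      (LinearMap.finrank_le_finrank_of_injective hj) ?_)).mp hj
    rw [← Subspace.dual_finrank_eq]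
    exact LinearMap.finrank_le_finrank_of_surjective hB
  refine ⟨fun ξ => ?_, P, fP, fun y hy => hy⟩
  obtain ⟨y, hy⟩ := hsurj (N.mkQ ξ)
  refine ⟨ξ - y, (Submodule.Quotient.eq N).mp hy.symm, fun k' hk' => ?_⟩
  rw [sub_sub_cancel]
  exact y.2 k' hk'

open Polynomial in
/-- an operator with spectral radius `0` is nilpotent on finite dimensional invariant
subspaces -/
theorem nilpotent_of_small {U : Submodule K (C0 W K)} [FiniteDimensional K U]
    (hU : ∀ y ∈ U, c y ∈ U) (hr : ∀ r : ℝ, 0 < r → ∃ A : ℝ, ∀ k : ℕ, ‖c ^ k‖ ≤ A * r ^ k) :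
    ∃ k : ℕ, ∀ y ∈ U, (c ^ k) y = 0 := by
  let T : Module.End K U := c.toLinearMap.restrict hU
  have hT : ∀ (k : ℕ) (y : U), ((T ^ k) y : C0 W K) = (c ^ k) y := by
    intro k
    induction k with
    | zero => intro y; rfl
    | succ k ih =>
      intro y
      rw [pow_succ, pow_succ, Module.End.mul_apply, ih]
      rfl
  have hi : IsIntegral K T := Algebra.IsIntegral.isIntegral T
  obtain ⟨q, hq, hnd⟩ :=
    exists_eq_pow_rootMultiplicity_mul_and_not_dvd (minpoly K T) (minpoly.ne_zero hi) 0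
  generalize rootMultiplicity 0 (minpoly K T) = m at hq
  rw [C_0, sub_zero] at hq hnd
  rw [X_dvd_iff] at hnd
  let B : U →L[K] U := LinearMap.toContinuousLinearMap (-(q.coeff 0)⁻¹ • aeval T q.divX)
  have hB : ∀ z : U, aeval T q z = 0 → ‖z‖ ≤ ‖B‖ * ‖T z‖ := by
    intro z hz
    rw [← divX_mul_X_add q, map_add, map_mul, aeval_X, aeval_C, LinearMap.add_apply,
      Module.End.mul_apply, Module.algebraMap_end_apply, add_eq_zero_iff_eq_neg] at hz
    have e : B (T z) = z := by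
      show (-(q.coeff 0)⁻¹) • aeval T q.divX (T z) = z
      rw [hz, smul_neg, neg_smul, neg_neg, smul_smul, inv_mul_cancel₀ hnd, one_smul]
    have := B.le_opNorm (T z)
    rwa [e] at this
  have hz : ∀ (k : ℕ) (y : U), aeval T q ((T ^ (k + m)) y) = 0 := by
    intro k y
    have e : aeval T q * T ^ (k + m) = T ^ k * aeval T (minpoly K T) := by
      rw [hq, ← aeval_X_pow (R := K), ← aeval_X_pow (R := K) (n := k), ← map_mul, ← map_mul]
      congr 1
      ring
    rw [← Module.End.mul_apply, e, minpoly.aeval, mul_zero, LinearMap.zero_apply]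
  refine ⟨m, fun y hy => ?_⟩
  have h1 : ∀ k : ℕ, ‖(T ^ m) ⟨y, hy⟩‖ ≤ ‖B‖ ^ k * ‖(T ^ (k + m)) ⟨y, hy⟩‖ := by
    intro k
    induction k with
    | zero => simp
    | succ k ih =>
      refine ih.trans ?_
      rw [pow_succ ‖B‖, mul_assoc, show k + 1 + m = k + m + 1 by ring, pow_succ' T,
        Module.End.mul_apply]
      exact mul_le_mul_of_nonneg_left (hB _ (hz k _)) (by positivity)
  have hp : 0 < 2 * (‖B‖ + 1) := by positivity
  obtain ⟨A, hA⟩ := hr (1 / (2 * (‖B‖ + 1))) (by positivity)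
  have h2 : ∀ k : ℕ, ‖(T ^ m) ⟨y, hy⟩‖ ≤
      A * ‖(c ^ m) y‖ * (‖B‖ * (1 / (2 * (‖B‖ + 1)))) ^ k := by
    intro k
    refine (h1 k).trans ?_
    have e : ‖(T ^ (k + m)) ⟨y, hy⟩‖ = ‖(c ^ k) ((c ^ m) y)‖ := by
      rw [← mul_apply_eq_comp, ← pow_add, ← hT (k + m) ⟨y, hy⟩]
      rfl
    rw [e, mul_pow]
    calc ‖B‖ ^ k * ‖(c ^ k) ((c ^ m) y)‖
        ≤ ‖B‖ ^ k * (A * (1 / (2 * (‖B‖ + 1))) ^ k * ‖(c ^ m) y‖) := by
          gcongr
          exact ((c ^ k).le_opNorm _).trans
            (mul_le_mul_of_nonneg_right (hA k) (norm_nonneg _))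
      _ = _ := by ring
  have h3 := (tendsto_pow_atTop_nhds_zero_of_lt_one (r := ‖B‖ * (1 / (2 * (‖B‖ + 1))))
    (by positivity) (by
      rw [mul_one_div, div_lt_one hp]
      linarith [norm_nonneg B])).const_mul (A * ‖(c ^ m) y‖)
  rw [mul_zero] at h3
  have h4 := norm_le_zero_iff.mp (ge_of_tendsto' h3 h2)
  rw [← hT m ⟨y, hy⟩, h4]
  rfl

end C0

open scoped IsMulCommutative in
/-- commuting idempotents which are determined on a finite dimensional invariant subspace -/
theorem finite_idem {K V : Type*} [Field K] [AddCommGroup V] [Module K V] (U : Submodule K V)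
    [FiniteDimensional K U] (S : Set (V →ₗ[K] V)) (h1 : ∀ e ∈ S, e * e = e)
    (h2 : ∀ e ∈ S, ∀ e' ∈ S, e * e' = e' * e) (h3 : ∀ e ∈ S, ∀ y ∈ U, e y ∈ U)
    (h4 : ∀ e ∈ S, ∀ e' ∈ S, (∀ y ∈ U, e y = e' y) → e = e') : S.Finite := by
  let r : S → Module.End K U := fun e => e.1.restrict (h3 e.1 e.2)
  have hc : ∀ x ∈ Set.range r, ∀ y ∈ Set.range r, x * y = y * x := by
    rintro _ ⟨e, rfl⟩ _ ⟨e', rfl⟩
    exact LinearMap.ext fun y => Subtype.ext (DFunLike.congr_fun (h2 e.1 e.2 e'.1 e'.2) y.1)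
  have := Algebra.isMulCommutative_adjoin K hc
  have : IsArtinianRing (Algebra.adjoin K (Set.range r)) :=
    IsArtinianRing.of_finite K (Algebra.adjoin K (Set.range r))
  have : Finite (TopologicalSpace.Clopens (PrimeSpectrum (Algebra.adjoin K (Set.range r)))) :=
    Finite.of_injective _ SetLike.coe_injective
  have : Finite {e : Algebra.adjoin K (Set.range r) // IsIdempotentElem e} :=
    Finite.of_equiv _ (PrimeSpectrum.isIdempotentElemEquivClopens
      (R := Algebra.adjoin K (Set.range r))).symm.toEquiv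
  let f : S → {e : Algebra.adjoin K (Set.range r) // IsIdempotentElem e} := fun e =>
    ⟨⟨r e, Algebra.subset_adjoin ⟨e, rfl⟩⟩, Subtype.ext
      (LinearMap.ext fun y => Subtype.ext (DFunLike.congr_fun (h1 e.1 e.2) y.1))⟩
  refine Finite.of_injective f fun e e' h => Subtype.ext (h4 e.1 e.2 e'.1 e'.2 fun y hy => ?_)
  have h5 : r e = r e' := congrArg (fun x => x.1.1) h
  exact congrArg Subtype.val (DFunLike.congr_fun h5 ⟨y, hy⟩)

end Pool.Agent.P.MP_74db7f_al
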