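import Pool.Agent.P.MP_74db7f_al.F.C2

/-! C3: shift operators: division by `U - 1` and the Gauss lemma (paper, sections 6, 8). -/

namespace Pool.Agent.P.MP_74db7f_al

open scoped Classical Topology
open Filter

set_option linter.unusedSectionVars false

theorem c3_norm_sum_lt {ι E : Type*} [SeminormedAddCommGroup E] [IsUltrametricDist E]
    (s : Finset ι) (a : ι → E) {b : ℝ} (hb : 0 < b) (h : ∀ i ∈ s, ‖a i‖ < b) :
    ‖∑ i ∈ s, a i‖ < b := by
  induction s using Finset.induction_on with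
  | empty => simpa using hb
  | insert i s hi ih =>
    rw [Finset.sum_insert hi]
    exact (IsUltrametricDist.norm_add_le_max _ _).trans_lt (max_lt (h i (Finset.mem_insert_self _ _))
      (ih fun j hj => h j (Finset.mem_insert_of_mem hj)))

theorem c3_orbit_rep {W : Type*} [Group W] (t : W) : ∃ r : W → W,
    (∀ w, ∃ m : ℤ, r w = t ^ m * w) ∧ ∀ v w, r v = r w ↔ ∃ m : ℤ, v = t ^ m * w := by
  let S := QuotientGroup.rightRel (Subgroup.zpowers t)
  have hS : ∀ v w, S w v ↔ ∃ m : ℤ, v = t ^ m * w := fun v w => by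
    rw [QuotientGroup.rightRel_apply, Subgroup.mem_zpowers_iff]
    exact exists_congr fun m => by rw [eq_mul_inv_iff_mul_eq, eq_comm]
  refine ⟨fun w => (Quotient.mk S w).out, fun w => (hS _ _).1 (S.symm (Quotient.mk_out w)),
    fun v w => ?_⟩
  rw [Quotient.out_inj, eq_comm, Quotient.eq]
  exact hS v w

namespace C0

variable {W K : Type*} [NontriviallyNormedField K] [IsUltrametricDist K] [CompleteSpace K]
  [Algebra (LaurentPolynomial ℤ) K] [GoodK K] [Group W]

/-- `U` is the shift by an element `t` of infinite order -/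
structure Shift (U : C0 W K →L[K] C0 W K) (t : W) : Prop where
  sg : ∀ w, U (sg w) = sg (t * w)
  inf : ¬ IsOfFinOrder t

variable {U U' : C0 W K →L[K] C0 W K} {t t' : W}

theorem co_of_shift (h : ∀ w, U (sg w) = sg (t * w)) (ξ : C0 W K) (v : W) :
    (U ξ).co v = ξ.co (t⁻¹ * v) :=
  DFunLike.congr_fun (clm_ext (F := (ev v).comp U) (G := ev (t⁻¹ * v)) fun w => by
    rw [ContinuousLinearMap.comp_apply, h, ev_apply, ev_apply, co_sg, co_sg]
    simp only [inv_mul_eq_iff_eq_mul]) ξ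

theorem Shift.pow_sg (h : Shift U t) (k : ℕ) (w : W) : (U ^ k) (C0.sg w) = C0.sg (t ^ k * w) := by
  induction k with
  | zero => simp
  | succ k ih => rw [pow_succ', mul_apply_eq_comp, ih, h.sg, pow_succ', mul_assoc]

theorem Shift.norm_pow_le (h : Shift U t) (k : ℕ) (ξ : C0 W K) : ‖(U ^ k) ξ‖ ≤ ‖ξ‖ :=
  norm_le (norm_nonneg _) fun w => by
    rw [co_of_shift (h.pow_sg k)]
    exact ξ.norm_co_le _

theorem Shift.tendsto_co (h : Shift U t) (ξ : C0 W K) (v : W) :
    Tendsto (fun k : ℕ => ((U ^ k) ξ).co v) atTop (𝓝 0) := by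
  simp only [co_of_shift (h.pow_sg _)]
  have hi : Function.Injective fun k : ℕ => (t ^ k)⁻¹ * v := fun k l hkl =>
    injective_pow_iff_not_isOfFinOrder.mpr h.inf (inv_injective (mul_right_cancel hkl))
  have := ξ.tendsto.comp hi.tendsto_cofinite
  rwa [Nat.cofinite_eq_atTop] at this

theorem Shift.norm_sub (h : Shift U t) (ξ : C0 W K) : ‖U ξ - ξ‖ = ‖ξ‖ := by
  refine le_antisymm ?_ (norm_le (norm_nonneg _) fun w => ?_)
  · rw [sub_eq_add_neg]
    refine (IsUltrametricDist.norm_add_le_max _ _).trans (max_le ?_ (norm_neg _).le)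
    simpa using h.norm_pow_le 1 ξ
  have h1 : ∀ k : ℕ, ‖(U ^ k) ξ - ξ‖ ≤ ‖U ξ - ξ‖ := by
    intro k
    induction k with
    | zero => simp
    | succ k ih =>
      have e : (U ^ (k + 1)) ξ - ξ = (U ^ k) (U ξ - ξ) + ((U ^ k) ξ - ξ) := by
        rw [pow_succ, mul_apply_eq_comp, map_sub]
        abel
      rw [e]
      exact (IsUltrametricDist.norm_add_le_max _ _).trans (max_le (h.norm_pow_le k _) ih)
  have h2 := ((h.tendsto_co ξ w).sub_const (ξ.co w)).norm
  rw [zero_sub, norm_neg] at h2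
  exact le_of_tendsto' h2 fun k => (norm_co_le ((U ^ k) ξ - ξ) w).trans (h1 k)

/-- bounded sequences of operators converge if they converge on the basis -/
theorem tendsto_of_sg {E : Type*} [NormedAddCommGroup E] [NormedSpace K E]
    {T : ℕ → C0 W K →L[K] E} {T' : C0 W K →L[K] E} {C : ℝ} (hC : ∀ k f, ‖T k f‖ ≤ C * ‖f‖)
    (h : ∀ w, Tendsto (fun k => T k (sg w)) atTop (𝓝 (T' (sg w)))) (f : C0 W K) :
    Tendsto (fun k => T k f) atTop (𝓝 (T' f)) := by
  have h1 : ∀ g, Tendsto (fun k => T k (fs g)) atTop (𝓝 (T' (fs g))) := by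
    intro g
    induction g using Finsupp.induction_linear with
    | zero => simp
    | add g g' h h' => simpa only [map_add] using h.add h'
    | single w a => simpa only [fs_single, map_smul] using (h w).const_smul a
  rw [Metric.tendsto_nhds]
  intro ε hε
  have hp : 0 < 2 * (|C| + ‖T'‖ + 1) := by positivity
  obtain ⟨g, hg, -⟩ := exists_approx f (div_pos hε hp)
  filter_upwards [Metric.tendsto_nhds.mp (h1 g) (ε / 2) (half_pos hε)] with k hk
  rw [dist_eq_norm] at hk ⊢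
  have e : T k f - T' f = T k (f - fs g) + (T k (fs g) - T' (fs g)) - T' (f - fs g) := by
    rw [map_sub, map_sub]
    abel
  rw [lt_div_iff₀ hp] at hg
  have a1 := (hC k (f - fs g)).trans (mul_le_mul_of_nonneg_right (le_abs_self C) (norm_nonneg _))
  have a2 := T'.le_opNorm (f - fs g)
  have a3 := norm_nonneg (f - fs g)
  rw [e]
  refine ((norm_sub_le _ _).trans (add_le_add_left (norm_add_le _ _) _)).trans_lt ?_
  nlinarith

theorem Shift.ip_map (h : Shift U t) (ξ η : C0 W K) : ip (U ξ) (U η) = ip ξ η :=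
  DFunLike.congr_fun (clm_ext (F := (ip (U ξ)).comp U) (G := ip ξ) fun w => by
    rw [ContinuousLinearMap.comp_apply, h.sg, ip_comm, ip_comm ξ, ip_sg, ip_sg, co_of_shift h.sg,
      inv_mul_cancel_left]) η

theorem Shift.tendsto_ip (h : Shift U t) (ξ η : C0 W K) :
    Tendsto (fun k : ℕ => ip ξ ((U ^ k) η)) atTop (𝓝 0) :=
  (tendsto_of_sg (T := fun k => ip ((U ^ k) η)) (T' := 0) (C := ‖η‖)
    (fun k f => (norm_ip_le _ _).trans
      (mul_le_mul_of_nonneg_right (h.norm_pow_le k η) (norm_nonneg _)))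
    (fun w => (h.tendsto_co η w).congr fun k => by rw [ip_comm, ip_sg]) ξ).congr
    fun k => ip_comm _ _

/-- the push forward along the orbits -/
theorem Shift.exists_push (h : Shift U t) : ∃ P : C0 W K →L[K] C0 W K,
    (∀ ξ, P ξ = 0 ↔ ∃ ζ, U ζ - ζ = ξ) ∧ ∀ ξ η, Tendsto (fun n : ℕ =>
      ip ((U ^ n) ξ) ((∑ k ∈ Finset.range (2 * n + 1), U ^ k) η)) atTop (𝓝 (ip (P ξ) (P η))) := by
  obtain ⟨r, hr1, hr2⟩ := c3_orbit_rep t
  let P : C0 W K →L[K] C0 W K := lift fun w => C0.sg (r w)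
  have hP : ∀ w, P (C0.sg w) = C0.sg (r w) := lift_sg ⟨1, fun w => (norm_sg _).le⟩
  refine ⟨P, fun ξ => ⟨fun h0 => ?_, ?_⟩, fun ξ η => ?_⟩
  · let L : C0 W K →L[K] C0 W K := U - 1
    have hL : IsClosed (Set.range L) :=
      (AddMonoidHomClass.isometry_of_norm L h.norm_sub).isClosedEmbedding.isClosed_range
    have h1 : ∀ (w : W) (m : ℤ), C0.sg w - C0.sg (t ^ m * w) ∈ L.range := by
      intro w m
      have h2 : ∀ v : W, (C0.sg (t * v) - C0.sg v : C0 W K) ∈ L.range :=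
        fun v => ⟨C0.sg v, by rw [← h.sg]; rfl⟩
      induction m using Int.induction_on with
      | zero => simp
      | succ m ih =>
        have := sub_mem ih (h2 (t ^ (m : ℤ) * w))
        rwa [sub_sub_sub_cancel_right, ← mul_assoc, ← zpow_one_add, add_comm] at this
      | pred m ih =>
        have := add_mem ih (h2 (t ^ (-(m : ℤ) - 1) * w))
        rwa [← mul_assoc, ← zpow_one_add, add_sub_cancel, sub_add_sub_cancel] at this
    have h3 : ξ - P ξ ∈ L.range := by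
      refine induction (p := fun ξ => ξ - P ξ ∈ L.range)
        (hL.preimage (f := fun ξ => ξ - P ξ) (by fun_prop)) (fun g => ?_) ξ
      induction g using Finsupp.induction_linear with
      | zero => simp
      | add g g' h h' =>
        rw [map_add, map_add, add_sub_add_comm]
        exact add_mem h h'
      | single w a =>
        obtain ⟨m, hm⟩ := hr1 w
        rw [fs_single, map_smul, hP, ← smul_sub, hm]
        exact Submodule.smul_mem _ a (h1 w m)
    rw [h0, sub_zero] at h3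
    exact h3
  · rintro ⟨ζ, rfl⟩
    have h1 : P.comp U = P := clm_ext fun w => by
      rw [ContinuousLinearMap.comp_apply, h.sg, hP, hP, (hr2 _ w).2 ⟨1, by rw [zpow_one]⟩]
    rw [map_sub, sub_eq_zero]
    exact DFunLike.congr_fun h1 ζ
  have hb : ∀ (n : ℕ) (ξ η : C0 W K),
      ‖ip ((U ^ n) ξ) ((∑ k ∈ Finset.range (2 * n + 1), U ^ k) η)‖ ≤ ‖ξ‖ * ‖η‖ := by
    intro n ξ η
    refine (norm_ip_le _ _).trans (mul_le_mul (h.norm_pow_le n ξ) ?_ (norm_nonneg _) (norm_nonneg _))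
    rw [sum_apply]
    exact IsUltrametricDist.norm_sum_le_of_forall_le_of_nonneg (norm_nonneg _)
      fun k _ => h.norm_pow_le k η
  rw [ip_comm (P ξ)]
  refine (tendsto_of_sg
    (T := fun n => (ip ((∑ k ∈ Finset.range (2 * n + 1), U ^ k) η)).comp (U ^ n))
    (T' := (ip (P η)).comp P) (C := ‖η‖) (fun n f => by
      rw [ContinuousLinearMap.comp_apply, ip_comm, mul_comm ‖η‖]
      exact hb n f η) (fun v => ?_) ξ).congr fun n => ip_comm _ _
  simp only [ContinuousLinearMap.comp_apply]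
  rw [ip_comm (P η)]
  refine Tendsto.congr (fun n => ip_comm _ _) ?_
  refine tendsto_of_sg
    (T := fun n => (ip ((U ^ n) (C0.sg v))).comp (∑ k ∈ Finset.range (2 * n + 1), U ^ k))
    (T' := (ip (P (C0.sg v))).comp P) (C := ‖(C0.sg v : C0 W K)‖) (fun n f => hb n _ f)
    (fun w => ?_) η
  have e : ∀ n : ℕ, ((ip ((U ^ n) (C0.sg v))).comp (∑ k ∈ Finset.range (2 * n + 1), U ^ k))
      (C0.sg w) = ∑ k ∈ Finset.range (2 * n + 1), if t ^ n * v = t ^ k * w then (1 : K) else 0 := by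
    intro n
    rw [ContinuousLinearMap.comp_apply, sum_apply, map_sum]
    exact Finset.sum_congr rfl fun k _ => by rw [h.pow_sg, h.pow_sg, ip_sg, co_sg]
  simp only [e]
  rw [ContinuousLinearMap.comp_apply, hP, hP, ip_sg, co_sg]
  by_cases hvw : r v = r w
  · obtain ⟨m, rfl⟩ := (hr2 v w).1 hvw
    rw [if_pos hvw]
    refine tendsto_const_nhds.congr' ?_
    filter_upwards [eventually_ge_atTop m.natAbs] with n hn
    have h1 : ∀ k : ℕ, t ^ n * (t ^ m * w) = t ^ k * w ↔ k = (n + m).toNat := by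
      intro k
      rw [← mul_assoc, mul_left_inj, ← zpow_natCast, ← zpow_natCast, ← zpow_add,
        (injective_zpow_iff_not_isOfFinOrder.mpr h.inf).eq_iff]
      omega
    simp only [h1]
    rw [Finset.sum_ite_eq' , if_pos (Finset.mem_range.mpr (by omega))]
  · rw [if_neg hvw]
    refine tendsto_const_nhds.congr fun n => (Finset.sum_eq_zero fun (k : ℕ) _ => if_neg fun hk =>
      hvw ((hr2 v w).2 ⟨(k : ℤ) - n, ?_⟩)).symm
    rw [sub_eq_neg_add, zpow_add, mul_assoc, zpow_natCast, ← hk, zpow_neg, zpow_natCast,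
      inv_mul_cancel_left]

/-- (Div). Sum along the orbits of `t'`: `∑_k ⟨ξ, U'^k ξ⟩` is the square norm of the push
forward of `ξ`, which vanishes iff `ξ ∈ (U' - 1) V`. The last claim: the null sequence
`k ↦ B(ξ, U^k η)` has second difference `0`. -/
theorem div_shift {ι : Type*} (s : Finset ι) (h : Shift U t) (h' : Shift U' t')
    (F : ι → C0 W K →L[K] C0 W K) (G : C0 W K →L[K] C0 W K) (hG : G * U = U * G)
    (hF : ∀ i ∈ s, F i * U = U' * F i)
    (hip : ∀ ξ η, ∑ i ∈ s, ip (F i ξ) (F i η) = ip ((U - 1) (G ξ)) ((U - 1) (G η))) :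
    ∃ F1 : ι → C0 W K →L[K] C0 W K, (∀ i ∈ s, F i = (U' - 1) * F1 i) ∧
      ∀ ξ η, ∑ i ∈ s, ip (F1 i ξ) (F1 i η) = ip (G ξ) (G η) := by
  obtain ⟨P, hP1, hP2⟩ := h.exists_push
  obtain ⟨P', hP1', hP2'⟩ := h'.exists_push
  have semi : ∀ {A B B' : C0 W K →L[K] C0 W K}, A * B = B' * A → ∀ (n : ℕ) (ξ : C0 W K),
      (B' ^ n) (A ξ) = A ((B ^ n) ξ) := fun {A B B'} hA n ξ =>
    (DFunLike.congr_fun (SemiconjBy.pow_right (show SemiconjBy A B B' from hA) n).eq ξ).symm
  have semi' : ∀ {A B B' : C0 W K →L[K] C0 W K}, A * B = B' * A → ∀ (n : ℕ) (ξ : C0 W K),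
      (∑ k ∈ Finset.range n, B' ^ k) (A ξ) = A ((∑ k ∈ Finset.range n, B ^ k) ξ) := by
    intro A B B' hA n ξ
    rw [sum_apply, sum_apply, map_sum]
    exact Finset.sum_congr rfl fun k _ => semi hA k ξ
  have hG' : (U - 1) * G * U = U * ((U - 1) * G) := by
    rw [mul_assoc, hG]
    noncomm_ring
  have hr : ∀ i ∈ s, ∀ ξ, ∃ ζ, U' ζ - ζ = F i ξ := by
    intro i hi ξ
    have t1 := tendsto_finsetSum s fun i _ => hP2' (F i ξ) (F i ξ)
    have t2 := hP2 (((U - 1) * G) ξ) (((U - 1) * G) ξ)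
    rw [(hP1 (((U - 1) * G) ξ)).2 ⟨G ξ, rfl⟩, map_zero] at t2
    have h0 := tendsto_nhds_unique (t1.congr fun n => by
      rw [semi hG', semi' hG']
      refine Eq.trans (Finset.sum_congr rfl fun j hj => ?_) (hip _ _)
      rw [semi (hF j hj), semi' (hF j hj)]) t2
    have h1 := norm_sq_le_sum s (fun j => P' (F j ξ)) hi
    rw [h0, norm_zero] at h1
    exact (hP1' _).1 (norm_eq_zero.mp (pow_eq_zero_iff two_ne_zero |>.mp
      (le_antisymm h1 (sq_nonneg _))))
  have hex : ∀ i, ∃ F1 : C0 W K →L[K] C0 W K, i ∈ s → F i = (U' - 1) * F1 := by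
    intro i
    by_cases hi : i ∈ s
    · choose y hy using fun w => hr i hi (sg w)
      refine ⟨lift y, fun _ => clm_ext fun w => ?_⟩
      rw [mul_apply_eq_comp, lift_sg ⟨‖F i‖, fun w => by
        rw [← h'.norm_sub, hy]
        simpa using (F i).le_opNorm (sg w)⟩, ← hy]
      rfl
    · exact ⟨0, fun h => absurd h hi⟩
  choose F1 hF1 using hex
  refine ⟨F1, hF1, fun ξ η => ?_⟩
  have hc : ∀ i ∈ s, F1 i * U = U' * F1 i := by
    intro i hi
    refine ContinuousLinearMap.ext fun ζ => ?_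
    have e : (U' - 1) * (F1 i * U - U' * F1 i) = 0 := by
      have := hF i hi
      rw [hF1 i hi] at this
      rw [mul_sub, ← mul_assoc, this]
      noncomm_ring
    have h1 := h'.norm_sub ((F1 i * U - U' * F1 i) ζ)
    have h2 : U' ((F1 i * U - U' * F1 i) ζ) - (F1 i * U - U' * F1 i) ζ = 0 :=
      DFunLike.congr_fun e ζ
    rw [h2, norm_zero] at h1
    exact sub_eq_zero.mp (norm_eq_zero.mp h1.symm)
  let B : C0 W K → C0 W K → K := fun ξ η => ∑ i ∈ s, ip (F1 i ξ) (F1 i η) - ip (G ξ) (G η)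
  have hc1 : ∀ i ∈ s, ∀ ζ, F1 i (U ζ) = U' (F1 i ζ) := fun i hi ζ => DFunLike.congr_fun (hc i hi) ζ
  have hG1 : ∀ ζ, G (U ζ) = U (G ζ) := fun ζ => DFunLike.congr_fun hG ζ
  have B1 : ∀ ξ η, B (U ξ) (U η) = B ξ η := by
    intro ξ η
    simp only [B]
    rw [hG1, hG1, h.ip_map, Finset.sum_congr rfl fun i hi => by
      rw [hc1 i hi, hc1 i hi, h'.ip_map]]
  have B2 : ∀ ξ η, B ξ (U (U η)) - B ξ (U η) = B ξ (U η) - B ξ η := by
    intro ξ η
    have h1 := hip ξ (U η)
    have h2 : ∀ i ∈ s, ∀ ζ, F i ζ = F1 i (U ζ) - F1 i ζ := fun i hi ζ => by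
      rw [hc1 i hi, hF1 i hi]
      rfl
    have h3 : ∀ ζ, (U - 1) (G ζ) = G (U ζ) - G ζ := fun ζ => by
      rw [hG1]
      rfl
    rw [Finset.sum_congr rfl fun i hi => by rw [h2 i hi, h2 i hi], h3, h3] at h1
    simp only [map_sub, sub_apply, Finset.sum_sub_distrib] at h1
    have h4 := B1 ξ (U η)
    have h5 := B1 ξ η
    simp only [B] at h4 h5 ⊢
    linear_combination h4 - h5 - h1
  have B3 : Tendsto (fun k : ℕ => B ξ ((U ^ k) η)) atTop (𝓝 0) := by
    have t1 := (tendsto_finsetSum s fun i _ => h'.tendsto_ip (F1 i ξ) (F1 i η)).sub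
      (h.tendsto_ip (G ξ) (G η))
    rw [Finset.sum_const_zero, sub_zero] at t1
    refine t1.congr fun k => ?_
    simp only [B]
    rw [semi hG, Finset.sum_congr rfl fun i hi => by rw [semi (hc i hi)]]
  have B4 : ∀ k : ℕ, B ξ ((U ^ (k + 1)) η) - B ξ ((U ^ k) η) = B ξ (U η) - B ξ η := by
    intro k
    induction k with
    | zero => simp
    | succ k ih =>
      rw [← ih, pow_succ' U (k + 1), pow_succ' U k]
      exact B2 ξ _
  have B5 : B ξ (U η) - B ξ η = 0 := by
    have t1 := ((tendsto_add_atTop_iff_nat 1).2 B3).sub B3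
    rw [sub_zero] at t1
    exact tendsto_nhds_unique tendsto_const_nhds (t1.congr B4)
  have B6 : ∀ k : ℕ, B ξ ((U ^ k) η) = B ξ η := by
    intro k
    induction k with
    | zero => rfl
    | succ k ih => rw [← ih, ← sub_eq_zero, B4, B5]
  exact sub_eq_zero.mp (tendsto_nhds_unique tendsto_const_nhds (B3.congr B6))

/-- Gauss lemma for a torsion free abelian group of shifts (top terms for the lexicographic
order on each orbit) -/
theorem gauss {n : ℕ} (τ : (Fin n → ℤ) → W) (hτ : ∀ x y, τ (x + y) = τ x * τ y)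
    (hi : Function.Injective τ) (d : (Fin n → ℤ) →₀ K) (hd : d ≠ 0)
    (Θ : (Fin n → ℤ) → C0 W K →L[K] C0 W K)
    (hΘ : ∀ x ∈ d.support, ∀ w, Θ x (sg w) = sg (τ x * w)) :
    ∃ c : ℝ, 0 < c ∧ (∃ x, c = ‖d x‖) ∧ ∀ ξ, ‖(d.sum fun x a => a • Θ x) ξ‖ = c * ‖ξ‖ := by
  obtain ⟨x1, hx1, hmax⟩ := Finset.exists_max_image d.support (fun x => ‖d x‖)
    (Finsupp.support_nonempty_iff.mpr hd)
  have c0 : 0 < ‖d x1‖ := norm_pos_iff.mpr (Finsupp.mem_support_iff.mp hx1)
  refine ⟨‖d x1‖, c0, ⟨x1, rfl⟩, fun ξ => ?_⟩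
  have hco : ∀ v, ((d.sum fun x a => a • Θ x) ξ).co v =
      ∑ x ∈ d.support, d x * ξ.co ((τ x)⁻¹ * v) := by
    intro v
    rw [← ev_apply, Finsupp.sum, sum_apply, map_sum]
    exact Finset.sum_congr rfl fun x hx => by
      rw [ev_apply, smul_apply, co_smul, co_of_shift (hΘ x hx)]
  refine le_antisymm (norm_le (by positivity) fun v => ?_) ?_
  · rw [hco]
    refine IsUltrametricDist.norm_sum_le_of_forall_le_of_nonneg (by positivity) fun x hx => ?_
    rw [norm_mul]
    exact mul_le_mul (hmax x hx) (ξ.norm_co_le _) (norm_nonneg _) c0.le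
  by_cases h0 : ξ = 0
  · rw [h0, norm_zero, mul_zero]
    exact norm_nonneg _
  have M0 : 0 < ‖ξ‖ := norm_pos_iff.mpr h0
  obtain ⟨w0, hw0⟩ := exists_norm_eq h0
  have τ0 : τ 0 = 1 := by
    have := hτ 0 0
    rw [add_zero] at this
    exact left_eq_mul.mp this
  have hfin : {y | ‖ξ.co (τ y * w0)‖ = ‖ξ‖}.Finite := by
    have hj : Function.Injective fun y => τ y * w0 := fun y z h => hi (mul_right_cancel h)
    have := NormedAddGroup.tendsto_nhds_zero.mp (ξ.tendsto.comp hj.tendsto_cofinite) _ M0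
    rw [eventually_cofinite] at this
    exact this.subset fun y hy => not_lt.mpr (le_of_eq hy.symm)
  obtain ⟨x0, hx0, y0, hy0, hu⟩ := UniqueSums.uniqueAdd_of_nonempty
    (A := d.support.filter fun x => ‖d x‖ = ‖d x1‖) (B := hfin.toFinset)
    ⟨x1, Finset.mem_filter.mpr ⟨hx1, rfl⟩⟩ ⟨0, by simp [τ0, ← hw0]⟩
  rw [Finset.mem_filter] at hx0
  rw [Set.Finite.mem_toFinset] at hy0
  refine le_trans (le_of_eq ?_) (norm_co_le _ (τ (x0 + y0) * w0))
  have e : ∀ x, (τ x)⁻¹ * (τ (x0 + y0) * w0) = τ (x0 + y0 - x) * w0 := fun x => by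
    rw [inv_mul_eq_iff_eq_mul, ← mul_assoc, ← hτ, add_sub_cancel]
  have e0 : ‖d x0 * ξ.co (τ (x0 + y0 - x0) * w0)‖ = ‖d x1‖ * ‖ξ‖ := by
    rw [add_sub_cancel_left, norm_mul, hx0.2, hy0]
  have hlt : ‖∑ x ∈ d.support.erase x0, d x * ξ.co (τ (x0 + y0 - x) * w0)‖ < ‖d x1‖ * ‖ξ‖ := by
    refine c3_norm_sum_lt _ _ (mul_pos c0 M0) fun x hx => ?_
    rw [Finset.mem_erase] at hx
    rw [norm_mul]
    rcases (hmax x hx.2).eq_or_lt with h1 | h1
    · rw [h1]
      refine mul_lt_mul_of_pos_left ((ξ.norm_co_le _).lt_of_ne fun h2 => hx.1 ?_) c0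
      exact (hu (Finset.mem_filter.mpr ⟨hx.2, h1⟩) (hfin.mem_toFinset.mpr h2)
        (add_sub_cancel _ _)).1
    · exact (mul_le_mul_of_nonneg_left (ξ.norm_co_le _) (norm_nonneg _)).trans_lt
        (mul_lt_mul_of_pos_right h1 M0)
  rw [hco]
  simp only [e]
  rw [← Finset.add_sum_erase _ _ hx0.1,
    IsUltrametricDist.norm_add_eq_max_of_norm_ne_norm (by rw [e0]; exact hlt.ne'), e0,
    max_eq_left hlt.le]

end C0

end Pool.Agent.P.MP_74db7f_al
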