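import Pool.Agent.P.MP_74db7f_al.F.E1

/-! Ce1: the graded algebra G (paper, section 8). -/

namespace Pool.Agent.P.MP_74db7f_al

open scoped Classical Topology
open Filter

namespace HC

variable {B W H : Type*} [Group W] {M : CoxeterMatrix B} {cs : CoxeterSystem M W} [Ring H]
  [Algebra Rq H] (C : HC cs H) (K : Type*) [NontriviallyNormedField K] [CompleteSpace K]
  [IsUltrametricDist K] [Algebra Rq K] [GoodK K]

variable {C K} {J : Finset B} (hJ : J ⊆ C.S0) {g g' : Op W K} {γ γ' : Lat C.n}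

theorem mem_GG {a : H} (ha : a ∈ C.HJ J) : C.eJ K J * C.Lop K J a ∈ C.GG K J := by
  exact Submodule.subset_span ⟨a, ha, rfl⟩

theorem ce1_ind {p : (g : Op W K) → g ∈ C.GG K J → Prop}
    (h1 : ∀ a (ha : a ∈ C.HJ J), p (C.eJ K J * C.Lop K J a) (mem_GG ha)) (h0 : p 0 (zero_mem _))
    (hadd : ∀ x y hx hy, p x hx → p y hy → p (x + y) (add_mem hx hy))
    (hsmul : ∀ (c : K) x hx, p x hx → p (c • x) (Submodule.smul_mem _ c hx))
    {g : Op W K} (hg : g ∈ C.GG K J) : p g hg := by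
  induction hg using Submodule.span_induction with
  | mem x hx =>
    obtain ⟨a, ha, rfl⟩ := hx
    exact h1 a ha
  | zero => exact h0
  | add x y hx hy a b => exact hadd x y hx hy a b
  | smul c x hx a => exact hsmul c x hx a

theorem ce1_homog_zero : C.Homog K J γ 0 := fun _ => by rw [mul_zero, zero_mul]

theorem ce1_PD_one : C.PD K J 0 (C.kap K J 1) = C.kap K J 1 := by
  rw [C.kap_one K, C.PD_sg K, if_pos (C.degW_W0 J (one_mem _))]

theorem Homog.mul (h : C.Homog K J γ g) (h' : C.Homog K J γ' g') :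
    C.Homog K J (γ + γ') (g * g') := by
  intro δ
  rw [add_assoc, ← mul_assoc, h, mul_assoc, h', mul_assoc]

theorem Homog.add (h : C.Homog K J γ g) (h' : C.Homog K J γ g') : C.Homog K J γ (g + g') := by
  intro δ
  rw [mul_add, add_mul, h, h']

theorem Homog.smul (c : K) (h : C.Homog K J γ g) : C.Homog K J γ (c • g) := by
  intro δ
  rw [mul_smul_comm, smul_mul_assoc, h]

theorem Homog.adj (h : C.Homog K J γ g) (h' : C0.IsAdj g g') : C.Homog K J (-γ) g' := by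
  intro δ
  have e := h (-γ + δ)
  rw [add_neg_cancel_left] at e
  have h1 := (C.PD_adj K (J := J) δ).mul h'
  rw [e] at h1
  exact (h'.mul (C.PD_adj K (J := J) (-γ + δ))).unique h1

include hJ

theorem ce1_one {a : H} (ha : a ∈ C.HJ J) :
    (C.eJ K J * C.Lop K J a) (C.kap K J 1) = C.eJ K J (C.kap K J a) := by
  rw [mul_apply_eq_comp, C.Lop_kap K hJ ha, mul_one]

theorem ce1_Lop_zero : C.Lop K J 0 = 0 := by
  refine C.op_ext J fun x => ?_
  rw [C.Lop_kap K hJ (zero_mem _), zero_mul, map_zero, zero_apply]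

theorem ce1_Lop_sum {ι : Type*} (s : Finset ι) {a : ι → H} (ha : ∀ i ∈ s, a i ∈ C.HJ J) :
    C.Lop K J (∑ i ∈ s, a i) = ∑ i ∈ s, C.Lop K J (a i) := by
  refine C.op_ext J fun x => ?_
  rw [C.Lop_kap K hJ (sum_mem ha), Finset.sum_mul, map_sum, sum_apply]
  exact Finset.sum_congr rfl fun i hi => (C.Lop_kap K hJ (ha i hi) x).symm

theorem ce1_homog_pd {a : H} (ha : a ∈ C.HJ J) (γ : Lat C.n) :
    C.Homog K J γ (C.Lop K J (C.pd J γ a)) := fun δ => by
  refine C.op_ext J fun x => ?_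
  have hm := C.pd_mem_HJ hJ ha γ
  rw [mul_apply_eq_comp, mul_apply_eq_comp, C.Lop_kap K hJ hm,
    C.PD_kap K, C.PD_kap K, C.Lop_kap K hJ hm, C.pd_mul hJ ha]

theorem ce1_Tht (hg : g ∈ C.GG K J) {x : Lat C.n} (hx : C.Fix J x) :
    C.Tht K J x * g = g * C.Tht K J x := by
  induction hg using ce1_ind with
  | h1 a ha =>
    rw [mul_assoc, C.Lop_Tht K hJ ha hx, ← mul_assoc, ← mul_assoc]
    exact congrArg (· * C.Lop K J a) (eJ_Lop hJ (C.th_mem_HJ J x)).symm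
  | h0 => rw [mul_zero, zero_mul]
  | hadd x y _ _ hx hy => rw [mul_add, add_mul, hx, hy]
  | hsmul c x _ hx => rw [mul_smul_comm, smul_mul_assoc, hx]

theorem homog_Tht (x : Lat C.n) : C.Homog K J (C.deg J x) (C.Tht K J x) := by
  intro δ
  rw [add_comm]
  exact C.PD_Tht K hJ δ x

theorem homog_eJ : C.Homog K J 0 (C.eJ K J) := by
  intro δ
  rw [zero_add]
  exact (eJ_PD hJ subset_rfl hJ δ).symm

theorem eJ_mem_GG : C.eJ K J ∈ C.GG K J := by
  have h := mem_GG (K := K) (C.HJ J).one_mem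
  rwa [C.Lop_one K hJ, mul_one] at h

theorem GG_mul (hg : g ∈ C.GG K J) (hg' : g' ∈ C.GG K J) : g * g' ∈ C.GG K J := by
  induction hg using ce1_ind with
  | h1 a ha =>
    induction hg' using ce1_ind with
    | h1 b hb =>
      have e : C.eJ K J * C.Lop K J a * (C.eJ K J * C.Lop K J b) =
          C.eJ K J * C.Lop K J (a * b) := by
        rw [C.Lop_mul K hJ ha hb, mul_assoc, ← mul_assoc (C.Lop K J a), ← eJ_Lop hJ ha,
          ← mul_assoc, ← mul_assoc, eJ_idem hJ, mul_assoc]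
      rw [e]
      exact mem_GG (mul_mem ha hb)
    | h0 => rw [mul_zero]; exact zero_mem _
    | hadd x y _ _ hx hy => rw [mul_add]; exact add_mem hx hy
    | hsmul c x _ hx => rw [mul_smul_comm]; exact Submodule.smul_mem _ c hx
  | h0 => rw [zero_mul]; exact zero_mem _
  | hadd x y _ _ hx hy => rw [add_mul]; exact add_mem hx hy
  | hsmul c x _ hx => rw [smul_mul_assoc]; exact Submodule.smul_mem _ c hx

theorem GG_Lop (hg : g ∈ C.GG K J) {a : H} (ha : a ∈ C.HJ J) :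
    C.Lop K J a * g ∈ C.GG K J ∧ g * C.Lop K J a ∈ C.GG K J := by
  induction hg using ce1_ind with
  | h1 b hb =>
    constructor
    · rw [← mul_assoc, ← eJ_Lop hJ ha, mul_assoc, ← C.Lop_mul K hJ ha hb]
      exact mem_GG (mul_mem ha hb)
    · rw [mul_assoc, ← C.Lop_mul K hJ hb ha]
      exact mem_GG (mul_mem hb ha)
  | h0 => rw [mul_zero, zero_mul]; exact ⟨zero_mem _, zero_mem _⟩
  | hadd x y _ _ hx hy => rw [mul_add, add_mul]; exact ⟨add_mem hx.1 hy.1, add_mem hx.2 hy.2⟩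
  | hsmul c x _ hx =>
    rw [mul_smul_comm, smul_mul_assoc]
    exact ⟨Submodule.smul_mem _ c hx.1, Submodule.smul_mem _ c hx.2⟩

theorem GG_e (hg : g ∈ C.GG K J) : C.eJ K J * g = g ∧ g * C.eJ K J = g := by
  induction hg using ce1_ind with
  | h1 a ha =>
    constructor
    · rw [← mul_assoc, eJ_idem hJ]
    · rw [mul_assoc, ← eJ_Lop hJ ha, ← mul_assoc, eJ_idem hJ]
  | h0 => rw [mul_zero, zero_mul]; exact ⟨rfl, rfl⟩
  | hadd x y _ _ hx hy => rw [mul_add, add_mul, hx.1, hx.2, hy.1, hy.2]; exact ⟨rfl, rfl⟩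
  | hsmul c x _ hx => rw [mul_smul_comm, smul_mul_assoc, hx.1, hx.2]; exact ⟨rfl, rfl⟩

theorem GG_Rop (hg : g ∈ C.GG K J) (h : H) : g * C.Rop K J h = C.Rop K J h * g := by
  induction hg using ce1_ind with
  | h1 a ha => rw [mul_assoc, C.Lop_Rop K hJ ha, ← mul_assoc, eJ_Rop hJ, mul_assoc]
  | h0 => rw [mul_zero, zero_mul]
  | hadd x y _ _ hx hy => rw [mul_add, add_mul, hx, hy]
  | hsmul c x _ hx => rw [mul_smul_comm, smul_mul_assoc, hx]

theorem GG_adj (hg : g ∈ C.GG K J) : ∃ g' ∈ C.GG K J, C0.IsAdj g g' := by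
  induction hg using ce1_ind with
  | h1 a ha =>
    refine ⟨_, mem_GG (C.adj_mem hJ a), ?_⟩
    rw [eJ_Lop hJ (C.adj_mem hJ a)]
    exact (eJ_adj hJ).mul (C.Lop_adj K hJ ha)
  | h0 =>
    refine ⟨0, zero_mem _, fun ξ η => ?_⟩
    rw [zero_apply, zero_apply, map_zero, map_zero,
      zero_apply]
  | hadd x y _ _ hx hy =>
    obtain ⟨x', hx', ex⟩ := hx
    obtain ⟨y', hy', ey⟩ := hy
    exact ⟨_, add_mem hx' hy', ex.add ey⟩
  | hsmul c x _ hx =>
    obtain ⟨x', hx', ex⟩ := hx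
    exact ⟨_, Submodule.smul_mem _ c hx', ex.smul c⟩

theorem GG_dop (hg : g ∈ C.GG K J) {d : Lat C.n →₀ K} (hd : ∀ x ∈ d.support, C.Fix J x) :
    C.dop K J d * g ∈ C.GG K J ∧ C.dop K J d * g = g * C.dop K J d := by
  unfold dop Finsupp.sum
  rw [Finset.sum_mul, Finset.mul_sum]
  refine ⟨Submodule.sum_mem _ fun x _ => ?_, Finset.sum_congr rfl fun x hx => ?_⟩
  · rw [smul_mul_assoc]
    exact Submodule.smul_mem _ _ (GG_Lop hJ hg (C.th_mem_HJ J x)).1
  · rw [smul_mul_assoc, mul_smul_comm, ce1_Tht hJ hg (hd x hx)]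

theorem GG_ext (hg : g ∈ C.GG K J) (h : g (C.kap K J 1) = 0) : g = 0 := by
  refine C.ext_one (J := J) (J' := J) (GG_Rop hJ hg) (fun h => ?_) h
  rw [zero_mul, mul_zero]

theorem mem_GG_one {y : C0 W K} : (∃ g ∈ C.GG K J, g (C.kap K J 1) = y) ↔
    y ∈ Submodule.span K {y | ∃ a ∈ C.HJ J, y = C.eJ K J (C.kap K J a)} := by
  constructor
  · rintro ⟨g, hg, rfl⟩
    induction hg using ce1_ind with
    | h1 a ha => exact Submodule.subset_span ⟨a, ha, ce1_one hJ ha⟩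
    | h0 => exact zero_mem _
    | hadd x y _ _ hx hy => exact add_mem hx hy
    | hsmul c x _ hx => exact Submodule.smul_mem _ c hx
  · intro hy
    induction hy using Submodule.span_induction with
    | mem y hy =>
      obtain ⟨a, ha, rfl⟩ := hy
      exact ⟨_, mem_GG ha, ce1_one hJ ha⟩
    | zero => exact ⟨0, zero_mem _, rfl⟩
    | add x y _ _ hx hy =>
      obtain ⟨g, hg, rfl⟩ := hx
      obtain ⟨g', hg', rfl⟩ := hy
      exact ⟨g + g', add_mem hg hg', rfl⟩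
    | smul c x _ hx =>
      obtain ⟨g, hg, rfl⟩ := hx
      exact ⟨c • g, Submodule.smul_mem _ c hg, rfl⟩

/-- homogeneous components (`sum_pd`, `pd_mul`, `pd_mem_HJ`) -/
theorem GG_dec (hg : g ∈ C.GG K J) : ∃ c : Lat C.n →₀ Op W K, g = c.sum (fun _ a => a) ∧
    ∀ γ, c γ ∈ C.GG K J ∧ C.Homog K J γ (c γ) ∧
      c γ (C.kap K J 1) = C.PD K J γ (g (C.kap K J 1)) := by
  induction hg using ce1_ind with
  | h1 a ha =>
    obtain ⟨s, hs, hs'⟩ := C.sum_pd J a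
    have h0 : ∀ γ, C.eJ K J * C.Lop K J (C.pd J γ a) ≠ 0 → γ ∈ s := fun γ hγ => by
      by_contra hn
      rw [hs' γ hn, ce1_Lop_zero hJ, mul_zero] at hγ
      exact hγ rfl
    refine ⟨Finsupp.onFinset s (fun γ => C.eJ K J * C.Lop K J (C.pd J γ a)) h0, ?_, fun γ => ?_⟩
    · rw [Finsupp.onFinset_sum _ fun _ => rfl, ← Finset.mul_sum,
        ← ce1_Lop_sum hJ s fun γ _ => C.pd_mem_HJ hJ ha γ, ← hs]
    · rw [Finsupp.onFinset_apply]
      refine ⟨mem_GG (C.pd_mem_HJ hJ ha γ), ?_, ?_⟩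
      · have h := (homog_eJ (K := K) hJ).mul (ce1_homog_pd hJ ha γ)
        rwa [zero_add] at h
      · rw [ce1_one hJ (C.pd_mem_HJ hJ ha γ), ce1_one hJ ha, ← C.PD_kap K]
        exact DFunLike.congr_fun (eJ_PD hJ subset_rfl hJ γ) _
  | h0 =>
    refine ⟨0, Finsupp.sum_zero_index.symm, fun γ => ⟨zero_mem _, ce1_homog_zero, ?_⟩⟩
    rw [Finsupp.zero_apply, zero_apply, map_zero]
  | hadd x y _ _ hx hy =>
    obtain ⟨c, hc, hc'⟩ := hx
    obtain ⟨d, hd, hd'⟩ := hy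
    refine ⟨c + d, ?_, fun γ => ?_⟩
    · rw [Finsupp.sum_add_index' (fun _ => rfl) fun _ _ _ => rfl, ← hc, ← hd]
    · rw [Finsupp.add_apply]
      refine ⟨add_mem (hc' γ).1 (hd' γ).1, (hc' γ).2.1.add (hd' γ).2.1, ?_⟩
      rw [add_apply, add_apply, map_add, (hc' γ).2.2,
        (hd' γ).2.2]
  | hsmul r x _ hx =>
    obtain ⟨c, hc, hc'⟩ := hx
    refine ⟨r • c, ?_, fun γ => ?_⟩
    · rw [Finsupp.sum_smul_index' fun _ => rfl, ← Finsupp.smul_sum, ← hc]
    · rw [Finsupp.smul_apply]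
      refine ⟨Submodule.smul_mem _ r (hc' γ).1, (hc' γ).2.1.smul r, ?_⟩
      rw [smul_apply, smul_apply, map_smul, (hc' γ).2.2]

theorem Homog.one (h : C.Homog K J γ g) :
    C.PD K J γ (g (C.kap K J 1)) = g (C.kap K J 1) := by
  have e := DFunLike.congr_fun (h 0) (C.kap K J 1)
  rw [add_zero, mul_apply_eq_comp, mul_apply_eq_comp, ce1_PD_one] at e
  exact e

/-- a nonzero homogeneous element of `G` has the degree of some `θ_x` -/
theorem exists_deg (hg : g ∈ C.GG K J) (h : C.Homog K J γ g) (h0 : g ≠ 0) :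
    ∃ x, C.deg J x = γ := by
  by_contra hn
  refine h0 (GG_ext hJ hg ?_)
  rw [← h.one hJ]
  refine C0.ext fun w => ?_
  rw [C.co_PD K, if_neg fun e : C.degW J w = γ => hn ⟨C.xp w, e⟩, C0.co_zero]

/-- `eJ_findim`, `GG_ext` -/
theorem GG_findim (γ : Lat C.n) : ∃ U : Submodule K (Op W K), FiniteDimensional K U ∧
    ∀ g, g ∈ U ↔ g ∈ C.GG K J ∧ C.Homog K J γ g := by
  obtain ⟨U0, hU0, hm⟩ := eJ_findim (C := C) (K := K) hJ γ
  let U : Submodule K (Op W K) :=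
    { carrier := {g | g ∈ C.GG K J ∧ C.Homog K J γ g}
      add_mem' := fun ha hb => ⟨add_mem ha.1 hb.1, ha.2.add hb.2⟩
      zero_mem' := ⟨zero_mem _, ce1_homog_zero⟩
      smul_mem' := fun c _ ha => ⟨Submodule.smul_mem _ c ha.1, ha.2.smul c⟩ }
  let f : U →ₗ[K] U0 :=
    { toFun := fun g => ⟨g.1 (C.kap K J 1), (hm _).2
        ⟨DFunLike.congr_fun (GG_e hJ g.2.1).1 _, g.2.2.one hJ⟩⟩
      map_add' := fun _ _ => rfl
      map_smul' := fun _ _ => rfl }
  refine ⟨U, FiniteDimensional.of_injective f ?_, fun _ => Iff.rfl⟩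
  refine (injective_iff_map_eq_zero f).2 fun g hg => Subtype.ext ?_
  exact GG_ext hJ g.2.1 (congrArg Subtype.val hg)

theorem isE_eJ : C.IsE K J (C.eJ K J) := by
  exact ⟨eJ_mem_GG hJ, eJ_idem hJ, eJ_adj hJ, fun _ ha => eJ_Lop hJ ha,
    eJ_PD hJ subset_rfl hJ⟩

theorem IsE.comm {ε : Op W K} (hε : C.IsE K J ε) (hg : g ∈ C.GG K J) : ε * g = g * ε := by
  induction hg using ce1_ind with
  | h1 a ha =>
    rw [← mul_assoc, (GG_e hJ hε.mem).2, eJ_Lop hJ ha, mul_assoc, (GG_e hJ hε.mem).1,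
      hε.commL a ha]
  | h0 => rw [mul_zero, zero_mul]
  | hadd x y _ _ hx hy => rw [mul_add, add_mul, hx, hy]
  | hsmul c x _ hx => rw [mul_smul_comm, smul_mul_assoc, hx]

theorem IsE.norm_le {ε : Op W K} (hε : C.IsE K J ε) : ‖ε‖ ≤ 1 := by
  have h := hε.adj.norm_sq_le
  rw [hε.idem] at h
  by_contra hn
  have h1 : 1 < ‖ε‖ := not_le.1 hn
  nlinarith

theorem IsE.sub {ε ε' : Op W K} (hε : C.IsE K J ε) (hε' : C.IsE K J ε') (h : ε * ε' = ε') :
    C.IsE K J (ε - ε') := by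
  have h' : ε' * ε = ε' := by rw [hε'.comm hJ hε.mem, h]
  refine ⟨sub_mem hε.mem hε'.mem, ?_, hε.adj.sub hε'.adj, fun a ha => ?_, fun δ => ?_⟩
  · rw [mul_sub, sub_mul, sub_mul, hε.idem, hε'.idem, h, h', sub_self, sub_zero]
  · rw [mul_sub, sub_mul, hε.commL a ha, hε'.commL a ha]
  · rw [mul_sub, sub_mul, hε.commP, hε'.commP]

/-- `finite_idem` on `eJ_findim 0` -/
theorem finite_isE : {ε | C.IsE K J ε}.Finite := by
  obtain ⟨U, hU, hm⟩ := eJ_findim (C := C) (K := K) hJ 0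
  refine Set.Finite.of_finite_image
    (f := fun ε : Op W K => (ε : C0 W K →ₗ[K] C0 W K)) (finite_idem U _ ?_ ?_ ?_ ?_)
    (ContinuousLinearMap.coe_injective.injOn)
  · rintro _ ⟨ε, hε, rfl⟩
    exact LinearMap.ext fun y => DFunLike.congr_fun (IsE.idem hε) y
  · rintro _ ⟨ε, hε, rfl⟩ _ ⟨ε', hε', rfl⟩
    exact LinearMap.ext fun y => DFunLike.congr_fun (IsE.comm hJ hε (IsE.mem hε')) y
  · rintro _ ⟨ε, hε, rfl⟩ y hy
    refine (hm _).2 ⟨DFunLike.congr_fun (GG_e hJ (IsE.mem hε)).1 y, ?_⟩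
    have e := DFunLike.congr_fun (IsE.commP hε 0) y
    rw [mul_apply_eq_comp, mul_apply_eq_comp, ((hm y).1 hy).2] at e
    exact e.symm
  · rintro _ ⟨ε, hε, rfl⟩ _ ⟨ε', hε', rfl⟩ h
    have h1 : C.eJ K J (C.kap K J 1) ∈ U :=
      (hm _).2 ⟨DFunLike.congr_fun (eJ_idem hJ) _, (homog_eJ hJ).one hJ⟩
    have h2 : ε (C.kap K J 1) = ε' (C.kap K J 1) :=
      (DFunLike.congr_fun (GG_e hJ (IsE.mem hε)).2 _).symm.trans
        ((h _ h1).trans (DFunLike.congr_fun (GG_e hJ (IsE.mem hε')).2 _))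
    have h3 : ε - ε' = 0 := GG_ext hJ (sub_mem (IsE.mem hε) (IsE.mem hε')) (sub_eq_zero.2 h2)
    rw [sub_eq_zero.1 h3]

end HC

end Pool.Agent.P.MP_74db7f_al
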