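import Pool.Agent.P.MP_74db7f_al.F.Ce1

/-! Ce2: top terms and saturation in G (paper, section 8). -/

namespace Pool.Agent.P.MP_74db7f_al

open scoped Classical Topology
open Filter

/-- an injective endomorphism of a finitely generated module over a domain: Cayley-Hamilton,
then a polynomial of minimal degree has nonzero constant term -/
theorem exists_sat {S N : Type*} [CommRing S] [IsDomain S] [AddCommGroup N] [Module S N]
    [Module.Finite S N] (f : N →ₗ[S] N) (hf : Function.Injective f) :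
    ∃ d : S, d ≠ 0 ∧ ∀ y, ∃ x, f x = d • y := by
  obtain ⟨p, hp, h0⟩ := LinearMap.exists_monic_and_aeval_eq_zero S f
  have hp0 : p ≠ 0 := hp.ne_zero
  clear hp
  induction hn : p.natDegree using Nat.strong_induction_on generalizing p with
  | _ n ih =>
    have e : ∀ y, f (Polynomial.aeval f p.divX y) = -(p.coeff 0 • y) := fun y => by
      have a := congrArg (fun q => Polynomial.aeval f q y) (Polynomial.X_mul_divX_add p)
      simp only [map_add, map_mul, Polynomial.aeval_X, Polynomial.aeval_C, h0,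
        LinearMap.add_apply, Module.End.mul_apply, Module.algebraMap_end_apply,
        LinearMap.zero_apply] at a
      exact eq_neg_of_add_eq_zero_left a
    by_cases hc : p.coeff 0 = 0
    · have h1 : p.divX ≠ 0 := fun a => hp0 (by
        rw [← Polynomial.X_mul_divX_add p, a, hc, mul_zero, map_zero, add_zero])
      have h2 : p.divX.natDegree < n := by
        rw [← hn]
        exact Polynomial.natDegree_lt_natDegree h1 (Polynomial.degree_divX_lt hp0)
      refine ih _ h2 p.divX (LinearMap.ext fun y => hf ?_) h1 rfl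
      rw [e, hc, zero_smul, neg_zero, LinearMap.zero_apply, map_zero]
    · exact ⟨p.coeff 0, hc, fun y => ⟨-(Polynomial.aeval f p.divX y), by rw [map_neg, e, neg_neg]⟩⟩

theorem ce2_abs {K A X : Type*} [Field K] [Ring A] [Algebra K A] [AddCommGroup X]
    [UniqueSums X] (G : Submodule K A) (Θ : Multiplicative X →* A)
    (hΘ : ∀ x, ∀ g ∈ G, Θ x * g ∈ G) (V : Submodule K A) (hfin : V.FG) (hV : V ≤ G)
    (hgen : G ≤ Submodule.span K {a | ∃ x, ∃ v ∈ V, a = Θ x * v})
    (f : A →ₗ[K] A) (hf : ∀ g ∈ G, f g ∈ G) (hc : ∀ x, ∀ g ∈ G, f (Θ x * g) = Θ x * f g)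
    (hi : ∀ g ∈ G, f g = 0 → g = 0) :
    ∃ d : X →₀ K, d ≠ 0 ∧ ∀ y ∈ G, ∃ x ∈ G,
      f x = (d.sum fun x a => a • Θ (Multiplicative.ofAdd x)) * y := by
  let S := AddMonoidAlgebra K X
  let φ : S →ₐ[K] A := AddMonoidAlgebra.lift K A X Θ
  have hφ : ∀ s : S, φ s = s.coeff.sum fun x a => a • Θ (Multiplicative.ofAdd x) :=
    fun s => AddMonoidAlgebra.lift_apply Θ s
  let : Module S A := Module.compHom A φ.toRingHom
  have hs : ∀ (s : S) (a : A), s • a = φ s * a := fun _ _ => rfl
  have : IsScalarTower K S A := ⟨fun c s a => by rw [hs, hs, map_smul, smul_mul_assoc]⟩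
  let G' : Submodule S A :=
    { carrier := G
      add_mem' := fun a b => G.add_mem a b
      zero_mem' := G.zero_mem
      smul_mem' := fun s g hg => by
        rw [hs, hφ, Finsupp.sum, Finset.sum_mul]
        exact G.sum_mem fun x _ => by
          rw [smul_mul_assoc]
          exact G.smul_mem _ (hΘ _ _ hg) }
  have hG' : ∀ g, g ∈ G' ↔ g ∈ G := fun _ => Iff.rfl
  obtain ⟨T, hT⟩ := hfin
  have hfg : G'.FG := by
    refine ⟨T, le_antisymm (Submodule.span_le.2 fun t ht => hV ?_) fun g hg => ?_⟩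
    · rw [← hT]
      exact Submodule.subset_span ht
    · have a : Submodule.span K {a | ∃ x, ∃ v ∈ V, a = Θ x * v} ≤
          (Submodule.span S (T : Set A)).restrictScalars K := by
        refine Submodule.span_le.2 ?_
        rintro _ ⟨x, v, hv, rfl⟩
        rw [← hT] at hv
        have b := (Submodule.span S (T : Set A)).smul_mem (AddMonoidAlgebra.of K X x)
          (Submodule.span_le_restrictScalars K S (T : Set A) hv)
        rw [hs, AddMonoidAlgebra.lift_of] at b
        exact b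
      exact a (hgen hg)
  have : Module.Finite S G' := Module.Finite.iff_fg.2 hfg
  let f' : G' →ₗ[S] G' :=
    { toFun := fun g => ⟨f g, hf _ g.2⟩
      map_add' := fun a b => Subtype.ext (map_add f _ _)
      map_smul' := fun s g => Subtype.ext (by
        show f (s • (g : A)) = s • f g
        rw [hs, hs, hφ, Finsupp.sum, Finset.sum_mul, Finset.sum_mul, map_sum]
        exact Finset.sum_congr rfl fun x _ => by
          rw [smul_mul_assoc, smul_mul_assoc, map_smul, hc _ _ g.2]) }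
  obtain ⟨d, hd, h⟩ := exists_sat f' ((injective_iff_map_eq_zero f').2 fun g hg =>
    Subtype.ext (hi _ g.2 (congrArg Subtype.val hg)))
  refine ⟨d.coeff, fun a => hd (AddMonoidAlgebra.coeff_eq_zero.1 a), fun y hy => ?_⟩
  obtain ⟨x, hx⟩ := h ⟨y, hy⟩
  exact ⟨x, x.2, by rw [← hφ, ← hs]; exact congrArg Subtype.val hx⟩

namespace HC

variable {B W H : Type*} [Group W] {M : CoxeterMatrix B} {cs : CoxeterSystem M W} [Ring H]
  [Algebra Rq H] (C : HC cs H) (K : Type*) [NontriviallyNormedField K] [CompleteSpace K]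
  [IsUltrametricDist K] [Algebra Rq K] [GoodK K]

/-- `g₀` is the top term of `g`, of degree `γ` (lexicographic order) -/
def Top (J : Finset B) (γ : Lat C.n) (g g0 : Op W K) : Prop :=
  g0 ∈ C.GG K J ∧ C.Homog K J γ g0 ∧
    ∀ δ, toLex γ ≤ toLex δ → C.PD K J δ ((g - g0) (C.kap K J 1)) = 0

/-- sums of homogeneous operators of degree `< γ` -/
noncomputable def ce2Low (J : Finset B) (γ : Lat C.n) : Submodule K (Op W K) :=
  Submodule.span K {u | ∃ β, toLex β < toLex γ ∧ C.Homog K J β u}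

variable {C K} {J : Finset B} (hJ : J ⊆ C.S0) {g g' g0 g0' : Op W K} {γ γ' : Lat C.n}

theorem ce2_PD_PD (δ δ' : Lat C.n) (v : C0 W K) :
    C.PD K J δ (C.PD K J δ' v) = if δ = δ' then C.PD K J δ v else 0 := by
  have a := congrArg (fun F : Op W K => F v) (C.PD_mul K (J := J) δ δ')
  simp only [ContinuousLinearMap.mul_apply] at a
  rw [a]
  split_ifs <;> rfl

theorem ce2_low_mul (hu : g ∈ C.ce2Low K J γ) (h : C.Homog K J γ' g') :
    g * g' ∈ C.ce2Low K J (γ + γ') := by
  induction hu using Submodule.span_induction with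
  | mem u hu =>
    obtain ⟨β, hβ, hu⟩ := hu
    refine Submodule.subset_span ⟨β + γ', ?_, hu.mul h⟩
    rw [toLex_add, toLex_add]
    exact add_lt_add_left hβ _
  | zero => rw [zero_mul]; exact zero_mem _
  | add u v _ _ a b => rw [add_mul]; exact add_mem a b
  | smul c u _ a => rw [smul_mul_assoc]; exact Submodule.smul_mem _ _ a

theorem ce2_mul_low (h : C.Homog K J γ g) (hu : g' ∈ C.ce2Low K J γ') :
    g * g' ∈ C.ce2Low K J (γ + γ') := by
  induction hu using Submodule.span_induction with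
  | mem u hu =>
    obtain ⟨β, hβ, hu⟩ := hu
    refine Submodule.subset_span ⟨γ + β, ?_, h.mul hu⟩
    rw [toLex_add, toLex_add]
    exact add_lt_add_right hβ _
  | zero => rw [mul_zero]; exact zero_mem _
  | add u v _ _ a b => rw [mul_add]; exact add_mem a b
  | smul c u _ a => rw [mul_smul_comm]; exact Submodule.smul_mem _ _ a

theorem ce2_low_low (h : g ∈ C.ce2Low K J γ) (hu : g' ∈ C.ce2Low K J γ') :
    g * g' ∈ C.ce2Low K J (γ + γ') := by
  induction hu using Submodule.span_induction with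
  | mem u hu =>
    obtain ⟨β, hβ, hu⟩ := hu
    refine Submodule.span_mono ?_ (ce2_low_mul h hu)
    rintro v ⟨α, hα, hv⟩
    refine ⟨α, hα.trans ?_, hv⟩
    rw [toLex_add, toLex_add]
    exact add_lt_add_right hβ _
  | zero => rw [mul_zero]; exact zero_mem _
  | add u v _ _ a b => rw [mul_add]; exact add_mem a b
  | smul c u _ a => rw [mul_smul_comm]; exact Submodule.smul_mem _ _ a

include hJ

theorem ce2_PD_homog (h : C.Homog K J γ g) {δ : Lat C.n} (hne : δ ≠ γ) :
    C.PD K J δ (g (C.kap K J 1)) = 0 := by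
  rw [← h.one hJ, ce2_PD_PD, if_neg hne]

theorem ce2_low_PD (hu : g ∈ C.ce2Low K J γ) {δ : Lat C.n} (hδ : toLex γ ≤ toLex δ) :
    C.PD K J δ (g (C.kap K J 1)) = 0 := by
  induction hu using Submodule.span_induction with
  | mem u hu =>
    obtain ⟨β, hβ, hu⟩ := hu
    exact ce2_PD_homog hJ hu fun e => (hβ.trans_le hδ).ne (by rw [e])
  | zero => simp
  | add u v _ _ a b => rw [ContinuousLinearMap.add_apply, map_add, a, b, add_zero]
  | smul c u _ a => rw [ContinuousLinearMap.smul_apply, map_smul, a, smul_zero]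

theorem ce2_low_of (hg : g ∈ C.GG K J)
    (h : ∀ δ, toLex γ ≤ toLex δ → C.PD K J δ (g (C.kap K J 1)) = 0) : g ∈ C.ce2Low K J γ := by
  obtain ⟨c, e, hc⟩ := GG_dec hJ hg
  rw [e]
  refine Submodule.sum_mem _ fun β hβ => Submodule.subset_span ⟨β, ?_, (hc β).2.1⟩
  by_contra a
  exact Finsupp.mem_support_iff.1 hβ
    (GG_ext hJ (hc β).1 ((hc β).2.2.trans (h β (not_lt.1 a))))

theorem exists_top (hg : g ∈ C.GG K J) (h0 : g ≠ 0) :
    ∃ γ g0, g0 ≠ 0 ∧ C.Top K J γ g g0 := by
  obtain ⟨c, e, hc⟩ := GG_dec hJ hg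
  have hne : c.support.Nonempty := by
    by_contra a
    rw [Finset.not_nonempty_iff_eq_empty] at a
    exact h0 (by rw [e, Finsupp.sum, a, Finset.sum_empty])
  obtain ⟨γ, hγ, hm⟩ := c.support.exists_max_image (fun β => toLex β) hne
  refine ⟨γ, c γ, Finsupp.mem_support_iff.1 hγ, (hc γ).1, (hc γ).2.1, fun δ hδ => ?_⟩
  rw [ContinuousLinearMap.sub_apply, map_sub, ← (hc δ).2.2]
  by_cases a : δ = γ
  · rw [a, (hc γ).2.1.one hJ, sub_self]
  · rw [ce2_PD_homog hJ (hc γ).2.1 a, sub_zero]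
    by_cases b : δ ∈ c.support
    · exact (a (toLex.injective (le_antisymm (hm δ b) hδ))).elim
    · rw [Finsupp.notMem_support_iff.1 b, ContinuousLinearMap.zero_apply]

theorem Top.mul (hg : g ∈ C.GG K J) (hg' : g' ∈ C.GG K J) (h : C.Top K J γ g g0)
    (h' : C.Top K J γ' g' g0') : C.Top K J (γ + γ') (g * g') (g0 * g0') := by
  refine ⟨GG_mul hJ h.1 h'.1, h.2.1.mul h'.2.1, fun δ hδ => ce2_low_PD hJ ?_ hδ⟩
  have a := ce2_low_of hJ (sub_mem hg h.1) h.2.2
  have b := ce2_low_of hJ (sub_mem hg' h'.1) h'.2.2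
  have e : g * g' - g0 * g0' = (g - g0) * g0' + g0 * (g' - g0') + (g - g0) * (g' - g0') := by
    noncomm_ring
  rw [e]
  exact add_mem (add_mem (ce2_low_mul a h'.2.1) (ce2_mul_low h.2.1 b)) (ce2_low_low a b)

theorem Top.eq_zero (h : C.Top K J γ 0 g0) : g0 = 0 := by
  have a := h.2.2 γ le_rfl
  rw [zero_sub, ContinuousLinearMap.neg_apply, map_neg, h.2.1.one hJ, neg_eq_zero] at a
  exact GG_ext hJ h.1 a

theorem Top.self (hg : g ∈ C.GG K J) (h : C.Homog K J γ g) : C.Top K J γ g g := by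
  exact ⟨hg, h, fun δ _ => by rw [sub_self, ContinuousLinearMap.zero_apply, map_zero]⟩

theorem ce2_dop_single (x : Lat C.n) : C.dop K J (Finsupp.single x 1) = C.Tht K J x := by
  rw [dop, Finsupp.sum_single_index (h := fun x (a : K) => a • C.Tht K J x) (zero_smul _ _),
    one_smul]

theorem ce2_Tht_comm (hg : g ∈ C.GG K J) {x : Lat C.n} (hx : C.Fix J x) :
    C.Tht K J x * g = g * C.Tht K J x := by
  have a := (GG_dop hJ hg (d := Finsupp.single x 1) fun y hy => by
    rwa [Finset.mem_singleton.1 (Finsupp.support_single_subset hy)]).2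
  rwa [ce2_dop_single hJ] at a

theorem ce2_Tht_mem (hg : g ∈ C.GG K J) (x : Lat C.n) : C.Tht K J x * g ∈ C.GG K J :=
  (GG_Lop hJ hg (C.th_mem_HJ J x)).1

theorem ce2_Tht_neg (x : Lat C.n) : C.Tht K J x * C.Tht K J (-x) = 1 := by
  rw [← C.Tht_add K hJ, add_neg_cancel, C.Tht_zero K hJ]

/-- `G` is finitely generated over `K[X^J]` (`GG_dec`, `GG_findim`, `exists_deg_reps`); apply
`exists_sat` to left multiplication by `b` on `ε G` -/
theorem sat {ε b : Op W K} (hε : C.IsE K J ε) (hb : b ∈ C.GG K J)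
    (hi : ∀ g ∈ C.GG K J, ε * g = g → b * g = 0 → g = 0) :
    ∃ d : Lat C.n →₀ K, d ≠ 0 ∧ (∀ x ∈ d.support, C.Fix J x) ∧
      ∃ g ∈ C.GG K J, C.dop K J d * ε = b * g := by
  let X : AddSubgroup (Lat C.n) :=
    { carrier := {x | C.Fix J x}
      add_mem' := fun {x y} hx hy j hj => by rw [map_add, hx j hj, hy j hj, add_zero]
      zero_mem' := fun j _ => map_zero _
      neg_mem' := fun {x} hx j hj => by rw [map_neg, hx j hj, neg_zero] }
  have : UniqueSums X :=
    UniqueSums.of_injective_addHom X.subtype.toAddHom Subtype.val_injective inferInstance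
  let Θ : Multiplicative X →* Op W K :=
    { toFun := fun x => C.Tht K J (x.toAdd : X)
      map_one' := C.Tht_zero K hJ
      map_mul' := fun x y => C.Tht_add K hJ _ _ }
  obtain ⟨F, hF⟩ := C.exists_deg_reps hJ
  choose U hU hU' using fun γ => GG_findim (K := K) hJ γ
  have hεb : ε * b = b * ε := hε.comm hJ hb
  obtain ⟨d, hd, h⟩ := ce2_abs (C.GG K J) Θ (fun x g hg => ce2_Tht_mem hJ hg _) (F.sup U)
    (Submodule.fg_finset_sup F U fun f _ => (Submodule.fg_iff_finiteDimensional _).2 (hU f))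
    (Finset.sup_le fun f _ g hg => ((hU' f g).1 hg).1) (fun g hg => by
      obtain ⟨c, e, hc⟩ := GG_dec hJ hg
      rw [e]
      refine Submodule.sum_mem _ fun β hβ => Submodule.subset_span ?_
      obtain ⟨x, hx⟩ := exists_deg hJ (hc β).1 (hc β).2.1 (Finsupp.mem_support_iff.1 hβ)
      obtain ⟨p, ⟨h1, h2, h3⟩, -⟩ := hF β (hx ▸ C.fix_deg hJ x)
      refine ⟨Multiplicative.ofAdd ⟨p.1, h1⟩, C.Tht K J (-p.1) * c β,
        Finset.le_sup (f := U) h2 ((hU' _ _).2 ⟨ce2_Tht_mem hJ (hc β).1 _, ?_⟩), ?_⟩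
      · have a := (homog_Tht (K := K) hJ (-p.1)).mul (hc β).2.1
        rwa [map_neg, C.deg_of_fix hJ h1, neg_add_eq_iff_eq_add.2 h3] at a
      · show c β = C.Tht K J p.1 * _
        rw [← mul_assoc, ce2_Tht_neg hJ, one_mul])
    (LinearMap.mulLeft K (b * ε + 1 - ε)) (fun g hg => by
      rw [LinearMap.mulLeft_apply, sub_mul, add_mul, one_mul]
      exact sub_mem (add_mem (GG_mul hJ (GG_mul hJ hb hε.mem) hg) hg) (GG_mul hJ hε.mem hg))
    (fun x g _ => by
      have a : Θ x * b = b * Θ x := ce2_Tht_comm hJ hb x.toAdd.2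
      have a' : Θ x * ε = ε * Θ x := ce2_Tht_comm hJ hε.mem x.toAdd.2
      rw [LinearMap.mulLeft_apply, LinearMap.mulLeft_apply, ← mul_assoc, ← mul_assoc, mul_sub,
        mul_add, ← mul_assoc, a, mul_assoc b, a', sub_mul, add_mul, mul_assoc b, one_mul,
        mul_one])
    (fun g hg a => by
      rw [LinearMap.mulLeft_apply] at a
      have e : ε * (b * ε + 1 - ε) = b * ε := by
        rw [mul_sub, mul_add, ← mul_assoc, hεb, mul_assoc, hε.idem, mul_one, add_sub_cancel_right]
      have a1 : ε * g = 0 := hi _ (GG_mul hJ hε.mem hg) (by rw [← mul_assoc, hε.idem]) (by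
        rw [← mul_assoc, ← e, mul_assoc, a, mul_zero])
      rwa [sub_mul, add_mul, mul_assoc, a1, mul_zero, zero_add, one_mul, sub_zero] at a)
  obtain ⟨x, hx, e⟩ := h ε hε.mem
  have hd' : C.dop K J (d.mapDomain Subtype.val) =
      d.sum fun x a => a • Θ (Multiplicative.ofAdd x) := by
    rw [dop, Finsupp.sum_mapDomain_index_inj Subtype.val_injective]
    rfl
  have hf : ∀ y ∈ (d.mapDomain (Subtype.val : X → Lat C.n)).support, C.Fix J y := fun y hy => by
    obtain ⟨z, -, rfl⟩ := Finset.mem_image.1 (Finsupp.mapDomain_support hy)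
    exact z.2
  refine ⟨d.mapDomain Subtype.val, fun a => hd (Finsupp.mapDomain_injective Subtype.val_injective
    (a.trans Finsupp.mapDomain_zero.symm)), hf, ε * x, GG_mul hJ hε.mem hx, ?_⟩
  rw [← hd', LinearMap.mulLeft_apply] at e
  have e1 : ε * (b * ε + 1 - ε) = b * ε := by
    rw [mul_sub, mul_add, ← mul_assoc, hεb, mul_assoc, hε.idem, mul_one, add_sub_cancel_right]
  rw [← mul_assoc, ← e1, mul_assoc, e, (GG_dop hJ hε.mem hf).2, ← mul_assoc, hε.idem]

theorem ce2_Tht_lt {x y : Lat C.n} (h : toLex (C.deg J y) < toLex (C.deg J x))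
    (hg : g ∈ C.GG K J) (h0 : C.Tht K J x * g = C.Tht K J y * g) : g = 0 := by
  by_contra hne
  obtain ⟨γ, g0, h1, h2⟩ := exists_top hJ hg hne
  have k : ∀ (z δ : Lat C.n), C.PD K J (δ + C.deg J z) ((C.Tht K J z * g) (C.kap K J 1)) =
      C.Tht K J z (C.PD K J δ (g (C.kap K J 1))) := fun z δ =>
    congrArg (fun F : Op W K => F (g (C.kap K J 1))) (C.PD_Tht K hJ δ z)
  have k' : ∀ δ, toLex γ ≤ toLex δ →
      C.PD K J δ (g (C.kap K J 1)) = C.PD K J δ (g0 (C.kap K J 1)) := fun δ hδ => by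
    have a := h2.2.2 δ hδ
    rwa [ContinuousLinearMap.sub_apply, map_sub, sub_eq_zero] at a
  have hlt : toLex γ < toLex (γ + C.deg J x - C.deg J y) := by
    rw [toLex_sub, toLex_add, lt_sub_iff_add_lt]
    exact add_lt_add_right h _
  have a := k y (γ + C.deg J x - C.deg J y)
  rw [sub_add_cancel, ← h0, k, k' γ le_rfl, k' _ hlt.le, h2.2.1.one hJ,
    ce2_PD_homog hJ h2.2.1 (fun e => hlt.ne (by rw [e])), map_zero] at a
  have b := congrArg (fun F : Op W K => F (g0 (C.kap K J 1))) (ce2_Tht_neg (K := K) hJ (-x))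
  simp only [neg_neg, ContinuousLinearMap.mul_apply, a, map_zero,
    ContinuousLinearMap.one_apply] at b
  exact h1 (GG_ext hJ h2.1 b.symm)

/-- two invertible homogeneous elements of different degrees -/
theorem Tht_sub_inj {x y : Lat C.n} (h : C.deg J x ≠ C.deg J y) (hg : g ∈ C.GG K J)
    (h0 : (C.Tht K J x - C.Tht K J y) * g = 0) : g = 0 := by
  rw [sub_mul, sub_eq_zero] at h0
  rcases lt_or_gt_of_ne (toLex.injective.ne h) with a | a
  · exact ce2_Tht_lt hJ a hg h0.symm
  · exact ce2_Tht_lt hJ a hg h0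

end HC

end Pool.Agent.P.MP_74db7f_al
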