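import Pool.Agent.P.MP_74db7f_al.F.E3

/-! E4: rational structures; the kernel of `e_J` is rational (paper, sections 5, 8). -/

namespace Pool.Agent.P.MP_74db7f_al

open scoped Classical Topology
open Filter

namespace HC

variable {B W H : Type*} [Group W] {M : CoxeterMatrix B} {cs : CoxeterSystem M W} [Ring H]
  [Algebra Rq H] (C : HC cs H) (K : Type*) [NontriviallyNormedField K] [CompleteSpace K]
  [IsUltrametricDist K] [Algebra Rq K] [GoodK K]

/-- `H → (W →₀ K)` -/
noncomputable def kf (J : Finset B) (h : H) : W →₀ K :=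
  ((C.bJ J).repr h).mapRange (algebraMap Rq K) (map_zero _)

theorem fs_kf (J : Finset B) (h : H) : C0.fs (C.kf K J h) = C.kap K J h :=
  (C.kap_eq_fs K J h).symm

theorem e4_map_kf (ϱ : K →ₗ[Rq] K) (J : Finset B) (c : K) (h : H) :
    (c • C.kf K J h).mapRange ϱ ϱ.map_zero = ϱ c • C.kf K J h := by
  ext w
  simp only [kf, Finsupp.mapRange_apply, Finsupp.smul_apply, smul_eq_mul]
  rw [mul_comm c, ← Algebra.smul_def, map_smul, Algebra.smul_def, mul_comm]

theorem e4_kf_TJ (J : Finset B) (w : W) : C.kf K J (C.TJ J w) = Finsupp.single w 1 := by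
  apply C0.fs_injective
  rw [fs_kf, kap_TJ, C0.fs_single, one_smul]

/-- `kf` as a linear map -/
noncomputable def e4_kfL (J : Finset B) : H →ₗ[Rq] (W →₀ K) :=
  (Finsupp.mapRange.linearMap (Algebra.linearMap Rq K)) ∘ₗ (C.bJ J).repr.toLinearMap

theorem e4_kfL_apply (J : Finset B) (h : H) : C.e4_kfL K J h = C.kf K J h := rfl

variable {C K}

omit [CompleteSpace K] [IsUltrametricDist K] [GoodK K] in
theorem e4_map_add (ϱ : K →ₗ[Rq] K) (f g : W →₀ K) :
    (f + g).mapRange ϱ ϱ.map_zero = f.mapRange ϱ ϱ.map_zero + g.mapRange ϱ ϱ.map_zero := by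
  ext w
  simp

omit [CompleteSpace K] [IsUltrametricDist K] [GoodK K] in
theorem e4_map_sum (ϱ : K →ₗ[Rq] K) {ι : Type*} (s : Finset ι) (f : ι → W →₀ K) :
    (∑ i ∈ s, f i).mapRange ϱ ϱ.map_zero = ∑ i ∈ s, (f i).mapRange ϱ ϱ.map_zero := by
  ext w
  simp [Finsupp.finsetSum_apply]

theorem rat_span (J : Finset B) (s : Set H) : Rat K (Submodule.span K (C.kf K J '' s)) := by
  intro ϱ f hf
  have key : ∀ c : K, (c • f).mapRange ϱ ϱ.map_zero ∈ Submodule.span K (C.kf K J '' s) := by
    induction hf using Submodule.span_induction with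
    | mem x hx =>
      obtain ⟨h, hh, rfl⟩ := hx
      intro c
      rw [e4_map_kf]
      exact Submodule.smul_mem _ _ (Submodule.subset_span ⟨h, hh, rfl⟩)
    | zero =>
      intro c
      rw [smul_zero, Finsupp.mapRange_zero]
      exact Submodule.zero_mem _
    | add x y _ _ hx hy =>
      intro c
      rw [smul_add, e4_map_add]
      exact Submodule.add_mem _ (hx c) (hy c)
    | smul a x _ hx =>
      intro c
      rw [smul_smul]
      exact hx _
  simpa using key 1

theorem Rat.sup {N N' : Submodule K (W →₀ K)} (h : Rat K N) (h' : Rat K N') :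
    Rat K (N ⊔ N') := by
  intro ϱ f hf
  obtain ⟨a, ha, b, hb, rfl⟩ := Submodule.mem_sup.1 hf
  rw [e4_map_add]
  exact Submodule.add_mem_sup (h ϱ a ha) (h' ϱ b hb)

theorem Rat.inf {N N' : Submodule K (W →₀ K)} (h : Rat K N) (h' : Rat K N') :
    Rat K (N ⊓ N') := by
  intro ϱ f hf
  exact ⟨h ϱ f hf.1, h' ϱ f hf.2⟩

/-- an operator which extends an `R`-linear map `H → H` acts on finitely supported vectors
compatibly with all `ϱ` -/
theorem exists_fs {J J' : Finset B} (f : H →ₗ[Rq] H) {F : Op W K}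
    (hF : ∀ x, F (C.kap K J x) = C.kap K J' (f x)) : ∃ f' : (W →₀ K) →ₗ[K] (W →₀ K),
      (∀ g, F (C0.fs g) = C0.fs (f' g)) ∧ ∀ (ϱ : K →ₗ[Rq] K) (g : W →₀ K),
        f' (g.mapRange ϱ ϱ.map_zero) = (f' g).mapRange ϱ ϱ.map_zero := by
  refine ⟨Finsupp.linearCombination K fun w => C.kf K J' (f (C.TJ J w)), fun g => ?_,
    fun ϱ g => ?_⟩
  · induction g using Finsupp.induction_linear with
    | zero => simp
    | add a b ha hb => simp only [map_add, ha, hb]
    | single w c =>
      rw [C0.fs_single, map_smul, Finsupp.linearCombination_single, map_smul, fs_kf, ← hF,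
        kap_TJ]
  · induction g using Finsupp.induction_linear with
    | zero => simp
    | add a b ha hb => rw [e4_map_add, map_add, map_add, e4_map_add, ha, hb]
    | single w c =>
      rw [Finsupp.mapRange_single, Finsupp.linearCombination_single,
        Finsupp.linearCombination_single, e4_map_kf]

/-- a basis `κ₀ = 1, κ₁, …` over `ℚ(q) = Frac ℤ[q,q⁻¹]` of the span of `1` and the `c i`, dual
functionals, and a common denominator -/
theorem exists_rat_dec {ι : Type*} (s : Finset ι) (c : ι → K) : ∃ r : Rq, r ≠ 0 ∧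
    ∃ (m : ℕ) (κ : Fin (m + 1) → K) (ϱ : Fin (m + 1) → K →ₗ[Rq] K) (β : ι → Fin (m + 1) → Rq),
      κ 0 = 1 ∧ (∀ i j, ϱ i (κ j) = if i = j then 1 else 0) ∧
      ∀ i ∈ s, algebraMap Rq K r * c i = ∑ j, algebraMap Rq K (β i j) * κ j := by
  letI : Algebra (FractionRing Rq) K :=
    (IsFractionRing.lift (A := Rq) (K := FractionRing Rq) (algK_injective (K := K))).toAlgebra
  haveI : IsScalarTower Rq (FractionRing Rq) K := IsScalarTower.of_algebraMap_eq fun r =>
    (IsFractionRing.lift_algebraMap (A := Rq) (K := FractionRing Rq)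
      (algK_injective (K := K)) r).symm
  have h1 : LinearIndepOn (FractionRing Rq) id ({1} : Set K) :=
    LinearIndepOn.singleton (by simp)
  let b := Module.Basis.extend h1
  let o : ↥(h1.extend (Set.subset_univ _)) := ⟨1, h1.subset_extend _ rfl⟩
  have ho : b o = 1 := Module.Basis.extend_apply_self h1 o
  let t := (s.biUnion fun i => (b.repr (c i)).support).erase o
  let e : Fin (t.card + 1) → ↥(h1.extend (Set.subset_univ _)) :=
    Fin.cons o fun j => (t.equivFin.symm j).1
  have he : Function.Injective e := by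
    refine Fin.cons_injective_iff.2 ⟨?_, Subtype.val_injective.comp t.equivFin.symm.injective⟩
    rintro ⟨j, hj⟩
    have := (t.equivFin.symm j).2
    rw [show (t.equivFin.symm j).1 = o from hj] at this
    exact Finset.notMem_erase _ _ this
  have hsupp : ∀ i ∈ s, (b.repr (c i)).support ⊆ Finset.univ.map ⟨e, he⟩ := by
    intro i hi x hx
    rw [Finset.mem_map]
    by_cases hxo : x = o
    · exact ⟨0, Finset.mem_univ _, hxo.symm⟩
    · have hxt : x ∈ t := Finset.mem_erase.2 ⟨hxo, Finset.mem_biUnion.2 ⟨i, hi, hx⟩⟩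
      refine ⟨(t.equivFin ⟨x, hxt⟩).succ, Finset.mem_univ _, ?_⟩
      simp [e]
  obtain ⟨r, hr⟩ := IsLocalization.exist_integer_multiples (nonZeroDivisors Rq)
    (s ×ˢ (Finset.univ : Finset (Fin (t.card + 1)))) fun p => b.repr (c p.1) (e p.2)
  have hβ : ∀ i j, ∃ β : Rq, i ∈ s →
      algebraMap Rq (FractionRing Rq) β = (r : Rq) • b.repr (c i) (e j) := by
    intro i j
    by_cases hi : i ∈ s
    · obtain ⟨β, hβ⟩ := hr (i, j) (Finset.mem_product.2 ⟨hi, Finset.mem_univ _⟩)
      exact ⟨β, fun _ => hβ⟩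
    · exact ⟨0, fun h => absurd h hi⟩
  choose β hβ using hβ
  refine ⟨r, nonZeroDivisors.ne_zero r.2, t.card, fun j => b (e j), fun i =>
    ((Algebra.linearMap (FractionRing Rq) K) ∘ₗ b.coord (e i)).restrictScalars Rq, β, ho,
    fun i j => ?_, fun i hi => ?_⟩
  · by_cases hij : i = j
    · subst hij
      simp
    · have : e j ≠ e i := fun h => hij (he h).symm
      simp [hij, Finsupp.single_eq_of_ne' this]
  · have hc : c i = ∑ j, b.repr (c i) (e j) • b (e j) := by
      conv_lhs => rw [← b.linearCombination_repr (c i)]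
      rw [Finsupp.linearCombination_apply, Finsupp.sum_of_support_subset _ (hsupp i hi)
        (fun x a => a • b x) (fun x _ => zero_smul _ _), Finset.sum_map]
      rfl
    conv_lhs => rw [hc]
    rw [Finset.mul_sum]
    refine Finset.sum_congr rfl fun j _ => ?_
    rw [IsScalarTower.algebraMap_apply Rq (FractionRing Rq) K (β i j), hβ i j hi,
      Algebra.smul_def (r : Rq), map_mul, ← IsScalarTower.algebraMap_apply, Algebra.smul_def,
      mul_assoc]

/-- use `exists_rat_dec` -/
theorem Rat.indep {J : Finset B} {g : Op W K} (hg : Rat K (kerF K g)) {k : ℕ} (l : Fin k → H)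
    (hl : LinearIndependent Rq fun i => g (C.kap K J (l i))) :
    LinearIndependent K fun i => g (C.kap K J (l i)) := by
  rw [Fintype.linearIndependent_iff] at hl ⊢
  intro c hc i
  obtain ⟨r, hr, m, κ, ϱ, β, -, hϱ, hβ⟩ := exists_rat_dec (K := K) Finset.univ c
  have hker : ∀ d : Fin k → K, (∑ i, d i • C.kf K J (l i)) ∈ kerF K g ↔
      ∑ i, d i • g (C.kap K J (l i)) = 0 := by
    intro d
    rw [kerF, LinearMap.mem_ker, map_sum]
    simp only [map_smul, LinearMap.comp_apply, fs_kf, ContinuousLinearMap.coe_coe]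
  have h1 : (∑ i, (algebraMap Rq K r * c i) • C.kf K J (l i)) ∈ kerF K g := by
    rw [hker]
    simp only [mul_smul]
    rw [← Finset.smul_sum, hc, smul_zero]
  have h2 : ∀ j, β i j = 0 := by
    intro j
    have h3 := hg (ϱ j) _ h1
    rw [e4_map_sum] at h3
    simp only [e4_map_kf] at h3
    rw [hker] at h3
    refine hl (fun i => β i j) ?_ i
    rw [← h3]
    refine Finset.sum_congr rfl fun i' _ => ?_
    rw [hβ i' (Finset.mem_univ _), map_sum, ← algebraMap_smul K (β i' j)]
    congr 1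
    rw [Finset.sum_eq_single j]
    · rw [← Algebra.smul_def, map_smul, hϱ, if_pos rfl, Algebra.smul_def, mul_one]
    · intro j' _ hj'
      rw [← Algebra.smul_def, map_smul, hϱ, if_neg hj'.symm, smul_zero]
    · intro h
      exact absurd (Finset.mem_univ _) h
  have h4 := hβ i (Finset.mem_univ _)
  simp only [h2, map_zero, zero_mul, Finset.sum_const_zero] at h4
  exact (mul_eq_zero.1 h4).resolve_left fun h =>
    hr (algK_injective (K := K) (by rw [h, map_zero]))

/-- the functional is represented by a vector on each degree -/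
theorem e4_rep {J : Finset B} (hJ : J ⊆ C.S0) (φ : (W →₀ K) →ₗ[K] K)
    (hφ : ∀ h, C.eJ K J (C.kap K J h) = 0 → φ (C.kf K J h) = 0) (δ : Lat C.n) :
    ∃ y : C0 W K, ∀ g : W →₀ K,
      C0.ip y (C0.fs g) = φ (g.filter fun w => C.degW J w = δ) := by
  obtain ⟨F, -, -, hF⟩ := reduce (K := K) hJ δ
  have hQ : 1 < ‖qK K‖ := GoodK.one_lt
  have ht : Tendsto (fun w => if C.degW J w = δ then φ (Finsupp.single w 1) else 0) cofinite
      (𝓝 0) := by
    rw [NormedAddGroup.tendsto_nhds_zero]
    intro ε hε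
    set A : ℝ := ∑ f ∈ F, ‖φ (C.kf K J f)‖ with hA
    have hA0 : 0 ≤ A := Finset.sum_nonneg fun _ _ => norm_nonneg _
    obtain ⟨k, hk⟩ : ∃ k : ℕ, ‖qK K‖ ^ (-(k : ℤ)) * A < ε := by
      obtain ⟨k, hk⟩ := pow_unbounded_of_one_lt (A / ε) hQ
      refine ⟨k, ?_⟩
      have hp : 0 < ‖qK K‖ ^ k := pow_pos (by linarith) k
      rw [zpow_neg, zpow_natCast, inv_mul_lt_iff₀ hp]
      rwa [div_lt_iff₀ hε] at hk
    filter_upwards [(hF (-(k : ℤ))).compl_mem_cofinite] with w hw
    split_ifs with hd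
    · have hw' : ∃ β : H → Rq, (∀ f, β f ∈ dR (-(k : ℤ))) ∧
          C.eJ K J (C.kap K J (C.TJ J w - ∑ f ∈ F, β f • f)) = 0 := by
        by_contra hn
        exact hw ⟨hd, hn⟩
      obtain ⟨β, hβ, h0⟩ := hw'
      have h1 := hφ _ h0
      rw [← e4_kfL_apply, map_sub, map_sum, map_sub, sub_eq_zero, e4_kfL_apply, e4_kf_TJ,
        map_sum] at h1
      rw [h1]
      refine lt_of_le_of_lt ((norm_sum_le _ _).trans ?_) hk
      rw [hA, Finset.mul_sum]
      refine Finset.sum_le_sum fun f _ => ?_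
      rw [map_smul, e4_kfL_apply, ← algebraMap_smul K (β f), map_smul, smul_eq_mul, norm_mul]
      exact mul_le_mul_of_nonneg_right ((GoodK.deg _ _).2 (hβ f)) (norm_nonneg _)
    · simpa using hε
  refine ⟨C0.mk _ ht, fun g => ?_⟩
  induction g using Finsupp.induction_linear with
  | zero => rw [map_zero, map_zero, Finsupp.filter_zero, map_zero]
  | add a b ha hb => rw [map_add, map_add, ha, hb, Finsupp.filter_add, map_add]
  | single w c =>
    rw [C0.fs_single, map_smul, C0.ip_comm, C0.ip_sg, C0.co_mk]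
    by_cases hd : C.degW J w = δ
    · rw [if_pos hd, Finsupp.filter_single_of_pos (fun w => C.degW J w = δ) hd, ← map_smul,
        Finsupp.smul_single, smul_eq_mul, mul_one]
    · rw [if_neg hd, Finsupp.filter_single_of_neg (fun w => C.degW J w = δ) hd, smul_zero,
        map_zero]

theorem e4_filter_kf (J : Finset B) (δ : Lat C.n) (h : H) :
    (C.kf K J h).filter (fun w => C.degW J w = δ) = C.kf K J (C.pd J δ h) := by
  apply C0.fs_injective
  ext w
  rw [fs_kf, ← PD_kap, co_PD, C0.co_fs, Finsupp.filter_apply, ← fs_kf, C0.co_fs]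

theorem e4_orth {J : Finset B} (hJ : J ⊆ C.S0) (φ : (W →₀ K) →ₗ[K] K)
    (hφ : ∀ h, C.eJ K J (C.kap K J h) = 0 → φ (C.kf K J h) = 0) (δ : Lat C.n) {y : C0 W K}
    (hy : ∀ g : W →₀ K, C0.ip y (C0.fs g) = φ (g.filter fun w => C.degW J w = δ)) :
    ∀ k ∈ C.KK K J, C0.ip y k = 0 := by
  have hle : C.KK K J ≤ LinearMap.ker (C0.ip y : C0 W K →L[K] K).toLinearMap := by
    refine Submodule.topologicalClosure_minimal _ ?_ (C0.ip y).isClosed_ker
    rw [Submodule.span_le]
    rintro v ⟨J', hJ', u, hu, ξ, rfl⟩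
    obtain ⟨b, hbJ, hbJ'⟩ := Finset.exists_of_ssubset hJ'
    set x : Lat C.n := ((C.WF J).card : ℤ) • C.z J' - C.deg J (C.z J') with hx
    have hJ'0 : J' ⊆ C.S0 := hJ'.subset.trans hJ
    have hsr : ∀ j ∈ J, C.sr j x = ((C.WF J).card : ℤ) * C.sr j (C.z J') := by
      intro j hj
      rw [hx, map_sub, map_smul, C.fix_deg hJ _ j hj, sub_zero, smul_eq_mul]
    have hc : (0 : ℤ) < (C.WF J).card := by exact_mod_cast C.card_WF_pos hJ
    have hfix : C.Fix J' x := fun j hj => by
      rw [hsr j (hJ'.subset hj), C.fix_z hJ'0 j hj, mul_zero]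
    have hpos : ∀ b ∈ J, b ∉ J' → 0 < C.sr b x := fun b hb hb' => by
      rw [hsr b hb, C.sr_z_not (hJ hb) hb']
      exact mul_pos hc C.m_pos
    have hdom : C.Dom J x := fun j hj => by
      by_cases hj' : j ∈ J'
      · exact (hfix j hj').ge
      · exact (hpos j hj hj').le
    have hne : x ≠ 0 := fun h => by
      have := hpos b hbJ hbJ'
      rw [h, map_zero] at this
      exact lt_irrefl _ this
    obtain ⟨s, N, hs, hkill⟩ := Fpol_kill_neg (K := K) hJ hdom (C.deg_proj hJ _) hne
    obtain ⟨G, hG⟩ := Fpol_eps (K := K) hJ'.subset hJ hfix hpos hs N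
    have hF : C.Fpol s N x ∈ C.HJ J := Fpol_mem s N x
    have hT : C.Tb u ∈ C.HJ J := C.Tb_mem_HJ hJ hu
    have h0 : (C0.ip y).comp (C.Lop K J (C.Tb u) * C.Lop K J (C.Fpol s N x)) = 0 := by
      refine C.op_ext J fun h => ?_
      rw [ContinuousLinearMap.comp_apply, ContinuousLinearMap.mul_apply, C.Lop_kap K hJ hF,
        C.Lop_kap K hJ hT, ← fs_kf, hy, e4_filter_kf, ContinuousLinearMap.zero_apply]
      apply hφ
      rw [← PD_kap, ← C.Lop_kap K hJ hT, ← C.Lop_kap K hJ hF]
      have e1 : C.eJ K J * C.PD K J δ * C.Lop K J (C.Tb u) * C.Lop K J (C.Fpol s N x) = 0 := by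
        rw [eJ_PD hJ subset_rfl hJ, mul_assoc (C.PD K J δ), eJ_Lop hJ hT, mul_assoc, mul_assoc,
          eJ_Lop hJ hF, hkill, mul_zero, mul_zero]
      exact congrArg (fun T : Op W K => T (C.kap K J h)) e1
    have := congrArg (fun T : C0 W K →L[K] K => T (G ξ)) h0
    rw [← hG]
    exact this
  exact fun k hk => hle hk

/-- (Rat-e): the kernel is spanned by its `R`-points. A functional `φ` killing them is, on one
degree, represented by a vector (`reduce`, `exists_rep`) orthogonal to `KK` (`Fpol_kill_neg`,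
`Fpol_eps` for `|W_J| z J' - deg (z J')`). -/
theorem kerF_eJ {J : Finset B} (hJ : J ⊆ C.S0) : kerF K (C.eJ K J) =
    Submodule.span K (C.kf K J '' {h | C.eJ K J (C.kap K J h) = 0}) := by
  apply le_antisymm
  · intro f hf
    have hf' : C.eJ K J (C0.fs f) = 0 := hf
    rw [← Subspace.forall_mem_dualAnnihilator_apply_eq_zero_iff]
    intro φ hφ
    have hφ' : ∀ h, C.eJ K J (C.kap K J h) = 0 → φ (C.kf K J h) = 0 := fun h hh =>
      (Submodule.mem_dualAnnihilator φ).1 hφ _ (Submodule.subset_span ⟨h, hh, rfl⟩)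
    have key : ∀ δ, φ (f.filter fun w => C.degW J w = δ) = 0 := by
      intro δ
      obtain ⟨y, hy⟩ := e4_rep hJ φ hφ' δ
      rw [← hy, ← eJ_of_orth hJ (e4_orth hJ φ hφ' δ hy), eJ_adj hJ, hf', map_zero]
    have hsum : f = ∑ δ ∈ f.support.image (C.degW J), f.filter fun w => C.degW J w = δ := by
      ext w
      rw [Finsupp.finsetSum_apply]
      simp only [Finsupp.filter_apply]
      rw [Finset.sum_ite_eq]
      split_ifs with hw
      · rfl
      · by_contra h
        exact hw (Finset.mem_image_of_mem _ (Finsupp.mem_support_iff.2 h))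
    rw [hsum, map_sum]
    exact Finset.sum_eq_zero fun δ _ => key δ
  · rw [Submodule.span_le]
    rintro _ ⟨h, hh, rfl⟩
    show C.eJ K J (C0.fs (C.kf K J h)) = 0
    rw [fs_kf]
    exact hh

theorem rat_eJ {J : Finset B} (hJ : J ⊆ C.S0) : Rat K (kerF K (C.eJ K J)) := by
  rw [kerF_eJ hJ]
  exact rat_span J _

end HC

end Pool.Agent.P.MP_74db7f_al
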