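import Pool.Agent.P.MP_74db7f_al.F.Ce2
import Pool.Agent.P.MP_74db7f_al.F.E4

/-! Ce3: the idempotent generating a two-sided ideal of the degree 0 part (paper, section 8). -/

namespace Pool.Agent.P.MP_74db7f_al

open scoped Classical Topology
open Filter

namespace HC

variable {B W H : Type*} [Group W] {M : CoxeterMatrix B} {cs : CoxeterSystem M W} [Ring H]
  [Algebra Rq H] (C : HC cs H) (K : Type*) [NontriviallyNormedField K] [CompleteSpace K]
  [IsUltrametricDist K] [Algebra Rq K] [GoodK K]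

variable {C K} {J : Finset B} (hJ : J ⊆ C.S0)

omit [CompleteSpace K] [IsUltrametricDist K] [GoodK K] in
theorem ce3_map (ϱ : K →ₗ[Rq] K) (c : K) (h : H) :
    (c • C.kf K J h).mapRange ϱ ϱ.map_zero = ϱ c • C.kf K J h := by
  ext w
  simp only [kf, Finsupp.mapRange_apply, Finsupp.smul_apply, smul_eq_mul]
  rw [mul_comm c, ← Algebra.smul_def, map_smul, Algebra.smul_def, mul_comm]

omit [CompleteSpace K] [IsUltrametricDist K] [GoodK K] in
theorem ce3_map_sum {ι : Type*} (s : Finset ι) (ϱ : K →ₗ[Rq] K) (c : ι → K) (h : ι → H) :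
    (∑ i ∈ s, c i • C.kf K J (h i)).mapRange ϱ ϱ.map_zero = ∑ i ∈ s, ϱ (c i) • C.kf K J (h i) := by
  induction s using Finset.induction_on with
  | empty => simp
  | insert i s hi ih =>
    rw [Finset.sum_insert hi, Finset.sum_insert hi, Finsupp.mapRange_add (map_add ϱ), ih, ce3_map]

include hJ

theorem ce3_Lop_zero : C.Lop K J 0 = 0 := by
  have h := C.Lop_smul K hJ 0 (C.HJ J).one_mem
  rwa [zero_smul, map_zero, zero_smul] at h

theorem ce3_Lop_sum {ι : Type*} (s : Finset ι) (β : ι → Rq) (a : ι → H) (ha : ∀ i, a i ∈ C.HJ J) :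
    C.Lop K J (∑ i ∈ s, β i • a i) = ∑ i ∈ s, algebraMap Rq K (β i) • C.Lop K J (a i) := by
  induction s using Finset.induction_on with
  | empty => simpa using ce3_Lop_zero hJ
  | insert i s hi ih =>
    rw [Finset.sum_insert hi, Finset.sum_insert hi, C.Lop_add K hJ ((C.HJ J).smul_mem (ha i) _)
      ((C.HJ J).sum_mem fun j _ => (C.HJ J).smul_mem (ha j) _), ih, C.Lop_smul K hJ _ (ha i)]

theorem ce3_one {a : H} (ha : a ∈ C.HJ J) :
    (C.eJ K J * C.Lop K J a) (C.kap K J 1) = C.eJ K J (C.kap K J a) := by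
  rw [mul_apply_eq_comp, C.Lop_kap K hJ ha, mul_one]

theorem ce3_proj (N : Submodule K (Op W K))
    (h1 : ∀ l ∈ N, l ∈ C.GG K J ∧ C.Homog K J 0 l) (y : C0 W K) :
    ∃ ε ∈ N, ∀ l ∈ N, C0.ip (y - ε (C.kap K J 1)) (l (C.kap K J 1)) = 0 := by
  obtain ⟨U, hU, hmem⟩ := GG_findim (C := C) (K := K) hJ 0
  have hle : N ≤ U := fun l hl => (hmem l).2 (h1 l hl)
  have : FiniteDimensional K N := Submodule.finiteDimensional_of_le hle
  let ev : N →ₗ[K] C0 W K :=
    { toFun := fun l => l.1 (C.kap K J 1)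
      map_add' := fun _ _ => rfl
      map_smul' := fun _ _ => rfl }
  let φ : C0 W K →ₗ[K] Module.Dual K N :=
    { toFun := fun ξ => (C0.ip ξ : C0 W K →ₗ[K] K) ∘ₗ ev
      map_add' := fun a b => by
        ext l
        simp
      map_smul' := fun c a => by
        ext l
        simp }
  have hinj : Function.Injective (φ ∘ₗ ev) := by
    rw [injective_iff_map_eq_zero]
    intro l hl
    have h0 : C0.ip (ev l) (ev l) = 0 := LinearMap.congr_fun hl l
    exact Subtype.ext (GG_ext hJ (h1 l.1 l.2).1 (C0.eq_zero_of_ip_self h0))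
  have hsurj : Function.Surjective (φ ∘ₗ ev) :=
    (LinearMap.injective_iff_surjective_of_finrank_eq_finrank
      (Subspace.dual_finrank_eq).symm).1 hinj
  obtain ⟨ε, hε⟩ := hsurj (φ y)
  refine ⟨ε.1, ε.2, fun l hl => ?_⟩
  have h0 : C0.ip (ev ε) (ev ⟨l, hl⟩) = C0.ip y (ev ⟨l, hl⟩) := LinearMap.congr_fun hε ⟨l, hl⟩
  rw [map_sub, sub_apply]
  exact sub_eq_zero.2 h0.symm

/-- `G₀ = N ⊕ N^⊥` for the anisotropic form `⟨g 1, g' 1⟩`; `e = ε + ε'`; `l ε = l` on `N`;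
`ε ε'^* ε' = 0` gives `ε' ε^* = 0`, so `ε = ε^*`; `ε g = ε g ε = g ε` on `G₀`; conjugation by
`Θ_x` fixes the unit of `N`; `H^J` is spanned by the `T_u θ_x` -/
theorem exists_unit (N : Submodule K (Op W K))
    (h1 : ∀ l ∈ N, l ∈ C.GG K J ∧ C.Homog K J 0 l)
    (h2 : ∀ l ∈ N, ∀ g ∈ C.GG K J, C.Homog K J 0 g → g * l ∈ N ∧ l * g ∈ N)
    (h3 : ∀ l ∈ N, ∀ x, C.Tht K J x * l * C.Tht K J (-x) ∈ N) :
    ∃ ε ∈ N, C.IsE K J ε ∧ ∀ l ∈ N, ε * l = l := by
  obtain ⟨ε, hN, hε⟩ := ce3_proj hJ N h1 (C.eJ K J (C.kap K J 1))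
  obtain ⟨hG, hH⟩ := h1 ε hN
  have adj0 : ∀ g ∈ C.GG K J, C.Homog K J 0 g →
      ∃ g' ∈ C.GG K J, C.Homog K J 0 g' ∧ C0.IsAdj g g' := fun g hg hh => by
    obtain ⟨g', hg', ha⟩ := GG_adj hJ hg
    exact ⟨g', hg', by simpa using hh.adj ha, ha⟩
  have hr0 : ∀ l ∈ N, l * (C.eJ K J - ε) = 0 := fun l hl => by
    obtain ⟨hl1, hl2⟩ := h1 l hl
    obtain ⟨l', hl', hh', ha⟩ := adj0 l hl1 hl2
    have hm : l * (C.eJ K J - ε) ∈ N := by
      rw [mul_sub, (GG_e hJ hl1).2]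
      exact N.sub_mem hl (h2 l hl ε hG hH).2
    refine GG_ext hJ (h1 _ hm).1 (C0.eq_zero_of_ip_self ?_)
    have h0 := hε _ (h2 _ hm l' hl' hh').1
    rw [mul_apply_eq_comp, ← ha] at h0
    exact h0
  have hr : ∀ l ∈ N, l * ε = l := fun l hl => by
    have h0 := hr0 l hl
    rw [mul_sub, (GG_e hJ (h1 l hl).1).2] at h0
    exact (sub_eq_zero.1 h0).symm
  obtain ⟨ε', hG', hH', ha⟩ := adj0 ε hG hH
  have hsa : C0.IsAdj ε ε := by
    have a1 : C0.IsAdj (C.eJ K J - ε) (C.eJ K J - ε') := (eJ_adj hJ).sub ha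
    have a2 : C0.IsAdj ((C.eJ K J - ε) * ε') (ε * (C.eJ K J - ε')) := a1.mul ha.symm
    have hm : ε * (C.eJ K J - ε') ∈ N := by
      rw [mul_sub, (GG_e hJ hG).2]
      exact N.sub_mem hN (h2 ε hN ε' hG' hH').2
    have h0 : (C.eJ K J - ε) * ε' = 0 := by
      refine ContinuousLinearMap.ext fun ξ => C0.eq_zero_of_ip_self ?_
      rw [a2, ← mul_apply_eq_comp, ← mul_assoc, hr0 _ hm, zero_mul]
      simp
    rw [sub_mul, (GG_e hJ hG').1, sub_eq_zero] at h0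
    have a3 : C0.IsAdj ε' ε' := by
      have a4 := ha.mul ha.symm
      rwa [← h0] at a4
    have e := a3.unique ha.symm
    rwa [e] at ha
  have hc : ∀ g ∈ C.GG K J, C.Homog K J 0 g → ε * g = g * ε := fun g hg hh => by
    obtain ⟨g', hg', hh', hb⟩ := adj0 g hg hh
    have e1 := hr _ (h2 ε hN g hg hh).2
    have e2 := hr _ (h2 ε hN g' hg' hh').2
    have b1 : C0.IsAdj (ε * g') (g * ε) := hsa.mul hb.symm
    have b2 : C0.IsAdj (ε * g' * ε) (ε * (g * ε)) := b1.mul hsa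
    rw [e2] at b2
    rw [b1.unique b2, ← mul_assoc, e1]
  have hl : ∀ l ∈ N, ε * l = l := fun l hl => by
    rw [hc l (h1 l hl).1 (h1 l hl).2, hr l hl]
  have hinv : ∀ x, C.Tht K J (-x) * C.Tht K J x = 1 := fun x => by
    rw [← C.Tht_add K hJ, neg_add_cancel, C.Tht_zero K hJ]
  have hT : ∀ x, ε * C.Tht K J x = C.Tht K J x * ε := fun x => by
    have e1 := hr _ (h3 ε hN x)
    have e2 := hl _ (h3 ε hN (-x))
    have i2 := hinv (-x)
    rw [neg_neg] at e2 i2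
    have e3 : C.Tht K J x * ε * C.Tht K J (-x) * ε = ε := by
      calc C.Tht K J x * ε * C.Tht K J (-x) * ε
          = C.Tht K J x * (ε * (C.Tht K J (-x) * ε * C.Tht K J x)) * C.Tht K J (-x) := by
            simp only [mul_assoc, i2, mul_one]
        _ = ε := by
            rw [e2]
            simp only [mul_assoc, i2, mul_one]
            rw [← mul_assoc, i2, one_mul]
    rw [e3] at e1
    calc ε * C.Tht K J x = C.Tht K J x * ε * C.Tht K J (-x) * C.Tht K J x := by rw [← e1]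
      _ = C.Tht K J x * ε := by rw [mul_assoc, hinv, mul_one]
  refine ⟨ε, hN, ⟨hG, hr ε hN, hsa, fun a ha => ?_, fun δ => ?_⟩, hl⟩
  · have key : a ∈ C.HJ J ∧ ε * C.Lop K J a = C.Lop K J a * ε := by
      refine Submodule.span_induction
        (p := fun a _ => a ∈ C.HJ J ∧ ε * C.Lop K J a = C.Lop K J a * ε) ?_ ?_ ?_ ?_
        ((C.mem_HJ_iff_left hJ).1 ha)
      · rintro _ ⟨u, hu, x, rfl⟩
        have hTu : C.Tb u ∈ C.HJ J := (C.mem_HJ_iff_left hJ).2
          (Submodule.subset_span ⟨u, hu, 0, by rw [C.th_zero, mul_one]⟩)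
        have hx : C.th x ∈ C.HJ J := Algebra.subset_adjoin (Or.inr ⟨x, rfl⟩)
        refine ⟨mul_mem hTu hx, ?_⟩
        have hh : C.Homog K J 0 (C.Lop K J (C.Tb u)) := fun δ => by
          rw [zero_add, C.PD_Lop_Tb K hJ δ hu]
        have hu0 := hc _ (mem_GG hTu) (by simpa using (homog_eJ hJ).mul hh)
        rw [← mul_assoc, (GG_e hJ hG).2, eJ_Lop hJ hTu, mul_assoc, (GG_e hJ hG).1] at hu0
        have hx0 : ε * C.Lop K J (C.th x) = C.Lop K J (C.th x) * ε := hT x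
        rw [C.Lop_mul K hJ hTu hx, ← mul_assoc, hu0, mul_assoc, hx0, mul_assoc]
      · exact ⟨zero_mem _, by rw [ce3_Lop_zero hJ, mul_zero, zero_mul]⟩
      · intro a b _ _ ha hb
        exact ⟨add_mem ha.1 hb.1, by rw [C.Lop_add K hJ ha.1 hb.1, mul_add, add_mul, ha.2, hb.2]⟩
      · intro r a _ ha
        exact ⟨(C.HJ J).smul_mem ha.1 r, by
          rw [C.Lop_smul K hJ r ha.1, mul_smul_comm, smul_mul_assoc, ha.2]⟩
    exact key.2
  · have h0 := hH δ
    rw [zero_add] at h0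
    exact h0.symm

/-- write `r ε 1 = e ∑ κ_j b_j` (`exists_rat_dec`), `l_j = e L(b_j) ∈ N`; apply `ϱ₀` to
`l_j ε = l_j` (`rat_eJ`, `exists_fs`): `l_j l₀ = r l_j`, so `l₀ = ε l₀ = r ε` -/
theorem rat_unit (N : Submodule K (Op W K)) (h1 : ∀ l ∈ N, l ∈ C.GG K J) {ε : Op W K}
    (hε : C.IsE K J ε) (hm : ε ∈ N) (hu : ∀ l ∈ N, ε * l = l)
    (hr : ∀ (ϱ : K →ₗ[Rq] K) (f : W →₀ K),
      (∃ l ∈ N, l (C.kap K J 1) = C.eJ K J (C0.fs f)) →
        ∃ l ∈ N, l (C.kap K J 1) = C.eJ K J (C0.fs (f.mapRange ϱ ϱ.map_zero))) :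
    ∃ r : Rq, r ≠ 0 ∧ ∃ a ∈ C.HJ J, algebraMap Rq K r • ε = C.eJ K J * C.Lop K J a := by
  obtain ⟨n, c, g, hg⟩ := Submodule.mem_span_set'.1 hε.mem
  choose a ha hga using fun i => (g i).2
  obtain ⟨r, hr0, m, κ, ϱ, β, hκ, hϱ, hβ⟩ := exists_rat_dec (K := K) Finset.univ c
  let b : Fin (m + 1) → H := fun j => ∑ i, β i j • a i
  have hb : ∀ j, b j ∈ C.HJ J := fun j =>
    (C.HJ J).sum_mem fun i _ => (C.HJ J).smul_mem (ha i) _
  have hsum : algebraMap Rq K r • ε = ∑ j, κ j • (C.eJ K J * C.Lop K J (b j)) := by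
    rw [← hg, Finset.smul_sum]
    simp only [b, ce3_Lop_sum hJ _ _ _ ha, Finset.mul_sum, Finset.smul_sum, mul_smul_comm,
      smul_smul]
    rw [Finset.sum_comm]
    refine Finset.sum_congr rfl fun i _ => ?_
    rw [hβ i (Finset.mem_univ i), Finset.sum_smul, hga i]
    exact Finset.sum_congr rfl fun j _ => by rw [mul_comm]
  have hF : (algebraMap Rq K r • ε) (C.kap K J 1) =
      C.eJ K J (C0.fs (∑ j, κ j • C.kf K J (b j))) := by
    rw [hsum, sum_apply, map_sum, map_sum]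
    refine Finset.sum_congr rfl fun j _ => ?_
    rw [smul_apply, ce3_one hJ (hb j), map_smul, map_smul, fs_kf]
  have hmap : ∀ j, (∑ i, κ i • C.kf K J (b i)).mapRange (ϱ j) (ϱ j).map_zero = C.kf K J (b j) :=
    fun j => by
      rw [ce3_map_sum]
      simp [hϱ]
  have hN : ∀ j, C.eJ K J * C.Lop K J (b j) ∈ N := fun j => by
    obtain ⟨l, hl, e⟩ := hr (ϱ j) _ ⟨_, N.smul_mem _ hm, hF⟩
    rw [hmap, fs_kf, ← ce3_one hJ (hb j)] at e
    have h0 := GG_ext hJ ((C.GG K J).sub_mem (h1 l hl) (mem_GG (hb j)))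
      (by rw [sub_apply, e, sub_self])
    rw [← sub_eq_zero.1 h0]
    exact hl
  have he : ∀ ξ, C.eJ K J (C.eJ K J ξ) = C.eJ K J ξ := fun ξ => by
    rw [← mul_apply_eq_comp, eJ_idem hJ]
  have hprod : ∀ j, C.eJ K J * C.Lop K J (b j) * (C.eJ K J * C.Lop K J (b 0)) =
      algebraMap Rq K r • (C.eJ K J * C.Lop K J (b j)) := fun j => by
    obtain ⟨f', hf1, hf2⟩ := exists_fs (C := C) (K := K) (LinearMap.mulLeft Rq (b j))
      (fun x => C.Lop_kap K hJ (hb j) x)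
    have hel : ∀ ξ, (C.eJ K J * C.Lop K J (b j)) (C.eJ K J ξ) =
        C.eJ K J (C.Lop K J (b j) ξ) := fun ξ => by
      rw [← mul_apply_eq_comp, (GG_e hJ (mem_GG (hb j))).2, mul_apply_eq_comp]
    have e1 : C.eJ K J * C.Lop K J (b j) * ε = C.eJ K J * C.Lop K J (b j) := by
      rw [← hε.comm hJ (mem_GG (hb j)), hu _ (hN j)]
    have e2 : f' (∑ i, κ i • C.kf K J (b i)) - algebraMap Rq K r • C.kf K J (b j) ∈
        kerF K (C.eJ K J) := by
      show C.eJ K J (C0.fs _) = 0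
      rw [map_sub, map_sub, ← hf1, ← hel, ← hF, ← mul_apply_eq_comp, mul_smul_comm, e1,
        smul_apply, ce3_one hJ (hb j), map_smul, map_smul, fs_kf, sub_self]
    have e3 : C.eJ K J (C0.fs _) = 0 := rat_eJ hJ (ϱ 0) _ e2
    have e4 : ϱ 0 (algebraMap Rq K r) = algebraMap Rq K r := by
      have e5 := hϱ 0 0
      rw [hκ, if_pos rfl] at e5
      rw [Algebra.algebraMap_eq_smul_one, map_smul, e5]
    rw [Finsupp.mapRange_sub (map_sub (ϱ 0)), ← hf2, hmap, ce3_map, e4, map_sub, map_sub, ← hf1,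
      map_smul, map_smul, fs_kf, fs_kf] at e3
    refine sub_eq_zero.1 (GG_ext hJ ((C.GG K J).sub_mem
      (GG_mul hJ (mem_GG (hb j)) (mem_GG (hb 0))) ((C.GG K J).smul_mem _ (mem_GG (hb j)))) ?_)
    rw [sub_apply, mul_apply_eq_comp, ce3_one hJ (hb 0), hel, smul_apply, ce3_one hJ (hb j)]
    exact e3
  refine ⟨r, hr0, b 0, hb 0, ?_⟩
  have hrK : algebraMap Rq K r ≠ 0 := fun h => hr0 (algK_injective (h.trans (map_zero _).symm))
  have e6 : algebraMap Rq K r • (C.eJ K J * C.Lop K J (b 0)) =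
      algebraMap Rq K r • (algebraMap Rq K r • ε) := by
    conv_lhs => rw [← hu _ (hN 0), ← smul_mul_assoc, hsum, Finset.sum_mul]
    rw [hsum, Finset.smul_sum]
    refine Finset.sum_congr rfl fun j _ => ?_
    rw [smul_mul_assoc, hprod, smul_comm]
  exact (smul_right_injective _ hrK e6).symm

theorem rat_kerF {ε : Op W K} {r : Rq} (hr : r ≠ 0) {a : H} (ha : a ∈ C.HJ J)
    (h : algebraMap Rq K r • ε = C.eJ K J * C.Lop K J a) : Rat K (kerF K ε) := by
  obtain ⟨f', hf1, hf2⟩ := exists_fs (C := C) (K := K) (LinearMap.mulLeft Rq a)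
    (fun x => C.Lop_kap K hJ ha x)
  have hrK : algebraMap Rq K r ≠ 0 := fun h => hr (algK_injective (h.trans (map_zero _).symm))
  have key : ∀ f, algebraMap Rq K r • ε (C0.fs f) = C.eJ K J (C0.fs (f' f)) := fun f => by
    rw [← smul_apply, h, mul_apply_eq_comp, hf1]
  intro ϱ f hf
  have h0 : ε (C0.fs f) = 0 := hf
  have h2 : f' f ∈ kerF K (C.eJ K J) := by
    show C.eJ K J (C0.fs _) = 0
    rw [← key, h0, smul_zero]
  have h3 : C.eJ K J (C0.fs _) = 0 := rat_eJ hJ ϱ _ h2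
  rw [← hf2, ← key] at h3
  exact (smul_eq_zero.1 h3).resolve_left hrK

end HC

end Pool.Agent.P.MP_74db7f_al
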