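import Pool.Agent.P.MP_74db7f_al.F.Ce3

/-! Ce4: the idempotent of the ideal of top terms (paper, section 8). -/

namespace Pool.Agent.P.MP_74db7f_al

open scoped Classical Topology
open Filter

namespace HC

variable {B W H : Type*} [Group W] {M : CoxeterMatrix B} {cs : CoxeterSystem M W} [Ring H]
  [Algebra Rq H] (C : HC cs H) (K : Type*) [NontriviallyNormedField K] [CompleteSpace K]
  [IsUltrametricDist K] [Algebra Rq K] [GoodK K]

variable {C K} {J : Finset B} (hJ : J ⊆ C.S0) {Jd : Submodule Rq H} (hI : IsId Jd)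
include hJ hI

omit hJ hI in
theorem ce4_gen {j : H} (hj : j ∈ Jd) : C.eJ K J (C.kap K J j) ∈ C.YY K J Jd :=
  Submodule.subset_span ⟨j, hj, rfl⟩

omit hJ hI in
theorem ce4_stab (F : Op W K) (hF : ∀ j ∈ Jd, F (C.eJ K J (C.kap K J j)) ∈ C.YY K J Jd)
    {y : C0 W K} (hy : y ∈ C.YY K J Jd) : F y ∈ C.YY K J Jd := by
  induction hy using Submodule.span_induction with
  | mem x hx =>
    obtain ⟨j, hj, rfl⟩ := hx
    exact hF j hj
  | zero => rw [map_zero]; exact Submodule.zero_mem _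
  | add x y _ _ hx hy => rw [map_add]; exact Submodule.add_mem _ hx hy
  | smul c x _ hx => rw [map_smul]; exact Submodule.smul_mem _ c hx

omit hI in
theorem ce4_e {y : C0 W K} (hy : y ∈ C.YY K J Jd) : C.eJ K J y ∈ C.YY K J Jd := by
  refine ce4_stab _ (fun j hj => ?_) hy
  rw [← ContinuousLinearMap.mul_apply, eJ_idem hJ]
  exact ce4_gen hj

theorem YY_Rop (h : H) {y : C0 W K} (hy : y ∈ C.YY K J Jd) : C.Rop K J h y ∈ C.YY K J Jd := by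
  refine ce4_stab _ (fun j hj => ?_) hy
  rw [← ContinuousLinearMap.mul_apply, ← eJ_Rop hJ, ContinuousLinearMap.mul_apply, Rop_kap]
  exact ce4_gen (hI j hj h).2

theorem YY_Lop {a : H} (ha : a ∈ C.HJ J) {y : C0 W K} (hy : y ∈ C.YY K J Jd) :
    C.Lop K J a y ∈ C.YY K J Jd := by
  refine ce4_stab _ (fun j hj => ?_) hy
  rw [← ContinuousLinearMap.mul_apply, ← eJ_Lop hJ ha, ContinuousLinearMap.mul_apply,
    C.Lop_kap K hJ ha]
  exact ce4_gen (hI j hj a).1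

theorem YY_GG {g : Op W K} (hg : g ∈ C.GG K J) {y : C0 W K} (hy : y ∈ C.YY K J Jd) :
    g y ∈ C.YY K J Jd := by
  induction hg using Submodule.span_induction with
  | mem x hx =>
    obtain ⟨a, ha, rfl⟩ := hx
    exact ce4_e hJ (YY_Lop hJ hI ha hy)
  | zero => exact Submodule.zero_mem _
  | add x y _ _ hx hy => exact Submodule.add_mem _ hx hy
  | smul c x _ hx => exact Submodule.smul_mem _ c hx

/-- `{g ∈ G | g 1 ∈ Y}` is a two-sided ideal -/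
theorem bb_mul {b g : Op W K} (hb : b ∈ C.GG K J) (hg : g ∈ C.GG K J)
    (h : b (C.kap K J 1) ∈ C.YY K J Jd) :
    (g * b) (C.kap K J 1) ∈ C.YY K J Jd ∧ (b * g) (C.kap K J 1) ∈ C.YY K J Jd := by
  refine ⟨YY_GG hJ hI hg h, ?_⟩
  induction hg using Submodule.span_induction with
  | mem x hx =>
    obtain ⟨a, ha, rfl⟩ := hx
    have e1 : C.Lop K J a (C.kap K J 1) = C.Rop K J a (C.kap K J 1) := by
      rw [C.Lop_kap K hJ ha, Rop_kap, mul_one, one_mul]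
    rw [← mul_assoc, (GG_e hJ hb).2, ContinuousLinearMap.mul_apply, e1,
      ← ContinuousLinearMap.mul_apply, GG_Rop hJ hb, ContinuousLinearMap.mul_apply]
    exact YY_Rop hJ hI a h
  | zero => rw [mul_zero]; exact Submodule.zero_mem _
  | add x y _ _ hx hy => rw [mul_add]; exact Submodule.add_mem _ hx hy
  | smul c x _ hx => rw [mul_smul_comm]; exact Submodule.smul_mem _ c hx

omit hJ hI in
theorem ce4_mem_ker {g : Op W K} {f : W →₀ K} : f ∈ kerF K g ↔ g (C0.fs f) = 0 := Iff.rfl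

omit hJ hI in
theorem ce4_span (g : Op W K) (s : Set H) {y : C0 W K} :
    y ∈ Submodule.span K {y | ∃ j ∈ s, y = g (C.kap K J j)} ↔
      ∃ f ∈ Submodule.span K (C.kf K J '' s), g (C0.fs f) = y := by
  have e : {y | ∃ j ∈ s, y = g (C.kap K J j)} =
      ((g : C0 W K →ₗ[K] C0 W K) ∘ₗ C0.fs) '' (C.kf K J '' s) := by
    ext y
    constructor
    · rintro ⟨j, hj, rfl⟩
      exact ⟨_, ⟨j, hj, rfl⟩, congrArg g (C.fs_kf K J j)⟩
    · rintro ⟨_, ⟨j, hj, rfl⟩, rfl⟩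
      exact ⟨j, hj, congrArg g (C.fs_kf K J j)⟩
  rw [e, ← Submodule.map_span, Submodule.mem_map]
  rfl

omit hI in
theorem ce4_congr (ϱ : K →ₗ[Rq] K) {f f' : W →₀ K}
    (h : C.eJ K J (C0.fs f) = C.eJ K J (C0.fs f')) :
    C.eJ K J (C0.fs (f.mapRange ϱ ϱ.map_zero)) = C.eJ K J (C0.fs (f'.mapRange ϱ ϱ.map_zero)) := by
  have h1 : f - f' ∈ kerF K (C.eJ K J) := by
    rw [ce4_mem_ker, map_sub, map_sub, h, sub_self]
  have h2 := ce4_mem_ker.1 (rat_eJ hJ ϱ _ h1)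
  rw [Finsupp.mapRange_sub (map_sub ϱ), map_sub, map_sub] at h2
  exact sub_eq_zero.1 h2

/-- `rat_span`, `rat_eJ`, `Rat.sup` -/
theorem YY_rat (ϱ : K →ₗ[Rq] K) (f : W →₀ K) (h : C.eJ K J (C0.fs f) ∈ C.YY K J Jd) :
    C.eJ K J (C0.fs (f.mapRange ϱ ϱ.map_zero)) ∈ C.YY K J Jd := by
  obtain ⟨f', hf', e⟩ := (ce4_span (C.eJ K J) (Jd : Set H)).1 h
  exact (ce4_span (C.eJ K J) (Jd : Set H)).2
    ⟨_, rat_span J _ ϱ f' hf', ce4_congr hJ ϱ e⟩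

omit hJ hI in
theorem ce4_top_add {γ : Lat C.n} {g g0 g' g0' : Op W K} (h : C.Top K J γ g g0)
    (h' : C.Top K J γ g' g0') : C.Top K J γ (g + g') (g0 + g0') := by
  refine ⟨Submodule.add_mem _ h.1 h'.1, h.2.1.add h'.2.1, fun δ hδ => ?_⟩
  have e : g + g' - (g0 + g0') = (g - g0) + (g' - g0') := by abel
  rw [e, ContinuousLinearMap.add_apply, map_add, h.2.2 δ hδ, h'.2.2 δ hδ, add_zero]

omit hJ hI in
theorem ce4_top_smul {γ : Lat C.n} {g g0 : Op W K} (c : K) (h : C.Top K J γ g g0) :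
    C.Top K J γ (c • g) (c • g0) := by
  refine ⟨Submodule.smul_mem _ c h.1, h.2.1.smul c, fun δ hδ => ?_⟩
  rw [← smul_sub, ContinuousLinearMap.smul_apply, map_smul, h.2.2 δ hδ, smul_zero]

omit hI in
theorem ce4_top_unique {γ : Lat C.n} {g g0 g0' : Op W K} (h : C.Top K J γ g g0)
    (h' : C.Top K J γ g g0') : g0 = g0' := by
  have h1 := ce4_top_add h (ce4_top_smul (-1) h')
  rw [neg_one_smul, neg_one_smul, add_neg_cancel] at h1
  exact add_neg_eq_zero.1 (h1.eq_zero hJ)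

omit hI in
theorem ce4_eT (x : Lat C.n) : C.eJ K J * C.Tht K J x ∈ C.GG K J ∧
    C.Homog K J (C.deg J x) (C.eJ K J * C.Tht K J x) := by
  refine ⟨mem_GG (C.th_mem_HJ J x), ?_⟩
  have := (homog_eJ (K := K) hJ).mul (homog_Tht hJ x)
  rwa [zero_add] at this

variable (C K J Jd) in
omit hJ hI in
/-- the top terms of degree `0` -/
def ce4N : Set (Op W K) :=
  {g0 | ∃ b ∈ C.GG K J, b (C.kap K J 1) ∈ C.YY K J Jd ∧ C.Top K J 0 b g0}

omit hI in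
theorem ce4_sub : ∃ N : Submodule K (Op W K), ∀ l, l ∈ N ↔ l ∈ C.ce4N K J Jd := by
  refine ⟨⟨⟨⟨C.ce4N K J Jd, ?_⟩, ?_⟩, ?_⟩, fun _ => Iff.rfl⟩
  · rintro l l' ⟨b, h1, h2, h3⟩ ⟨b', h1', h2', h3'⟩
    exact ⟨b + b', Submodule.add_mem _ h1 h1', Submodule.add_mem _ h2 h2', ce4_top_add h3 h3'⟩
  · exact ⟨0, Submodule.zero_mem _, Submodule.zero_mem _,
      Top.self hJ (Submodule.zero_mem _) fun δ => by rw [mul_zero, zero_mul]⟩
  · rintro c l ⟨b, h1, h2, h3⟩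
    exact ⟨c • b, Submodule.smul_mem _ c h1, Submodule.smul_mem _ c h2, ce4_top_smul c h3⟩

theorem ce4_ideal {l g : Op W K} (hl : l ∈ C.ce4N K J Jd) (hg : g ∈ C.GG K J)
    (h0 : C.Homog K J 0 g) : g * l ∈ C.ce4N K J Jd ∧ l * g ∈ C.ce4N K J Jd := by
  obtain ⟨b, h1, h2, h3⟩ := hl
  have h4 := Top.mul hJ hg h1 (Top.self hJ hg h0) h3
  have h5 := Top.mul hJ h1 hg h3 (Top.self hJ hg h0)
  rw [add_zero] at h4 h5
  exact ⟨⟨_, GG_mul hJ hg h1, (bb_mul hJ hI h1 hg h2).1, h4⟩,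
    ⟨_, GG_mul hJ h1 hg, (bb_mul hJ hI h1 hg h2).2, h5⟩⟩

theorem ce4_conj {l : Op W K} (hl : l ∈ C.ce4N K J Jd) (x : Lat C.n) :
    C.Tht K J x * l * C.Tht K J (-x) ∈ C.ce4N K J Jd := by
  obtain ⟨b, h1, h2, h3⟩ := hl
  obtain ⟨g1, g2⟩ := ce4_eT (K := K) hJ x
  obtain ⟨g3, g4⟩ := ce4_eT (K := K) hJ (-x)
  have h4 := Top.mul hJ (GG_mul hJ g1 h1) g3 (Top.mul hJ g1 h1 (Top.self hJ g1 g2) h3)
    (Top.self hJ g3 g4)
  have e1 : C.deg J x + 0 + C.deg J (-x) = 0 := by rw [map_neg, add_zero, add_neg_cancel]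
  have e2 : C.eJ K J * C.Tht K J x * l * (C.eJ K J * C.Tht K J (-x)) =
      C.Tht K J x * l * C.Tht K J (-x) := by
    have e3 : C.eJ K J * C.Tht K J x = C.Tht K J x * C.eJ K J := eJ_Lop hJ (C.th_mem_HJ J x)
    rw [e3, mul_assoc (C.Tht K J x) _ l, (GG_e hJ h3.1).1, mul_assoc, ← mul_assoc l,
      (GG_e hJ h3.1).2, ← mul_assoc]
  rw [e1, e2] at h4
  exact ⟨_, GG_mul hJ (GG_mul hJ g1 h1) g3,
    (bb_mul hJ hI (GG_mul hJ g1 h1) g3 (bb_mul hJ hI h1 g1 h2).1).2, h4⟩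

theorem ce4_rat (ϱ : K →ₗ[Rq] K) (f : W →₀ K) {l : Op W K} (hl : l ∈ C.ce4N K J Jd)
    (hf : l (C.kap K J 1) = C.eJ K J (C0.fs f)) : ∃ l' ∈ C.ce4N K J Jd,
      l' (C.kap K J 1) = C.eJ K J (C0.fs (f.mapRange ϱ ϱ.map_zero)) := by
  obtain ⟨b, h1, h2, h3⟩ := hl
  obtain ⟨fb, hfb, e1⟩ := (ce4_span (C.eJ K J) (C.HJ J : Set H)).1
    ((mem_GG_one hJ).1 ⟨b, h1, rfl⟩)
  obtain ⟨b', h1', e2⟩ := (mem_GG_one hJ).2 ((ce4_span (C.eJ K J) (C.HJ J : Set H)).2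
    ⟨_, rat_span J _ ϱ fb hfb, rfl⟩)
  have h2' : b' (C.kap K J 1) ∈ C.YY K J Jd := by
    rw [e2]
    exact YY_rat hJ hI ϱ fb (e1 ▸ h2)
  have key : ∀ δ, toLex 0 ≤ toLex δ → ∀ f' : W →₀ K,
      C.PD K J δ (l (C.kap K J 1)) = C.eJ K J (C0.fs f') →
      C.PD K J δ (b' (C.kap K J 1)) = C.eJ K J (C0.fs (f'.mapRange ϱ ϱ.map_zero)) := by
    intro δ hδ f' hf'
    obtain ⟨P, hP1, hP2⟩ := exists_fs (C.pd J δ) (C.PD_kap K (J := J) δ)
    have e3 : ∀ g, C.PD K J δ (C.eJ K J (C0.fs g)) = C.eJ K J (C0.fs (P g)) := by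
      intro g
      rw [← ContinuousLinearMap.mul_apply, ← eJ_PD hJ subset_rfl hJ,
        ContinuousLinearMap.mul_apply, hP1]
    rw [e2, e3, hP2]
    apply ce4_congr hJ
    have e4 := h3.2.2 δ hδ
    rw [ContinuousLinearMap.sub_apply, map_sub, sub_eq_zero] at e4
    rw [← e3, e1, e4, hf']
  obtain ⟨c, -, hc⟩ := GG_dec hJ h1'
  obtain ⟨c1, c2, c3⟩ := hc 0
  refine ⟨c 0, ⟨b', h1', h2', c1, c2, fun δ hδ => ?_⟩, ?_⟩
  · rw [ContinuousLinearMap.sub_apply, map_sub, c3, ← ContinuousLinearMap.mul_apply _ (C.PD K J 0),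
      PD_mul]
    by_cases h : δ = 0
    · rw [if_pos h, sub_self]
    · rw [if_neg h, ContinuousLinearMap.zero_apply, sub_zero, key δ hδ 0, Finsupp.mapRange_zero,
        map_zero, map_zero]
      rw [← h3.2.1.one hJ, ← ContinuousLinearMap.mul_apply, PD_mul, if_neg h, map_zero, map_zero,
        ContinuousLinearMap.zero_apply]
  · rw [c3]
    exact key 0 le_rfl f ((h3.2.1.one hJ).trans hf)

/-- `exists_unit`, `rat_unit`, `sat` for `N = {g₀ | ∃ b ∈ G, b 1 ∈ Y ∧ Top J 0 b g₀}` -/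
theorem exists_lt : ∃ ε, C.IsE K J ε ∧
    (∃ d : Lat C.n →₀ K, d ≠ 0 ∧ (∀ x ∈ d.support, C.Fix J x) ∧
      C.dop K J d (ε (C.kap K J 1)) ∈ C.YY K J Jd) ∧
    (∃ r : Rq, r ≠ 0 ∧ ∃ a ∈ C.HJ J, algebraMap Rq K r • ε = C.eJ K J * C.Lop K J a) ∧
    ∀ b ∈ C.GG K J, b (C.kap K J 1) ∈ C.YY K J Jd → ε * b = b := by
  obtain ⟨N, hN⟩ := ce4_sub (K := K) (Jd := Jd) hJ
  have h1 : ∀ l ∈ N, l ∈ C.GG K J ∧ C.Homog K J 0 l := by
    intro l hl
    obtain ⟨b, -, -, h⟩ := (hN l).1 hl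
    exact ⟨h.1, h.2.1⟩
  obtain ⟨ε, hεN, hε, hu⟩ := exists_unit hJ N h1
    (fun l hl g hg h0 => by
      simp only [hN] at hl ⊢
      exact ce4_ideal hJ hI hl hg h0)
    (fun l hl x => (hN _).2 (ce4_conj hJ hI ((hN l).1 hl) x))
  have hεT : C.Top K J 0 ε ε := Top.self hJ hε.mem (h1 ε hεN).2
  refine ⟨ε, hε, ?_, ?_, fun b hb hbY => ?_⟩
  · obtain ⟨b, b1, b2, b3⟩ := (hN ε).1 hεN
    obtain ⟨d, d1, d2, g, hg, e⟩ := sat hJ hε b1 (by
      intro g hg e1 e2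
      by_contra hne
      obtain ⟨γ, g0, h0, hT⟩ := exists_top hJ hg hne
      have t1 := Top.mul hJ b1 hg b3 hT
      have t2 := Top.mul hJ hε.mem hg hεT hT
      rw [e2] at t1
      rw [e1, zero_add, t1.eq_zero hJ] at t2
      exact h0 (ce4_top_unique hJ hT t2))
    refine ⟨d, d1, d2, ?_⟩
    rw [← ContinuousLinearMap.mul_apply, e]
    exact (bb_mul hJ hI b1 hg b2).2
  · refine rat_unit hJ N (fun l hl => (h1 l hl).1) hε hεN hu ?_
    rintro ϱ f ⟨l, hl, e⟩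
    obtain ⟨l', hl', e'⟩ := ce4_rat hJ hI ϱ f ((hN l).1 hl) e
    exact ⟨l', (hN l').2 hl', e'⟩
  · by_contra hne
    have hg : b - ε * b ∈ C.GG K J := Submodule.sub_mem _ hb (GG_mul hJ hε.mem hb)
    have hgY : (b - ε * b) (C.kap K J 1) ∈ C.YY K J Jd :=
      Submodule.sub_mem _ hbY (bb_mul hJ hI hb hε.mem hbY).1
    obtain ⟨γ, g0, h0, hT⟩ := exists_top hJ hg fun h => hne (sub_eq_zero.1 h).symm
    have t1 := Top.mul hJ hε.mem hg hεT hT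
    rw [mul_sub, ← mul_assoc, hε.idem, sub_self] at t1
    have e1 : ε * g0 = 0 := t1.eq_zero hJ
    obtain ⟨x, rfl⟩ := exists_deg hJ hT.1 hT.2.1 h0
    obtain ⟨g3, g4⟩ := ce4_eT (K := K) hJ (-x)
    have t2 := Top.mul hJ hg g3 hT (Top.self hJ g3 g4)
    rw [map_neg, add_neg_cancel] at t2
    have e2 := hu _ ((hN _).2 ⟨_, GG_mul hJ hg g3, (bb_mul hJ hI hg g3 hgY).2, t2⟩)
    rw [← mul_assoc, e1, zero_mul, ← mul_assoc, (GG_e hJ hT.1).2] at e2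
    apply h0
    rw [← mul_one g0, ← C.Tht_zero K hJ, ← neg_add_cancel x, C.Tht_add K hJ, ← mul_assoc, ← e2,
      zero_mul]

end HC

end Pool.Agent.P.MP_74db7f_al
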