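import Pool.Agent.P.MP_74db7f_al.F.Ce4

/-! Ce5: the idempotent attached to a two-sided ideal (paper, section 8). -/

namespace Pool.Agent.P.MP_74db7f_al

open scoped Classical Topology
open Filter

namespace HC

variable {B W H : Type*} [Group W] {M : CoxeterMatrix B} {cs : CoxeterSystem M W} [Ring H]
  [Algebra Rq H] (C : HC cs H) (K : Type*) [NontriviallyNormedField K] [CompleteSpace K]
  [IsUltrametricDist K] [Algebra Rq K] [GoodK K]

/-- `h ↦ h θ_z - θ_{vz} h` with `z = z J` -/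
noncomputable def piH (J : Finset B) (v : W) : Module.End Rq H :=
  LinearMap.mulRight Rq (C.th (C.z J)) - LinearMap.mulLeft Rq (C.th (C.gr v (C.z J)))

variable {C K} {J : Finset B} (hJ : J ⊆ C.S0)
include hJ

omit hJ in
theorem ce5_piH_apply (v : W) (h : H) :
    C.piH J v h = h * C.th (C.z J) - C.th (C.gr v (C.z J)) * h := by
  simp [piH]

omit hJ in
theorem ce5_comm (v v' : W) : Commute (C.piH J v) (C.piH J v') := by
  refine LinearMap.ext fun h => ?_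
  have e := (C.th_comm (C.gr v (C.z J)) (C.gr v' (C.z J))).eq
  simp only [Module.End.mul_apply, ce5_piH_apply, mul_sub, sub_mul, ← mul_assoc, e]
  abel

omit hJ in
theorem ce5_stab (k : ℕ) (v : W) {h : H} (hh : h ∈ C.Fil k ⊔ Subalgebra.toSubmodule (C.HJ J)) :
    C.piH J v h ∈ C.Fil k ⊔ Subalgebra.toSubmodule (C.HJ J) := by
  obtain ⟨m, hm, a, ha, rfl⟩ := Submodule.mem_sup.1 hh
  rw [map_add]
  refine Submodule.add_mem_sup ?_ ?_
  · rw [ce5_piH_apply, ← C.Th_mon, ← C.Th_mon]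
    exact sub_mem (C.Fil_mul_Th hm _) (C.Th_mul_Fil _ hm)
  · rw [ce5_piH_apply]
    exact sub_mem (mul_mem (s := C.HJ J) ha (C.th_mem_HJ J _))
      (mul_mem (s := C.HJ J) (C.th_mem_HJ J _) ha)

omit hJ in
theorem ce5_stab_list (k : ℕ) (l : List W) {h : H}
    (hh : h ∈ C.Fil k ⊔ Subalgebra.toSubmodule (C.HJ J)) :
    (l.map (C.piH J)).prod h ∈ C.Fil k ⊔ Subalgebra.toSubmodule (C.HJ J) := by
  induction l with
  | nil => simpa using hh
  | cons a l ih =>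
    rw [List.map_cons, List.prod_cons, Module.End.mul_apply]
    exact ce5_stab k a ih

omit hJ in
theorem ce5_hit (k : ℕ) (l : List W) {v : W} (hv : v ∈ l) {h : H}
    (hh : C.piH J v h ∈ C.Fil k ⊔ Subalgebra.toSubmodule (C.HJ J)) :
    (l.map (C.piH J)).prod h ∈ C.Fil k ⊔ Subalgebra.toSubmodule (C.HJ J) := by
  induction l with
  | nil => simp at hv
  | cons a l ih =>
    rw [List.map_cons, List.prod_cons]
    rcases List.mem_cons.1 hv with rfl | hv
    · have e : Commute (C.piH J v) (l.map (C.piH J)).prod :=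
        Commute.list_prod_right _ _ fun x hx => by
          obtain ⟨v', _, rfl⟩ := List.mem_map.1 hx
          exact ce5_comm v v'
      rw [e.eq, Module.End.mul_apply]
      exact ce5_stab_list k l hh
    · rw [Module.End.mul_apply]
      exact ce5_stab k a (ih hv)

theorem ce5_down (k : ℕ) {h : H} (hh : h ∈ C.Fil (k + 1) ⊔ Subalgebra.toSubmodule (C.HJ J)) :
    (((C.WF C.S0).filter fun v => v ∉ C.WJ J).toList.map (C.piH J)).prod h ∈
      C.Fil k ⊔ Subalgebra.toSubmodule (C.HJ J) := by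
  obtain ⟨m, hm, a, ha, rfl⟩ := Submodule.mem_sup.1 hh
  rw [map_add]
  refine add_mem ?_ (ce5_stab_list k _ (Submodule.mem_sup_right ha))
  clear hh
  induction hm using Submodule.span_induction with
  | mem t ht =>
    obtain ⟨x, v, hv, hl, rfl⟩ := ht
    by_cases hvJ : v ∈ C.WJ J
    · exact ce5_stab_list k _ (Submodule.mem_sup_right
        (mul_mem (s := C.HJ J) (C.th_mem_HJ J x) (C.TJ_empty_mem_HJ hJ hvJ)))
    · refine ce5_hit k _ (v := v) (Finset.mem_toList.2 (Finset.mem_filter.2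
        ⟨(C.mem_WF subset_rfl).2 hv, hvJ⟩)) (Submodule.mem_sup_left ?_)
      have h1 := C.Th_mul_Fil (mon x) (C.Fil_mono (Nat.lt_succ_iff.1 hl)
        (C.tv_mul_Th hv (mon (C.z J))))
      rw [C.act_mon, C.Th_mon, C.Th_mon, C.Th_mon] at h1
      have e := (C.th_comm x (C.gr v (C.z J))).eq
      rw [ce5_piH_apply, ← mul_assoc, ← e, mul_assoc, mul_assoc, ← mul_sub]
      exact h1
  | zero => rw [map_zero]; exact zero_mem _
  | add x y _ _ hx hy => rw [map_add]; exact add_mem hx hy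
  | smul r x _ hx => rw [map_smul]; exact Submodule.smul_mem _ r hx

theorem ce5_iter (k : ℕ) : ∃ l : List W, (∀ v ∈ l, v ∈ C.W0 ∧ v ∉ C.WJ J) ∧
    ∀ h ∈ C.Fil k ⊔ Subalgebra.toSubmodule (C.HJ J), (l.map (C.piH J)).prod h ∈ C.HJ J := by
  induction k with
  | zero =>
    refine ⟨[], by simp, fun h hh => ?_⟩
    rw [C.Fil_zero, bot_sup_eq] at hh
    simpa using hh
  | succ k ih =>
    obtain ⟨l, h1, h2⟩ := ih
    refine ⟨l ++ ((C.WF C.S0).filter fun v => v ∉ C.WJ J).toList, fun v hv => ?_, fun h hh => ?_⟩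
    · rcases List.mem_append.1 hv with hv | hv
      · exact h1 v hv
      · have := Finset.mem_filter.1 (Finset.mem_toList.1 hv)
        exact ⟨(C.mem_WF subset_rfl).1 this.1, this.2⟩
    · rw [List.map_append, List.prod_append, Module.End.mul_apply]
      exact h2 _ (ce5_down hJ k hh)

/-- the `piH J v` commute; their product over `v ∈ W₀ - W_J` maps `Fil (k+1) + H^J` into
`Fil k + H^J` (`tv_mul_Th`, `mem_HJ_iff_right`, `exists_Fil_top`) -/
theorem exists_piH : ∃ l : List W, (∀ v ∈ l, v ∈ C.W0 ∧ v ∉ C.WJ J) ∧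
    ∀ h, (l.map (C.piH J)).prod h ∈ C.HJ J := by
  obtain ⟨k, hk⟩ := C.exists_Fil_top
  obtain ⟨l, h1, h2⟩ := ce5_iter (C := C) hJ k
  exact ⟨l, h1, fun h => h2 h (Submodule.mem_sup_left (hk ▸ Submodule.mem_top))⟩

theorem deg_ne {v : W} (hv : v ∈ C.W0) (hv' : v ∉ C.WJ J) :
    C.deg J (C.z J) ≠ C.deg J (C.gr v (C.z J)) := by
  intro h
  refine hv' (C.stab_z hJ hv (C.gr_eq_of_deg hJ (C.fix_z hJ) v ?_))
  rw [map_sub, h, sub_self]

theorem ce5_Rz {g : Op W K} (hg : g ∈ C.GG K J) :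
    C.Rop K J (C.th (C.z J)) (g (C.kap K J 1)) = (C.Tht K J (C.z J) * g) (C.kap K J 1) := by
  have e1 : C.Tht K J (C.z J) * g = g * C.Tht K J (C.z J) := by
    have := (GG_dop hJ hg (d := Finsupp.single (C.z J) 1) fun x hx => by
      rw [Finset.mem_singleton.1 (Finsupp.support_single_subset hx)]
      exact C.fix_z hJ).2
    rwa [dop, Finsupp.sum_single_index (by simp), one_smul] at this
  have e2 := DFunLike.congr_fun (GG_Rop hJ hg (C.th (C.z J))) (C.kap K J 1)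
  simp only [mul_apply_eq_comp] at e2
  rw [e1, ← e2, mul_apply_eq_comp, Tht, C.Lop_kap K hJ (C.th_mem_HJ J _), C.Rop_kap,
    one_mul, mul_one]

theorem ce5_ops (l : List W) (hl : ∀ v ∈ l, v ∈ C.W0 ∧ v ∉ C.WJ J) :
    ∃ P P' F : Op W K, C0.IsAdj P P' ∧
      (∀ N : Submodule K (C0 W K), (∀ h, ∀ y ∈ N, C.Rop K J h y ∈ N) →
        (∀ a ∈ C.HJ J, ∀ y ∈ N, C.Lop K J a y ∈ N) → ∀ y ∈ N, P y ∈ N ∧ P' y ∈ N) ∧
      P * C.eJ K J = C.eJ K J * P ∧
      (∀ h, P (C.kap K J h) = C.kap K J ((l.map (C.piH J)).prod h)) ∧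
      ∀ g ∈ C.GG K J, F * g ∈ C.GG K J ∧ P (g (C.kap K J 1)) = (F * g) (C.kap K J 1) ∧
        (F * g = 0 → g = 0) := by
  induction l with
  | nil =>
    exact ⟨1, 1, 1, C0.isAdj_one, fun N _ _ y hy => ⟨hy, hy⟩, by rw [one_mul, mul_one],
      fun h => by simp, fun g hg => by simpa using hg⟩
  | cons v l ih =>
    obtain ⟨P, P', F, h1, h2, h3, h4, h5⟩ := ih fun u hu => hl u (List.mem_cons_of_mem _ hu)
    obtain ⟨hv, hv'⟩ := hl v List.mem_cons_self
    have hm := C.th_mem_HJ J (C.gr v (C.z J))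
    refine ⟨(C.Rop K J (C.th (C.z J)) - C.Tht K J (C.gr v (C.z J))) * P,
      P' * (C.Rop K J (C.flat (C.th (C.z J))) - C.Lop K J (C.adj J (C.th (C.gr v (C.z J))))),
      (C.Tht K J (C.z J) - C.Tht K J (C.gr v (C.z J))) * F,
      ((C.Rop_adj K J _).sub (C.Lop_adj K hJ hm)).mul h1, fun N hR hL y hy => ⟨?_, ?_⟩, ?_,
      fun h => ?_, fun g hg => ⟨?_, ?_, fun h0 => ?_⟩⟩
    · have := (h2 N hR hL y hy).1
      exact sub_mem (hR _ _ this) (hL _ hm _ this)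
    · exact (h2 N hR hL _ (sub_mem (hR _ _ hy) (hL _ (C.adj_mem hJ _) _ hy))).2
    · rw [mul_assoc, h3, ← mul_assoc, ← mul_assoc, sub_mul, mul_sub, eJ_Rop hJ, Tht, eJ_Lop hJ hm]
    · rw [mul_apply_eq_comp, h4, List.map_cons, List.prod_cons, Module.End.mul_apply,
        ce5_piH_apply, map_sub, sub_apply, C.Rop_kap, Tht, C.Lop_kap K hJ hm]
    · rw [mul_assoc, sub_mul]
      exact sub_mem (GG_Lop hJ (h5 g hg).1 (C.th_mem_HJ J _)).1 (GG_Lop hJ (h5 g hg).1 hm).1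
    · rw [mul_apply_eq_comp, (h5 g hg).2.1, sub_apply,
        ce5_Rz hJ (h5 g hg).1, mul_assoc, sub_mul]
      rfl
    · rw [mul_assoc] at h0
      exact (h5 g hg).2.2 (Tht_sub_inj hJ (deg_ne hJ hv hv') (h5 g hg).1 h0)

/-- the operator `Π` on `V`, its adjoint, and its action on `G 1` (`sat` for `ε = e`,
`Tht_sub_inj`) -/
theorem exists_Pi : ∃ P P' : Op W K, C0.IsAdj P P' ∧
    (∀ N : Submodule K (C0 W K), (∀ h, ∀ y ∈ N, C.Rop K J h y ∈ N) →
      (∀ a ∈ C.HJ J, ∀ y ∈ N, C.Lop K J a y ∈ N) → ∀ y ∈ N, P y ∈ N ∧ P' y ∈ N) ∧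
    (∀ h, ∃ g ∈ C.GG K J, P (C.eJ K J (C.kap K J h)) = g (C.kap K J 1)) ∧
    ∃ d : Lat C.n →₀ K, d ≠ 0 ∧ (∀ x ∈ d.support, C.Fix J x) ∧
      ∃ ξ, P ξ = C.dop K J d (C.eJ K J (C.kap K J 1)) := by
  obtain ⟨l, hl, hl'⟩ := exists_piH (C := C) hJ
  obtain ⟨P, P', F, h1, h2, h3, h4, h5⟩ := ce5_ops (K := K) hJ l hl
  have he := eJ_mem_GG (C := C) (K := K) hJ
  refine ⟨P, P', h1, h2, fun h => ⟨_, mem_GG (hl' h), ?_⟩, ?_⟩
  · have := DFunLike.congr_fun h3 (C.kap K J h)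
    simp only [mul_apply_eq_comp] at this
    rw [this, h4, mul_apply_eq_comp, C.Lop_kap K hJ (hl' h), mul_one]
  · obtain ⟨d, hd, hf, g, hg, e⟩ := sat hJ (isE_eJ hJ) (h5 _ he).1 fun g hg e h0 => by
      rw [mul_assoc, e] at h0
      exact (h5 g hg).2.2 h0
    refine ⟨d, hd, hf, g (C.kap K J 1), ?_⟩
    rw [mul_assoc, (GG_e hJ hg).1] at e
    rw [(h5 g hg).2.1, ← e, mul_apply_eq_comp]

/-- for `y ∈ Y' = (e - ε) Y`: `P P' y ∈ Y' ∩ G 1` vanishes, so `P' y = 0`, `d^* y ⊥ 1` -/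
theorem exists_epsOf {Jd : Submodule Rq H} (hI : IsId Jd) : ∃ ε, C.EpsOf K J Jd ε := by
  obtain ⟨ε, hε, hsat, hrat, hb⟩ := exists_lt (C := C) (K := K) hJ hI
  obtain ⟨P, P', hP, hN, hG, d, hd, hf, ξ, hξ⟩ := exists_Pi (C := C) (K := K) hJ
  have he := eJ_mem_GG (C := C) (K := K) hJ
  have hm : C.eJ K J - ε ∈ C.GG K J := sub_mem he hε.mem
  set N : Submodule K (C0 W K) :=
    (C.YY K J Jd).map ((C.eJ K J - ε : Op W K) : C0 W K →ₗ[K] C0 W K) with hNd
  have hmem : ∀ y, y ∈ N ↔ ∃ y0 ∈ C.YY K J Jd, (C.eJ K J - ε) y0 = y := fun y => Submodule.mem_map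
  have hR : ∀ h, ∀ y ∈ N, C.Rop K J h y ∈ N := by
    intro h y hy
    obtain ⟨y0, h0, rfl⟩ := (hmem y).1 hy
    exact (hmem _).2 ⟨_, YY_Rop hJ hI h h0, DFunLike.congr_fun (GG_Rop hJ hm h) y0⟩
  have hL : ∀ a ∈ C.HJ J, ∀ y ∈ N, C.Lop K J a y ∈ N := by
    intro a ha y hy
    obtain ⟨y0, h0, rfl⟩ := (hmem y).1 hy
    refine (hmem _).2 ⟨_, YY_Lop hJ hI ha h0, ?_⟩
    have : (C.eJ K J - ε) * C.Lop K J a = C.Lop K J a * (C.eJ K J - ε) := by
      rw [sub_mul, mul_sub, eJ_Lop hJ ha, hε.commL a ha]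
    exact DFunLike.congr_fun this y0
  have hY : ∀ y ∈ N, y ∈ C.YY K J Jd := by
    intro y hy
    obtain ⟨y0, h0, rfl⟩ := (hmem y).1 hy
    exact YY_GG hJ hI hm h0
  have hε0 : ∀ y ∈ N, ε y = 0 := by
    intro y hy
    obtain ⟨y0, _, rfl⟩ := (hmem y).1 hy
    have : ε * (C.eJ K J - ε) = 0 := by rw [mul_sub, (GG_e hJ hε.mem).2, hε.idem, sub_self]
    exact DFunLike.congr_fun this y0
  have he0 : ∀ y ∈ N, C.eJ K J y = y := by
    intro y hy
    obtain ⟨y0, _, rfl⟩ := (hmem y).1 hy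
    exact DFunLike.congr_fun (GG_e hJ hm).1 y0
  have hPY : ∀ y ∈ C.YY K J Jd, ∃ g ∈ C.GG K J, P y = g (C.kap K J 1) := by
    intro y hy
    induction hy using Submodule.span_induction with
    | mem y hy =>
      obtain ⟨j, _, rfl⟩ := hy
      exact hG j
    | zero => exact ⟨0, zero_mem _, by simp⟩
    | add x y _ _ hx hy =>
      obtain ⟨g, hg, e⟩ := hx
      obtain ⟨g', hg', e'⟩ := hy
      exact ⟨g + g', add_mem hg hg', by rw [map_add, e, e', add_apply]⟩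
    | smul c x _ hx =>
      obtain ⟨g, hg, e⟩ := hx
      exact ⟨c • g, Submodule.smul_mem _ c hg, by
        rw [map_smul, e, smul_apply]⟩
  have hP' : ∀ y ∈ N, P' y = 0 := by
    intro y hy
    have h1 := (hN N hR hL y hy).2
    have h2 := (hN N hR hL _ h1).1
    obtain ⟨g, hg, e⟩ := hPY _ (hY _ h1)
    have h3 := DFunLike.congr_fun (hb g hg (e ▸ hY _ h2)) (C.kap K J 1)
    rw [mul_apply_eq_comp, ← e, hε0 _ h2] at h3
    refine C0.eq_zero_of_ip_self ?_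
    rw [← hP, ← h3, map_zero, zero_apply]
  have hg0 := GG_dop hJ he hf
  have hN0 : ∀ y ∈ N, y = 0 := by
    intro y hy
    have h1 : C.dop K J (d.mapDomain fun x => -x) y = 0 := by
      refine C0.ext fun w => ?_
      have h2 := hP ξ (C.Rop K J (C.flat (C.TJ J w)) y)
      have h3 := DFunLike.congr_fun (GG_Rop hJ hg0.1 (C.TJ J w)) (C.kap K J 1)
      have h4 := DFunLike.congr_fun hg0.2 (C.kap K J (C.TJ J w))
      simp only [mul_apply_eq_comp] at h3 h4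
      rw [hP' _ (hR _ y hy), map_zero, hξ, ← C.Rop_adj K J, ← h3, C.Rop_kap, one_mul, h4,
        eJ_adj hJ, he0 y hy, C.dop_adj K hJ hf, C.kap_TJ, C0.ip_sg] at h2
      exact h2
    obtain ⟨c, hc, h2⟩ := C.norm_dop K hJ (d := d.mapDomain fun x => -x)
      (fun h0 => hd (Finsupp.mapDomain_injective neg_injective
        (h0.trans Finsupp.mapDomain_zero.symm)))
      fun x hx => by
        obtain ⟨x', hx', rfl⟩ := Finset.mem_image.1 (Finsupp.mapDomain_support hx)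
        intro j hj
        rw [map_neg, hf x' hx' j hj, neg_zero]
    have h3 := h2 y
    rw [h1, norm_zero] at h3
    exact norm_eq_zero.1 ((mul_eq_zero.1 h3.symm).resolve_left (norm_ne_zero_iff.2 hc))
  refine ⟨ε, hε, fun j hj => ?_, hsat, hrat⟩
  have h1 := hN0 _ ((hmem _).2 ⟨C.eJ K J (C.kap K J j), Submodule.subset_span ⟨j, hj, rfl⟩, rfl⟩)
  rw [← (GG_e hJ hm).2, mul_apply_eq_comp]
  exact h1

end HC

end Pool.Agent.P.MP_74db7f_al
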