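import Pool.Agent.P.MP_74db7f_al.F.Cp2

/-! Cp3: completeness (paper, section 7). -/

namespace Pool.Agent.P.MP_74db7f_al

open scoped Classical Topology
open Filter

namespace HC

variable {B W H : Type*} [Group W] {M : CoxeterMatrix B} {cs : CoxeterSystem M W} [Ring H]
  [Algebra Rq H] (C : HC cs H) (K : Type*) [NontriviallyNormedField K] [CompleteSpace K]
  [IsUltrametricDist K] [Algebra Rq K] [GoodK K]

variable {C K} {I : Finset B}

theorem cp3_ip_norm (y : C0 W K) : ‖(C0.ip y : C0 W K →L[K] K)‖ ≤ ‖y‖ :=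
  ContinuousLinearMap.opNorm_le_bound _ (norm_nonneg y) fun f => C0.norm_ip_le y f

theorem cp3_inv_lt : ‖qK K‖⁻¹ < 1 := inv_lt_one_of_one_lt₀ GoodK.one_lt

theorem cp3_norm_vec (hI : I ⊆ C.S0) {J : Finset B} (hJI : J ⊆ I) {u : W} (hu : u ∈ C.Mn I J)
    (ξ : C0 W K) : ‖C.Lop K I (C.Tb u) (C.io K I J (C.eJ K J ξ))‖ ≤ ‖ξ‖ := by
  have h1 : ‖C.eJ K J ξ‖ ≤ ‖ξ‖ :=
    ((C.eJ K J).le_of_opNorm_le (norm_eJ (hJI.trans hI)) ξ).trans (one_mul _).le
  have h2 := (C.Lop K I (C.Tb u) * C.io K I J).le_of_opNorm_le (norm_io hJI hI hu)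
    (C.eJ K J ξ)
  rw [one_mul] at h2
  exact h2.trans h1

theorem cp3_PD_vec (hI : I ⊆ C.S0) {J : Finset B} (hJI : J ⊆ I) {u : W} (hu : u ∈ C.WJ I)
    (δ : Lat C.n) (ξ : C0 W K) :
    C.PD K I δ (C.Lop K I (C.Tb u) (C.io K I J (C.eJ K J ξ))) =
      C.Lop K I (C.Tb u) (C.io K I J (C.eJ K J (C.PD K I δ ξ))) := by
  have h1 := fun v => congrArg (fun F : Op W K => F v) (C.PD_Lop_Tb K hI δ hu)
  have h2 := fun v => congrArg (fun F : Op W K => F v) (io_PD (K := K) hJI hI δ)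
  have h3 := fun v => congrArg (fun F : Op W K => F v) (eJ_PD (K := K) (hJI.trans hI) hJI hI δ)
  simp only [mul_apply_eq_comp] at h1 h2 h3
  rw [h1, h2, ← h3]

theorem cp3_max_lt {a b : K} (ha : ‖a‖ < 1) (hb : ‖b‖ < 1) : ‖a - b‖ < 1 := by
  rw [sub_eq_add_neg]
  refine (IsUltrametricDist.norm_add_le_max _ _).trans_lt (max_lt ha ?_)
  rwa [norm_neg]

/-- on the degree of `g`, `φ` is `⟨y, ·⟩` modulo small functionals, with `y` finitely supported
(`deep_small`, `finite_lam_deg`, `PD_Lop_Tb`, `io_PD`, `eJ_PD`, `le_inv_of_lt_one`) -/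
theorem cmpl_step [Finite B] (hI : I ⊆ C.S0) (ih : ∀ J ⊂ I, C.Cmpl K J) : C.Cmpl K I := by
  intro φ hφ hs g
  obtain ⟨N, hN⟩ := deep_small hI ih
  have hdeep := hN φ hφ fun J hJ => hs J hJ.subset
  by_cases hg : N ≤ C.lam I g
  · exact hdeep g hg
  set δ := C.degW I g with hδ
  have hfin := C.finite_lam_deg hI N δ
  let f : W →₀ K := Finsupp.onFinset hfin.toFinset
    (fun w => if C.lam I w < N ∧ C.degW I w = δ then φ (C0.sg w) else 0) fun w hw => by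
      rw [Set.Finite.mem_toFinset]
      by_contra hc
      exact hw (if_neg hc)
  let y : C0 W K := C0.fs f
  have hy : ∀ w, y.co w = if C.lam I w < N ∧ C.degW I w = δ then φ (C0.sg w) else 0 :=
    fun w => C0.co_fs f w
  have hφ1 : ∀ w, ‖φ (C0.sg w)‖ ≤ 1 := fun w => by
    have := φ.le_of_opNorm_le hφ (C0.sg w)
    rwa [C0.norm_sg, one_mul] at this
  have hy1 : ‖y‖ ≤ 1 := C0.norm_le zero_le_one fun w => by
    rw [hy]
    split_ifs
    · exact hφ1 w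
    · simp
  let ψ : C0 W K →L[K] K := φ.comp (C.PD K I δ) - C0.ip y
  have hψ : ‖ψ‖ ≤ ‖qK K‖⁻¹ := C0.opNorm_le (inv_nonneg.2 (norm_nonneg _)) fun w => by
    have e : ψ (C0.sg w) = φ (C.PD K I δ (C0.sg w)) - y.co w := by
      rw [← C0.ip_sg, C0.ip_comm]
      rfl
    rw [e, hy, PD_sg]
    by_cases h1 : C.degW I w = δ
    · rw [if_pos h1]
      by_cases h2 : C.lam I w < N
      · rw [if_pos ⟨h2, h1⟩, sub_self, norm_zero]
        exact inv_nonneg.2 (norm_nonneg _)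
      · rw [if_neg fun h => h2 h.1, sub_zero]
        exact le_inv_of_lt_one (hdeep w (not_lt.1 h2))
    · rw [if_neg h1, if_neg fun h => h1 h.2, map_zero, sub_zero, norm_zero]
      exact inv_nonneg.2 (norm_nonneg _)
  have hsm : ∀ J ⊆ I, C.SmallAt K I J (C0.ip y) := fun J hJ u hu ξ hξ => by
    have e : ∀ v, C0.ip y v = φ (C.PD K I δ v) - ψ v := fun v => by
      show _ = _ - (φ (C.PD K I δ v) - C0.ip y v)
      rw [sub_sub_cancel]
    rw [e, cp3_PD_vec hI hJ ((C.mem_Mn hJ hI).1 hu).1]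
    refine cp3_max_lt (hs J hJ u hu _ ?_) ?_
    · exact ((C.PD K I δ).le_of_opNorm_le (C.norm_PD K δ) ξ).trans (by rwa [one_mul])
    · refine (ψ.le_of_opNorm_le hψ _).trans_lt (lt_of_le_of_lt ?_ (cp3_inv_lt (K := K)))
      exact mul_le_of_le_one_right (inv_nonneg.2 (norm_nonneg _))
        ((cp3_norm_vec hI hJ hu ξ).trans hξ)
  have h := (y.norm_co_le g).trans_lt (cmpl_vec hI ih hy1 hsm)
  rwa [hy, if_pos ⟨not_le.1 hg, rfl⟩] at h

theorem cmpl [Finite B] (hI : I ⊆ C.S0) : C.Cmpl K I := by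
  induction I using Finset.strongInduction with
  | H I ih => exact cmpl_step hI fun J hJ => ih J hJ (hJ.subset.trans hI)

variable (C K)

/-- the vectors `v_{J,u}` -/
def IsV (J : Finset B) (u : W) (v : C0 W K) : Prop :=
  C.eJ K J v = v ∧ ∀ ξ, C0.ip v ξ =
    C0.ip (C.kap K C.S0 1) (C.Lop K C.S0 (C.Tb u) (C.io K C.S0 J (C.eJ K J ξ)))

variable {C K} {J : Finset B} {u : W} {v : C0 W K}

theorem exists_isV [Finite B] (hJ : J ⊆ C.S0) (u : W) : ∃ v, C.IsV K J u v :=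
  exists_Phi (Finset.Subset.refl _) hJ (by rw [C.HJ_S0]; exact Algebra.mem_top) _

theorem IsV.ip_Rop (hJ : J ⊆ C.S0) (hv : C.IsV K J u v) (h : H) (ξ : C0 W K) :
    C0.ip (C.Rop K J h v) ξ =
      C0.ip (C.kap K C.S0 h) (C.Lop K C.S0 (C.Tb u) (C.io K C.S0 J (C.eJ K J ξ))) := by
  have hu : C.Tb u ∈ C.HJ C.S0 := by rw [C.HJ_S0]; exact Algebra.mem_top
  have h1 := fun v => congrArg (fun F : Op W K => F v)
    (C.Lop_Rop K (Finset.Subset.refl _) hu (C.flat h))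
  have h2 := fun v => congrArg (fun F : Op W K => F v)
    (io_Rop (K := K) hJ (Finset.Subset.refl _) (C.flat h))
  have h3 := fun v => congrArg (fun F : Op W K => F v) (eJ_Rop (K := K) hJ (C.flat h))
  simp only [mul_apply_eq_comp] at h1 h2 h3
  rw [C.Rop_adj K J h, hv.2, h3, h2, h1, ← C.Rop_adj K C.S0 h, Rop_kap, one_mul]

theorem IsV.norm_le (hJ : J ⊆ C.S0) (hu : u ∈ C.Mn C.S0 J) (hv : C.IsV K J u v) {h : H}
    (hh : h ∈ Dg C.Tb 0) : ‖C.Rop K J h v‖ ≤ 1 := by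
  have h1 : ‖C.kap K C.S0 h‖ ≤ 1 := by
    have := (C.norm_kap_le K C.S0 h 0).2 (by rwa [C.bJ_S0])
    rwa [zpow_zero] at this
  refine C0.norm_le zero_le_one fun w => ?_
  rw [← C0.ip_sg, C0.ip_comm, hv.ip_Rop hJ]
  refine (C0.norm_ip_le _ _).trans (mul_le_one₀ h1 (norm_nonneg _) ?_)
  exact (cp3_norm_vec (Finset.Subset.refl _) hJ hu _).trans (C0.norm_sg w).le

/-- the vectors `v_{J,u}` detect leading terms -/
theorem detect [Finite B] (v : Finset B → W → C0 W K)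
    (hv : ∀ J ⊆ C.S0, ∀ u ∈ C.Mn C.S0 J, C.IsV K J u (v J u)) {h : H} (h0 : h ∈ Dg C.Tb 0)
    (h1 : h ∉ Dg C.Tb (-1)) : ∃ J ⊆ C.S0, ∃ u ∈ C.Mn C.S0 J, 1 ≤ ‖C.Rop K J h (v J u)‖ := by
  by_contra hc
  have hn : ‖C.kap K C.S0 h‖ ≤ 1 := by
    have := (C.norm_kap_le K C.S0 h 0).2 (by rwa [C.bJ_S0])
    rwa [zpow_zero] at this
  have key := cmpl (C := C) (K := K) (Finset.Subset.refl _) (C0.ip (C.kap K C.S0 h))
    ((cp3_ip_norm _).trans hn) fun J hJ u hu ξ hξ => by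
      rw [← (hv J hJ u hu).ip_Rop hJ]
      refine (C0.norm_ip_le _ _).trans_lt (lt_of_le_of_lt
        (mul_le_of_le_one_right (norm_nonneg _) hξ) (not_le.1 fun h => hc ⟨J, hJ, u, hu, h⟩))
  apply h1
  rw [← C.bJ_S0, ← C.norm_kap_le K, zpow_neg_one]
  refine C0.norm_le (inv_nonneg.2 (norm_nonneg _)) fun w => le_inv_of_lt_one ?_
  rw [← C0.ip_sg, C0.ip_comm]
  exact key w

end HC

end Pool.Agent.P.MP_74db7f_al
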