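import Pool.Agent.P.MP_74db7f_al.F.Ce5
import Pool.Agent.P.MP_74db7f_al.F.Cp3

/-! Ce6: the leading term estimate and the idempotent of a cell (paper, section 8). -/

namespace Pool.Agent.P.MP_74db7f_al

open scoped Classical Topology
open Filter

/-- lower sets for the two-sided preorder -/
def Lower {W H : Type*} [Ring H] [Algebra Rq H] (Cb : Module.Basis W Rq H) (U : Set W) : Prop :=
  ∀ w ∈ U, ∀ y, LeLR Cb y w → y ∈ U

theorem ce6_mul {W H : Type*} [Ring H] [Algebra Rq H] {Cb : Module.Basis W Rq H} {U : Set W}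
    (hU : Lower Cb U) (h h' : H) {j : H} (hj : j ∈ Submodule.span Rq (Cb '' U)) :
    h * j * h' ∈ Submodule.span Rq (Cb '' U) := by
  induction hj using Submodule.span_induction with
  | mem j hj =>
    obtain ⟨w, hw, rfl⟩ := hj
    rw [Module.Basis.mem_span_image]
    intro y hy
    exact hU w hw y (Relation.ReflTransGen.single ⟨h, h', Finsupp.mem_support_iff.1 hy⟩)
  | zero => simp
  | add a b _ _ ha hb =>
    rw [mul_add, add_mul]
    exact add_mem ha hb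
  | smul r a _ ha =>
    rw [mul_smul_comm, smul_mul_assoc]
    exact Submodule.smul_mem _ _ ha

theorem Lower.isId {W H : Type*} [Ring H] [Algebra Rq H] {Cb : Module.Basis W Rq H} {U : Set W}
    (hU : Lower Cb U) : HC.IsId (Submodule.span Rq (Cb '' U)) := by
  intro j hj h
  refine ⟨?_, ?_⟩
  · simpa using ce6_mul hU h 1 hj
  · simpa using ce6_mul hU 1 h hj

theorem lower_cell {W H : Type*} [Ring H] [Algebra Rq H] {Cb : Module.Basis W Rq H} {Γ : Set W}
    (hΓ : IsCell Cb Γ) : Lower Cb {w | ¬ ∃ y ∈ Γ, LeLR Cb y w} ∧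
      Lower Cb ({w | ¬ ∃ y ∈ Γ, LeLR Cb y w} ∪ Γ) := by
  obtain ⟨y0, rfl⟩ := hΓ
  have h0 : Lower Cb {w | ¬ ∃ y ∈ {x | LeLR Cb x y0 ∧ LeLR Cb y0 x}, LeLR Cb y w} := by
    rintro w hw y' hy' ⟨y, hy, hyy⟩
    exact hw ⟨y, hy, Relation.ReflTransGen.trans hyy hy'⟩
  refine ⟨h0, ?_⟩
  rintro w (hw | hw) y' hy'
  · exact Or.inl (h0 w hw y' hy')
  · by_cases h : ∃ y ∈ {x | LeLR Cb x y0 ∧ LeLR Cb y0 x}, LeLR Cb y y'
    · obtain ⟨y, hy, hyy⟩ := h
      exact Or.inr ⟨Relation.ReflTransGen.trans hy' hw.1, Relation.ReflTransGen.trans hy.2 hyy⟩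
    · exact Or.inl h

namespace HC

variable {B W H : Type*} [Group W] {M : CoxeterMatrix B} {cs : CoxeterSystem M W} [Ring H]
  [Algebra Rq H] (C : HC cs H) (K : Type*) [NontriviallyNormedField K] [CompleteSpace K]
  [IsUltrametricDist K] [Algebra Rq K] [GoodK K]

variable {C K} {J : Finset B} (hJ : J ⊆ C.S0) {ε ε' : Op W K}

theorem ce6_diff {bar : H →+* H} {Cb : Module.Basis W Rq H} (hC : IsKL cs C.Tb bar Cb) (w : W) :
    ‖C.kap K C.S0 (Cb w) - C0.sg w‖ ≤ ‖qK K‖⁻¹ := by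
  have h := (C.norm_kap_le K C.S0 (Cb w - C.Tb w) (-1)).2 (by rw [C.bJ_S0]; exact hC.diff w)
  rw [map_sub, ← C.TJ_S0, C.kap_TJ, zpow_neg_one] at h
  exact h

theorem ce6_comb {bar : H →+* H} {Cb : Module.Basis W Rq H} (hC : IsKL cs C.Tb bar Cb)
    (c : W →₀ K) : ‖Finsupp.linearCombination K (fun w => C.kap K C.S0 (Cb w)) c - C0.fs c‖ ≤
      ‖qK K‖⁻¹ * ‖(C0.fs c : C0 W K)‖ := by
  have e : Finsupp.linearCombination K (fun w => C.kap K C.S0 (Cb w)) c - C0.fs c =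
      ∑ w ∈ c.support, c w • (C.kap K C.S0 (Cb w) - C0.sg w) := by
    simp only [C0.fs, Finsupp.linearCombination_apply, Finsupp.sum, smul_sub,
      Finset.sum_sub_distrib]
  rw [e]
  refine IsUltrametricDist.norm_sum_le_of_forall_le_of_nonneg (by positivity) fun w _ => ?_
  rw [norm_smul, mul_comm]
  have h1 : ‖c w‖ ≤ ‖(C0.fs c : C0 W K)‖ := by
    rw [← C0.co_fs c w]
    exact C0.norm_co_le _ w
  exact mul_le_mul (ce6_diff hC w) h1 (norm_nonneg _) (by positivity)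

theorem ce6_inv_lt : ‖qK K‖⁻¹ < 1 := inv_lt_one_of_one_lt₀ GoodK.one_lt

theorem ce6_ip {bar : H →+* H} {Cb : Module.Basis W Rq H} (hC : IsKL cs C.Tb bar Cb)
    {x : W} (c : W →₀ K) (hx : c x = 0) :
    ‖C0.ip (C.kap K C.S0 (Cb x)) (Finsupp.linearCombination K (fun w => C.kap K C.S0 (Cb w)) c)‖ ≤
      ‖qK K‖⁻¹ * ‖Finsupp.linearCombination K (fun w => C.kap K C.S0 (Cb w)) c‖ := by
  have hE := ce6_comb hC c
  generalize Finsupp.linearCombination K (fun w => C.kap K C.S0 (Cb w)) c = ζ at hE ⊢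
  have hq : (0 : ℝ) ≤ ‖qK K‖⁻¹ := by positivity
  have hm : ‖(C0.fs c : C0 W K)‖ ≤ ‖ζ‖ := by
    have h1 : ‖(C0.fs c : C0 W K)‖ ≤ max ‖ζ‖ ‖ζ - C0.fs c‖ := by
      have := IsUltrametricDist.norm_add_le_max ζ (-(ζ - C0.fs c))
      rwa [norm_neg, neg_sub, add_sub_cancel] at this
    rcases le_max_iff.1 h1 with h | h
    · exact h
    · have h2 := ce6_inv_lt (K := K)
      have h3 := norm_nonneg (C0.fs c : C0 W K)
      have h4 := norm_nonneg ζ
      nlinarith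
  have e : C0.ip (C.kap K C.S0 (Cb x)) ζ =
      C0.ip (C.kap K C.S0 (Cb x) - C0.sg x) ζ + (ζ - C0.fs c).co x := by
    rw [map_sub, sub_apply, C0.ip_sg, C0.co_sub, C0.co_fs, hx]
    ring
  rw [e]
  refine (IsUltrametricDist.norm_add_le_max _ _).trans (max_le ?_ ?_)
  · exact (C0.norm_ip_le _ _).trans (mul_le_mul_of_nonneg_right (ce6_diff hC x) (norm_nonneg _))
  · exact (C0.norm_co_le _ _).trans (hE.trans (mul_le_mul_of_nonneg_left hm hq))

/-- the `C_w` are orthonormal modulo `q⁻¹`: for a finite `K`-combination `ζ` of the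
`kap C_w`, `w ∈ U`, the norm is the maximum of the norms of the coefficients -/
theorem ip_C_le {bar : H →+* H} {Cb : Module.Basis W Rq H} (hC : IsKL cs C.Tb bar Cb)
    {U : Set W} {x : W} (hx : x ∉ U) {ζ : C0 W K} (hζ : ζ ∈ (Submodule.span K
      (C.kap K C.S0 '' (Submodule.span Rq (Cb '' U) : Set H))).topologicalClosure) :
    ‖C0.ip (C.kap K C.S0 (Cb x)) ζ‖ ≤ ‖qK K‖⁻¹ * ‖ζ‖ := by
  let N : Submodule K (C0 W K) := (LinearMap.ker (Finsupp.lapply x : (W →₀ K) →ₗ[K] K)).map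
    (Finsupp.linearCombination K fun w => C.kap K C.S0 (Cb w))
  have h1 : ∀ j ∈ Submodule.span Rq (Cb '' U), C.kap K C.S0 j ∈ N := by
    intro j hj
    induction hj using Submodule.span_induction with
    | mem j hj =>
      obtain ⟨w, hw, rfl⟩ := hj
      refine ⟨Finsupp.single w 1, ?_, by simp⟩
      have : w ≠ x := fun e => hx (e ▸ hw)
      simp [Finsupp.single_apply, this]
    | zero => simp
    | add a b _ _ ha hb =>
      rw [map_add]
      exact add_mem ha hb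
    | smul r a _ ha =>
      rw [map_smul, ← algebraMap_smul K r]
      exact Submodule.smul_mem _ _ ha
  have h2 : Submodule.span K (C.kap K C.S0 '' (Submodule.span Rq (Cb '' U) : Set H)) ≤ N := by
    rw [Submodule.span_le]
    rintro _ ⟨j, hj, rfl⟩
    exact h1 j hj
  have h3 : IsClosed {ζ : C0 W K | ‖C0.ip (C.kap K C.S0 (Cb x)) ζ‖ ≤ ‖qK K‖⁻¹ * ‖ζ‖} :=
    isClosed_le (by fun_prop) (by fun_prop)
  refine closure_minimal ?_ h3 hζ
  intro ζ hζ
  obtain ⟨c, hc, rfl⟩ := h2 hζ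
  exact ce6_ip hC c hc

/-- a closed subspace containing the values on `kap H` contains all values -/
theorem ce6_all (J : Finset B) {N : Submodule K (C0 W K)} (hN : IsClosed (N : Set (C0 W K)))
    {F : Op W K} (h : ∀ x, F (C.kap K J x) ∈ N) (ξ : C0 W K) : F ξ ∈ N := by
  refine C0.induction (p := fun ξ => F ξ ∈ N) (hN.preimage F.continuous) (fun g => ?_) ξ
  rw [C0.fs, Finsupp.linearCombination_apply, Finsupp.sum, map_sum]
  refine sum_mem fun w _ => ?_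
  rw [map_smul, ← C.kap_TJ K J w]
  exact N.smul_mem _ (h _)

theorem ce6_clos {Y N : Submodule K (C0 W K)} (hN : IsClosed (N : Set (C0 W K))) {F : Op W K}
    (h : ∀ y ∈ Y, F y ∈ N) {y : C0 W K} (hy : y ∈ Y.topologicalClosure) : F y ∈ N :=
  closure_minimal (t := F ⁻¹' N) h (hN.preimage F.continuous) hy

/-- a bounded right `H`-linear map preserves the closure of a two-sided ideal -/
theorem map_ideal {Jd : Submodule Rq H} (hI : IsId Jd) {I : Finset B} {F : Op W K}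
    (hF : ∀ h, F * C.Rop K J h = C.Rop K I h * F) {j : H} (hj : j ∈ Jd) :
    F (C.kap K J j) ∈ (Submodule.span K (C.kap K I '' (Jd : Set H))).topologicalClosure := by
  have e : F (C.kap K J j) = C.Rop K I j (F (C.kap K J 1)) := by
    have := congrArg (fun G : Op W K => G (C.kap K J 1)) (hF j)
    simpa using this
  rw [e]
  refine ce6_all (C := C) I (Submodule.isClosed_topologicalClosure _) (fun x => ?_) _
  rw [C.Rop_kap]
  exact Submodule.le_topologicalClosure _ (Submodule.subset_span ⟨_, (hI j hj x).1, rfl⟩)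

include hJ

theorem EpsOf.mono {Jd Jd' : Set H} (h : Jd ⊆ Jd') (hε : C.EpsOf K J Jd ε)
    (hε' : C.EpsOf K J Jd' ε') : ε' * ε = ε := by
  obtain ⟨d, hd, hf, hy⟩ := hε.sat
  have hg : C.eJ K J - ε' ∈ C.GG K J := sub_mem (eJ_mem_GG hJ) hε'.mem
  have h1 : ∀ y ∈ C.YY K J Jd, (C.eJ K J - ε') y = 0 := by
    intro y hy
    induction hy using Submodule.span_induction with
    | mem y hy =>
      obtain ⟨j, hj, rfl⟩ := hy
      rw [← mul_apply_eq_comp, (GG_e hJ hg).2]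
      exact hε'.kill j (h hj)
    | zero => simp
    | add a b _ _ ha hb => rw [map_add, ha, hb, add_zero]
    | smul r a _ ha => rw [map_smul, ha, smul_zero]
  have h2 := h1 _ hy
  rw [← mul_apply_eq_comp, ← (GG_dop hJ hg hf).2, mul_apply_eq_comp] at h2
  obtain ⟨c, hc, hn⟩ := C.norm_dop K hJ hd hf
  have h3 := hn ((C.eJ K J - ε') (ε (C.kap K J 1)))
  rw [h2, norm_zero] at h3
  have h4 : (C.eJ K J - ε') (ε (C.kap K J 1)) = 0 :=
    norm_eq_zero.1 ((mul_eq_zero.1 h3.symm).resolve_left (norm_ne_zero_iff.2 hc))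
  have h5 := GG_ext hJ (GG_mul hJ hg hε.mem) h4
  rw [sub_mul, (GG_e hJ hε.mem).1, sub_eq_zero] at h5
  exact h5.symm

theorem EpsOf.kill_R {Jd : Submodule Rq H} (hI : IsId Jd) (hε : C.EpsOf K J Jd ε) {j : H}
    (hj : j ∈ Jd) : (C.eJ K J - ε) * C.Rop K J j = 0 := by
  refine C.op_ext J fun x => ?_
  rw [mul_apply_eq_comp, C.Rop_kap, zero_apply]
  exact hε.kill _ (hI j hj x).1

/-- with `y = ε R(C_x) v` and `d` normalised by `norm_dop`:
`‖y‖² = |⟨y, d d^* y⟩| = |⟨kap C_x, T_u ι (d d^* y)⟩|`, and `d ε V` lies in the closure of `Y`;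
`map_ideal`, `ip_C_le`, `norm_io` -/
theorem lead {bar : H →+* H} {Cb : Module.Basis W Rq H} (hC : IsKL cs C.Tb bar Cb) {U : Set W}
    (hU : Lower Cb U) (hε : C.EpsOf K J (Submodule.span Rq (Cb '' U) : Submodule Rq H) ε)
    {u : W} (hu : u ∈ C.Mn C.S0 J) {v : C0 W K} (hv : C.IsV K J u v) {x : W} (hx : x ∉ U) :
    ‖ε (C.Rop K J (Cb x) v)‖ < 1 := by
  have hI := hU.isId
  obtain ⟨d, hd, hf, hy⟩ := hε.sat
  obtain ⟨c, hc, hn⟩ := C.norm_dop K hJ hd hf
  have he1 : ‖ε‖ ≤ 1 := IsE.norm_le hJ hε.toIsE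
  have hg : C.dop K J d * ε ∈ C.GG K J := (GG_dop hJ hε.mem hf).1
  obtain ⟨g', hg', ha⟩ := GG_adj hJ hg
  set g := C.dop K J d * ε with hgd
  set Y := C.YY K J (Submodule.span Rq (Cb '' U) : Submodule Rq H) with hY
  have hYc := Submodule.isClosed_topologicalClosure Y
  have h1 : ∀ ξ, g ξ ∈ Y.topologicalClosure := by
    refine ce6_all (C := C) J hYc fun h => Submodule.le_topologicalClosure _ ?_
    have e : g (C.kap K J h) = C.Rop K J h (g (C.kap K J 1)) := by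
      have := congrArg (fun G : Op W K => G (C.kap K J 1)) (GG_Rop hJ hg h)
      simpa using this
    rw [e]
    exact YY_Rop hJ hI h hy
  have h2 : ∀ {a : Op W K}, a ∈ C.GG K J → ∀ y ∈ Y.topologicalClosure,
      a y ∈ Y.topologicalClosure := fun ha y hy =>
    ce6_clos hYc (fun y hy => Submodule.le_topologicalClosure _ (YY_GG hJ hI ha hy)) hy
  have hng : ‖g‖ ≤ ‖c‖ := by
    refine ContinuousLinearMap.opNorm_le_bound _ (norm_nonneg _) fun ξ => ?_
    rw [hgd, mul_apply_eq_comp, hn]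
    exact mul_le_mul_of_nonneg_left (ε.le_of_opNorm_le he1 ξ |>.trans (by rw [one_mul]))
      (norm_nonneg _)
  have hng' : ‖g'‖ ≤ ‖c‖ := ha.norm_le.trans hng
  set y := ε (C.Rop K J (Cb x) v) with hyd
  have hey : ε y = y := by rw [hyd, ← mul_apply_eq_comp, hε.idem]
  have hgy : ‖g y‖ = ‖c‖ * ‖y‖ := by rw [hgd, mul_apply_eq_comp, hey, hn]
  let F : Op W K := C.Lop K C.S0 (C.Tb u) * C.io K C.S0 J
  have hF : ∀ h, F * C.eJ K J * C.Rop K J h = C.Rop K C.S0 h * (F * C.eJ K J) := by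
    intro h
    have hT : C.Tb u ∈ C.HJ C.S0 := by rw [C.HJ_S0]; trivial
    rw [mul_assoc, eJ_Rop hJ, ← mul_assoc, mul_assoc _ (C.io K C.S0 J),
      io_Rop hJ (Finset.Subset.refl _), ← mul_assoc, C.Lop_Rop K (Finset.Subset.refl _) hT]
    simp only [F, mul_assoc]
  have h3 : ∀ y ∈ Y, (F * C.eJ K J) y ∈ (Submodule.span K
      (C.kap K C.S0 '' (Submodule.span Rq (Cb '' U) : Set H))).topologicalClosure := by
    intro y hy
    induction hy using Submodule.span_induction with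
    | mem y hy =>
      obtain ⟨j, hj, rfl⟩ := hy
      rw [← mul_apply_eq_comp, mul_assoc, eJ_idem hJ]
      exact map_ideal hI hF hj
    | zero => simp
    | add a b _ _ ha hb =>
      rw [map_add]
      exact add_mem ha hb
    | smul r a _ ha =>
      rw [map_smul]
      exact Submodule.smul_mem _ _ ha
  have h4 := ip_C_le hC hx (ce6_clos (Submodule.isClosed_topologicalClosure _) h3
    (h2 hε.mem _ (h2 hg' _ (h1 y))))
  have h5 : C0.ip (g y) (g y) =
      C0.ip (C.kap K C.S0 (Cb x)) ((F * C.eJ K J) (ε (g' (g y)))) := by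
    rw [ha, hyd, hε.adj, hv.ip_Rop hJ]
    rfl
  have h6 : ‖(F * C.eJ K J) (ε (g' (g y)))‖ ≤ ‖c‖ * (‖c‖ * ‖y‖) := by
    have a1 : ‖F‖ ≤ 1 := norm_io hJ (Finset.Subset.refl _) hu
    have a2 : ‖C.eJ K J‖ ≤ 1 := norm_eJ hJ
    have b1 := F.le_of_opNorm_le a1 (C.eJ K J (ε (g' (g y))))
    have b2 := (C.eJ K J).le_of_opNorm_le a2 (ε (g' (g y)))
    have b3 := ε.le_of_opNorm_le he1 (g' (g y))
    have b4 := g'.le_of_opNorm_le hng' (g y)
    rw [hgy] at b4
    rw [mul_apply_eq_comp]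
    linarith
  rw [← h5, C0.norm_ip_self, hgy] at h4
  have hq : (0 : ℝ) ≤ ‖qK K‖⁻¹ := by positivity
  have h7 := h4.trans (mul_le_mul_of_nonneg_left h6 hq)
  have hc' : 0 < ‖c‖ := norm_pos_iff.2 hc
  by_contra hlt
  have h8 : 1 ≤ ‖y‖ := not_lt.1 hlt
  have h9 : 0 < ‖c‖ * (‖c‖ * ‖y‖) := by positivity
  have h10 := ce6_inv_lt (K := K)
  nlinarith

omit hJ in
/-- the elements which send `ξ` to a vector of norm `< 1` -/
def ce6_small (J : Finset B) (ξ : C0 W K) : AddSubgroup H where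
  carrier := {h | ‖C.Rop K J h ξ‖ < 1}
  zero_mem' := by
    have := C.Rop_smul K J 0 0
    rw [zero_smul, map_zero, zero_smul] at this
    show ‖C.Rop K J 0 ξ‖ < 1
    rw [this]
    simp
  add_mem' := fun {a b} ha hb => by
    show ‖C.Rop K J (a + b) ξ‖ < 1
    rw [C.Rop_add, add_apply]
    exact (IsUltrametricDist.norm_add_le_max _ _).trans_lt (max_lt ha hb)
  neg_mem' := fun {a} ha => by
    have := C.Rop_smul K J (-1) a
    rw [neg_one_smul, map_neg, map_one, neg_one_smul] at this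
    show ‖C.Rop K J (-a) ξ‖ < 1
    rw [this, neg_apply, norm_neg]
    exact ha

/-- `ε = ε₁ - ε₀` for the ideals of `lower_cell` -/
theorem exists_cell_idem {bar : H →+* H} {Cb : Module.Basis W Rq H} (hC : IsKL cs C.Tb bar Cb)
    {Γ : Set W} (hΓ : IsCell Cb Γ) : ∃ ε, C.IsE K J ε ∧ Rat K (kerF K ε) ∧
      (∀ x, (¬ ∃ y ∈ Γ, LeLR Cb y x) → ε * C.Rop K J (Cb x) = 0) ∧
      ∀ u ∈ C.Mn C.S0 J, ∀ v, C.IsV K J u v →
        (∀ x ∉ Γ, ‖C.Rop K J (Cb x) (ε v)‖ < 1) ∧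
        ∀ c : W →₀ ℤ, (∀ x ∈ c.support, x ∈ Γ) →
          ‖C.Rop K J (c.sum fun x a => a • Cb x) (v - ε v)‖ < 1 := by
  obtain ⟨hU0, hU1⟩ := lower_cell hΓ
  obtain ⟨ε0, h0⟩ := exists_epsOf (K := K) hJ hU0.isId
  obtain ⟨ε1, h1⟩ := exists_epsOf (K := K) hJ hU1.isId
  have hsub : Submodule.span Rq (Cb '' {w | ¬ ∃ y ∈ Γ, LeLR Cb y w}) ≤
      Submodule.span Rq (Cb '' ({w | ¬ ∃ y ∈ Γ, LeLR Cb y w} ∪ Γ)) :=
    Submodule.span_mono (Set.image_mono Set.subset_union_left)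
  have hE : C.IsE K J (ε1 - ε0) := IsE.sub hJ h1.toIsE h0.toIsE (EpsOf.mono hJ hsub h0 h1)
  have hk : ∀ x, (¬ ∃ y ∈ Γ, LeLR Cb y x) → (ε1 - ε0) * C.Rop K J (Cb x) = 0 := by
    intro x hx
    have m0 : Cb x ∈ Submodule.span Rq (Cb '' {w | ¬ ∃ y ∈ Γ, LeLR Cb y w}) :=
      Submodule.subset_span ⟨x, hx, rfl⟩
    have e0 := EpsOf.kill_R hJ hU0.isId h0 m0
    have e1 := EpsOf.kill_R hJ hU1.isId h1 (hsub m0)
    rw [show ε1 - ε0 = (C.eJ K J - ε0) - (C.eJ K J - ε1) by abel, sub_mul, e0, e1, sub_zero]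
  refine ⟨ε1 - ε0, hE, ?_, hk, fun u hu v hv => ⟨fun x hx => ?_, fun c hc => ?_⟩⟩
  · obtain ⟨r0, hr0, a0, ha0, e0⟩ := h0.rat
    obtain ⟨r1, hr1, a1, ha1, e1⟩ := h1.rat
    have m1 : r0 • a1 ∈ C.HJ J := Subalgebra.smul_mem _ ha1 _
    have m0 : (-r1) • a0 ∈ C.HJ J := Subalgebra.smul_mem _ ha0 _
    refine rat_kerF hJ (mul_ne_zero hr0 hr1) (add_mem m1 m0) ?_
    rw [C.Lop_add K hJ m1 m0, C.Lop_smul K hJ _ ha1, C.Lop_smul K hJ _ ha0, mul_add,
      mul_smul_comm, mul_smul_comm, ← e0, ← e1, smul_smul, smul_smul, map_mul, map_neg, smul_sub,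
      neg_mul, neg_smul, mul_comm (algebraMap Rq K r1), sub_eq_add_neg]
  · rw [← mul_apply_eq_comp, ← GG_Rop hJ hE.mem]
    by_cases hx0 : ∃ y ∈ Γ, LeLR Cb y x
    · have l0 := lead hJ hC hU0 h0 hu hv (x := x) fun h => h hx0
      have l1 := lead hJ hC hU1 h1 hu hv (x := x) fun h => h.elim (fun h => h hx0) hx
      rw [mul_apply_eq_comp, sub_apply, sub_eq_add_neg]
      refine (IsUltrametricDist.norm_add_le_max _ _).trans_lt (max_lt l1 ?_)
      rwa [norm_neg]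
    · rw [hk x hx0]
      simp
  · refine (ce6_small (C := C) J (v - (ε1 - ε0) v)).sum_mem fun x hx => zsmul_mem ?_ _
    have hxΓ := hc x hx
    have l0 := lead hJ hC hU0 h0 hu hv (x := x) fun h => h ⟨x, hxΓ, Relation.ReflTransGen.refl⟩
    have e1 := EpsOf.kill_R hJ hU1.isId h1 (Submodule.subset_span ⟨x, Or.inr hxΓ, rfl⟩)
    have hg : C.eJ K J - ε1 ∈ C.GG K J := sub_mem (eJ_mem_GG hJ) h1.mem
    have e : v - (ε1 - ε0) v = (C.eJ K J - ε1) v + ε0 v := by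
      simp only [sub_apply, hv.1]
      abel
    show ‖C.Rop K J (Cb x) (v - (ε1 - ε0) v)‖ < 1
    rw [e, map_add, ← mul_apply_eq_comp, ← GG_Rop hJ hg, e1,
      ← mul_apply_eq_comp _ ε0, ← GG_Rop hJ h0.mem]
    simpa using l0

end HC

end Pool.Agent.P.MP_74db7f_al
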