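import Pool.Agent.P.MP_74db7f_al.F.Sc5

/-! Cp1: density of the induced discrete parts, weak decay (paper, section 7). -/

namespace Pool.Agent.P.MP_74db7f_al

open scoped Classical Topology
open Filter

theorem cp1_mem_of_sg {W K : Type*} [NontriviallyNormedField K] (S : Submodule K (C0 W K))
    (hS : IsClosed (S : Set (C0 W K))) (F : Op W K) (h : ∀ w, F (C0.sg w) ∈ S) (ξ : C0 W K) :
    F ξ ∈ S := by
  refine C0.induction (p := fun ξ => F ξ ∈ S) (hS.preimage F.continuous) (fun g => ?_) ξ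
  show F (C0.fs g) ∈ S
  rw [C0.fs, Finsupp.linearCombination_apply, Finsupp.sum, map_sum]
  refine S.sum_mem fun w _ => ?_
  rw [map_smul]
  exact S.smul_mem _ (h w)

theorem cp1_closure {W K : Type*} [NontriviallyNormedField K] (T : Set (C0 W K))
    (S : Submodule K (C0 W K)) (hS : IsClosed (S : Set (C0 W K))) (F : Op W K)
    (h : ∀ v ∈ T, F v ∈ S) {k : C0 W K} (hk : k ∈ (Submodule.span K T).topologicalClosure) :
    F k ∈ S := by
  have h1 : (Submodule.span K T).topologicalClosure ≤ S.comap (F : C0 W K →ₗ[K] C0 W K) :=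
    Submodule.topologicalClosure_minimal _ (Submodule.span_le.2 h) (hS.preimage F.continuous)
  exact h1 hk

theorem cp1_avoid {s : Set ℤ} (hs : s.Finite) (a : ℤ) {c : ℤ} (hc : c ≠ 0) {m : ℕ} (hm : 0 < m) :
    ∀ᶠ n : ℕ in atTop, a + ((n * m : ℕ) : ℤ) * c ∉ s := by
  have hi : Function.Injective fun n : ℕ => a + ((n * m : ℕ) : ℤ) * c := by
    intro n n' e
    have e1 : ((n * m : ℕ) : ℤ) * c = ((n' * m : ℕ) : ℤ) * c := add_left_cancel e
    have e2 : n * m = n' * m := by exact_mod_cast mul_right_cancel₀ hc e1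
    exact Nat.eq_of_mul_eq_mul_right hm e2
  rw [← Nat.cofinite_eq_atTop]
  exact hi.tendsto_cofinite hs.compl_mem_cofinite

namespace HC

variable {B W H : Type*} [Group W] {M : CoxeterMatrix B} {cs : CoxeterSystem M W} [Ring H]
  [Algebra Rq H] (C : HC cs H) (K : Type*) [NontriviallyNormedField K] [CompleteSpace K]
  [IsUltrametricDist K] [Algebra Rq K] [GoodK K]

variable {C K} {I : Finset B}

/-- induction on `I`: `V = e V + KK`, the range of `ε` is the closure of the range of `ι`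
(`io_kap`), `io_trans`, `io_Lop` -/
theorem dense_disc (hI : I ⊆ C.S0) {k : C0 W K} (hk : k ∈ C.KK K I) :
    k ∈ (Submodule.span K {v | ∃ J ⊂ I, ∃ a ∈ C.HJ I, ∃ g,
      v = C.Lop K I a (C.io K I J (C.eJ K J (C0.sg g)))}).topologicalClosure := by
  induction I using Finset.strongInduction generalizing k with
  | H I ih =>
  set S := (Submodule.span K {v | ∃ J ⊂ I, ∃ a ∈ C.HJ I, ∃ g,
      v = C.Lop K I a (C.io K I J (C.eJ K J (C0.sg g)))}).topologicalClosure with hSdef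
  have hS : IsClosed (S : Set (C0 W K)) := Submodule.isClosed_topologicalClosure _
  have hgen : ∀ J ⊂ I, ∀ a ∈ C.HJ I, ∀ g,
      C.Lop K I a (C.io K I J (C.eJ K J (C0.sg g))) ∈ S := fun J hJ a ha g =>
    Submodule.le_topologicalClosure _ (Submodule.subset_span ⟨J, hJ, a, ha, g, rfl⟩)
  have step : ∀ J ⊂ I, ∀ a ∈ C.HJ I, ∀ η, C.Lop K I a (C.io K I J η) ∈ S := by
    intro J hJ a ha η
    have hJS : J ⊆ C.S0 := hJ.subset.trans hI
    have h1 : C.Lop K I a (C.io K I J (C.eJ K J η)) ∈ S :=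
      cp1_mem_of_sg S hS (C.Lop K I a * C.io K I J * C.eJ K J) (hgen J hJ a ha) η
    have h2 : C.Lop K I a (C.io K I J (η - C.eJ K J η)) ∈ S := by
      refine cp1_closure _ S hS (C.Lop K I a * C.io K I J) ?_
        (ih J hJ hJS ((eJ_spec hJS).1 η))
      rintro _ ⟨J', hJ', a', ha', g, rfl⟩
      have ha'' : a' ∈ C.HJ I := C.HJ_mono hJ.subset ha'
      have e : C.Lop K I a * C.io K I J * (C.Lop K J a' * C.io K J J') =
          C.Lop K I (a * a') * C.io K I J' := by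
        rw [C.Lop_mul K hI ha ha'', ← io_trans hJ.subset hI hJ'.subset, mul_assoc (C.Lop K I a),
          ← mul_assoc (C.io K I J), io_Lop hJ.subset hI ha']
        simp only [mul_assoc]
      have := hgen J' (hJ'.trans hJ) (a * a') (mul_mem ha ha'') g
      have e' := congrArg (fun F : Op W K => F (C.eJ K J' (C0.sg g))) e
      simp only [mul_apply_eq_comp] at e' ⊢
      rw [e']
      exact this
    have := S.add_mem h1 h2
    rwa [← map_add, ← map_add, add_sub_cancel] at this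
  refine cp1_closure _ S hS (ContinuousLinearMap.id K _) ?_ hk
  rintro _ ⟨J, hJ, u, hu, ξ, rfl⟩
  refine cp1_mem_of_sg S hS (C.Lop K I (C.Tb u) * C.eps K I J) (fun w => ?_) ξ
  have := step J hJ _ (C.Tb_mem_HJ hI hu) (C.kap K J (C.TJ I w))
  rwa [io_kap hJ.subset hI, kap_TJ] at this

theorem PD_tendsto (J : Finset B) (v : C0 W K) {δ : ℝ} (hδ : 0 < δ) :
    {γ | δ ≤ ‖C.PD K J γ v‖}.Finite := by
  have h1 : {w | δ ≤ ‖v.co w‖}.Finite := by
    have := (NormedAddGroup.tendsto_nhds_zero.1 v.tendsto) δ hδ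
    rw [Filter.eventually_cofinite] at this
    simpa only [not_lt] using this
  refine (h1.image (C.degW J)).subset fun γ hγ => ?_
  have hγ' : δ ≤ ‖C.PD K J γ v‖ := hγ
  have h0 : C.PD K J γ v ≠ 0 := by
    intro e
    rw [e, norm_zero] at hγ'
    exact absurd hγ' (not_le.2 hδ)
  obtain ⟨w, hw⟩ := C0.exists_norm_eq h0
  rw [hw, C.co_PD K] at hγ'
  by_cases e : C.degW J w = γ
  · rw [if_pos e] at hγ'
    exact ⟨w, hγ', e⟩
  · rw [if_neg e, norm_zero] at hγ'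
    exact absurd hγ' (not_le.2 hδ)

theorem cp1_fix_neg {J : Finset B} (hJ : J ⊆ I) {x : Lat C.n} (hx : C.Fix I x) :
    C.Fix J (-x) := fun j hj => by
  rw [map_neg, hx j (hJ hj), neg_zero]

/-- one term at the level `J` -/
theorem cp1_term (hI : I ⊆ C.S0) {J : Finset B} (hJ : J ⊆ I) {b : B} (hb : b ∈ I)
    {y : Lat C.n} (hy : C.sr b (C.deg J y) ≠ 0) (k : ℤ) (g : W) (v : C0 W K) {δ : ℝ}
    (hδ : 0 < δ) : ∀ᶠ n : ℕ in atTop, ∀ x, C.Fix I x →
      ‖C0.ip v (C.Tht K J (-x) (C.phi K J y k n (C0.sg g)))‖ ≤ δ := by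
  have hJS : J ⊆ C.S0 := hJ.trans hI
  obtain ⟨A, hA⟩ := C.phi_bdd K hJS y k
  have hA0 : 0 ≤ A := (norm_nonneg _).trans (hA 0)
  have hδ' : 0 < δ / (A + 1) := div_pos hδ (by linarith)
  have hfin := (PD_tendsto (C := C) J v hδ').image (C.sr b)
  filter_upwards [cp1_avoid hfin (C.sr b (C.degW J g)) hy C.Mo_pos] with n hn x hx
  have hxJ : C.Fix J (-x) := cp1_fix_neg hJ hx
  set γ1 := C.degW J g + ((n * C.Mo : ℕ) : ℤ) • C.deg J y with hγ1
  set ζ := C.phi K J y k n (C0.sg g) with hζ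
  have e1 : C.PD K J γ1 ζ = ζ := by
    have := congrArg (fun F : Op W K => F (C0.sg g)) (phi_PD hJS y k n (C.degW J g))
    simp only [mul_apply_eq_comp] at this
    rw [hζ, hγ1, this, C.PD_sg K, if_pos rfl]
  have e2 : C.PD K J (γ1 + C.deg J (-x)) (C.Tht K J (-x) ζ) = C.Tht K J (-x) ζ := by
    have := congrArg (fun F : Op W K => F ζ) (C.PD_Tht K hJS γ1 (-x))
    simp only [mul_apply_eq_comp] at this
    rw [this, e1]
  have h3 : ‖C.PD K J (γ1 + C.deg J (-x)) v‖ < δ / (A + 1) := by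
    by_contra hcon
    refine hn ⟨γ1 + C.deg J (-x), not_lt.1 hcon, ?_⟩
    rw [C.deg_of_fix hJS hxJ, hγ1, map_add, map_add, map_smul, map_smul,
      cp1_fix_neg (C := C) (subset_refl I) hx b hb, smul_zero, add_zero, smul_eq_mul]
  have h4 : ‖C.Tht K J (-x) ζ‖ ≤ A := by
    rw [C.norm_Tht_apply K hJS hxJ, hζ]
    refine ((C.phi K J y k n).le_opNorm _).trans ?_
    rw [C0.norm_sg, mul_one]
    exact hA n
  rw [← e2, ← C.PD_adj K (γ1 + C.deg J (-x)) v]
  refine (C0.norm_ip_le _ _).trans ?_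
  calc ‖C.PD K J (γ1 + C.deg J (-x)) v‖ * ‖C.Tht K J (-x) ζ‖ ≤ δ / (A + 1) * (A + 1) :=
        mul_le_mul h3.le (by linarith) (norm_nonneg _) hδ'.le
    _ = δ := div_mul_cancel₀ _ (by linarith)

/-- the generators: `Nat.io`, `exists_Phi`, `phi_PD`, `PD_Tht`, `phi_bdd`, `PD_tendsto`; the
degree `degW g + n M deg (w z₀) - |W_J| x` has `sr b`-value tending to infinity -/
theorem WD_gen [Finite B] (hI : I ⊆ C.S0) {J : Finset B} (hJ : J ⊂ I) {z0 : Lat C.n}
    (hz : ∀ b ∈ I, b ∉ J → ∀ w : W, C.sr b (C.deg J (C.gr w z0)) ≠ 0) (k : ℤ) {a : H}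
    (ha : a ∈ C.HJ I) (g f : W) {δ : ℝ} (hδ : 0 < δ) : ∀ᶠ n : ℕ in atTop, ∀ x, C.Fix I x →
      ‖C0.ip (C0.sg (C.tr x * f)) ((∑ w ∈ C.WF C.S0, C.phi K I (C.gr w z0) k n)
        (C.Lop K I a (C.io K I J (C.eJ K J (C0.sg g)))))‖ < δ := by
  have hJS : J ⊆ C.S0 := hJ.subset.trans hI
  obtain ⟨b, hb, hbJ⟩ := Finset.exists_of_ssubset hJ
  obtain ⟨v, -, hv⟩ := exists_Phi (K := K) hI hJ.subset ha (C0.sg f)
  have hall : ∀ᶠ n : ℕ in atTop, ∀ w ∈ C.WF C.S0, ∀ x, C.Fix I x →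
      ‖C0.ip v (C.Tht K J (-x) (C.phi K J (C.gr w z0) k n (C0.sg g)))‖ ≤ δ / 2 :=
    (Filter.eventually_all_finset _).2 fun w _ =>
      cp1_term hI hJ.subset hb (hz b hb hbJ w) k g v (half_pos hδ)
  filter_upwards [hall] with n hn x hx
  obtain ⟨c', hc, -⟩ := C.nat1_psum K z0 k n
  have hxI : C.Fix I (-x) := cp1_fix_neg (subset_refl I) hx
  have hcomm : ∀ x', C.Tht K J x' * C.eJ K J = C.eJ K J * C.Tht K J x' := fun x' =>
    (eJ_Lop hJS (C.th_mem_HJ J x')).symm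
  set ΦJ := ∑ w ∈ C.WF C.S0, C.phi K J (C.gr w z0) k n with hΦJ
  have e1 : ΦJ * C.eJ K J = C.eJ K J * ΦJ :=
    AJ1_comm (Subalgebra.sum_mem _ fun w _ => phi_mem hJS _ k n) hcomm
  have e2 : (∑ w ∈ C.WF C.S0, C.phi K I (C.gr w z0) k n) * (C.Lop K I a * C.io K I J) =
      C.Lop K I a * C.io K I J * ΦJ := Nat.io hJ.subset hI hc.1 ha
  have e3 : C.io K I J * C.Tht K J (-x) = C.Tht K I (-x) * C.io K I J :=
    io_Lop hJ.subset hI (C.th_mem_HJ J (-x))
  have e4 : C.Tht K I (-x) * ((∑ w ∈ C.WF C.S0, C.phi K I (C.gr w z0) k n) *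
      (C.Lop K I a * C.io K I J) * C.eJ K J) =
      C.Lop K I a * (C.io K I J * (C.eJ K J * (C.Tht K J (-x) * ΦJ))) := by
    rw [e2, mul_assoc _ ΦJ, e1, ← mul_assoc, ← mul_assoc (C.Tht K I (-x)),
      ← C.Lop_Tht K hI ha hxI, mul_assoc (C.Lop K I a), ← e3]
    simp only [mul_assoc]
    rw [← mul_assoc (C.Tht K J (-x)), hcomm, mul_assoc]
  have e5 := congrArg (fun F : Op W K => F (C0.sg g)) e4
  simp only [mul_apply_eq_comp] at e5
  rw [← C.Tht_sg K hI hx, C.Tht_adj K hI hx, e5, ← hv, hΦJ, sum_apply,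
    map_sum, map_sum]
  refine lt_of_le_of_lt ?_ (half_lt_self hδ)
  exact IsUltrametricDist.norm_sum_le_of_forall_le_of_nonneg (half_pos hδ).le
    fun w hw => hn w hw x hx

/-- `dense_disc`, `WD_gen`, `nat1_psum` -/
theorem WD [Finite B] (hI : I ⊆ C.S0) {z0 : Lat C.n}
    (hz : ∀ J ⊂ I, ∀ b ∈ I, b ∉ J → ∀ w : W, C.sr b (C.deg J (C.gr w z0)) ≠ 0) (k : ℤ)
    {y : C0 W K} (hy : y ∈ C.KK K I) (f : W) {δ : ℝ} (hδ : 0 < δ) :
    ∀ᶠ n : ℕ in atTop, ∀ x, C.Fix I x → ‖C0.ip (C0.sg (C.tr x * f))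
      ((∑ w ∈ C.WF C.S0, C.phi K I (C.gr w z0) k n) y)‖ < δ := by
  have hspan : ∀ y' ∈ Submodule.span K {v | ∃ J ⊂ I, ∃ a ∈ C.HJ I, ∃ g,
      v = C.Lop K I a (C.io K I J (C.eJ K J (C0.sg g)))}, ∀ δ : ℝ, 0 < δ →
      ∀ᶠ n : ℕ in atTop, ∀ x, C.Fix I x → ‖C0.ip (C0.sg (C.tr x * f))
        ((∑ w ∈ C.WF C.S0, C.phi K I (C.gr w z0) k n) y')‖ < δ := by
    intro y' hy'
    induction hy' using Submodule.span_induction with
    | mem v hv =>
      obtain ⟨J, hJ, a, ha, g, rfl⟩ := hv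
      exact fun δ hδ => WD_gen hI hJ (hz J hJ) k ha g f hδ
    | zero =>
      intro δ hδ
      refine Eventually.of_forall fun n x _ => ?_
      rw [map_zero, map_zero, norm_zero]
      exact hδ
    | add u v _ _ hu hv =>
      intro δ hδ
      filter_upwards [hu _ (half_pos hδ), hv _ (half_pos hδ)] with n h1 h2 x hx
      rw [map_add, map_add]
      refine (norm_add_le _ _).trans_lt ?_
      linarith [h1 x hx, h2 x hx]
    | smul c u _ hu =>
      intro δ hδ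
      have hc : 0 < ‖c‖ + 1 := by positivity
      filter_upwards [hu _ (div_pos hδ hc)] with n h1 x hx
      rw [map_smul, map_smul, norm_smul]
      have h2 := (lt_div_iff₀ hc).1 (h1 x hx)
      nlinarith [norm_nonneg (C0.ip (C0.sg (C.tr x * f))
        ((∑ w ∈ C.WF C.S0, C.phi K I (C.gr w z0) k n) u))]
  obtain ⟨y', hy', hd⟩ := Metric.mem_closure_iff.1 (dense_disc hI hy) _ (half_pos hδ)
  filter_upwards [hspan y' hy' _ (half_pos hδ)] with n h1 x hx
  obtain ⟨c', -, hc⟩ := C.nat1_psum K z0 k n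
  have h2 : ‖C0.ip (C0.sg (C.tr x * f))
      ((∑ w ∈ C.WF C.S0, C.phi K I (C.gr w z0) k n) (y - y'))‖ ≤ δ / 2 := by
    refine (C0.norm_ip_le _ _).trans ?_
    rw [C0.norm_sg, one_mul]
    refine (ContinuousLinearMap.le_opNorm _ _).trans ?_
    rw [dist_eq_norm] at hd
    calc _ ≤ 1 * (δ / 2) := mul_le_mul (hc I hI).1 hd.le (norm_nonneg _) zero_le_one
      _ = δ / 2 := one_mul _
  have e : y = y' + (y - y') := (add_sub_cancel _ _).symm
  rw [e, map_add, map_add]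
  refine (norm_add_le _ _).trans_lt ?_
  linarith [h1 x hx]

end HC

end Pool.Agent.P.MP_74db7f_al
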