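import Pool.Agent.P.MP_74db7f_al.F.Cp1

/-! Cp2: completeness, the vector case (paper, section 7). -/

namespace Pool.Agent.P.MP_74db7f_al

open scoped Classical Topology
open Filter

namespace HC

variable {B W H : Type*} [Group W] {M : CoxeterMatrix B} {cs : CoxeterSystem M W} [Ring H]
  [Algebra Rq H] (C : HC cs H) (K : Type*) [NontriviallyNormedField K] [CompleteSpace K]
  [IsUltrametricDist K] [Algebra Rq K] [GoodK K]

/-- `φ` is small on the part induced from `J` -/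
def SmallAt (I J : Finset B) (φ : C0 W K →L[K] K) : Prop :=
  ∀ u ∈ C.Mn I J, ∀ ξ, ‖ξ‖ ≤ 1 → ‖φ (C.Lop K I (C.Tb u) (C.io K I J (C.eJ K J ξ)))‖ < 1

/-- completeness at level `I` -/
def Cmpl (I : Finset B) : Prop :=
  ∀ φ : C0 W K →L[K] K, ‖φ‖ ≤ 1 → (∀ J ⊆ I, C.SmallAt K I J φ) → ∀ g, ‖φ (C0.sg g)‖ < 1

variable {C K} {I : Finset B}

theorem cp2_sum_lt {ι E : Type*} [SeminormedAddCommGroup E] [IsUltrametricDist E]
    (s : Finset ι) (f : ι → E) (h : ∀ i ∈ s, ‖f i‖ < 1) : ‖∑ i ∈ s, f i‖ < 1 := by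
  induction s using Finset.induction_on with
  | empty => simp
  | insert a s ha ih =>
    rw [Finset.sum_insert ha]
    exact (IsUltrametricDist.norm_add_le_max _ _).trans_lt
      (max_lt (h a (Finset.mem_insert_self _ _)) (ih fun i hi => h i (Finset.mem_insert_of_mem hi)))

theorem cp2_ip_lt {f g : C0 W K} (h : ∀ w, ‖f.co w * g.co w‖ < 1) : ‖C0.ip f g‖ < 1 := by
  have h1 : (1 : ℝ) < ‖qK K‖ := GoodK.one_lt
  have h2 : ‖C0.ip f g‖ ≤ ‖qK K‖⁻¹ := by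
    rw [← (C0.ip_hasSum f g).tsum_eq]
    exact IsUltrametricDist.norm_tsum_le_of_forall_le_of_nonneg (by positivity)
      fun w => le_inv_of_lt_one (h w)
  exact h2.trans_lt (inv_lt_one_of_one_lt₀ h1)

theorem cp2_norm_ip {y : C0 W K} (h : ‖y‖ ≤ 1) : ‖C0.ip y‖ ≤ 1 := by
  refine ContinuousLinearMap.opNorm_le_bound _ zero_le_one fun g => ?_
  exact (C0.norm_ip_le y g).trans (mul_le_mul_of_nonneg_right h (norm_nonneg _))

theorem cp2_apply_le {E F : Type*} [NormedAddCommGroup E] [NormedSpace K E]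
    [NormedAddCommGroup F] [NormedSpace K F] {c : E →L[K] F} (hc : ‖c‖ ≤ 1) {y : E}
    (hy : ‖y‖ ≤ 1) : ‖c y‖ ≤ 1 :=
  (c.le_opNorm y).trans (mul_le_one₀ hc (norm_nonneg _) hy)

theorem cp2_lt_of_ip {y : C0 W K} (h : ‖C0.ip y y‖ < 1) : ‖y‖ < 1 := by
  rw [C0.norm_ip_self] at h
  exact (sq_lt_one_iff₀ (norm_nonneg _)).1 h

/-- `deep_approx`, `norm_io`, `Mn_mul`, `length_Mn`, `io_trans` -/
theorem deep_small (hI : I ⊆ C.S0) (ih : ∀ J ⊂ I, C.Cmpl K J) : ∃ N : ℤ,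
    ∀ φ : C0 W K →L[K] K, ‖φ‖ ≤ 1 → (∀ J ⊂ I, C.SmallAt K I J φ) →
      ∀ g, N ≤ C.lam I g → ‖φ (C0.sg g)‖ < 1 := by
  obtain ⟨N, hN⟩ := deep_approx (K := K) hI (δ := 1) one_pos
  refine ⟨N, fun φ hφ hs w hw => ?_⟩
  obtain ⟨J', hJ', u, hu, g, hg⟩ := hN w hw
  have hJ'0 : J' ⊆ C.S0 := hJ'.subset.trans hI
  have huI : u ∈ C.WJ I := ((C.mem_Mn hJ'.subset hI).1 hu).1
  have hψ : ‖φ.comp (C.Lop K I (C.Tb u) * C.io K I J')‖ ≤ 1 :=
    (φ.opNorm_comp_le _).trans (mul_le_one₀ hφ (norm_nonneg _) (norm_io hJ'.subset hI hu))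
  have h2 := ih J' hJ' _ hψ (fun J hJ u' hu' ξ hξ => by
    have hu'J : u' ∈ C.WJ J' := ((C.mem_Mn hJ hJ'0).1 hu').1
    have hb' : C.Tb u' ∈ C.HJ J' := C.Tb_mem_HJ hJ'0 hu'J
    have e : C.Lop K I (C.Tb u) * C.io K I J' * C.Lop K J' (C.Tb u') * C.io K J' J =
        C.Lop K I (C.Tb (u * u')) * C.io K I J := by
      rw [mul_assoc (C.Lop K I (C.Tb u)), io_Lop hJ'.subset hI hb', ← mul_assoc,
        ← C.Lop_mul K hI (C.Tb_mem_HJ hI huI) (C.HJ_mono hJ'.subset hb'),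
        C.Tb_mul (C.length_Mn hJ'.subset hI hu hu'J), mul_assoc, io_trans hJ'.subset hI hJ]
    have := hs J (hJ.trans_ssubset hJ') (u * u') (C.Mn_mul hJ hJ'.subset hI hu hu') ξ hξ
    have e' := congrArg (fun F : Op W K => φ (F (C.eJ K J ξ))) e
    simp only [ContinuousLinearMap.mul_apply] at e'
    rw [← e'] at this
    exact this) g
  have h3 : φ (C0.sg w) = φ (C0.sg w - C.Lop K I (C.Tb u) (C.io K I J' (C0.sg g))) +
      φ (C.Lop K I (C.Tb u) (C.io K I J' (C0.sg g))) := by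
    rw [← map_add, sub_add_cancel]
  rw [h3]
  refine (IsUltrametricDist.norm_add_le_max _ _).trans_lt (max_lt ?_ h2)
  exact (φ.le_opNorm _).trans_lt
    ((mul_le_of_le_one_left (norm_nonneg _) hφ).trans_lt hg)

theorem smallAt_nat (hI : I ⊆ C.S0) {J : Finset B} (hJ : J ⊆ I) {c c' : Finset B → Op W K}
    (hc : C.NatA K c c') (hn : ‖c J‖ ≤ 1) {y : C0 W K} (hy : C.SmallAt K I J (C0.ip y)) :
    C.SmallAt K I J (C0.ip (c' I y)) := by
  intro u hu ξ hξ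
  have hJ0 : J ⊆ C.S0 := hJ.trans hI
  have huI : u ∈ C.WJ I := ((C.mem_Mn hJ hI).1 hu).1
  have e1 := Nat.io hJ hI hc.1 (C.Tb_mem_HJ hI huI)
  have e2 : C.eJ K J * c J = c J * C.eJ K J := hc.1.comm hJ0 fun z => eJ_Rop hJ0 z
  have e3 : c I * (C.Lop K I (C.Tb u) * C.io K I J) * C.eJ K J =
      C.Lop K I (C.Tb u) * C.io K I J * C.eJ K J * c J := by
    rw [e1, mul_assoc _ (c J), ← e2, ← mul_assoc]
  have e4 := congrArg (fun F : Op W K => F ξ) e3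
  simp only [ContinuousLinearMap.mul_apply] at e4
  rw [C0.ip_comm, ← hc.2.2 I hI, C0.ip_comm, e4]
  exact hy u hu _ (cp2_apply_le hn hξ)

/-- `M y = ∑_k p_0^k y` (`sum_eta`), `p_0^k = ∑_j c_j p_{n+j}^k` (`rec_eta`); `c_j' y` is
supported modulo small vectors on `X^I F` (`deep_small`, `exists_fin`), `WD`, `norm_ip_self` -/
theorem cmpl_KK [Finite B] (hI : I ⊆ C.S0) (ih : ∀ J ⊂ I, C.Cmpl K J) {y : C0 W K}
    (hy : y ∈ C.KK K I) (h1 : ‖y‖ ≤ 1) (hs : ∀ J ⊂ I, C.SmallAt K I J (C0.ip y)) : ‖y‖ < 1 := by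
  obtain ⟨z0, hz0⟩ := C.exists_generic
  have hz : ∀ J ⊂ I, ∀ b ∈ I, b ∉ J → ∀ w : W, C.sr b (C.deg J (C.gr w z0)) ≠ 0 :=
    fun J hJ b hb hbJ w => hz0 J (hJ.subset.trans hI) b (hI hb) hbJ w
  obtain ⟨N, hN⟩ := deep_small hI ih
  obtain ⟨F, hF⟩ := C.exists_fin hI N
  have key : ∀ k : ℤ, ‖C0.ip y ((∑ w ∈ C.WF C.S0, C.eta K I (C.gr w z0) k) y)‖ < 1 := by
    intro k
    have hev : ∀ᶠ n : ℕ in atTop, ∀ f ∈ F, ∀ x, C.Fix I x → ‖C0.ip (C0.sg (C.tr x * f))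
        ((∑ w ∈ C.WF C.S0, C.phi K I (C.gr w z0) k n) y)‖ < 1 :=
      (eventually_all_finset F).2 fun f _ => WD hI hz k hy f one_pos
    obtain ⟨n, hn⟩ := eventually_atTop.1 hev
    obtain ⟨c, hc, hrec⟩ := C.rec_eta K z0 k n
    have e : ∑ w ∈ C.WF C.S0, C.eta K I (C.gr w z0) k = ∑ j ∈ Finset.range C.Mo,
        c j I * ∑ w ∈ C.WF C.S0, C.phi K I (C.gr w z0) k (n + j) := by
      simp only [Finset.mul_sum]
      rw [Finset.sum_comm]
      exact Finset.sum_congr rfl fun w hw =>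
        hrec w ((C.mem_WF (Finset.Subset.refl _)).1 hw) I hI
    rw [e, ContinuousLinearMap.sum_apply, map_sum]
    refine cp2_sum_lt _ _ fun j _ => ?_
    obtain ⟨c', hc', hn'⟩ := hc j
    obtain ⟨p', -, hp⟩ := C.nat1_psum K z0 k (n + j)
    have hv : ‖(∑ w ∈ C.WF C.S0, C.phi K I (C.gr w z0) k (n + j)) y‖ ≤ 1 :=
      cp2_apply_le (hp I hI).1 h1
    have hy' : ‖c' I y‖ ≤ 1 := cp2_apply_le (hn' I hI).2 h1
    rw [ContinuousLinearMap.mul_apply, C0.ip_comm, hc'.2.2 I hI]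
    refine cp2_ip_lt fun g => ?_
    rw [norm_mul]
    rcases le_or_gt N (C.lam I g) with hg | hg
    · have := hN _ (cp2_norm_ip hy') (fun J hJ => smallAt_nat hI hJ.subset hc'
        (hn' J (hJ.subset.trans hI)).1 (hs J hJ)) g hg
      rw [C0.ip_comm, C0.ip_sg] at this
      exact mul_lt_one_of_nonneg_of_lt_one_right ((C0.norm_co_le _ _).trans hv) (norm_nonneg _) this
    · obtain ⟨x, hx, f, hf, rfl⟩ := hF g hg
      have := hn (n + j) (Nat.le_add_right _ _) f hf x hx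
      rw [C0.ip_sg] at this
      exact mul_lt_one_of_nonneg_of_lt_one_left (norm_nonneg _) this
        ((C0.norm_co_le _ _).trans hy')
  choose k0 hk0 using fun w : W => sum_eta (K := K) hI (C.gr w z0)
  obtain ⟨k1, hk1⟩ := ((C.WF C.S0).image k0).bddAbove
  have e : ∑ k ∈ Finset.Icc (-k1) k1, ∑ w ∈ C.WF C.S0, C.eta K I (C.gr w z0) k =
      (C.Mo : K) • (1 : Op W K) := by
    rw [Finset.sum_comm, Finset.sum_congr rfl fun w hw =>
      hk0 w k1 (hk1 (Finset.mem_coe.2 (Finset.mem_image_of_mem k0 hw))), Finset.sum_const,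
      Nat.cast_smul_eq_nsmul]
    rfl
  have h2 := cp2_sum_lt (Finset.Icc (-k1) k1) _ fun k _ => key k
  rw [← map_sum, ← ContinuousLinearMap.sum_apply, e, ContinuousLinearMap.smul_apply, map_smul,
    norm_smul, ContinuousLinearMap.one_apply] at h2
  have hM : ‖(C.Mo : K)‖ = 1 := by
    have := norm_intK (K := K) (N := (C.Mo : ℤ))
      (Int.natCast_ne_zero.2 (C.card_WF_pos (Finset.Subset.refl _)).ne')
    rwa [Int.cast_natCast] at this
  rw [hM, one_mul] at h2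
  exact cp2_lt_of_ip h2

/-- replace `y` by `y - e y` -/
theorem cmpl_vec [Finite B] (hI : I ⊆ C.S0) (ih : ∀ J ⊂ I, C.Cmpl K J) {y : C0 W K}
    (h1 : ‖y‖ ≤ 1) (hs : ∀ J ⊆ I, C.SmallAt K I J (C0.ip y)) : ‖y‖ < 1 := by
  have hk : ‖y - C.eJ K I y‖ < 1 := by
    refine cmpl_KK hI ih ((eJ_spec hI).1 y) ((norm_sub_eJ hI y).trans h1)
      fun J hJ u hu ξ hξ => ?_
    have huI : u ∈ C.WJ I := ((C.mem_Mn hJ.subset hI).1 hu).1
    rw [map_sub, ContinuousLinearMap.sub_apply,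
      (eJ_spec hI).2 y _ (io_mem_KK hI hJ (C.Tb_mem_HJ hI huI) _), sub_zero]
    exact hs J hJ.subset u hu ξ hξ
  have he : ‖C.eJ K I y‖ < 1 := by
    have := hs I (Finset.Subset.refl _) 1 (C.one_mem_Mn (Finset.Subset.refl _) hI) y h1
    rw [C.Tb_one, C.Lop_one K hI, io_self hI, ContinuousLinearMap.one_apply,
      ContinuousLinearMap.one_apply] at this
    refine cp2_lt_of_ip ?_
    rw [eJ_adj hI, ← ContinuousLinearMap.mul_apply, eJ_idem hI]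
    exact this
  rw [← sub_add_cancel y (C.eJ K I y)]
  exact (IsUltrametricDist.norm_add_le_max _ _).trans_lt (max_lt hk he)

end HC

end Pool.Agent.P.MP_74db7f_al
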