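import Pool.Agent.P.MP_74db7f_al.F.S5

/-! E1: the discrete projection `e_J` (paper, section 5). -/

namespace Pool.Agent.P.MP_74db7f_al

open scoped Classical Topology
open Filter

namespace HC

variable {B W H : Type*} [Group W] {M : CoxeterMatrix B} {cs : CoxeterSystem M W} [Ring H]
  [Algebra Rq H] (C : HC cs H) (K : Type*) [NontriviallyNormedField K] [CompleteSpace K]
  [IsUltrametricDist K] [Algebra Rq K] [GoodK K]

variable {C K} {J : Finset B} (hJ : J ⊆ C.S0)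

theorem KK_closed : IsClosed (C.KK K J : Set (C0 W K)) := Submodule.isClosed_topologicalClosure _

theorem e1_gen {J' : Finset B} (h : J' ⊂ J) {u : W} (hu : u ∈ C.WJ J) (ξ : C0 W K) :
    C.Lop K J (C.Tb u) (C.eps K J J' ξ) ∈ C.KK K J :=
  Submodule.le_topologicalClosure _ (Submodule.subset_span ⟨J', h, u, hu, ξ, rfl⟩)

theorem e1_map (F : Op W K) (h : ∀ J' ⊂ J, ∀ u ∈ C.WJ J, ∀ ξ,
    F (C.Lop K J (C.Tb u) (C.eps K J J' ξ)) ∈ C.KK K J) {k : C0 W K} (hk : k ∈ C.KK K J) :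
    F k ∈ C.KK K J := by
  have : C.KK K J ≤ (C.KK K J).comap (F : C0 W K →ₗ[K] C0 W K) :=
    Submodule.topologicalClosure_minimal _ (Submodule.span_le.mpr (by
      rintro _ ⟨J', h1, u, hu, ξ, rfl⟩
      exact h J' h1 u hu ξ)) (KK_closed.preimage F.continuous)
  exact this hk

theorem e1_all (F : Op W K) (h : ∀ w, F (C0.sg w) ∈ C.KK K J) (ξ : C0 W K) :
    F ξ ∈ C.KK K J := by
  refine C0.induction (p := fun ξ => F ξ ∈ C.KK K J) (KK_closed.preimage F.continuous)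
    (fun g => ?_) ξ
  induction g using Finsupp.induction_linear with
  | zero => simp
  | add f g hf hg => rw [map_add, map_add]; exact add_mem hf hg
  | single w c => rw [C0.fs_single, map_smul]; exact Submodule.smul_mem _ _ (h w)

theorem e1_app {F G F' G' : Op W K} (h : F * G = F' * G') (ξ : C0 W K) :
    F (G ξ) = F' (G' ξ) := DFunLike.congr_fun h ξ

include hJ

theorem KK_Rop (h : H) {k : C0 W K} (hk : k ∈ C.KK K J) : C.Rop K J h k ∈ C.KK K J := by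
  refine e1_map _ (fun J' h1 u hu ξ => ?_) hk
  rw [← e1_app (C.Lop_Rop K hJ (C.Tb_mem_HJ hJ hu) h), ← e1_app (eps_Rop hJ h)]
  exact e1_gen h1 hu _

theorem e1_Lop {J' : Finset B} (h : J' ⊂ J) {a : H} (ha : a ∈ C.HJ J) (ξ : C0 W K) :
    C.Lop K J a (C.eps K J J' ξ) ∈ C.KK K J := by
  have hm := fun {a : H} => (C.mem_HJ_iff_left hJ (a := a)).mpr
  rw [C.mem_HJ_iff_left hJ] at ha
  induction ha using Submodule.span_induction with
  | mem t ht =>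
    obtain ⟨u, hu, x, rfl⟩ := ht
    rw [C.Lop_mul K hJ (C.Tb_mem_HJ hJ hu) (C.th_mem_HJ J x), mul_apply_eq_comp,
      ← e1_app (eps_Lop h.subset hJ (C.th_mem_HJ J' x))]
    exact e1_gen h hu _
  | zero =>
    have := C.Lop_smul K hJ 0 (zero_mem (C.HJ J))
    rw [zero_smul, map_zero, zero_smul] at this
    rw [this]
    exact zero_mem _
  | add x y hx hy h1 h2 =>
    rw [C.Lop_add K hJ (hm hx) (hm hy)]
    exact add_mem h1 h2
  | smul r x hx h1 =>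
    rw [C.Lop_smul K hJ r (hm hx)]
    exact Submodule.smul_mem _ _ h1

theorem KK_Lop {a : H} (ha : a ∈ C.HJ J) {k : C0 W K} (hk : k ∈ C.KK K J) :
    C.Lop K J a k ∈ C.KK K J := by
  refine e1_map _ (fun J' h1 u hu ξ => ?_) hk
  have hb := C.Tb_mem_HJ hJ hu
  rw [← mul_apply_eq_comp, ← C.Lop_mul K hJ ha hb]
  exact e1_Lop hJ h1 (mul_mem ha hb) ξ

theorem KK_PD (δ : Lat C.n) {k : C0 W K} (hk : k ∈ C.KK K J) : C.PD K J δ k ∈ C.KK K J := by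
  refine e1_map _ (fun J' h1 u hu ξ => ?_) hk
  rw [e1_app (C.PD_Lop_Tb K hJ δ hu), eps, e1_app (eta_PD hJ _ 0 δ)]
  exact e1_gen h1 hu _

theorem io_mem_KK {J' : Finset B} (h : J' ⊂ J) {a : H} (ha : a ∈ C.HJ J) (ξ : C0 W K) :
    C.Lop K J a (C.io K J J' ξ) ∈ C.KK K J := by
  rw [← eps_io h.subset hJ, mul_apply_eq_comp]
  exact e1_Lop hJ h ha _

theorem e1_Tb {u g : W} (hu : u ∈ C.WJ J) (hg : C.ADom J g) :
    C.Tb u * C.TJ J g = C.TJ J (u * g) :=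
  C.Tb_mul_TJ hJ hu (C.lenJ_add hJ hu fun _ h1 h2 => C.mu_adom hJ hg h1
    (by_contra fun h3 => h2 (C.pb_mem_Rp hJ (inv_mem hu) h1 h3)))

/-- (Deep): `AD.deep`, `exists_Mn`, `TJ_cmp`, `eps_tendsto` -/
theorem deep_approx {δ : ℝ} (hδ : 0 < δ) : ∃ N : ℤ, ∀ w, N ≤ C.lam J w → ∃ J' ⊂ J,
    ∃ u ∈ C.Mn J J', ∃ g, ‖C0.sg w - C.Lop K J (C.Tb u) (C.io K J J' (C0.sg g))‖ < δ := by
  have hQ : 0 < ‖qK K‖ ^ C.Nb := pow_pos (zero_lt_one.trans GoodK.one_lt) _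
  have hev : ∀ᶠ k : ℕ in atTop, ∀ b ∈ J, ‖C.Tht K J (C.z (J.erase b)) ^ k *
      (1 - C.eps K J (J.erase b))‖ < δ / ‖qK K‖ ^ C.Nb :=
    (eventually_all_finset J).mpr fun b _ =>
      (eps_tendsto (Finset.erase_subset b J) hJ).norm.eventually_lt_const
        (by rw [norm_zero]; positivity)
  obtain ⟨k, hk⟩ := hev.exists
  obtain ⟨N, hN⟩ := C.deep hJ k
  refine ⟨N, fun w hw => ?_⟩
  obtain ⟨b, hb, u, hu, g, hg, rfl⟩ := hN w hw
  have hs := Finset.erase_subset b J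
  have hs' := hs.trans hJ
  obtain ⟨u1, hu1, y, hy, rfl⟩ := C.exists_Mn hs hJ hu
  set x := (k : ℤ) • C.z (J.erase b) with hx
  have hg1 : C.ADom J (C.tr x * g) := C.adom_tr (fun j hj => by
    rw [hx, map_zsmul]
    exact mul_nonneg (Int.natCast_nonneg k) (C.dom_z _ j (hJ hj))) hg
  have e1 : C.TJ (J.erase b) (C.tr x * g) = C.th x * C.TJ J g := by
    rw [C.TJ_cmp hs hJ hg, C.th_mul_TJ hs' fun j hj => by
      rw [hx, map_zsmul, C.fix_z hs' j hj, smul_zero]]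
  have hy' := C.Tb_mem_HJ hs' hy
  have hth := C.th_mem_HJ J x
  have e2 : (C0.sg (u1 * y * (C.tr x * g)) : C0 W K) =
      C.Lop K J (C.Tb (u1 * y)) (C.Tht K J x (C0.sg g)) := by
    rw [← C.kap_TJ K J, ← e1_Tb hJ hu hg1, C.TJ_cmp hs hJ hg1, e1, ← C.kap_TJ K J g, Tht,
      C.Lop_kap K hJ hth, C.Lop_kap K hJ (C.Tb_mem_HJ hJ hu)]
  have e3 : C.Lop K J (C.Tb u1) (C.io K J (J.erase b) (C0.sg (y * (C.tr x * g)))) =
      C.Lop K J (C.Tb (u1 * y)) (C.Tht K J x (C.eps K J (J.erase b) (C0.sg g))) := by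
    rw [← C.kap_TJ K (J.erase b), io_kap hs hJ, ← e1_Tb hs' hy fun j hj => hg1 j (hs hj), e1,
      ← C.Lop_kap K hJ (C.HJ_mono hs hy'), ← C.Lop_kap K hJ hth, C.kap_TJ,
      e1_app (eps_Lop hs hJ hy'), e1_app (eps_Lop hs hJ (C.th_mem_HJ _ x)),
      ← C.Tb_mul (C.length_Mn hs hJ hu1 hy), C.Lop_mul K hJ
        (C.Tb_mem_HJ hJ ((C.mem_Mn hs hJ).mp hu1).1) (C.HJ_mono hs hy')]
    rfl
  refine ⟨_, Finset.erase_ssubset hb, u1, hu1, y * (C.tr x * g), ?_⟩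
  have e4 : C.Tht K J x (C0.sg g) - C.Tht K J x (C.eps K J (J.erase b) (C0.sg g)) =
      (C.Tht K J (C.z (J.erase b)) ^ k * (1 - C.eps K J (J.erase b))) (C0.sg g) := by
    rw [hx, C.Tht_nsmul K hJ, ← map_sub]
    rfl
  rw [e2, e3, ← map_sub, e4]
  refine (ContinuousLinearMap.le_opNorm _ _).trans_lt ?_
  refine (mul_le_mul (C.norm_Lop_Tb K hJ hu) (ContinuousLinearMap.le_opNorm _ _) (norm_nonneg _)
    hQ.le).trans_lt ?_
  rw [C0.norm_sg, mul_one, ← lt_div_iff₀' hQ]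
  exact hk b hb

theorem e1_orth (δ : Lat C.n) :
    (∀ ξ, ∃ k ∈ (C.KK K J).comap (C.PD K J δ : C0 W K →ₗ[K] C0 W K),
      ∀ k' ∈ (C.KK K J).comap (C.PD K J δ : C0 W K →ₗ[K] C0 W K), C0.ip (ξ - k) k' = 0) ∧
    ∃ U : Submodule K (C0 W K), FiniteDimensional K U ∧
      ∀ y, (∀ k ∈ (C.KK K J).comap (C.PD K J δ : C0 W K →ₗ[K] C0 W K), C0.ip y k = 0) → y ∈ U := by
  refine C0.exists_orth _ (KK_closed.preimage (C.PD K J δ).continuous) fun ε hε => ?_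
  obtain ⟨N, hN⟩ := deep_approx (K := K) hJ hε
  filter_upwards [(C.finite_lam_deg hJ N δ).compl_mem_cofinite] with w hw
  by_cases h : C.degW J w = δ
  · obtain ⟨J', h1, u, hu, g, h2⟩ := hN w (not_lt.mp fun h' => hw ⟨h', h⟩)
    exact ⟨_, KK_PD hJ δ (io_mem_KK hJ h1
      (C.Tb_mem_HJ hJ ((C.mem_Mn h1.subset hJ).mp hu).1) _), h2⟩
  · refine ⟨C0.sg w, ?_, by simpa using hε⟩
    change C.PD K J δ (C0.sg w) ∈ C.KK K J
    rw [PD_sg, if_neg h]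
    exact zero_mem _

/-- `exists_orth` for `{ξ | PD 0 ξ ∈ KK}` decomposes `kap 1`; extend by right multiplication -/
theorem eJ_spec : (∀ ξ, ξ - C.eJ K J ξ ∈ C.KK K J) ∧
    ∀ ξ, ∀ k ∈ C.KK K J, C0.ip (C.eJ K J ξ) k = 0 := by
  refine Classical.epsilon_spec (p := fun e : Op W K => (∀ ξ, ξ - e ξ ∈ C.KK K J) ∧
    ∀ ξ, ∀ k ∈ C.KK K J, C0.ip (e ξ) k = 0) ?_
  obtain ⟨k, hk, hy⟩ := (e1_orth (K := K) hJ 0).1 (C0.sg 1)
  have h1 : C.PD K J 0 (C0.sg 1 - k) = C0.sg 1 - k := C0.ext fun w => by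
    rw [co_PD]
    split_ifs with h
    · rfl
    · rw [← C0.ip_sg, C0.ip_comm]
      refine (hy _ ?_).symm
      change C.PD K J 0 (C0.sg w) ∈ C.KK K J
      rw [PD_sg, if_neg h]
      exact zero_mem _
  have h2 : k ∈ C.KK K J := by
    rw [map_sub, PD_sg, if_pos (C.degW_W0 J (one_mem _)), sub_right_inj] at h1
    exact h1 ▸ hk
  have h3 : ∀ h, ∀ k' ∈ C.KK K J, C0.ip (C.Rop K J h (C0.sg 1 - k)) k' = 0 := fun h k' hk' => by
    rw [C.Rop_adj K J h]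
    exact hy _ (KK_PD hJ 0 (KK_Rop hJ _ hk'))
  have h4 : ∀ w, C.Rop K J (C.TJ J w) (C0.sg 1 - k) + C.Rop K J (C.TJ J w) k = C0.sg w :=
    fun w => by rw [← map_add, sub_add_cancel, ← C.kap_one K J, Rop_kap, one_mul, kap_TJ]
  have h5 := C0.lift_sg (K := K) (y := fun w => C.Rop K J (C.TJ J w) (C0.sg 1 - k))
    ⟨1, fun w => (C0.norm_le_of_orth (h3 _ _ (KK_Rop hJ (C.TJ J w) h2))).trans_eq (by
      rw [h4, C0.norm_sg])⟩
  generalize (C0.lift fun w => C.Rop K J (C.TJ J w) (C0.sg 1 - k) : Op W K) = e at h5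
  refine ⟨e, e1_all (1 - e) fun w => ?_, fun ξ k' hk' => ?_⟩
  · rw [sub_apply, h5, ContinuousLinearMap.one_def, ContinuousLinearMap.id_apply,
      ← h4 w, add_sub_cancel_left]
    exact KK_Rop hJ _ h2
  · rw [C0.ip_comm]
    exact DFunLike.congr_fun (C0.clm_ext (F := (C0.ip k').comp e) (G := 0) fun w => by
      rw [ContinuousLinearMap.comp_apply, h5, C0.ip_comm, h3 _ _ hk', zero_apply]) ξ

theorem eJ_KK {k : C0 W K} (hk : k ∈ C.KK K J) : C.eJ K J k = 0 := by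
  refine C0.eq_zero_of_ip_self ((eJ_spec hJ).2 _ _ ?_)
  simpa using sub_mem hk ((eJ_spec hJ).1 k)

theorem eJ_of_orth {y : C0 W K} (hy : ∀ k ∈ C.KK K J, C0.ip y k = 0) : C.eJ K J y = y := by
  have h := (eJ_spec (K := K) hJ).1 y
  refine (sub_eq_zero.mp (C0.eq_zero_of_ip_self ?_)).symm
  rw [map_sub C0.ip, sub_apply, hy _ h, (eJ_spec hJ).2 _ _ h, sub_zero]

theorem eJ_idem : C.eJ K J * C.eJ K J = C.eJ K J :=
  ContinuousLinearMap.ext fun ξ => eJ_of_orth hJ ((eJ_spec hJ).2 ξ)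

theorem eJ_adj : C0.IsAdj (C.eJ K J) (C.eJ K J) := fun ξ η => by
  have h1 := (eJ_spec hJ).2 ξ _ ((eJ_spec hJ).1 η)
  have h2 := (eJ_spec hJ).2 η _ ((eJ_spec hJ).1 ξ)
  rw [map_sub, sub_eq_zero] at h1 h2
  rw [h1, C0.ip_comm ξ, h2, C0.ip_comm]

theorem norm_eJ : ‖C.eJ K J‖ ≤ 1 :=
  ContinuousLinearMap.opNorm_le_bound _ zero_le_one fun ξ => by
    simpa using C0.norm_le_of_orth ((eJ_spec hJ).2 ξ _ ((eJ_spec hJ).1 ξ))

theorem norm_sub_eJ (ξ : C0 W K) : ‖ξ - C.eJ K J ξ‖ ≤ ‖ξ‖ := by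
  simpa using C0.norm_le_of_orth
    ((C0.ip_comm _ _).trans ((eJ_spec hJ).2 ξ _ ((eJ_spec hJ).1 ξ)))

theorem e1_comm {F F' : Op W K} (h : C0.IsAdj F F') (h1 : ∀ k ∈ C.KK K J, F k ∈ C.KK K J)
    (h2 : ∀ k ∈ C.KK K J, F' k ∈ C.KK K J) : C.eJ K J * F = F * C.eJ K J :=
  ContinuousLinearMap.ext fun ξ => by
    have a := eJ_KK hJ (h1 _ ((eJ_spec hJ).1 ξ))
    rw [map_sub, map_sub, sub_eq_zero] at a
    exact a.trans (eJ_of_orth hJ fun k hk => (h _ _).trans ((eJ_spec hJ).2 ξ _ (h2 k hk)))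

theorem eJ_Rop (h : H) : C.eJ K J * C.Rop K J h = C.Rop K J h * C.eJ K J :=
  e1_comm hJ (C.Rop_adj K J h) (fun _ => KK_Rop hJ _) fun _ => KK_Rop hJ _

theorem eJ_Lop {a : H} (ha : a ∈ C.HJ J) : C.eJ K J * C.Lop K J a = C.Lop K J a * C.eJ K J :=
  e1_comm hJ (C.Lop_adj K hJ ha) (fun _ => KK_Lop hJ ha) fun _ => KK_Lop hJ (C.adj_mem hJ a)

theorem eJ_PD {I : Finset B} (hJI : J ⊆ I) (hI : I ⊆ C.S0) (δ : Lat C.n) :
    C.eJ K J * C.PD K I δ = C.PD K I δ * C.eJ K J := by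
  refine C0.clm_ext fun w => ?_
  have h := e1_app (e1_comm hJ (C.PD_adj K (C.degW J w)) (fun _ => KK_PD hJ _)
    fun _ => KK_PD hJ _) (C0.sg w)
  rw [PD_sg, if_pos rfl] at h
  rw [mul_apply_eq_comp, mul_apply_eq_comp, PD_sg]
  refine C0.ext fun v => ?_
  rw [co_PD]
  by_cases hv : C.degW J v = C.degW J w
  · have : C.degW I v = C.degW I w := by
      rw [← sub_eq_zero] at hv ⊢
      exact (map_sub _ _ _).symm.trans (C.deg_mono hJI hI ((map_sub _ _ _).trans hv))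
    rw [this]
    split_ifs
    · rfl
    · rw [map_zero]; rfl
  · have : (C.eJ K J (C0.sg w)).co v = 0 := by rw [h, co_PD, if_neg hv]
    split_ifs
    · rfl
    · exact this
    · rw [map_zero, this]; rfl
    · rw [map_zero]; rfl

theorem eJ_small {δ : ℝ} (hδ : 0 < δ) :
    ∃ N : ℤ, ∀ w, N ≤ C.lam J w → ‖C.eJ K J (C0.sg w)‖ < δ := by
  obtain ⟨N, hN⟩ := deep_approx (K := K) hJ hδ
  refine ⟨N, fun w hw => ?_⟩
  obtain ⟨J', h1, u, hu, g, h2⟩ := hN w hw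
  have h3 := eJ_KK hJ (io_mem_KK hJ h1 (C.Tb_mem_HJ hJ ((C.mem_Mn h1.subset hJ).mp hu).1)
    (C0.sg g : C0 W K))
  rw [← sub_zero (C.eJ K J _), ← h3, ← map_sub]
  exact ((C.eJ K J).le_of_opNorm_le (norm_eJ hJ) _).trans_lt (by rwa [one_mul])

theorem eJ_findim (δ : Lat C.n) : ∃ U : Submodule K (C0 W K), FiniteDimensional K U ∧
    ∀ y, y ∈ U ↔ C.eJ K J y = y ∧ C.PD K J δ y = y := by
  obtain ⟨U, hU, h⟩ := (e1_orth (K := K) hJ δ).2
  refine ⟨LinearMap.eqLocus (C.eJ K J : C0 W K →ₗ[K] C0 W K) LinearMap.id ⊓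
    LinearMap.eqLocus (C.PD K J δ : C0 W K →ₗ[K] C0 W K) LinearMap.id,
    Submodule.finiteDimensional_of_le (S₂ := U) fun y hy => h y fun k hk => ?_, fun y => Iff.rfl⟩
  have h1 : C.eJ K J y = y := hy.1
  have h2 : C.PD K J δ y = y := hy.2
  rw [← h2, C.PD_adj K δ, ← h1]
  exact (eJ_spec hJ).2 _ _ hk

theorem eJ_tendsto {J' : Finset B} (h : J' ⊂ J) :
    Tendsto (fun k : ℕ => C.Tht K J (C.z J') ^ k * C.eJ K J) atTop (𝓝 0) := by
  have h0 : C.eJ K J * C.eps K J J' = 0 := ContinuousLinearMap.ext fun ξ => eJ_KK hJ (by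
    simpa [C.Lop_one K hJ] using e1_Lop hJ h (one_mem _) ξ)
  have hc : Commute (C.eJ K J) (C.Tht K J (C.z J')) := eJ_Lop hJ (C.th_mem_HJ J _)
  have := (eps_tendsto (K := K) h.subset hJ).const_mul (C.eJ K J)
  rw [mul_zero] at this
  refine this.congr fun k => ?_
  rw [← mul_assoc, (hc.pow_right k).eq, mul_assoc, mul_sub, h0, mul_one, sub_zero]

end HC

end Pool.Agent.P.MP_74db7f_al
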