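import Pool.Agent.P.MP_74db7f_al.F.E1

/-! E2: the weights of the discrete part are algebraic (paper, section 5). -/

namespace Pool.Agent.P.MP_74db7f_al

open scoped Classical Topology
open Filter

theorem e2_aeval_mem {R A : Type*} [CommSemiring R] [Semiring A] [Algebra R A]
    (S : Subalgebra R A) {a : A} (ha : a ∈ S) (P : Polynomial R) : P.aeval a ∈ S :=
  (Algebra.adjoin_le (Set.singleton_subset_iff.2 ha) : Algebra.adjoin R {a} ≤ S)
    (Polynomial.aeval_mem_adjoin_singleton R a)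

theorem e2_aeval_comm {R A : Type*} [CommSemiring R] [Semiring A] [Algebra R A] {a b : A}
    (h : b * a = a * b) (P : Polynomial R) : b * P.aeval a = P.aeval a * b := by
  have h1 : a ∈ Subalgebra.centralizer R ({b} : Set A) := by
    rw [Subalgebra.mem_centralizer_iff]
    rintro g rfl
    exact h
  have h2 := e2_aeval_mem _ h1 P
  rw [Subalgebra.mem_centralizer_iff] at h2
  exact h2 b rfl

theorem e2_finite {Q a b : ℝ} (hQ : 1 < Q) :
    {k : ℤ | Q ^ (2 * k) ≤ a ∧ Q ^ (-(2 * k)) ≤ b}.Finite := by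
  obtain ⟨n, hn⟩ := pow_unbounded_of_one_lt (max a b) hQ
  refine (Set.finite_Icc (-(n : ℤ)) n).subset ?_
  rintro k ⟨h1, h2⟩
  have h3 : Q ^ (2 * k) < Q ^ (n : ℤ) := by
    rw [zpow_natCast]
    exact (h1.trans (le_max_left _ _)).trans_lt hn
  have h4 : Q ^ (-(2 * k)) < Q ^ (n : ℤ) := by
    rw [zpow_natCast]
    exact (h2.trans (le_max_right _ _)).trans_lt hn
  rw [zpow_lt_zpow_iff_right₀ hQ] at h3 h4
  constructor <;> omega

namespace HC

variable {B W H : Type*} [Group W] {M : CoxeterMatrix B} {cs : CoxeterSystem M W} [Ring H]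
  [Algebra Rq H] (C : HC cs H) (K : Type*) [NontriviallyNormedField K] [CompleteSpace K]
  [IsUltrametricDist K] [Algebra Rq K] [GoodK K]

variable {C K} {J : Finset B} (hJ : J ⊆ C.S0)

theorem Fpol_mem (s : Finset ℤ) (N : ℕ) (x : Lat C.n) : C.Fpol s N x ∈ C.HJ J :=
  e2_aeval_mem _ (C.th_mem_HJ J _) _

include hJ

theorem e2_Lop_aeval (P : Polynomial Rq) (y : Lat C.n) : C.Lop K J (P.aeval (C.th y)) =
    (P.map (algebraMap Rq K)).aeval (C.Tht K J y) := by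
  obtain ⟨Λ, h1, h2⟩ := C.exists_Lhom K hJ
  have e1 : P.aeval (C.th y) =
      ((P.aeval (⟨C.th y, C.th_mem_HJ J y⟩ : C.HJ J) : C.HJ J) : H) :=
    (Polynomial.aeval_algHom_apply (C.HJ J).val (⟨C.th y, C.th_mem_HJ J y⟩ : C.HJ J) P)
  rw [e1, ← h1, Polynomial.aeval_def, Polynomial.hom_eval₂, Polynomial.aeval_def,
    Polynomial.eval₂_map, h1]
  congr 1
  ext r
  · simp
  · simp [h2]

theorem Lop_Fpol (s : Finset ℤ) (N : ℕ) (x : Lat C.n) : C.Lop K J (C.Fpol s N x) =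
    (∏ k ∈ s, (Polynomial.X - Polynomial.C (qK K ^ (2 * k))) ^ N).aeval
      (C.Tht K J ((2 * C.Mo : ℤ) • x)) := by
  rw [Fpol, e2_Lop_aeval hJ, Polynomial.map_prod]
  simp only [Polynomial.map_pow, Polynomial.map_sub, Polynomial.map_X, Polynomial.map_C,
    algebraMap_T]

theorem disc_pt (p : Pt (C.AJ K J (C.eJ K J))) (hp : p.p (C.eJ K J) = 1) {x : Lat C.n}
    (hx : C.Dom J x) (h0 : C.deg J x = 0) (hne : x ≠ 0) : p.p (C.Tht K J x) < 1 := by
  have he : ∀ a ∈ C.HJ J, C.eJ K J * C.Lop K J a = C.Lop K J a * C.eJ K J :=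
    fun a ha => eJ_Lop hJ ha
  obtain ⟨b, hb, hbx⟩ : ∃ b ∈ J, 0 < C.sr b x := by
    by_contra hc
    push Not at hc
    exact hne (C.eq_zero_of_fix_deg hJ (fun j hj => le_antisymm (hc j hj) (hx j hj)) h0)
  have hlt : p.p (C.Tht K J (C.z (J.erase b))) < 1 := by
    by_contra hc
    push Not at hc
    have ht := (eJ_tendsto (K := K) hJ (Finset.erase_ssubset hb)).norm
    rw [norm_zero] at ht
    obtain ⟨k, hk⟩ := (ht.eventually (gt_mem_nhds one_pos)).exists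
    have hm : C.Tht K J (C.z (J.erase b)) ^ k ∈ C.AJ K J (C.eJ K J) := pow_mem (Tht_mem _) k
    have h1 := p.le _ (mul_mem hm e_mem)
    rw [p.mul _ hm _ e_mem, hp, mul_one, p.pow (Tht_mem _)] at h1
    exact absurd ((one_le_pow₀ hc).trans h1) (not_le.2 hk)
  have hd : C.Dom J (C.m • x - C.z (J.erase b)) := by
    intro j hj
    have hm := C.m_pos
    rw [map_sub, map_smul, smul_eq_mul]
    by_cases e : j = b
    · subst e
      rw [C.sr_z_not (hJ hj) (Finset.notMem_erase j J)]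
      nlinarith
    · rw [C.sr_z_mem (hJ hj) (Finset.mem_erase.2 ⟨e, hj⟩), sub_zero]
      exact mul_nonneg hm.le (hx j hj)
  have h1 := pt_add hJ he p (C.m • x - C.z (J.erase b)) (C.z (J.erase b))
  rw [sub_add_cancel, pt_zsmul hJ he] at h1
  have h2 := pt_dom hJ he p hd
  have h3 := pt_pos hJ he p (C.z (J.erase b))
  by_contra hc
  push Not at hc
  have h4 := one_le_zpow₀ hc C.m_pos.le
  nlinarith

omit hJ in
theorem e2_pt_val (p : Pt (C.AJ K J (C.eJ K J))) {y : Lat C.n} {k : ℤ}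
    (h : p.p (C.Tht K J y - algebraMap K _ (qK K ^ k)) = 0) :
    p.p (C.Tht K J y) = ‖qK K‖ ^ k := by
  rw [p.eq_of_sub (Tht_mem _) (Subalgebra.algebraMap_mem _ _) h, p.algebraMap, norm_zpow]

theorem e2_main {x : Lat C.n} (h0 : C.deg J x = 0) : ∃ (s : Finset ℤ) (N : ℕ),
    (∀ k ∈ s, ∃ p : Pt (C.AJ K J (C.eJ K J)), p.p (C.eJ K J) = 1 ∧
      p.p (C.Tht K J ((2 * C.Mo : ℤ) • x)) = ‖qK K‖ ^ (2 * k)) ∧
    C.Lop K J (C.Fpol s N x) * C.eJ K J = 0 := by
  have he : ∀ a ∈ C.HJ J, C.eJ K J * C.Lop K J a = C.Lop K J a * C.eJ K J :=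
    fun a ha => eJ_Lop hJ ha
  have hS := spec_AJ (K := K) hJ he
  set y : Lat C.n := (2 * C.Mo : ℤ) • x with hy
  have hfin : {k : ℤ | ∃ p : Pt (C.AJ K J (C.eJ K J)), p.p (C.eJ K J) = 1 ∧
      p.p (C.Tht K J y) = ‖qK K‖ ^ (2 * k)}.Finite := by
    refine (e2_finite (a := ‖C.Tht K J y‖) (b := ‖C.Tht K J (-y)‖)
      (GoodK.one_lt (K := K))).subset ?_
    rintro k ⟨p, -, hk⟩
    refine ⟨hk ▸ p.le _ (Tht_mem _), ?_⟩
    have h1 := pt_zsmul hJ he p (-1) y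
    rw [neg_one_smul, hk, ← zpow_mul, mul_neg_one] at h1
    exact h1 ▸ p.le _ (Tht_mem _)
  set s := hfin.toFinset with hs
  set F : Op W K := (∏ k ∈ s, (Polynomial.X - Polynomial.C (qK K ^ (2 * k)))).aeval
    (C.Tht K J y) with hF
  have hFm : F ∈ C.AJ K J (C.eJ K J) := e2_aeval_mem _ (Tht_mem _) _
  have hc : ∀ p : Pt (C.AJ K J (C.eJ K J)), p.p (F * C.eJ K J) ≤ 0 := by
    intro p
    rw [p.mul _ hFm _ e_mem]
    rcases p.idem e_mem (eJ_idem hJ) with h | h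
    · rw [h, mul_zero]
    · obtain ⟨k, hk⟩ := pt_disc hJ he (fun p' hp' x hx h0 hne => disc_pt hJ p' hp' hx h0 hne)
        p h h0
      have hks : k ∈ s := hfin.mem_toFinset.2 ⟨p, h, e2_pt_val p hk⟩
      rw [hF, ← Finset.mul_prod_erase _ _ hks, map_mul, map_sub, Polynomial.aeval_X,
        Polynomial.aeval_C, p.mul _ (sub_mem (Tht_mem _) (Subalgebra.algebraMap_mem _ _)) _
          (e2_aeval_mem _ (Tht_mem _) _), hk, zero_mul, zero_mul]
  obtain ⟨U, hU, hUm⟩ := eJ_findim (K := K) hJ 0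
  have hFe : C.eJ K J * F = F * C.eJ K J := hS.comm _ e_mem _ hFm
  have heP := eJ_PD (K := K) hJ le_rfl hJ 0
  have hFP : C.PD K J 0 * F = F * C.PD K J 0 := by
    refine e2_aeval_comm ?_ _
    have h1 := C.PD_Tht K hJ 0 y
    rwa [hy, map_smul, h0, smul_zero, add_zero, ← hy] at h1
  have hcU : ∀ v ∈ U, (F * C.eJ K J) v ∈ U := by
    intro v hv
    obtain ⟨h1, h2⟩ := (hUm v).1 hv
    have h3 : (F * C.eJ K J) v = F v := by rw [mul_apply_eq_comp, h1]
    rw [h3, hUm]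
    constructor
    · rw [← mul_apply_eq_comp, hFe, h3]
    · rw [← mul_apply_eq_comp, hFP, mul_apply_eq_comp, h2]
  obtain ⟨N, hN⟩ := C0.nilpotent_of_small hcU
    fun r hr => hS.pow_le (mul_mem hFm e_mem) hc hr
  refine ⟨s, N, fun k hk => hfin.mem_toFinset.1 hk, ?_⟩
  have h1 : C.Lop K J (C.Fpol s N x) = F ^ N := by
    rw [Lop_Fpol hJ, Finset.prod_pow, map_pow]
  have h2 : ∀ n : ℕ, (F * C.eJ K J) ^ n * C.eJ K J = F ^ n * C.eJ K J := by
    intro n
    induction n with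
    | zero => rw [pow_zero, pow_zero]
    | succ n ih =>
      rw [pow_succ', mul_assoc, ih, mul_assoc, ← mul_assoc (C.eJ K J),
        (Commute.pow_right (hFe : Commute _ _) n).eq, mul_assoc, eJ_idem hJ, ← mul_assoc,
        ← pow_succ']
  have h3 : C.eJ K J (C.kap K J 1) ∈ U := by
    rw [hUm]
    constructor
    · rw [← mul_apply_eq_comp, eJ_idem hJ]
    · rw [← mul_apply_eq_comp, ← heP, mul_apply_eq_comp, kap_one,
        PD_sg, if_pos (C.degW_W0 J (one_mem _))]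
  refine ext_one C (J := J) (J' := J) (fun h => ?_) (fun h => by rw [zero_mul, mul_zero]) ?_
  · rw [mul_assoc, eJ_Rop hJ, ← mul_assoc, C.Lop_Rop K hJ (Fpol_mem s N x), mul_assoc]
  · rw [h1, ← h2, mul_apply_eq_comp, hN _ h3, zero_apply]

/-- `pt_disc`, `Spec.pow_le`, `nilpotent_of_small` on `eJ_findim 0`, `ext_one` -/
theorem Fpol_kill {x : Lat C.n} (h0 : C.deg J x = 0) :
    ∃ (s : Finset ℤ) (N : ℕ), C.Lop K J (C.Fpol s N x) * C.eJ K J = 0 := by
  obtain ⟨s, N, -, h⟩ := e2_main (K := K) hJ h0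
  exact ⟨s, N, h⟩

theorem Fpol_kill_neg {x : Lat C.n} (hx : C.Dom J x) (h0 : C.deg J x = 0) (hne : x ≠ 0) :
    ∃ (s : Finset ℤ) (N : ℕ), (∀ k ∈ s, k < 0) ∧ C.Lop K J (C.Fpol s N x) * C.eJ K J = 0 := by
  have he : ∀ a ∈ C.HJ J, C.eJ K J * C.Lop K J a = C.Lop K J a * C.eJ K J :=
    fun a ha => eJ_Lop hJ ha
  obtain ⟨s, N, hs, h⟩ := e2_main (K := K) hJ h0
  refine ⟨s, N, fun k hk => ?_, h⟩
  obtain ⟨p, hp, hk⟩ := hs k hk
  have h1 := disc_pt hJ p hp hx h0 hne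
  have h2 := pt_pos hJ he p x
  have h3 : (0 : ℤ) < 2 * C.Mo := by
    have := C.Mo_pos
    omega
  have h4 := zpow_lt_one₀ h2 h1 h3
  rw [← pt_zsmul hJ he, hk, zpow_lt_one_iff_right₀ (GoodK.one_lt (K := K))] at h4
  omega

end HC

end Pool.Agent.P.MP_74db7f_al
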