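import Pool.Agent.P.MP_74db7f_al.F.E2

/-! E3: reduction modulo the polynomials `F`; finiteness over `ℤ[q,q⁻¹]` (paper, section 5). -/

namespace Pool.Agent.P.MP_74db7f_al

open scoped Classical Topology
open Filter

namespace HC

variable {B W H : Type*} [Group W] {M : CoxeterMatrix B} {cs : CoxeterSystem M W} [Ring H]
  [Algebra Rq H] (C : HC cs H) (K : Type*) [NontriviallyNormedField K] [CompleteSpace K]
  [IsUltrametricDist K] [Algebra Rq K] [GoodK K]

/-- all coefficients have degree at most `n` -/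
def e3_Cf (n : ℤ) (f : Polynomial Rq) : Prop := ∀ i, f.coeff i ∈ dR n

theorem e3_one_mem : (1 : Rq) ∈ dR 0 := by
  simpa using T_mem_dR (m := 0) (n := 0) le_rfl

theorem e3_Cf_mono {m n : ℤ} (h : m ≤ n) {f : Polynomial Rq} (hf : e3_Cf m f) : e3_Cf n f :=
  fun i => dR_mono h (hf i)

theorem e3_Cf_add {n : ℤ} {f g : Polynomial Rq} (hf : e3_Cf n f) (hg : e3_Cf n g) :
    e3_Cf n (f + g) := fun i => by
  rw [Polynomial.coeff_add]
  exact add_mem (hf i) (hg i)

theorem e3_Cf_sub {n : ℤ} {f g : Polynomial Rq} (hf : e3_Cf n f) (hg : e3_Cf n g) :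
    e3_Cf n (f - g) := fun i => by
  rw [Polynomial.coeff_sub]
  exact sub_mem (hf i) (hg i)

theorem e3_Cf_neg {n : ℤ} {f : Polynomial Rq} (hf : e3_Cf n f) : e3_Cf n (-f) := fun i => by
  rw [Polynomial.coeff_neg]
  exact neg_mem (hf i)

theorem e3_Cf_mul {m n : ℤ} {f g : Polynomial Rq} (hf : e3_Cf m f) (hg : e3_Cf n g) :
    e3_Cf (m + n) (f * g) := fun i => by
  rw [Polynomial.coeff_mul]
  exact sum_mem fun x _ => mul_mem_dR (hf _) (hg _)

theorem e3_Cf_X_pow (k : ℕ) : e3_Cf 0 (Polynomial.X ^ k) := fun i => by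
  rw [Polynomial.coeff_X_pow]
  split_ifs
  · exact e3_one_mem
  · exact zero_mem _

theorem e3_Cf_C {n : ℤ} {r : Rq} (hr : r ∈ dR n) : e3_Cf n (Polynomial.C r) := fun i => by
  rw [Polynomial.coeff_C]
  split_ifs
  · exact hr
  · exact zero_mem _

theorem e3_low {P : Polynomial Rq} (hP : P.Monic)
    (hc : ∀ i < P.natDegree, P.coeff i ∈ dR (-1)) :
    e3_Cf (-1) (P - Polynomial.X ^ P.natDegree) := fun i => by
  rw [Polynomial.coeff_sub, Polynomial.coeff_X_pow]
  rcases lt_trichotomy i P.natDegree with h | h | h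
  · rw [if_neg h.ne, sub_zero]
    exact hc i h
  · rw [if_pos h, h, hP.coeff_natDegree, sub_self]
    exact zero_mem _
  · rw [if_neg h.ne', Polynomial.coeff_eq_zero_of_natDegree_lt h, sub_zero]
    exact zero_mem _

theorem e3_red {P : Polynomial Rq} (hP : P.Monic) (h0 : e3_Cf 0 P) {n : ℤ} (N : ℕ) :
    ∀ f : Polynomial Rq, f.degree < N → e3_Cf n f →
      ∃ Q r : Polynomial Rq, f = P * Q + r ∧ r.degree < P.degree ∧ e3_Cf n r := by
  induction N with
  | zero =>
    intro f hf hc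
    have : f = 0 := by
      by_contra h
      rw [Polynomial.degree_eq_natDegree h] at hf
      exact absurd hf (by simp)
    refine ⟨0, 0, by simp [this], ?_, fun i => by simp⟩
    rw [Polynomial.degree_zero, Polynomial.degree_eq_natDegree hP.ne_zero]
    exact WithBot.bot_lt_coe _
  | succ N ih =>
    intro f hf hc
    by_cases hN : N < P.natDegree
    · refine ⟨0, f, by simp, ?_, hc⟩
      rw [Polynomial.degree_eq_natDegree hP.ne_zero]
      exact lt_of_lt_of_le hf (by exact_mod_cast hN)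
    · have hN' : P.natDegree ≤ N := not_lt.1 hN
      let g : Polynomial Rq := Polynomial.C (f.coeff N) * Polynomial.X ^ (N - P.natDegree)
      have hg : e3_Cf n g := by
        simpa using e3_Cf_mul (e3_Cf_C (hc N)) (e3_Cf_X_pow (N - P.natDegree))
      have hd : (f - P * g).degree < N := by
        rw [Polynomial.degree_lt_iff_coeff_zero]
        intro m hm
        have hm : N ≤ m := by exact_mod_cast hm
        rw [Polynomial.coeff_sub]
        have e : (P * g).coeff m = f.coeff N * P.coeff (m - (N - P.natDegree)) := by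
          have : P * g = Polynomial.C (f.coeff N) * (P * Polynomial.X ^ (N - P.natDegree)) := by
            simp only [g]; ring
          rw [this, Polynomial.coeff_C_mul, Polynomial.coeff_mul_X_pow', if_pos (by omega)]
        rw [e]
        rcases eq_or_lt_of_le hm with h | h
        · subst h
          rw [show N - (N - P.natDegree) = P.natDegree by omega, hP.coeff_natDegree, mul_one,
            sub_self]
        · rw [Polynomial.coeff_eq_zero_of_natDegree_lt (p := P) (by omega), mul_zero, sub_zero]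
          exact Polynomial.coeff_eq_zero_of_degree_lt (lt_of_lt_of_le hf (by exact_mod_cast h))
      obtain ⟨Q, r, e, h1, h2⟩ := ih _ hd (e3_Cf_sub hc (by simpa using e3_Cf_mul h0 hg))
      exact ⟨Q + g, r, by rw [mul_add]; linear_combination e, h1, h2⟩

/-- remainders of `X^k` modulo a monic polynomial with small lower coefficients -/
theorem exists_rem (P : Polynomial Rq) (hP : P.Monic)
    (hc : ∀ i < P.natDegree, P.coeff i ∈ dR (-1)) (k : ℕ) : ∃ Q r : Polynomial Rq,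
      Polynomial.X ^ k = P * Q + r ∧ r.degree < P.degree ∧
        ∀ i, r.coeff i ∈ dR (-((k / (P.natDegree + 1) : ℕ) : ℤ)) := by
  have hl := e3_low hP hc
  have h0 : e3_Cf 0 P := by
    have := e3_Cf_add (e3_Cf_mono (by omega : (-1 : ℤ) ≤ 0) hl) (e3_Cf_X_pow P.natDegree)
    simpa using this
  have key : ∀ j a : ℕ, ∃ Q r : Polynomial Rq,
      Polynomial.X ^ (a + (P.natDegree + 1) * j) = P * Q + r ∧ e3_Cf (-(j : ℤ)) r := by
    intro j a
    induction j with
    | zero => exact ⟨0, Polynomial.X ^ a, by simp, by simpa using e3_Cf_X_pow a⟩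
    | succ j ih =>
      obtain ⟨Q, r, e, h⟩ := ih
      refine ⟨Polynomial.X ^ (P.natDegree + 1) * Q + Polynomial.X * r,
        -(Polynomial.X ^ 1 * ((P - Polynomial.X ^ P.natDegree) * r)), ?_, e3_Cf_neg ?_⟩
      · rw [show a + (P.natDegree + 1) * (j + 1) =
          (P.natDegree + 1) + (a + (P.natDegree + 1) * j) by ring, pow_add, e]
        ring
      · have := e3_Cf_mul (e3_Cf_X_pow 1) (e3_Cf_mul hl h)
        refine e3_Cf_mono (le_of_eq ?_) this
        push_cast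
        ring
  obtain ⟨Q, r, e, h⟩ := key (k / (P.natDegree + 1)) (k % (P.natDegree + 1))
  rw [Nat.mod_add_div] at e
  obtain ⟨Q', r', e', h1, h2⟩ := e3_red hP h0 (r.natDegree + 1) r
    (lt_of_le_of_lt Polynomial.degree_le_natDegree (by exact_mod_cast Nat.lt_succ_self _)) h
  exact ⟨Q + Q', r', by rw [e, mul_add]; linear_combination e', h1, h2⟩

/-- monic with small lower coefficients -/
def e3_Good (P : Polynomial Rq) : Prop :=
  P.Monic ∧ e3_Cf (-1) (P - Polynomial.X ^ P.natDegree)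

theorem e3_Good_one : e3_Good 1 := ⟨Polynomial.monic_one, fun i => by simp⟩

theorem e3_Good_mul {P Q : Polynomial Rq} (hP : e3_Good P) (hQ : e3_Good Q) : e3_Good (P * Q) := by
  refine ⟨hP.1.mul hQ.1, ?_⟩
  rw [hP.1.natDegree_mul hQ.1]
  have e : P * Q - Polynomial.X ^ (P.natDegree + Q.natDegree) =
      Polynomial.X ^ P.natDegree * (Q - Polynomial.X ^ Q.natDegree) +
        (P - Polynomial.X ^ P.natDegree) * Polynomial.X ^ Q.natDegree +
        (P - Polynomial.X ^ P.natDegree) * (Q - Polynomial.X ^ Q.natDegree) := by ring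
  rw [e]
  refine e3_Cf_add (e3_Cf_add ?_ ?_) ?_
  · simpa using e3_Cf_mul (e3_Cf_X_pow P.natDegree) hQ.2
  · simpa using e3_Cf_mul hP.2 (e3_Cf_X_pow Q.natDegree)
  · exact e3_Cf_mono (by omega) (e3_Cf_mul hP.2 hQ.2)

theorem e3_Good_pow {P : Polynomial Rq} (hP : e3_Good P) (N : ℕ) : e3_Good (P ^ N) := by
  induction N with
  | zero => simpa using e3_Good_one
  | succ N ih => rw [pow_succ]; exact e3_Good_mul ih hP

theorem e3_Good_lin {k : ℤ} (hk : k < 0) :
    e3_Good (Polynomial.X - Polynomial.C (LaurentPolynomial.T (2 * k) : Rq)) := by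
  refine ⟨Polynomial.monic_X_sub_C _, ?_⟩
  rw [Polynomial.natDegree_X_sub_C, pow_one, sub_sub_cancel_left]
  exact e3_Cf_neg (e3_Cf_C (T_mem_dR (by omega)))

theorem e3_Good_prod {s : Finset ℤ} (hs : ∀ k ∈ s, k < 0) (N : ℕ) :
    e3_Good (∏ k ∈ s, (Polynomial.X - Polynomial.C (LaurentPolynomial.T (2 * k) : Rq)) ^ N) :=
  Finset.prod_induction _ e3_Good (fun _ _ => e3_Good_mul) e3_Good_one
    fun k hk => e3_Good_pow (e3_Good_lin (hs k hk)) N

theorem e3_Good_coeff {P : Polynomial Rq} (hP : e3_Good P) :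
    ∀ i < P.natDegree, P.coeff i ∈ dR (-1) := fun i hi => by
  have := hP.2 i
  rwa [Polynomial.coeff_sub, Polynomial.coeff_X_pow, if_neg hi.ne, sub_zero] at this

/-- combinations of the elements of `G` with coefficients of degree at most `c` -/
def e3_In {A : Type*} [AddCommGroup A] [Module Rq A] (G : Set A) (c : ℤ) : AddSubgroup A :=
  AddSubgroup.closure {a | ∃ r ∈ dR c, ∃ x ∈ G, a = r • x}

theorem e3_In_mono {A : Type*} [AddCommGroup A] [Module Rq A] (G : Set A) {c c' : ℤ}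
    (h : c ≤ c') : e3_In G c ≤ e3_In G c' :=
  AddSubgroup.closure_mono fun _ ⟨r, hr, x, hx, e⟩ => ⟨r, dR_mono h hr, x, hx, e⟩

theorem e3_In_smul {A : Type*} [AddCommGroup A] [Module Rq A] {G : Set A} {c : ℤ} {r : Rq}
    (hr : r ∈ dR c) {x : A} (hx : x ∈ G) : r • x ∈ e3_In G c :=
  AddSubgroup.subset_closure ⟨r, hr, x, hx, rfl⟩

theorem e3_In_map {A A' : Type*} [AddCommGroup A] [Module Rq A] [AddCommGroup A'] [Module Rq A']
    (f : A →ₗ[Rq] A') {G : Set A} {G' : Set A'} (h : ∀ x ∈ G, f x ∈ G') {c : ℤ} {a : A}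
    (ha : a ∈ e3_In G c) : f a ∈ e3_In G' c := by
  induction ha using AddSubgroup.closure_induction with
  | mem a ha =>
    obtain ⟨r, hr, x, hx, rfl⟩ := ha
    rw [map_smul]
    exact e3_In_smul hr (h x hx)
  | zero => rw [map_zero]; exact zero_mem _
  | add a b _ _ ha hb => rw [map_add]; exact add_mem ha hb
  | neg a _ ha => rw [map_neg]; exact neg_mem ha

theorem e3_In_finset {A : Type*} [AddCommGroup A] [Module Rq A] (F : Finset A) {c : ℤ} {a : A}
    (ha : a ∈ e3_In (F : Set A) c) : ∃ β : A → Rq, (∀ f, β f ∈ dR c) ∧ a = ∑ f ∈ F, β f • f := by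
  induction ha using AddSubgroup.closure_induction with
  | mem a ha =>
    obtain ⟨r, hr, x, hx, rfl⟩ := ha
    refine ⟨fun f => if f = x then r else 0, fun f => ?_, ?_⟩
    · show (if f = x then r else 0) ∈ dR c
      split_ifs
      · exact hr
      · exact zero_mem _
    · rw [Finset.sum_eq_single_of_mem x (by exact_mod_cast hx) fun b _ hb => by simp [hb]]
      simp
  | zero => exact ⟨fun _ => 0, fun _ => zero_mem _, by simp⟩
  | add a b _ _ ha hb =>
    obtain ⟨β, h1, rfl⟩ := ha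
    obtain ⟨β', h2, rfl⟩ := hb
    exact ⟨fun f => β f + β' f, fun f => add_mem (h1 f) (h2 f), by
      simp [add_smul, Finset.sum_add_distrib]⟩
  | neg a _ ha =>
    obtain ⟨β, h1, rfl⟩ := ha
    exact ⟨fun f => -β f, fun f => neg_mem (h1 f), by simp⟩

theorem e3_In_mul {A : Type*} [CommRing A] [Algebra Rq A] {G G' G'' : Set A}
    (h : ∀ x ∈ G, ∀ y ∈ G', x * y ∈ G'') {c c' : ℤ} {a b : A} (ha : a ∈ e3_In G c)
    (hb : b ∈ e3_In G' c') : a * b ∈ e3_In G'' (c + c') := by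
  induction ha using AddSubgroup.closure_induction with
  | mem a ha =>
    obtain ⟨r, hr, x, hx, rfl⟩ := ha
    induction hb using AddSubgroup.closure_induction with
    | mem b hb =>
      obtain ⟨r', hr', y, hy, rfl⟩ := hb
      rw [smul_mul_smul_comm]
      exact e3_In_smul (mul_mem_dR hr hr') (h x hx y hy)
    | zero => rw [mul_zero]; exact zero_mem _
    | add b b' _ _ h1 h2 => rw [mul_add]; exact add_mem h1 h2
    | neg b _ h1 => rw [mul_neg]; exact neg_mem h1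
  | zero => rw [zero_mul]; exact zero_mem _
  | add a a' _ _ h1 h2 => rw [add_mul]; exact add_mem h1 h2
  | neg a _ h1 => rw [neg_mul]; exact neg_mem h1

theorem e3_mon_add {n : ℕ} (x y : Lat n) : (mon (x + y) : LA Rq n) = mon x * mon y := by
  simp [mon, AddMonoidAlgebra.single_mul_single]

theorem e3_mon_zero {n : ℕ} : (mon (0 : Lat n) : LA Rq n) = 1 := rfl

theorem e3_mon_nsmul {n : ℕ} (k : ℕ) (x : Lat n) :
    (mon ((k : ℤ) • x) : LA Rq n) = mon x ^ k := by
  induction k with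
  | zero => simp [e3_mon_zero]
  | succ k ih => rw [Nat.cast_succ, add_smul, one_smul, e3_mon_add, ih, pow_succ]

theorem e3_mon_sum {n : ℕ} {ι : Type*} (s : Finset ι) (x : ι → Lat n) :
    (mon (∑ b ∈ s, x b) : LA Rq n) = ∏ b ∈ s, mon (x b) := by
  induction s using Finset.induction_on with
  | empty => simp [e3_mon_zero]
  | insert b s hb ih => rw [Finset.sum_insert hb, Finset.prod_insert hb, e3_mon_add, ih]

theorem e3_In_prod {n : ℕ} {ι : Type*} (φ : Lat n →ₗ[ℤ] Lat n) (G : ι → Set (Lat n))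
    (s : Finset ι) (h1 : ∀ b ∈ s, (G b).Finite) (h2 : ∀ b ∈ s, ∀ x ∈ G b, φ x = 0) :
    ∃ G0 : Set (Lat n), G0.Finite ∧ (∀ x ∈ G0, φ x = 0) ∧
      ∀ (g : ι → LA Rq n) (c : ι → ℤ), (∀ b ∈ s, g b ∈ e3_In (mon '' G b) (c b)) →
        ∏ b ∈ s, g b ∈ e3_In (mon '' G0) (∑ b ∈ s, c b) := by
  induction s using Finset.induction_on with
  | empty =>
    refine ⟨{0}, Set.finite_singleton _, by simp, fun g c _ => ?_⟩
    have := e3_In_smul (G := (mon '' ({0} : Set (Lat n)) : Set (LA Rq n))) e3_one_mem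
      (x := 1) ⟨0, rfl, rfl⟩
    simpa using this
  | insert b s hb ih =>
    obtain ⟨G0, f1, f2, f3⟩ := ih (fun a ha => h1 a (Finset.mem_insert_of_mem ha))
      (fun a ha => h2 a (Finset.mem_insert_of_mem ha))
    refine ⟨Set.image2 (· + ·) (G b) G0, (h1 b (Finset.mem_insert_self _ _)).image2 _ f1, ?_,
      fun g c hg => ?_⟩
    · rintro _ ⟨x, hx, y, hy, rfl⟩
      simp [h2 b (Finset.mem_insert_self _ _) x hx, f2 y hy]
    · rw [Finset.prod_insert hb, Finset.sum_insert hb]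
      refine e3_In_mul ?_ (hg b (Finset.mem_insert_self _ _))
        (f3 g c fun a ha => hg a (Finset.mem_insert_of_mem ha))
      rintro _ ⟨x, hx, rfl⟩ _ ⟨y, hy, rfl⟩
      exact ⟨x + y, ⟨x, hx, y, hy, rfl⟩, e3_mon_add x y⟩

theorem e3_In_aeval {n : ℕ} (y : Lat n) {d : ℕ} {c : ℤ} {r : Polynomial Rq}
    (hd : r.degree < d) (hc : ∀ i, r.coeff i ∈ dR c) :
    Polynomial.aeval (mon y : LA Rq n) r ∈
      e3_In (mon '' ((fun i : ℕ => (i : ℤ) • y) '' Set.Iic d)) c := by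
  have hn : r.natDegree < d + 1 := by
    have := Polynomial.natDegree_le_iff_degree_le.2 hd.le
    omega
  rw [Polynomial.aeval_eq_sum_range' hn]
  refine sum_mem fun i hi => e3_In_smul (hc i) ⟨(i : ℤ) • y, ⟨i, ?_, rfl⟩, e3_mon_nsmul i y⟩
  have := Finset.mem_range.1 hi
  show i ≤ d
  omega

variable {C K} {J : Finset B} (hJ : J ⊆ C.S0)
include hJ

/-- the elements of the group algebra killed by `e` -/
noncomputable def e3_Kil : Ideal (LA Rq C.n) where
  carrier := {g | C.eJ K J * C.Lop K J (C.Th g) = 0}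
  zero_mem' := by
    show C.eJ K J * C.Lop K J (C.Th 0) = 0
    have := C.Lop_smul K hJ 0 (one_mem (C.HJ J))
    rw [zero_smul, map_zero, zero_smul] at this
    rw [map_zero, this, mul_zero]
  add_mem' := fun {a b} ha hb => by
    have ha : C.eJ K J * C.Lop K J (C.Th a) = 0 := ha
    have hb : C.eJ K J * C.Lop K J (C.Th b) = 0 := hb
    show C.eJ K J * C.Lop K J (C.Th (a + b)) = 0
    rw [map_add, C.Lop_add K hJ (C.Th_mem_HJ J a) (C.Th_mem_HJ J b), mul_add, ha, hb, add_zero]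
  smul_mem' := fun a b hb => by
    have hb : C.eJ K J * C.Lop K J (C.Th b) = 0 := hb
    show C.eJ K J * C.Lop K J (C.Th (a • b)) = 0
    rw [smul_eq_mul, mul_comm a b, map_mul,
      C.Lop_mul K hJ (C.Th_mem_HJ J b) (C.Th_mem_HJ J a), ← mul_assoc, hb, zero_mul]

theorem e3_kill {g : LA Rq C.n} (hg : g ∈ e3_Kil (K := K) hJ) {u : W} (hu : u ∈ C.WJ J) (t : H) :
    C.eJ K J (C.kap K J (C.Tb u * C.Th g * t)) = 0 := by
  have hg : C.eJ K J * C.Lop K J (C.Th g) = 0 := hg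
  have h1 := C.Tb_mem_HJ hJ hu
  rw [mul_assoc, ← C.Lop_kap K hJ h1, ← C.Lop_kap K hJ (C.Th_mem_HJ J g)]
  have : C.eJ K J * C.Lop K J (C.Tb u) * C.Lop K J (C.Th g) = 0 := by
    rw [eJ_Lop hJ h1, mul_assoc, hg, mul_zero]
  exact congrArg (fun F : Op W K => F (C.kap K J t)) this

theorem e3_exists_P {y : Lat C.n} (hx : C.Dom J y) (h0 : C.deg J y = 0) (hne : y ≠ 0) :
    ∃ P : Polynomial Rq, e3_Good P ∧
      Polynomial.aeval (mon ((2 * C.Mo : ℤ) • y) : LA Rq C.n) P ∈ e3_Kil (K := K) hJ := by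
  obtain ⟨s, N, hs, h⟩ := Fpol_kill_neg (K := K) hJ hx h0 hne
  refine ⟨_, e3_Good_prod hs N, ?_⟩
  show C.eJ K J * C.Lop K J (C.Th _) = 0
  rw [← Polynomial.aeval_algHom_apply, C.Th_mon]
  rw [← eJ_Lop hJ (Fpol_mem s N y)] at h
  exact h

/-- (Red): `TJ_normal`, `exists_dom_gens` with `c = 2 M`, `Fpol_kill_neg`, `exists_rem` -/
theorem reduce (δ : Lat C.n) : ∃ F : Finset H, (∀ f ∈ F, C.pd J δ f = f) ∧
    (∀ w, C.degW J w = δ → ∃ β : H → Rq,
      C.eJ K J (C.kap K J (C.TJ J w - ∑ f ∈ F, β f • f)) = 0) ∧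
    ∀ c : ℤ, {w | C.degW J w = δ ∧ ¬ ∃ β : H → Rq, (∀ f, β f ∈ dR c) ∧
      C.eJ K J (C.kap K J (C.TJ J w - ∑ f ∈ F, β f • f)) = 0}.Finite := by
  let y : B → Lat C.n := fun b => ((C.WF J).card : ℤ) • C.cw b - C.deg J (C.cw b)
  have hy0 : ∀ b, C.deg J (y b) = 0 := fun b => C.deg_proj hJ _
  have hsr : ∀ b, ∀ j ∈ J, C.sr j (y b) = ((C.WF J).card : ℤ) * C.sr j (C.cw b) := by
    intro b j hj
    simp only [y, map_sub, map_zsmul, C.fix_deg hJ _ j hj, sub_zero, smul_eq_mul]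
  have hcard : (0 : ℤ) < (C.WF J).card := Nat.cast_pos.2 (C.card_WF_pos hJ)
  have hP : ∀ b : B, ∃ P : Polynomial Rq, b ∈ J → e3_Good P ∧
      Polynomial.aeval (mon ((2 * C.Mo : ℤ) • y b) : LA Rq C.n) P ∈ e3_Kil (K := K) hJ := by
    intro b
    by_cases hb : b ∈ J
    · obtain ⟨P, hP⟩ := e3_exists_P (K := K) hJ (y := y b) (fun j hj => by
        rw [hsr b j hj]
        exact mul_nonneg hcard.le (C.root_cw_nonneg (C.sr_mem_Rp (hJ hj)) (hJ hb))) (hy0 b)
        (fun e => by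
          have := hsr b b hb
          rw [e, map_zero, C.cw_self b (hJ hb)] at this
          exact (mul_pos hcard C.m_pos).ne this)
      exact ⟨P, fun _ => hP⟩
    · exact ⟨1, fun h => absurd h hb⟩
  choose P hP using hP
  obtain ⟨F0, hF0⟩ := C.exists_dom_gens hJ δ (c := 2 * C.Mo) (by have := C.Mo_pos; omega)
  obtain ⟨G0, g1, g2, g3⟩ := e3_In_prod (C.deg J)
    (fun b => (fun i : ℕ => (i : ℤ) • (2 * C.Mo : ℤ) • y b) '' Set.Iic (P b).natDegree) J
    (fun b _ => (Set.finite_Iic _).image _) (by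
      rintro b _ _ ⟨i, -, rfl⟩
      rw [map_zsmul, map_zsmul, hy0 b, smul_zero, smul_zero])
  let S : Set H := {h | ∃ u ∈ C.WJ J, ∃ f ∈ F0, C.deg J f = δ ∧ ∃ x ∈ G0, ∃ v ∈ C.W0,
    h = C.Tb u * C.th (f + x) * C.TJ ∅ v}
  have hS : S.Finite := by
    refine (((C.finite_WJ hJ).prod (F0.finite_toSet.prod (g1.prod
      (C.finite_WJ subset_rfl)))).image fun p : W × Lat C.n × Lat C.n × W =>
        C.Tb p.1 * C.th (p.2.1 + p.2.2.1) * C.TJ ∅ p.2.2.2).subset ?_
    rintro _ ⟨u, hu, f, hf, -, x, hx, v, hv, rfl⟩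
    exact ⟨(u, f, x, v), ⟨hu, hf, hx, hv⟩, rfl⟩
  have key : ∀ w, C.degW J w = δ → ∃ u ∈ C.WJ J, ∃ f ∈ F0, ∃ k : B → ℕ, ∃ v ∈ C.W0,
      w = u * (C.tr (f + ∑ b ∈ J, ((k b * (2 * C.Mo) : ℕ) : ℤ) • y b) * v) ∧
      ∃ β : H → Rq, (∀ f, β f ∈ dR (∑ b ∈ J, -((k b / ((P b).natDegree + 1) : ℕ) : ℤ))) ∧
        C.eJ K J (C.kap K J (C.TJ J w - ∑ f ∈ hS.toFinset, β f • f)) = 0 := by
    intro w hw
    obtain ⟨u, hu, x, hx, v, hv, e1, -, e2⟩ := C.TJ_normal hJ w
    have hu0 : u ∈ C.W0 := C.WJ_mono hJ hu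
    have hdx : C.deg J x = δ := by
      rw [← hw, e1, AD.degW, C.xp_mul, C.xp_W0 hu0, zero_add, C.deg_gr hJ hu,
        C.xp_tr_mul x hv]
    obtain ⟨f, hf, k, e3⟩ := hF0 x hx hdx
    have hdf : C.deg J f = δ := by
      rw [← hdx, e3, map_add, map_sum, Finset.sum_eq_zero fun b _ => by
        rw [map_zsmul, hy0 b, smul_zero], add_zero]
    refine ⟨u, hu, f, hf, k, v, hv, by rw [e1, e3], ?_⟩
    have hr : ∀ b : B, ∃ r : Polynomial Rq, b ∈ J → (r.degree < (P b).natDegree ∧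
        (∀ i, r.coeff i ∈ dR (-((k b / ((P b).natDegree + 1) : ℕ) : ℤ))) ∧
        (mon (((k b * (2 * C.Mo) : ℕ) : ℤ) • y b) : LA Rq C.n) -
          Polynomial.aeval (mon ((2 * C.Mo : ℤ) • y b) : LA Rq C.n) r ∈ e3_Kil (K := K) hJ) := by
      intro b
      by_cases hb : b ∈ J
      · obtain ⟨Q, r, e, h1, h2⟩ := exists_rem (P b) (hP b hb).1.1 (e3_Good_coeff (hP b hb).1) (k b)
        refine ⟨r, fun _ => ⟨?_, h2, ?_⟩⟩
        · rwa [Polynomial.degree_eq_natDegree (hP b hb).1.1.ne_zero] at h1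
        · have e4 := congrArg (Polynomial.aeval (mon ((2 * C.Mo : ℤ) • y b) : LA Rq C.n)) e
          rw [map_pow, Polynomial.aeval_X, map_add, map_mul] at e4
          have e5 : (((k b * (2 * C.Mo) : ℕ) : ℤ)) • y b = (k b : ℤ) • (2 * C.Mo : ℤ) • y b := by
            rw [smul_smul]
            push_cast
            rfl
          rw [e5, e3_mon_nsmul, e4, add_sub_cancel_right]
          exact Ideal.mul_mem_right _ _ (hP b hb).2
      · exact ⟨0, fun h => absurd h hb⟩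
    choose r hr using hr
    let g : LA Rq C.n := ∏ b ∈ J, Polynomial.aeval (mon ((2 * C.Mo : ℤ) • y b) : LA Rq C.n) (r b)
    have hg := g3 (fun b => Polynomial.aeval (mon ((2 * C.Mo : ℤ) • y b) : LA Rq C.n) (r b))
      (fun b => -((k b / ((P b).natDegree + 1) : ℕ) : ℤ))
      fun b hb => e3_In_aeval _ (hr b hb).1 (hr b hb).2.1
    have hk : (mon x : LA Rq C.n) - mon f * g ∈ e3_Kil (K := K) hJ := by
      rw [e3, e3_mon_add, e3_mon_sum, ← mul_sub]
      refine Ideal.mul_mem_left _ _ ?_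
      rw [← Ideal.Quotient.eq, map_prod, map_prod]
      exact Finset.prod_congr rfl fun b hb => Ideal.Quotient.eq.2 (hr b hb).2.2
    let Φ : LA Rq C.n →ₗ[Rq] H := LinearMap.mulRight Rq (C.TJ ∅ v) ∘ₗ
      LinearMap.mulLeft Rq (C.Tb u) ∘ₗ C.Th.toLinearMap ∘ₗ LinearMap.mulLeft Rq (mon f)
    have hΦ : ∀ a, Φ a = C.Tb u * C.Th (mon f * a) * C.TJ ∅ v := fun a => rfl
    have h1 := e3_In_map Φ (G' := (hS.toFinset : Set H)) (by
      rintro _ ⟨x', hx', rfl⟩
      rw [hΦ, ← e3_mon_add, C.Th_mon, Set.Finite.coe_toFinset]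
      exact ⟨u, hu, f, hf, hdf, x', hx', v, hv, rfl⟩) hg
    obtain ⟨β, hβ, e6⟩ := e3_In_finset _ h1
    refine ⟨β, hβ, ?_⟩
    rw [← e6, hΦ, e2, ← C.Th_mon x, ← sub_mul, ← mul_sub, ← map_sub]
    exact e3_kill hJ hk hu _
  refine ⟨hS.toFinset, fun h hh => ?_, fun w hw => ?_, fun c => ?_⟩
  · obtain ⟨u, hu, f, -, hdf, x, hx, v, hv, rfl⟩ := hS.mem_toFinset.1 hh
    have e1 : δ = 0 + C.deg J (f + x) := by rw [map_add, hdf, g2 x hx, add_zero, zero_add]
    have e2 := C.pd_TJ_le (Finset.empty_subset J) hJ v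
    rw [C.degW_W0 J hv] at e2
    rw [mul_assoc, C.pd_Tb hJ hu, e1, C.pd_th hJ, e2]
  · obtain ⟨u, -, f, -, k, v, -, -, β, -, h⟩ := key w hw
    exact ⟨β, h⟩
  · let N : B → ℕ := fun b => ((P b).natDegree + 1) * (c.natAbs + 1)
    have hfin : {k : J → ℕ | ∀ b : J, k b ∈ Set.Iic (N b)}.Finite :=
      Set.Finite.pi' fun b => Set.finite_Iic _
    refine (((C.finite_WJ hJ).prod (F0.finite_toSet.prod (hfin.prod
      (C.finite_WJ subset_rfl)))).image fun p : W × Lat C.n × (J → ℕ) × W =>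
        p.1 * (C.tr (p.2.1 + ∑ b : J, ((p.2.2.1 b * (2 * C.Mo) : ℕ) : ℤ) • y b) *
          p.2.2.2)).subset ?_
    rintro w ⟨hw, hno⟩
    obtain ⟨u, hu, f, hf, k, v, hv, e, β, hβ, h⟩ := key w hw
    refine ⟨(u, f, fun b => k b, v), ⟨hu, hf, fun b => ?_, hv⟩, ?_⟩
    · by_contra hb
      have hb : N b < k b := not_le.1 hb
      apply hno
      refine ⟨β, fun f => dR_mono ?_ (hβ f), h⟩
      have h1 : c.natAbs + 1 ≤ k b / ((P b).natDegree + 1) := by
        rw [Nat.le_div_iff_mul_le (Nat.succ_pos _), mul_comm]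
        exact hb.le
      have h2 := Finset.single_le_sum (f := fun a => ((k a / ((P a).natDegree + 1) : ℕ) : ℤ))
        (fun a _ => Nat.cast_nonneg _) b.2
      rw [Finset.sum_neg_distrib]
      have h3 : ((c.natAbs + 1 : ℕ) : ℤ) ≤ ((k b / ((P b).natDegree + 1) : ℕ) : ℤ) := by
        exact_mod_cast h1
      omega
    · rw [e]
      show u * (C.tr (f + ∑ b : J, ((k b * (2 * C.Mo) : ℕ) : ℤ) • y b) * v) = _
      rw [Finset.sum_coe_sort J fun b => ((k b * (2 * C.Mo) : ℕ) : ℤ) • y b]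

end HC

end Pool.Agent.P.MP_74db7f_al
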