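import Pool.Agent.P.MP_74db7f_al.F.V1

/-! L3: integral functionals computing the norm on a lattice (paper, section 9). -/

namespace Pool.Agent.P.MP_74db7f_al

open scoped Classical Topology
open Filter

section

variable {K : Type*} [NontriviallyNormedField K]

theorem l3_anti [CompleteSpace K] {E : Type*} [NormedAddCommGroup E] [NormedSpace K E] {k : ℕ}
    {l : Fin k → E} (hl : LinearIndependent K l) :
    ∃ A : ℝ, 0 < A ∧ ∀ (c : Fin k → K) (i : Fin k), ‖c i‖ ≤ A * ‖∑ j, c j • l j‖ := by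
  obtain ⟨A, hA, h⟩ := LinearMap.exists_antilipschitzWith (Fintype.linearCombination K l)
    (LinearMap.ker_eq_bot.2 hl.fintypeLinearCombination_injective)
  refine ⟨A, by exact_mod_cast hA, fun c i => (norm_le_pi_norm c i).trans ?_⟩
  have := h.le_mul_dist c 0
  simpa [Fintype.linearCombination_apply] using this

theorem l3_co_sum {W ι : Type*} (s : Finset ι) (f : ι → C0 W K) (w : W) :
    (∑ i ∈ s, f i).co w = ∑ i ∈ s, (f i).co w := by
  exact map_sum (C0.ev (K := K) w) f s

theorem l3_half {k : ℕ} {A δ x : ℝ} (hA : 0 < A) (hx : 0 ≤ x)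
    (hδ : δ = 1 / (2 * A * (k + 1))) (u v : Fin k → K) (hu : ∀ i, ‖u i‖ ≤ A * x)
    (hv : ∀ i, ‖v i‖ ≤ δ) : ‖∑ i, u i * v i‖ ≤ x / 2 := by
  have hδ0 : 0 ≤ δ := by rw [hδ]; positivity
  calc ‖∑ i, u i * v i‖ ≤ ∑ i, ‖u i * v i‖ := norm_sum_le _ _
    _ ≤ ∑ _i : Fin k, A * x * δ := Finset.sum_le_sum fun i _ => by
        rw [norm_mul]
        exact mul_le_mul (hu i) (hv i) (norm_nonneg _) (by positivity)
    _ = k * (A * x * δ) := by simp
    _ ≤ (k + 1) * (A * x * δ) := by
        have : 0 ≤ A * x * δ := by positivity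
        nlinarith
    _ = x / 2 := by
        rw [hδ]
        field_simp

variable [Algebra Rq K] [GoodK K]

theorem l3_common {ι : Type*} (s : Finset ι) (a : ι → K) {δ : ℝ} (hδ : 0 < δ) :
    ∃ N : ℤ, N ≠ 0 ∧ ∃ r : ι → Rq, ∀ i ∈ s, ‖(N : K) * a i - algebraMap Rq K (r i)‖ < δ := by
  induction s using Finset.induction_on with
  | empty => exact ⟨1, one_ne_zero, fun _ => 0, by simp⟩
  | insert j s hj ih =>
    obtain ⟨N, hN, r, hr⟩ := ih
    obtain ⟨N', hN', r', hr'⟩ := GoodK.dense (a j) δ hδ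
    refine ⟨N * N', mul_ne_zero hN hN',
      fun i => if i = j then (N : Rq) * r' else (N' : Rq) * r i, fun i hi => ?_⟩
    by_cases hij : i = j
    · subst hij
      have e : ((N * N' : ℤ) : K) * a i - algebraMap Rq K ((N : Rq) * r') =
          (N : K) * ((N' : K) * a i - algebraMap Rq K r') := by
        rw [map_mul, map_intCast]; push_cast; ring
      simp only [if_true]
      rw [e, norm_mul, norm_intK hN, one_mul]
      exact hr'
    · have hi' : i ∈ s := (Finset.mem_insert.1 hi).resolve_left hij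
      have e : ((N * N' : ℤ) : K) * a i - algebraMap Rq K ((N' : Rq) * r i) =
          (N' : K) * ((N : K) * a i - algebraMap Rq K (r i)) := by
        rw [map_mul, map_intCast]; push_cast; ring
      simp only [if_neg hij]
      rw [e, norm_mul, norm_intK hN', one_mul]
      exact hr i hi'

end

section

variable {W K : Type*} [NontriviallyNormedField K] [CompleteSpace K] [IsUltrametricDist K]
  [Algebra Rq K] [GoodK K]

/-- on a finite dimensional subspace finitely many coordinates compute the norm -/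
theorem exists_coords (U : Submodule K (C0 W K)) [FiniteDimensional K U] :
    ∃ F : Finset W, ∀ y ∈ U, ∀ c : ℝ, 0 ≤ c → (∀ w ∈ F, ‖y.co w‖ ≤ c) → ‖y‖ ≤ c := by
  let b := Module.finBasis K U
  have hb : LinearIndependent K fun i => (b i : C0 W K) :=
    b.linearIndependent.map' U.subtype U.ker_subtype
  obtain ⟨A, hA, h⟩ := l3_anti hb
  set δ : ℝ := 1 / (2 * A * ((Module.finrank K U : ℕ) + 1)) with hδ
  have hδ0 : 0 < δ := by rw [hδ]; positivity
  have hfin : ∀ i, {w | ¬ ‖(b i : C0 W K).co w‖ ≤ δ}.Finite := fun i => by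
    have h1 := (b i : C0 W K).tendsto.norm
    rw [norm_zero] at h1
    exact Filter.eventually_cofinite.1 (h1.eventually (ge_mem_nhds hδ0))
  refine ⟨(Set.finite_iUnion hfin).toFinset, fun y hy c hc hF => ?_⟩
  by_cases h0 : y = 0
  · rw [h0, norm_zero]; exact hc
  obtain ⟨w, hw⟩ := C0.exists_norm_eq h0
  by_cases hwF : w ∈ (Set.finite_iUnion hfin).toFinset
  · rw [hw]; exact hF w hwF
  exfalso
  have hsm : ∀ i, ‖(b i : C0 W K).co w‖ ≤ δ := fun i => by
    by_contra hc'
    exact hwF ((Set.Finite.mem_toFinset _).2 (Set.mem_iUnion.2 ⟨i, hc'⟩))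
  have hy' : y = ∑ i, b.repr ⟨y, hy⟩ i • (b i : C0 W K) := by
    have := congrArg U.subtype (b.sum_repr ⟨y, hy⟩)
    rw [map_sum] at this
    simpa using this.symm
  have h2 : ‖y.co w‖ ≤ ‖y‖ / 2 := by
    have e : y.co w = ∑ i, b.repr ⟨y, hy⟩ i * (b i : C0 W K).co w := by
      conv_lhs => rw [hy']
      rw [l3_co_sum]
      rfl
    rw [e]
    refine l3_half hA (norm_nonneg _) hδ _ _ (fun i => ?_) hsm
    have := h (fun i => b.repr ⟨y, hy⟩ i) i
    rwa [← hy'] at this
  have h3 : 0 < ‖y‖ := norm_pos_iff.2 h0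
  linarith

variable (L0 : Submodule Rq (C0 W K)) (hfg : L0.FG)
  (hind : ∀ (k : ℕ) (l : Fin k → C0 W K), (∀ i, l i ∈ L0) → LinearIndependent Rq l →
    LinearIndependent K l)
include hfg hind

/-- a maximal independent family with a common denominator; it is a `K`-basis of `K L0` -/
theorem exists_frame : ∃ (k : ℕ) (l : Fin k → C0 W K) (lam : Fin k → L0 →ₗ[Rq] Rq) (d : Rq),
    d ≠ 0 ∧ (∀ i, l i ∈ L0) ∧ LinearIndependent K l ∧
      (∀ y : L0, d • (y : C0 W K) = ∑ i, lam i y • l i) ∧ ∃ A : ℝ, ∀ i (y : L0),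
        ‖algebraMap Rq K (lam i y)‖ ≤ A * ‖(y : C0 W K)‖ := by
  have : Module.Finite Rq L0 := Module.Finite.iff_fg.2 hfg
  obtain ⟨l, hl⟩ := exists_linearIndependent_of_le_finrank (R := Rq) (M := L0)
    (n := Module.finrank Rq L0) le_rfl
  have hdep : ∀ y : L0, ∃ d : Rq, d ≠ 0 ∧ d • y ∈ Submodule.span Rq (Set.range l) := by
    intro y
    by_contra hc
    push Not at hc
    have h1 : LinearIndependent Rq (Fin.cons y l : Fin (Module.finrank Rq L0 + 1) → L0) := by
      refine LinearIndependent.finCons' y l hl fun c x hx hcx => ?_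
      by_contra hc0
      apply hc c hc0
      rw [eq_neg_of_add_eq_zero_left hcx]
      exact neg_mem hx
    have := h1.fintype_card_le_finrank
    simp at this
  choose d hd hds using hdep
  obtain ⟨S, hS⟩ := Module.Finite.fg_top (R := Rq) (M := L0)
  have hD : ∏ y ∈ S, d y ≠ 0 := Finset.prod_ne_zero_iff.2 fun y _ => hd y
  have hall : ∀ y : L0, (∏ y ∈ S, d y) • y ∈ Submodule.span Rq (Set.range l) := by
    intro y
    have hy : y ∈ Submodule.span Rq (S : Set L0) := hS ▸ Submodule.mem_top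
    induction hy using Submodule.span_induction with
    | mem x hx =>
      rw [← Finset.prod_erase_mul S d hx, mul_smul]
      exact Submodule.smul_mem _ _ (hds x)
    | zero => simp
    | add x x' _ _ h h' => rw [smul_add]; exact add_mem h h'
    | smul a x _ h => rw [smul_comm]; exact Submodule.smul_mem _ _ h
  set D := ∏ y ∈ S, d y
  let Φ : L0 →ₗ[Rq] Submodule.span Rq (Set.range l) :=
    LinearMap.codRestrict _ (D • LinearMap.id) hall
  let lam : Fin (Module.finrank Rq L0) → L0 →ₗ[Rq] Rq := fun i =>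
    Finsupp.lapply i ∘ₗ hl.repr ∘ₗ Φ
  have hsum : ∀ y : L0, D • (y : C0 W K) = ∑ i, lam i y • (l i : C0 W K) := by
    intro y
    have h1 := hl.linearCombination_repr (Φ y)
    rw [Finsupp.linearCombination_apply, Finsupp.sum_fintype _ _ (by simp)] at h1
    have h2 := congrArg L0.subtype h1
    rw [map_sum] at h2
    exact h2.symm
  have hK : LinearIndependent K fun i => (l i : C0 W K) :=
    hind _ _ (fun i => (l i).2) (hl.map' L0.subtype L0.ker_subtype)
  obtain ⟨A, hA, h⟩ := l3_anti hK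
  refine ⟨_, fun i => l i, lam, D, hD, fun i => (l i).2, hK, hsum,
    A * ‖algebraMap Rq K D‖, fun i y => ?_⟩
  have h1 := h (fun i => algebraMap Rq K (lam i y)) i
  simp only [algebraMap_smul] at h1
  rw [← hsum, ← algebraMap_smul K D, norm_smul] at h1
  rwa [mul_assoc]

theorem fun_bound (ψ : L0 →ₗ[Rq] Rq) : ∃ c : ℕ, ∀ (y : L0) (k : ℤ),
    ‖(y : C0 W K)‖ ≤ ‖qK K‖ ^ k → ψ y ∈ dR (k + c) := by
  obtain ⟨k, l, lam, d, hd, hl, hK, hsum, A, hA⟩ := exists_frame L0 hfg hind
  have hd' : 0 < ‖algebraMap Rq K d‖ :=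
    norm_pos_iff.2 ((map_ne_zero_iff _ algK_injective).2 hd)
  have hQ : 1 < ‖qK K‖ := GoodK.one_lt
  obtain ⟨c, hc⟩ := pow_unbounded_of_one_lt
    ((∑ i, |A| * ‖algebraMap Rq K (ψ ⟨l i, hl i⟩)‖) / ‖algebraMap Rq K d‖) hQ
  refine ⟨c, fun y n hy => (GoodK.deg (K := K) _ _).1 ?_⟩
  have h1 : d • y = ∑ i, lam i y • (⟨l i, hl i⟩ : L0) := by
    apply Subtype.ext
    have := map_sum L0.subtype (fun i => lam i y • (⟨l i, hl i⟩ : L0)) Finset.univ
    exact (hsum y).trans this.symm
  have h2 : d * ψ y = ∑ i, lam i y * ψ ⟨l i, hl i⟩ := by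
    have := congrArg ψ h1
    rw [map_sum] at this
    simpa only [map_smul, smul_eq_mul] using this
  have h3 : ‖algebraMap Rq K d‖ * ‖algebraMap Rq K (ψ y)‖ ≤
      (∑ i, |A| * ‖algebraMap Rq K (ψ ⟨l i, hl i⟩)‖) * ‖(y : C0 W K)‖ := by
    rw [← norm_mul, ← map_mul, h2, map_sum, Finset.sum_mul]
    refine (norm_sum_le _ _).trans (Finset.sum_le_sum fun i _ => ?_)
    rw [map_mul, norm_mul, mul_right_comm]
    refine mul_le_mul_of_nonneg_right ((hA i y).trans ?_) (norm_nonneg _)
    exact mul_le_mul_of_nonneg_right (le_abs_self A) (norm_nonneg _)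
  rw [div_lt_iff₀ hd'] at hc
  have h4 : ‖algebraMap Rq K d‖ * ‖algebraMap Rq K (ψ y)‖ ≤
      ‖algebraMap Rq K d‖ * (‖qK K‖ ^ n * ‖qK K‖ ^ c) := by
    refine h3.trans ?_
    calc _ ≤ (‖qK K‖ ^ c * ‖algebraMap Rq K d‖) * ‖qK K‖ ^ n :=
          mul_le_mul hc.le hy (norm_nonneg _) (by positivity)
      _ = _ := by ring
  rw [zpow_add₀ (by positivity), zpow_natCast]
  exact le_of_mul_le_mul_left h4 hd'

/-- approximate integer multiples of the coordinates from `exists_coords` by
`∑ᵢ rᵢ lamᵢ` (`GoodK.dense`) -/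
theorem exists_funs : ∃ (t : ℕ) (ψ : Fin t → L0 →ₗ[Rq] Rq), ∀ (y : L0) (k : ℤ),
    (∀ i, ψ i y ∈ dR k) ↔ ‖(y : C0 W K)‖ ≤ ‖qK K‖ ^ k := by
  obtain ⟨k, l, lam, d, hd, hl, hK, hsum, A0, hA0⟩ := exists_frame L0 hfg hind
  have hd' : algebraMap Rq K d ≠ 0 := (map_ne_zero_iff _ algK_injective).2 hd
  have hQ : 1 < ‖qK K‖ := GoodK.one_lt
  set A : ℝ := |A0| + 1 with hAd
  have hA : 0 < A := by positivity
  have hA1 : ∀ i (y : L0), ‖algebraMap Rq K (lam i y)‖ ≤ A * ‖(y : C0 W K)‖ := fun i y =>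
    (hA0 i y).trans (mul_le_mul_of_nonneg_right
      (by have := le_abs_self A0; linarith) (norm_nonneg _))
  have : FiniteDimensional K (Submodule.span K (Set.range l)) :=
    FiniteDimensional.span_of_finite K (Set.finite_range l)
  obtain ⟨F, hF⟩ := exists_coords (Submodule.span K (Set.range l))
  have hy' : ∀ y : L0, (y : C0 W K) =
      ∑ i, (algebraMap Rq K (lam i y) * (algebraMap Rq K d)⁻¹) • l i := by
    intro y
    have h1 := hsum y
    rw [← algebraMap_smul K d] at h1
    have h2 := congrArg (fun v => (algebraMap Rq K d)⁻¹ • v) h1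
    simp only [smul_smul, inv_mul_cancel₀ hd', one_smul, Finset.smul_sum] at h2
    rw [h2]
    refine Finset.sum_congr rfl fun i _ => ?_
    rw [← algebraMap_smul K (lam i y), smul_smul, mul_comm]
  have hU : ∀ y : L0, (y : C0 W K) ∈ Submodule.span K (Set.range l) := fun y => by
    rw [hy' y]
    exact Submodule.sum_mem _ fun i _ =>
      Submodule.smul_mem _ _ (Submodule.subset_span ⟨i, rfl⟩)
  set δ : ℝ := 1 / (2 * A * (k + 1)) with hδ
  have hδ0 : 0 < δ := by rw [hδ]; positivity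
  choose N hN r hr using fun w : W =>
    l3_common Finset.univ (fun i => (algebraMap Rq K d)⁻¹ * (l i).co w) hδ0
  let φ : W → L0 →ₗ[Rq] Rq := fun w => ∑ i, r w i • lam i
  have key : ∀ w (y : L0), ‖(N w : K) * (y : C0 W K).co w - algebraMap Rq K (φ w y)‖ ≤
      ‖(y : C0 W K)‖ / 2 := by
    intro w y
    have e : (N w : K) * (y : C0 W K).co w - algebraMap Rq K (φ w y) =
        ∑ i, algebraMap Rq K (lam i y) * ((N w : K) * ((algebraMap Rq K d)⁻¹ * (l i).co w) -
          algebraMap Rq K (r w i)) := by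
      have e1 : (y : C0 W K).co w =
          ∑ i, (algebraMap Rq K (lam i y) * (algebraMap Rq K d)⁻¹) * (l i).co w := by
        conv_lhs => rw [hy' y]
        rw [l3_co_sum]
        rfl
      have e2 : φ w y = ∑ i, r w i * lam i y := by
        simp only [φ, LinearMap.sum_apply, LinearMap.smul_apply, smul_eq_mul]
      rw [e1, e2, map_sum, Finset.mul_sum, ← Finset.sum_sub_distrib]
      refine Finset.sum_congr rfl fun i _ => ?_
      rw [map_mul]
      ring
    rw [e]
    exact l3_half hA (norm_nonneg _) hδ _ _ (fun i => hA1 i y)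
      fun i => (hr w i (Finset.mem_univ _)).le
  have hn : ∀ w (y : L0), ‖(N w : K) * (y : C0 W K).co w‖ = ‖(y : C0 W K).co w‖ := fun w y => by
    rw [norm_mul, norm_intK (hN w), one_mul]
  refine ⟨F.card, fun i => φ (F.equivFin.symm i), fun y n => ⟨fun h => ?_, fun h i => ?_⟩⟩
  · have hp : 0 < ‖qK K‖ ^ n := by positivity
    have h1 : ‖(y : C0 W K)‖ ≤ max (‖(y : C0 W K)‖ / 2) (‖qK K‖ ^ n) := by
      refine hF _ (hU y) _ (le_max_of_le_right hp.le) fun w hw => ?_
      have h2 := (GoodK.deg (K := K) _ _).2 (h (F.equivFin ⟨w, hw⟩))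
      simp only [Equiv.symm_apply_apply] at h2
      rw [← hn w y, ← sub_add_cancel ((N w : K) * (y : C0 W K).co w) (algebraMap Rq K (φ w y))]
      exact (IsUltrametricDist.norm_add_le_max _ _).trans (max_le_max (key w y) h2)
    rcases le_max_iff.1 h1 with h3 | h3
    · linarith
    · exact h3
  · refine (GoodK.deg (K := K) _ _).1 ?_
    show ‖algebraMap Rq K (φ (F.equivFin.symm i : F) y)‖ ≤ _
    generalize ((F.equivFin.symm i : F) : W) = w
    have e : algebraMap Rq K (φ w y) = (N w : K) * (y : C0 W K).co w +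
        -((N w : K) * (y : C0 W K).co w - algebraMap Rq K (φ w y)) := by ring
    rw [e]
    refine (IsUltrametricDist.norm_add_le_max _ _).trans (max_le ?_ ?_)
    · rw [hn]
      exact (C0.norm_co_le _ _).trans h
    · rw [norm_neg]
      have := key w y
      have := norm_nonneg (y : C0 W K)
      linarith

end

namespace HC

variable {B W H : Type*} [Group W] {M : CoxeterMatrix B} {cs : CoxeterSystem M W} [Ring H]
  [Algebra Rq H] (C : HC cs H) (K : Type*) [NontriviallyNormedField K] [CompleteSpace K]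
  [IsUltrametricDist K] [Algebra Rq K] [GoodK K]

theorem exists_approx_int (J : Finset B) (v : C0 W K) {δ : ℝ} (hδ : 0 < δ) :
    ∃ N : ℤ, N ≠ 0 ∧ ∃ h, ‖(N : K) • v - C.kap K J h‖ < δ := by
  obtain ⟨g, hg, -⟩ := C0.exists_approx v hδ
  obtain ⟨N, hN, r, hr⟩ := l3_common g.support (fun w => g w) (half_pos hδ)
  let ρ : W →₀ Rq := Finsupp.onFinset g.support (fun w => if w ∈ g.support then r w else 0)
    fun w hw => by
      by_contra hc
      exact hw (if_neg hc)
  refine ⟨N, hN, (C.bJ J).repr.symm ρ, ?_⟩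
  have e : (N : K) • v - C.kap K J ((C.bJ J).repr.symm ρ) =
      (N : K) • (v - C0.fs g) + ((N : K) • C0.fs g - C.kap K J ((C.bJ J).repr.symm ρ)) := by
    rw [smul_sub]
    abel
  rw [e]
  refine (IsUltrametricDist.norm_add_le_max _ _).trans_lt (max_lt ?_ ?_)
  · rw [norm_smul, norm_intK hN, one_mul]
    exact hg
  · refine (C0.norm_le (half_pos hδ).le fun w => ?_).trans_lt (half_lt_self hδ)
    rw [C0.co_sub, C0.co_smul, C0.co_fs, C.co_kap, LinearEquiv.apply_symm_apply,
      Finsupp.onFinset_apply]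
    by_cases hw : w ∈ g.support
    · rw [if_pos hw]
      exact (hr w hw).le
    · rw [if_neg hw, Finsupp.notMem_support_iff.1 hw]
      simpa using (half_pos hδ).le

end HC

end Pool.Agent.P.MP_74db7f_al
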