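import Pool.Agent.P.MP_74db7f_al.F.Ce1
import Pool.Agent.P.MP_74db7f_al.F.E3

/-! L4: the graded lattice (paper, section 9). -/

set_option linter.unusedSectionVars false

namespace Pool.Agent.P.MP_74db7f_al

open scoped Classical Topology
open Filter

namespace HC

variable {B W H : Type*} [Group W] {M : CoxeterMatrix B} {cs : CoxeterSystem M W} [Ring H]
  [Algebra Rq H] (C : HC cs H) (K : Type*) [NontriviallyNormedField K] [CompleteSpace K]
  [IsUltrametricDist K] [Algebra Rq K] [GoodK K]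

/-- the part of `ε κ(H)` with degrees in `F` -/
noncomputable def L0 (J : Finset B) (ε : Op W K) (F : Finset (Lat C.n)) :
    Submodule Rq (C0 W K) :=
  Submodule.span Rq {y | ∃ w, C.degW J w ∈ F ∧ y = ε (C0.sg w)}

/-- projection to the degrees in `F + deg x` -/
noncomputable def l4_Q (J : Finset B) (F : Finset (Lat C.n)) (x : Lat C.n) : Op W K :=
  if C.Fix J x then ∑ f ∈ F, C.PD K J (f + C.deg J x) else 0

/-- the component of index `x` -/
noncomputable def l4_P (J : Finset B) (F : Finset (Lat C.n)) (x : Lat C.n) : Op W K :=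
  C.Tht K J (-x) * C.l4_Q K J F x

/-- `X w` is the class of the degree of `w` -/
def l4_Rep (J : Finset B) (F : Finset (Lat C.n)) (X : W → Lat C.n) : Prop :=
  (∀ w, C.Fix J (X w)) ∧ ∀ w x, C.Fix J x → (C.degW J w - C.deg J x ∈ F ↔ X w = x)

omit [CompleteSpace K] [IsUltrametricDist K] [GoodK K] in
theorem l4_rsmul (G : Op W K) (r : Rq) (v : C0 W K) : G (r • v) = r • G v := by
  rw [← algebraMap_smul K r v, map_smul, algebraMap_smul]

omit [CompleteSpace K] [IsUltrametricDist K] [GoodK K] [Algebra Rq K] in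
theorem l4_co_sum {ι : Type*} (s : Finset ι) (f : ι → C0 W K) (w : W) :
    (∑ i ∈ s, f i).co w = ∑ i ∈ s, (f i).co w :=
  map_sum (C0.ev w) f s

theorem l4_conv {ι A A' A'' : Type*} [AddCommGroup ι] [Zero A] [Zero A'] [AddCommMonoid A'']
    (a : ι →₀ A) (b : ι →₀ A') (g : A → A' → A'') (hg : ∀ l, g l 0 = 0) (x : ι) :
    (a.sum fun y l => b.sum fun y' φ => Finsupp.single (y + y') (g l φ)) x =
      ∑ y ∈ a.support, g (a y) (b (x - y)) := by
  rw [Finsupp.sum, Finsupp.finsetSum_apply]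
  refine Finset.sum_congr rfl fun y _ => ?_
  rw [Finsupp.sum, Finsupp.finsetSum_apply, Finset.sum_eq_single (x - y)]
  · simp
  · intro y' _ hy'
    exact Finsupp.single_eq_of_ne fun e => hy' (by rw [e, add_sub_cancel_left])
  · intro h
    rw [Finsupp.notMem_support_iff.1 h, hg]
    simp

variable {C K} {J : Finset B}

theorem l4_fix_neg {x : Lat C.n} (hx : C.Fix J x) : C.Fix J (-x) := fun j hj => by
  rw [map_neg, hx j hj, neg_zero]

theorem l4_fix_sub {x y : Lat C.n} (hx : C.Fix J x) (hy : C.Fix J y) : C.Fix J (x - y) :=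
  fun j hj => by rw [map_sub, hx j hj, hy j hj, sub_zero]

theorem l4_ind {p : H → Prop} (J : Finset B) (h0 : p 0) (h1 : ∀ w, p (C.TJ J w))
    (h2 : ∀ a b, p a → p b → p (a + b)) (h3 : ∀ (r : Rq) a, p a → p (r • a)) (h : H) : p h := by
  refine Submodule.span_induction (p := fun h _ => p h) ?_ h0 (fun a b _ _ => h2 a b)
    (fun r a _ => h3 r a) ((C.bJ J).mem_span h)
  rintro _ ⟨w, rfl⟩
  rw [bJ_apply]
  exact h1 w

theorem l4_exists_rep (hJ : J ⊆ C.S0) : ∃ F X, C.l4_Rep J F X := by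
  obtain ⟨F, hF⟩ := C.exists_deg_reps hJ
  choose p hp hu using fun w : W => hF (C.degW J w) (C.fix_deg hJ _)
  refine ⟨F, fun w => (p w).1, fun w => (hp w).1, fun w x hx => ⟨fun h => ?_, ?_⟩⟩
  · have := hu w (x, C.degW J w - C.deg J x) ⟨hx, h, by
      rw [C.deg_of_fix hJ hx, add_sub_cancel]⟩
    exact (congrArg Prod.fst this).symm
  · rintro rfl
    rw [C.deg_of_fix hJ (hp w).1]
    have := (hp w).2.2
    rw [← sub_eq_iff_eq_add'] at this
    rw [this]
    exact (hp w).2.1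

variable {F : Finset (Lat C.n)} {X : W → Lat C.n}

theorem l4_co_Q (hX : C.l4_Rep J F X) (x : Lat C.n) (ξ : C0 W K) (w : W) :
    (C.l4_Q K J F x ξ).co w = if X w = x then ξ.co w else 0 := by
  by_cases hx : C.Fix J x
  · rw [l4_Q, if_pos hx, _root_.sum_apply, l4_co_sum]
    simp only [co_PD, ← sub_eq_iff_eq_add, Finset.sum_ite_eq, hX.2 w x hx]
  · rw [l4_Q, if_neg hx, if_neg fun e : X w = x => hx (e ▸ hX.1 w)]
    rfl

theorem l4_Q_sg (hX : C.l4_Rep J F X) (x : Lat C.n) (w : W) :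
    C.l4_Q K J F x (C0.sg w) = if X w = x then C0.sg w else 0 := by
  ext v
  rw [l4_co_Q hX, C0.co_sg]
  by_cases hv : v = w
  · subst hv
    split_ifs <;> simp_all [C0.co_sg]
  · split_ifs <;> simp_all [C0.co_sg]

theorem l4_Q_Q (hX : C.l4_Rep J F X) (x : Lat C.n) {ξ : C0 W K} (h : C.l4_Q K J F 0 ξ = ξ) :
    C.l4_Q K J F x ξ = if x = 0 then ξ else 0 := by
  split_ifs with hx
  · rw [hx, h]
  · ext w
    rw [l4_co_Q hX, ← h, l4_co_Q hX]
    split_ifs with h1 h2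
    · exact absurd (h1.symm.trans h2) hx
    · rfl
    · rfl

theorem l4_P_not {x : Lat C.n} (hx : ¬ C.Fix J x) : C.l4_P K J F x = 0 := by
  rw [l4_P, l4_Q, if_neg hx, mul_zero]

theorem l4_norm_P (hJ : J ⊆ C.S0) (x : Lat C.n) (ξ : C0 W K) :
    ‖C.l4_P K J F x ξ‖ = ‖C.l4_Q K J F x ξ‖ := by
  by_cases hx : C.Fix J x
  · exact C.norm_Tht_apply K hJ (l4_fix_neg hx) _
  · rw [l4_P_not hx, l4_Q, if_neg hx]

theorem l4_norm_P_le (hJ : J ⊆ C.S0) (hX : C.l4_Rep J F X) (x : Lat C.n) (ξ : C0 W K) :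
    ‖C.l4_P K J F x ξ‖ ≤ ‖ξ‖ := by
  rw [l4_norm_P hJ]
  refine C0.norm_le (norm_nonneg _) fun w => ?_
  rw [l4_co_Q hX]
  split_ifs
  · exact ξ.norm_co_le w
  · simp

theorem l4_norm_le (hJ : J ⊆ C.S0) (hX : C.l4_Rep J F X) {ξ : C0 W K} {c : ℝ} (hc : 0 ≤ c)
    (h : ∀ x, ‖C.l4_P K J F x ξ‖ ≤ c) : ‖ξ‖ ≤ c := by
  refine C0.norm_le hc fun w => ?_
  have := (C.l4_Q K J F (X w) ξ).norm_co_le w
  rw [l4_co_Q hX, if_pos rfl, ← l4_norm_P hJ] at this
  exact this.trans (h _)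

theorem l4_P_Tht (hJ : J ⊆ C.S0) (x : Lat C.n) {y : Lat C.n} (hy : C.Fix J y) :
    C.l4_P K J F x * C.Tht K J y = C.l4_P K J F (x - y) := by
  by_cases hx : C.Fix J x
  · have e : C.l4_Q K J F x * C.Tht K J y = C.Tht K J y * C.l4_Q K J F (x - y) := by
      rw [l4_Q, l4_Q, if_pos hx, if_pos (l4_fix_sub hx hy), Finset.sum_mul, Finset.mul_sum]
      refine Finset.sum_congr rfl fun f _ => ?_
      rw [← C.PD_Tht K hJ, map_sub, add_assoc, sub_add_cancel]
    rw [l4_P, l4_P, mul_assoc, e, ← mul_assoc, ← C.Tht_add K hJ, neg_sub, neg_add_eq_sub]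
  · have : ¬ C.Fix J (x - y) := fun h => hx (by simpa using l4_fix_sub h (l4_fix_neg hy))
    rw [l4_P_not hx, l4_P_not this, zero_mul]

theorem l4_Tht_P (hJ : J ⊆ C.S0) (x : Lat C.n) :
    C.Tht K J x * C.l4_P K J F x = C.l4_Q K J F x := by
  rw [l4_P, ← mul_assoc, ← C.Tht_add K hJ, add_neg_cancel, C.Tht_zero K hJ, one_mul]

/-- reconstruction from the components -/
theorem l4_recon (hJ : J ⊆ C.S0) (hX : C.l4_Rep J F X) {ξ : C0 W K} {s : Finset (Lat C.n)}
    (hs : ∀ y ∉ s, C.l4_P K J F y ξ = 0) : ξ = ∑ y ∈ s, C.Tht K J y (C.l4_P K J F y ξ) := by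
  have e : ∀ y, C.Tht K J y (C.l4_P K J F y ξ) = C.l4_Q K J F y ξ := fun y => by
    rw [← l4_Tht_P hJ y]
    rfl
  ext w
  simp only [l4_co_sum, e, l4_co_Q hX, Finset.sum_ite_eq]
  split_ifs with h
  · rfl
  · have := congrArg (fun v => C0.co v w) (e (X w))
    simp only [hs _ h, map_zero, l4_co_Q hX, if_true] at this
    exact this.symm

theorem l4_key (hJ : J ⊆ C.S0) (hX : C.l4_Rep J F X) {ξ : C0 W K} {s : Finset (Lat C.n)}
    (hs : ∀ y ∉ s, C.l4_P K J F y ξ = 0) (h : H) (x : Lat C.n) :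
    C.l4_P K J F x (C.Rop K J h ξ) =
      ∑ y ∈ s, C.l4_P K J F (x - y) (C.Rop K J h (C.l4_P K J F y ξ)) := by
  conv_lhs => rw [l4_recon hJ hX hs]
  rw [map_sum, map_sum]
  refine Finset.sum_congr rfl fun y _ => ?_
  by_cases hy : C.Fix J y
  · rw [← l4_P_Tht hJ x hy]
    have := C.Lop_Rop K hJ (C.th_mem_HJ J y) h
    exact congrArg (C.l4_P K J F x) (congrArg (fun G : Op W K => G (C.l4_P K J F y ξ)) this.symm)
  · simp [l4_P_not hy]

variable (hJ : J ⊆ C.S0) {ε : Op W K} (hε : C.IsE K J ε)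
include hJ hε

omit hJ in
theorem l4_Q_eps (x : Lat C.n) (ξ : C0 W K) : C.l4_Q K J F x (ε ξ) = ε (C.l4_Q K J F x ξ) := by
  have : C.l4_Q K J F x * ε = ε * C.l4_Q K J F x := by
    rw [l4_Q]
    split_ifs
    · rw [Finset.sum_mul, Finset.mul_sum]
      exact Finset.sum_congr rfl fun f _ => (hε.commP _).symm
    · simp
  exact congrArg (fun G : Op W K => G ξ) this

theorem l4_P_sg (hX : C.l4_Rep J F X) (x : Lat C.n) (w : W) : C.l4_P K J F x (ε (C0.sg w)) =
    if X w = x then ε (C0.sg (C.tr (-X w) * w)) else 0 := by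
  show C.Tht K J (-x) (C.l4_Q K J F x (ε (C0.sg w))) = _
  rw [l4_Q_eps hε, l4_Q_sg hX]
  split_ifs with h
  · subst h
    rw [← C.Tht_sg K hJ (l4_fix_neg (hX.1 w))]
    exact congrArg (fun G : Op W K => G (C0.sg w)) (hε.commL _ (C.th_mem_HJ J _)).symm
  · simp

omit hJ hε in
theorem l4_sg_mem (hX : C.l4_Rep J F X) (w : W) :
    ε (C0.sg (C.tr (-X w) * w)) ∈ C.L0 K J ε F := by
  refine Submodule.subset_span ⟨_, ?_, rfl⟩
  rw [C.degW_tr_mul, map_neg, neg_add_eq_sub]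
  exact (hX.2 w _ (hX.1 w)).2 rfl

omit hJ hε in
theorem l4_L_kap {l : C0 W K} (hl : l ∈ C.L0 K J ε F) : ∃ h, l = ε (C.kap K J h) := by
  induction hl using Submodule.span_induction with
  | mem y hy =>
    obtain ⟨w, -, rfl⟩ := hy
    exact ⟨C.TJ J w, by rw [kap_TJ]⟩
  | zero => exact ⟨0, by simp⟩
  | add a b _ _ ha hb =>
    obtain ⟨h, rfl⟩ := ha
    obtain ⟨h', rfl⟩ := hb
    exact ⟨h + h', by simp⟩
  | smul r a _ ha =>
    obtain ⟨h, rfl⟩ := ha
    exact ⟨r • h, by rw [map_smul, l4_rsmul]⟩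

omit hJ in
theorem l4_L_Q (hX : C.l4_Rep J F X) {l : C0 W K} (hl : l ∈ C.L0 K J ε F) :
    C.l4_Q K J F 0 l = l := by
  induction hl using Submodule.span_induction with
  | mem y hy =>
    obtain ⟨w, hw, rfl⟩ := hy
    rw [l4_Q_eps hε, l4_Q_sg hX, if_pos]
    exact (hX.2 w 0 fun _ _ => map_zero _).1 (by rwa [map_zero, sub_zero])
  | zero => simp
  | add a b _ _ ha hb => rw [map_add, ha, hb]
  | smul r a _ ha => rw [l4_rsmul, ha]

theorem l4_Rop (h h' : H) : C.Rop K J h' (ε (C.kap K J h)) = ε (C.kap K J (h * h')) := by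
  rw [← C.Rop_kap K J h' h]
  exact congrArg (fun G : Op W K => G (C.kap K J h)) (GG_Rop hJ hε.mem h').symm

omit hJ hε in
theorem l4_pd_mem {δ : Lat C.n} (hδ : δ ∈ F) (h : H) :
    ε (C.kap K J (C.pd J δ h)) ∈ C.L0 K J ε F := by
  refine l4_ind (C := C) (p := fun h => ε (C.kap K J (C.pd J δ h)) ∈ C.L0 K J ε F) J ?_ ?_ ?_ ?_ h
  · simp
  · intro w
    rw [pd_TJ]
    split_ifs with e
    · exact Submodule.subset_span ⟨w, e ▸ hδ, by rw [kap_TJ]⟩
    · simp
  · intro a b ha hb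
    simp only [map_add]
    exact add_mem ha hb
  · intro r a ha
    rw [map_smul, map_smul, l4_rsmul]
    exact Submodule.smul_mem _ _ ha

/-- `reduce` -/
theorem L0_fg (F : Finset (Lat C.n)) : (C.L0 K J ε F).FG := by
  choose S h1 h2 _ using fun δ => reduce (K := K) hJ δ
  refine ⟨F.biUnion fun δ => (S δ).image fun f => ε (C.kap K J f), le_antisymm ?_ ?_⟩
  · rw [Submodule.span_le]
    intro y hy
    simp only [Finset.coe_biUnion, Set.mem_iUnion, Finset.coe_image, Finset.mem_coe] at hy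
    obtain ⟨δ, hδ, f, hf, rfl⟩ := hy
    have := l4_pd_mem (ε := ε) (J := J) hδ f
    rwa [h1 δ f hf] at this
  · refine Submodule.span_le.2 ?_
    rintro _ ⟨w, hw, rfl⟩
    obtain ⟨β, hβ⟩ := h2 _ w rfl
    have e : ε (C.kap K J (C.TJ J w - ∑ f ∈ S (C.degW J w), β f • f)) = 0 := by
      rw [← (GG_e hJ hε.mem).2, mul_apply_eq_comp, hβ, map_zero]
    rw [map_sub, map_sub, sub_eq_zero, kap_TJ, map_sum, map_sum] at e
    rw [e]
    refine Submodule.sum_mem _ fun f hf => ?_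
    rw [map_smul, l4_rsmul]
    refine Submodule.smul_mem _ _ (Submodule.subset_span ?_)
    simp only [Finset.coe_biUnion, Set.mem_iUnion, Finset.coe_image, Finset.mem_coe]
    exact ⟨_, hw, f, hf, rfl⟩

theorem l4_dec (hX : C.l4_Rep J F X) : ∃ dec : H →ₗ[Rq] (Lat C.n →₀ C.L0 K J ε F),
    ∀ h x, (dec h x : C0 W K) = C.l4_P K J F x (ε (C.kap K J h)) := by
  refine ⟨(C.bJ J).constr Rq fun w => Finsupp.single (X w) ⟨_, l4_sg_mem hX w⟩, fun h x => ?_⟩
  refine l4_ind (C := C) (p := fun h => (((C.bJ J).constr Rq (fun w => Finsupp.single (X w)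
    (⟨_, l4_sg_mem hX w⟩ : C.L0 K J ε F)) h x : C.L0 K J ε F) : C0 W K) =
      C.l4_P K J F x (ε (C.kap K J h))) J ?_ ?_ ?_ ?_ h
  · simp
  · intro w
    rw [kap_TJ, l4_P_sg hJ hε hX, ← bJ_apply, Module.Basis.constr_basis, Finsupp.single_apply]
    split_ifs <;> rfl
  · intro a b ha hb
    simp only [map_add, Finsupp.add_apply, Submodule.coe_add, ha, hb]
  · intro r a ha
    rw [map_smul, map_smul, l4_rsmul, l4_rsmul, ← ha]
    rfl

theorem l4_rho (hX : C.l4_Rep J F X) :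
    ∃ ρ : H →ₗ[Rq] (Lat C.n →₀ Module.End Rq (C.L0 K J ε F)),
      ∀ h x l, (ρ h x l : C0 W K) = C.l4_P K J F x (C.Rop K J h l) := by
  obtain ⟨dec, hd⟩ := l4_dec hJ hε hX
  have hmem : ∀ h x (l : C.L0 K J ε F), C.l4_P K J F x (C.Rop K J h l) ∈ C.L0 K J ε F := by
    intro h x l
    obtain ⟨h0, e⟩ := l4_L_kap l.2
    rw [e, l4_Rop hJ hε, ← hd]
    exact (dec _ x).2
  let ρ0 : H → Lat C.n → Module.End Rq (C.L0 K J ε F) := fun h x =>
    { toFun := fun l => ⟨_, hmem h x l⟩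
      map_add' := fun a b => Subtype.ext (by simp)
      map_smul' := fun r a => Subtype.ext (by
        simp only [Submodule.coe_smul, l4_rsmul, RingHom.id_apply]) }
  have hfin : ∀ h, (Function.support (ρ0 h)).Finite := by
    intro h
    obtain ⟨S, hS⟩ := L0_fg hJ hε F
    have hk : ∀ v : S, ∃ h0, (v : C0 W K) = ε (C.kap K J h0) := fun v =>
      l4_L_kap (F := F) (hS ▸ Submodule.subset_span v.2)
    choose g hg using hk
    refine (Finset.univ.biUnion fun v : S => (dec (g v * h)).support).finite_toSet.subset ?_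
    intro x hx
    by_contra hc
    simp only [Finset.coe_biUnion, Finset.coe_univ, Set.mem_univ, Set.iUnion_true, Set.mem_iUnion,
      Finset.mem_coe, Finsupp.mem_support_iff, not_exists, not_not] at hc
    apply hx
    have : ∀ l ∈ Submodule.span Rq (S : Set (C0 W K)), C.l4_P K J F x (C.Rop K J h l) = 0 := by
      intro l hl
      induction hl using Submodule.span_induction with
      | mem y hy =>
        have := hg ⟨y, hy⟩
        simp only at this
        rw [this, l4_Rop hJ hε, ← hd, hc]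
        rfl
      | zero => simp
      | add a b _ _ ha hb => rw [map_add, map_add, ha, hb, add_zero]
      | smul r a _ ha => rw [l4_rsmul, l4_rsmul, ha, smul_zero]
    exact LinearMap.ext fun l => Subtype.ext (this l (by rw [hS]; exact l.2))
  refine ⟨{ toFun := fun h => Finsupp.ofSupportFinite (ρ0 h) (hfin h)
            map_add' := fun a b => ?_
            map_smul' := fun r a => ?_ }, fun _ _ _ => rfl⟩
  · ext x l : 2
    refine Subtype.ext ?_
    show C.l4_P K J F x (C.Rop K J (a + b) l) =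
      C.l4_P K J F x (C.Rop K J a l) + C.l4_P K J F x (C.Rop K J b l)
    rw [Rop_add, _root_.add_apply, map_add]
  · ext x l : 2
    refine Subtype.ext ?_
    show C.l4_P K J F x (C.Rop K J (r • a) l) = r • C.l4_P K J F x (C.Rop K J a l)
    rw [Rop_smul, _root_.smul_apply, map_smul, algebraMap_smul]

/-- With `F` from `exists_deg_reps` and `Q x = ∑_{f ∈ F} PD (|W_J| x + f)` for `x ∈ X^J`:
`dec h x = Θ_{-x} Q x ε κ h`, `ρ h x l = Θ_{-x} Q x R(h) l` (and `0` if `x ∉ X^J`). -/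
theorem exists_lattice : ∃ L : Submodule Rq (C0 W K), L.FG ∧
    (∀ l ∈ L, ∃ h, l = ε (C.kap K J h)) ∧
    ∃ (dec : H →ₗ[Rq] (Lat C.n →₀ L)) (ρ : H →ₗ[Rq] (Lat C.n →₀ Module.End Rq L)),
      (∀ h (c : ℝ), 0 ≤ c → (‖ε (C.kap K J h)‖ ≤ c ↔ ∀ x, ‖(dec h x : C0 W K)‖ ≤ c)) ∧
      ρ 1 = Finsupp.single 0 1 ∧
      (∀ h h', ρ (h * h') =
        (ρ h).sum fun y φ => (ρ h').sum fun y' φ' => Finsupp.single (y + y') (φ' * φ)) ∧
      (∀ h h', dec (h * h') =
        (dec h).sum fun y l => (ρ h').sum fun y' φ' => Finsupp.single (y + y') (φ' l)) ∧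
      (∀ h, ε * C.Rop K J h = 0 → ρ h = 0) ∧
      ∀ h x (l : L), ‖(ρ h x l : C0 W K)‖ ≤ ‖C.Rop K J h‖ * ‖(l : C0 W K)‖ := by
  obtain ⟨F, X, hX⟩ := l4_exists_rep (C := C) hJ
  obtain ⟨dec, hd⟩ := l4_dec hJ hε hX
  obtain ⟨ρ, hρ⟩ := l4_rho hJ hε hX
  refine ⟨C.L0 K J ε F, L0_fg hJ hε F, fun l hl => l4_L_kap hl, dec, ρ, ?_, ?_, ?_, ?_, ?_, ?_⟩
  · intro h c hc
    simp only [hd]
    exact ⟨fun e x => (l4_norm_P_le hJ hX x _).trans e, l4_norm_le hJ hX hc⟩
  · ext x l : 2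
    refine Subtype.ext ?_
    rw [hρ, Rop_one, one_apply_eq_self, Finsupp.single_apply]
    show C.Tht K J (-x) (C.l4_Q K J F x l) = _
    rw [l4_Q_Q hX x (l4_L_Q hε hX l.2)]
    by_cases hx : x = 0
    · subst hx
      rw [if_pos rfl, if_pos rfl, neg_zero, C.Tht_zero K hJ]
      rfl
    · rw [if_neg hx, if_neg (Ne.symm hx), map_zero]
      rfl
  · intro h h'
    ext x l : 2
    refine Subtype.ext ?_
    rw [l4_conv (ρ h) (ρ h') (fun φ φ' => φ' * φ) (fun _ => zero_mul _), hρ, Rop_mul,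
      mul_apply_eq_comp, l4_key hJ hX (s := (ρ h).support) fun y hy => by
        rw [← hρ, Finsupp.notMem_support_iff.1 hy]
        rfl]
    simp only [LinearMap.sum_apply, Module.End.mul_apply, Submodule.coe_sum, hρ]
  · intro h h'
    ext x : 1
    refine Subtype.ext ?_
    rw [l4_conv (dec h) (ρ h') (fun l φ' => φ' l) (fun _ => rfl), hd, ← l4_Rop hJ hε,
      l4_key hJ hX (s := (dec h).support) fun y hy => by
        rw [← hd, Finsupp.notMem_support_iff.1 hy]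
        rfl]
    simp only [Submodule.coe_sum, hρ, hd]
  · intro h e
    ext x l : 2
    refine Subtype.ext ?_
    obtain ⟨h0, e0⟩ := l4_L_kap l.2
    have : C.Rop K J h (ε (C.kap K J h0)) = 0 := by
      rw [← mul_apply_eq_comp, ← GG_Rop hJ hε.mem, e]
      rfl
    rw [hρ, e0, this, map_zero]
    rfl
  · intro h x l
    rw [hρ]
    exact (l4_norm_P_le hJ hX x _).trans ((C.Rop K J h).le_opNorm _)

end HC

end Pool.Agent.P.MP_74db7f_al
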