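import Pool.Agent.P.MP_74db7f_al.F.L2
import Pool.Agent.P.MP_74db7f_al.F.L3
import Pool.Agent.P.MP_74db7f_al.F.L4
import Pool.Agent.P.MP_74db7f_al.F.E4

/-! L5: the matrix blocks (paper, section 9). -/

namespace Pool.Agent.P.MP_74db7f_al

open scoped Classical Topology
open Filter

open Matrix

theorem l5_coeff {N : Type*} [AddCommGroup N] [Module Rq N] {n s : ℕ}
    (j : N →ₗ[Rq] (Fin s → Rq)) (Λ : Module.End Rq N →ₗ[Rq] Matrix (Fin s) (Fin s) Rq)
    (hj : ∀ φ l, j (φ l) = j l ᵥ* Λ φ) (a : Lat n →₀ N) (r : Lat n →₀ Module.End Rq N) (c : Rq)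
    (P : Matrix (Fin s) (Fin s) (LA Rq n))
    (hP : ∀ i b x, (P i b).coeff x = Λ (r x) i b + if x = 0 then c * (1 - Λ 1) i b else 0)
    (m : Fin s → LA Rq n) (hm : ∀ i x, (m i).coeff x = j (a x) i) (b : Fin s) (x : Lat n) :
    ((m ᵥ* P) b).coeff x = j (∑ y ∈ a.support, r (x - y) (a y)) b := by
  have e1 : ∀ i, (m i * P i b).coeff x =
      ∑ y ∈ a.support, j (a y) i * (P i b).coeff (x - y) := by
    intro i
    rw [AddMonoidAlgebra.coeff_mul_apply_left, Finsupp.sum_of_support_subset (s := a.support)]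
    · refine Finset.sum_congr rfl fun y _ => ?_
      rw [hm, neg_add_eq_sub]
    · intro y hy
      rw [Finsupp.mem_support_iff] at hy ⊢
      intro e
      apply hy
      rw [hm, e, map_zero]
      rfl
    · intro y _
      exact zero_mul _
  have e0 : ∀ l : N, ∑ i, j l i * (1 - Λ 1) i b = 0 := by
    intro l
    have h1 : (j l ᵥ* (1 - Λ 1)) b = 0 := by
      rw [vecMul_sub, vecMul_one, ← hj, Module.End.one_apply, sub_self]
      rfl
    exact h1
  have e2 : (m ᵥ* P) b = ∑ i, m i * P i b := rfl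
  rw [e2, AddMonoidAlgebra.coeff_sum, Finsupp.finsetSum_apply, map_sum, Finset.sum_apply]
  simp only [e1]
  rw [Finset.sum_comm]
  refine Finset.sum_congr rfl fun y _ => ?_
  have e3 : j (r (x - y) (a y)) b = ∑ i, j (a y) i * Λ (r (x - y)) i b := by
    rw [hj]
    rfl
  simp only [hP, mul_add, Finset.sum_add_distrib]
  rw [e3, add_eq_left]
  split_ifs
  · simp only [mul_left_comm _ c]
    rw [← Finset.mul_sum, e0, mul_zero]
  · simp

theorem l5_dot {n s : ℕ} (u : Fin s → LA Rq n) (c : Fin s → Rq) (x : Lat n) :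
    (u ⬝ᵥ fun b => AddMonoidAlgebra.single 0 (c b)).coeff x =
      (fun b => (u b).coeff x) ⬝ᵥ c := by
  simp only [dotProduct]
  rw [AddMonoidAlgebra.coeff_sum, Finsupp.finsetSum_apply]
  exact Finset.sum_congr rfl fun b _ => AddMonoidAlgebra.coeff_mul_single_zero _ _ _

theorem l5_unif {ι : Type*} [Fintype ι] (p : ι → ℕ → Prop)
    (hm : ∀ i k l, k ≤ l → p i k → p i l) (h : ∀ i, ∃ k, p i k) : ∃ k, ∀ i, p i k := by
  choose k hk using h
  exact ⟨∑ i, k i, fun i => hm i _ _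
    (Finset.single_le_sum (f := k) (fun _ _ => Nat.zero_le _) (Finset.mem_univ i)) (hk i)⟩

theorem l5_GD_vec {ι : Type*} [Fintype ι] {n : ℕ} (u : ι → LA Rq n) :
    ∃ E : ℕ, ∀ i, GD E (u i) :=
  l5_unif (fun i k => GD k (u i)) (fun _ _ _ hk h => h.mono (by exact_mod_cast hk))
    fun i => exists_GD (u i)

theorem l5_ultra {E : Type*} [NormedAddCommGroup E] [IsUltrametricDist E] {a b : E} {c : ℝ}
    (h : ‖a - b‖ ≤ c) : ‖a‖ ≤ c ↔ ‖b‖ ≤ c := by
  constructor
  · intro ha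
    have e : b = a + -(a - b) := by abel
    rw [e]
    exact (IsUltrametricDist.norm_add_le_max _ _).trans (max_le ha (by rwa [norm_neg]))
  · intro hb
    have e : a = b + (a - b) := by abel
    rw [e]
    exact (IsUltrametricDist.norm_add_le_max _ _).trans (max_le hb h)

/-- `exists_proj` and `exists_pi` combined -/
theorem l5_rep {H : Type*} [Ring H] [Algebra Rq H] {n : ℕ}
    (L : Type*) [AddCommGroup L] [Module Rq L] [Module.Finite Rq L]
    (htf : ∀ (r : Rq) (l : L), r • l = 0 → r = 0 ∨ l = 0)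
    (χ : H →ₐ[Rq] Rq) (ρ : H →ₗ[Rq] (Lat n →₀ Module.End Rq L)) (h1 : ρ 1 = Finsupp.single 0 1)
    (hm : ∀ h h', ρ (h * h') =
      (ρ h).sum fun y φ => (ρ h').sum fun y' φ' => Finsupp.single (y + y') (φ' * φ)) :
    ∃ (s : ℕ) (j : L →ₗ[Rq] (Fin s → Rq)) (π : H →ₐ[Rq] Matrix (Fin s) (Fin s) (LA Rq n))
      (l : Fin s → L) (A : Matrix (Fin s) (Fin s) Rq) (c : ℕ),
      (∀ ψ : L →ₗ[Rq] Rq, ∃ c : Fin s → Rq, ∀ l, ψ l = j l ⬝ᵥ c) ∧
      (∀ h, ρ h = 0 → χ h = 0 → π h = 0) ∧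
      (∀ h a b x (k : ℤ), j (ρ h x (l a)) b ∈ dR k → χ h * A a b ∈ dR (k + c) →
        (π h a b).coeff x ∈ dR (k + c)) ∧
      ∀ (a : Lat n →₀ L) (m : Fin s → LA Rq n), (∀ i x, (m i).coeff x = j (a x) i) →
        ∀ h b x, ((m ᵥ* π h) b).coeff x = j (∑ y ∈ a.support, ρ h (x - y) (a y)) b := by
  obtain ⟨s, j, Λ, hΛm, hj, hψ, d, hd, l, hdl⟩ := exists_proj L htf
  obtain ⟨π, hπ⟩ := exists_pi χ ρ h1 hm Λ hΛm
  obtain ⟨c, hc⟩ := dR_of_mul hd
  refine ⟨s, j, π, l, 1 - Λ 1, c, hψ, ?_, ?_, ?_⟩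
  · intro h e1 e2
    ext a b x : 3
    rw [hπ, e1, e2]
    simp
  · intro h a b x k g1 g2
    rw [hπ]
    refine add_mem (hc _ _ ?_) ?_
    · rw [hdl]
      exact g1
    · split_ifs
      · exact g2
      · exact zero_mem _
  · intro a m hm h b x
    exact l5_coeff j Λ hj a (ρ h) (χ h) (π h) (hπ h) m hm b x

namespace HC

variable {B W H : Type*} [Group W] {M : CoxeterMatrix B} {cs : CoxeterSystem M W} [Ring H]
  [Algebra Rq H] (C : HC cs H) (K : Type*) [NontriviallyNormedField K] [CompleteSpace K]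
  [IsUltrametricDist K] [Algebra Rq K] [GoodK K]

/-- the sign character as an algebra homomorphism -/
noncomputable def chiA : H →ₐ[Rq] Rq :=
  AlgHom.ofLinearMap (chi cs C.L C.Tb) (chi_one C.hL C.hT) (chi_mul C.hL C.hT)

theorem chiA_mem {h : H} (hh : h ∈ Dg C.Tb 0) : C.chiA h ∈ dR 0 := by
  show chi cs C.L C.Tb h ∈ dR 0
  rw [← C.Tb.linearCombination_repr h, Finsupp.linearCombination_apply, Finsupp.sum, map_sum]
  refine sum_mem fun z _ => ?_
  rw [map_smul, smul_eq_mul, chi_T]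
  have h1 : ((-1) ^ cs.length z * LaurentPolynomial.T (-(C.L z : ℤ)) : Rq) ∈ dR 0 := by
    have h2 : (LaurentPolynomial.T (-(C.L z : ℤ)) : Rq) ∈ dR 0 := T_mem_dR (by omega)
    rcases neg_one_pow_eq_or Rq (cs.length z) with e | e
    · rwa [e, one_mul]
    · rw [e, neg_one_mul]
      exact neg_mem h2
  simpa using mul_mem_dR (hh z) h1

omit [CompleteSpace K] [IsUltrametricDist K] in
theorem l5_pow (x : ℝ) : ∃ k : ℕ, x ≤ ‖qK K‖ ^ (k : ℤ) := by
  obtain ⟨k, hk⟩ := pow_unbounded_of_one_lt x (GoodK.one_lt (K := K))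
  exact ⟨k, by rw [zpow_natCast]; exact hk.le⟩

variable {C K} {J : Finset B} (hJ : J ⊆ C.S0) {ε : Op W K} (hε : C.IsE K J ε)
  (hr : Rat K (kerF K ε))
include hJ hε hr

/-- `exists_lattice`, `Rat.indep`, `exists_proj`, `exists_pi`, `fun_bound`, `exists_funs`,
`dR_of_mul`, `norm_Rop`; `m a = ∑_x θ^x j (dec h₀ x) a`, `ψ i` constant -/
theorem block0 (h0 : H) : ∃ (s t : ℕ) (π : H →ₐ[Rq] Matrix (Fin s) (Fin s) (LA Rq C.n))
    (m : Fin s → LA Rq C.n) (ψ : Fin t → Fin s → LA Rq C.n) (D : ℕ),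
    (∀ h ∈ Dg C.Tb 0, ∀ a b, GD D (π h a b)) ∧
    (∀ h, ε * C.Rop K J h = 0 → C.chiA h = 0 → π h = 0) ∧
    ∀ h k, (∀ i, GD k ((m ᵥ* π h) ⬝ᵥ ψ i)) ↔
      ‖C.Rop K J h (ε (C.kap K J h0))‖ ≤ ‖qK K‖ ^ k := by
  obtain ⟨L, hfg, hLk, dec, ρ, hnorm, hρ1, hρm, hdec, hρ0, hρb⟩ := exists_lattice hJ hε
  have hQ : 1 < ‖qK K‖ := GoodK.one_lt
  have hQ0 : 0 < ‖qK K‖ := by linarith
  have hind : ∀ (k : ℕ) (l : Fin k → C0 W K), (∀ i, l i ∈ L) → LinearIndependent Rq l →
      LinearIndependent K l := by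
    intro k l hl hli
    choose g hg using fun i => hLk _ (hl i)
    obtain rfl : l = fun i => ε (C.kap K J (g i)) := funext hg
    exact Rat.indep hr g hli
  have htf : ∀ (r : Rq) (l : C0 W K), r • l = 0 → r = 0 ∨ l = 0 := by
    intro r l e
    rw [← algebraMap_smul K r l] at e
    exact (smul_eq_zero.1 e).imp (fun h => algK_injective (K := K) (by rw [h, map_zero])) id
  have : Module.Finite Rq L := Module.Finite.iff_fg.2 hfg
  obtain ⟨s, j, π, l, A, cd, hψ, hz, hb, hco⟩ := l5_rep L (fun r l e =>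
    (htf r l (congrArg Subtype.val e)).imp id fun e => Subtype.ext e) C.chiA ρ hρ1 hρm
  obtain ⟨t, ψ0, hψ0⟩ := exists_funs L hfg hind
  choose c hc using fun i => hψ (ψ0 i)
  have hD : ∃ D : ℕ, ∀ p : Fin s × Fin s, ∀ h ∈ Dg C.Tb 0, GD D (π h p.1 p.2) := by
    refine l5_unif (fun (p : Fin s × Fin s) (D : ℕ) => ∀ h ∈ Dg C.Tb 0, GD D (π h p.1 p.2))
      (fun _ _ _ hk h g hg => (h g hg).mono (by exact_mod_cast hk)) ?_
    rintro ⟨a, b⟩
    obtain ⟨cb, hcb⟩ := fun_bound L hfg hind ((LinearMap.proj b).comp j)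
    obtain ⟨ka, hka⟩ := l5_pow K ‖(l a : C0 W K)‖
    obtain ⟨e, he⟩ := exists_dR (A a b)
    refine ⟨C.Nb + ka + cb + e + cd, fun h hh x => ?_⟩
    have h1 : ‖(ρ h x (l a) : C0 W K)‖ ≤ ‖qK K‖ ^ (0 + (C.Nb : ℤ) + ka) := by
      rw [zpow_add₀ hQ0.ne']
      exact (hρb h x _).trans (mul_le_mul (C.norm_Rop K J hh) hka (norm_nonneg _)
        (zpow_nonneg hQ0.le _))
    have h2 : j (ρ h x (l a)) b ∈ dR (0 + (C.Nb : ℤ) + ka + cb) := hcb _ _ h1
    push_cast
    exact hb h a b x _ (dR_mono (by omega) h2)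
      (dR_mono (by omega) (mul_mem_dR (C.chiA_mem hh) he))
  obtain ⟨D, hD⟩ := hD
  obtain ⟨m, hm⟩ : ∃ m : Fin s → LA Rq C.n, ∀ i x, (m i).coeff x = j (dec h0 x) i :=
    ⟨fun i => AddMonoidAlgebra.ofCoeff ((dec h0).mapRange (fun y => j y i) (by simp)),
      fun _ _ => rfl⟩
  refine ⟨s, t, π, m, fun i b => AddMonoidAlgebra.single 0 (c i b), D,
    fun h hh a b => hD (a, b) h hh, fun h e1 e2 => hz h (hρ0 h e1) e2, ?_⟩
  intro h k
  rw [l4_Rop hJ hε, hnorm _ _ (zpow_nonneg hQ0.le _)]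
  simp only [← hψ0, GD]
  rw [forall_comm]
  refine forall_congr' fun x => forall_congr' fun i => ?_
  rw [l5_dot, hc, hdec, l4_conv (dec h0) (ρ h) (fun l φ' => φ' l) (fun _ => rfl),
    funext fun b => hco (dec h0) m hm h b x]

/-- `exists_approx_int` with `δ = ‖q‖^(-Nb-1)`, `block0`, `twist` with `τ = q^n`, reindex -/
theorem block (v : C0 W K) : ∃ n0 : ℕ, ∀ n ≥ n0,
    ∃ (N : ℕ) (σ : H →ₐ[Rq] Matrix (Fin N) (Fin N) (LA Rq C.n)),
      (∀ h, ε * C.Rop K J h = 0 → C.chiA h = 0 → σ h = 0) ∧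
      ∀ h ∈ Dg C.Tb 0, C.chiA h = 0 → ∀ k : ℤ, -1 ≤ k →
        ((∀ a b, GD (2 * n + k) (σ h a b)) ↔ ‖C.Rop K J h (ε v)‖ ≤ ‖qK K‖ ^ k) := by
  have hQ : 1 < ‖qK K‖ := GoodK.one_lt
  have hQ0 : 0 < ‖qK K‖ := by linarith
  obtain ⟨N, hN, h0, hv⟩ := C.exists_approx_int K J v (zpow_pos hQ0 (-(C.Nb : ℤ) - 1))
  obtain ⟨s, t, π, m, ψ, D, hD, hz, hk⟩ := block0 hJ hε hr h0
  obtain ⟨E, hE⟩ := l5_GD_vec m
  obtain ⟨E', hE'⟩ := l5_GD_vec fun p : Fin t × Fin s => ψ p.1 p.2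
  refine ⟨D + E + E' + 1, fun n hn => ?_⟩
  obtain ⟨σ, hσ⟩ := twist C.chiA π m ψ (algebraMap Rq (LA Rq C.n) (LaurentPolynomial.T n))
  let e := Fintype.equivFin (Option (Fin s ⊕ Fin t))
  refine ⟨_, (Matrix.reindexAlgEquiv Rq (LA Rq C.n) e).toAlgHom.comp σ, ?_, ?_⟩
  · intro h e1 e2
    obtain ⟨h1, h2, h3, h4, h5, h6⟩ := hσ h e2
    have : σ h = 0 := by
      have hp := hz h e1 e2
      refine Matrix.ext fun a b => ?_
      rcases b with _ | b
      · exact h1 a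
      rcases a with _ | a | a
      · rcases b with b | b
        · rw [h5, hp]
          simp
        · rw [h6, hp]
          simp
      · rcases b with b | b
        · rw [h3, hp]
          rfl
        · rw [h4, hp]
          simp
      · exact h2 a _
    rw [AlgHom.comp_apply, this, map_zero]
  · intro h hh e2 k hk1
    obtain ⟨h1, h2, h3, h4, h5, h6⟩ := hσ h e2
    have hre : (∀ a b, GD (2 * n + k)
        (((Matrix.reindexAlgEquiv Rq (LA Rq C.n) e).toAlgHom.comp σ) h a b)) ↔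
        ∀ a b, GD (2 * n + k) (σ h a b) := by
      constructor
      · intro hh a b
        have := hh (e a) (e b)
        simpa using this
      · intro hh a b
        exact hh (e.symm a) (e.symm b)
    have hT : ∀ f : LA Rq C.n,
        GD (2 * n + k) (-(algebraMap Rq (LA Rq C.n) (LaurentPolynomial.T n)) ^ 2 * f) ↔
          GD k f := by
      intro f
      rw [← map_pow, LaurentPolynomial.T_pow, neg_mul, Nat.cast_ofNat]
      refine ⟨fun h => (GD_T_mul (2 * n)).1 ?_, fun h => ((GD_T_mul (2 * n)).2 h).neg⟩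
      have := h.neg
      rwa [neg_neg] at this
    have hnv : ‖C.Rop K J h (ε v)‖ ≤ ‖qK K‖ ^ k ↔
        ‖C.Rop K J h (ε (C.kap K J h0))‖ ≤ ‖qK K‖ ^ k := by
      have e1 : ‖C.Rop K J h (ε v)‖ = ‖C.Rop K J h (ε ((N : K) • v))‖ := by
        rw [map_smul, map_smul, norm_smul, norm_intK hN, one_mul]
      rw [e1]
      refine l5_ultra ?_
      rw [← map_sub, ← map_sub]
      have b1 : ‖ε ((N : K) • v - C.kap K J h0)‖ ≤ ‖qK K‖ ^ (-(C.Nb : ℤ) - 1) :=
        (ε.le_opNorm _).trans ((mul_le_of_le_one_left (norm_nonneg _)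
          (IsE.norm_le hJ hε)).trans hv.le)
      refine ((C.Rop K J h).le_opNorm _).trans ((mul_le_mul (C.norm_Rop K J hh) b1
        (norm_nonneg _) (zpow_nonneg hQ0.le _)).trans ?_)
      rw [← zpow_add₀ hQ0.ne']
      exact zpow_le_zpow_right₀ hQ.le (by omega)
    rw [hre, hnv, ← hk]
    constructor
    · intro hh' i
      rw [← hT, ← h6]
      exact hh' _ _
    · intro hh' a b
      rcases b with _ | b
      · rw [h1]
        exact GD.zero _
      rcases a with _ | a | a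
      · rcases b with b | b
        · rw [h5]
          have g1 : GD (E + D) ((m ᵥ* π h) b) :=
            GD.sum (s := Finset.univ) (a := fun i => m i * π h i b)
              fun i _ => (hE i).mul (hD h hh i b)
          exact ((GD_T_mul n).2 g1).mono (by omega)
        · rw [h6, hT]
          exact hh' b
      · rcases b with b | b
        · rw [h3]
          exact (hD h hh a b).mono (by omega)
        · rw [h4, neg_mul]
          have g1 : GD (D + E') ((π h *ᵥ ψ b) a) :=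
            GD.sum (s := Finset.univ) (a := fun i => π h a i * ψ b i)
              fun i _ => (hD h hh a i).mul (hE' (b, i))
          exact (((GD_T_mul n).2 g1).mono (by omega)).neg
      · rw [h2]
        exact GD.zero _

end HC

end Pool.Agent.P.MP_74db7f_al
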