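import Pool.Agent.P.MP_74db7f_al.F.L2

/-! L6: from Laurent polynomials to polynomials; the balance criterion (paper, section 9). -/

namespace Pool.Agent.P.MP_74db7f_al

open scoped Classical

universe u v

theorem l6_eigen {m S L : Type*} [Fintype m] [DecidableEq m] [CommRing S] [CommRing L]
    (ev : S →+* L) (u : (Matrix m m S)ˣ) (t : Lˣ) (w : m → L)
    (h : (u.val.map ev).mulVec w = t.val • w) (k : ℤ) :
    ((u ^ k).val.map ev).mulVec w = (t ^ k).val • w := by
  have h' : (u⁻¹.val.map ev).mulVec w = t⁻¹.val • w := by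
    have e : (u⁻¹.val.map ev).mulVec ((u.val.map ev).mulVec w) = w := by
      rw [Matrix.mulVec_mulVec, ← Matrix.map_mul, Units.inv_mul,
        Matrix.map_one _ (map_zero ev) (map_one ev), Matrix.one_mulVec]
    rw [h, Matrix.mulVec_smul] at e
    conv_rhs => rw [← e, smul_smul, Units.inv_mul, one_smul]
  induction k using Int.induction_on with
  | zero => simp
  | succ k ih =>
    rw [zpow_add_one, zpow_add_one, Units.val_mul, Units.val_mul, Matrix.map_mul,
      ← Matrix.mulVec_mulVec, h, Matrix.mulVec_smul, ih, smul_smul, mul_comm]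
  | pred k ih =>
    rw [zpow_sub_one, zpow_sub_one, Units.val_mul, Units.val_mul, Matrix.map_mul,
      ← Matrix.mulVec_mulVec, h', Matrix.mulVec_smul, ih, smul_smul, mul_comm]

/-- companion matrix of `T² - y T + 1` -/
def l6_comp {S : Type*} [CommRing S] (y : S) : (Matrix (Fin 2) (Fin 2) S)ˣ where
  val := !![0, 1; -1, y]
  inv := !![y, -1; 1, 0]
  val_inv := by
    ext i j
    fin_cases i <;> fin_cases j <;> simp
  inv_val := by
    ext i j
    fin_cases i <;> fin_cases j <;> simp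

theorem l6_phi (n : ℕ) : ∃ φ : Multiplicative (Lat n) →*
    Matrix (Fin n → Fin 2) (Fin n → Fin 2) (MvPolynomial (Fin n) ℤ),
    ∀ (s : Finset (Lat n)) (c : Lat n → ℤ), ∑ x ∈ s, c x • φ (.ofAdd x) = 0 →
      ∀ x ∈ s, c x = 0 := by
  let u : Fin n → (Matrix (Fin 2) (Fin 2) (MvPolynomial (Fin n) ℤ))ˣ :=
    fun i => l6_comp (MvPolynomial.X i)
  let φ : Multiplicative (Lat n) →*
      Matrix (Fin n → Fin 2) (Fin n → Fin 2) (MvPolynomial (Fin n) ℤ) :=
    { toFun := fun x => Matrix.of fun a b => ∏ i, (u i ^ x.toAdd i).val (a i) (b i)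
      map_one' := by
        ext1 a b
        simp only [toAdd_one, Pi.zero_apply, zpow_zero, Units.val_one, Matrix.of_apply,
          Matrix.one_apply, Finset.prod_boole, Finset.mem_univ, forall_true_left, funext_iff]
      map_mul' := fun x y => by
        ext1 a b
        simp only [toAdd_mul, Pi.add_apply, zpow_add, Units.val_mul, Matrix.of_apply,
          Matrix.mul_apply, Finset.prod_univ_sum, Fintype.piFinset_univ,
          Finset.prod_mul_distrib] }
  have hφ : ∀ y a b, φ (.ofAdd y) a b = ∏ i, (u i ^ y i).val (a i) (b i) := fun _ _ _ => rfl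
  refine ⟨φ, fun s c h x hx => ?_⟩
  clear_value φ
  let τ : Multiplicative (Lat n) →* (LA ℤ n)ˣ := (AddMonoidAlgebra.of ℤ (Lat n)).toHomUnits
  let t : Fin n → (LA ℤ n)ˣ := fun i => τ (.ofAdd (Pi.single i 1))
  let ev : MvPolynomial (Fin n) ℤ →+* LA ℤ n :=
    MvPolynomial.eval₂Hom (algebraMap ℤ _) fun i => (t i).val + (t i)⁻¹.val
  let w : Fin n → Fin 2 → LA ℤ n := fun i => ![1, (t i).val]
  have h1 : ∀ i, ((u i).val.map ev).mulVec (w i) = (t i).val • w i := fun i => by
    ext1 j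
    fin_cases j
    · simp [u, w, l6_comp, Matrix.mulVec, dotProduct]
    · simp [u, w, ev, l6_comp, Matrix.mulVec, dotProduct, add_mul]
  have h2 : ∀ y : Lat n, ∑ b, ev (φ (.ofAdd y) 0 b) * ∏ i, w i (b i) =
      AddMonoidAlgebra.single y 1 := fun y => by
    have e1 : ∀ i, ∑ j, ev ((u i ^ y i).val 0 j) * w i j = (t i ^ y i).val := fun i => by
      have := congrFun (l6_eigen ev (u i) (t i) (w i) (h1 i) (y i)) 0
      simpa [Matrix.mulVec, dotProduct, w] using this
    have e2 : ∏ i, t i ^ y i = τ (.ofAdd y) := by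
      simp only [t, ← map_zpow, ← map_prod, ← ofAdd_zsmul, ← ofAdd_sum]
      congr 2
      ext j
      simp [Pi.single_apply]
    have e3 : ∑ b, ev (φ (.ofAdd y) 0 b) * ∏ i, w i (b i) =
        ∏ i, ∑ j, ev ((u i ^ y i).val 0 j) * w i j := by
      rw [Finset.prod_univ_sum, Fintype.piFinset_univ]
      refine Finset.sum_congr rfl fun b _ => ?_
      rw [Finset.prod_mul_distrib, ← map_prod, hφ]
      simp only [Pi.zero_apply]
    rw [e3, Finset.prod_congr rfl fun i _ => e1 i, ← Units.coe_prod, e2,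
      MonoidHom.coe_toHomUnits, AddMonoidAlgebra.of_apply, toAdd_ofAdd]
  have h3 : ∑ y ∈ s, c y • (AddMonoidAlgebra.single y 1 : LA ℤ n) = 0 := by
    have : ∑ b, ev ((∑ y ∈ s, c y • φ (.ofAdd y)) 0 b) * ∏ i, w i (b i) = 0 := by
      rw [h]
      simp
    rw [← this]
    simp only [← h2, Matrix.sum_apply, Matrix.smul_apply, map_sum, map_zsmul, Finset.sum_mul,
      Finset.smul_sum, smul_mul_assoc]
    exact Finset.sum_comm
  have h4 := congrArg (fun f : LA ℤ n => f.coeff x) h3
  simpa [AddMonoidAlgebra.coeff_sum, Finsupp.finsetSum_apply, Finsupp.single_apply, hx] using h4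

/-- `θ^{e_i}` acts by the companion matrix of `T² - y_i T + 1` on the `i`-th factor of
`(ℤ²)^{⊗ n}`. Everything is defined over `ℤ`; under `y_i ↦ θ^{e_i} + θ^{-e_i}` the vector
`⊗ (1, θ^{e_i})` is an eigenvector of the image of `f` with eigenvalue `f`, so the integral form
is injective. -/
theorem exists_companion (n : ℕ) :
    ∃ (N : ℕ) (Λ : LA Rq n →ₐ[Rq] Matrix (Fin N) (Fin N) (MvPolynomial (Fin n) Rq)), ∀ f k,
      (∀ a b α, (MvPolynomial.coeff α (Λ f a b)).coeff k = 0) ↔
        ∀ x, (f.coeff x).coeff k = 0 := by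
  obtain ⟨φ0, hφ⟩ := l6_phi n
  let e := Fintype.equivFin (Fin n → Fin 2)
  let ψ : MvPolynomial (Fin n) ℤ →+* MvPolynomial (Fin n) Rq := MvPolynomial.map (algebraMap ℤ Rq)
  let φ : Multiplicative (Lat n) →* Matrix (Fin n → Fin 2) (Fin n → Fin 2)
      (MvPolynomial (Fin n) Rq) := ψ.mapMatrix.toMonoidHom.comp φ0
  refine ⟨_, (Matrix.reindexAlgEquiv Rq _ e).toAlgHom.comp
    (AddMonoidAlgebra.lift Rq _ (Lat n) φ), fun f k => ?_⟩
  have key : ∀ a b α, (MvPolynomial.coeff α
      (AddMonoidAlgebra.lift Rq _ (Lat n) φ f a b)).coeff k = MvPolynomial.coeff α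
        ((∑ x ∈ f.coeff.support, (f.coeff x).coeff k • φ0 (.ofAdd x)) a b) := by
    intro a b α
    rw [AddMonoidAlgebra.lift_apply, Finsupp.sum, Matrix.sum_apply, Matrix.sum_apply,
      MvPolynomial.coeff_sum, MvPolynomial.coeff_sum, AddMonoidAlgebra.coeff_sum,
      Finsupp.finsetSum_apply]
    refine Finset.sum_congr rfl fun x _ => ?_
    have : MvPolynomial.coeff α (φ (.ofAdd x) a b) =
        algebraMap ℤ Rq (MvPolynomial.coeff α (φ0 (.ofAdd x) a b)) := MvPolynomial.coeff_map _ _ _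
    rw [Matrix.smul_apply, Matrix.smul_apply, MvPolynomial.coeff_smul, MvPolynomial.coeff_smul,
      this, smul_eq_mul, mul_comm, ← Algebra.smul_def, AddMonoidAlgebra.coeff_smul_apply,
      smul_eq_mul, smul_eq_mul, mul_comm]
  constructor
  · intro h x
    by_cases hx : x ∈ f.coeff.support
    · refine hφ _ (fun x => (f.coeff x).coeff k) ?_ x hx
      ext a b α
      rw [← key]
      simpa using h (e a) (e b) α
    · rw [Finsupp.notMem_support_iff.1 hx]
      rfl
  · intro h a b α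
    refine (key (e.symm a) (e.symm b) α).trans ?_
    simp [h]

variable {H : Type u} [Ring H] [Algebra Rq H]

theorem co_sum {W : Type*} (P : MatRep.{u, v} H) (C : W → H) (c : W →₀ ℤ) (k : ℤ) :
    P.co (c.sum fun x a => a • C x) k = c.sum fun x a => a • P.co (C x) k := by
  let F : H →+ (P.ι → P.ι → (Fin P.m →₀ ℕ) → ℤ) :=
    { toFun := fun h => P.co h k
      map_zero' := by
        funext a b α
        simp [MatRep.co, RightMod.entry]
      map_add' := fun x y => by
        funext a b α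
        simp [MatRep.co, RightMod.entry] }
  show F _ = c.sum fun x a => a • F (C x)
  rw [map_finsuppSum]
  simp only [map_zsmul]

theorem l6_act {R S H ι : Type*} [CommRing R] [CommRing S] [Algebra R S] [Ring H] [Algebra R H]
    [Fintype ι] [DecidableEq ι] (τ : H →ₐ[R] Matrix ι ι S) :
    ∃ act : Hᵐᵒᵖ →ₐ[R] Module.End S (ι →₀ S), ∀ h a b,
      act (MulOpposite.op h) (Finsupp.single a 1) b = τ h a b := by
  let f : H → Module.End S (ι →₀ S) := fun h =>
    Finsupp.linearCombination S fun a => Finsupp.equivFunOnFinite.symm fun b => τ h a b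
  have hf : ∀ h v b, f h v b = ∑ c, v c * τ h c b := fun h v b => by
    simp only [f]
    rw [Finsupp.linearCombination_apply, Finsupp.sum_fintype _ _ (fun _ => by simp),
      Finsupp.finsetSum_apply]
    rfl
  have ext1 : ∀ g g' : Module.End S (ι →₀ S), (∀ v b, g v b = g' v b) → g = g' :=
    fun g g' e => LinearMap.ext fun v => Finsupp.ext (e v)
  refine ⟨⟨⟨⟨⟨fun x => f x.unop, ?_⟩, ?_⟩, ?_, ?_⟩, ?_⟩, fun h a b => ?_⟩
  · refine ext1 _ _ fun v b => ?_
    simp [hf, Matrix.one_apply]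
  · intro x y
    refine ext1 _ _ fun v b => ?_
    simp only [Module.End.mul_apply, hf, MulOpposite.unop_mul, map_mul, Matrix.mul_apply,
      Finset.mul_sum, Finset.sum_mul, mul_assoc]
    exact Finset.sum_comm
  · refine ext1 _ _ fun v b => ?_
    simp [hf]
  · intro x y
    refine ext1 _ _ fun v b => ?_
    simp [hf, mul_add, Finset.sum_add_distrib]
  · intro r
    refine ext1 _ _ fun v b => ?_
    simp only [hf, MulOpposite.algebraMap_apply, MulOpposite.unop_op, AlgHom.commutes,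
      Module.algebraMap_end_apply, Matrix.algebraMap_matrix_apply, mul_ite, mul_zero,
      Finset.sum_ite_eq', Finset.mem_univ, if_true, Finsupp.smul_apply, Algebra.smul_def]
    exact mul_comm _ _
  · refine (hf h _ b).trans ?_
    simp [Finsupp.single_apply]

/-- block matrices (`Matrix.comp`), row vectors, `ι = ULift (Fin N × Fin N')` -/
theorem exists_matRep {n N : ℕ} (σ : H →ₐ[Rq] Matrix (Fin N) (Fin N) (LA Rq n)) :
    ∃ P : MatRep.{u, v} H, Finite P.ι ∧
      ∀ h k, P.co h k = 0 ↔ ∀ a b x, ((σ h a b).coeff x).coeff k = 0 := by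
  obtain ⟨N', Λ, hΛ⟩ := exists_companion n
  obtain ⟨act, hact⟩ := l6_act ((Matrix.reindexAlgEquiv Rq _
    (Equiv.ulift.{v}.symm : Fin N × Fin N' ≃ ULift.{v} (Fin N × Fin N'))).toAlgHom.comp
    ((Matrix.compAlgEquiv (Fin N) (Fin N') (MvPolynomial (Fin n) Rq) Rq).toAlgHom.comp
      (Λ.mapMatrix.comp σ)))
  refine ⟨⟨n, _, act⟩, inferInstance, fun h k => ?_⟩
  have key : ∀ a b α, MatRep.co ⟨n, _, act⟩ h k a b α =
      (MvPolynomial.coeff α (Λ (σ h a.down.1 b.down.1) a.down.2 b.down.2)).coeff k :=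
    fun a b α => congrArg (fun p => (MvPolynomial.coeff α p).coeff k) (hact h a b)
  constructor
  · intro e a b
    refine (hΛ _ k).1 fun a' b' α => ?_
    rw [← key ⟨(a, a')⟩ ⟨(b, b')⟩ α, e]
    rfl
  · intro e
    funext a b α
    rw [key]
    exact (hΛ _ k).2 (e _ _) _ _ α

theorem balanced_of {W : Type v} (Cb : Module.Basis W Rq H) {Γ : Set W} (hΓ : Γ.Nonempty)
    {n N : ℕ} (σ : H →ₐ[Rq] Matrix (Fin N) (Fin N) (LA Rq n)) (a : ℕ)
    (h1 : ∀ x, (¬ ∃ y ∈ Γ, LeLR Cb y x) → σ (Cb x) = 0)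
    (h2 : ∀ x i j, GD a (σ (Cb x) i j))
    (h3 : ∀ x ∉ Γ, ∀ i j, GD (a - 1) (σ (Cb x) i j))
    (h4 : ∀ c : W →₀ ℤ, c ≠ 0 → (∀ x ∈ c.support, x ∈ Γ) →
      ¬ ∀ i j, GD (a - 1) (σ (c.sum fun x r => r • Cb x) i j)) :
    ∃ P : MatRep.{u, v} H, Finite P.ι ∧ Balanced Cb Γ P a := by
  obtain ⟨P, hfin, hP⟩ := exists_matRep.{u, v} σ
  have b2 : ∀ x (k : ℤ), (a : ℤ) < k → P.co (Cb x) k = 0 := fun x k hk =>
    (hP _ _).2 fun i j y => h2 x i j y k hk
  have b4 : ∀ c : W →₀ ℤ, (∀ x ∈ c.support, x ∈ Γ) →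
      (c.sum fun x r => r • P.co (Cb x) a) = 0 → c = 0 := by
    intro c hc h0
    by_contra hne
    refine h4 c hne hc fun i j y k hk => (hP _ k).1 ?_ i j y
    rw [co_sum]
    rcases eq_or_lt_of_le (show (a : ℤ) ≤ k by omega) with e | e
    · rw [← e]
      exact h0
    · simp [b2 _ k e]
  have b3 : ∀ x, P.co (Cb x) a ≠ 0 ↔ x ∈ Γ := fun x => by
    constructor
    · intro h
      by_contra hx
      exact h ((hP _ _).2 fun i j y => h3 x hx i j y a (by omega))
    · intro hx h
      have := b4 (Finsupp.single x 1) (fun y hy => by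
        rw [Finset.mem_singleton.1 (Finsupp.support_single_subset hy)]
        exact hx) (by simpa using h)
      simp at this
  refine ⟨P, hfin, fun x hx k => (hP _ _).2 fun i j y => ?_, ⟨b2, fun m hm => ?_⟩, b3, ?_⟩
  · rw [h1 x hx]
    rfl
  · obtain ⟨x, hx⟩ := hΓ
    by_contra hlt
    exact (b3 x).2 hx (hm x a (by omega))
  · refine linearIndependent_iff.2 fun l hl => ?_
    have := b4 (l.embDomain (Function.Embedding.subtype _)) (fun x hx => by
      rw [Finsupp.support_embDomain, Finset.mem_map] at hx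
      obtain ⟨y, -, rfl⟩ := hx
      exact y.2) (by
      rw [Finsupp.sum_embDomain]
      exact hl)
    exact Finsupp.embDomain_eq_zero.1 this

end Pool.Agent.P.MP_74db7f_al
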