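import Pool.Agent.P.MP_74db7f_al.F.Ce6
import Pool.Agent.P.MP_74db7f_al.F.L5
import Pool.Agent.P.MP_74db7f_al.F.L6
import Pool.Agent.P.MP_74db7f_al.F.K1

/-! Fin1: the representations of the cells (paper, section 9). -/

namespace Pool.Agent.P.MP_74db7f_al

open scoped Classical Topology
open Filter

universe u v

namespace HC

variable {B : Type*} {W : Type v} {H : Type u} [Group W] {M : CoxeterMatrix B}
  {cs : CoxeterSystem M W} [Ring H] [Algebra Rq H] (C : HC cs H) {bar : H →+* H}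
  {Cb : Module.Basis W Rq H}

theorem fin1_int_dR (r : ℤ) : ((r : ℤ) : Rq) ∈ dR 0 := by
  intro k hk
  rw [← eq_intCast (LaurentPolynomial.C : ℤ →+* Rq) r, LaurentPolynomial.C_apply, if_neg (by omega)]

theorem fin1_zsmul {b : Module.Basis W Rq H} {k : ℤ} {h : H} (hh : h ∈ Dg b k) (r : ℤ) :
    r • h ∈ Dg b k := AddSubgroup.zsmul_mem _ hh r

theorem sum_C_mem (hC : IsKL cs C.Tb bar Cb) (c : W →₀ ℤ) :
    (c.sum fun x r => r • Cb x) ∈ Dg C.Tb 0 ∧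
      (c ≠ 0 → (c.sum fun x r => r • Cb x) ∉ Dg C.Tb (-1)) := by
  refine ⟨sum_mem fun x _ => fin1_zsmul (hC.C_mem x) _, fun hc h => hc ?_⟩
  have h1 : (c.sum fun x r => r • (Cb x - C.Tb x)) ∈ Dg C.Tb (-1) :=
    sum_mem fun x _ => fin1_zsmul (hC.diff x) _
  have h2 : (c.sum fun x r => r • C.Tb x) ∈ Dg C.Tb (-1) := by
    have := sub_mem h h1
    simpa only [Finsupp.sum, ← Finset.sum_sub_distrib, ← smul_sub, sub_sub_cancel] using this
  ext y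
  have h3 := h2 y 0 (by omega)
  have h4 : C.Tb.repr (c.sum fun x r => r • C.Tb x) y = ((c y : ℤ) : Rq) := by
    simp only [Finsupp.sum, map_sum, map_zsmul, Module.Basis.repr_self, Finsupp.finset_sum_apply,
      Finsupp.smul_apply, Finsupp.single_apply]
    rw [Finset.sum_eq_single y]
    · simp
    · intro b _ hb
      simp [hb]
    · intro hy
      simp [Finsupp.notMem_support_iff.1 hy]
  rw [h4, ← eq_intCast (LaurentPolynomial.C : ℤ →+* Rq), LaurentPolynomial.C_apply,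
    if_pos rfl] at h3
  simpa using h3

theorem fin1_GD_one {n N : ℕ} {k : ℤ} (hk : 0 ≤ k) (i j : Fin N) :
    GD k ((1 : Matrix (Fin N) (Fin N) (LA Rq n)) i j) := by
  rw [Matrix.one_apply]
  split_ifs
  · intro x
    rw [AddMonoidAlgebra.one_def, AddMonoidAlgebra.coeff_single, Finsupp.single_apply]
    split_ifs
    · exact dR_mono hk (by simpa using fin1_int_dR 1)
    · exact zero_mem _
  · exact GD.zero _

theorem fin1_chi (hB : IsBar C.Tb bar) (hC : IsKL cs C.Tb bar Cb) {x : W} (hx : x ≠ 1) :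
    C.chiA (Cb x) = 0 := chi_C C.hL C.hT hB hC hx

theorem fin1_lt {K : Type*} [NontriviallyNormedField K] [CompleteSpace K]
    [IsUltrametricDist K] [Algebra Rq K] [GoodK K] {y : C0 W K} :
    ‖y‖ ≤ ‖qK K‖ ^ (-1 : ℤ) ↔ ‖y‖ < 1 := by
  rw [zpow_neg_one]
  exact ⟨fun h => h.trans_lt (inv_lt_one_of_one_lt₀ GoodK.one_lt), C0.norm_le_inv⟩

/-- `exists_goodK`, `exists_isV`; a uniform `n` from `block` and `finite_isE`; for a cell take
`exists_cell_idem` for every `J`, the `dsum` of the blocks over `(J, u)`; `detect`, `chi_C`,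
`le_one` -/
theorem exists_cell_rep [Finite B] (hB : IsBar C.Tb bar) (hC : IsKL cs C.Tb bar Cb) :
    ∃ a : ℕ, ∀ Γ, IsCell Cb Γ → 1 ∉ Γ →
      ∃ P : MatRep.{u, v} H, Finite P.ι ∧ Balanced Cb Γ P a := by
  obtain ⟨K, _, _, _, _, _⟩ := exists_goodK
  have hv : ∀ (J : Finset B) (u : W), ∃ v : C0 W K, J ⊆ C.S0 → C.IsV K J u v := fun J u => by
    by_cases hJ : J ⊆ C.S0
    · obtain ⟨v, hv⟩ := exists_isV (C := C) (K := K) hJ u
      exact ⟨v, fun _ => hv⟩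
    · exact ⟨0, fun h => absurd h hJ⟩
  choose v hv using hv
  let Blk : Finset B → W → Op W K → ℕ → Prop := fun J u ε n =>
    ∃ (N : ℕ) (σ : H →ₐ[Rq] Matrix (Fin N) (Fin N) (LA Rq C.n)),
      (∀ h, ε * C.Rop K J h = 0 → C.chiA h = 0 → σ h = 0) ∧
      ∀ h ∈ Dg C.Tb 0, C.chiA h = 0 → ∀ k : ℤ, -1 ≤ k →
        ((∀ a b, GD (2 * n + k) (σ h a b)) ↔ ‖C.Rop K J h (ε (v J u))‖ ≤ ‖qK K‖ ^ k)
  have hb : ∀ t : Finset B × W × Op W K, ∃ n0 : ℕ, t.1 ⊆ C.S0 → C.IsE K t.1 t.2.2 →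
      Rat K (kerF K t.2.2) → ∀ n ≥ n0, Blk t.1 t.2.1 t.2.2 n := fun t => by
    by_cases h : t.1 ⊆ C.S0 ∧ C.IsE K t.1 t.2.2 ∧ Rat K (kerF K t.2.2)
    · obtain ⟨n0, hn0⟩ := block h.1 h.2.1 h.2.2 (v t.1 t.2.1)
      exact ⟨n0, fun _ _ _ => hn0⟩
    · exact ⟨0, fun h1 h2 h3 => absurd ⟨h1, h2, h3⟩ h⟩
  choose n0 hn0 using hb
  have hfin : {t : Finset B × W × Op W K | t.1 ⊆ C.S0 ∧ t.2.1 ∈ C.Mn C.S0 t.1 ∧
      C.IsE K t.1 t.2.2}.Finite := by
    refine ((C.S0.powerset.finite_toSet).biUnion fun J hJ => (Set.finite_singleton J).prod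
      ((C.Mn C.S0 J).finite_toSet.prod (finite_isE (C := C) (K := K)
        (Finset.mem_powerset.1 hJ)))).subset ?_
    rintro ⟨J, u, ε⟩ ⟨h1, h2, h3⟩
    exact Set.mem_biUnion (Finset.mem_coe.2 (Finset.mem_powerset.2 h1)) ⟨rfl, h2, h3⟩
  obtain ⟨n1, hn1⟩ := (hfin.image n0).bddAbove
  refine ⟨2 * (n1 + 1), fun Γ hΓ h1 => ?_⟩
  have hε : ∀ J : Finset B, ∃ ε : Op W K, J ⊆ C.S0 → _ := fun J => by
    by_cases hJ : J ⊆ C.S0
    · obtain ⟨ε, hε⟩ := exists_cell_idem (C := C) (K := K) hJ hC hΓ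
      exact ⟨ε, fun _ => hε⟩
    · exact ⟨0, fun h => absurd h hJ⟩
  choose ε hε using hε
  let s : Finset (Finset B × W) :=
    C.S0.powerset.biUnion fun J => (C.Mn C.S0 J).image fun u => (J, u)
  have hs : ∀ t, t ∈ s ↔ t.1 ⊆ C.S0 ∧ t.2 ∈ C.Mn C.S0 t.1 := by
    rintro ⟨J, u⟩
    simp only [s, Finset.mem_biUnion, Finset.mem_powerset, Finset.mem_image, Prod.mk.injEq]
    constructor
    · rintro ⟨J', h1, u', h2, rfl, rfl⟩
      exact ⟨h1, h2⟩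
    · rintro ⟨h1, h2⟩
      exact ⟨J, h1, u, h2, rfl, rfl⟩
  have hσ : ∀ t : Finset B × W, ∃ (N : ℕ) (σ : H →ₐ[Rq] Matrix (Fin N) (Fin N) (LA Rq C.n)),
      t ∈ s → (∀ h, ε t.1 * C.Rop K t.1 h = 0 → C.chiA h = 0 → σ h = 0) ∧
      ∀ h ∈ Dg C.Tb 0, C.chiA h = 0 → ∀ k : ℤ, -1 ≤ k →
        ((∀ a b, GD (2 * (n1 + 1 : ℕ) + k) (σ h a b)) ↔
          ‖C.Rop K t.1 h (ε t.1 (v t.1 t.2))‖ ≤ ‖qK K‖ ^ k) := fun t => by
    by_cases ht : t ∈ s
    · obtain ⟨h2, h3⟩ := (hs t).1 ht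
      obtain ⟨N, σ, hσ⟩ := hn0 (t.1, t.2, ε t.1) h2 (hε _ h2).1 (hε _ h2).2.1 (n1 + 1)
        (Nat.le_succ_of_le (hn1 ⟨_, ⟨h2, h3, (hε _ h2).1⟩, rfl⟩))
      exact ⟨N, σ, fun _ => hσ⟩
    · exact ⟨1, (Algebra.ofId Rq _).comp C.chiA, fun h => absurd h ht⟩
  choose N σ hσ using hσ
  obtain ⟨N', σ', hσ'⟩ := dsum s N σ
  obtain ⟨y0, hy0⟩ : Γ.Nonempty := by
    obtain ⟨y, rfl⟩ := hΓ
    exact ⟨y, .refl, .refl⟩
  have e0 : (((2 * (n1 + 1) : ℕ) : ℤ)) = 2 * (n1 + 1 : ℕ) + 0 := by push_cast; ring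
  have e1 : (((2 * (n1 + 1) : ℕ) : ℤ)) - 1 = 2 * (n1 + 1 : ℕ) + -1 := by push_cast; ring
  have hone : σ' (Cb 1) = 1 := by rw [hC.one C.hT, map_one]
  refine balanced_of Cb ⟨y0, hy0⟩ σ' _ (fun x hx => ?_) (fun x => ?_) (fun x hx => ?_)
    (fun c hc hcs hG => ?_)
  · have hx1 : x ≠ 1 := fun e => hx ⟨y0, hy0, e ▸ le_one C.hT hC y0⟩
    ext a b : 1
    refine (hσ' (Cb x) (· = 0) rfl).2 (fun t ht a b => ?_) a b
    rw [(hσ t ht).1 _ ((hε _ ((hs t).1 ht).1).2.2.1 x hx) (C.fin1_chi hB hC hx1)]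
    rfl
  · by_cases hx1 : x = 1
    · rw [hx1, hone]
      exact fin1_GD_one (by omega)
    refine (hσ' (Cb x) (GD _) (GD.zero _)).2 fun t ht => ?_
    obtain ⟨h2, h3⟩ := (hs t).1 ht
    rw [e0, (hσ t ht).2 _ (hC.C_mem x) (C.fin1_chi hB hC hx1) 0 (by omega), zpow_zero,
      ← ContinuousLinearMap.mul_apply, ← GG_Rop h2 (hε _ h2).1.mem,
      ContinuousLinearMap.mul_apply]
    refine (ContinuousLinearMap.le_opNorm _ _).trans ?_
    exact mul_le_one₀ ((hε _ h2).1.norm_le h2) (norm_nonneg _)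
      ((hv _ _ h2).norm_le h2 h3 (hC.C_mem x))
  · by_cases hx1 : x = 1
    · rw [hx1, hone]
      exact fin1_GD_one (by omega)
    refine (hσ' (Cb x) (GD _) (GD.zero _)).2 fun t ht => ?_
    obtain ⟨h2, h3⟩ := (hs t).1 ht
    rw [e1, (hσ t ht).2 _ (hC.C_mem x) (C.fin1_chi hB hC hx1) (-1) le_rfl, fin1_lt]
    exact ((hε _ h2).2.2.2 _ h3 _ (hv _ _ h2)).1 x hx
  · obtain ⟨m0, m1⟩ := C.sum_C_mem hC c
    obtain ⟨J, h2, u, h3, h4⟩ := detect (C := C) (K := K) v (fun J hJ u _ => hv J u hJ) m0 (m1 hc)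
    have ht : (J, u) ∈ s := (hs _).2 ⟨h2, h3⟩
    have hχ : C.chiA (c.sum fun x r => r • Cb x) = 0 := by
      rw [Finsupp.sum, map_sum]
      refine Finset.sum_eq_zero fun x hx => ?_
      rw [map_zsmul, C.fin1_chi hB hC (fun e => h1 (e ▸ hcs x hx)), smul_zero]
    have h5 := (hσ' _ (GD _) (GD.zero _)).1 hG _ ht
    rw [e1, (hσ _ ht).2 _ m0 hχ (-1) le_rfl, fin1_lt] at h5
    have h6 := ((hε _ h2).2.2.2 _ h3 _ (hv _ _ h2)).2 c hcs
    have h7 := IsUltrametricDist.norm_add_le_max (C.Rop K J (c.sum fun x r => r • Cb x)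
      (ε J (v J u))) (C.Rop K J (c.sum fun x r => r • Cb x) (v J u - ε J (v J u)))
    rw [← map_add, add_sub_cancel] at h7
    exact absurd (h4.trans h7) (not_le.2 (max_lt h5 h6))

/-- the sign character, `eq_one_of_le` -/
theorem exists_one_rep (hB : IsBar C.Tb bar) (hC : IsKL cs C.Tb bar Cb) {Γ : Set W}
    (hΓ : IsCell Cb Γ) (h1 : 1 ∈ Γ) :
    ∃ P : MatRep.{u, v} H, Finite P.ι ∧ Balanced Cb Γ P 0 := by
  have hΓ1 : ∀ x ∈ Γ, x = 1 := by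
    obtain ⟨y, rfl⟩ := hΓ
    exact fun x hx => eq_one_of_le C.hL C.hT hB hC (h1.1.trans hx.2)
  let σ : H →ₐ[Rq] Matrix (Fin 1) (Fin 1) (LA Rq 0) := (Algebra.ofId Rq _).comp C.chiA
  have h0 : ∀ x, x ≠ 1 → σ (Cb x) = 0 := fun x hx => by
    simp only [σ, AlgHom.comp_apply, C.fin1_chi hB hC hx, map_zero]
  have hone : σ (Cb 1) = 1 := by rw [hC.one C.hT, map_one]
  refine balanced_of Cb ⟨1, h1⟩ σ 0 (fun x hx => h0 x fun e => hx ⟨1, h1, e ▸ .refl⟩)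
    (fun x => ?_) (fun x hx i j => ?_) (fun c hc hcs hG => hc ?_)
  · by_cases hx1 : x = 1
    · rw [hx1, hone]
      exact fin1_GD_one le_rfl
    · rw [h0 x hx1]
      exact fun _ _ => GD.zero _
  · rw [h0 x fun e => hx (e ▸ h1)]
    exact GD.zero _
  · have e : c = Finsupp.single 1 (c 1) := by
      ext x
      by_cases hx : x = 1
      · simp [hx]
      · rw [Finsupp.single_eq_of_ne hx]
        exact Finsupp.notMem_support_iff.1 fun h => hx (hΓ1 x (hcs x h))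
    have h2 := hG 0 0 0 0 (by omega)
    rw [e, Finsupp.sum_single_index (by simp), map_zsmul, hone, Matrix.smul_apply,
      Matrix.one_apply_eq, AddMonoidAlgebra.coeff_smul, AddMonoidAlgebra.one_def,
      AddMonoidAlgebra.coeff_single, Finsupp.smul_apply, Finsupp.single_eq_same, zsmul_one,
      ← eq_intCast (LaurentPolynomial.C : ℤ →+* Rq), LaurentPolynomial.C_apply,
      if_pos rfl] at h2
    rw [e, h2, Finsupp.single_zero]

end HC

end Pool.Agent.P.MP_74db7f_al
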