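import Pool.Agent.P.MP_74db7f_al.F.Fin1
import Pool.Agent.P.MP_74db7f_al.DefsL

/-! Fin2: there are finitely many left cells. -/

namespace Pool.Agent.P.MP_74db7f_al

open scoped Classical Topology
open Filter

namespace HC

variable {B W H : Type*} [Group W] {M : CoxeterMatrix B} {cs : CoxeterSystem M W} [Ring H]
  [Algebra Rq H] (C : HC cs H) (K : Type*) [NontriviallyNormedField K] [CompleteSpace K]
  [IsUltrametricDist K] [Algebra Rq K] [GoodK K]

/-- `X^J` -/
def FixG (J : Finset B) : AddSubgroup (Lat C.n) where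
  carrier := {x | C.Fix J x}
  add_mem' := fun {x y} hx hy j hj => by rw [map_add, hx j hj, hy j hj, add_zero]
  zero_mem' := fun j _ => map_zero _
  neg_mem' := fun {x} hx j hj => by rw [map_neg, hx j hj, neg_zero]

variable {C} {J : Finset B} (hJ : J ⊆ C.S0)

/-- the action of `K[X^J]` -/
noncomputable def actS : AddMonoidAlgebra K (C.FixG J) →ₐ[K] Op W K :=
  AddMonoidAlgebra.lift K (Op W K) (C.FixG J)
    { toFun := fun x => C.Tht K J (x.toAdd : C.FixG J)
      map_one' := C.Tht_zero K hJ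
      map_mul' := fun _ _ => C.Tht_add K hJ _ _ }

variable {K}

theorem actS_apply (s : AddMonoidAlgebra K (C.FixG J)) (ξ : C0 W K) :
    actS K hJ s ξ = ∑ x ∈ s.coeff.support, s.coeff x • C.Tht K J x ξ := by
  rw [actS, AddMonoidAlgebra.lift_apply, Finsupp.sum, ContinuousLinearMap.sum_apply]
  rfl

theorem actS_norm (s : AddMonoidAlgebra K (C.FixG J)) (ξ : C0 W K) :
    ‖actS K hJ s ξ‖ = ‖actS K hJ s (C0.sg 1)‖ * ‖ξ‖ := by
  by_cases hs : s = 0
  · simp [hs]
  have hd : C.dop K J (s.coeff.mapDomain Subtype.val) = actS K hJ s := by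
    rw [dop, Finsupp.sum_mapDomain_index_inj Subtype.val_injective, actS,
      AddMonoidAlgebra.lift_apply]
    rfl
  obtain ⟨c, -, hc⟩ := C.norm_dop K hJ (d := s.coeff.mapDomain Subtype.val)
    (fun a => hs (AddMonoidAlgebra.coeff_injective (Finsupp.mapDomain_injective
      Subtype.val_injective (a.trans Finsupp.mapDomain_zero.symm)))) (fun y hy => by
      obtain ⟨z, -, rfl⟩ := Finset.mem_image.1 (Finsupp.mapDomain_support hy)
      exact z.2)
  rw [hd] at hc
  rw [hc, hc, C0.norm_sg, mul_one]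

theorem actS_coeff (s : AddMonoidAlgebra K (C.FixG J)) (x : C.FixG J) :
    ‖s.coeff x‖ ≤ ‖actS K hJ s (C0.sg 1)‖ := by
  refine le_trans (le_of_eq ?_) (C0.norm_co_le _ (C.tr x))
  rw [actS_apply, ← C0.ev_apply, map_sum, Finset.sum_eq_single x]
  · rw [C.Tht_sg K hJ x.2, mul_one, C0.ev_apply, C0.co_smul, C0.co_sg, if_pos rfl, mul_one]
  · intro y _ hy
    rw [C.Tht_sg K hJ y.2, mul_one, C0.ev_apply, C0.co_smul, C0.co_sg, if_neg, mul_zero]
    exact fun e => hy (Subtype.ext (C.tr_injective e)).symm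
  · intro hx
    rw [Finsupp.notMem_support_iff.1 hx, zero_smul, map_zero]

theorem actS_ip {y y' : C0 W K} {r : ℝ} (hr : 0 ≤ r)
    (h : ∀ z, C.Fix J z → ‖C0.ip y (C.Tht K J z y')‖ ≤ r) (s s' : AddMonoidAlgebra K (C.FixG J)) :
    ‖C0.ip (actS K hJ s y) (actS K hJ s' y')‖ ≤
      ‖actS K hJ s (C0.sg 1)‖ * ‖actS K hJ s' (C0.sg 1)‖ * r := by
  rw [actS_apply hJ s y, actS_apply hJ s' y', map_sum]
  refine IsUltrametricDist.norm_sum_le_of_forall_le_of_nonneg (by positivity) fun x' _ => ?_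
  rw [map_sum, ContinuousLinearMap.sum_apply]
  refine IsUltrametricDist.norm_sum_le_of_forall_le_of_nonneg (by positivity) fun x _ => ?_
  rw [map_smul, map_smul, ContinuousLinearMap.smul_apply, norm_smul, norm_smul,
    C.Tht_adj K hJ x.2, ← ContinuousLinearMap.mul_apply, ← C.Tht_add K hJ, ← mul_assoc,
    mul_comm ‖s'.coeff x'‖]
  exact mul_le_mul (mul_le_mul (actS_coeff hJ s x) (actS_coeff hJ s' x') (norm_nonneg _)
    (norm_nonneg _)) (h _ ((C.FixG J).add_mem ((C.FixG J).neg_mem x.2) x'.2)) (norm_nonneg _)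
      (by positivity)

include hJ in
/-- almost orthogonal cyclic `K[X^J]`-modules in the discrete part -/
theorem card_orth : ∃ m : ℕ, ∀ y : Fin (m + 1) → C0 W K, (∀ i, C.eJ K J (y i) = y i) →
    (∀ i, ‖y i‖ = 1) → ∃ i j, i ≠ j ∧ ∃ z, C.Fix J z ∧ 1 ≤ ‖C0.ip (y i) (C.Tht K J z (y j))‖ := by
  obtain ⟨N, hN⟩ := eJ_small (C := C) (K := K) hJ one_pos
  obtain ⟨F, hF⟩ := C.exists_fin hJ N
  refine ⟨F.card, fun y he h1 => ?_⟩
  by_contra hcon
  push Not at hcon
  set r := ‖qK K‖⁻¹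
  have hr : r < 1 := cp3_inv_lt
  have hr0 : 0 ≤ r := inv_nonneg.2 (norm_nonneg _)
  let ψ : (F → AddMonoidAlgebra K (C.FixG J)) →+ C0 W K :=
    { toFun := fun a => ∑ f : F, actS K hJ (a f) (C0.sg f)
      map_zero' := by simp
      map_add' := fun a b => by simp [Finset.sum_add_distrib] }
  have hψ : ∀ s a, ψ (s • a) = actS K hJ s (ψ a) := fun s a => by
    simp [ψ, map_sum]
  have hsg : ∀ w (c : K), C.lam J w < N → c • C0.sg w ∈ ψ.range := fun w c hw => by
    obtain ⟨x, hx, f, hf, rfl⟩ := hF w hw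
    refine ⟨Pi.single ⟨f, hf⟩ (AddMonoidAlgebra.single ⟨x, hx⟩ c), ?_⟩
    simp only [ψ, AddMonoidHom.coe_mk, ZeroHom.coe_mk]
    rw [Finset.sum_eq_single ⟨f, hf⟩ (fun b _ hb => by simp [Pi.single_eq_of_ne hb]) (by simp),
      Pi.single_eq_same, actS, AddMonoidAlgebra.lift_single, ← C.Tht_sg K hJ hx]
    rfl
  have ha : ∀ i, ∃ a, ‖y i - ψ a‖ ≤ r := fun i => by
    obtain ⟨g, hg, hg'⟩ := C0.exists_approx (y i) one_pos
    have : C0.fs (g.filter fun w => C.lam J w < N) ∈ ψ.range := by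
      rw [C0.fs, Finsupp.linearCombination_apply]
      refine sum_mem fun w hw => hsg w _ ?_
      rw [Finsupp.support_filter] at hw
      exact (Finset.mem_filter.1 hw).2
    obtain ⟨a, ha⟩ := this
    refine ⟨a, C0.norm_le hr0 fun w => le_inv_of_lt_one ?_⟩
    rw [ha, C0.co_sub, C0.co_fs, Finsupp.filter_apply]
    split_ifs with hw
    · rw [← C0.co_fs, ← C0.co_sub]
      exact (C0.norm_co_le _ w).trans_lt hg
    · rw [sub_zero, ← C0.ip_sg, ← he i, ← eJ_adj hJ]
      refine (C0.norm_ip_le _ _).trans_lt ?_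
      rw [h1, mul_one]
      exact hN w (not_lt.1 hw)
  choose a ha using ha
  haveI : UniqueSums (C.FixG J) := UniqueSums.of_injective_addHom (C.FixG J).subtype.toAddHom
    Subtype.val_injective inferInstance
  have hli : ¬ LinearIndependent (AddMonoidAlgebra K (C.FixG J)) a := fun h => by
    have := h.fintype_card_le_finrank
    rw [Module.finrank_fintype_fun_eq_card] at this
    simp at this
  obtain ⟨g, hg, i1, hi1⟩ := Fintype.not_linearIndependent_iff.1 hli
  obtain ⟨i0, -, hi0⟩ := Finset.exists_max_image Finset.univ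
    (fun i => ‖actS K hJ (g i) (C0.sg 1)‖) ⟨i1, Finset.mem_univ _⟩
  set c := ‖actS K hJ (g i0) (C0.sg 1)‖
  have hc : 0 < c := by
    obtain ⟨x, hx⟩ := DFunLike.ne_iff.1 (show (g i1).coeff ≠ 0 from fun e =>
      hi1 (AddMonoidAlgebra.coeff_injective e))
    exact ((norm_pos_iff.2 hx).trans_le (actS_coeff hJ _ x)).trans_le (hi0 _ (Finset.mem_univ _))
  have h2 : ‖∑ i, actS K hJ (g i) (y i)‖ ≤ c * r := by
    have : ∑ i, actS K hJ (g i) (y i) = ∑ i, actS K hJ (g i) (y i - ψ (a i)) := by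
      simp only [map_sub, Finset.sum_sub_distrib, ← hψ]
      rw [← map_sum, hg, map_zero, sub_zero]
    rw [this]
    refine IsUltrametricDist.norm_sum_le_of_forall_le_of_nonneg (by positivity) fun i hi => ?_
    rw [actS_norm]
    exact mul_le_mul (hi0 i hi) (ha i) (norm_nonneg _) hc.le
  have h3 : ‖actS K hJ (g i0) (y i0)‖ = c := by rw [actS_norm, h1, mul_one]
  have h4 : C0.ip (actS K hJ (g i0) (y i0)) (actS K hJ (g i0) (y i0)) =
      C0.ip (actS K hJ (g i0) (y i0)) (∑ i, actS K hJ (g i) (y i)) +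
        -∑ i ∈ Finset.univ.erase i0, C0.ip (actS K hJ (g i0) (y i0)) (actS K hJ (g i) (y i)) := by
    rw [map_sum, ← Finset.add_sum_erase _ _ (Finset.mem_univ i0)]
    ring
  have h5 : c ^ 2 ≤ c * c * r := by
    rw [← h3, ← C0.norm_ip_self, h4, h3]
    refine (IsUltrametricDist.norm_add_le_max _ _).trans (max_le ?_ ?_)
    · refine (C0.norm_ip_le _ _).trans ?_
      rw [h3, mul_assoc]
      exact mul_le_mul_of_nonneg_left h2 hc.le
    · rw [norm_neg]
      refine IsUltrametricDist.norm_sum_le_of_forall_le_of_nonneg (by positivity) fun i hi => ?_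
      refine (actS_ip hJ hr0 (fun z hz => le_inv_of_lt_one
        (hcon _ _ (Finset.ne_of_mem_erase hi).symm z hz)) _ _).trans ?_
      exact mul_le_mul_of_nonneg_right (mul_le_mul_of_nonneg_left (hi0 i (Finset.mem_univ _))
        hc.le) hr0
  nlinarith [mul_pos hc hc]

variable {bar : H →+* H} {Cb : Module.Basis W Rq H}

include hJ in
theorem left_small (hC : IsKL cs C.Tb bar Cb) {u u' : W} (hu : u ∈ C.Mn C.S0 J)
    (hu' : u' ∈ C.Mn C.S0 J) {v v' : C0 W K} (hv : C.IsV K J u v) (hv' : C.IsV K J u' v')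
    {x y : W} (h : ¬ LeL Cb x y) {z : Lat C.n} (hz : C.Fix J z) :
    ‖C0.ip (C.Rop K J (Cb x) v) (C.Tht K J z (C.Rop K J (Cb y) v'))‖ < 1 := by
  rw [hv.ip_Rop hJ]
  have e : C.Lop K C.S0 (C.Tb u) (C.io K C.S0 J (C.eJ K J (C.Tht K J z (C.Rop K J (Cb y) v')))) =
      C.Rop K C.S0 (Cb y) (C.Lop K C.S0 (C.Tb u) (C.io K C.S0 J (C.eJ K J (C.Tht K J z v')))) := by
    simp only [← ContinuousLinearMap.mul_apply]
    rw [Tht, C.Lop_Rop K hJ (C.th_mem_HJ J z), ← mul_assoc (C.eJ K J), eJ_Rop hJ, mul_assoc,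
      ← mul_assoc (C.io K C.S0 J), io_Rop hJ le_rfl, mul_assoc, ← mul_assoc (C.Lop K _ _),
      C.Lop_Rop K le_rfl (C.HJ_S0 ▸ Algebra.mem_top), mul_assoc]
  refine (ip_C_le hC (U := {w | LeL Cb w y}) h ?_).trans_lt ?_
  · rw [e]
    refine ce6_all (C := C) C.S0 (Submodule.isClosed_topologicalClosure _) (fun a => ?_) _
    rw [C.Rop_kap]
    refine Submodule.le_topologicalClosure _ (Submodule.subset_span ⟨_, ?_, rfl⟩)
    exact (Cb.mem_span_image).2 fun w hw => .single ⟨a, Finsupp.mem_support_iff.1 hw⟩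
  · refine lt_of_le_of_lt (mul_le_of_le_one_right (inv_nonneg.2 (norm_nonneg _)) ?_) cp3_inv_lt
    refine (cp3_norm_vec le_rfl hJ hu _).trans ?_
    rw [C.norm_Tht_apply K hJ hz]
    exact hv'.norm_le hJ hu' (hC.C_mem y)

omit [CompleteSpace K] [IsUltrametricDist K] [Algebra Rq K] [GoodK K] in
variable (C) in
theorem finite_left [Finite B] (hC : IsKL cs C.Tb bar Cb) : {Γ | IsLeftCell Cb Γ}.Finite := by
  obtain ⟨K, _, _, _, _, _⟩ := exists_goodK
  have hv : ∀ (J : Finset B) (u : W), ∃ v : C0 W K, J ⊆ C.S0 → C.IsV K J u v := fun J u => by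
    by_cases hJ : J ⊆ C.S0
    · obtain ⟨v, hv⟩ := exists_isV (C := C) (K := K) hJ u
      exact ⟨v, fun _ => hv⟩
    · exact ⟨0, fun h => absurd h hJ⟩
  choose v hv using hv
  have hx : ∀ x, ∃ J ⊆ C.S0, ∃ u ∈ C.Mn C.S0 J, 1 ≤ ‖C.Rop K J (Cb x) (v J u)‖ := fun x => by
    obtain ⟨m0, m1⟩ := C.sum_C_mem hC (Finsupp.single x 1)
    have := detect (C := C) (K := K) v (fun J hJ u _ => hv J u hJ) m0 (m1 (by simp))
    rwa [Finsupp.sum_single_index (by simp), one_smul] at this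
  choose Jx hJx ux hux hx using hx
  by_contra hinf
  haveI : Infinite {Γ | IsLeftCell Cb Γ} := Set.infinite_coe_iff.2 hinf
  obtain ⟨J, hJ⟩ := Finite.exists_infinite_fiber fun Γ : {Γ | IsLeftCell Cb Γ} =>
    (⟨Jx Γ.2.choose, Finset.mem_powerset.2 (hJx _)⟩ : C.S0.powerset)
  have hJ0 := Finset.mem_powerset.1 J.2
  obtain ⟨m, hm⟩ := card_orth (C := C) (K := K) hJ0
  let Γ := fun i : Fin (m + 1) => (Infinite.natEmbedding _ i : ((fun Γ : {Γ | IsLeftCell Cb Γ} =>
    (⟨Jx Γ.2.choose, Finset.mem_powerset.2 (hJx _)⟩ : C.S0.powerset)) ⁻¹' {J} : Set _))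
  let x := fun i => (Γ i).1.2.choose
  have e : ∀ i, Jx (x i) = J := fun i => congrArg Subtype.val (Γ i).2
  have hu : ∀ i, ux (x i) ∈ C.Mn C.S0 J := fun i => e i ▸ hux (x i)
  obtain ⟨i, j, hij, z, hz, h⟩ := hm (fun i => C.Rop K J (Cb (x i)) (v J (ux (x i))))
    (fun i => by
      rw [← ContinuousLinearMap.mul_apply, eJ_Rop hJ0, ContinuousLinearMap.mul_apply,
        (hv _ _ hJ0).1])
    (fun i => le_antisymm ((hv _ _ hJ0).norm_le hJ0 (hu i) (hC.C_mem _)) (e i ▸ hx (x i)))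
  have h1 : LeL Cb (x i) (x j) := by
    by_contra h1
    exact absurd h (not_le.2 (left_small hJ0 hC (hu i) (hu j) (hv _ _ hJ0) (hv _ _ hJ0) h1 hz))
  have h2 : LeL Cb (x j) (x i) := by
    by_contra h2
    rw [C0.ip_comm, C.Tht_adj K hJ0 hz] at h
    exact absurd h (not_le.2 (left_small hJ0 hC (hu j) (hu i) (hv _ _ hJ0) (hv _ _ hJ0) h2
      ((C.FixG J).neg_mem hz)))
  have hΓ : Function.Injective Γ := fun a b e =>
    Fin.val_injective ((Infinite.natEmbedding _).injective e)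
  refine hij (hΓ (Subtype.ext (Subtype.ext ?_)))
  refine ((Γ i).1.2.choose_spec).trans (Eq.trans ?_ ((Γ j).1.2.choose_spec).symm)
  ext w
  exact ⟨fun a => ⟨a.1.trans h1, h2.trans a.2⟩, fun a => ⟨a.1.trans h2, h1.trans a.2⟩⟩

end HC

end Pool.Agent.P.MP_74db7f_al
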