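import Pool.Agent.P.MP_74db7f_al.F.AD

/-! G1: steps, length formula, decomposition, finiteness (paper, section 0). -/

namespace Pool.Agent.P.MP_74db7f_al

open scoped Classical

namespace AD

variable {B W : Type*} [Group W] {M : CoxeterMatrix B} {cs : CoxeterSystem M W} (D : AD cs)

@[simp] theorem pb_apply (w : W) (γ : Du D.n) (x : Lat D.n) : D.pb w γ x = γ (D.gr w x) := rfl

@[simp] theorem pb_one (γ : Du D.n) : D.pb 1 γ = γ := by
  exact LinearMap.ext fun x => by simp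

theorem pb_mul (w w' : W) (γ : Du D.n) : D.pb (w * w') γ = D.pb w' (D.pb w γ) := by
  exact LinearMap.ext fun x => by simp

@[simp] theorem pb_neg (w : W) (γ : Du D.n) : D.pb w (-γ) = -D.pb w γ := by
  rfl

@[simp] theorem pb_tr (x : Lat D.n) (γ : Du D.n) : D.pb (D.tr x) γ = γ := by
  exact LinearMap.ext fun y => by simp [D.gr_tr]

@[simp] theorem pb_inv_pb (w : W) (γ : Du D.n) : D.pb w⁻¹ (D.pb w γ) = γ := by
  rw [← pb_mul, mul_inv_cancel, pb_one]

@[simp] theorem pb_pb_inv (w : W) (γ : Du D.n) : D.pb w (D.pb w⁻¹ γ) = γ := by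
  rw [← pb_mul, inv_mul_cancel, pb_one]

theorem pb_mem (w : W) {γ : Du D.n} (h : γ ∈ D.R) : D.pb w γ ∈ D.R := D.pb_mem' w γ h

theorem pb_simple_sr (i : B) : D.pb (cs.simple i) (D.sr i) = -D.sr i := by
  obtain ⟨a, ha, h⟩ := D.refl_simple i
  refine LinearMap.ext fun x => ?_
  rw [pb_apply, h, map_sub, map_zsmul, ha, LinearMap.neg_apply, smul_eq_mul]
  ring

theorem mem_Rp {γ : Du D.n} : γ ∈ D.Rp ↔ γ ∈ D.R ∧ D.mu 1 γ = 0 := by
  exact Finset.mem_filter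

theorem neg_mem_Rp {γ : Du D.n} (h : γ ∈ D.R) : -γ ∈ D.Rp ↔ γ ∉ D.Rp := by
  rw [mem_Rp, mem_Rp, D.mu_neg 1 γ h]
  have := D.mu_one γ h
  constructor
  · rintro ⟨-, e⟩ ⟨-, e'⟩
    omega
  · intro e
    refine ⟨D.neg_mem γ h, ?_⟩
    have : D.mu 1 γ ≠ 0 := fun e' => e ⟨h, e'⟩
    omega

theorem root_ne_zero {γ : Du D.n} (h : γ ∈ D.R) : γ ≠ 0 := by
  rintro rfl
  have := D.mu_neg 1 0 h
  rw [neg_zero] at this
  omega

theorem sr_mem_Rp {i : B} (hi : i ∈ D.S0) : D.sr i ∈ D.Rp := by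
  exact D.mem_Rp.2 ⟨D.sr_mem i, D.S0_pos i hi⟩

theorem WJ_mono {J I : Finset B} (h : J ⊆ I) : D.WJ J ≤ D.WJ I := by
  exact Subgroup.closure_mono (Set.image_mono (Finset.coe_subset.2 h))

theorem simple_mem_WJ {J : Finset B} {j : B} (h : j ∈ J) : cs.simple j ∈ D.WJ J := by
  exact Subgroup.subset_closure ⟨j, h, rfl⟩

@[simp] theorem tr_zero : D.tr 0 = 1 := by
  have := D.tr_add 0 0
  rw [add_zero] at this
  exact left_eq_mul.1 this

theorem tr_neg (x : Lat D.n) : D.tr (-x) = (D.tr x)⁻¹ := by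
  rw [eq_inv_iff_mul_eq_one, ← D.tr_add, neg_add_cancel, tr_zero]

theorem mu_fin {u : W} (hu : u ∈ D.W0) (w : W) {γ : Du D.n} (h : γ ∈ D.R) :
    D.mu (u * w) γ = D.mu w (D.pb u γ) := D.mu_fin' u hu w γ h

theorem fp_mem (w : W) : D.fp w ∈ D.W0 := by
  obtain ⟨u, hu, e⟩ := (D.decomp w).choose_spec
  have : D.fp w = u := by
    rw [fp, inv_mul_eq_iff_eq_mul]
    exact e
  rw [this]
  exact hu

theorem tr_xp_fp (w : W) : D.tr (D.xp w) * D.fp w = w := by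
  rw [fp, mul_inv_cancel_left]

theorem gr_fp (w : W) : D.gr (D.fp w) = D.gr w := by
  conv_rhs => rw [← D.tr_xp_fp w, map_mul, D.gr_tr, one_mul]

/-- general left multiplication rule -/
theorem mu_mul (g w : W) {γ : Du D.n} (h : γ ∈ D.R) :
    D.mu (g * w) γ = D.mu w (D.pb g γ) + γ (D.xp g) := by
  have e : D.pb g γ = D.pb (D.fp g) γ := by rw [pb, pb, gr_fp]
  conv_lhs => rw [← D.tr_xp_fp g, mul_assoc, D.mu_tr _ _ γ h, D.mu_fin (D.fp_mem g) w h]
  rw [e]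

theorem mu_step {w : W} {i : B} {γ : Du D.n} (h : γ ∈ D.R) (e : D.pb w γ = D.sr i) :
    D.mu (w * cs.simple i) γ = D.mu w γ - 1 := by
  have e1 := D.mu_mul w (cs.simple i) h
  have e2 := D.mu_mul w 1 h
  rw [mul_one] at e2
  rw [e1, e2, e, D.mu_simple]
  ring

theorem mu_step_neg {w : W} {i : B} {γ : Du D.n} (h : γ ∈ D.R) (e : D.pb w γ = -D.sr i) :
    D.mu (w * cs.simple i) γ = D.mu w γ + 1 := by
  have e1 := D.mu_step (D.neg_mem γ h) (w := w) (i := i) (by rw [pb_neg, e, neg_neg])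
  rw [D.mu_neg _ γ h, D.mu_neg _ γ h] at e1
  omega

theorem mu_step_ne {w : W} {i : B} {γ : Du D.n} (h : γ ∈ D.R) (e : D.pb w γ ≠ D.sr i)
    (e' : D.pb w γ ≠ -D.sr i) : D.mu (w * cs.simple i) γ = D.mu w γ := by
  have e1 := D.mu_mul w (cs.simple i) h
  have e2 := D.mu_mul w 1 h
  rw [mul_one] at e2
  rw [e1, e2, D.mu_simple_ne i _ (D.pb_mem w h) e e']

/-- the positive root parallel to the wall of type `i` of the alcove `w` -/
theorem wall (w : W) (i : B) : ∃ γ ∈ D.Rp, (D.pb w γ = D.sr i ∨ D.pb w γ = -D.sr i) ∧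
    ∀ γ' ∈ D.Rp, γ' ≠ γ → D.mu (w * cs.simple i) γ' = D.mu w γ' := by
  have hδ := D.pb_mem w⁻¹ (D.sr_mem i)
  have k1 : ∀ γ', D.pb w γ' = D.sr i → γ' = D.pb w⁻¹ (D.sr i) := fun γ' e => by
    rw [← e, pb_inv_pb]
  have k2 : ∀ γ', D.pb w γ' = -D.sr i → γ' = -D.pb w⁻¹ (D.sr i) := fun γ' e => by
    rw [← pb_neg, ← e, pb_inv_pb]
  by_cases hp : D.pb w⁻¹ (D.sr i) ∈ D.Rp
  · refine ⟨_, hp, Or.inl (D.pb_pb_inv _ _), fun γ' h' hne =>
      D.mu_step_ne (D.mem_Rp.1 h').1 (fun e => hne (k1 _ e)) fun e => ?_⟩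
    rw [k2 _ e, D.neg_mem_Rp hδ] at h'
    exact h' hp
  · refine ⟨_, (D.neg_mem_Rp hδ).2 hp, Or.inr (by rw [pb_neg, pb_pb_inv]), fun γ' h' hne =>
      D.mu_step_ne (D.mem_Rp.1 h').1 (fun e => ?_) fun e => hne (k2 _ e)⟩
    rw [k1 _ e] at h'
    exact hp h'

/-- Iwahori-Matsumoto-Shi formula: induction on `w`, using `wall`, the steps and `asc'`. -/
theorem length_eq (w : W) : (cs.length w : ℤ) = ∑ γ ∈ D.Rp, |D.mu w γ| := by
  induction w using cs.simple_induction_right with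
  | one =>
    rw [cs.length_one, Finset.sum_eq_zero fun γ h => by rw [(D.mem_Rp.1 h).2, abs_zero]]
    rfl
  | mul_simple_right w i ih =>
    obtain ⟨γ, hγ, e, hne⟩ := D.wall w i
    obtain ⟨hR, h0⟩ := D.mem_Rp.1 hγ
    rw [← Finset.add_sum_erase _ _ hγ] at ih ⊢
    rw [Finset.sum_congr rfl fun γ' h' => by
      rw [hne γ' (Finset.mem_of_mem_erase h') (Finset.ne_of_mem_erase h')]]
    have hl := cs.length_mul_simple w i
    rcases e with e | e
    · have a := D.asc' w i γ hR e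
      rw [h0] at a
      rw [D.mu_step hR e]
      rcases abs_cases (D.mu w γ) with b | b <;> rcases abs_cases (D.mu w γ - 1) with c | c <;>
        omega
    · have a := D.asc' w i (-γ) (D.neg_mem γ hR) (show D.pb w (-γ) = _ by rw [pb_neg, e, neg_neg])
      rw [D.mu_neg _ γ hR, D.mu_neg _ γ hR, h0] at a
      rw [D.mu_step_neg hR e]
      rcases abs_cases (D.mu w γ) with b | b <;> rcases abs_cases (D.mu w γ + 1) with c | c <;>
        omega

theorem eq_one_of_mu {w : W} (h : ∀ γ ∈ D.Rp, D.mu w γ = 0) : w = 1 := by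
  have := D.length_eq w
  rw [Finset.sum_eq_zero fun γ hγ => by rw [h γ hγ, abs_zero]] at this
  exact cs.length_eq_zero_iff.1 (by exact_mod_cast this)

theorem eq_of_mu {w w' : W} (h : ∀ γ ∈ D.Rp, D.mu w γ = D.mu w' γ) : w = w' := by
  have h' : ∀ γ ∈ D.R, D.mu w γ = D.mu w' γ := fun γ hγ => by
    by_cases hp : γ ∈ D.Rp
    · exact h γ hp
    · have := h _ ((D.neg_mem_Rp hγ).2 hp)
      rw [D.mu_neg _ γ hγ, D.mu_neg _ γ hγ] at this
      omega
  rw [← inv_mul_eq_one]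
  refine D.eq_one_of_mu fun γ hγ => ?_
  obtain ⟨hR, h0⟩ := D.mem_Rp.1 hγ
  rw [D.mu_mul _ _ hR, ← h' _ (D.pb_mem _ hR), ← D.mu_mul _ _ hR, inv_mul_cancel, h0]

theorem mu_W0 {u : W} (hu : u ∈ D.W0) {γ : Du D.n} (h : γ ∈ D.R) :
    (D.mu u γ = 0 ∧ D.pb u γ ∈ D.Rp) ∨ (D.mu u γ = -1 ∧ D.pb u γ ∉ D.Rp) := by
  have e := D.mu_fin hu 1 h
  rw [mul_one] at e
  have hR := D.pb_mem u h
  rcases D.mu_one _ hR with a | a
  · exact Or.inl ⟨e.trans a, D.mem_Rp.2 ⟨hR, a⟩⟩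
  · refine Or.inr ⟨e.trans a, fun b => ?_⟩
    have := (D.mem_Rp.1 b).2
    omega

theorem tr_injective : Function.Injective D.tr := by
  intro x y e
  rw [← sub_eq_zero]
  refine D.sep _ fun i _ => ?_
  have a := D.mu_tr x 1 _ (D.sr_mem i)
  rw [e, D.mu_tr y 1 _ (D.sr_mem i)] at a
  rw [map_sub]
  omega

theorem gr_inj {u u' : W} (hu : u ∈ D.W0) (hu' : u' ∈ D.W0) (h : D.gr u = D.gr u') : u = u' := by
  refine D.eq_of_mu fun γ hγ => ?_
  have hR := (D.mem_Rp.1 hγ).1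
  have e := D.mu_fin hu 1 hR
  have e' := D.mu_fin hu' 1 hR
  rw [mul_one] at e e'
  rw [e, e', pb, pb, h]

theorem xp_tr_mul (x : Lat D.n) {u : W} (hu : u ∈ D.W0) : D.xp (D.tr x * u) = x := by
  have e : D.fp (D.tr x * u) = u :=
    D.gr_inj (D.fp_mem _) hu (by rw [gr_fp, map_mul, D.gr_tr, one_mul])
  have e' := D.tr_xp_fp (D.tr x * u)
  rw [e] at e'
  exact D.tr_injective (mul_right_cancel e')

theorem fp_tr_mul (x : Lat D.n) {u : W} (hu : u ∈ D.W0) : D.fp (D.tr x * u) = u := by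
  exact D.gr_inj (D.fp_mem _) hu (by rw [gr_fp, map_mul, D.gr_tr, one_mul])

theorem xp_mul (g w : W) : D.xp (g * w) = D.xp g + D.gr g (D.xp w) := by
  have e : g * w = D.tr (D.xp g + D.gr g (D.xp w)) * (D.fp g * D.fp w) := by
    rw [D.tr_add, ← D.gr_fp g, mul_assoc, ← mul_assoc _ (D.fp g), ← D.conj, mul_assoc,
      tr_xp_fp, ← mul_assoc, tr_xp_fp]
  rw [e, D.xp_tr_mul _ (mul_mem (D.fp_mem g) (D.fp_mem w))]

theorem fp_mul (g w : W) : D.fp (g * w) = D.fp g * D.fp w := by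
  exact D.gr_inj (D.fp_mem _) (mul_mem (D.fp_mem g) (D.fp_mem w))
    (by rw [gr_fp, map_mul, map_mul, gr_fp, gr_fp])

theorem finite_WJ {J : Finset B} (hJ : J ⊆ D.S0) : (D.WJ J : Set W).Finite := by
  refine Set.Finite.of_finite_image (f := fun u => D.Rp.filter fun γ => D.mu u γ = 0)
    (D.Rp.powerset.finite_toSet.subset ?_) fun u hu u' hu' e => D.eq_of_mu fun γ hγ => ?_
  · rintro _ ⟨u, -, rfl⟩
    exact Finset.mem_coe.2 (Finset.mem_powerset.2 (Finset.filter_subset _ _))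
  · have a := Finset.ext_iff.1 e γ
    simp only [Finset.mem_filter, hγ, true_and] at a
    have b := D.mu_W0 (D.WJ_mono hJ hu) (D.mem_Rp.1 hγ).1
    have c := D.mu_W0 (D.WJ_mono hJ hu') (D.mem_Rp.1 hγ).1
    omega

theorem mem_WF {J : Finset B} (hJ : J ⊆ D.S0) {u : W} : u ∈ D.WF J ↔ u ∈ D.WJ J := by
  rw [WF, dif_pos (D.finite_WJ hJ), Set.Finite.mem_toFinset]
  rfl

theorem Mo_pos : 0 < D.Mo := by
  exact Finset.card_pos.2 ⟨1, (D.mem_WF subset_rfl).2 (one_mem _)⟩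

theorem mem_YJ {J : Finset B} (hJ : J ⊆ D.S0) {y : W} : y ∈ D.YJ J ↔ D.fp y ∈ D.WJ J := by
  have f0 : ∀ u ∈ D.W0, D.fp u = u := fun u hu => by
    simpa using D.fp_tr_mul 0 hu
  constructor
  · intro h
    induction h using Subgroup.closure_induction with
    | mem y h =>
      rcases h with ⟨x, rfl⟩ | ⟨j, hj, rfl⟩
      · have := D.fp_tr_mul x (one_mem _)
        rw [mul_one] at this
        rw [this]
        exact one_mem _
      · rw [f0 _ (D.simple_mem_WJ (hJ hj))]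
        exact D.simple_mem_WJ hj
    | one =>
      rw [f0 _ (one_mem _)]
      exact one_mem _
    | mul y y' _ _ h h' =>
      rw [fp_mul]
      exact mul_mem h h'
    | inv y _ h =>
      have := D.fp_mul y⁻¹ y
      rw [inv_mul_cancel, f0 _ (one_mem _)] at this
      rw [eq_inv_of_mul_eq_one_left this.symm]
      exact inv_mem h
  · intro h
    rw [← D.tr_xp_fp y]
    exact mul_mem (Subgroup.subset_closure (Or.inl ⟨_, rfl⟩))
      (Subgroup.closure_mono Set.subset_union_right h)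

theorem finite_ball [Finite B] (k : ℕ) : {g : W | cs.length g ≤ k}.Finite := by
  refine ((List.finite_length_le B k).image cs.wordProd).subset fun g hg => ?_
  obtain ⟨ω, h, rfl⟩ := cs.exists_isReduced g
  exact ⟨ω, (CoxeterSystem.IsReduced.eq cs h).ge.trans hg, rfl⟩

end AD

end Pool.Agent.P.MP_74db7f_al
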