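import Pool.Agent.P.MP_74db7f_al.F.G1

/-! G2: roots, coroots, reflections, parabolic subgroups, dominance (paper, section 0). -/

namespace Pool.Agent.P.MP_74db7f_al

open scoped Classical

namespace AD

variable {B W : Type*} [Group W] {M : CoxeterMatrix B} {cs : CoxeterSystem M W} (D : AD cs)

theorem m_mul_root (γ : Du D.n) (x : Lat D.n) :
    D.m * γ x = ∑ i ∈ D.S0, D.sr i x * γ (D.cw i) := by
  have e : D.m • x - ∑ i ∈ D.S0, D.sr i x • D.cw i = 0 := D.sep _ fun j hj => by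
    rw [map_sub, map_sum, Finset.sum_eq_single_of_mem j hj fun i hi hne => by
      rw [map_zsmul, D.cw_ne i hi j hj hne, smul_zero]]
    rw [map_zsmul, map_zsmul, D.cw_self j hj, smul_eq_mul, smul_eq_mul, mul_comm, sub_self]
  have := congrArg γ (sub_eq_zero.1 e)
  simpa only [map_sum, map_zsmul, smul_eq_mul] using this

theorem sr_z_mem {J : Finset B} {j : B} (hj : j ∈ D.S0) (h : j ∈ J) : D.sr j (D.z J) = 0 := by
  rw [z, map_sum]
  refine Finset.sum_eq_zero fun i hi => D.cw_ne i (Finset.mem_sdiff.1 hi).1 j hj ?_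
  rintro rfl
  exact (Finset.mem_sdiff.1 hi).2 h

theorem sr_z_not {J : Finset B} {b : B} (hb : b ∈ D.S0) (h : b ∉ J) : D.sr b (D.z J) = D.m := by
  rw [z, map_sum, Finset.sum_eq_single_of_mem b (Finset.mem_sdiff.2 ⟨hb, h⟩) fun i hi hne =>
    D.cw_ne i (Finset.mem_sdiff.1 hi).1 b hb hne, D.cw_self b hb]

theorem z_S0 : D.z D.S0 = 0 := by
  simp [z]

theorem fix_z {J : Finset B} (hJ : J ⊆ D.S0) : D.Fix J (D.z J) := by
  exact fun j hj => D.sr_z_mem (hJ hj) hj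

theorem dom_z (J : Finset B) : D.Dom D.S0 (D.z J) := by
  intro j hj
  by_cases h : j ∈ J
  · exact (D.sr_z_mem hj h).ge
  · rw [D.sr_z_not hj h]
    exact D.m_pos.le

theorem root_cw_nonneg {γ : Du D.n} (h : γ ∈ D.Rp) {i : B} (hi : i ∈ D.S0) : 0 ≤ γ (D.cw i) :=
  D.cw_pos γ (D.mem_Rp.1 h).1 (D.mem_Rp.1 h).2 i hi

theorem root_z_nonneg (J : Finset B) {γ : Du D.n} (h : γ ∈ D.Rp) : 0 ≤ γ (D.z J) := by
  rw [z, map_sum]
  exact Finset.sum_nonneg fun i hi => D.root_cw_nonneg h (Finset.mem_sdiff.1 hi).1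

theorem root_cw_zero {J : Finset B} {γ : Du D.n} (h : γ ∈ D.R) (h0 : γ (D.z J) = 0) {i : B}
    (hi : i ∈ D.S0) (hJ : i ∉ J) : γ (D.cw i) = 0 := by
  have key : ∀ δ ∈ D.Rp, δ (D.z J) = 0 → δ (D.cw i) = 0 := fun δ hδ e => by
    rw [z, map_sum, Finset.sum_eq_zero_iff_of_nonneg fun i hi =>
      D.root_cw_nonneg hδ (Finset.mem_sdiff.1 hi).1] at e
    exact e i (Finset.mem_sdiff.2 ⟨hi, hJ⟩)
  by_cases hp : γ ∈ D.Rp
  · exact key γ hp h0
  · simpa using key _ ((D.neg_mem_Rp h).2 hp) (by simp [h0])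

theorem mem_Rp_iff {γ : Du D.n} (h : γ ∈ D.R) : γ ∈ D.Rp ↔ 0 < γ (D.z ∅) := by
  constructor
  · intro hp
    refine (D.root_z_nonneg ∅ hp).lt_of_ne fun e => D.root_ne_zero h (LinearMap.ext fun x => ?_)
    have := D.m_mul_root γ x
    rw [Finset.sum_eq_zero fun i hi => by
      rw [D.root_cw_zero h e.symm hi (Finset.notMem_empty i), mul_zero]] at this
    exact (mul_eq_zero.1 this).resolve_left D.m_pos.ne'
  · intro h0
    by_contra hp
    have := D.root_z_nonneg ∅ ((D.neg_mem_Rp h).2 hp)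
    rw [LinearMap.neg_apply] at this
    omega

theorem root_z_mono {J I : Finset B} (hJI : J ⊆ I) {γ : Du D.n} (h : γ ∈ D.R)
    (h0 : γ (D.z J) = 0) : γ (D.z I) = 0 := by
  rw [z, map_sum]
  exact Finset.sum_eq_zero fun i hi => D.root_cw_zero h h0 (Finset.mem_sdiff.1 hi).1
    fun e => (Finset.mem_sdiff.1 hi).2 (hJI e)

theorem root_dom {J : Finset B} (hJ : J ⊆ D.S0) {x : Lat D.n} (hx : D.Dom J x) {γ : Du D.n}
    (h : γ ∈ D.Rp) (h0 : γ (D.z J) = 0) : 0 ≤ γ x := by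
  refine nonneg_of_mul_nonneg_right (a := D.m) ?_ D.m_pos
  rw [m_mul_root]
  refine Finset.sum_nonneg fun i hi => ?_
  by_cases hJ' : i ∈ J
  · exact mul_nonneg (hx i hJ') (D.root_cw_nonneg h hi)
  · rw [D.root_cw_zero (D.mem_Rp.1 h).1 h0 hi hJ', mul_zero]

theorem root_fix {J : Finset B} (hJ : J ⊆ D.S0) {x : Lat D.n} (hx : D.Fix J x) {γ : Du D.n}
    (h : γ ∈ D.R) (h0 : γ (D.z J) = 0) : γ x = 0 := by
  refine (mul_eq_zero.1 ?_).resolve_left D.m_pos.ne'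
  rw [m_mul_root]
  refine Finset.sum_eq_zero fun i hi => ?_
  by_cases hJ' : i ∈ J
  · rw [hx i hJ', zero_mul]
  · rw [D.root_cw_zero h h0 hi hJ', mul_zero]

theorem mu_eq (g : W) {γ : Du D.n} (h : γ ∈ D.R) :
    D.mu g γ = D.mu 1 (D.pb g γ) + γ (D.xp g) := by
  simpa using D.mu_mul g 1 h

theorem fp_W0 {u : W} (hu : u ∈ D.W0) : D.fp u = u := by
  simpa using D.fp_tr_mul 0 hu

theorem xp_W0 {u : W} (hu : u ∈ D.W0) : D.xp u = 0 := by
  simpa using D.xp_tr_mul 0 hu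

/-- write `g = tr x * u`, `mu g γ = γ x + mu 1 (pb u γ)`, expand `m γ` in simple roots and use
`mem_Rp_iff`. -/
theorem mu_adom {J : Finset B} (hJ : J ⊆ D.S0) {g : W} (hg : D.ADom J g) {γ : Du D.n}
    (h : γ ∈ D.Rp) (h0 : γ (D.z J) = 0) : 0 ≤ D.mu g γ := by
  have hR := (D.mem_Rp.1 h).1
  have hx : D.Dom J (D.xp g) := fun j hj => by
    have a := hg j hj
    have b := D.mu_one _ (D.pb_mem g (D.sr_mem j))
    rw [D.mu_eq g (D.sr_mem j)] at a
    omega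
  have h1 := D.root_dom hJ hx h h0
  have h2 := D.mu_one _ (D.pb_mem g hR)
  rw [D.mu_eq g hR]
  by_contra h3
  have h4 : γ (D.xp g) = 0 := by omega
  have h5 : D.pb g γ ∉ D.Rp := fun e => by
    have := (D.mem_Rp.1 e).2
    omega
  have t : ∀ i ∈ D.S0, 0 ≤ D.sr i (D.xp g) * γ (D.cw i) := fun i hi => by
    by_cases hJ' : i ∈ J
    · exact mul_nonneg (hx i hJ') (D.root_cw_nonneg h hi)
    · rw [D.root_cw_zero hR h0 hi hJ', mul_zero]
  have h6 := D.m_mul_root γ (D.xp g)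
  rw [h4, mul_zero, eq_comm, Finset.sum_eq_zero_iff_of_nonneg t] at h6
  have h7 : 0 ≤ D.m * γ (D.gr g (D.z ∅)) := by
    rw [m_mul_root]
    refine Finset.sum_nonneg fun i hi => ?_
    by_cases e : γ (D.cw i) = 0
    · rw [e, mul_zero]
    · have hi' : i ∈ J := by_contra fun hJ' => e (D.root_cw_zero hR h0 hi hJ')
      have a := hg i hi'
      have b := D.mu_one _ (D.pb_mem g (D.sr_mem i))
      rw [D.mu_eq g (D.sr_mem i), (mul_eq_zero.1 (h6 i hi)).resolve_right e] at a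
      exact mul_nonneg (D.root_z_nonneg ∅ (D.mem_Rp.2 ⟨D.pb_mem g (D.sr_mem i), by omega⟩))
        (D.root_cw_nonneg h hi)
  have h8 := (D.mem_Rp_iff (D.neg_mem _ (D.pb_mem g hR))).1 ((D.neg_mem_Rp (D.pb_mem g hR)).2 h5)
  rw [LinearMap.neg_apply, pb_apply] at h8
  have := nonneg_of_mul_nonneg_right h7 D.m_pos
  omega

/-- every root is conjugate to the gradient of a simple affine root, and every level occurs:
walk along a word from `tr (N • x)` to `tr (-N • x)`. -/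
theorem exists_wall {γ : Du D.n} (h : γ ∈ D.R) (k : ℤ) :
    ∃ w i, D.pb w γ = D.sr i ∧ D.mu w γ = k := by
  obtain ⟨x, hx⟩ : ∃ x, γ x ≠ 0 := by
    by_contra e
    exact D.root_ne_zero h (LinearMap.ext fun x => by_contra fun e' => e ⟨x, e'⟩)
  have h1 : |k| + 1 ≤ γ (((|k| + 1) * γ x) • x) := by
    rw [map_zsmul, smul_eq_mul, mul_assoc]
    exact le_mul_of_one_le_right (by positivity) (mul_self_pos.2 hx)
  set y := ((|k| + 1) * γ x) • x
  have h0 := D.mu_one γ h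
  have h2 := le_abs_self k
  have h3 := neg_abs_le k
  have key : ∀ v : W, k ≤ D.mu (D.tr y * v) γ ∨ ∃ w i, D.pb w γ = D.sr i ∧ D.mu w γ = k := by
    intro v
    induction v using cs.simple_induction_right with
    | one =>
      rw [D.mu_tr _ _ γ h]
      omega
    | mul_simple_right v i ih =>
      rcases ih with ih | ih
      · rw [← mul_assoc]
        by_cases e : D.pb (D.tr y * v) γ = D.sr i
        · rcases ih.eq_or_lt with a | a
          · exact Or.inr ⟨_, i, e, a.symm⟩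
          · rw [D.mu_step h e]
            omega
        · by_cases e' : D.pb (D.tr y * v) γ = -D.sr i
          · rw [D.mu_step_neg h e']
            omega
          · rw [D.mu_step_ne h e e']
            exact Or.inl ih
      · exact Or.inr ih
  refine (key (D.tr (-y) * D.tr (-y) * 1)).resolve_left ?_
  rw [mul_assoc, D.mu_tr _ _ γ h, D.mu_tr _ _ γ h, D.mu_tr _ _ γ h, map_neg]
  omega

theorem gr_inv_gr (w : W) (x : Lat D.n) : D.gr w⁻¹ (D.gr w x) = x := by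
  rw [← LinearEquiv.mul_apply, ← map_mul, inv_mul_cancel, map_one]
  rfl

theorem gr_gr_inv (w : W) (x : Lat D.n) : D.gr w (D.gr w⁻¹ x) = x := by
  simpa only [inv_inv] using D.gr_inv_gr w⁻¹ x

theorem gr_mul (w w' : W) (x : Lat D.n) : D.gr (w * w') x = D.gr w (D.gr w' x) := by
  rw [map_mul, LinearEquiv.mul_apply]

theorem refl_conj (w : W) {γ : Du D.n} {a : Lat D.n} {r : W}
    (hr : ∀ x, D.gr r x = x - D.pb w γ x • a) (x : Lat D.n) :
    D.gr (w * r * w⁻¹) x = x - γ x • D.gr w a := by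
  rw [gr_mul, gr_mul, hr, map_sub, map_zsmul, pb_apply, gr_gr_inv]

theorem co_spec {γ : Du D.n} (h : γ ∈ D.R) :
    γ (D.co γ) = 2 ∧ D.rf γ ∈ D.W0 ∧ ∀ x, D.gr (D.rf γ) x = x - γ x • D.co γ := by
  obtain ⟨w, i, e, -⟩ := D.exists_wall h 0
  obtain ⟨a, ha, hr⟩ := D.refl_simple i
  rw [← e] at ha hr
  have h1 : γ (D.co γ) = 2 ∧ ∃ r ∈ D.W0, ∀ x, D.gr r x = x - γ x • D.co γ :=
    Classical.epsilon_spec (p := fun a => γ a = 2 ∧ ∃ r ∈ D.W0, ∀ x, D.gr r x = x - γ x • a)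
      ⟨D.gr w a, ha, _, D.fp_mem (w * cs.simple i * w⁻¹), fun x => by
        rw [gr_fp, D.refl_conj w hr]⟩
  exact ⟨h1.1, Classical.epsilon_spec
    (p := fun r => r ∈ D.W0 ∧ ∀ x, D.gr r x = x - γ x • D.co γ) h1.2⟩

/-- uniqueness: `gr (r * r')` is unipotent of finite order. -/
theorem co_unique {γ : Du D.n} (h : γ ∈ D.R) {a : Lat D.n} {r : W} (ha : γ a = 2)
    (hr : ∀ x, D.gr r x = x - γ x • a) : a = D.co γ ∧ D.fp r = D.rf γ := by
  obtain ⟨h1, h2, h3⟩ := D.co_spec h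
  have hu : D.fp r * D.rf γ ∈ D.W0 := mul_mem (D.fp_mem r) h2
  have e : ∀ (k : ℕ) x, D.gr ((D.fp r * D.rf γ) ^ k) x = x + (k * γ x) • (a - D.co γ) := by
    intro k
    induction k with
    | zero => simp
    | succ k ih =>
      intro x
      rw [pow_succ', gr_mul, ih, gr_mul, gr_fp, h3, hr]
      simp only [map_add, map_sub, map_zsmul, ha, h1, smul_eq_mul]
      push_cast
      module
  have : Finite D.W0 := (D.finite_WJ subset_rfl).to_subtype
  obtain ⟨k, hk, e1⟩ := isOfFinOrder_iff_pow_eq_one.1 (isOfFinOrder_of_finite (⟨_, hu⟩ : D.W0))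
  have e2 : (D.fp r * D.rf γ) ^ k = 1 := congrArg Subtype.val e1
  have e3 := e k a
  rw [e2, map_one, LinearEquiv.coe_one, id, left_eq_add, ha, smul_eq_zero] at e3
  have e4 : a = D.co γ := sub_eq_zero.1 (e3.resolve_left (by omega))
  refine ⟨e4, D.gr_inj (D.fp_mem r) h2 (LinearEquiv.ext fun x => ?_)⟩
  rw [gr_fp, hr, h3, e4]

theorem co_ne_zero {γ : Du D.n} (h : γ ∈ D.R) : D.co γ ≠ 0 := by
  intro e
  have := (D.co_spec h).1
  rw [e, map_zero] at this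
  omega

theorem co_neg {γ : Du D.n} (h : γ ∈ D.R) : D.co (-γ) = -D.co γ ∧ D.rf (-γ) = D.rf γ := by
  obtain ⟨h1, h2, h3⟩ := D.co_spec h
  have := D.co_unique (D.neg_mem γ h) (a := -D.co γ) (r := D.rf γ) (by simpa using h1)
    fun x => by simpa using h3 x
  rw [D.fp_W0 h2] at this
  exact ⟨this.1.symm, this.2.symm⟩

theorem co_pb (w : W) {γ : Du D.n} (h : γ ∈ D.R) : D.gr w (D.co (D.pb w γ)) = D.co γ := by
  obtain ⟨h1, -, h3⟩ := D.co_spec (D.pb_mem w h)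
  exact (D.co_unique h h1 (D.refl_conj w h3)).1

theorem rf_pb {u : W} (hu : u ∈ D.W0) {γ : Du D.n} (h : γ ∈ D.R) :
    u * D.rf (D.pb u γ) * u⁻¹ = D.rf γ := by
  obtain ⟨h1, h2, h3⟩ := D.co_spec (D.pb_mem u h)
  rw [← (D.co_unique h h1 (D.refl_conj u h3)).2,
    D.fp_W0 (mul_mem (mul_mem hu h2) (inv_mem hu))]

theorem gr_simple (i : B) (x : Lat D.n) :
    D.gr (cs.simple i) x = x - D.sr i x • D.co (D.sr i) := by
  obtain ⟨a, ha, hr⟩ := D.refl_simple i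
  rw [hr, (D.co_unique (D.sr_mem i) ha hr).1]

theorem rf_sr {i : B} (hi : i ∈ D.S0) : D.rf (D.sr i) = cs.simple i := by
  obtain ⟨a, ha, hr⟩ := D.refl_simple i
  rw [← (D.co_unique (D.sr_mem i) ha hr).2, D.fp_W0 (D.simple_mem_WJ hi)]

theorem rf_mul_self {γ : Du D.n} (h : γ ∈ D.R) : D.rf γ * D.rf γ = 1 := by
  obtain ⟨h1, h2, h3⟩ := D.co_spec h
  refine D.gr_inj (mul_mem h2 h2) (one_mem _) (LinearEquiv.ext fun x => ?_)
  rw [gr_mul, h3, h3, map_one, LinearEquiv.coe_one, id]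
  simp only [map_sub, map_zsmul, h1, smul_eq_mul]
  module

theorem wall_refl {w : W} {i : B} {γ : Du D.n} (h : γ ∈ D.R) (e : D.pb w γ = D.sr i) :
    w * cs.simple i * w⁻¹ = D.tr (D.mu w γ • D.co γ) * D.rf γ := by
  have hr : ∀ x, D.gr (w * cs.simple i * w⁻¹) x = x - γ x • D.co γ := fun x => by
    rw [D.refl_conj w (γ := γ) (a := D.co (D.pb w γ)) (by rw [e]; exact D.gr_simple i),
      D.co_pb w h]
  have h1 := (D.co_spec h).1
  set t := w * cs.simple i * w⁻¹ with ht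
  have e1 : t * t = 1 := by simp [ht, mul_assoc]
  have e2 := D.xp_mul t t
  rw [e1, D.xp_W0 (one_mem _), hr] at e2
  have e3 := D.mu_mul t w h
  have e4 : D.pb t γ = -γ := LinearMap.ext fun x => by
    rw [pb_apply, hr, map_sub, map_zsmul, h1, LinearMap.neg_apply, smul_eq_mul]
    ring
  rw [e4, D.mu_neg _ γ h, ht, inv_mul_cancel_right, D.mu_step h e, ← ht] at e3
  have e5 : γ (D.xp t) = 2 * D.mu w γ := by omega
  have e6 : D.xp t = D.mu w γ • D.co γ := by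
    refine smul_right_injective _ (two_ne_zero (α := ℤ)) ?_
    rw [e5] at e2
    linear_combination (exp := 1) -e2
  rw [← e6, ← (D.co_unique h h1 hr).2, tr_xp_fp]

theorem simple_perm {i : B} (hi : i ∈ D.S0) {γ : Du D.n} (h : γ ∈ D.Rp) (hne : γ ≠ D.sr i) :
    D.pb (cs.simple i) γ ∈ D.Rp := by
  have hR := (D.mem_Rp.1 h).1
  have e := D.mu_simple_ne i γ hR hne fun e => (D.neg_mem_Rp (D.sr_mem i)).1 (e ▸ h) (D.sr_mem_Rp hi)
  rw [(D.mem_Rp.1 h).2] at e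
  rcases D.mu_W0 (D.simple_mem_WJ hi) hR with a | a
  · exact a.2
  · omega

theorem gr_fix {J : Finset B} {u : W} (hu : u ∈ D.WJ J) {x : Lat D.n} (hx : D.Fix J x) :
    D.gr u x = x := by
  induction hu using Subgroup.closure_induction with
  | mem y h =>
    obtain ⟨j, hj, rfl⟩ := h
    rw [gr_simple, hx j hj, zero_smul, sub_zero]
  | one => simp
  | mul y y' _ _ h h' => rw [gr_mul, h', h]
  | inv y _ h => conv_lhs => rw [← h, gr_inv_gr]

theorem pb_z {J : Finset B} (hJ : J ⊆ D.S0) {u : W} (hu : u ∈ D.WJ J) (γ : Du D.n) :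
    D.pb u γ (D.z J) = γ (D.z J) := by
  rw [pb_apply, D.gr_fix hu (D.fix_z hJ)]

theorem mem_Rp_of_pos {J : Finset B} {γ : Du D.n} (h : γ ∈ D.R) (h0 : 0 < γ (D.z J)) :
    γ ∈ D.Rp := by
  by_contra hp
  have := D.root_z_nonneg J ((D.neg_mem_Rp h).2 hp)
  rw [LinearMap.neg_apply] at this
  omega

theorem pb_mem_Rp {J : Finset B} (hJ : J ⊆ D.S0) {u : W} (hu : u ∈ D.WJ J) {γ : Du D.n}
    (h : γ ∈ D.Rp) (h0 : γ (D.z J) ≠ 0) : D.pb u γ ∈ D.Rp := by
  refine D.mem_Rp_of_pos (J := J) (D.pb_mem u (D.mem_Rp.1 h).1) ?_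
  rw [D.pb_z hJ hu]
  exact (D.root_z_nonneg J h).lt_of_ne' h0

theorem mu_W0_iff {u : W} (hu : u ∈ D.W0) {γ : Du D.n} (h : γ ∈ D.R) :
    D.mu u γ = 0 ↔ D.pb u γ ∈ D.Rp := by
  rcases D.mu_W0 hu h with a | a
  · exact iff_of_true a.1 a.2
  · exact iff_of_false (by omega) a.2

theorem asc_iff {u : W} (hu : u ∈ D.W0) {i : B} (hi : i ∈ D.S0) :
    cs.length u < cs.length (u * cs.simple i) ↔ D.pb u⁻¹ (D.sr i) ∈ D.Rp := by
  have hR := D.pb_mem u⁻¹ (D.sr_mem i)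
  rw [D.asc' u i _ hR (D.pb_pb_inv _ _), (D.mu_W0_iff hu hR).2 (by
    rw [pb_pb_inv]
    exact D.sr_mem_Rp hi), mem_Rp]
  have := D.mu_one _ hR
  exact ⟨fun a => ⟨hR, by omega⟩, fun a => a.2.ge⟩

theorem eq_one_of_adom {J : Finset B} (hJ : J ⊆ D.S0) {u : W} (hu : u ∈ D.W0)
    (h : D.gr u (D.z J) = D.z J) (ha : D.ADom J u) : u = 1 := by
  refine D.eq_one_of_mu fun γ hγ => ?_
  have hR := (D.mem_Rp.1 hγ).1
  by_cases h0 : γ (D.z J) = 0
  · have a := D.mu_adom hJ ha hγ h0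
    have b := D.mu_W0 hu hR
    omega
  · refine (D.mu_W0_iff hu hR).2 (D.mem_Rp_of_pos (J := J) (D.pb_mem u hR) ?_)
    rw [pb_apply, h]
    exact (D.root_z_nonneg J hγ).lt_of_ne' h0

theorem exists_desc {J : Finset B} (hJ : J ⊆ D.S0) {u : W} (hu : u ∈ D.WJ J) (h1 : u ≠ 1) :
    ∃ j ∈ J, cs.length (u * cs.simple j) < cs.length u := by
  by_contra e
  refine h1 (inv_eq_one.1 (D.eq_one_of_adom hJ (inv_mem (D.WJ_mono hJ hu))
    (D.gr_fix (inv_mem hu) (D.fix_z hJ)) fun j hj => ?_))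
  refine ((D.mu_W0_iff (inv_mem (D.WJ_mono hJ hu)) (D.sr_mem j)).2
    ((D.asc_iff (D.WJ_mono hJ hu) (hJ hj)).1 ?_)).ge
  exact (not_lt.1 fun a => e ⟨j, hj, a⟩).lt_of_ne' (cs.length_mul_simple_ne u j)

theorem exists_word {J : Finset B} (hJ : J ⊆ D.S0) {u : W} (hu : u ∈ D.WJ J) :
    ∃ ω : List B, cs.IsReduced ω ∧ cs.wordProd ω = u ∧ ∀ i ∈ ω, i ∈ J := by
  generalize hn : cs.length u = n
  induction n using Nat.strong_induction_on generalizing u with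
  | _ n ih =>
    by_cases h1 : u = 1
    · exact ⟨[], by simp [CoxeterSystem.IsReduced], by simp [h1], by simp⟩
    · obtain ⟨j, hj, a⟩ := D.exists_desc hJ hu h1
      obtain ⟨ω, b, c, d⟩ := ih _ (hn ▸ a) (mul_mem hu (D.simple_mem_WJ hj)) rfl
      have e : cs.wordProd (ω.concat j) = u := by
        rw [cs.wordProd_concat, c, cs.simple_mul_simple_cancel_right]
      refine ⟨ω.concat j, ?_, e, fun i hi => ?_⟩
      · have := cs.length_mul_simple u j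
        rw [CoxeterSystem.IsReduced, c] at b
        rw [CoxeterSystem.IsReduced, e, List.length_concat]
        omega
      · rw [List.concat_eq_append, List.mem_append, List.mem_singleton] at hi
        exact hi.elim (d i) fun a => a ▸ hj

/-- induction on the length inside `W_J` -/
theorem WJ_induction {J : Finset B} (hJ : J ⊆ D.S0) {p : W → Prop} (h1 : p 1)
    (h2 : ∀ u ∈ D.WJ J, ∀ j ∈ J, cs.length u < cs.length (u * cs.simple j) → p u →
      p (u * cs.simple j)) {u : W} (hu : u ∈ D.WJ J) : p u := by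
  generalize hn : cs.length u = n
  induction n using Nat.strong_induction_on generalizing u with
  | _ n ih =>
    by_cases e : u = 1
    · exact e ▸ h1
    · obtain ⟨j, hj, a⟩ := D.exists_desc hJ hu e
      have b := mul_mem hu (D.simple_mem_WJ hj)
      have := h2 _ b j hj (by rwa [cs.simple_mul_simple_cancel_right]) (ih _ (hn ▸ a) b rfl)
      rwa [cs.simple_mul_simple_cancel_right] at this

theorem pb_simple_simple (i : B) (γ : Du D.n) :
    D.pb (cs.simple i) (D.pb (cs.simple i) γ) = γ := by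
  rw [← pb_mul, cs.simple_mul_simple_self, pb_one]

theorem simple_perm_erase {i : B} (hi : i ∈ D.S0) {γ : Du D.n} (h : γ ∈ D.Rp.erase (D.sr i)) :
    D.pb (cs.simple i) γ ∈ D.Rp.erase (D.sr i) := by
  obtain ⟨a, b⟩ := Finset.mem_erase.1 h
  refine Finset.mem_erase.2 ⟨fun e => ?_, D.simple_perm hi b a⟩
  rw [← D.pb_simple_simple i γ, e, pb_simple_sr, D.neg_mem_Rp (D.sr_mem i)] at b
  exact b (D.sr_mem_Rp hi)

theorem sum_simple {i : B} (hi : i ∈ D.S0) (f : Du D.n → ℤ) :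
    ∑ γ ∈ D.Rp, f (D.pb (cs.simple i) γ) = ∑ γ ∈ D.Rp, f γ - f (D.sr i) + f (-D.sr i) := by
  rw [← Finset.add_sum_erase _ _ (D.sr_mem_Rp hi), ← Finset.add_sum_erase _ f (D.sr_mem_Rp hi),
    pb_simple_sr, Finset.sum_nbij' (D.pb (cs.simple i)) (D.pb (cs.simple i))
      (fun γ h => D.simple_perm_erase hi h) (fun γ h => D.simple_perm_erase hi h)
      (fun γ _ => D.pb_simple_simple i γ) (fun γ _ => D.pb_simple_simple i γ) fun γ _ => rfl]
  ring

/-- minimise `lam J` on the coset `W_J g`. -/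
theorem exists_adom {J : Finset B} (hJ : J ⊆ D.S0) (g : W) :
    ∃ u ∈ D.WJ J, D.ADom J (u⁻¹ * g) := by
  obtain ⟨u, hu, h⟩ := (D.WF J).exists_max_image (fun u => ∑ γ ∈ D.Rp, D.mu (u⁻¹ * g) γ)
    ⟨1, (D.mem_WF hJ).2 (one_mem _)⟩
  rw [D.mem_WF hJ] at hu
  refine ⟨u, hu, fun j hj => ?_⟩
  have a := h (u * cs.simple j) ((D.mem_WF hJ).2 (mul_mem hu (D.simple_mem_WJ hj)))
  rw [mul_inv_rev, cs.inv_simple, mul_assoc, Finset.sum_congr rfl fun γ hγ =>
    D.mu_fin (D.simple_mem_WJ (hJ hj)) _ (D.mem_Rp.1 hγ).1, D.sum_simple (hJ hj),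
    D.mu_neg _ _ (D.sr_mem j)] at a
  omega

/-- `R_J = W_J J`: move the alcove `tr (-z ∅)` into the `J`-dominant chamber step by step. -/
theorem exists_simple {J : Finset B} (hJ : J ⊆ D.S0) {γ : Du D.n} (h : γ ∈ D.R)
    (h0 : γ (D.z J) = 0) : ∃ u ∈ D.WJ J, ∃ j ∈ J, D.pb u γ = D.sr j := by
  have k1 : ∀ u ∈ D.WJ J, ∀ δ ∈ D.Rp, D.pb u δ ∉ D.Rp →
      ∃ u ∈ D.WJ J, ∃ j ∈ J, D.pb u δ = D.sr j := fun u hu δ hδ => by
    refine D.WJ_induction hJ (p := fun u => D.pb u δ ∉ D.Rp →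
      ∃ u ∈ D.WJ J, ∃ j ∈ J, D.pb u δ = D.sr j) (fun e => (e (by rwa [pb_one])).elim)
      (fun u hu j hj _ ih e => ?_) hu
    by_cases a : D.pb u δ ∈ D.Rp
    · refine ⟨u, hu, j, hj, by_contra fun b => e ?_⟩
      rw [pb_mul]
      exact D.simple_perm (hJ hj) a b
    · exact ih a
  have k2 : ∀ δ ∈ D.Rp, δ (D.z J) = 0 → ∃ u ∈ D.WJ J, ∃ j ∈ J, D.pb u δ = D.sr j := by
    intro δ hδ e
    obtain ⟨u, hu, a⟩ := D.exists_adom hJ (D.tr (-D.z ∅) * 1)
    refine k1 _ (inv_mem hu) δ hδ fun b => ?_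
    have c := D.mu_adom hJ a hδ e
    obtain ⟨b1, b2⟩ := D.mem_Rp.1 b
    rw [D.mu_fin (inv_mem (D.WJ_mono hJ hu)) _ (D.mem_Rp.1 hδ).1, D.mu_tr _ _ _ b1, b2,
      map_neg] at c
    have := (D.mem_Rp_iff b1).1 b
    omega
  by_cases hp : γ ∈ D.Rp
  · exact k2 γ hp h0
  · obtain ⟨u, hu, j, hj, e⟩ := k2 _ ((D.neg_mem_Rp h).2 hp) (by simp [h0])
    refine ⟨u * cs.simple j, mul_mem hu (D.simple_mem_WJ hj), j, hj, ?_⟩
    rw [pb_neg, neg_eq_iff_eq_neg] at e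
    rw [pb_mul, e, pb_neg, pb_simple_sr, neg_neg]

theorem rf_mem {J : Finset B} (hJ : J ⊆ D.S0) {γ : Du D.n} (h : γ ∈ D.R)
    (h0 : γ (D.z J) = 0) : D.rf γ ∈ D.WJ J := by
  obtain ⟨u, hu, j, hj, e⟩ := D.exists_simple hJ h h0
  rw [← D.rf_pb (D.WJ_mono hJ hu) h, e, D.rf_sr (hJ hj)]
  exact mul_mem (mul_mem hu (D.simple_mem_WJ hj)) (inv_mem hu)

theorem stab_z {J : Finset B} (hJ : J ⊆ D.S0) {u : W} (hu : u ∈ D.W0)
    (h : D.gr u (D.z J) = D.z J) : u ∈ D.WJ J := by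
  obtain ⟨v, hv, a⟩ := D.exists_adom hJ u
  have := D.eq_one_of_adom hJ (mul_mem (inv_mem (D.WJ_mono hJ hv)) hu)
    (by rw [gr_mul, h, D.gr_fix (inv_mem hv) (D.fix_z hJ)]) a
  rwa [← inv_mul_eq_one.1 this]

end AD

end Pool.Agent.P.MP_74db7f_al
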