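import Pool.Agent.P.MP_74db7f_al.F.G2

/-! G3: degrees, the invariant form, finiteness, generic vectors (paper, section 0). -/

namespace Pool.Agent.P.MP_74db7f_al

open scoped Classical

namespace AD

variable {B W : Type*} [Group W] {M : CoxeterMatrix B} {cs : CoxeterSystem M W} (D : AD cs)

theorem deg_apply (J : Finset B) (x : Lat D.n) : D.deg J x = ∑ u ∈ D.WF J, D.gr u x := by
  simp [deg]

theorem sum_mul_left {N : Type*} [AddCommMonoid N] {G : Subgroup W} {F : Finset W}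
    (hF : ∀ u, u ∈ F ↔ u ∈ G) {v : W} (hv : v ∈ G) (f : W → N) :
    ∑ u ∈ F, f (v * u) = ∑ u ∈ F, f u :=
  Finset.sum_equiv (Equiv.mulLeft v) (fun u => by
    rw [hF, hF, Equiv.coe_mulLeft, G.mul_mem_cancel_left hv]) fun _ _ => rfl

theorem sum_mul_right {N : Type*} [AddCommMonoid N] {G : Subgroup W} {F : Finset W}
    (hF : ∀ u, u ∈ F ↔ u ∈ G) {v : W} (hv : v ∈ G) (f : W → N) :
    ∑ u ∈ F, f (u * v) = ∑ u ∈ F, f u :=
  Finset.sum_equiv (Equiv.mulRight v) (fun u => by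
    rw [hF, hF, Equiv.coe_mulRight, G.mul_mem_cancel_right hv]) fun _ _ => rfl

theorem gr_sum {G : Subgroup W} {F : Finset W} (hF : ∀ u, u ∈ F ↔ u ∈ G) {v : W} (hv : v ∈ G)
    (x : Lat D.n) : D.gr v (∑ u ∈ F, D.gr u x) = ∑ u ∈ F, D.gr u x := by
  rw [map_sum, ← sum_mul_left hF hv fun u => D.gr u x]
  simp only [gr_mul]

theorem gr_deg {J : Finset B} (hJ : J ⊆ D.S0) {v : W} (hv : v ∈ D.WJ J) (x : Lat D.n) :
    D.gr v (D.deg J x) = D.deg J x := by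
  rw [deg_apply, D.gr_sum (fun _ => D.mem_WF hJ) hv]

theorem root_of_rf {γ : Du D.n} (h : γ ∈ D.R) {x : Lat D.n} (e : D.gr (D.rf γ) x = x) :
    γ x = 0 := by
  rw [(D.co_spec h).2.2, sub_eq_self, smul_eq_zero] at e
  exact e.resolve_right (D.co_ne_zero h)

theorem fix_deg {J : Finset B} (hJ : J ⊆ D.S0) (x : Lat D.n) : D.Fix J (D.deg J x) := by
  intro j hj
  refine D.root_of_rf (D.sr_mem j) (D.gr_deg hJ ?_ x)
  rw [D.rf_sr (hJ hj)]
  exact D.simple_mem_WJ hj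

theorem deg_of_fix {J : Finset B} (hJ : J ⊆ D.S0) {x : Lat D.n} (hx : D.Fix J x) :
    D.deg J x = ((D.WF J).card : ℤ) • x := by
  rw [deg_apply, Finset.sum_congr rfl fun u hu => D.gr_fix ((D.mem_WF hJ).1 hu) hx,
    Finset.sum_const, natCast_zsmul]

theorem card_WF_pos {J : Finset B} (hJ : J ⊆ D.S0) : 0 < (D.WF J).card := by
  exact Finset.card_pos.2 ⟨1, (D.mem_WF hJ).2 (one_mem _)⟩

theorem deg_gr {J : Finset B} (hJ : J ⊆ D.S0) {u : W} (hu : u ∈ D.WJ J) (x : Lat D.n) :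
    D.deg J (D.gr u x) = D.deg J x := by
  rw [deg_apply, deg_apply, ← sum_mul_right (fun _ => D.mem_WF hJ) hu fun v => D.gr v x]
  simp only [gr_mul]

theorem deg_co {J : Finset B} (hJ : J ⊆ D.S0) {γ : Du D.n} (h : γ ∈ D.R)
    (h0 : γ (D.z J) = 0) : D.deg J (D.co γ) = 0 := by
  have e := D.deg_gr hJ (D.rf_mem hJ h h0) (D.co γ)
  rw [(D.co_spec h).2.2, (D.co_spec h).1, map_sub, map_zsmul, sub_eq_self, smul_eq_zero] at e
  exact e.resolve_left two_ne_zero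

/-- the projection `|W_J| x - deg x` to `X_J` -/
theorem deg_proj {J : Finset B} (hJ : J ⊆ D.S0) (x : Lat D.n) :
    D.deg J (((D.WF J).card : ℤ) • x - D.deg J x) = 0 := by
  rw [map_sub, map_zsmul, D.deg_of_fix hJ (D.fix_deg hJ x), sub_self]

theorem eq_zero_of_fix_deg {J : Finset B} (hJ : J ⊆ D.S0) {x : Lat D.n} (hx : D.Fix J x)
    (h0 : D.deg J x = 0) : x = 0 := by
  rw [D.deg_of_fix hJ hx, smul_eq_zero] at h0
  exact h0.resolve_left (Nat.cast_ne_zero.2 (D.card_WF_pos hJ).ne')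

theorem deg_deg {J I : Finset B} (hJI : J ⊆ I) (hI : I ⊆ D.S0) (x : Lat D.n) :
    D.deg I (D.deg J x) = ((D.WF J).card : ℤ) • D.deg I x := by
  rw [D.deg_apply J, map_sum, Finset.sum_congr rfl fun u hu =>
    D.deg_gr hI (D.WJ_mono hJI ((D.mem_WF (hJI.trans hI)).1 hu)) x, Finset.sum_const,
    natCast_zsmul]

/-- `X_J ⊆ X_I` -/
theorem deg_mono {J I : Finset B} (hJI : J ⊆ I) (hI : I ⊆ D.S0) {x : Lat D.n}
    (h0 : D.deg J x = 0) : D.deg I x = 0 := by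
  have e := D.deg_deg hJI hI x
  rw [h0, map_zero, eq_comm, smul_eq_zero] at e
  exact e.resolve_left (Nat.cast_ne_zero.2 (D.card_WF_pos (hJI.trans hI)).ne')

theorem xp_tr (x : Lat D.n) : D.xp (D.tr x) = x := by
  simpa using D.xp_tr_mul x (one_mem _)

theorem xp_tr_mul' (x : Lat D.n) (w : W) : D.xp (D.tr x * w) = x + D.xp w := by
  rw [xp_mul, xp_tr, D.gr_tr]
  rfl

theorem degW_tr_mul (J : Finset B) (x : Lat D.n) (w : W) :
    D.degW J (D.tr x * w) = D.deg J x + D.degW J w := by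
  rw [degW, xp_tr_mul', map_add, degW]

theorem degW_mul {J : Finset B} (hJ : J ⊆ D.S0) {y : W} (hy : y ∈ D.YJ J) (w : W) :
    D.degW J (y * w) = D.degW J y + D.degW J w := by
  rw [degW, xp_mul, map_add, ← gr_fp, D.deg_gr hJ ((D.mem_YJ hJ).1 hy), degW, degW]

theorem degW_W0 (J : Finset B) {u : W} (hu : u ∈ D.W0) : D.degW J u = 0 := by
  rw [degW, D.xp_W0 hu, map_zero]

theorem degW_mul_W0 (J : Finset B) (w : W) {u : W} (hu : u ∈ D.W0) :
    D.degW J (w * u) = D.degW J w := by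
  rw [degW, xp_mul, D.xp_W0 hu, map_zero, add_zero, degW]

theorem sum_pb (w : W) (f : Du D.n → ℤ) : ∑ γ ∈ D.R, f (D.pb w γ) = ∑ γ ∈ D.R, f γ :=
  Finset.sum_nbij' (D.pb w) (D.pb w⁻¹) (fun _ h => D.pb_mem w h) (fun _ h => D.pb_mem w⁻¹ h)
    (fun γ _ => D.pb_inv_pb w γ) (fun γ _ => D.pb_pb_inv w γ) fun _ _ => rfl

theorem Bf_comm (x y : Lat D.n) : D.Bf x y = D.Bf y x :=
  Finset.sum_congr rfl fun _ _ => mul_comm _ _

/-- the invariant form as a functional -/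
noncomputable def Bl (y : Lat D.n) : Du D.n := ∑ γ ∈ D.R, γ y • γ

theorem Bf_eq (x y : Lat D.n) : D.Bf x y = D.Bl y x := by
  simp [Bf, Bl, mul_comm]

theorem Bf_gr (w : W) (x y : Lat D.n) : D.Bf (D.gr w x) (D.gr w y) = D.Bf x y := by
  exact D.sum_pb w fun γ => γ x * γ y

theorem Bf_self_eq_zero {x : Lat D.n} (h : D.Bf x x = 0) : x = 0 := by
  rw [Bf, Finset.sum_eq_zero_iff_of_nonneg fun γ _ => mul_self_nonneg _] at h
  exact D.sep x fun i _ => mul_self_eq_zero.1 (h _ (D.sr_mem i))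

theorem Bf_deg {J : Finset B} (hJ : J ⊆ D.S0) {x y : Lat D.n} (hx : D.deg J x = 0)
    (hy : D.Fix J y) : D.Bf x y = 0 := by
  have e : D.Bl y (D.deg J x) = ((D.WF J).card : ℤ) * D.Bf x y := by
    rw [deg_apply, map_sum, Finset.sum_congr rfl fun u hu => by
      rw [← Bf_eq, ← D.gr_fix ((D.mem_WF hJ).1 hu) hy, Bf_gr], Finset.sum_const, nsmul_eq_mul]
  rw [hx, map_zero, eq_comm, mul_eq_zero] at e
  exact e.resolve_left (Nat.cast_ne_zero.2 (D.card_WF_pos hJ).ne')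

theorem Bf_co {γ : Du D.n} (h : γ ∈ D.R) (y : Lat D.n) :
    2 * D.Bf (D.co γ) y = γ y * D.Bf (D.co γ) (D.co γ) := by
  obtain ⟨h1, -, h3⟩ := D.co_spec h
  have e := D.Bf_gr (D.rf γ) (D.co γ) y
  rw [h3, h3, h1, Bf_eq, map_sub, map_zsmul, ← Bf_eq, Bf_comm, Bf_eq, map_sub, map_zsmul,
    ← Bf_eq, ← Bf_eq, D.Bf_comm y] at e
  simp only [smul_eq_mul] at e
  linarith

theorem gr_eq_of_deg {J : Finset B} (hJ : J ⊆ D.S0) {x : Lat D.n} (hx : D.Fix J x) (w : W)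
    (h : D.deg J (D.gr w x - x) = 0) : D.gr w x = x := by
  have e := D.Bf_deg hJ h hx
  have e1 := D.Bf_gr w x x
  refine sub_eq_zero.1 (D.Bf_self_eq_zero ?_)
  rw [Bf_eq, map_sub, ← Bf_eq, ← Bf_eq] at e
  rw [Bf_eq, map_sub, ← Bf_eq, ← Bf_eq, D.Bf_comm (D.gr w x), D.Bf_comm x, Bf_eq, Bf_eq, map_sub,
    map_sub, ← Bf_eq, ← Bf_eq, ← Bf_eq, ← Bf_eq, D.Bf_comm x (D.gr w x)]
  linarith

/-- used for the factors of `N` in the scattering step -/
theorem sr_deg_co_ne {J : Finset B} (hJ : J ⊆ D.S0) {b : B} (hb : b ∈ D.S0) {γ : Du D.n}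
    (h : γ ∈ D.R) (h0 : γ (D.z (insert b J)) = 0) (h1 : γ (D.z J) ≠ 0) :
    D.sr b (D.deg J (D.co γ)) ≠ 0 := by
  intro e
  have hK : insert b J ⊆ D.S0 := Finset.insert_subset hb hJ
  have e1 : D.deg J (D.co γ) = 0 := D.eq_zero_of_fix_deg hK (fun j hj =>
    (Finset.mem_insert.1 hj).elim (fun a => a ▸ e) (D.fix_deg hJ _ j))
    (by rw [D.deg_deg (Finset.subset_insert _ _) hK, D.deg_co hK h h0, smul_zero])
  have e2 := D.Bf_co h (D.z J)
  rw [D.Bf_deg hJ e1 (D.fix_z hJ), mul_zero, eq_comm, mul_eq_zero] at e2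
  exact D.co_ne_zero h (D.Bf_self_eq_zero (e2.resolve_left h1))

/-- average over the finite group generated by the reflections `rf γ`, `γ ∈ P` -/
theorem exists_perp {J : Finset B} (hJ : J ⊆ D.S0) (P : Finset (Du D.n))
    (hP : ∀ γ ∈ P, γ ∈ D.R ∧ γ (D.z J) = 0) (x : Lat D.n) :
    ∃ (x0 : Lat D.n) (k : Du D.n → ℤ), (D.Mo : ℤ) • x = x0 + ∑ γ ∈ P, k γ • D.co γ ∧
      (∀ γ ∈ P, γ x0 = 0) ∧ (D.deg J x = 0 → D.deg J x0 = 0) := by
  let G := Subgroup.closure (D.rf '' (P : Set (Du D.n)))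
  have hG : G ≤ D.WJ J := (Subgroup.closure_le _).2 (by
    rintro _ ⟨γ, hγ, rfl⟩
    exact D.rf_mem hJ (hP γ hγ).1 (hP γ hγ).2)
  have hG0 : G ≤ D.W0 := hG.trans (D.WJ_mono hJ)
  let F := (D.WF D.S0).filter (· ∈ G)
  have hF : ∀ u, u ∈ F ↔ u ∈ G := fun u => by
    rw [Finset.mem_filter, D.mem_WF subset_rfl]
    exact and_iff_right_of_imp fun h => hG0 h
  obtain ⟨c, hc⟩ : F.card ∣ D.Mo := by
    rw [← Nat.subtype_card F hF, Mo, ← Nat.subtype_card (D.WF D.S0) fun _ => D.mem_WF subset_rfl]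
    exact Subgroup.card_dvd_of_le hG0
  let L := Submodule.span ℤ (D.co '' (P : Set (Du D.n)))
  have hL : ∀ u ∈ G, ∀ x, x - D.gr u x ∈ L := fun u hu => by
    induction hu using Subgroup.closure_induction with
    | mem y h =>
      obtain ⟨γ, hγ, rfl⟩ := h
      intro x
      rw [(D.co_spec (hP γ hγ).1).2.2, sub_sub_cancel]
      exact L.smul_mem _ (Submodule.subset_span ⟨γ, hγ, rfl⟩)
    | one => simp
    | mul y y' _ _ h h' =>
      intro x
      rw [gr_mul, ← sub_add_sub_cancel x (D.gr y' x)]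
      exact add_mem (h' x) (h _)
    | inv y _ h =>
      intro x
      have := L.neg_mem (h (D.gr y⁻¹ x))
      rwa [gr_gr_inv, neg_sub] at this
  have h1 : (c : ℤ) • ∑ u ∈ F, (x - D.gr u x) ∈ L :=
    L.smul_mem _ (sum_mem fun u hu => hL u ((hF u).1 hu) x)
  obtain ⟨k, hk⟩ := (Submodule.mem_span_image_finset_iff_exists_fun' ℤ).1 h1
  refine ⟨(c : ℤ) • ∑ u ∈ F, D.gr u x, k, ?_, fun γ hγ => ?_, fun h => ?_⟩
  · rw [hk, Finset.sum_sub_distrib, Finset.sum_const, hc, smul_sub, add_sub_cancel,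
      ← natCast_zsmul, smul_smul, Nat.cast_mul, mul_comm]
  · refine D.root_of_rf (hP γ hγ).1 ?_
    rw [map_zsmul, D.gr_sum hF (Subgroup.subset_closure ⟨γ, hγ, rfl⟩)]
  · rw [map_zsmul, map_sum, Finset.sum_eq_zero fun u hu => by
      rw [D.deg_gr hJ (hG ((hF u).1 hu)), h], smul_zero]

theorem exists_ne_zero {n : ℕ} (s : Finset (Du n)) (h : ∀ φ ∈ s, ∃ y, φ y ≠ 0) :
    ∃ x, ∀ φ ∈ s, φ x ≠ 0 := by
  induction s using Finset.induction_on with
  | empty => exact ⟨0, by simp⟩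
  | insert φ s _ ih =>
    obtain ⟨x, hx⟩ := ih fun ψ hψ => h ψ (Finset.mem_insert_of_mem hψ)
    obtain ⟨y, hy⟩ := h φ (Finset.mem_insert_self _ _)
    by_cases e : φ x = 0
    · refine ⟨(1 + ∑ ψ ∈ s, |ψ y|) • x + y, fun ψ hψ => ?_⟩
      rw [map_add, map_zsmul, smul_eq_mul]
      rcases Finset.mem_insert.1 hψ with rfl | hψ
      · rwa [e, mul_zero, zero_add]
      · have a := Finset.single_le_sum (f := fun ψ : Du n => |ψ y|) (fun _ _ => abs_nonneg _) hψ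
        have b := hx ψ hψ
        have c := le_abs_self (ψ y)
        have d := neg_abs_le (ψ y)
        rcases b.lt_or_gt with b | b <;> nlinarith
    · exact ⟨x, fun ψ hψ => (Finset.mem_insert.1 hψ).elim (fun a => a ▸ e) (hx ψ)⟩

theorem exists_generic : ∃ z0 : Lat D.n, ∀ J ⊆ D.S0, ∀ b ∈ D.S0, b ∉ J → ∀ w : W,
    D.sr b (D.deg J (D.gr w z0)) ≠ 0 := by
  obtain ⟨x, hx⟩ := exists_ne_zero
    (((D.S0.powerset ×ˢ D.S0 ×ˢ D.WF D.S0).filter fun p => p.2.1 ∉ p.1).image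
      fun p => D.pb p.2.2 (D.sr p.2.1 ∘ₗ D.deg p.1)) (by
    simp only [Finset.mem_image, Finset.mem_filter, Finset.mem_product, Finset.mem_powerset]
    rintro _ ⟨⟨J, b, u⟩, ⟨⟨hJ, hb, -⟩, hbJ⟩, rfl⟩
    refine ⟨D.gr u⁻¹ (D.z J), ?_⟩
    rw [pb_apply, gr_gr_inv, LinearMap.comp_apply, D.deg_of_fix hJ (D.fix_z hJ), map_zsmul,
      D.sr_z_not hb hbJ]
    exact mul_ne_zero (Nat.cast_ne_zero.2 (D.card_WF_pos hJ).ne') D.m_pos.ne')
  refine ⟨x, fun J hJ b hb hbJ w => ?_⟩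
  rw [← gr_fp]
  exact hx _ (Finset.mem_image.2 ⟨(J, b, D.fp w), by
    simp [hJ, hb, hbJ, D.mem_WF subset_rfl, show D.fp w ∈ D.WJ D.S0 from D.fp_mem w], rfl⟩)

theorem lam_tr {J : Finset B} (hJ : J ⊆ D.S0) {x : Lat D.n} (hx : D.Fix J x) (w : W) :
    D.lam J (D.tr x * w) = D.lam J w := by
  refine Finset.sum_congr rfl fun γ hγ => ?_
  have hR := (D.mem_Rp.1 hγ).1
  split_ifs with h
  · rw [D.mu_tr _ _ γ hR, D.root_fix hJ hx hR h, add_zero]
  · rfl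

theorem exists_reps {α κ : Type*} {S : Set α} {key : α → κ} (h : (key '' S).Finite) :
    ∃ F : Finset α, ∀ a ∈ S, ∃ f ∈ F, f ∈ S ∧ key f = key a := by
  obtain ⟨F, h1, h2⟩ := (Finset.subset_set_image_iff (f := key) (s := S) (t := h.toFinset)).1
    (by simp)
  refine ⟨F, fun a ha => ?_⟩
  obtain ⟨f, hf, e⟩ := Finset.mem_image.1 (h2 ▸ h.mem_toFinset.2 ⟨a, ha, rfl⟩)
  exact ⟨f, hf, h1 hf, e⟩

theorem abs_mu_le_lam {J : Finset B} (w : W) {γ : Du D.n} (h : γ ∈ D.Rp) (h0 : γ (D.z J) = 0) :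
    |D.mu w γ| ≤ D.lam J w := by
  have := Finset.single_le_sum (f := fun γ => if γ (D.z J) = 0 then |D.mu w γ| else 0)
    (fun γ _ => by split_ifs <;> simp) h
  rwa [if_pos h0] at this

/-- (Fin) -/
theorem exists_fin {J : Finset B} (hJ : J ⊆ D.S0) (N : ℤ) : ∃ F : Finset W, ∀ w,
    D.lam J w < N → ∃ x, D.Fix J x ∧ ∃ f ∈ F, w = D.tr x * f := by
  obtain ⟨F, hF⟩ := exists_reps (S := {w | D.lam J w < N})
    (key := fun w => (D.fp w, fun j : J => D.sr j (D.xp w)))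
    (((D.finite_WJ subset_rfl).prod (Set.Finite.pi' fun _ : J =>
      Set.finite_Icc (-N) (N + 1))).subset (by
      rintro _ ⟨w, hw, rfl⟩
      refine ⟨D.fp_mem w, fun j => ?_⟩
      have a := (D.abs_mu_le_lam w (D.sr_mem_Rp (hJ j.2)) (D.fix_z hJ j j.2)).trans_lt hw
      have b := D.mu_one _ (D.pb_mem w (D.sr_mem j))
      rw [D.mu_eq w (D.sr_mem j), abs_lt] at a
      constructor <;> dsimp only <;> omega))
  refine ⟨F, fun w hw => ?_⟩
  obtain ⟨f, hf, -, e⟩ := hF w hw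
  obtain ⟨e1, e2⟩ := Prod.ext_iff.1 e
  refine ⟨D.xp w - D.xp f, fun j hj => ?_, f, hf, ?_⟩
  · rw [map_sub, sub_eq_zero]
    exact (congrFun e2 ⟨j, hj⟩).symm
  · have e3 : D.tr (D.xp w - D.xp f) * (D.tr (D.xp f) * D.fp f) = w := by
      rw [← mul_assoc, ← D.tr_add, sub_add_cancel, show D.fp f = D.fp w from e1, tr_xp_fp]
    rw [tr_xp_fp] at e3
    exact e3.symm

theorem finite_lam_deg {J : Finset B} (hJ : J ⊆ D.S0) (N : ℤ) (δ : Lat D.n) :
    {w | D.lam J w < N ∧ D.degW J w = δ}.Finite := by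
  obtain ⟨F, hF⟩ := D.exists_fin hJ N
  refine (F.finite_toSet.biUnion (t := fun f => {w | ∃ x, D.Fix J x ∧ w = D.tr x * f ∧
    D.degW J w = δ}) fun f _ => Set.Subsingleton.finite ?_).subset fun w hw => ?_
  · rintro _ ⟨x, hx, rfl, e⟩ _ ⟨y, hy, rfl, e'⟩
    rw [← e', degW_tr_mul, degW_tr_mul, add_left_inj, ← sub_eq_zero, ← map_sub] at e
    rw [sub_eq_zero.1 (D.eq_zero_of_fix_deg hJ (fun j hj => by
      rw [map_sub, hx j hj, hy j hj, sub_zero]) e)]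
  · obtain ⟨x, hx, f, hf, e⟩ := hF w hw.1
    exact Set.mem_biUnion hf ⟨x, hx, e, hw.2⟩

/-- `X^J / (X^{J+b} + ℤ y)` is finite -/
theorem exists_fix_reps {J : Finset B} (hJ : J ⊆ D.S0) {b : B} (hb : b ∈ D.S0) {y : Lat D.n}
    (hy : D.Fix J y) (hy' : D.sr b y ≠ 0) : ∃ F : Finset (Lat D.n), ∀ x, D.Fix J x →
      ∃ x', D.Fix (insert b J) x' ∧ ∃ k : ℤ, ∃ f ∈ F, D.Fix J f ∧ x = x' + k • y + f := by
  obtain ⟨F, hF⟩ := exists_reps (S := {x | D.Fix J x}) (key := fun x => D.sr b x % D.sr b y)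
    ((Set.finite_Icc 0 |D.sr b y|).subset (by
      rintro _ ⟨x, -, rfl⟩
      exact ⟨Int.emod_nonneg _ hy', (Int.emod_lt_abs _ hy').le⟩))
  refine ⟨F, fun x hx => ?_⟩
  obtain ⟨f, hf, h1, e⟩ := hF x hx
  obtain ⟨k, hk⟩ := Int.ModEq.dvd e
  refine ⟨x - k • y - f, fun j hj => ?_, k, f, hf, h1, by abel⟩
  rw [map_sub, map_sub, map_zsmul, smul_eq_mul]
  rcases Finset.mem_insert.1 hj with rfl | hj
  · linarith
  · rw [hx j hj, hy j hj, h1 j hj, mul_zero, sub_zero, sub_zero]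

/-- representatives of `X^J / |W_J| X^J` -/
theorem exists_deg_reps {J : Finset B} (hJ : J ⊆ D.S0) : ∃ F : Finset (Lat D.n),
    ∀ δ, D.Fix J δ → ∃! p : Lat D.n × Lat D.n, D.Fix J p.1 ∧ p.2 ∈ F ∧
      δ = ((D.WF J).card : ℤ) • p.1 + p.2 := by
  have hc : ((D.WF J).card : ℤ) ≠ 0 := Nat.cast_ne_zero.2 (D.card_WF_pos hJ).ne'
  generalize ((D.WF J).card : ℤ) = c at hc
  let key : Lat D.n → Lat D.n := fun x i => x i % c
  have hT : (key '' {x | D.Fix J x}).Finite :=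
    (Set.Finite.pi' fun _ => Set.finite_Icc 0 |c|).subset (by
      rintro _ ⟨x, -, rfl⟩ i
      exact ⟨Int.emod_nonneg _ hc, (Int.emod_lt_abs _ hc).le⟩)
  refine ⟨hT.toFinset.image (Function.invFunOn key {x | D.Fix J x}), fun δ hδ => ?_⟩
  have h0 : ∃ a ∈ {x | D.Fix J x}, key a = key δ := ⟨δ, hδ, rfl⟩
  have h1 : D.Fix J _ := Function.invFunOn_mem h0
  have h2 := Function.invFunOn_eq h0
  have h3 : Function.invFunOn key {x | D.Fix J x} (key δ) ∈
      hT.toFinset.image (Function.invFunOn key {x | D.Fix J x}) :=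
    Finset.mem_image_of_mem _ (hT.mem_toFinset.2 ⟨δ, hδ, rfl⟩)
  choose k hk using fun i => Int.ModEq.dvd (congrFun h2 i)
  have h4 : δ = c • k + Function.invFunOn key {x | D.Fix J x} (key δ) :=
    funext fun i => by
      have := hk i
      simp only [Pi.add_apply, Pi.smul_apply, smul_eq_mul]
      linarith
  refine ⟨(k, _), ⟨fun j hj => ?_, h3, h4⟩, ?_⟩
  · have := hδ j hj
    rw [h4, map_add, h1 j hj, add_zero, map_zsmul, smul_eq_zero] at this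
    exact this.resolve_left hc
  · rintro ⟨x, f⟩ ⟨-, a, e⟩
    obtain ⟨t, ht, rfl⟩ := Finset.mem_image.1 a
    have e1 : key δ = t := by
      rw [← Function.invFunOn_eq (hT.mem_toFinset.1 ht)]
      funext i
      simp only [key, e, Pi.add_apply, Pi.smul_apply, smul_eq_mul, Int.mul_add_emod_self_left]
    subst e1
    exact Prod.ext (smul_right_injective _ hc (add_right_cancel (e.symm.trans h4))) rfl

/-- dominant vectors of given degree: finitely many starting points plus multiples of the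
projected fundamental vectors `c • (|W_J| cw b - deg (cw b))` -/
theorem exists_dom_gens {J : Finset B} (hJ : J ⊆ D.S0) (δ : Lat D.n) {c : ℕ} (hc : 0 < c) :
    ∃ F : Finset (Lat D.n), ∀ x, D.Dom J x → D.deg J x = δ → ∃ f ∈ F, ∃ k : B → ℕ,
      x = f + ∑ b ∈ J, ((k b * c : ℕ) : ℤ) •
        (((D.WF J).card : ℤ) • D.cw b - D.deg J (D.cw b)) := by
  have hq : 0 < (c : ℤ) * ((D.WF J).card * D.m) :=
    mul_pos (Nat.cast_pos.2 hc) (mul_pos (Nat.cast_pos.2 (D.card_WF_pos hJ)) D.m_pos)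
  set q := (c : ℤ) * ((D.WF J).card * D.m) with hq'
  have hT : {f | D.deg J f = δ ∧ ∀ j : J, D.sr j f ∈ Set.Icc 0 q}.Finite := by
    refine Set.Finite.of_finite_image (f := fun f (j : J) => D.sr j f)
      ((Set.Finite.pi' fun _ => Set.finite_Icc 0 q).subset ?_) fun f hf g hg e => ?_
    · rintro _ ⟨f, hf, rfl⟩
      exact hf.2
    · refine sub_eq_zero.1 (D.eq_zero_of_fix_deg hJ (fun j hj => ?_) ?_)
      · rw [map_sub, sub_eq_zero]
        exact congrFun e ⟨j, hj⟩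
      · rw [map_sub, hf.1, hg.1, sub_self]
  refine ⟨hT.toFinset, fun x hx e => ⟨_, ?_, fun b => (D.sr b x / q).toNat,
    (sub_add_cancel _ _).symm⟩⟩
  refine hT.mem_toFinset.2 ⟨?_, fun j => ?_⟩
  · rw [map_sub, map_sum, Finset.sum_eq_zero fun b _ => by
      rw [map_zsmul, D.deg_proj hJ, smul_zero], sub_zero, e]
  · have e1 : D.sr j (x - ∑ b ∈ J, (((D.sr b x / q).toNat * c : ℕ) : ℤ) •
        (((D.WF J).card : ℤ) • D.cw b - D.deg J (D.cw b))) = D.sr j x % q := by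
      rw [map_sub, map_sum, Finset.sum_eq_single_of_mem j.1 j.2 fun b hb hne => by
        rw [map_zsmul, map_sub, map_zsmul, D.fix_deg hJ _ j j.2,
          D.cw_ne b (hJ hb) j (hJ j.2) hne, smul_zero, sub_zero, smul_zero],
        map_zsmul, map_sub, map_zsmul, D.fix_deg hJ _ j j.2, D.cw_self j (hJ j.2), Nat.cast_mul,
        Int.toNat_of_nonneg (Int.ediv_nonneg (hx j j.2) hq.le), Int.emod_def, hq']
      simp only [smul_eq_mul]
      ring
    rw [e1]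
    exact ⟨Int.emod_nonneg _ hq.ne', (Int.emod_lt_of_pos _ hq).le⟩

end AD

end Pool.Agent.P.MP_74db7f_al
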