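import Pool.Agent.P.MP_74db7f_al.F.G3

/-! G4: oriented lengths, minimal coset representatives, deep alcoves, elementary moves. -/

namespace Pool.Agent.P.MP_74db7f_al

open scoped Classical

namespace AD

variable {B W : Type*} [Group W] {M : CoxeterMatrix B} {cs : CoxeterSystem M W} (D : AD cs)

theorem lenJ_S0 (w : W) : D.lenJ D.S0 w = cs.length w := by
  rw [D.length_eq, lenJ, z_S0]
  simp

theorem wall_ne {w : W} {i : B} {δ : Du D.n} (h : δ ∈ D.Rp)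
    (e : D.pb w δ = D.sr i ∨ D.pb w δ = -D.sr i) {γ : Du D.n} (hγ : γ ∈ D.Rp) (hne : γ ≠ δ) :
    D.mu (w * cs.simple i) γ = D.mu w γ := by
  have k : ∀ γ δ, D.pb w γ = D.pb w δ → γ = δ := fun γ δ e => by
    rw [← D.pb_inv_pb w γ, e, pb_inv_pb]
  have k' : D.pb w γ ≠ -D.pb w δ := fun a => by
    rw [← pb_neg] at a
    rw [k _ _ a, D.neg_mem_Rp (D.mem_Rp.1 h).1] at hγ
    exact hγ h
  have k'' : D.pb w γ ≠ D.pb w δ := fun a => hne (k _ _ a)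
  rcases e with e | e
  · exact D.mu_step_ne (D.mem_Rp.1 hγ).1 (e ▸ k'') (e ▸ k')
  · rw [e] at k' k''
    rw [neg_neg] at k'
    exact D.mu_step_ne (D.mem_Rp.1 hγ).1 k' k''

theorem lenJ_sub (J : Finset B) {w w' : W} {δ : Du D.n} (h : δ ∈ D.Rp)
    (hne : ∀ γ ∈ D.Rp, γ ≠ δ → D.mu w' γ = D.mu w γ) : D.lenJ J w' - D.lenJ J w =
      if δ (D.z J) = 0 then |D.mu w' δ| - |D.mu w δ| else D.mu w' δ - D.mu w δ := by
  rw [lenJ, lenJ, ← Finset.add_sum_erase _ _ h, ← Finset.add_sum_erase _ _ h,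
    Finset.sum_congr rfl fun γ hγ => by
      rw [hne γ (Finset.mem_of_mem_erase hγ) (Finset.ne_of_mem_erase hγ)]]
  split_ifs <;> ring

theorem lenJ_dn (J : Finset B) {w : W} {i : B} {δ : Du D.n} (h : δ ∈ D.Rp)
    (e : D.pb w δ = D.sr i) : D.lenJ J (w * cs.simple i) - D.lenJ J w =
      if δ (D.z J) = 0 then |D.mu w δ - 1| - |D.mu w δ| else -1 := by
  rw [D.lenJ_sub J h fun γ => D.wall_ne h (Or.inl e), D.mu_step (D.mem_Rp.1 h).1 e]
  split_ifs <;> ring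

theorem lenJ_up (J : Finset B) {w : W} {i : B} {δ : Du D.n} (h : δ ∈ D.Rp)
    (e : D.pb w δ = -D.sr i) : D.lenJ J (w * cs.simple i) - D.lenJ J w =
      if δ (D.z J) = 0 then |D.mu w δ + 1| - |D.mu w δ| else 1 := by
  rw [D.lenJ_sub J h fun γ => D.wall_ne h (Or.inr e), D.mu_step_neg (D.mem_Rp.1 h).1 e]
  split_ifs <;> ring

theorem lenJ_step (J : Finset B) (w : W) (i : B) :
    D.lenJ J (w * cs.simple i) = D.lenJ J w + 1 ∨ D.lenJ J (w * cs.simple i) = D.lenJ J w - 1 := by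
  obtain ⟨γ, hγ, e | e, -⟩ := D.wall w i
  · have := D.lenJ_dn J hγ e
    rcases abs_cases (D.mu w γ) with b | b <;> rcases abs_cases (D.mu w γ - 1) with c | c <;>
      split_ifs at this <;> omega
  · have := D.lenJ_up J hγ e
    rcases abs_cases (D.mu w γ) with b | b <;> rcases abs_cases (D.mu w γ + 1) with c | c <;>
      split_ifs at this <;> omega

theorem abs_mu_le_length (w : W) {γ : Du D.n} (h : γ ∈ D.Rp) : |D.mu w γ| ≤ cs.length w := by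
  rw [length_eq]
  exact Finset.single_le_sum (f := fun γ => |D.mu w γ|) (fun _ _ => abs_nonneg _) h

theorem lenJ_eventually' {J I : Finset B} (h : ∀ γ ∈ D.R, γ (D.z J) = 0 → γ (D.z I) = 0)
    (w : W) : ∀ᶠ k : ℕ in Filter.atTop, D.lenJ I (D.tr ((k : ℤ) • D.z J) * w) =
      D.lenJ J w + k * ∑ γ ∈ D.Rp, γ (D.z J) := by
  filter_upwards [Filter.eventually_ge_atTop (cs.length w)] with k hk
  rw [lenJ, lenJ, Finset.mul_sum, ← Finset.sum_add_distrib]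
  refine Finset.sum_congr rfl fun γ hγ => ?_
  have hR := (D.mem_Rp.1 hγ).1
  rw [D.mu_tr _ _ γ hR, map_zsmul, smul_eq_mul]
  by_cases h0 : γ (D.z J) = 0
  · simp [h0, h γ hR h0]
  · have a : 1 ≤ γ (D.z J) := (D.root_z_nonneg J hγ).lt_of_ne' h0
    have b := D.abs_mu_le_length w hγ
    have c := neg_abs_le (D.mu w γ)
    have d : (cs.length w : ℤ) ≤ k := Nat.cast_le.2 hk
    have e : (k : ℤ) ≤ k * γ (D.z J) := le_mul_of_one_le_right (by positivity) a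
    rw [if_neg h0, abs_of_nonneg (by linarith), ite_self]

theorem lenJ_eventually {J I : Finset B} (hJI : J ⊆ I) (hI : I ⊆ D.S0) (w : W) :
    ∀ᶠ k : ℕ in Filter.atTop, D.lenJ I (D.tr ((k : ℤ) • D.z J) * w) =
      D.lenJ J w + k * ∑ γ ∈ D.Rp, γ (D.z J) := by
  exact D.lenJ_eventually' (fun γ h => D.root_z_mono hJI h) w

/-- the same at the top level, for every `J` -/
theorem length_eventually (J : Finset B) (w : W) :
    ∀ᶠ k : ℕ in Filter.atTop, (cs.length (D.tr ((k : ℤ) • D.z J) * w) : ℤ) =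
      D.lenJ J w + k * ∑ γ ∈ D.Rp, γ (D.z J) := by
  simpa only [lenJ_S0] using
    D.lenJ_eventually' (I := D.S0) (J := J) (fun γ _ _ => by rw [z_S0, map_zero]) w

theorem lenJ_tr {J : Finset B} (hJ : J ⊆ D.S0) {x : Lat D.n} (hx : D.Fix J x) (w : W) :
    D.lenJ J (D.tr x * w) = D.lenJ J w + ∑ γ ∈ D.Rp, γ x := by
  rw [lenJ, lenJ, ← Finset.sum_add_distrib]
  refine Finset.sum_congr rfl fun γ hγ => ?_
  have hR := (D.mem_Rp.1 hγ).1
  rw [D.mu_tr _ _ γ hR]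
  split_ifs with h
  · rw [D.root_fix hJ hx hR h, add_zero, add_zero]
  · rfl

theorem lenJ_empty_W0 {u : W} (hu : u ∈ D.W0) : D.lenJ ∅ u = -(cs.length u : ℤ) := by
  rw [length_eq, lenJ, ← Finset.sum_neg_distrib]
  refine Finset.sum_congr rfl fun γ hγ => ?_
  have hR := (D.mem_Rp.1 hγ).1
  rw [if_neg ((D.mem_Rp_iff hR).1 hγ).ne']
  rcases D.mu_W0 hu hR with a | a <;> simp [a.1]

theorem lenJ_simple_mul {I : Finset B} (hI : I ⊆ D.S0) {j : B} (hj : j ∈ I) (g : W) :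
    D.lenJ I (cs.simple j * g) =
      D.lenJ I g - |D.mu g (D.sr j)| + |-1 - D.mu g (D.sr j)| := by
  have e := D.sum_simple (hI hj) fun γ => if γ (D.z I) = 0 then |D.mu g γ| else D.mu g γ
  rw [LinearMap.neg_apply, D.fix_z hI j hj, neg_zero, if_pos rfl, if_pos rfl,
    D.mu_neg _ _ (D.sr_mem j)] at e
  rw [lenJ, lenJ, ← e]
  refine Finset.sum_congr rfl fun γ hγ => ?_
  rw [D.pb_z hI (D.simple_mem_WJ hj), D.mu_fin (D.simple_mem_WJ (hI hj)) _ (D.mem_Rp.1 hγ).1]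

/-- (Add) -/
theorem lenJ_add {I : Finset B} (hI : I ⊆ D.S0) {u : W} (hu : u ∈ D.WJ I) {g : W}
    (hg : ∀ γ ∈ D.Rp, D.pb u⁻¹ γ ∉ D.Rp → 0 ≤ D.mu g γ) :
    D.lenJ I (u * g) = cs.length u + D.lenJ I g := by
  revert g
  refine D.WJ_induction hI (p := fun u => ∀ {g : W},
    (∀ γ ∈ D.Rp, D.pb u⁻¹ γ ∉ D.Rp → 0 ≤ D.mu g γ) →
      D.lenJ I (u * g) = cs.length u + D.lenJ I g) (fun _ => by simp)
    (fun u hu j hj a ih g hg => ?_) hu
  have b := (D.asc_iff (D.WJ_mono hI hu) (hI hj)).1 a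
  have e : ∀ γ, D.pb (u * cs.simple j)⁻¹ γ = D.pb u⁻¹ (D.pb (cs.simple j) γ) := fun γ => by
    rw [mul_inv_rev, cs.inv_simple, pb_mul]
  have c := hg _ (D.sr_mem_Rp (hI hj)) (by
    rw [e, pb_simple_sr, pb_neg, D.neg_mem_Rp (D.mem_Rp.1 b).1]
    exact not_not.2 b)
  rw [mul_assoc, ih fun γ hγ hn => ?_, D.lenJ_simple_mul hI hj, abs_of_nonneg c,
    abs_of_neg (by omega)]
  · have := cs.length_mul_simple u j
    omega
  · rw [D.mu_fin (D.simple_mem_WJ (hI hj)) _ (D.mem_Rp.1 hγ).1]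
    refine hg _ (D.simple_perm (hI hj) hγ fun d => hn (d ▸ b)) ?_
    rwa [e, pb_simple_simple]

theorem desc_wall {g : W} {i : B} (hi : cs.length (g * cs.simple i) < cs.length g) :
    ∃ γ ∈ D.Rp, (D.pb g γ = D.sr i ∧ 0 < D.mu g γ) ∨ (D.pb g γ = -D.sr i ∧ D.mu g γ < 0) := by
  obtain ⟨γ, hγ, e | e, -⟩ := D.wall g i
  · have := D.lenJ_dn D.S0 hγ e
    rw [lenJ_S0, lenJ_S0, z_S0, map_zero, if_pos rfl] at this
    refine ⟨γ, hγ, Or.inl ⟨e, ?_⟩⟩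
    rcases abs_cases (D.mu g γ) with b | b <;> rcases abs_cases (D.mu g γ - 1) with c | c <;>
      omega
  · have := D.lenJ_up D.S0 hγ e
    rw [lenJ_S0, lenJ_S0, z_S0, map_zero, if_pos rfl] at this
    refine ⟨γ, hγ, Or.inr ⟨e, ?_⟩⟩
    rcases abs_cases (D.mu g γ) with b | b <;> rcases abs_cases (D.mu g γ + 1) with c | c <;>
      omega

/-- (Cmp): a descent of an `I`-dominant alcove -/
theorem cmp_step {J I : Finset B} (hJI : J ⊆ I) (hI : I ⊆ D.S0) {g : W} (hg : D.ADom I g)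
    {i : B} (hi : cs.length (g * cs.simple i) < cs.length g) :
    D.ADom I (g * cs.simple i) ∧ D.lenJ I g - D.lenJ I (g * cs.simple i) =
      D.lenJ J g - D.lenJ J (g * cs.simple i) := by
  obtain ⟨γ, hγ, ⟨e, a⟩ | ⟨e, a⟩⟩ := D.desc_wall hi
  · refine ⟨fun j hj => ?_, ?_⟩
    · by_cases b : D.sr j = γ
      · rw [b, D.mu_step (D.mem_Rp.1 hγ).1 e]
        omega
      · rw [D.wall_ne hγ (Or.inl e) (D.sr_mem_Rp (hI hj)) b]
        exact hg j hj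
    · have b := D.lenJ_dn I hγ e
      have c := D.lenJ_dn J hγ e
      rw [abs_of_pos a, abs_of_nonneg (by omega)] at b c
      split_ifs at b c <;> omega
  · have h0 : γ (D.z I) ≠ 0 := fun b => (D.mu_adom hI hg hγ b).not_gt a
    refine ⟨fun j hj => ?_, ?_⟩
    · rw [D.wall_ne hγ (Or.inr e) (D.sr_mem_Rp (hI hj)) fun b => h0 (b ▸ D.fix_z hI j hj)]
      exact hg j hj
    · have b := D.lenJ_up I hγ e
      have c := D.lenJ_up J hγ e
      rw [if_neg h0] at b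
      rw [if_neg fun d => h0 (D.root_z_mono hJI (D.mem_Rp.1 hγ).1 d)] at c
      omega

theorem lenJ_YJ_step {K J : Finset B} (hKJ : K ⊆ J) (hJ : J ⊆ D.S0) {g : W} {i : B}
    {γ : Du D.n} (hγ : γ ∈ D.Rp) (e : D.pb g γ = D.sr i ∨ D.pb g γ = -D.sr i)
    (h0 : γ (D.z J) ≠ 0) {y : W} (hy : y ∈ D.YJ J) :
    D.lenJ K (y * g * cs.simple i) - D.lenJ K (y * g) =
      D.lenJ K (g * cs.simple i) - D.lenJ K g := by
  have hu := (D.mem_YJ hJ).1 (inv_mem hy)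
  have e0 : D.pb y⁻¹ γ = D.pb (D.fp y⁻¹) γ := by rw [pb, pb, gr_fp]
  have h1 : D.pb y⁻¹ γ ∈ D.Rp := e0 ▸ D.pb_mem_Rp hJ hu hγ h0
  have h2 : D.pb y⁻¹ γ (D.z K) ≠ 0 := fun d => h0 (by
    have := D.root_z_mono hKJ (D.mem_Rp.1 h1).1 d
    rwa [e0, D.pb_z hJ hu] at this)
  have h3 : γ (D.z K) ≠ 0 := fun d => h0 (D.root_z_mono hKJ (D.mem_Rp.1 hγ).1 d)
  have e1 : D.pb (y * g) (D.pb y⁻¹ γ) = D.pb g γ := by rw [pb_mul, pb_pb_inv]
  rcases e with e | e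
  · rw [D.lenJ_dn K h1 (e1.trans e), D.lenJ_dn K hγ e, if_neg h2, if_neg h3]
  · rw [D.lenJ_up K h1 (e1.trans e), D.lenJ_up K hγ e, if_neg h2, if_neg h3]

/-- (Strip): a descent of an alcove of the base strip -/
theorem strip_step {K J : Finset B} (hKJ : K ⊆ J) (hJ : J ⊆ D.S0) {g : W}
    (hg : ∀ γ ∈ D.Rp, γ (D.z J) = 0 → D.mu g γ = 0) {i : B}
    (hi : cs.length (g * cs.simple i) < cs.length g) {y : W} (hy : y ∈ D.YJ J) :
    (∀ γ ∈ D.Rp, γ (D.z J) = 0 → D.mu (g * cs.simple i) γ = 0) ∧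
      D.lenJ K (y * g) - D.lenJ K (y * g * cs.simple i) =
        D.lenJ K g - D.lenJ K (g * cs.simple i) := by
  obtain ⟨γ, hγ, e⟩ := D.desc_wall hi
  have h0 : γ (D.z J) ≠ 0 := fun a => by
    have := hg γ hγ a
    omega
  have e' := e.imp And.left And.left
  refine ⟨fun δ hδ a => ?_, ?_⟩
  · rw [D.wall_ne hγ e' hδ fun b => h0 (b ▸ a)]
    exact hg δ hδ a
  · have := D.lenJ_YJ_step hKJ hJ hγ e' h0 hy
    omega

/-- (Supp): either the orientation of a wall does not change under `Y_J`, or the wall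
reflection lies in `Y_J` and has degree `0` -/
theorem supp_step {J : Finset B} (hJ : J ⊆ D.S0) (g : W) (i : B) :
    (∀ y ∈ D.YJ J, D.lenJ J (y * g * cs.simple i) - D.lenJ J (y * g) =
      D.lenJ J (g * cs.simple i) - D.lenJ J g) ∨
    (g * cs.simple i * g⁻¹ ∈ D.YJ J ∧ D.degW J (g * cs.simple i * g⁻¹) = 0) := by
  obtain ⟨γ, hγ, e, -⟩ := D.wall g i
  by_cases h0 : γ (D.z J) = 0
  · obtain ⟨δ, hδ, a, b⟩ : ∃ δ ∈ D.R, δ (D.z J) = 0 ∧ D.pb g δ = D.sr i := by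
      rcases e with e | e
      · exact ⟨γ, (D.mem_Rp.1 hγ).1, h0, e⟩
      · exact ⟨-γ, D.neg_mem γ (D.mem_Rp.1 hγ).1, by simp [h0], by rw [pb_neg, e, neg_neg]⟩
    rw [D.wall_refl hδ b]
    refine Or.inr ⟨(D.mem_YJ hJ).2 ?_, ?_⟩
    · rw [D.fp_tr_mul _ (D.co_spec hδ).2.1]
      exact D.rf_mem hJ hδ a
    · rw [degW_tr_mul, D.degW_W0 J (D.co_spec hδ).2.1, map_zsmul, D.deg_co hJ hδ a, smul_zero,
        add_zero]
  · exact Or.inl fun y hy => D.lenJ_YJ_step subset_rfl hJ hγ e h0 hy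

theorem adom_W0_iff {J : Finset B} (hJ : J ⊆ D.S0) {u : W} (hu : u ∈ D.W0) :
    D.ADom J u ↔ ∀ γ ∈ D.Rp, γ (D.z J) = 0 → D.pb u γ ∈ D.Rp := by
  refine ⟨fun h γ hγ h0 => ?_, fun h j hj => ((D.mu_W0_iff hu (D.sr_mem j)).2
    (h _ (D.sr_mem_Rp (hJ hj)) (D.fix_z hJ j hj))).ge⟩
  have a := D.mu_adom hJ h hγ h0
  rcases D.mu_W0 hu (D.mem_Rp.1 hγ).1 with b | b
  · exact b.2
  · omega

theorem mem_Mn {J I : Finset B} (hJI : J ⊆ I) (hI : I ⊆ D.S0) {u : W} :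
    u ∈ D.Mn I J ↔ u ∈ D.WJ I ∧ ∀ γ ∈ D.Rp, γ (D.z J) = 0 → D.pb u⁻¹ γ ∈ D.Rp := by
  rw [Mn, Finset.mem_filter, D.mem_WF hI]
  exact and_congr_right fun hu => D.adom_W0_iff (hJI.trans hI) (inv_mem (D.WJ_mono hI hu))

theorem one_mem_Mn {J I : Finset B} (hJI : J ⊆ I) (hI : I ⊆ D.S0) : (1 : W) ∈ D.Mn I J := by
  exact (D.mem_Mn hJI hI).2 ⟨one_mem _, fun γ h _ => by rwa [inv_one, pb_one]⟩

theorem Mn_self {I : Finset B} (hI : I ⊆ D.S0) : D.Mn I I = {1} := by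
  refine Finset.eq_singleton_iff_unique_mem.2 ⟨D.one_mem_Mn subset_rfl hI, fun u hu => ?_⟩
  rw [Mn, Finset.mem_filter, D.mem_WF hI] at hu
  exact inv_eq_one.1 (D.eq_one_of_adom hI (inv_mem (D.WJ_mono hI hu.1))
    (D.gr_fix (inv_mem hu.1) (D.fix_z hI)) hu.2)

theorem Mn_empty {I : Finset B} (hI : I ⊆ D.S0) : D.Mn I ∅ = D.WF I := by
  exact Finset.filter_true_of_mem fun _ _ j hj => (Finset.notMem_empty j hj).elim

theorem exists_Mn {J I : Finset B} (hJI : J ⊆ I) (hI : I ⊆ D.S0) {u : W} (hu : u ∈ D.WJ I) :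
    ∃ u1 ∈ D.Mn I J, ∃ y ∈ D.WJ J, u = u1 * y := by
  obtain ⟨y, hy, a⟩ := D.exists_adom (hJI.trans hI) u⁻¹
  refine ⟨u * y, Finset.mem_filter.2 ⟨(D.mem_WF hI).2 (mul_mem hu (D.WJ_mono hJI hy)), ?_⟩, y⁻¹,
    inv_mem hy, (mul_inv_cancel_right _ _).symm⟩
  rwa [mul_inv_rev]

theorem length_Mn {J I : Finset B} (hJI : J ⊆ I) (hI : I ⊆ D.S0) {u y : W} (hu : u ∈ D.Mn I J)
    (hy : y ∈ D.WJ J) : cs.length (u * y) = cs.length u + cs.length y := by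
  have hJ := hJI.trans hI
  obtain ⟨h1, h2⟩ := (D.mem_Mn hJI hI).1 hu
  refine D.WJ_induction hJ (p := fun y => cs.length (u * y) = cs.length u + cs.length y)
    (by simp) (fun y hy j hj a ih => ?_) hy
  have b := (D.asc_iff (mul_mem (D.WJ_mono hI h1) (D.WJ_mono hJ hy)) (hJ hj)).2 (by
    rw [mul_inv_rev, pb_mul]
    exact h2 _ ((D.asc_iff (D.WJ_mono hJ hy) (hJ hj)).1 a)
      (by rw [D.pb_z hJ (inv_mem hy), D.fix_z hJ j hj]))
  have c := cs.length_mul_simple y j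
  have d := cs.length_mul_simple (u * y) j
  rw [← mul_assoc]
  omega

theorem Mn_unique {J I : Finset B} (hJI : J ⊆ I) (hI : I ⊆ D.S0) {u u' : W} (hu : u ∈ D.Mn I J)
    (hu' : u' ∈ D.Mn I J) (h : u⁻¹ * u' ∈ D.WJ J) : u = u' := by
  have a := D.length_Mn hJI hI hu h
  have b := D.length_Mn hJI hI hu' (inv_mem h)
  rw [mul_inv_cancel_left] at a
  rw [mul_inv_rev, inv_inv, mul_inv_cancel_left] at b
  exact inv_mul_eq_one.1 (cs.length_eq_zero_iff.1 (by omega))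

theorem Mn_mul {J K I : Finset B} (hJK : J ⊆ K) (hKI : K ⊆ I) (hI : I ⊆ D.S0) {u u' : W}
    (hu : u ∈ D.Mn I K) (hu' : u' ∈ D.Mn K J) : u * u' ∈ D.Mn I J := by
  obtain ⟨h1, h2⟩ := (D.mem_Mn hKI hI).1 hu
  obtain ⟨h3, h4⟩ := (D.mem_Mn hJK (hKI.trans hI)).1 hu'
  refine (D.mem_Mn (hJK.trans hKI) hI).2 ⟨mul_mem h1 (D.WJ_mono hKI h3), fun γ hγ h0 => ?_⟩
  rw [mul_inv_rev, pb_mul]
  refine h2 _ (h4 γ hγ h0) ?_
  rw [D.pb_z (hKI.trans hI) (inv_mem h3)]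
  exact D.root_z_mono hJK (D.mem_Rp.1 hγ).1 h0

theorem Mn_mono {J K I : Finset B} (hJK : J ⊆ K) (hKI : K ⊆ I) (hI : I ⊆ D.S0) :
    D.Mn K J ⊆ D.Mn I J := by
  intro u hu
  obtain ⟨h3, h4⟩ := (D.mem_Mn hJK (hKI.trans hI)).1 hu
  exact (D.mem_Mn (hJK.trans hKI) hI).2 ⟨D.WJ_mono hKI h3, h4⟩

theorem Mn_sep {J : Finset B} (hJ : J ⊆ D.S0) {u u' : W} (hu : u ∈ D.Mn D.S0 J)
    (hu' : u' ∈ D.Mn D.S0 J) (hne : u ≠ u') (g g' : W) : ∀ᶠ k : ℕ in Filter.atTop,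
      u * (D.tr ((k : ℤ) • D.z J) * g) ≠ u' * (D.tr ((k : ℤ) • D.z J) * g') := by
  have h1 : u ∈ D.W0 := ((D.mem_Mn hJ subset_rfl).1 hu).1
  have h2 : u' ∈ D.W0 := ((D.mem_Mn hJ subset_rfl).1 hu').1
  have hd : D.gr u' (D.z J) - D.gr u (D.z J) ≠ 0 := fun e =>
    hne (D.Mn_unique hJ subset_rfl hu hu' (D.stab_z hJ (mul_mem (inv_mem h1) h2)
      (by rw [gr_mul, sub_eq_zero.1 e, gr_inv_gr])))
  have hs : {k : ℕ | (k : ℤ) • (D.gr u' (D.z J) - D.gr u (D.z J)) =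
      D.gr u (D.xp g) - D.gr u' (D.xp g')}.Subsingleton := fun k hk l hl =>
    Nat.cast_injective (R := ℤ) (smul_left_injective ℤ hd (hk.trans hl.symm))
  rw [← Nat.cofinite_eq_atTop]
  filter_upwards [hs.finite.eventually_cofinite_notMem] with k hk e
  have := congrArg D.xp e
  rw [xp_mul, D.xp_mul u', xp_tr_mul', xp_tr_mul', D.xp_W0 h1, D.xp_W0 h2, zero_add, zero_add,
    map_add, map_add, map_zsmul, map_zsmul] at this
  refine hk ?_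
  rw [smul_sub]
  linear_combination (exp := 1) -this

theorem exists_fin' (J : Finset B) (N : ℤ) : ∃ F : Finset W, ∀ w,
    (∀ j ∈ J, |D.mu w (D.sr j)| < N) → ∃ x, D.Fix J x ∧ ∃ f ∈ F, w = D.tr x * f := by
  obtain ⟨F, hF⟩ := exists_reps (S := {w | ∀ j ∈ J, |D.mu w (D.sr j)| < N})
    (key := fun w => (D.fp w, fun j : J => D.sr j (D.xp w)))
    (((D.finite_WJ subset_rfl).prod (Set.Finite.pi' fun _ : J =>
      Set.finite_Icc (-N) (N + 1))).subset (by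
      rintro _ ⟨w, hw, rfl⟩
      refine ⟨D.fp_mem w, fun j => ?_⟩
      have a := hw j j.2
      have b := D.mu_one _ (D.pb_mem w (D.sr_mem j))
      rw [D.mu_eq w (D.sr_mem j), abs_lt] at a
      constructor <;> dsimp only <;> omega))
  refine ⟨F, fun w hw => ?_⟩
  obtain ⟨f, hf, -, e⟩ := hF w hw
  obtain ⟨e1, e2⟩ := Prod.ext_iff.1 e
  refine ⟨D.xp w - D.xp f, fun j hj => ?_, f, hf, ?_⟩
  · rw [map_sub, sub_eq_zero]
    exact (congrFun e2 ⟨j, hj⟩).symm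
  · have e3 : D.tr (D.xp w - D.xp f) * (D.tr (D.xp f) * D.fp f) = w := by
      rw [← mul_assoc, ← D.tr_add, sub_add_cancel, show D.fp f = D.fp w from e1, tr_xp_fp]
    rw [tr_xp_fp] at e3
    exact e3.symm

/-- geometric part of (Deep) -/
theorem deep {I : Finset B} (hI : I ⊆ D.S0) (k : ℕ) : ∃ N : ℤ, ∀ w, N ≤ D.lam I w →
    ∃ b ∈ I, ∃ u ∈ D.WJ I, ∃ g, D.ADom I g ∧ w = u * (D.tr ((k : ℤ) • D.z (I.erase b)) * g) := by
  obtain ⟨F, hF⟩ := D.exists_fin' I (k * D.m)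
  obtain ⟨N, hN⟩ := ((D.WF I ×ˢ F).image fun p => D.lam I (p.1 * p.2)).bddAbove
  refine ⟨N + 1, fun w hw => ?_⟩
  obtain ⟨u, hu, a⟩ := D.exists_adom hI w
  by_cases h : ∀ j ∈ I, |D.mu (u⁻¹ * w) (D.sr j)| < k * D.m
  · obtain ⟨x, hx, f, hf, e⟩ := hF _ h
    have b := hN (Finset.mem_coe.2 (Finset.mem_image_of_mem _
      (Finset.mk_mem_product ((D.mem_WF hI).2 hu) hf)))
    rw [inv_mul_eq_iff_eq_mul.1 e, ← mul_assoc, D.conj, D.gr_fix hu hx, mul_assoc,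
      D.lam_tr hI hx] at hw
    dsimp only at b
    omega
  · push Not at h
    obtain ⟨b, hb, h⟩ := h
    rw [abs_of_nonneg (a b hb)] at h
    refine ⟨b, hb, u, hu, D.tr (-((k : ℤ) • D.z (I.erase b))) * (u⁻¹ * w), fun j hj => ?_, ?_⟩
    · rw [D.mu_tr _ _ _ (D.sr_mem j), map_neg, map_zsmul, smul_eq_mul]
      by_cases e : j = b
      · rw [e, D.sr_z_not (hI hb) (Finset.notMem_erase b I)]
        omega
      · rw [D.sr_z_mem (hI hj) (Finset.mem_erase.2 ⟨e, hj⟩), mul_zero, neg_zero, add_zero]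
        exact a j hj
    · rw [tr_neg, mul_inv_cancel_left, mul_inv_cancel_left]

theorem adom_tr {I : Finset B} {x : Lat D.n} (hx : D.Dom I x) {g : W} (hg : D.ADom I g) :
    D.ADom I (D.tr x * g) := by
  intro j hj
  rw [D.mu_tr _ _ _ (D.sr_mem j)]
  exact add_nonneg (hg j hj) (hx j hj)

theorem adom_dom {I : Finset B} (hI : I ⊆ D.S0) {g : W} (hg : D.ADom I g) :
    D.Dom I (D.xp g) := by
  intro j hj
  have a := hg j hj
  have b := D.mu_one _ (D.pb_mem g (D.sr_mem j))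
  rw [D.mu_eq g (D.sr_mem j)] at a
  omega

end AD

end Pool.Agent.P.MP_74db7f_al
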