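import Pool.Agent.P.MP_74db7f_al.F.G4

/-! G5: moves `w : J → J'` and elementary moves (paper, sections 2 and 6). -/

namespace Pool.Agent.P.MP_74db7f_al

open scoped Classical

namespace AD

variable {B W : Type*} [Group W] {M : CoxeterMatrix B} {cs : CoxeterSystem M W} (D : AD cs)

variable {D} {J J' : Finset B} {w : W}

theorem Mv.symm (h : D.Mv J J' w) : D.Mv J' J w⁻¹ := by
  refine ⟨inv_mem h.mem, h.sub', h.sub, fun j' hj' => ?_, fun j hj => ?_⟩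
  · obtain ⟨j, hj, e⟩ := h.bwd j' hj'
    exact ⟨j, hj, by rw [← e, pb_inv_pb]⟩
  · obtain ⟨j', hj', e⟩ := h.fwd j hj
    exact ⟨j', hj', by rw [← e, pb_inv_pb]⟩

theorem Mv.simple (h : D.Mv J J' w) {j j' : B} (hj : j ∈ J) (hj' : j' ∈ J')
    (e : D.pb w (D.sr j') = D.sr j) : w * cs.simple j = cs.simple j' * w ∧
      cs.length (w * cs.simple j) = cs.length w + 1 := by
  constructor
  · rw [← D.rf_sr (h.sub hj), ← D.rf_sr (h.sub' hj'), ← D.rf_pb h.mem (D.sr_mem j'), e,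
      inv_mul_cancel_right]
  · have a := (D.asc_iff h.mem (h.sub hj)).2 (by
      rw [← e, pb_inv_pb]
      exact D.sr_mem_Rp (h.sub' hj'))
    have := cs.length_mul_simple w j
    omega

theorem Mv.conj_mem' (h : D.Mv J J' w) {u : W} (hu : u ∈ D.WJ J) : w * u * w⁻¹ ∈ D.WJ J' := by
  induction hu using Subgroup.closure_induction with
  | mem y hy =>
    obtain ⟨j, hj, rfl⟩ := hy
    obtain ⟨j', hj', e⟩ := h.fwd j hj
    rw [(h.simple hj hj' e).1, mul_inv_cancel_right]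
    exact D.simple_mem_WJ hj'
  | one => simpa using one_mem _
  | mul y y' _ _ a b => simpa [mul_assoc] using mul_mem a b
  | inv y _ a => simpa [mul_assoc] using inv_mem a

theorem Mv.conj_le (h : D.Mv J J' w) {u : W} (hu : u ∈ D.WJ J) :
    cs.length (w * u * w⁻¹) ≤ cs.length u := by
  refine D.WJ_induction h.sub (p := fun u => cs.length (w * u * w⁻¹) ≤ cs.length u) (by simp)
    (fun u _ j hj a ih => ?_) hu
  obtain ⟨j', hj', e⟩ := h.fwd j hj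
  have e1 : w * (u * cs.simple j) * w⁻¹ = w * u * w⁻¹ * cs.simple j' := by
    rw [eq_mul_inv_iff_mul_eq.2 (h.simple hj hj' e).1.symm]
    group
  have := cs.length_mul_simple (w * u * w⁻¹) j'
  rw [e1]
  omega

theorem Mv.conj_mem (h : D.Mv J J' w) {u : W} (hu : u ∈ D.WJ J) :
    w * u * w⁻¹ ∈ D.WJ J' ∧ cs.length (w * u * w⁻¹) = cs.length u := by
  refine ⟨h.conj_mem' hu, (h.conj_le hu).antisymm ?_⟩
  simpa [mul_assoc] using h.symm.conj_le (h.conj_mem' hu)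

theorem Mv.conj_YJ (h : D.Mv J J' w) {y : W} (hy : y ∈ D.YJ J) : w * y * w⁻¹ ∈ D.YJ J' := by
  rw [D.mem_YJ h.sub', fp_mul, fp_mul, D.fp_W0 h.mem, D.fp_W0 (inv_mem h.mem)]
  exact h.conj_mem' ((D.mem_YJ h.sub).1 hy)

theorem Mv.fix (h : D.Mv J J' w) {x : Lat D.n} (hx : D.Fix J x) : D.Fix J' (D.gr w x) := by
  intro j' hj'
  obtain ⟨j, hj, e⟩ := h.bwd j' hj'
  rw [← pb_apply, e, hx j hj]

theorem Mv.pos (h : D.Mv J J' w) {γ : Du D.n} (hγ : γ ∈ D.Rp) (h0 : γ (D.z J) = 0) :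
    D.pb w⁻¹ γ ∈ D.Rp ∧ D.pb w⁻¹ γ (D.z J') = 0 := by
  have a : D.ADom J w⁻¹ := fun j hj => by
    obtain ⟨j', hj', e⟩ := h.fwd j hj
    refine ((D.mu_W0_iff (inv_mem h.mem) (D.sr_mem j)).2 ?_).ge
    rw [← e, pb_inv_pb]
    exact D.sr_mem_Rp (h.sub' hj')
  exact ⟨(D.adom_W0_iff h.sub (inv_mem h.mem)).1 a γ hγ h0,
    D.root_fix h.sub (h.symm.fix (D.fix_z h.sub')) (D.mem_Rp.1 hγ).1 h0⟩

theorem Mv.adom (h : D.Mv J J' w) {y : W} (hy : y ∈ D.YJ J) (ha : D.ADom J y) :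
    D.ADom J' (w * y * w⁻¹) := by
  intro j' hj'
  obtain ⟨j, hj, e⟩ := h.bwd j' hj'
  have hR := D.pb_mem y (D.sr_mem j)
  have e0 : D.pb y (D.sr j) (D.z J) = 0 := by
    rw [pb_apply, ← gr_fp, D.gr_fix ((D.mem_YJ h.sub).1 hy) (D.fix_z h.sub), D.fix_z h.sub j hj]
  have a := ha j hj
  rw [D.mu_eq y (D.sr_mem j)] at a
  rw [mul_assoc, D.mu_fin h.mem _ (D.sr_mem j'), e, D.mu_mul _ _ (D.sr_mem j)]
  by_cases b : D.pb y (D.sr j) ∈ D.Rp
  · rw [(D.mu_W0_iff (inv_mem h.mem) hR).2 (h.pos b e0).1]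
    rwa [(D.mem_Rp.1 b).2] at a
  · have c := D.mu_one _ hR
    have d := D.mu_W0 (inv_mem h.mem) hR
    have := mt (fun e => D.mem_Rp.2 ⟨hR, e⟩) b
    omega

theorem Mv.inv_mem_Mn (h : D.Mv J J' w) : w ∈ D.Mn D.S0 J := by
  exact (D.mem_Mn h.sub subset_rfl).2 ⟨h.mem, fun γ a b => (h.pos a b).1⟩

/-- transport of a proper subset `K ⊂ J` -/
theorem Mv.ssub (h : D.Mv J J' w) {K : Finset B} (hK : K ⊂ J) : ∃ K', K' ⊂ J' ∧
    D.Fix K' (D.gr w (D.z K)) ∧ ∀ j' ∈ J', j' ∉ K' → 0 < D.sr j' (D.gr w (D.z K)) := by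
  refine ⟨J'.filter fun j' => D.sr j' (D.gr w (D.z K)) = 0, ?_,
    fun j hj => (Finset.mem_filter.1 hj).2, fun j' hj' a => ?_⟩
  · obtain ⟨b, hb, hbK⟩ := Finset.exists_of_ssubset hK
    obtain ⟨b', hb', e⟩ := h.fwd b hb
    refine Finset.filter_ssubset.2 ⟨b', hb', ?_⟩
    rw [← pb_apply, e, D.sr_z_not (h.sub hb) hbK]
    exact D.m_pos.ne'
  · obtain ⟨j, hj, e⟩ := h.bwd j' hj'
    refine lt_of_le_of_ne' ?_ fun b => a (Finset.mem_filter.2 ⟨hj', b⟩)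
    rw [← pb_apply, e]
    exact D.dom_z K j (h.sub hj)

theorem simple_of_pos (hJ : J ⊆ D.S0) (hw : w ∈ D.W0)
    (h : ∀ γ ∈ D.Rp, γ (D.z J) = 0 → D.pb w⁻¹ γ ∈ D.Rp) {i : B} (hi : i ∈ D.S0)
    (h0 : D.pb w (D.sr i) (D.z J) = 0) : ∃ j ∈ J, D.pb w (D.sr i) = D.sr j := by
  have hR := D.pb_mem w (D.sr_mem i)
  have hr := D.rf_mem hJ hR h0
  have e := D.rf_pb hw (D.sr_mem i)
  rw [D.rf_sr hi] at e
  set r := D.rf (D.pb w (D.sr i))
  have e1 : r⁻¹ * w⁻¹ = w⁻¹ * cs.simple i := by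
    rw [← cs.inv_simple, ← e]
    group
  obtain ⟨j, hj, a⟩ := D.exists_desc hJ hr fun b => by
    have := cs.length_simple i
    rw [← e, b, mul_one, mul_inv_cancel, cs.length_one] at this
    omega
  have b := mt (D.asc_iff (D.WJ_mono hJ hr) (hJ hj)).2 a.not_gt
  have c := h _ ((D.neg_mem_Rp (D.pb_mem _ (D.sr_mem j))).2 b) (by
    rw [LinearMap.neg_apply, D.pb_z hJ (inv_mem hr), D.fix_z hJ j hj, neg_zero])
  rw [pb_neg, ← pb_mul, D.neg_mem_Rp (D.pb_mem _ (D.sr_mem j)), e1, pb_mul] at c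
  refine ⟨j, hj, ?_⟩
  rw [← not_not.1 (mt (D.simple_perm hi (h _ (D.sr_mem_Rp (hJ hj)) (D.fix_z hJ j hj))) c),
    pb_pb_inv]

theorem root_z_of {K : Finset B} {x : Lat D.n} (hx : D.Dom K x) {γ : Du D.n}
    (hγ : γ ∈ D.Rp) (h0 : γ (D.z K) = 0) (h1 : γ x = 0)
    (h2 : ∀ i ∈ K, i ∉ J' → D.sr i x ≠ 0) : γ (D.z J') = 0 := by
  have hR := (D.mem_Rp.1 hγ).1
  have e := D.m_mul_root γ x
  rw [h1, mul_zero, eq_comm, Finset.sum_eq_zero_iff_of_nonneg fun i hi => by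
    by_cases a : i ∈ K
    · exact mul_nonneg (hx i a) (D.root_cw_nonneg hγ hi)
    · rw [D.root_cw_zero hR h0 hi a, mul_zero]] at e
  rw [z, map_sum]
  refine Finset.sum_eq_zero fun i hi => ?_
  obtain ⟨a, b⟩ := Finset.mem_sdiff.1 hi
  by_cases c : i ∈ K
  · exact (mul_eq_zero.1 (e i a)).resolve_left (h2 i c b)
  · exact D.root_cw_zero hR h0 a c

theorem sr_inj {i j : B} (hi : i ∈ D.S0) (hj : j ∈ D.S0) (e : D.sr i = D.sr j) : i = j := by
  by_contra a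
  have b := D.cw_ne i hi j hj a
  rw [← e, D.cw_self i hi] at b
  exact D.m_pos.ne' b

/-- take `w ∈ W_K` with `w * tr (-z J)` `K`-dominant (paper, section 6) -/
theorem exists_El (hJ : J ⊆ D.S0) {b : B} (hb : b ∈ D.S0) (hbJ : b ∉ J) :
    ∃ J' w, D.El J b J' w := by
  have hK : insert b J ⊆ D.S0 := Finset.insert_subset hb hJ
  obtain ⟨u, hu, ha⟩ := D.exists_adom hK (D.tr (-D.z J) * 1)
  replace hu := inv_mem hu
  generalize u⁻¹ = w at hu ha
  have hw := D.WJ_mono hK hu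
  have k1 : ∀ γ ∈ D.Rp, γ (D.z (insert b J)) = 0 →
      D.pb w γ (D.z J) < 0 ∨ D.pb w γ (D.z J) = 0 ∧ D.pb w γ ∈ D.Rp := fun γ hγ h0 => by
    have a := D.mu_adom hK ha hγ h0
    have hR := D.pb_mem w (D.mem_Rp.1 hγ).1
    have c := D.mu_one _ hR
    rw [D.mu_fin hw _ (D.mem_Rp.1 hγ).1, D.mu_tr _ _ _ hR, map_neg] at a
    rw [mem_Rp]
    by_cases d : D.pb w γ (D.z J) = 0
    · exact Or.inr ⟨d, hR, by omega⟩
    · omega
  have k2 : ∀ γ ∈ D.Rp, γ (D.z J) = 0 → D.pb w⁻¹ γ ∈ D.Rp := fun γ hγ h0 => by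
    have hR := (D.mem_Rp.1 hγ).1
    by_contra a
    have c := k1 _ ((D.neg_mem_Rp (D.pb_mem _ hR)).2 a) (by
      rw [LinearMap.neg_apply, D.pb_z hK (inv_mem hu),
        D.root_z_mono (Finset.subset_insert _ _) hR h0, neg_zero])
    rw [pb_neg, pb_pb_inv, LinearMap.neg_apply, h0, D.neg_mem_Rp hR] at c
    simp [hγ] at c
  let J' := (insert b J).filter fun i => D.pb w (D.sr i) (D.z J) = 0
  have hJ' : J' ⊆ insert b J := Finset.filter_subset _ _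
  refine ⟨J', w, ⟨hw, hJ, hJ'.trans hK, fun j hj => ?_, fun j' hj' => ?_⟩, hb, hbJ, hu, hJ',
    fun γ hγ h0 h1 a => ?_⟩
  · have a := k2 _ (D.sr_mem_Rp (hJ hj)) (D.fix_z hJ j hj)
    obtain ⟨j', hj', e⟩ := simple_of_pos (w := w⁻¹) (hJ'.trans hK) (inv_mem hw)
      (fun γ hγ h0 => by
        have hR := (D.mem_Rp.1 hγ).1
        have c : D.pb w γ (D.z J) = 0 := D.root_fix (hJ'.trans hK)
          (fun i hi => (Finset.mem_filter.1 hi).2) hR h0
        have d := k1 γ hγ (D.root_z_mono hJ' hR h0)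
        rw [inv_inv]
        exact (d.resolve_left c.not_lt).2) (hJ hj)
      (root_z_of (K := insert b J) (x := -D.gr w (D.z J)) (fun i hi => by
        have d := k1 _ (D.sr_mem_Rp (hK hi)) (D.fix_z hK i hi)
        rw [map_neg, ← pb_apply]
        omega) a
        (by rw [D.pb_z hK (inv_mem hu), D.fix_z hK j (Finset.mem_insert_of_mem hj)])
        (by rw [map_neg, pb_apply, gr_inv_gr, D.fix_z hJ j hj, neg_zero])
        fun i hi c d => c (Finset.mem_filter.2 ⟨hi, by simpa using d⟩))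
    exact ⟨j', hj', by rw [← e, pb_pb_inv]⟩
  · exact simple_of_pos hJ hw k2 (hK (hJ' hj')) (Finset.mem_filter.1 hj').2
  · have c := k1 _ a (by rw [D.pb_z hK (inv_mem hu), h0])
    have d := D.root_z_nonneg J hγ
    rw [pb_pb_inv] at c
    omega

theorem El.ssub {b : B} (h : D.El J b J' w) : J' ⊂ insert b J := by
  refine Finset.ssubset_iff_subset_ne.2 ⟨h.subK, fun e => ?_⟩
  have a := h.toMv.fix (D.fix_z h.sub)
  rw [e] at a
  have c := D.gr_fix (inv_mem h.memK) a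
  rw [gr_inv_gr] at c
  have d := a b (Finset.mem_insert_self _ _)
  rw [← c, D.sr_z_not h.bmem h.bnot] at d
  exact D.m_pos.ne' d

theorem El.neg_z {b : B} (h : D.El J b J' w) :
    ∀ i ∈ insert b J, i ∉ J' → D.sr i (D.gr w (D.z J)) < 0 := by
  intro i hi hn
  have hK : insert b J ⊆ D.S0 := Finset.insert_subset h.bmem h.sub
  rw [← pb_apply]
  rcases lt_trichotomy (D.pb w (D.sr i) (D.z J)) 0 with a | a | a
  · exact a
  · obtain ⟨j, hj, e⟩ := simple_of_pos h.sub h.mem (fun γ c d => (h.toMv.pos c d).1) (hK hi) a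
    obtain ⟨j', hj', e'⟩ := h.fwd j hj
    rw [sr_inj (hK hi) (h.sub' hj') (by rw [← D.pb_inv_pb w (D.sr i), e, ← e', pb_inv_pb])] at hn
    exact (hn hj').elim
  · refine (h.neg _ (D.mem_Rp_of_pos (D.pb_mem w (D.sr_mem i)) a) ?_ a.ne' ?_).elim
    · rw [D.pb_z hK h.memK, D.fix_z hK i hi]
    · rw [pb_inv_pb]
      exact D.sr_mem_Rp (hK hi)

/-- the inversions of `w` lie in `R_K - R_J` -/
theorem El.inv {b : B} (h : D.El J b J' w) {γ : Du D.n} (hγ : γ ∈ D.Rp)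
    (hn : D.pb w⁻¹ γ ∉ D.Rp) : γ (D.z (insert b J)) = 0 ∧ γ (D.z J) ≠ 0 := by
  exact ⟨by_contra fun a => hn (D.pb_mem_Rp (Finset.insert_subset h.bmem h.sub)
    (inv_mem h.memK) hγ a), fun a => hn (h.toMv.pos hγ a).1⟩

theorem ngt_lt_of {I : Finset B} (hI : I ⊆ D.S0) (hw : w ∈ D.WJ I) {x : Lat D.n} {b : B}
    (hb : b ∈ I) (h1 : D.sr b x < 0) (h2 : ∀ γ ∈ D.Rp, D.pb w γ x < 0 →
      D.pb w γ ∈ D.Rp.erase (D.sr b)) : D.ngt I (D.gr w x) < D.ngt I x := by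
  refine lt_of_le_of_lt (Finset.card_le_card_of_injOn (D.pb w) (fun γ hγ => ?_)
    fun γ _ δ _ e => by rw [← D.pb_inv_pb w γ, e, pb_inv_pb])
    (Finset.card_erase_lt_of_mem (a := D.sr b)
      (Finset.mem_filter.2 ⟨D.sr_mem_Rp (hI hb), D.fix_z hI b hb, h1⟩))
  obtain ⟨a, c, d⟩ := Finset.mem_filter.1 hγ
  obtain ⟨e, f⟩ := Finset.mem_erase.1 (h2 γ a d)
  exact Finset.mem_erase.2 ⟨e, Finset.mem_filter.2 ⟨f, by rwa [D.pb_z hI hw], d⟩⟩

theorem El.ngt_lt {b : B} (h : D.El J b J' w) {I : Finset B} (hI : I ⊆ D.S0)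
    (hKI : insert b J ⊆ I) {x : Lat D.n} (hx : D.Fix J x) (hb : D.sr b x < 0) :
    D.ngt I (D.gr w x) < D.ngt I x := by
  have hK := hKI.trans hI
  refine ngt_lt_of hI (D.WJ_mono hKI h.memK) (hKI (Finset.mem_insert_self _ _)) hb
    fun γ hγ a => Finset.mem_erase.2 ⟨fun e => ?_, by_contra fun e => ?_⟩
  · refine h.neg _ (D.sr_mem_Rp h.bmem) (D.fix_z hK b (Finset.mem_insert_self _ _)) ?_ ?_
    · rw [D.sr_z_not h.bmem h.bnot]
      exact D.m_pos.ne'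
    · rwa [← e, pb_inv_pb]
  · have hR := (D.mem_Rp.1 hγ).1
    have c := (D.neg_mem_Rp (D.pb_mem w hR)).2 e
    have d := D.root_dom hK (x := -x) (fun j hj => by
      rw [map_neg]
      rcases Finset.mem_insert.1 hj with rfl | hj
      · omega
      · rw [hx j hj, neg_zero]) c (h.inv c (by
        rw [pb_neg, pb_inv_pb, D.neg_mem_Rp hR]
        exact not_not.2 hγ)).1
    rw [map_neg, LinearMap.neg_apply] at d
    omega

theorem dom_of_ngt {I : Finset B} (hI : I ⊆ D.S0) {x : Lat D.n} (h : D.ngt I x = 0) :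
    D.Dom I x := by
  intro j hj
  by_contra a
  rw [ngt, Finset.card_eq_zero, Finset.filter_eq_empty_iff] at h
  exact h (D.sr_mem_Rp (hI hj)) ⟨D.fix_z hI j hj, not_le.1 a⟩

theorem ngt_simple {I : Finset B} (hI : I ⊆ D.S0) {x : Lat D.n} {i : B} (hi : i ∈ I)
    (h : D.sr i x < 0) : D.ngt I (D.gr (cs.simple i) x) < D.ngt I x := by
  refine ngt_lt_of hI (D.simple_mem_WJ hi) hi h fun γ hγ a =>
    D.simple_perm_erase (hI hi) (Finset.mem_erase.2 ⟨fun e => ?_, hγ⟩)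
  rw [e, pb_simple_sr, LinearMap.neg_apply] at a
  omega

end AD

end Pool.Agent.P.MP_74db7f_al
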