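import Pool.Agent.P.MP_74db7f_al.F.HD

/-! H1: the standard basis: products, `flat`, the standard form. -/

namespace Pool.Agent.P.MP_74db7f_al

open scoped Classical

namespace HC

variable {B W H : Type*} [Group W] {M : CoxeterMatrix B} {cs : CoxeterSystem M W} [Ring H]
  [Algebra Rq H] (C : HC cs H)

theorem ipB_apply {W H : Type*} [AddCommGroup H] [Module Rq H] (b : Module.Basis W Rq H)
    (x y : H) : ipB b x y = (b.repr x).sum fun w r => r * b.repr y w := by
  rw [ipB, Module.Basis.constr_apply, Finsupp.sum, Finsupp.sum, LinearMap.sum_apply]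
  rfl

theorem ipB_basis {W H : Type*} [AddCommGroup H] [Module Rq H] (b : Module.Basis W Rq H)
    (w : W) (y : H) : ipB b (b w) y = b.repr y w := by
  rw [ipB, Module.Basis.constr_basis]
  rfl

theorem ipB_comm {W H : Type*} [AddCommGroup H] [Module Rq H] (b : Module.Basis W Rq H)
    (x y : H) : ipB b x y = ipB b y x := by
  have : ipB b = (ipB b).flip := b.ext fun u => b.ext fun v => by
    rw [LinearMap.flip_apply, ipB_basis, ipB_basis, b.repr_self, b.repr_self,
      Finsupp.single_apply, Finsupp.single_apply]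
    exact if_congr eq_comm rfl rfl
  exact LinearMap.congr_fun (LinearMap.congr_fun this x) y

theorem h1_coeff_sq {m : ℤ} {r : Rq} (hr : r ∈ dR m) :
    (r * r).coeff (m + m) = r.coeff m * r.coeff m := by
  rw [AddMonoidAlgebra.coeff_mul, Finsupp.sum_eq_single m, Finsupp.sum_eq_single m, if_pos rfl]
  · intro a _ ha
    rw [if_neg (by omega)]
  · simp
  · intro a ha ha'
    refine Finset.sum_eq_zero fun c hc => if_neg ?_
    have h1 : a ≤ m := not_lt.1 fun h => ha (hr a h)
    have h2 : c ≤ m := not_lt.1 fun h => Finsupp.mem_support_iff.1 hc (hr c h)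
    omega
  · simp

theorem h1_sum_sq {α : Type*} (t : Finset α) (f : α → Rq) (h : ∑ a ∈ t, f a * f a = 0) :
    ∀ a ∈ t, f a = 0 := by
  by_contra hc
  push Not at hc
  obtain ⟨a₀, ha₀, h₀⟩ := hc
  have hS : (t.biUnion fun a => (f a).coeff.support).Nonempty := by
    have : (f a₀).coeff ≠ 0 := fun e => h₀ (AddMonoidAlgebra.coeff_injective e)
    obtain ⟨k, hk⟩ := Finsupp.support_nonempty_iff.2 this
    exact ⟨k, Finset.mem_biUnion.2 ⟨a₀, ha₀, hk⟩⟩
  obtain ⟨m, hm, hmax⟩ := Finset.exists_max_image _ id hS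
  obtain ⟨a₁, ha₁, h₁⟩ := Finset.mem_biUnion.1 hm
  have hd : ∀ a ∈ t, f a ∈ dR m := fun a ha k hk => by
    by_contra hk'
    exact absurd (hmax k (Finset.mem_biUnion.2 ⟨a, ha, Finsupp.mem_support_iff.2 hk'⟩))
      (not_le.2 hk)
  have e : ∑ a ∈ t, (f a).coeff m * (f a).coeff m = 0 := by
    have := congrArg (fun r : Rq => r.coeff (m + m)) h
    simp only [AddMonoidAlgebra.coeff_sum, Finsupp.finsetSum_apply, AddMonoidAlgebra.coeff_zero,
      Finsupp.zero_apply] at this
    rw [← this]
    exact Finset.sum_congr rfl fun a ha => (h1_coeff_sq (hd a ha)).symm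
  have := (Finset.sum_eq_zero_iff_of_nonneg fun a _ => mul_self_nonneg _).1 e a₁ ha₁
  exact Finsupp.mem_support_iff.1 h₁ (mul_self_eq_zero.1 this)

/-- sums of squares in `ℤ[q,q⁻¹]` (look at the top coefficient) -/
theorem ipB_self_eq_zero {W H : Type*} [AddCommGroup H] [Module Rq H] (b : Module.Basis W Rq H)
    {ι : Type*} (s : Finset ι) (x : ι → H) (h : ∑ i ∈ s, ipB b (x i) (x i) = 0) :
    ∀ i ∈ s, x i = 0 := by
  simp only [ipB_apply, Finsupp.sum] at h
  rw [Finset.sum_sigma'] at h
  intro i hi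
  refine b.repr.map_eq_zero_iff.1 (Finsupp.ext fun w => ?_)
  by_contra hw
  exact hw (h1_sum_sq _ (fun p : (_ : ι) × W => b.repr (x p.1) p.2) h ⟨i, w⟩
    (Finset.mem_sigma.2 ⟨hi, Finsupp.mem_support_iff.2 hw⟩))

@[simp] theorem Tb_one : C.Tb 1 = 1 := C.hT.1

theorem cq_ne_zero (i : B) : C.cq i ≠ 0 := by
  have h1 : cs.simple i ≠ 1 := fun e => by
    have := cs.length_simple i
    rw [e, cs.length_one] at this
    exact zero_ne_one this
  have h2 := C.hL.1 _ h1
  intro e
  have := congrArg (fun r : Rq => r.coeff (C.L (cs.simple i))) e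
  simp only [cq, AddMonoidAlgebra.coeff_sub, Finsupp.sub_apply, LaurentPolynomial.T_apply,
    if_true, AddMonoidAlgebra.coeff_zero, Finsupp.zero_apply] at this
  rw [if_neg (by omega)] at this
  exact one_ne_zero this

theorem Tb_mul_Ts (w : W) (i : B) : C.Tb w * C.Ts i =
    if cs.length w < cs.length (w * cs.simple i) then C.Tb (w * cs.simple i)
    else C.Tb (w * cs.simple i) + C.cq i • C.Tb w := by
  split_ifs with h
  · exact (C.hT.2 w i).1 h
  · exact (C.hT.2 w i).2 h

theorem Tb_mul {a b : W} (h : cs.length (a * b) = cs.length a + cs.length b) :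
    C.Tb a * C.Tb b = C.Tb (a * b) := by
  induction b using len_induction cs with
  | h1 => rw [Tb_one, mul_one, mul_one]
  | h2 b i hb ih =>
    have h1 := cs.length_mul_le a b
    have h2 := cs.length_mul_simple (a * b) i
    rw [← mul_assoc] at h
    rw [← (C.hT.2 b i).1 (by omega), ← mul_assoc, ih (by omega), (C.hT.2 _ i).1 (by omega),
      mul_assoc]

theorem Ts_sq (i : B) : C.Ts i * C.Ts i = 1 + C.cq i • C.Ts i := by
  have := C.Tb_mul_Ts (cs.simple i) i
  rwa [cs.simple_mul_simple_self, if_neg (by simp), Tb_one] at this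

theorem Ts_mul_inv (i : B) : C.Ts i * (C.Ts i - algebraMap Rq H (C.cq i)) = 1 ∧
    (C.Ts i - algebraMap Rq H (C.cq i)) * C.Ts i = 1 := by
  constructor
  · rw [mul_sub, Ts_sq, ← Algebra.commutes, ← Algebra.smul_def, add_sub_cancel_right]
  · rw [sub_mul, Ts_sq, ← Algebra.smul_def, add_sub_cancel_right]

theorem isUnit_Tb (w : W) : IsUnit (C.Tb w) := by
  induction w using len_induction cs with
  | h1 => rw [Tb_one]; exact isUnit_one
  | h2 w i hw ih =>
    rw [← (C.hT.2 w i).1 (by omega)]
    exact ih.mul ⟨⟨_, _, (C.Ts_mul_inv i).1, (C.Ts_mul_inv i).2⟩, rfl⟩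

/-- induction principle: `H` is generated by the `T_s` -/
theorem induction_Ts {p : H → Prop} (h1 : p 1) (hadd : ∀ x y, p x → p y → p (x + y))
    (hsmul : ∀ (r : Rq) x, p x → p (r • x)) (hmul : ∀ x i, p x → p (x * C.Ts i)) (h : H) :
    p h := by
  have hb : ∀ w, p (C.Tb w) := fun w => by
    induction w using len_induction cs with
    | h1 => rwa [Tb_one]
    | h2 w i hw ih =>
      rw [← (C.hT.2 w i).1 (by omega)]
      exact hmul _ i ih
  have hh : h ∈ Submodule.span Rq (Set.range C.Tb) := by rw [C.Tb.span_eq]; trivial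
  induction hh using Submodule.span_induction with
  | mem x hx => obtain ⟨w, rfl⟩ := hx; exact hb w
  | zero => simpa using hsmul 0 1 h1
  | add x y _ _ hx hy => exact hadd x y hx hy
  | smul r x _ hx => exact hsmul r x hx

theorem Ts_mul_Tb (w : W) (i : B) : C.Ts i * C.Tb w =
    if cs.length w < cs.length (cs.simple i * w) then C.Tb (cs.simple i * w)
    else C.Tb (cs.simple i * w) + C.cq i • C.Tb w := by
  rcases cs.length_simple_mul w i with h | h
  · rw [if_pos (by omega)]
    exact C.Tb_mul (by rw [h, cs.length_simple, add_comm])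
  · have e : cs.simple i * (cs.simple i * w) = w := by simp
    have h1 : C.Ts i * C.Tb (cs.simple i * w) = C.Tb w := by
      have := C.Tb_mul (a := cs.simple i) (b := cs.simple i * w)
        (by rw [e, cs.length_simple]; omega)
      rwa [e] at this
    rw [if_neg (by omega)]
    calc C.Ts i * C.Tb w = C.Ts i * C.Ts i * C.Tb (cs.simple i * w) := by rw [mul_assoc, h1]
      _ = _ := by rw [Ts_sq, add_mul, one_mul, smul_mul_assoc, h1]

theorem flat_Tb (w : W) : C.flat (C.Tb w) = C.Tb w⁻¹ := by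
  rw [flat, Module.Basis.constr_basis]

@[simp] theorem flat_one : C.flat 1 = 1 := by
  rw [← C.Tb_one, flat_Tb, inv_one]

@[simp] theorem flat_Ts (i : B) : C.flat (C.Ts i) = C.Ts i := by
  rw [Ts, flat_Tb, cs.inv_simple]

@[simp] theorem flat_flat (h : H) : C.flat (C.flat h) = h := by
  have : C.flat ∘ₗ C.flat = LinearMap.id := C.Tb.ext fun w => by
    rw [LinearMap.comp_apply, flat_Tb, flat_Tb, inv_inv, LinearMap.id_apply]
  exact LinearMap.congr_fun this h

theorem h1_flat_mul_Ts (x : H) (i : B) : C.flat (x * C.Ts i) = C.Ts i * C.flat x := by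
  have : C.flat ∘ₗ LinearMap.mulRight Rq (C.Ts i) = LinearMap.mulLeft Rq (C.Ts i) ∘ₗ C.flat :=
    C.Tb.ext fun w => by
      have e : (w * cs.simple i)⁻¹ = cs.simple i * w⁻¹ := by rw [mul_inv_rev, cs.inv_simple]
      simp only [LinearMap.comp_apply, LinearMap.mulRight_apply, LinearMap.mulLeft_apply]
      rw [flat_Tb, Tb_mul_Ts, Ts_mul_Tb, ← e, cs.length_inv, cs.length_inv]
      split_ifs
      · rw [flat_Tb]
      · rw [map_add, map_smul, flat_Tb, flat_Tb]
  exact LinearMap.congr_fun this x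

theorem flat_mul (x y : H) : C.flat (x * y) = C.flat y * C.flat x := by
  induction y using C.induction_Ts generalizing x with
  | h1 => rw [mul_one, flat_one, one_mul]
  | hadd y z hy hz => rw [mul_add, map_add, map_add, hy, hz, add_mul]
  | hsmul r y hy => rw [mul_smul_comm, map_smul, map_smul, hy, smul_mul_assoc]
  | hmul y i hy => rw [← mul_assoc, h1_flat_mul_Ts, h1_flat_mul_Ts, hy, mul_assoc]

theorem h1_ip_Ts (x y : H) (i : B) : ipB C.Tb (x * C.Ts i) y = ipB C.Tb x (y * C.Ts i) := by
  have key : ∀ a b, C.Tb.repr (C.Tb a * C.Ts i) b = (if a * cs.simple i = b then 1 else 0) +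
      if a = b ∧ ¬ cs.length a < cs.length (a * cs.simple i) then C.cq i else 0 := fun a b => by
    rw [Tb_mul_Ts]
    by_cases h : cs.length a < cs.length (a * cs.simple i)
    · rw [if_pos h, C.Tb.repr_self, Finsupp.single_apply]
      simp [h]
    · rw [if_neg h, map_add, map_smul, C.Tb.repr_self, C.Tb.repr_self, Finsupp.add_apply,
        Finsupp.smul_apply, Finsupp.single_apply, Finsupp.single_apply]
      by_cases e : a = b
      · simp [e, e ▸ h]
      · simp [e]
  have : (ipB C.Tb) ∘ₗ LinearMap.mulRight Rq (C.Ts i) =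
      (ipB C.Tb).compl₂ (LinearMap.mulRight Rq (C.Ts i)) :=
    C.Tb.ext fun a => C.Tb.ext fun b => by
      simp only [LinearMap.comp_apply, LinearMap.mulRight_apply, LinearMap.compl₂_apply]
      rw [ipB_comm, ipB_basis, ipB_basis, key, key]
      congr 1
      · refine if_congr ⟨fun e => ?_, fun e => ?_⟩ rfl rfl <;> simp [← e, mul_assoc]
      · refine if_congr ⟨fun e => ?_, fun e => ?_⟩ rfl rfl
        · exact ⟨e.1.symm, e.1 ▸ e.2⟩
        · exact ⟨e.1.symm, e.1 ▸ e.2⟩
  exact LinearMap.congr_fun (LinearMap.congr_fun this x) y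

theorem h1_ip_flat (x y : H) : ipB C.Tb (C.flat x) (C.flat y) = ipB C.Tb x y := by
  have : (ipB C.Tb).compl₁₂ C.flat C.flat = ipB C.Tb :=
    C.Tb.ext fun a => C.Tb.ext fun b => by
      rw [LinearMap.compl₁₂_apply, flat_Tb, flat_Tb, ipB_basis, ipB_basis, C.Tb.repr_self,
        C.Tb.repr_self, Finsupp.single_apply, Finsupp.single_apply]
      exact if_congr inv_inj rfl rfl
  exact LinearMap.congr_fun (LinearMap.congr_fun this x) y

theorem ip0_mul_right (x y h : H) : ipB C.Tb (x * h) y = ipB C.Tb x (y * C.flat h) := by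
  induction h using C.induction_Ts generalizing y with
  | h1 => rw [mul_one, flat_one, mul_one]
  | hadd h h' ih ih' =>
    rw [mul_add, map_add, LinearMap.add_apply, ih, ih', map_add, mul_add, map_add]
  | hsmul r h ih =>
    rw [mul_smul_comm, map_smul, LinearMap.smul_apply, ih, map_smul, mul_smul_comm, map_smul]
  | hmul h i ih => rw [← mul_assoc, h1_ip_Ts, ih, h1_flat_mul_Ts, mul_assoc]

theorem ip0_mul_left (x y h : H) : ipB C.Tb (h * x) y = ipB C.Tb x (C.flat h * y) := by
  rw [← h1_ip_flat, flat_mul, ip0_mul_right, flat_flat, ← C.h1_ip_flat x, flat_mul, flat_flat]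

/-- left multiplication by a fixed element is bounded -/
theorem exists_left_bound (a : H) : ∃ N : ℕ, ∀ w, a * C.Tb w ∈ Dg C.Tb N := by
  have hh : a ∈ Submodule.span Rq (Set.range C.Tb) := by rw [C.Tb.span_eq]; trivial
  induction hh using Submodule.span_induction with
  | mem x hx => obtain ⟨u, rfl⟩ := hx; exact ⟨C.Nb, C.hN u⟩
  | zero => exact ⟨0, fun w => by rw [zero_mul]; exact zero_mem _⟩
  | add x y _ _ hx hy =>
    obtain ⟨m, hm⟩ := hx
    obtain ⟨n, hn⟩ := hy
    refine ⟨m + n, fun w => ?_⟩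
    rw [add_mul]
    exact add_mem (Dg_mono (by omega) (hm w)) (Dg_mono (by omega) (hn w))
  | smul r x _ hx =>
    obtain ⟨n, hn⟩ := hx
    obtain ⟨m, hm⟩ := r.coeff.support.bddAbove
    have hr : r ∈ dR m := fun k hk => by
      by_contra hk'
      exact absurd (hm (Finset.mem_coe.2 (Finsupp.mem_support_iff.2 hk'))) (not_le.2 hk)
    refine ⟨m.toNat + n, fun w => ?_⟩
    rw [smul_mul_assoc]
    exact Dg_mono (by omega) (smul_mem_Dg hr (hn w))

theorem L_eq_of_conj {w : W} {i j : B} (e : w * cs.simple i = cs.simple j * w)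
    (h : cs.length (w * cs.simple i) = cs.length w + 1) : C.cq i = C.cq j := by
  have h1 := C.hL.2 w (cs.simple i) (by rw [h, cs.length_simple])
  have h2 := C.hL.2 (cs.simple j) w (by rw [← e, h, cs.length_simple, add_comm])
  rw [e, h2] at h1
  rw [cq, cq, show C.L (cs.simple i) = C.L (cs.simple j) by omega]

end HC

end Pool.Agent.P.MP_74db7f_al
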