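import Pool.Agent.P.MP_74db7f_al.F.H9

/-! H10: unitarity of the intertwiners, left version (UniL) (paper, section 2). -/

namespace Pool.Agent.P.MP_74db7f_al

open scoped Classical

namespace HC

variable {B W H : Type*} [Group W] {M : CoxeterMatrix B} {cs : CoxeterSystem M W} [Ring H]
  [Algebra Rq H] (C : HC cs H)

/-- `tauL` as a linear map -/
noncomputable def h10_tl : H →ₗ[Rq] Rq where
  toFun := C.tauL
  map_add' := C.tauL_add
  map_smul' := C.tauL_smul

theorem h10_tl_apply (h : H) : C.h10_tl h = C.tauL h := rfl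

/-- the component at `1` as a linear map -/
noncomputable def h10_c1 {J : Finset B} (hJ : J ⊆ C.S0) : H →ₗ[Rq] H where
  toFun h := C.cmp J h 1
  map_add' h h' := C.cmp_add hJ h h' (C.one_mem_Mn hJ subset_rfl)
  map_smul' r h := C.cmp_smul hJ r h (C.one_mem_Mn hJ subset_rfl)

theorem h10_c1_apply {J : Finset B} (hJ : J ⊆ C.S0) (h : H) : C.h10_c1 hJ h = C.cmp J h 1 := rfl

theorem h10_mem_Mn {v : W} (hv : v ∈ C.W0) : v ∈ C.Mn C.S0 ∅ := by
  rw [C.Mn_empty subset_rfl]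
  exact (C.mem_WF subset_rfl).2 hv

theorem h10_range {a : H} (ha : a ∈ C.HJ ∅) : ∃ f, C.Th f = a := by
  have : C.HJ ∅ ≤ C.Th.range := Algebra.adjoin_le (by
    rintro _ (⟨j, hj, -⟩ | ⟨x, rfl⟩)
    · simp at hj
    · exact ⟨mon x, C.Th_mon x⟩)
  exact this ha

theorem h10_ip_Th (f : LA Rq C.n) (x : Lat C.n) : C.ip ∅ (C.th x) (C.Th f) = f.coeff x := by
  have h := C.repr_Th f (one_mem C.W0) (one_mem C.W0) x
  rw [if_pos rfl, TJ_one, mul_one, mul_one] at h
  rw [th, ip_TJ, h]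

theorem h10_flat {v : W} (hv : v ∈ C.W0) (f : LA Rq C.n) (h : H) :
    C.tauL (C.flat h * (C.Tb v * C.Th f)) = C.ip ∅ (C.cmp ∅ h v) (C.Th f) := by
  have e := C.ip_cmp_adj (Finset.empty_subset _) h (C.h10_mem_Mn hv) 1 (C.Th f)
  rw [mul_one, ← C.cmp_mul (Finset.empty_subset _) _ (C.Th_mem_HJ ∅ f)
    (C.h10_mem_Mn (one_mem _)), mul_assoc] at e
  rw [e, tauL, ip_comm]

theorem h10_TT {v y : W} (hv : v ∈ C.W0) (hy : y ∈ C.W0) (f : LA Rq C.n) :
    C.tauL (C.Tb v * (C.Tb y * C.Th f)) = if v⁻¹ = y then f.coeff 0 else 0 := by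
  have e := C.h10_flat hy f (C.Tb v⁻¹)
  have c := C.cmp_Tb (Finset.empty_subset _) (one_mem (C.HJ ∅)) (C.h10_mem_Mn (inv_mem hv))
    (C.h10_mem_Mn hy)
  rw [mul_one] at c
  rw [flat_Tb, inv_inv, c] at e
  rw [e]
  split_ifs
  · rw [← C.th_zero, h10_ip_Th]
  · rw [map_zero, LinearMap.zero_apply]

theorem h10_Fil {v : W} (hv : v ∈ C.W0) {k : ℕ} (hk : k ≤ cs.length v) {m : H}
    (hm : m ∈ C.Fil k) : C.tauL (C.Tb v * m) = 0 := by
  rw [mem_Fil_left] at hm
  induction hm using Submodule.span_induction with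
  | mem t ht =>
    obtain ⟨x, y, hy, hl, rfl⟩ := ht
    rw [← C.Th_mon, C.h10_TT hv hy, if_neg]
    rintro rfl
    rw [cs.length_inv] at hl
    omega
  | zero => rw [mul_zero, ← h10_tl_apply, map_zero]
  | add x y _ _ a b => rw [mul_add, tauL_add, a, b, add_zero]
  | smul r x _ a => rw [mul_smul_comm, tauL_smul, a, mul_zero]

theorem h10_term {v u : W} (hv : v ∈ C.W0) (hu : u ∈ C.W0) (hl : cs.length u ≤ cs.length v)
    (f : LA Rq C.n) (x : Lat C.n) : C.tauL (C.Tb v * C.Th f * (C.Tb u⁻¹ * C.th x)) =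
      if v = u then (C.act u f).coeff (-x) else 0 := by
  have a := C.Fil_mul_Th (C.Tb_mul_Th (inv_mem hu) (C.act u f)) (mon x)
  rw [← act_mul, inv_mul_cancel, act_one, cs.length_inv, Th_mon] at a
  have b := C.h10_Fil hv hl a
  have c := C.h10_TT hv (inv_mem hu) (C.act u f * mon x)
  rw [map_mul, Th_mon] at c
  rw [sub_mul, mul_sub, ← h10_tl_apply, map_sub, h10_tl_apply, h10_tl_apply, mul_assoc, c,
    sub_eq_zero, mul_assoc, ← mul_assoc (C.Tb v)] at b
  rw [← b]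
  simp only [inv_inj, mon, AddMonoidAlgebra.coeff_mul_single_apply, mul_one, zero_add]

variable {C} {J J' : Finset B} {w : W}

/-- take a shortest `T_u` occurring in `g = ∑ T_u f_u` and `a = T_{u⁻¹} θ_x` -/
theorem nondeg_right (hJ : J ⊆ C.S0) {g : H} (hg : g ∈ C.HJ J)
    (h : ∀ a ∈ C.HJ J, C.tauL (g * a) = 0) : g = 0 := by
  obtain ⟨r, hr, e⟩ := C.exists_dec (Finset.empty_subset J) hJ hg
  choose f hf using fun u => C.h10_range (hr u)
  rw [C.Mn_empty hJ] at e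
  by_contra hne
  have hS : ((C.WF J).filter fun u => f u ≠ 0).Nonempty := by
    by_contra hS
    refine hne (e.trans (Finset.sum_eq_zero fun u hu => ?_))
    have : f u = 0 := by
      by_contra a
      exact hS ⟨u, Finset.mem_filter.2 ⟨hu, a⟩⟩
    rw [← hf, this, map_zero, mul_zero]
  obtain ⟨u, hu, hmin⟩ := Finset.exists_min_image _ cs.length hS
  obtain ⟨hu1, hu2⟩ := Finset.mem_filter.1 hu
  have huJ := (C.mem_WF hJ).1 hu1
  have h0 : ∀ v ∈ C.WF J, v ∈ C.W0 := fun v hv => C.WJ_mono hJ ((C.mem_WF hJ).1 hv)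
  have key : ∀ x, (C.act u (f u)).coeff (-x) = 0 := fun x => by
    have a := h _ (mul_mem (C.Tb_mem_HJ hJ (inv_mem huJ)) (C.th_mem_HJ J x))
    rw [e, Finset.sum_mul, ← h10_tl_apply, map_sum, Finset.sum_eq_single_of_mem u hu1] at a
    · rwa [h10_tl_apply, ← hf, C.h10_term (h0 u hu1) (h0 u hu1) le_rfl, if_pos rfl] at a
    · intro v hv hvu
      by_cases c : f v = 0
      · rw [← hf, c, map_zero, mul_zero, zero_mul, map_zero]
      · rw [h10_tl_apply, ← hf, C.h10_term (h0 v hv) (h0 u hu1)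
          (hmin v (Finset.mem_filter.2 ⟨hv, c⟩)), if_neg hvu]
  have z : C.act u (f u) = 0 := by
    ext x
    have := key (-x)
    rw [neg_neg] at this
    rw [this]
    rfl
  apply hu2
  rw [← C.act_one (f u), ← inv_mul_cancel u, act_mul, z, map_zero]

theorem h10_sym {i : B} {y : Lat C.n} (hy : C.gr (cs.simple i) y = -y) (x : Lat C.n) :
    (mon y : LA Rq C.n).coeff (-C.gr (cs.simple i) x) = (mon y : LA Rq C.n).coeff x := by
  simp only [mon, AddMonoidAlgebra.coeff_single, Finsupp.single_apply]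
  refine if_congr ⟨fun e => ?_, fun e => ?_⟩ rfl rfl
  · apply (C.gr (cs.simple i)).injective
    rw [hy, e, neg_neg]
  · rw [← e, hy, neg_neg]

theorem h10_co (i : B) : C.gr (cs.simple i) (C.co (C.sr i)) = -C.co (C.sr i) := by
  rw [C.gr_simple, (C.co_spec (C.sr_mem i)).1, two_smul]
  abel

theorem h10_dd (i : B) (x : Lat C.n) :
    (C.dd (C.sr i)).coeff (-C.gr (cs.simple i) x) = (C.dd (C.sr i)).coeff x := by
  simp only [dd, AddMonoidAlgebra.coeff_sub, Finsupp.sub_apply]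
  rw [h10_sym (h10_co i), h10_sym (by rw [map_neg, h10_co])]

theorem h10_nn (i : B) (x : Lat C.n) :
    (C.nn i).coeff (-C.gr (cs.simple i) x) = (C.nn i).coeff x := by
  have e : algebraMap Rq (LA Rq C.n) (C.cq (C.nx i)) = C.cq (C.nx i) • mon 0 := by
    rw [Algebra.algebraMap_eq_smul_one]
    rfl
  simp only [nn, e, AddMonoidAlgebra.coeff_add, Finsupp.add_apply,
    AddMonoidAlgebra.coeff_smul_apply]
  rw [h10_sym (h10_co i), h10_sym (by rw [map_zero, neg_zero])]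

/-- check on `ξ = T_v θ_x` with `tauL_flat` and `iot_eq` -/
theorem tauL_simple {i : B} (hi : i ∈ C.S0) (ξ : H) :
    C.tauL (ξ * C.iot i) = C.tauL (C.flat (C.iot i) * ξ) := by
  have hξ : ξ ∈ C.HJ C.S0 := by rw [HJ_S0]; trivial
  rw [C.mem_HJ_iff_left subset_rfl] at hξ
  induction hξ using Submodule.span_induction with
  | mem t ht =>
    obtain ⟨v, hv, x, rfl⟩ := ht
    have hs : cs.simple i ∈ C.W0 := C.simple_mem_WJ hi
    have e0 := Finset.empty_subset C.S0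
    have m1 := C.h10_mem_Mn (one_mem _)
    have ms := C.h10_mem_Mn hs
    have mv := C.h10_mem_Mn hv
    have c : C.cmp ∅ (C.iot i) v = (if 1 = v then C.Th (C.nn i) else 0) +
        if cs.simple i = v then C.Th (-C.dd (C.sr i)) else 0 := by
      rw [← C.cmp_Tb e0 (C.Th_mem_HJ ∅ _) m1 mv, ← C.cmp_Tb e0 (C.Th_mem_HJ ∅ _) ms mv,
        ← C.cmp_add e0 _ _ mv, C.iot_eq hi, Tb_one, one_mul, map_neg, mul_neg, sub_eq_add_neg, Ts]
    rw [C.tauL_flat hv, c, mul_assoc, ← C.Th_mon, C.Th_mul_iot hi, C.iot_eq hi, act_mon, sub_mul,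
      mul_sub, ← h10_tl_apply, map_sub, h10_tl_apply, h10_tl_apply, ← map_mul, mul_assoc,
      ← map_mul, C.tauL_Tb_Th hv, Ts, C.h10_TT hv hs, map_add, LinearMap.add_apply, Th_mon,
      sub_eq_add_neg]
    simp only [mon, AddMonoidAlgebra.coeff_mul_single_apply, mul_one, zero_add, h10_nn, h10_dd]
    congr 1
    · by_cases a : v = 1
      · rw [if_pos a, if_pos a.symm, ip_comm, h10_ip_Th]
      · rw [if_neg a, if_neg (Ne.symm a), map_zero, LinearMap.zero_apply]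
    · by_cases a : cs.simple i = v
      · rw [if_pos a, if_pos (by rw [← a, cs.inv_simple]), ip_comm, h10_ip_Th]
        rfl
      · rw [if_neg a, if_neg fun b => a (by rw [← inv_inv v, b, cs.inv_simple]), map_zero,
          LinearMap.zero_apply, neg_zero]
  | zero => rw [zero_mul, mul_zero]
  | add x y _ _ a b => rw [add_mul, mul_add, tauL_add, tauL_add, a, b]
  | smul r x _ a => rw [smul_mul_assoc, mul_smul_comm, tauL_smul, tauL_smul, a]

theorem tauL_iotw (hw : w ∈ C.W0) (ξ : H) :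
    C.tauL (ξ * C.iotw w⁻¹) = C.tauL (C.flat (C.iotw w) * ξ) := by
  revert ξ
  refine C.WJ_induction subset_rfl (p := fun w => ∀ ξ,
    C.tauL (ξ * C.iotw w⁻¹) = C.tauL (C.flat (C.iotw w) * ξ)) ?_ ?_ hw
  · intro ξ
    rw [inv_one, iotw_one, flat_one, mul_one, one_mul]
  · intro u hu j hj hl ih ξ
    have hs : cs.simple j ∈ C.W0 := C.simple_mem_WJ hj
    have l : cs.length (u * cs.simple j) = cs.length u + cs.length (cs.simple j) := by
      have := h2_len_le cs u j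
      rw [cs.length_simple]
      omega
    have l' : cs.length ((cs.simple j)⁻¹ * u⁻¹) =
        cs.length (cs.simple j)⁻¹ + cs.length u⁻¹ := by
      rw [← mul_inv_rev, cs.length_inv, cs.length_inv, cs.length_inv, l, add_comm]
    rw [mul_inv_rev, C.iotw_mul (inv_mem hs) (inv_mem hu) l', C.iotw_mul hu hs l, cs.inv_simple,
      C.iotw_simple hj, ← mul_assoc, ih, ← mul_assoc, tauL_simple hj, flat_mul, mul_assoc]

theorem sim_cmp (h : C.Mv J J' w) (ξ : H) :
    C.Sim J J' w (C.cmp J (C.flat (C.iotw w) * ξ) 1) (C.cmp J' (ξ * C.iotw w⁻¹) 1) := by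
  obtain ⟨a', ha'⟩ := exists_sim h ((C.cmp_spec h.sub (C.flat (C.iotw w) * ξ)).1 1)
  have m := (C.cmp_spec h.sub' (ξ * C.iotw w⁻¹)).1 1
  have : a' - C.cmp J' (ξ * C.iotw w⁻¹) 1 = 0 := by
    refine nondeg_right h.sub' (sub_mem ha'.mem' m) fun b' hb' => ?_
    obtain ⟨b, hb⟩ := exists_sim h.symm hb'
    have hb2 := hb.symm
    rw [inv_inv] at hb2
    rw [sub_mul, ← h10_tl_apply, map_sub, h10_tl_apply, h10_tl_apply, sub_eq_zero,
      ← Sim.tauL h (ha'.mul hb2), ← C.cmp_mul h.sub _ hb2.mem (C.one_mem_Mn h.sub subset_rfl),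
      ← C.cmp_mul h.sub' _ hb' (C.one_mem_Mn h.sub' subset_rfl), C.tauL_cmp h.sub,
      C.tauL_cmp h.sub', mul_assoc, ← tauL_iotw h.mem, mul_assoc, mul_assoc, hb2.right]
  rwa [← sub_eq_zero.1 this]

/-- (UniL) -/
theorem uniL (h : C.Mv J J' w) (ξ η : H) :
    ∑ u ∈ C.Mn C.S0 J', C.ip J' (C.cmp J' (C.iotw w⁻¹) u * ξ) (C.cmp J' (C.iotw w⁻¹) u * η) =
      C.ip J' ξ (C.iotw w * C.iotw w⁻¹ * η) := by
  have hN := sim_N h
  have a : C.adj J (C.iotw w⁻¹ * C.iotw w) = C.iotw w⁻¹ * C.iotw w := by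
    refine C.adj_unique (J := J) fun x y => ?_
    rw [← C.ip_mul_left h.sub hN.mem, mul_assoc, uniR h.symm, inv_inv, uniR h, mul_assoc]
  have s := sim_cmp h (C.flat (C.iotw w⁻¹))
  rw [← flat_mul, ← adj, a] at s
  have sp := C.cmp_spec h.sub' (C.iotw w⁻¹)
  have e : C.cmp J' (C.flat (C.iotw w⁻¹) * C.iotw w⁻¹) 1 = ∑ u ∈ C.Mn C.S0 J',
      C.cmp J' (C.flat (C.iotw w⁻¹) * C.Tb u) 1 * C.cmp J' (C.iotw w⁻¹) u := by
    rw [← C.h10_c1_apply h.sub', congrArg (C.flat (C.iotw w⁻¹) * ·) sp.2, Finset.mul_sum, map_sum]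
    exact Finset.sum_congr rfl fun u _ => by
      rw [h10_c1_apply, ← mul_assoc, C.cmp_mul h.sub' _ (sp.1 u) (C.one_mem_Mn h.sub' subset_rfl)]
  rw [← Sim.unique h.mem s hN, e, Finset.sum_mul, map_sum]
  exact Finset.sum_congr rfl fun u hu => by rw [C.ip_cmp_adj h.sub' _ hu, mul_assoc]

end HC

end Pool.Agent.P.MP_74db7f_al
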