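import Pool.Agent.P.MP_74db7f_al.F.H1

/-! H2: the alcove bases `T^J` (paper, section 1). -/

namespace Pool.Agent.P.MP_74db7f_al

open scoped Classical

namespace HC

variable {B W H : Type*} [Group W] {M : CoxeterMatrix B} {cs : CoxeterSystem M W} [Ring H]
  [Algebra Rq H] (C : HC cs H)

theorem h2_step (J : Finset B) (w : W) (i : B) {t : H} (ht : ∀ᶠ k : ℕ in Filter.atTop,
    C.Tb (C.tr ((k : ℤ) • C.z J)) * t = C.Tb (C.tr ((k : ℤ) • C.z J) * w)) :
    ∀ᶠ k : ℕ in Filter.atTop, C.Tb (C.tr ((k : ℤ) • C.z J)) *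
      (if C.lenJ J w < C.lenJ J (w * cs.simple i) then t * C.Ts i else t * C.Ts i - C.cq i • t) =
        C.Tb (C.tr ((k : ℤ) • C.z J) * (w * cs.simple i)) := by
  filter_upwards [ht, C.length_eventually J w, C.length_eventually J (w * cs.simple i)]
    with k e a b
  have h := C.Tb_mul_Ts (C.tr ((k : ℤ) • C.z J) * w) i
  rw [mul_assoc (C.tr _) w] at h
  split_ifs with c
  · rw [if_pos (by omega)] at h
    rw [← mul_assoc, e, h]
  · rw [if_neg (by omega)] at h
    rw [mul_sub, ← mul_assoc, mul_smul_comm, e, h, add_sub_cancel_right]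

theorem h2_ex (J : Finset B) (w : W) : ∃ t : H, ∀ᶠ k : ℕ in Filter.atTop,
    C.Tb (C.tr ((k : ℤ) • C.z J)) * t = C.Tb (C.tr ((k : ℤ) • C.z J) * w) := by
  induction w using cs.simple_induction_right with
  | one => exact ⟨1, Filter.Eventually.of_forall fun k => by rw [mul_one, mul_one]⟩
  | mul_simple_right w i ih =>
    obtain ⟨t, ht⟩ := ih
    exact ⟨_, C.h2_step J w i ht⟩

/-- existence by induction on `w` (`simple_induction_right`, `length_eventually`), uniqueness
since `T_x` is a unit. -/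
theorem TJ_spec (J : Finset B) (w : W) : ∀ᶠ k : ℕ in Filter.atTop,
    C.Tb (C.tr ((k : ℤ) • C.z J)) * C.TJ J w = C.Tb (C.tr ((k : ℤ) • C.z J) * w) := by
  exact Classical.epsilon_spec (C.h2_ex J w)

theorem h2_unique (J : Finset B) (w : W) {t : H} (ht : ∀ᶠ k : ℕ in Filter.atTop,
    C.Tb (C.tr ((k : ℤ) • C.z J)) * t = C.Tb (C.tr ((k : ℤ) • C.z J) * w)) : t = C.TJ J w := by
  obtain ⟨k, a, b⟩ := (ht.and (C.TJ_spec J w)).exists
  exact (C.isUnit_Tb _).mul_left_cancel (a.trans b.symm)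

@[simp] theorem TJ_one (J : Finset B) : C.TJ J 1 = 1 := by
  exact (C.h2_unique J 1 (Filter.Eventually.of_forall fun k => by rw [mul_one, mul_one])).symm

theorem TJ_mul_Ts (J : Finset B) (w : W) (i : B) : C.TJ J w * C.Ts i =
    if C.lenJ J w < C.lenJ J (w * cs.simple i) then C.TJ J (w * cs.simple i)
    else C.TJ J (w * cs.simple i) + C.cq i • C.TJ J w := by
  have h := C.h2_unique J _ (C.h2_step J w i (C.TJ_spec J w))
  split_ifs at h ⊢ with c
  · exact h
  · rw [← h, sub_add_cancel]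

theorem TJ_up (J : Finset B) {w : W} {i : B} (h : C.lenJ J w < C.lenJ J (w * cs.simple i)) :
    C.TJ J (w * cs.simple i) = C.TJ J w * C.Ts i := by
  rw [C.TJ_mul_Ts, if_pos h]

theorem TJ_down (J : Finset B) {w : W} {i : B} (h : C.lenJ J (w * cs.simple i) < C.lenJ J w) :
    C.TJ J (w * cs.simple i) = C.TJ J w * (C.Ts i - algebraMap Rq H (C.cq i)) := by
  rw [mul_sub, C.TJ_mul_Ts, if_neg h.not_gt, ← Algebra.commutes, ← Algebra.smul_def,
    add_sub_cancel_right]

theorem TJ_S0 (w : W) : C.TJ C.S0 w = C.Tb w := by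
  refine (C.h2_unique _ w (Filter.Eventually.of_forall fun k => ?_)).symm
  rw [C.z_S0, smul_zero, C.tr_zero, Tb_one, one_mul, one_mul]

theorem isUnit_TJ (J : Finset B) (w : W) : IsUnit (C.TJ J w) := by
  obtain ⟨k, e⟩ := (C.TJ_spec J w).exists
  obtain ⟨u, hu⟩ := C.isUnit_Tb (C.tr ((k : ℤ) • C.z J))
  rw [← hu] at e
  rw [← Units.inv_mul_cancel_left u (C.TJ J w), e]
  exact (Units.isUnit _).mul (C.isUnit_Tb _)

theorem h2_step_eq (J : Finset B) (w : W) (i : B) :
    ∃ r : Rq, C.TJ J (w * cs.simple i) = C.TJ J w * C.Ts i + r • C.TJ J w := by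
  have h := C.TJ_mul_Ts J w i
  split_ifs at h
  · exact ⟨0, by rw [h, zero_smul, add_zero]⟩
  · exact ⟨-C.cq i, by rw [h, neg_smul, add_neg_cancel_right]⟩

theorem h2_span_mul (J : Finset B) {S S' : Set W} (i : B) (h1 : S ⊆ S')
    (h2 : ∀ w ∈ S, w * cs.simple i ∈ S') {x : H} (hx : x ∈ Submodule.span Rq (C.TJ J '' S)) :
    x * C.Ts i ∈ Submodule.span Rq (C.TJ J '' S') := by
  induction hx using Submodule.span_induction with
  | mem x hx =>
    obtain ⟨w, hw, rfl⟩ := hx
    obtain ⟨r, e⟩ := C.h2_step_eq J w i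
    rw [← sub_eq_iff_eq_add] at e
    rw [← e]
    exact sub_mem (Submodule.subset_span ⟨_, h2 w hw, rfl⟩)
      (Submodule.smul_mem _ _ (Submodule.subset_span ⟨_, h1 hw, rfl⟩))
  | zero => rw [zero_mul]; exact zero_mem _
  | add x y _ _ a b => rw [add_mul]; exact add_mem a b
  | smul r x _ a => rw [smul_mul_assoc]; exact Submodule.smul_mem _ _ a

theorem h2_desc (cs : CoxeterSystem M W) {p : W → Prop} (h1 : p 1)
    (hs : ∀ w i, cs.length (w * cs.simple i) = cs.length w + 1 → p w → p (w * cs.simple i))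
    (w : W) : p w := by
  induction hn : cs.length w using Nat.strong_induction_on generalizing w with
  | _ n ih =>
  by_cases h : w = 1
  · exact h ▸ h1
  obtain ⟨i, hi⟩ := cs.exists_rightDescent_of_ne_one h
  have e : w * cs.simple i * cs.simple i = w := by
    rw [mul_assoc, cs.simple_mul_simple_self, mul_one]
  have a := cs.isRightDescent_iff.1 hi
  have := hs (w * cs.simple i) i (by rw [e]; omega) (ih _ (by omega) _ rfl)
  rwa [e] at this

theorem h2_len_le (cs : CoxeterSystem M W) (w : W) (i : B) :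
    cs.length (w * cs.simple i) ≤ cs.length w + 1 := by
  have := cs.length_mul_le w (cs.simple i)
  rwa [cs.length_simple] at this

theorem h2_tri (J K : Finset B) (w : W) : C.TJ K w - C.TJ J w ∈
    Submodule.span Rq (C.TJ J '' {y | cs.length y < cs.length w}) := by
  induction w using h2_desc cs with
  | h1 => rw [TJ_one, TJ_one, sub_self]; exact zero_mem _
  | hs w i hl ih =>
    obtain ⟨r, e⟩ := C.h2_step_eq K w i
    obtain ⟨r', e'⟩ := C.h2_step_eq J w i
    have hsub : {y | cs.length y < cs.length w} ⊆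
        {y | cs.length y < cs.length (w * cs.simple i)} := fun y hy => by
      simp only [Set.mem_ofPred_eq] at hy ⊢
      omega
    have a := C.h2_span_mul J i hsub (fun y hy => by
      have := h2_len_le cs y i
      simp only [Set.mem_ofPred_eq] at hy ⊢
      omega) ih
    have b := Submodule.span_mono (Set.image_mono hsub) ih
    have c : C.TJ J w ∈ Submodule.span Rq
        (C.TJ J '' {y | cs.length y < cs.length (w * cs.simple i)}) :=
      Submodule.subset_span ⟨w, by simp only [Set.mem_ofPred_eq]; omega, rfl⟩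
    have : C.TJ K (w * cs.simple i) - C.TJ J (w * cs.simple i) =
        (C.TJ K w - C.TJ J w) * C.Ts i + r • (C.TJ K w - C.TJ J w) + (r - r') • C.TJ J w := by
      rw [e, e', sub_mul, smul_sub, sub_smul]
      abel
    rw [this]
    exact add_mem (add_mem a (Submodule.smul_mem _ _ b)) (Submodule.smul_mem _ _ c)

theorem TJ_tri (J : Finset B) (w : W) : C.TJ J w - C.Tb w ∈
    Submodule.span Rq (C.Tb '' {y | cs.length y < cs.length w}) := by
  have h := C.h2_tri C.S0 J w
  rwa [show C.TJ C.S0 = C.Tb from funext C.TJ_S0] at h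

theorem h2_comb (J : Finset B) (r : W →₀ Rq) : ∀ᶠ k : ℕ in Filter.atTop,
    C.Tb.repr (C.Tb (C.tr ((k : ℤ) • C.z J)) * Finsupp.linearCombination Rq (C.TJ J) r) =
      r.mapDomain fun g => C.tr ((k : ℤ) • C.z J) * g := by
  filter_upwards [(Filter.eventually_all_finset r.support).2 fun g _ => C.TJ_spec J g] with k hk
  rw [← C.Tb.repr_linearCombination (r.mapDomain _), Finsupp.linearCombination_mapDomain,
    Finsupp.linearCombination_apply, Finsupp.linearCombination_apply, Finsupp.sum, Finsupp.sum,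
    Finset.mul_sum]
  congr 1
  exact Finset.sum_congr rfl fun g hg => by rw [mul_smul_comm, hk g hg]; rfl

theorem h2_li (J : Finset B) : LinearIndependent Rq (C.TJ J) := by
  refine linearIndependent_iff.2 fun r hr => ?_
  obtain ⟨k, e⟩ := (C.h2_comb J r).exists
  rw [hr, mul_zero, map_zero] at e
  exact Finsupp.mapDomain_injective (mul_right_injective _)
    (e.symm.trans Finsupp.mapDomain_zero.symm)

theorem h2_sp (J : Finset B) : ⊤ ≤ Submodule.span Rq (Set.range (C.TJ J)) := by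
  rw [← C.Tb.span_eq, Submodule.span_le]
  rintro _ ⟨w, rfl⟩
  have h := Submodule.span_mono (Set.image_subset_range _ _) (C.h2_tri J C.S0 w)
  have := add_mem h (Submodule.subset_span ⟨w, rfl⟩)
  rwa [sub_add_cancel, TJ_S0] at this

@[simp] theorem bJ_apply (J : Finset B) (w : W) : C.bJ J w = C.TJ J w := by
  rw [bJ, dif_pos ⟨C.h2_li J, C.h2_sp J⟩, Module.Basis.mk_apply]

theorem bJ_S0 : C.bJ C.S0 = C.Tb := by
  exact Module.Basis.eq_of_apply_eq fun w => by rw [bJ_apply, TJ_S0]

theorem Tb_tri (J : Finset B) (w : W) : C.Tb w - C.TJ J w ∈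
    Submodule.span Rq (C.TJ J '' {y | cs.length y < cs.length w}) := by
  rw [← C.TJ_S0]
  exact C.h2_tri J C.S0 w

/-- deep coordinates -/
theorem repr_eventually (J : Finset B) (ξ : H) : ∀ᶠ k : ℕ in Filter.atTop,
    C.Tb.repr (C.Tb (C.tr ((k : ℤ) • C.z J)) * ξ) =
      ((C.bJ J).repr ξ).mapDomain fun g => C.tr ((k : ℤ) • C.z J) * g := by
  have h := C.h2_comb J ((C.bJ J).repr ξ)
  rwa [← show ⇑(C.bJ J) = C.TJ J from funext (C.bJ_apply J),
    (C.bJ J).linearCombination_repr] at h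

theorem ip_eventually (J : Finset B) (ξ η : H) : ∀ᶠ k : ℕ in Filter.atTop,
    ipB C.Tb (C.Tb (C.tr ((k : ℤ) • C.z J)) * ξ) (C.Tb (C.tr ((k : ℤ) • C.z J)) * η) =
      C.ip J ξ η := by
  filter_upwards [C.repr_eventually J ξ, C.repr_eventually J η] with k a b
  rw [ip, ipB_apply, ipB_apply, a, b, Finsupp.sum_mapDomain_index_inj (mul_right_injective _)]
  exact Finsupp.sum_congr fun g _ => by
    rw [Finsupp.mapDomain_apply (mul_right_injective _)]

theorem ip_mul_right (J : Finset B) (x y h : H) :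
    C.ip J (x * h) y = C.ip J x (y * C.flat h) := by
  obtain ⟨k, a, b⟩ :=
    ((C.ip_eventually J (x * h) y).and (C.ip_eventually J x (y * C.flat h))).exists
  rw [← a, ← b, ← mul_assoc, ← mul_assoc, ip0_mul_right]

theorem ip_comm (J : Finset B) (x y : H) : C.ip J x y = C.ip J y x := ipB_comm _ x y

theorem ip_TJ (J : Finset B) (w : W) (y : H) : C.ip J (C.TJ J w) y = (C.bJ J).repr y w := by
  rw [← bJ_apply, ip, ipB_basis]

theorem h2_Dg (J : Finset B) {ξ : H} {N : ℤ} (h : ∀ᶠ k : ℕ in Filter.atTop,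
    C.Tb (C.tr ((k : ℤ) • C.z J)) * ξ ∈ Dg C.Tb N) : ξ ∈ Dg (C.bJ J) N := by
  obtain ⟨k, a, b⟩ := (h.and (C.repr_eventually J ξ)).exists
  intro g
  have := a (C.tr ((k : ℤ) • C.z J) * g)
  rwa [b, Finsupp.mapDomain_apply (mul_right_injective _)] at this

theorem right_bound (J : Finset B) (g w : W) : C.TJ J g * C.Tb w ∈ Dg (C.bJ J) C.Nb := by
  refine C.h2_Dg J ?_
  filter_upwards [C.TJ_spec J g] with k e
  rw [← mul_assoc, e]
  exact C.hN _ _

theorem exists_right_bound (J : Finset B) (h : H) :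
    ∃ N : ℕ, ∀ g, C.TJ J g * h ∈ Dg (C.bJ J) N := by
  obtain ⟨m, hm⟩ := C.exists_left_bound h
  have a := hm 1
  rw [Tb_one, mul_one] at a
  refine ⟨m + C.Nb, fun g => ?_⟩
  have := map_mem_Dg (LinearMap.mulLeft Rq (C.TJ J g)) a fun w _ => C.right_bound J g w
  rwa [← Nat.cast_add] at this

/-- an element commuting with the deep translations acts boundedly on the left -/
theorem left_bound_of_comm (J : Finset B) {a : H}
    (ha : ∀ k : ℕ, Commute a (C.Tb (C.tr ((k : ℤ) • C.z J)))) {N : ℤ}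
    (hN : ∀ w, a * C.Tb w ∈ Dg C.Tb N) (g : W) : a * C.TJ J g ∈ Dg (C.bJ J) N := by
  refine C.h2_Dg J ?_
  filter_upwards [C.TJ_spec J g] with k e
  rw [← mul_assoc, ← (ha k).eq, mul_assoc, e]
  exact hN _

/-- (Ball) -/
theorem TJ_mul_ball (J K : Finset B) (y g : W) : C.TJ J y * C.TJ K g ∈
    Submodule.span Rq (C.TJ J '' {w | cs.length (y⁻¹ * w) ≤ cs.length g}) := by
  induction g using h2_desc cs with
  | h1 =>
    rw [TJ_one, mul_one]
    exact Submodule.subset_span ⟨y, by simp, rfl⟩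
  | hs g i hl ih =>
    obtain ⟨r, e⟩ := C.h2_step_eq K g i
    have hsub : {w | cs.length (y⁻¹ * w) ≤ cs.length g} ⊆
        {w | cs.length (y⁻¹ * w) ≤ cs.length (g * cs.simple i)} := fun w hw => by
      simp only [Set.mem_ofPred_eq] at hw ⊢
      omega
    rw [e, mul_add, ← mul_assoc, mul_smul_comm]
    refine add_mem (C.h2_span_mul J i hsub (fun w hw => ?_) ih)
      (Submodule.smul_mem _ _ (Submodule.span_mono (Set.image_mono hsub) ih))
    have := h2_len_le cs (y⁻¹ * w) i
    simp only [Set.mem_ofPred_eq] at hw ⊢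
    rw [← mul_assoc]
    omega

end HC

end Pool.Agent.P.MP_74db7f_al
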