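import Pool.Agent.P.MP_74db7f_al.F.H2

/-! H3: Bernstein elements, (Cmp), (Strip), (Add), (DL), (Supp) (paper, section 1). -/

namespace Pool.Agent.P.MP_74db7f_al

open scoped Classical

namespace HC

variable {B W H : Type*} [Group W] {M : CoxeterMatrix B} {cs : CoxeterSystem M W} [Ring H]
  [Algebra Rq H] (C : HC cs H)

theorem h3_ind (cs : CoxeterSystem M W) {p : W → Prop} (h1 : p 1)
    (h2 : ∀ g i, cs.length (g * cs.simple i) < cs.length g → p (g * cs.simple i) → p g)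
    (g : W) : p g := by
  induction hn : cs.length g using Nat.strong_induction_on generalizing g with
  | _ n ih =>
  by_cases h : g = 1
  · exact h ▸ h1
  · obtain ⟨i, hi⟩ := cs.exists_rightDescent_of_ne_one h
    exact h2 g i hi (ih _ (hn ▸ hi) _ rfl)

theorem h3_E (J : Finset B) (w : W) (i : B) : C.TJ J (w * cs.simple i) = C.TJ J w *
    (if C.lenJ J w < C.lenJ J (w * cs.simple i) then C.Ts i
      else C.Ts i - algebraMap Rq H (C.cq i)) := by
  split_ifs with h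
  · exact C.TJ_up J h
  · refine C.TJ_down J ?_
    have := C.lenJ_step J w i
    omega

theorem h3_step {t : H} {J K : Finset B} {a b : W} {i : B} (h : t * C.TJ K b = C.TJ J a)
    (e : C.lenJ J (a * cs.simple i) - C.lenJ J a = C.lenJ K (b * cs.simple i) - C.lenJ K b) :
    t * C.TJ K (b * cs.simple i) = C.TJ J (a * cs.simple i) := by
  rw [C.h3_E, C.h3_E, ← mul_assoc, h]
  congr 1
  exact if_congr (by omega) rfl rfl

theorem h3_adom_one {J : Finset B} (hJ : J ⊆ C.S0) : C.ADom J 1 :=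
  fun j hj => (C.S0_pos j (hJ hj)).ge

theorem h3_fix_kz {J : Finset B} (hJ : J ⊆ C.S0) (k : ℤ) : C.Fix J (k • C.z J) := fun j hj => by
  rw [map_zsmul, C.fix_z hJ j hj, smul_zero]

theorem h3_dom_kz (J : Finset B) (k : ℕ) : C.Dom C.S0 ((k : ℤ) • C.z J) := fun j hj => by
  rw [map_zsmul, smul_eq_mul]
  exact mul_nonneg (Int.natCast_nonneg k) (C.dom_z J j hj)

theorem h3_ev {a c : ℤ} (hc : 0 < c) : ∀ᶠ k : ℕ in Filter.atTop, 0 ≤ a + k * c := by
  filter_upwards [Filter.eventually_ge_atTop a.natAbs] with k hk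
  have h1 : (a.natAbs : ℤ) ≤ k := by exact_mod_cast hk
  have h2 : (k : ℤ) * 1 ≤ k * c := mul_le_mul_of_nonneg_left hc (Int.natCast_nonneg k)
  omega

theorem h3_dom_ev {J : Finset B} {x : Lat C.n} (hx : C.Dom J x) :
    ∀ᶠ k : ℕ in Filter.atTop, C.Dom C.S0 (x + (k : ℤ) • C.z J) := by
  have : ∀ᶠ k : ℕ in Filter.atTop, ∀ i ∈ C.S0, 0 ≤ C.sr i (x + (k : ℤ) • C.z J) := by
    rw [Filter.eventually_all_finset]
    intro i hi
    by_cases h : i ∈ J
    · refine Filter.Eventually.of_forall fun k => ?_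
      rw [map_add, map_zsmul, C.sr_z_mem hi h, smul_zero, add_zero]
      exact hx i h
    · filter_upwards [h3_ev (a := C.sr i x) C.m_pos] with k hk
      rwa [map_add, map_zsmul, C.sr_z_not hi h, smul_eq_mul]
  exact this

theorem h3_comm {J : Finset B} {u : W} (hu : u ∈ C.WJ J) {x : Lat C.n} (hx : C.Fix J x) :
    u * C.tr x = C.tr x * u := by
  rw [C.conj, C.gr_fix hu hx]

/-- (Cmp) -/
theorem TJ_cmp {J I : Finset B} (hJI : J ⊆ I) (hI : I ⊆ C.S0) {g : W} (hg : C.ADom I g) :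
    C.TJ I g = C.TJ J g := by
  induction g using h3_ind cs with
  | h1 => simp
  | h2 g i hi ih =>
    obtain ⟨h1, h2⟩ := C.cmp_step hJI hI hg hi
    have := C.h3_step (t := 1) (J := I) (K := J) (a := g * cs.simple i) (b := g * cs.simple i)
      (i := i) (by rw [one_mul, ih h1]) (by rw [cs.simple_mul_simple_cancel_right]; exact h2)
    rw [cs.simple_mul_simple_cancel_right, one_mul] at this
    exact this.symm

theorem th_mul_TJ_empty (x : Lat C.n) (w : W) : C.th x * C.TJ ∅ w = C.TJ ∅ (C.tr x * w) := by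
  induction w using cs.simple_induction_right with
  | one => simp [th]
  | mul_simple_right w i ih =>
    have hx : C.Fix ∅ x := fun j hj => absurd hj (Finset.notMem_empty j)
    have := C.h3_step (i := i) ih (by
      rw [mul_assoc, C.lenJ_tr (Finset.empty_subset _) hx, C.lenJ_tr (Finset.empty_subset _) hx]
      ring)
    rwa [mul_assoc] at this

@[simp] theorem th_zero : C.th 0 = 1 := by
  rw [th, C.tr_zero, C.TJ_one]

theorem th_add (x y : Lat C.n) : C.th (x + y) = C.th x * C.th y := by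
  rw [th, C.tr_add, ← C.th_mul_TJ_empty]
  rfl

theorem th_comm (x y : Lat C.n) : Commute (C.th x) (C.th y) := by
  rw [Commute, SemiconjBy, ← C.th_add, ← C.th_add, add_comm]

theorem th_dom {J : Finset B} (hJ : J ⊆ C.S0) {x : Lat C.n} (hx : C.Dom J x) :
    C.th x = C.TJ J (C.tr x) := by
  have := C.adom_tr hx (C.h3_adom_one hJ)
  rw [mul_one] at this
  exact (C.TJ_cmp (Finset.empty_subset J) hJ this).symm

theorem th_z (J : Finset B) (k : ℕ) :
    C.th ((k : ℤ) • C.z J) = C.Tb (C.tr ((k : ℤ) • C.z J)) := by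
  rw [C.th_dom subset_rfl (C.h3_dom_kz J k), C.TJ_S0]

theorem th_mul_TJ {J : Finset B} (hJ : J ⊆ C.S0) {x : Lat C.n} (hx : C.Fix J x) (w : W) :
    C.th x * C.TJ J w = C.TJ J (C.tr x * w) := by
  induction w using cs.simple_induction_right with
  | one => simpa using C.th_dom hJ fun j hj => (hx j hj).ge
  | mul_simple_right w i ih =>
    have := C.h3_step (i := i) ih (by
      rw [mul_assoc, C.lenJ_tr hJ hx, C.lenJ_tr hJ hx]
      ring)
    rwa [mul_assoc] at this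

/-- (Strip) -/
theorem TJ_strip {K J : Finset B} (hKJ : K ⊆ J) (hJ : J ⊆ C.S0) {g : W}
    (hg : ∀ γ ∈ C.Rp, γ (C.z J) = 0 → C.mu g γ = 0) {y : W} (hy : y ∈ C.YJ J) :
    C.TJ K (y * g) = C.TJ K y * C.TJ K g := by
  induction g using h3_ind cs with
  | h1 => simp
  | h2 g i hi ih =>
    obtain ⟨h1, h2⟩ := C.strip_step hKJ hJ hg hi hy
    have := C.h3_step (i := i) (ih h1).symm (by
      rw [← mul_assoc, cs.simple_mul_simple_cancel_right, cs.simple_mul_simple_cancel_right]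
      exact h2)
    rw [← mul_assoc, cs.simple_mul_simple_cancel_right, cs.simple_mul_simple_cancel_right] at this
    exact this.symm

theorem Ts_comm_th {j : B} (hj : j ∈ C.S0) {x : Lat C.n} (hx : C.sr j x = 0) :
    Commute (C.Ts j) (C.th x) := by
  have hf : ∀ y, C.sr j y = 0 → C.Fix {j} y := fun y hy i hi => by
    rw [Finset.mem_singleton.1 hi]
    exact hy
  have key : ∀ y, C.Dom C.S0 y → C.sr j y = 0 → Commute (C.Ts j) (C.th y) := fun y h1 h2 => by
    rw [C.th_dom subset_rfl h1, C.TJ_S0, Commute, SemiconjBy, C.Ts_mul_Tb, C.Tb_mul_Ts,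
      C.h3_comm (C.simple_mem_WJ (Finset.mem_singleton_self j)) (hf y h2)]
  obtain ⟨k, hk⟩ := (C.h3_dom_ev (J := {j}) (x := x) fun i hi => (hf x hx i hi).ge).exists
  have hz : C.sr j ((k : ℤ) • C.z {j}) = 0 :=
    C.h3_fix_kz (Finset.singleton_subset_iff.2 hj) k j (Finset.mem_singleton_self j)
  have h1 := key _ hk (by rw [map_add, hx, hz, add_zero])
  have h2 := key _ (C.h3_dom_kz {j} k) hz
  rw [C.th_add] at h1
  have hu : IsUnit (C.th ((k : ℤ) • C.z {j})) := C.isUnit_TJ _ _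
  refine hu.mul_right_cancel ?_
  rw [mul_assoc, h1.eq, mul_assoc, ← h2.eq, mul_assoc]

theorem Tb_comm_th {J : Finset B} (hJ : J ⊆ C.S0) {u : W} (hu : u ∈ C.WJ J) {x : Lat C.n}
    (hx : C.Fix J x) : Commute (C.Tb u) (C.th x) := by
  refine C.WJ_induction hJ (p := fun u => Commute (C.Tb u) (C.th x)) (by simp) ?_ hu
  intro u _ j hj hl ih
  have := C.Tb_mul_Ts u j
  rw [if_pos hl] at this
  rw [← this]
  exact ih.mul_left (C.Ts_comm_th (hJ hj) (hx j hj))

theorem HJ_comm_th {J : Finset B} (hJ : J ⊆ C.S0) {a : H} (ha : a ∈ C.HJ J) {x : Lat C.n}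
    (hx : C.Fix J x) : Commute a (C.th x) := by
  refine (Algebra.commute_of_mem_adjoin_of_forall_mem_commute ha ?_).symm
  rintro b (⟨j, hj, rfl⟩ | ⟨y, rfl⟩)
  · exact (C.Ts_comm_th (hJ hj) (hx j hj)).symm
  · exact C.th_comm x y

/-- (Add) -/
theorem Tb_mul_TJ {I : Finset B} (hI : I ⊆ C.S0) {u : W} (hu : u ∈ C.WJ I) {g : W}
    (h : C.lenJ I (u * g) = cs.length u + C.lenJ I g) : C.Tb u * C.TJ I g = C.TJ I (u * g) := by
  obtain ⟨k, h1, h2, h3, h4⟩ := ((C.TJ_spec I g).and ((C.TJ_spec I (u * g)).and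
    ((C.length_eventually I g).and (C.length_eventually I (u * g))))).exists
  have hc := C.h3_comm hu (C.h3_fix_kz hI k)
  have hc' := C.Tb_comm_th hI hu (C.h3_fix_kz hI k)
  rw [C.th_z] at hc'
  refine (C.isUnit_Tb (C.tr ((k : ℤ) • C.z I))).mul_left_cancel ?_
  rw [← mul_assoc, ← hc, mul_assoc] at h4
  rw [h2, ← mul_assoc, ← hc'.eq, mul_assoc, h1, ← mul_assoc, ← hc, mul_assoc]
  refine C.Tb_mul ?_
  omega

theorem Ts_mul_TJ {I : Finset B} (hI : I ⊆ C.S0) {i : B} (hi : i ∈ I) (g : W) :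
    C.Ts i * C.TJ I g = if C.lenJ I g < C.lenJ I (cs.simple i * g) then C.TJ I (cs.simple i * g)
      else C.TJ I (cs.simple i * g) + C.cq i • C.TJ I g := by
  obtain ⟨k, h1, h2, h3, h4⟩ := ((C.TJ_spec I g).and ((C.TJ_spec I (cs.simple i * g)).and
    ((C.length_eventually I g).and (C.length_eventually I (cs.simple i * g))))).exists
  have hc := C.h3_comm (C.simple_mem_WJ hi) (C.h3_fix_kz hI k)
  have hc' := C.Ts_comm_th (hI hi) (C.h3_fix_kz hI k i hi)
  rw [C.th_z] at hc'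
  refine (C.isUnit_Tb (C.tr ((k : ℤ) • C.z I))).mul_left_cancel ?_
  rw [← mul_assoc, ← hc, mul_assoc] at h4 h2
  rw [← mul_assoc, ← hc'.eq, mul_assoc, h1, C.Ts_mul_Tb]
  by_cases h : C.lenJ I g < C.lenJ I (cs.simple i * g)
  · rw [if_pos h, if_pos (by omega), h2]
  · rw [if_neg h, if_neg (by omega), mul_add, mul_smul_comm, h2, h1]

theorem h3_deep {J I : Finset B} (hJI : J ⊆ I) (hI : I ⊆ C.S0) (g : W) :
    ∀ᶠ k : ℕ in Filter.atTop, C.th ((k : ℤ) • C.z J) * C.TJ J g =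
      C.TJ I (C.tr ((k : ℤ) • C.z J) * g) := by
  induction g using cs.simple_induction_right with
  | one =>
    refine Filter.Eventually.of_forall fun k => ?_
    rw [C.TJ_one, mul_one, mul_one]
    exact C.th_dom hI fun j hj => C.h3_dom_kz J k j (hI hj)
  | mul_simple_right w i ih =>
    filter_upwards [ih, C.lenJ_eventually hJI hI w,
      C.lenJ_eventually hJI hI (w * cs.simple i)] with k h1 h2 h3
    have := C.h3_step (i := i) h1 (by rw [mul_assoc, h2, h3]; ring)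
    rwa [mul_assoc] at this

/-- (DL) -/
theorem deep_limit {J I : Finset B} (hJI : J ⊆ I) (hI : I ⊆ C.S0) {u : W} (hu : u ∈ C.Mn I J)
    (g : W) : ∀ᶠ k : ℕ in Filter.atTop, C.Tb u * C.th ((k : ℤ) • C.z J) * C.TJ J g =
      C.TJ I (u * (C.tr ((k : ℤ) • C.z J) * g)) := by
  obtain ⟨hu1, hu2⟩ := (C.mem_Mn hJI hI).1 hu
  have h1 : ∀ᶠ k : ℕ in Filter.atTop, ∀ γ ∈ C.Rp, C.pb u⁻¹ γ ∉ C.Rp →
      0 ≤ C.mu (C.tr ((k : ℤ) • C.z J) * g) γ := by
    rw [Filter.eventually_all_finset]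
    intro γ hγ
    by_cases h0 : γ (C.z J) = 0
    · exact Filter.Eventually.of_forall fun k h => absurd (hu2 γ hγ h0) h
    · have hp : 0 < γ (C.z J) := lt_of_le_of_ne (C.root_z_nonneg J hγ) (Ne.symm h0)
      filter_upwards [h3_ev (a := C.mu g γ) hp] with k hk _
      rwa [C.mu_tr _ _ _ (C.mem_Rp.1 hγ).1, map_zsmul, smul_eq_mul]
  filter_upwards [h1, C.h3_deep hJI hI g] with k hk hk'
  rw [mul_assoc, hk']
  exact C.Tb_mul_TJ hI hu1 (C.lenJ_add hI hu1 hk)

theorem TJ_empty_mul {v : W} (hv : v ∈ C.W0) : C.TJ ∅ v * C.Tb v⁻¹ = 1 := by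
  refine C.WJ_induction subset_rfl (p := fun v => C.TJ ∅ v * C.Tb v⁻¹ = 1) (by simp) ?_ hv
  intro u hu j hj hl ih
  have hu' : u * cs.simple j ∈ C.W0 := mul_mem hu (C.simple_mem_WJ hj)
  have h1 := C.TJ_down ∅ (w := u) (i := j) (by
    rw [C.lenJ_empty_W0 hu, C.lenJ_empty_W0 hu']
    omega)
  have h2 := C.Ts_mul_Tb u⁻¹ j
  have e : (u * cs.simple j)⁻¹ = cs.simple j * u⁻¹ := by rw [mul_inv_rev, cs.inv_simple]
  rw [← e, cs.length_inv, cs.length_inv, if_pos hl] at h2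
  rw [h1, ← h2, mul_assoc, ← mul_assoc _ (C.Ts j), (C.Ts_mul_inv j).2, one_mul, ih]

/-- normal form `T^J_w = T_u θ_x t_v` -/
theorem TJ_normal {J : Finset B} (hJ : J ⊆ C.S0) (w : W) : ∃ u ∈ C.WJ J, ∃ x, C.Dom J x ∧
    ∃ v ∈ C.W0, w = u * (C.tr x * v) ∧ C.ADom J (C.tr x * v) ∧
      C.TJ J w = C.Tb u * C.th x * C.TJ ∅ v := by
  obtain ⟨u, hu, hg⟩ := C.exists_adom hJ w
  have e := C.tr_xp_fp (u⁻¹ * w)
  refine ⟨u, hu, C.xp (u⁻¹ * w), C.adom_dom hJ hg, C.fp (u⁻¹ * w), C.fp_mem _, ?_, ?_, ?_⟩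
  · rw [e, mul_inv_cancel_left]
  · rwa [e]
  · rw [mul_assoc, C.th_mul_TJ_empty, e, ← C.TJ_cmp (Finset.empty_subset J) hJ hg,
      C.Tb_mul_TJ hJ hu (C.lenJ_add hJ hu fun γ hγ hn => ?_), mul_inv_cancel_left]
    by_cases h0 : γ (C.z J) = 0
    · exact C.mu_adom hJ hg hγ h0
    · exact absurd (C.pb_mem_Rp hJ (inv_mem hu) hγ h0) hn

/-- (Supp) -/
theorem TJ_mul_supp {J : Finset B} (hJ : J ⊆ C.S0) {y : W} (hy : y ∈ C.YJ J) (w : W) :
    C.TJ J y * C.TJ J w ∈ Submodule.span Rq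
      (C.TJ J '' {g | g * w⁻¹ ∈ C.YJ J ∧ C.degW J (g * w⁻¹) = C.degW J y}) := by
  induction w using cs.simple_induction_right with
  | one =>
    rw [C.TJ_one, mul_one]
    exact Submodule.subset_span ⟨y, by simpa using hy, rfl⟩
  | mul_simple_right w i ih =>
    rw [C.h3_E, ← mul_assoc]
    generalize C.TJ J y * C.TJ J w = ξ at ih
    induction ih using Submodule.span_induction with
    | zero => simp
    | add a b _ _ ha hb =>
      rw [add_mul]
      exact add_mem ha hb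
    | smul r a _ ha =>
      rw [smul_mul_assoc]
      exact Submodule.smul_mem _ r ha
    | mem a ha =>
      obtain ⟨g, ⟨h1, h2⟩, rfl⟩ := ha
      have e1 : g * cs.simple i * (w * cs.simple i)⁻¹ = g * w⁻¹ := by group
      have m1 : C.TJ J (g * cs.simple i) ∈ Submodule.span Rq (C.TJ J ''
          {g | g * (w * cs.simple i)⁻¹ ∈ C.YJ J ∧
            C.degW J (g * (w * cs.simple i)⁻¹) = C.degW J y}) :=
        Submodule.subset_span ⟨_, ⟨by rwa [e1], by rwa [e1]⟩, rfl⟩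
      rcases C.supp_step hJ w i with h | ⟨h3, h4⟩
      · have := h _ h1
        rw [inv_mul_cancel_right] at this
        have e := C.h3_E J g i
        rw [if_congr (Q := C.lenJ J w < C.lenJ J (w * cs.simple i)) (by omega) rfl rfl] at e
        rwa [← e]
      · have e2 : g * (w * cs.simple i)⁻¹ = g * w⁻¹ * (w * cs.simple i * w⁻¹) := by
          rw [mul_inv_rev, cs.inv_simple]
          group
        have m2 : C.TJ J g ∈ Submodule.span Rq (C.TJ J ''
            {g | g * (w * cs.simple i)⁻¹ ∈ C.YJ J ∧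
              C.degW J (g * (w * cs.simple i)⁻¹) = C.degW J y}) :=
          Submodule.subset_span ⟨_, ⟨by
            rw [e2]
            exact mul_mem h1 h3, by rw [e2, C.degW_mul hJ h1, h2, h4, add_zero]⟩, rfl⟩
        have m3 : C.TJ J g * C.Ts i ∈ Submodule.span Rq (C.TJ J ''
            {g | g * (w * cs.simple i)⁻¹ ∈ C.YJ J ∧
              C.degW J (g * (w * cs.simple i)⁻¹) = C.degW J y}) := by
          rw [C.TJ_mul_Ts]
          split_ifs
          · exact m1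
          · exact add_mem m1 (Submodule.smul_mem _ _ m2)
        split_ifs
        · exact m3
        · rw [mul_sub, ← Algebra.commutes, ← Algebra.smul_def]
          exact sub_mem m3 (Submodule.smul_mem _ _ m2)

theorem h3_mem_HJ {J : Finset B} (hJ : J ⊆ C.S0) (K : Finset B) {u : W} (hu : u ∈ C.WJ J) :
    C.TJ K u ∈ C.HJ J := by
  refine C.WJ_induction hJ (p := fun u => C.TJ K u ∈ C.HJ J) (by simp) ?_ hu
  intro u _ j hj _ ih
  have hs : C.Ts j ∈ C.HJ J := Algebra.subset_adjoin (Or.inl ⟨j, hj, rfl⟩)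
  rw [C.h3_E]
  refine mul_mem ih ?_
  split_ifs
  · exact hs
  · exact sub_mem hs (Subalgebra.algebraMap_mem _ _)

theorem Tb_mem_HJ {J : Finset B} (hJ : J ⊆ C.S0) {u : W} (hu : u ∈ C.WJ J) :
    C.Tb u ∈ C.HJ J := by
  rw [← C.TJ_S0]
  exact C.h3_mem_HJ hJ _ hu

theorem th_mem_HJ (J : Finset B) (x : Lat C.n) : C.th x ∈ C.HJ J := by
  exact Algebra.subset_adjoin (Or.inr ⟨x, rfl⟩)

theorem TJ_empty_mem_HJ {J : Finset B} (hJ : J ⊆ C.S0) {u : W} (hu : u ∈ C.WJ J) :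
    C.TJ ∅ u ∈ C.HJ J := by
  exact C.h3_mem_HJ hJ _ hu

theorem TJ_mem_HJ {J : Finset B} (hJ : J ⊆ C.S0) {y : W} (hy : y ∈ C.YJ J) :
    C.TJ J y ∈ C.HJ J := by
  obtain ⟨u, hu, x, -, v, hv, e, -, h⟩ := C.TJ_normal hJ y
  have h1 := (C.mem_YJ hJ).1 hy
  rw [e, C.fp_mul, C.fp_tr_mul x hv, C.fp_W0 (C.WJ_mono hJ hu)] at h1
  have h2 : v ∈ C.WJ J := by simpa using mul_mem (inv_mem hu) h1
  rw [h]
  exact mul_mem (mul_mem (C.Tb_mem_HJ hJ hu) (C.th_mem_HJ J x)) (C.TJ_empty_mem_HJ hJ h2)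

theorem HJ_mono {J I : Finset B} (h : J ⊆ I) : C.HJ J ≤ C.HJ I := by
  exact Algebra.adjoin_mono
    (Set.union_subset_union_left _ (Set.image_mono (Finset.coe_subset.2 h)))

theorem HJ_S0 : C.HJ C.S0 = ⊤ := by
  refine eq_top_iff.2 fun a _ => ?_
  rw [← C.Tb.linearCombination_repr a, Finsupp.linearCombination_apply, Finsupp.sum]
  refine sum_mem fun w _ => Subalgebra.smul_mem _ ?_ _
  rw [← C.TJ_S0]
  exact C.TJ_mem_HJ subset_rfl ((C.mem_YJ subset_rfl).2 (C.fp_mem w))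

theorem exists_left_boundJ {J : Finset B} (hJ : J ⊆ C.S0) {a : H} (ha : a ∈ C.HJ J) :
    ∃ N : ℕ, ∀ g, a * C.TJ J g ∈ Dg (C.bJ J) N := by
  obtain ⟨N, hN⟩ := C.exists_left_bound a
  refine ⟨N, C.left_bound_of_comm J (fun k => ?_) hN⟩
  rw [← C.th_z]
  exact C.HJ_comm_th hJ ha (C.h3_fix_kz hJ k)

/-- uniform bound for dominant `θ_x`: add a multiple of `z J` -/
theorem th_bound {J : Finset B} (hJ : J ⊆ C.S0) {x : Lat C.n} (hx : C.Dom J x) (g : W) :
    C.th x * C.TJ J g ∈ Dg (C.bJ J) C.Nb := by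
  obtain ⟨k1, hk1⟩ := (C.h3_dom_ev hx).exists
  obtain ⟨k, h1, h2⟩ := ((C.TJ_spec J g).and ((Filter.tendsto_add_atTop_nat k1).eventually
    (C.repr_eventually J (C.th x * C.TJ J g)))).exists
  have h3 : C.Tb (C.tr (((k + k1 : ℕ) : ℤ) • C.z J)) * (C.th x * C.TJ J g) ∈ Dg C.Tb C.Nb := by
    rw [← C.th_z, ← mul_assoc, ← C.th_add]
    have e : ((k + k1 : ℕ) : ℤ) • C.z J + x = x + (k1 : ℤ) • C.z J + (k : ℤ) • C.z J := by
      rw [Nat.cast_add, add_smul]
      abel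
    rw [e, C.th_add, C.th_z, mul_assoc, h1, C.th_dom subset_rfl hk1, C.TJ_S0]
    exact C.hN _ _
  intro w
  have := h3 (C.tr (((k + k1 : ℕ) : ℤ) • C.z J) * w)
  rwa [h2, Finsupp.mapDomain_apply (mul_right_injective _)] at this

theorem Tb_bound {J : Finset B} (hJ : J ⊆ C.S0) {u : W} (hu : u ∈ C.WJ J) (g : W) :
    C.Tb u * C.TJ J g ∈ Dg (C.bJ J) C.Nb := by
  refine C.left_bound_of_comm J (fun k => ?_) (C.hN u) g
  rw [← C.th_z]
  exact C.Tb_comm_th hJ hu (C.h3_fix_kz hJ k)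

end HC

end Pool.Agent.P.MP_74db7f_al
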