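import Pool.Agent.P.MP_74db7f_al.F.HD2

/-! H4: the Bernstein relation, the centre, `ι_s` (paper, sections 1, 2). -/

namespace Pool.Agent.P.MP_74db7f_al

open scoped Classical

namespace HC

variable {B W H : Type*} [Group W] {M : CoxeterMatrix B} {cs : CoxeterSystem M W} [Ring H]
  [Algebra Rq H] (C : HC cs H)

theorem h4_ind {R : Type*} [CommRing R] {n : ℕ} {p : LA R n → Prop} (hm : ∀ x, p (mon x))
    (hadd : ∀ f g, p f → p g → p (f + g)) (hsmul : ∀ (r : R) f, p f → p (r • f)) (f : LA R n) :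
    p f :=
  AddMonoidAlgebra.induction_on f hm hadd hsmul

theorem h4_mon_add {R : Type*} [CommRing R] {n : ℕ} (x y : Lat n) :
    (mon (x + y) : LA R n) = mon x * mon y := by
  simp [mon, AddMonoidAlgebra.single_mul_single]

theorem h4_mon_zero {R : Type*} [CommRing R] {n : ℕ} : (mon 0 : LA R n) = 1 := rfl

theorem h4_mon_neg {R : Type*} [CommRing R] {n : ℕ} (x : Lat n) :
    (mon x : LA R n) * mon (-x) = 1 := by
  rw [← h4_mon_add, add_neg_cancel, h4_mon_zero]

theorem h4_coeff_mon {R : Type*} [CommRing R] {n : ℕ} (x y : Lat n) :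
    (mon x : LA R n).coeff y = if x = y then 1 else 0 := by
  simp [mon, Finsupp.single_apply]

theorem h4_sr_co (i : B) : C.sr i (C.co (C.sr i)) = 2 := (C.co_spec (C.sr_mem i)).1

theorem h4_gr_co (i : B) : C.gr (cs.simple i) (C.co (C.sr i)) = -C.co (C.sr i) := by
  rw [C.gr_simple, C.h4_sr_co, two_smul, sub_add_cancel_left]

theorem h4_th_neg (x : Lat C.n) : C.th x * C.th (-x) = 1 := by
  rw [← C.th_add, add_neg_cancel, C.th_zero]

theorem h4_root {i : B} (hi : i ∈ C.S0) {γ : Du C.n} (h : γ ∈ C.Rp) (h0 : γ (C.z {i}) = 0) :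
    γ = C.sr i := by
  obtain ⟨u, hu, j, hj, e⟩ := C.exists_simple (Finset.singleton_subset_iff.2 hi)
    (C.mem_Rp.1 h).1 h0
  obtain rfl := Finset.mem_singleton.1 hj
  have h1 : u = 1 ∨ u = cs.simple j := by
    clear e
    induction hu using Subgroup.closure_induction with
    | mem x hx => exact Or.inr (by simpa [eq_comm] using hx)
    | one => exact Or.inl rfl
    | mul a b _ _ ha hb => rcases ha with rfl | rfl <;> rcases hb with rfl | rfl <;> simp
    | inv a _ ha => rcases ha with rfl | rfl <;> simp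
  rcases h1 with rfl | rfl
  · simpa using e
  · have h2 := congrArg (C.pb (cs.simple j)) e
    rw [C.pb_simple_simple, C.pb_simple_sr] at h2
    exact absurd (C.sr_mem_Rp hi) ((C.neg_mem_Rp (C.sr_mem j)).1 (h2 ▸ h))

theorem h4_mem_YJ (i : B) (x : Lat C.n) : C.tr x * cs.simple i ∈ C.YJ {i} :=
  mul_mem (Subgroup.subset_closure (Or.inl ⟨x, rfl⟩))
    (Subgroup.subset_closure (Or.inr ⟨i, by simp, rfl⟩))

theorem h4_mu {i : B} (hi : i ∈ C.S0) (x : Lat C.n) :
    C.mu (C.tr x * cs.simple i) (C.sr i) = C.sr i x - 1 := by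
  rw [C.mu_tr _ _ _ (C.sr_mem i), C.mu_simple, C.S0_pos i hi]
  ring

theorem h4_th_up {i : B} (hi : i ∈ C.S0) {x : Lat C.n} (hx : 1 ≤ C.sr i x) :
    C.th x = C.TJ {i} (C.tr x * cs.simple i) * C.Ts i := by
  have h1 := C.lenJ_up {i} (w := C.tr x * cs.simple i) (i := i) (C.sr_mem_Rp hi) (by
    rw [C.pb_mul, C.pb_tr, C.pb_simple_sr])
  rw [if_pos (C.sr_z_mem hi (Finset.mem_singleton_self i)), C.h4_mu hi,
    abs_of_nonneg (by omega), abs_of_nonneg (by omega)] at h1
  rw [← C.TJ_up {i} (by omega), mul_assoc, cs.simple_mul_simple_self, mul_one]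
  exact C.th_dom (Finset.singleton_subset_iff.2 hi) fun j hj => by
    rw [Finset.mem_singleton.1 hj]; omega

include C in
theorem h4_algebraMap_inj : Function.Injective (algebraMap Rq H) := by
  intro r r' h
  rw [Algebra.algebraMap_eq_smul_one, Algebra.algebraMap_eq_smul_one, ← C.Tb_one] at h
  simpa [-Tb_one] using congrArg (fun y => C.Tb.repr y 1) h

@[simp] theorem Th_mon (x : Lat C.n) : C.Th (mon x) = C.th x := by
  simp [Th, mon]

@[simp] theorem act_mon (w : W) (x : Lat C.n) : C.act w (mon x) = mon (C.gr w x) := by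
  simp [act, mon]

theorem act_mul (w w' : W) (f : LA Rq C.n) : C.act (w * w') f = C.act w (C.act w' f) := by
  induction f using h4_ind with
  | hm x => simp
  | hadd f g hf hg => simp only [map_add, hf, hg]
  | hsmul r f hf => simp only [map_smul, hf]

@[simp] theorem act_one (f : LA Rq C.n) : C.act 1 f = f := by
  induction f using h4_ind with
  | hm x => simp
  | hadd f g hf hg => simp only [map_add, hf, hg]
  | hsmul r f hf => simp only [map_smul, hf]

@[simp] theorem cstar_mon {R : Type*} [CommRing R] {n : ℕ} (x : Lat n) :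
    cstar (mon x : LA R n) = mon (-x) := by
  simp [cstar, mon]

theorem Th_mem_HJ (J : Finset B) (f : LA Rq C.n) : C.Th f ∈ C.HJ J := by
  induction f using h4_ind with
  | hm x => rw [Th_mon]; exact C.th_mem_HJ J x
  | hadd f g hf hg => rw [map_add]; exact add_mem hf hg
  | hsmul r f hf => rw [map_smul]; exact Subalgebra.smul_mem _ hf r

theorem repr_Th (f : LA Rq C.n) {v v' : W} (hv : v ∈ C.W0) (hv' : v' ∈ C.W0) (x : Lat C.n) :
    (C.bJ ∅).repr (C.Th f * C.TJ ∅ v) (C.tr x * v') = if v = v' then f.coeff x else 0 := by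
  induction f using h4_ind with
  | hm y =>
    rw [Th_mon, C.th_mul_TJ_empty, ← C.bJ_apply, Module.Basis.repr_self, Finsupp.single_apply,
      h4_coeff_mon]
    by_cases h : C.tr y * v = C.tr x * v'
    · have h1 := congrArg C.xp h
      have h2 := congrArg C.fp h
      rw [C.xp_tr_mul _ hv, C.xp_tr_mul _ hv'] at h1
      rw [C.fp_tr_mul _ hv, C.fp_tr_mul _ hv'] at h2
      rw [if_pos h, if_pos h2, if_pos h1]
    · rw [if_neg h]
      split_ifs with h1 h2
      · exact absurd (by rw [h1, h2]) h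
      · rfl
      · rfl
  | hadd f g hf hg =>
    rw [map_add, add_mul, map_add, Finsupp.add_apply, hf, hg]
    split_ifs <;> simp
  | hsmul r f hf =>
    rw [map_smul, smul_mul_assoc, map_smul, Finsupp.smul_apply, hf]
    split_ifs <;> simp

/-- `H` is a free left module over `A` -/
theorem exists_coord (h : H) : ∃ f : W → LA Rq C.n,
    h = ∑ v ∈ C.WF C.S0, C.Th (f v) * C.TJ ∅ v := by
  have hh : h ∈ Submodule.span Rq (Set.range (C.bJ ∅)) := (C.bJ ∅).span_eq ▸ Submodule.mem_top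
  induction hh using Submodule.span_induction with
  | mem _ hx =>
    obtain ⟨w, rfl⟩ := hx
    refine ⟨Pi.single (C.fp w) (mon (C.xp w)), ?_⟩
    rw [Finset.sum_eq_single_of_mem (C.fp w) ((C.mem_WF subset_rfl).2 (C.fp_mem w))
      fun v _ hv => by simp [Pi.single_eq_of_ne hv]]
    rw [Pi.single_eq_same, Th_mon, C.th_mul_TJ_empty, C.tr_xp_fp, C.bJ_apply]
  | zero => exact ⟨0, by simp⟩
  | add _ _ _ _ ha hb =>
    obtain ⟨f, rfl⟩ := ha
    obtain ⟨g, rfl⟩ := hb
    exact ⟨f + g, by simp [add_mul, Finset.sum_add_distrib]⟩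
  | smul r _ _ ha =>
    obtain ⟨f, rfl⟩ := ha
    exact ⟨r • f, by simp [Finset.smul_sum]⟩

theorem Th_mul_eq_zero {f : LA Rq C.n} (hf : f ≠ 0) {h : H} (e : C.Th f * h = 0) : h = 0 := by
  obtain ⟨g, rfl⟩ := C.exists_coord h
  refine Finset.sum_eq_zero fun v hv => ?_
  have h1 : f * g v = 0 := by
    ext x : 2
    have h2 := congrArg (fun y => (C.bJ ∅).repr y (C.tr x * v)) e
    simp only [Finset.mul_sum, ← mul_assoc, ← map_mul, map_sum, Finsupp.finsetSum_apply, map_zero,
      Finsupp.zero_apply] at h2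
    rw [Finset.sum_eq_single_of_mem v hv fun u hu huv => by
      rw [C.repr_Th _ ((C.mem_WF subset_rfl).1 hu) ((C.mem_WF subset_rfl).1 hv), if_neg huv],
      C.repr_Th _ ((C.mem_WF subset_rfl).1 hv) ((C.mem_WF subset_rfl).1 hv), if_pos rfl] at h2
    simpa using h2
  rw [(mul_eq_zero.1 h1).resolve_left hf, map_zero, zero_mul]

theorem Th_injective : Function.Injective C.Th := by
  rw [injective_iff_map_eq_zero]
  intro f hf
  by_contra h
  exact C.Tb.ne_zero 1 (C.Th_mul_eq_zero h (by rw [hf, zero_mul]))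

theorem dd_ne_zero {γ : Du C.n} (h : γ ∈ C.R) : C.dd γ ≠ 0 := by
  intro e
  have h1 := congrArg (fun f : LA Rq C.n => f.coeff (C.co γ)) (sub_eq_zero.1 e)
  simp only [h4_coeff_mon, if_true] at h1
  rw [if_neg fun e => ?_] at h1
  · exact one_ne_zero h1
  · have h2 := congrArg γ e
    rw [map_neg, (C.co_spec h).1] at h2
    omega

theorem act_dd (w : W) {γ : Du C.n} (h : γ ∈ C.R) : C.act w (C.dd (C.pb w γ)) = C.dd γ := by
  simp only [dd, map_sub, act_mon, map_neg, C.co_pb w h]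

theorem act_simple_dd (i : B) : C.act (cs.simple i) (C.dd (C.sr i)) = -C.dd (C.sr i) := by
  simp only [dd, map_sub, act_mon, map_neg, h4_gr_co, neg_neg, neg_sub]

/-- the next wall: `exists_wall` for `-sr i` at level `-1`, `wall_refl`, `TJ_strip` -/
theorem nx_spec {i : B} (hi : i ∈ C.S0) :
    C.th (C.co (C.sr i)) * C.Ts i - C.Ts i * C.th (-C.co (C.sr i)) =
      C.cq i • C.th (C.co (C.sr i)) + algebraMap Rq H (C.cq (C.nx i)) := by
  refine @Classical.epsilon_spec B (fun i' : B =>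
    C.th (C.co (C.sr i)) * C.Ts i - C.Ts i * C.th (-C.co (C.sr i)) =
      C.cq i • C.th (C.co (C.sr i)) + algebraMap Rq H (C.cq i')) ?_
  have hr := C.sr_mem i
  obtain ⟨g, j, e, hg⟩ := C.exists_wall (C.neg_mem _ hr) (-1)
  have h0 : C.mu g (C.sr i) = 0 := by
    have := C.mu_neg g _ hr
    omega
  have h1 := C.wall_refl (C.neg_mem _ hr) e
  rw [hg, (C.co_neg hr).1, (C.co_neg hr).2, C.rf_sr hi, neg_smul_neg, one_smul,
    mul_inv_eq_iff_eq_mul] at h1
  have h2 := C.TJ_strip (K := {i}) subset_rfl (Finset.singleton_subset_iff.2 hi) (g := g)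
    (fun γ h h' => by rw [C.h4_root hi h h', h0]) (C.h4_mem_YJ i (C.co (C.sr i)))
  have h3 := C.lenJ_up {i} (w := g) (i := j) (C.sr_mem_Rp hi) (by rw [← e, C.pb_neg, neg_neg])
  rw [if_pos (C.sr_z_mem hi (Finset.mem_singleton_self i)), h0] at h3
  rw [← h1, C.TJ_up {i} (by simp at h3; omega)] at h2
  have h4 := C.h4_th_up hi (x := C.co (C.sr i)) (by rw [C.h4_sr_co]; omega)
  generalize C.TJ {i} (C.tr (C.co (C.sr i)) * cs.simple i) = τ at h2 h4
  have h5 : (τ - algebraMap Rq H (C.cq j)) * τ = 1 := by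
    refine (C.isUnit_TJ {i} g).mul_right_cancel ?_
    rw [mul_assoc, ← h2, ← mul_assoc, sub_mul, ← h2, Algebra.commutes, ← mul_sub, mul_assoc,
      (C.Ts_mul_inv j).2, mul_one, one_mul]
  have h6 : C.Ts i * C.th (-C.co (C.sr i)) = τ - algebraMap Rq H (C.cq j) := by
    rw [← one_mul (C.Ts i * _), ← h5, mul_assoc, ← mul_assoc τ, ← h4, C.h4_th_neg, mul_one]
  refine ⟨j, ?_⟩
  rw [h6, h4, mul_assoc, C.Ts_sq, mul_add, mul_one, mul_smul_comm]
  abel

theorem bern_odd {i : B} (hi : i ∈ C.S0) {x : Lat C.n} (hx : C.sr i x = 1) :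
    C.th x * C.Ts i - C.Ts i * C.th (C.gr (cs.simple i) x) = C.cq i • C.th x := by
  have hx' : C.sr i (-C.gr (cs.simple i) x) = 1 := by
    rw [map_neg, C.gr_simple, map_sub, map_smul, C.h4_sr_co, hx]
    norm_num
  have h1 := C.h4_th_up hi hx.ge
  have h2 := C.h4_th_up hi hx'.ge
  have h3 := C.TJ_strip (K := {i}) subset_rfl (Finset.singleton_subset_iff.2 hi)
    (g := C.tr (-C.gr (cs.simple i) x) * cs.simple i)
    (fun γ h h' => by rw [C.h4_root hi h h', C.h4_mu hi, hx', sub_self]) (C.h4_mem_YJ i x)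
  have h4 : C.tr x * cs.simple i * (C.tr (-C.gr (cs.simple i) x) * cs.simple i) = 1 := by
    rw [mul_assoc, ← mul_assoc (cs.simple i), C.conj, mul_assoc, cs.simple_mul_simple_self,
      mul_one, ← C.tr_add, map_neg, ← C.gr_mul, cs.simple_mul_simple_self, map_one]
    simp
  rw [h4, C.TJ_one] at h3
  have h5 : C.Ts i * C.th (C.gr (cs.simple i) x) = C.TJ {i} (C.tr x * cs.simple i) := by
    have h6 := C.h4_th_neg (-C.gr (cs.simple i) x)
    rw [neg_neg, h2] at h6
    rw [← one_mul (C.Ts i * _), h3, mul_assoc, ← mul_assoc (C.TJ _ _) (C.Ts i), h6, mul_one]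
  rw [h5, h1, mul_assoc, C.Ts_sq, mul_add, mul_one, mul_smul_comm]
  abel

/-- Bernstein relation -/
theorem bern {i : B} (hi : i ∈ C.S0) (f : LA Rq C.n) : ∃ g : LA Rq C.n,
    C.Th f * C.Ts i - C.Ts i * C.Th (C.act (cs.simple i) f) = C.Th g ∧
      g * C.dd (C.sr i) = C.nn i * (f - C.act (cs.simple i) f) := by
  let P : LA Rq C.n → Prop := fun f => ∃ g : LA Rq C.n,
    C.Th f * C.Ts i - C.Ts i * C.Th (C.act (cs.simple i) f) = C.Th g ∧
      g * C.dd (C.sr i) = C.nn i * (f - C.act (cs.simple i) f)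
  have hmul : ∀ f f', P f → P f' → P (f * f') := by
    rintro f f' ⟨g, h1, h2⟩ ⟨g', h3, h4⟩
    refine ⟨f * g' + g * C.act (cs.simple i) f', ?_, ?_⟩
    · simp only [map_mul, map_add, ← h1, ← h3]
      noncomm_ring
    · rw [map_mul]
      linear_combination f * h4 + C.act (cs.simple i) f' * h2
  let S : AddSubgroup (Lat C.n) :=
    { carrier := {x | P (mon x)}
      zero_mem' := ⟨0, by simp [h4_mon_zero], by simp [h4_mon_zero]⟩
      add_mem' := fun {x y} hx hy => by
        show P (mon (x + y))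
        rw [h4_mon_add]
        exact hmul _ _ hx hy
      neg_mem' := fun {x} ⟨g, h1, h2⟩ => by
        refine ⟨-(mon (-x) * g * mon (-C.gr (cs.simple i) x)), ?_, ?_⟩
        · have h3 := C.h4_th_neg (-x)
          rw [neg_neg] at h3
          simp only [map_neg, map_mul, ← h1, Th_mon, act_mon]
          rw [mul_sub, sub_mul, ← mul_assoc, h3, one_mul, mul_assoc, mul_assoc, C.h4_th_neg,
            mul_one, neg_sub]
        · simp only [act_mon, map_neg] at h2 ⊢
          linear_combination (-(mon (-x) * mon (-C.gr (cs.simple i) x))) * h2 -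
            C.nn i * mon (-C.gr (cs.simple i) x) * h4_mon_neg (R := Rq) x +
            C.nn i * mon (-x) * h4_mon_neg (R := Rq) (C.gr (cs.simple i) x) }
  have h0 : ∀ x, C.sr i x = 0 → x ∈ S := fun x hx => by
    have e : C.gr (cs.simple i) x = x := by rw [C.gr_simple, hx, zero_smul, sub_zero]
    exact ⟨0, by rw [act_mon, e, Th_mon, (C.Ts_comm_th hi hx).eq, sub_self, map_zero], by
      rw [act_mon, e, sub_self, mul_zero, zero_mul]⟩
  have h2 : C.co (C.sr i) ∈ S := ⟨C.nn i, by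
    rw [act_mon, h4_gr_co, Th_mon, Th_mon, C.nx_spec hi, nn, map_add, map_smul, Th_mon,
      AlgHom.commutes], by rw [act_mon, h4_gr_co, dd]⟩
  have h1 : ∀ x, C.sr i x = 1 → x ∈ S := fun x hx => by
    have e : C.gr (cs.simple i) x = x + -C.co (C.sr i) := by
      rw [C.gr_simple, hx, one_smul, sub_eq_add_neg]
    have hy : C.sr i (C.co (C.sr i) + -x) = 1 := by
      rw [map_add, map_neg, C.h4_sr_co, hx]
      norm_num
    have hc : C.cq (C.nx i) = C.cq i := by
      have h3 := C.bern_odd hi hx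
      have h4 := C.bern_odd hi hy
      have h5 := C.nx_spec hi
      rw [e] at h3
      rw [map_add, map_neg, C.gr_simple _ (C.co _), e, C.h4_sr_co,
        show C.co (C.sr i) - (2 : ℤ) • C.co (C.sr i) + -(x + -C.co (C.sr i)) = -x by
          rw [two_smul]; abel] at h4
      have e1 : C.th (C.co (C.sr i)) = C.th x * C.th (C.co (C.sr i) + -x) := by
        rw [← C.th_add]
        congr 1
        abel
      have e2 : C.th (-C.co (C.sr i)) = C.th (x + -C.co (C.sr i)) * C.th (-x) := by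
        rw [← C.th_add]
        congr 1
        abel
      have h6 : C.th (C.co (C.sr i)) * C.Ts i - C.Ts i * C.th (-C.co (C.sr i)) =
          C.th x * (C.th (C.co (C.sr i) + -x) * C.Ts i - C.Ts i * C.th (-x)) +
            (C.th x * C.Ts i - C.Ts i * C.th (x + -C.co (C.sr i))) * C.th (-x) := by
        rw [e2]
        nth_rewrite 1 [e1]
        noncomm_ring
      rw [h3, h4, h5, mul_smul_comm, ← e1, smul_mul_assoc, C.h4_th_neg,
        ← Algebra.algebraMap_eq_smul_one, add_right_inj] at h6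
      exact C.h4_algebraMap_inj h6
    refine ⟨C.cq i • mon x, by rw [act_mon, Th_mon, Th_mon, C.bern_odd hi hx, map_smul, Th_mon], ?_⟩
    rw [act_mon, e, nn, hc, dd, h4_mon_add, Algebra.smul_def, Algebra.smul_def]
    linear_combination (algebraMap Rq (LA Rq C.n) (C.cq i) * mon x) *
      h4_mon_neg (R := Rq) (C.co (C.sr i))
  induction f using h4_ind with
  | hm x =>
    have h3 : x - (C.sr i x / 2) • C.co (C.sr i) ∈ S := by
      have e : C.sr i (x - (C.sr i x / 2) • C.co (C.sr i)) = C.sr i x % 2 := by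
        rw [map_sub, map_smul, C.h4_sr_co, smul_eq_mul]
        omega
      rcases Int.emod_two_eq_zero_or_one (C.sr i x) with h | h
      · exact h0 _ (e.trans h)
      · exact h1 _ (e.trans h)
    have h4 := S.add_mem h3 (S.zsmul_mem h2 (C.sr i x / 2))
    rw [sub_add_cancel] at h4
    exact h4
  | hadd f f' hf hf' =>
    obtain ⟨g, h3, h4⟩ := hf
    obtain ⟨g', h5, h6⟩ := hf'
    refine ⟨g + g', ?_, ?_⟩
    · simp only [map_add, ← h3, ← h5]
      noncomm_ring
    · rw [map_add]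
      linear_combination h4 + h6
  | hsmul r f hf =>
    obtain ⟨g, h3, h4⟩ := hf
    refine ⟨r • g, ?_, ?_⟩
    · simp only [map_smul, ← h3, smul_sub, smul_mul_assoc, mul_smul_comm]
    · rw [map_smul, smul_mul_assoc, h4, ← smul_sub, mul_smul_comm]

theorem Th_comm {J : Finset B} (hJ : J ⊆ C.S0) {f : LA Rq C.n}
    (hf : ∀ j ∈ J, C.act (cs.simple j) f = f) {a : H} (ha : a ∈ C.HJ J) :
    Commute (C.Th f) a := by
  refine Algebra.commute_of_mem_adjoin_of_forall_mem_commute ha ?_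
  rintro _ (⟨j, hj, rfl⟩ | ⟨x, rfl⟩)
  · obtain ⟨g, h1, h2⟩ := C.bern (hJ hj) f
    rw [hf j hj] at h1 h2
    rw [sub_self, mul_zero] at h2
    rw [(mul_eq_zero.1 h2).resolve_right (C.dd_ne_zero (C.sr_mem j)), map_zero] at h1
    exact sub_eq_zero.1 h1
  · rw [← Th_mon]
    exact (Commute.all _ _).map C.Th

theorem Th_central {f : LA Rq C.n} (hf : ∀ j ∈ C.S0, C.act (cs.simple j) f = f) (a : H) :
    Commute (C.Th f) a := by
  exact C.Th_comm subset_rfl hf (C.HJ_S0 ▸ Algebra.mem_top)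

theorem ip_empty_Th (f : LA Rq C.n) (ξ η : H) :
    C.ip ∅ (C.Th f * ξ) η = C.ip ∅ ξ (C.Th (cstar f) * η) := by
  induction f using h4_ind with
  | hm x =>
    have : (C.ip ∅).compl₁₂ (LinearMap.mulLeft Rq (C.th x)) LinearMap.id =
        (C.ip ∅).compl₁₂ LinearMap.id (LinearMap.mulLeft Rq (C.th (-x))) := by
      refine LinearMap.ext_basis (C.bJ ∅) (C.bJ ∅) fun w w' => ?_
      simp only [LinearMap.compl₁₂_apply, LinearMap.mulLeft_apply, LinearMap.id_apply, C.bJ_apply,
        C.th_mul_TJ_empty, C.ip_TJ]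
      rw [← C.bJ_apply, ← C.bJ_apply, Module.Basis.repr_self, Module.Basis.repr_self,
        Finsupp.single_apply, Finsupp.single_apply, C.tr_neg]
      simp only [inv_mul_eq_iff_eq_mul]
    rw [cstar_mon, Th_mon, Th_mon]
    exact LinearMap.congr_fun₂ this ξ η
  | hadd f g hf hg => simp only [map_add, add_mul, LinearMap.add_apply, hf, hg]
  | hsmul r f hf => simp only [map_smul, smul_mul_assoc, LinearMap.smul_apply, hf]

theorem flat_Th_central {f : LA Rq C.n} (hf : ∀ a, Commute (C.Th f) a) :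
    C.flat (C.Th f) = C.Th (cstar f) := by
  refine (C.bJ ∅).ext_elem fun w => ?_
  rw [← C.ip_TJ, ← C.ip_TJ, ← one_mul (C.flat _), ← C.ip_mul_right, ← (hf _).eq, C.ip_empty_Th,
    mul_one]

theorem Th_mul_iot {i : B} (hi : i ∈ C.S0) (f : LA Rq C.n) :
    C.Th f * C.iot i = C.iot i * C.Th (C.act (cs.simple i) f) := by
  obtain ⟨g, h1, h2⟩ := C.bern hi f
  have h3 := congrArg C.Th ((mul_comm _ _).trans h2)
  have h4 := ((Commute.all f (C.dd (C.sr i))).map C.Th).eq
  have h5 := ((Commute.all f (C.nn i)).map C.Th).eq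
  rw [map_mul, map_mul, map_sub, ← h1, mul_sub, mul_sub] at h3
  rw [iot, mul_sub, sub_mul, ← mul_assoc, h4, h5, mul_assoc, mul_assoc, sub_eq_sub_iff_sub_eq_sub]
  exact h3

theorem iot_mul_Th {i : B} (hi : i ∈ C.S0) (f : LA Rq C.n) :
    C.iot i * C.Th f = C.Th (C.act (cs.simple i) f) * C.iot i := by
  rw [C.Th_mul_iot hi, ← C.act_mul, cs.simple_mul_simple_self, C.act_one]

theorem iot_eq {i : B} (hi : i ∈ C.S0) :
    C.iot i = C.Th (C.nn i) - C.Ts i * C.Th (C.dd (C.sr i)) := by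
  obtain ⟨g, h1, h2⟩ := C.bern hi (C.dd (C.sr i))
  rw [C.act_simple_dd] at h1 h2
  have h3 : g = C.nn i + C.nn i :=
    mul_right_cancel₀ (C.dd_ne_zero (C.sr_mem i)) (by linear_combination h2)
  rw [h3, map_neg, map_add, mul_neg, sub_neg_eq_add] at h1
  rw [iot, sub_eq_sub_iff_add_eq_add, h1]

theorem iot_sq {i : B} (hi : i ∈ C.S0) : C.iot i * C.iot i = C.Th (C.NN i) := by
  have h1 : C.nn i = C.act (cs.simple i) (C.nn i) + C.dd (C.sr i) * algebraMap Rq _ (C.cq i) := by
    simp only [nn, dd, map_add, act_mon, h4_gr_co, AlgHom.commutes, Algebra.smul_def, map_mul]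
    ring
  have h2 : C.iot i * C.Ts i =
      C.Th (C.dd (C.sr i)) - C.Th (C.act (cs.simple i) (C.nn i)) * C.Ts i := by
    rw [iot]
    nth_rewrite 1 [h1]
    rw [map_add, map_mul, AlgHom.commutes, ← sub_sub, sub_right_comm, ← mul_sub, sub_mul,
      mul_assoc, (C.Ts_mul_inv i).2, mul_one]
  nth_rewrite 2 [C.iot_eq hi]
  rw [mul_sub, ← mul_assoc, h2, C.iot_mul_Th hi, C.iot_eq hi, NN, mul_comm (C.nn i), map_sub,
    map_mul, map_mul]
  noncomm_ring

theorem iot_mem_HJ {J : Finset B} {j : B} (hj : j ∈ J) : C.iot j ∈ C.HJ J := by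
  exact sub_mem (mul_mem (C.Th_mem_HJ J _) (Algebra.subset_adjoin (Or.inl ⟨j, hj, rfl⟩)))
    (C.Th_mem_HJ J _)

/-- `N_s = -θ_{-2a} (θ_a - Q)(θ_a - Q⁻¹)(θ_a + Q')(θ_a + Q'⁻¹)` -/
theorem NN_fac {i : B} (hi : i ∈ C.S0) : ∃ l : List (LA Rq C.n),
    (∀ f ∈ l, C.Lin (· = C.co (C.sr i)) f) ∧
      C.NN i = -mon (-(2 : ℤ) • C.co (C.sr i)) * l.prod := by
  set a := C.co (C.sr i) with ha
  set k : ℤ := ((C.L (cs.simple i) : ℕ) : ℤ) with hk
  set k' : ℤ := ((C.L (cs.simple (C.nx i)) : ℕ) : ℤ) with hk'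
  refine ⟨[mon a - algebraMap Rq _ (((1 : ℤˣ) : ℤ) • LaurentPolynomial.T (k + k')),
    mon a - algebraMap Rq _ (((1 : ℤˣ) : ℤ) • LaurentPolynomial.T (-k + -k')),
    mon a - algebraMap Rq _ (((-1 : ℤˣ) : ℤ) • LaurentPolynomial.T (k + -k')),
    mon a - algebraMap Rq _ (((-1 : ℤˣ) : ℤ) • LaurentPolynomial.T (-k + k'))], ?_, ?_⟩
  · intro f hf
    simp only [List.mem_cons, List.not_mem_nil, or_false] at hf
    rcases hf with rfl | rfl | rfl | rfl <;> exact ⟨a, rfl, _, _, rfl⟩
  · have h1 := h4_mon_neg (R := Rq) a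
    have h2 : ∀ k : ℤ, algebraMap Rq (LA Rq C.n) (LaurentPolynomial.T k) *
        algebraMap Rq _ (LaurentPolynomial.T (-k)) = 1 := fun k => by
      rw [← map_mul, ← LaurentPolynomial.T_add, add_neg_cancel, LaurentPolynomial.T_zero, map_one]
    have h3 := h2 k
    have h4 := h2 k'
    rw [show -(2 : ℤ) • a = -a + -a by rw [neg_smul, two_smul, neg_add], h4_mon_add]
    have h5 : C.gr (cs.simple i) a = -a := C.h4_gr_co i
    simp only [NN, nn, dd, cq, map_add, act_mon, h5, AlgHom.commutes,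
      Algebra.smul_def (R := Rq), map_mul, map_sub, ← ha, ← hk, ← hk', Units.val_one, Units.val_neg,
      one_smul, neg_smul, map_neg, LaurentPolynomial.T_add, List.prod_cons, List.prod_nil]
    generalize algebraMap Rq (LA Rq C.n) (LaurentPolynomial.T k) = p at *
    generalize algebraMap Rq (LA Rq C.n) (LaurentPolynomial.T (-k)) = p' at *
    generalize algebraMap Rq (LA Rq C.n) (LaurentPolynomial.T k') = q at *
    generalize algebraMap Rq (LA Rq C.n) (LaurentPolynomial.T (-k')) = q' at *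
    generalize (mon a : LA Rq C.n) = t at *
    generalize (mon (-a) : LA Rq C.n) = u at *
    have e1 : u * ((t - p * q) * (t - p' * q')) = t - (p * q + p' * q') + u := by
      linear_combination (t - (p * q + p' * q')) * h1 + u * q * q' * h3 + u * h4
    have e2 : u * ((t + p * q') * (t + p' * q)) = t + (p * q' + p' * q) + u := by
      linear_combination (t + (p * q' + p' * q)) * h1 + u * q * q' * h3 + u * h4
    linear_combination (u * ((t + p * q') * (t + p' * q))) * e1 + (t - (p * q + p' * q') + u) * e2 +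
      ((p - p') ^ 2 + 4) * h1 - (2 + q ^ 2 + q' ^ 2) * h3 - (2 + p ^ 2 + p' ^ 2) * h4

theorem NN_coeff {i : B} (hi : i ∈ C.S0) :
    (C.NN i).coeff (C.co (C.sr i)) = C.cq i * C.cq (C.nx i) := by
  have h := C.h4_sr_co i
  have e : C.NN i = (C.cq i * C.cq (C.nx i)) • mon (C.co (C.sr i)) +
      (C.cq i * C.cq (C.nx i)) • mon (-C.co (C.sr i)) +
      (C.cq i * C.cq i + C.cq (C.nx i) * C.cq (C.nx i) + 2) • mon 0 -
      mon (C.co (C.sr i) + C.co (C.sr i)) - mon (-C.co (C.sr i) + -C.co (C.sr i)) := by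
    simp only [NN, nn, dd, map_add, act_mon, h4_gr_co, AlgHom.commutes,
      Algebra.smul_def (R := Rq), map_mul, h4_mon_add, h4_mon_zero, map_ofNat]
    linear_combination (algebraMap Rq (LA Rq C.n) (C.cq i) ^ 2 + 2) *
      h4_mon_neg (R := Rq) (C.co (C.sr i))
  have h1 : ∀ x, C.sr i x ≠ 2 → (mon x : LA Rq C.n).coeff (C.co (C.sr i)) = 0 := fun x hx => by
    rw [h4_coeff_mon, if_neg fun e : x = _ => hx (by rw [e, h])]
  rw [e]
  simp only [AddMonoidAlgebra.coeff_sub, AddMonoidAlgebra.coeff_add, AddMonoidAlgebra.coeff_smul,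
    Finsupp.sub_apply, Finsupp.add_apply, Finsupp.smul_apply]
  rw [h1 (-_) (by rw [map_neg, h]; omega), h1 0 (by rw [map_zero]; omega),
    h1 (_ + _) (by rw [map_add, h]; omega), h1 (_ + _) (by rw [map_add, map_neg, h]; omega),
    h4_coeff_mon, if_pos rfl]
  simp

theorem NN_ne_zero {i : B} (hi : i ∈ C.S0) : C.NN i ≠ 0 := by
  intro e
  have h := C.NN_coeff hi
  rw [e] at h
  exact mul_ne_zero (C.cq_ne_zero _) (C.cq_ne_zero _) h.symm

end HC

end Pool.Agent.P.MP_74db7f_al
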