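import Pool.Agent.P.MP_74db7f_al.F.H4

/-! H5: structure of `H^J`: spanning sets, gradings, projections (paper, section 1). -/

namespace Pool.Agent.P.MP_74db7f_al

open scoped Classical

namespace HC

variable {B W H : Type*} [Group W] {M : CoxeterMatrix B} {cs : CoxeterSystem M W} [Ring H]
  [Algebra Rq H] (C : HC cs H)

theorem h5_mul_left {s : Set H} {N : Submodule Rq H} {a : H} (h : ∀ t ∈ s, a * t ∈ N) {x : H}
    (hx : x ∈ Submodule.span Rq s) : a * x ∈ N :=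
  (Submodule.span_le (p := N.comap (LinearMap.mulLeft Rq a))).2 h hx

theorem h5_mul_right {s : Set H} {N : Submodule Rq H} {a : H} (h : ∀ t ∈ s, t * a ∈ N) {x : H}
    (hx : x ∈ Submodule.span Rq s) : x * a ∈ N :=
  (Submodule.span_le (p := N.comap (LinearMap.mulRight Rq a))).2 h hx

theorem h5_Th {N : Submodule Rq H} (φ : H →ₗ[Rq] H) (h : ∀ x, φ (C.th x) ∈ N)
    (f : LA Rq C.n) : φ (C.Th f) ∈ N := by
  induction f using AddMonoidAlgebra.induction_on with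
  | of x => exact (congrArg φ (C.Th_mon x)) ▸ h x
  | add f g hf hg =>
    rw [map_add, map_add]
    exact add_mem hf hg
  | smul r f hf =>
    rw [map_smul, map_smul]
    exact N.smul_mem r hf

theorem h5_le {J : Finset B} {N : Submodule Rq H} (h1 : (1 : H) ∈ N)
    (h2 : ∀ j ∈ J, ∀ t ∈ N, t * C.Ts j ∈ N) (h3 : ∀ x, ∀ t ∈ N, t * C.th x ∈ N) {a : H}
    (ha : a ∈ C.HJ J) : a ∈ N := by
  have key : ∀ t ∈ N, t * a ∈ N := by
    induction ha using Algebra.adjoin_induction with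
    | mem a h =>
      rcases h with ⟨j, hj, rfl⟩ | ⟨x, rfl⟩
      · exact h2 j hj
      · exact h3 x
    | algebraMap r =>
      intro t ht
      rw [← Algebra.commutes, ← Algebra.smul_def]
      exact N.smul_mem r ht
    | add a b _ _ ha hb =>
      intro t ht
      rw [mul_add]
      exact add_mem (ha t ht) (hb t ht)
    | mul a b _ _ ha hb =>
      intro t ht
      rw [← mul_assoc]
      exact hb _ (ha t ht)
  simpa using key 1 h1

theorem mem_HJ_iff_left {J : Finset B} (hJ : J ⊆ C.S0) {a : H} : a ∈ C.HJ J ↔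
    a ∈ Submodule.span Rq {t | ∃ u ∈ C.WJ J, ∃ x, t = C.Tb u * C.th x} := by
  refine ⟨C.h5_le ?_ (fun j hj t ht => ?_)
    fun y t ht => ?_, fun h => (Submodule.span_le (p := (C.HJ J).toSubmodule)).2 ?_ h⟩
  · exact Submodule.subset_span ⟨1, one_mem _, 0, by simp⟩
  · refine h5_mul_right ?_ ht
    rintro _ ⟨u, hu, x, rfl⟩
    obtain ⟨g, hg, -⟩ := C.bern (hJ hj) (mon x)
    have hu' := mul_mem hu (C.simple_mem_WJ hj)
    rw [Th_mon, act_mon, Th_mon, sub_eq_iff_eq_add] at hg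
    rw [mul_assoc, hg, mul_add, ← mul_assoc, Tb_mul_Ts]
    refine add_mem (C.h5_Th (LinearMap.mulLeft Rq (C.Tb u)) (fun x => ?_) g) ?_
    · exact Submodule.subset_span ⟨u, hu, x, rfl⟩
    split_ifs
    · exact Submodule.subset_span ⟨_, hu', _, rfl⟩
    · rw [add_mul, smul_mul_assoc]
      exact add_mem (Submodule.subset_span ⟨_, hu', _, rfl⟩)
        (Submodule.smul_mem _ _ (Submodule.subset_span ⟨_, hu, _, rfl⟩))
  · refine h5_mul_right ?_ ht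
    rintro _ ⟨u, hu, x, rfl⟩
    exact Submodule.subset_span ⟨u, hu, x + y, by rw [mul_assoc, th_add]⟩
  · rintro _ ⟨u, hu, x, rfl⟩
    exact (C.HJ J).mul_mem (C.Tb_mem_HJ hJ hu) (C.th_mem_HJ J x)

theorem mem_HJ_iff_right {J : Finset B} (hJ : J ⊆ C.S0) {a : H} : a ∈ C.HJ J ↔
    a ∈ Submodule.span Rq {t | ∃ u ∈ C.WJ J, ∃ x, t = C.th x * C.TJ ∅ u} := by
  set N := Submodule.span Rq {t | ∃ u ∈ C.WJ J, ∃ x, t = C.th x * C.TJ ∅ u}
  have k1 : ∀ j ∈ J, ∀ t ∈ N, t * C.Ts j ∈ N := fun j hj t ht => by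
    refine h5_mul_right ?_ ht
    rintro _ ⟨u, hu, x, rfl⟩
    have hu' := mul_mem hu (C.simple_mem_WJ hj)
    rw [mul_assoc, TJ_mul_Ts]
    split_ifs
    · exact Submodule.subset_span ⟨_, hu', _, rfl⟩
    · rw [mul_add, mul_smul_comm]
      exact add_mem (Submodule.subset_span ⟨_, hu', _, rfl⟩)
        (Submodule.smul_mem _ _ (Submodule.subset_span ⟨_, hu, _, rfl⟩))
  have k2 : ∀ y, ∀ t ∈ N, C.th y * t ∈ N := fun y t ht => by
    refine h5_mul_left ?_ ht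
    rintro _ ⟨u, hu, x, rfl⟩
    exact Submodule.subset_span ⟨u, hu, y + x, by rw [th_add, mul_assoc]⟩
  have k3 : ∀ u ∈ C.WJ J, ∀ f, C.TJ ∅ u * C.Th f ∈ N := fun u hu => by
    refine C.WJ_induction hJ (p := fun u => ∀ f, C.TJ ∅ u * C.Th f ∈ N) (fun f => ?_)
      (fun u _ j hj _ ih f => ?_) hu
    · refine C.h5_Th (LinearMap.mulLeft Rq _) (fun x => ?_) f
      exact Submodule.subset_span ⟨1, one_mem _, x, by simp⟩
    · obtain ⟨g, hg, -⟩ := C.bern (hJ hj) (C.act (cs.simple j) f)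
      rw [← act_mul, cs.simple_mul_simple_self, act_one, sub_eq_iff_eq_add,
        ← sub_eq_iff_eq_add'] at hg
      have k : C.TJ ∅ u * C.Ts j * C.Th f ∈ N := by
        rw [mul_assoc, ← hg, mul_sub, ← mul_assoc]
        exact sub_mem (k1 j hj _ (ih _)) (ih g)
      rcases C.lenJ_step ∅ u j with a | a
      · rwa [C.TJ_up ∅ (by omega)]
      · rw [C.TJ_down ∅ (by omega), mul_sub, sub_mul, ← Algebra.commutes, ← Algebra.smul_def,
          smul_mul_assoc]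
        exact sub_mem k (N.smul_mem _ (ih f))
  refine ⟨C.h5_le ?_ k1
    fun y t ht => ?_, fun h => (Submodule.span_le (p := (C.HJ J).toSubmodule)).2 ?_ h⟩
  · exact Submodule.subset_span ⟨1, one_mem _, 0, by simp⟩
  · refine h5_mul_right ?_ ht
    rintro _ ⟨u, hu, x, rfl⟩
    rw [mul_assoc, ← C.Th_mon y]
    exact k2 x _ (k3 u hu _)
  · rintro _ ⟨u, hu, x, rfl⟩
    exact (C.HJ J).mul_mem (C.th_mem_HJ J x) (C.TJ_empty_mem_HJ hJ hu)

/-- `a` is homogeneous of degree `δ` -/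
def h5Hom (J : Finset B) (a : H) (δ : Lat C.n) : Prop := ∀ w, a * C.TJ J w ∈
  Submodule.span Rq (C.TJ J '' {g | g * w⁻¹ ∈ C.YJ J ∧ C.degW J (g * w⁻¹) = δ})

/-- `π` is the coordinate projection for `p` -/
def h5Pr (J : Finset B) (p : W → Prop) (π : H →ₗ[Rq] H) : Prop :=
  ∀ g, (p g → π (C.TJ J g) = C.TJ J g) ∧ (¬p g → π (C.TJ J g) = 0)

theorem h5_pr (J : Finset B) (p : W → Prop) [DecidablePred p] :
    C.h5Pr J p ((C.bJ J).constr Rq fun w => if p w then C.TJ J w else 0) := by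
  intro g
  rw [← bJ_apply, Module.Basis.constr_basis, bJ_apply]
  exact ⟨fun h => if_pos h, fun h => if_neg h⟩

theorem h5_pd (J : Finset B) (δ : Lat C.n) : C.h5Pr J (fun w => C.degW J w = δ) (C.pd J δ) :=
  C.h5_pr J _

theorem h5_pi (J : Finset B) : C.h5Pr J (fun w => w ∈ C.YJ J) (C.piJ J) :=
  C.h5_pr J _

variable {C} in
theorem h5Pr.of_mem {J : Finset B} {p : W → Prop} {π : H →ₗ[Rq] H} (h : C.h5Pr J p π)
    {S : Set W} (hS : ∀ g ∈ S, p g) {ξ : H} (hξ : ξ ∈ Submodule.span Rq (C.TJ J '' S)) :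
    π ξ = ξ :=
  LinearMap.eqOn_span (f := π) (g := LinearMap.id)
    (by rintro _ ⟨g, hg, rfl⟩; exact (h g).1 (hS g hg)) hξ

variable {C} in
theorem h5Pr.of_not {J : Finset B} {p : W → Prop} {π : H →ₗ[Rq] H} (h : C.h5Pr J p π)
    {S : Set W} (hS : ∀ g ∈ S, ¬p g) {ξ : H} (hξ : ξ ∈ Submodule.span Rq (C.TJ J '' S)) :
    π ξ = 0 :=
  LinearMap.eqOn_span (f := π) (g := 0)
    (by rintro _ ⟨g, hg, rfl⟩; exact (h g).2 (hS g hg)) hξ

variable {C} in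
theorem h5Pr.mem {J : Finset B} {p : W → Prop} {π : H →ₗ[Rq] H} (h : C.h5Pr J p π)
    {S : Set W} {ξ : H} (hξ : ξ ∈ Submodule.span Rq (C.TJ J '' S)) :
    π ξ ∈ Submodule.span Rq (C.TJ J '' {g | g ∈ S ∧ p g}) := by
  refine Submodule.mem_comap.1 (Submodule.span_le.2 ?_ hξ)
  rintro _ ⟨g, hg, rfl⟩
  refine Submodule.mem_comap.2 ?_
  by_cases e : p g
  · rw [(h g).1 e]
    exact Submodule.subset_span ⟨g, ⟨hg, e⟩, rfl⟩
  · rw [(h g).2 e]
    exact zero_mem _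

theorem h5_univ (J : Finset B) (ξ : H) : ξ ∈ Submodule.span Rq (C.TJ J '' Set.univ) := by
  have := (C.bJ J).mem_span ξ
  rwa [Set.image_univ, ← funext (C.bJ_apply J)]

variable {C} in
theorem h5Hom.comm {J : Finset B} {a : H} {δ : Lat C.n} (h : C.h5Hom J a δ) {p p' : W → Prop}
    {π π' : H →ₗ[Rq] H} (hp : C.h5Pr J p π) (hp' : C.h5Pr J p' π')
    (e : ∀ g g', g' * g⁻¹ ∈ C.YJ J → C.degW J (g' * g⁻¹) = δ → (p' g' ↔ p g)) (ξ : H) :
    π' (a * ξ) = a * π ξ := by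
  refine LinearMap.eqOn_span (f := π' ∘ₗ LinearMap.mulLeft Rq a)
    (g := LinearMap.mulLeft Rq a ∘ₗ π) ?_ (C.h5_univ J ξ)
  rintro _ ⟨g, -, rfl⟩
  change π' (a * _) = a * π _
  by_cases b : p g
  · rw [(hp g).1 b, hp'.of_mem (fun g' hg' => (e g g' hg'.1 hg'.2).2 b) (h g)]
  · rw [(hp g).2 b, hp'.of_not (fun g' hg' c => b ((e g g' hg'.1 hg'.2).1 c)) (h g), mul_zero]

theorem h5_rel {J : Finset B} (hJ : J ⊆ C.S0) {g g' : W} (h : g' * g⁻¹ ∈ C.YJ J) (w : W) :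
    (g' * w ∈ C.YJ J ↔ g * w ∈ C.YJ J) ∧
      C.degW J (g' * w) = C.degW J (g' * g⁻¹) + C.degW J (g * w) := by
  have e : g' * w = g' * g⁻¹ * (g * w) := by group
  rw [e, C.degW_mul hJ h]
  exact ⟨(C.YJ J).mul_mem_cancel_left h, rfl⟩

variable {C} in
theorem h5Hom.mul {J : Finset B} (hJ : J ⊆ C.S0) {a b : H} {δ δ' : Lat C.n}
    (h : C.h5Hom J a δ) (h' : C.h5Hom J b δ') : C.h5Hom J (a * b) (δ + δ') := by
  intro w
  rw [mul_assoc]
  refine h5_mul_left ?_ (h' w)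
  rintro _ ⟨g, ⟨h1, h2⟩, rfl⟩
  refine Submodule.span_mono (Set.image_mono fun g' hg' => ?_) (h g)
  obtain ⟨c, d⟩ := C.h5_rel hJ hg'.1 w⁻¹
  exact ⟨c.2 h1, by rw [d, hg'.2, h2]⟩

variable {C} in
theorem h5Hom.inv {J : Finset B} (hJ : J ⊆ C.S0) {a b : H} {δ : Lat C.n}
    (h : C.h5Hom J a δ) (e : a * b = 1) (e' : b * a = 1) : C.h5Hom J b (-δ) := by
  intro w
  have hp := C.h5_pr J fun g => g * w⁻¹ ∈ C.YJ J ∧ C.degW J (g * w⁻¹) = -δ
  have hp' := C.h5_pr J fun g => g * w⁻¹ ∈ C.YJ J ∧ C.degW J (g * w⁻¹) = 0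
  have k := h.comm hp hp' (fun g g' c d => by
    obtain ⟨c1, c2⟩ := C.h5_rel hJ c w⁻¹
    rw [c1, c2, d, add_eq_zero_iff_eq_neg']) (b * C.TJ J w)
  rw [← mul_assoc, e, one_mul, (hp' w).1 ⟨by simp, by
    rw [mul_inv_cancel, C.degW_W0 J (one_mem _)]⟩] at k
  have k' := congrArg (b * ·) k
  simp only [← mul_assoc, e', one_mul] at k'
  rw [k']
  exact Submodule.span_mono (Set.image_mono fun g hg => hg.2) (hp.mem (C.h5_univ J _))

theorem h5_dom {J : Finset B} (hJ : J ⊆ C.S0) {x : Lat C.n} (hx : C.Dom J x) :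
    C.h5Hom J (C.th x) (C.deg J x) := by
  intro w
  have := C.TJ_mul_supp hJ (y := C.tr x) (Subgroup.subset_closure (Or.inl ⟨x, rfl⟩)) w
  rwa [← C.th_dom hJ hx, AD.degW, C.xp_tr] at this

theorem h5_Tb {J : Finset B} (hJ : J ⊆ C.S0) {u : W} (hu : u ∈ C.WJ J) :
    C.Tb u = C.TJ J u := by
  simpa using C.Tb_mul_TJ hJ hu (C.lenJ_add hJ hu (g := 1) fun γ h _ => (C.mem_Rp.1 h).2.ge)

/-- `θ_x` shifts the pieces: first for dominant `x` (`TJ_mul_supp`), then for inverses since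
`θ_x` is bijective and permutes the pieces -/
theorem th_mul_supp {J : Finset B} (hJ : J ⊆ C.S0) (x : Lat C.n) (w : W) :
    C.th x * C.TJ J w ∈ Submodule.span Rq
      (C.TJ J '' {g | g * w⁻¹ ∈ C.YJ J ∧ C.degW J (g * w⁻¹) = C.deg J x}) := by
  obtain ⟨y, h1, h2⟩ : ∃ y, C.Dom J y ∧ C.Dom J (x + y) := by
    refine ⟨(∑ j ∈ J, |C.sr j x|) • C.z ∅, fun j hj => ?_, fun j hj => ?_⟩
    · rw [map_zsmul]
      exact mul_nonneg (Finset.sum_nonneg fun _ _ => abs_nonneg _) (C.dom_z ∅ j (hJ hj))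
    · have a := Finset.single_le_sum (f := fun j => |C.sr j x|) (fun _ _ => abs_nonneg _) hj
      have b := neg_abs_le (C.sr j x)
      have c := le_mul_of_one_le_right ((abs_nonneg _).trans a) (show 1 ≤ C.m from C.m_pos)
      rw [map_add, map_zsmul, C.sr_z_not (hJ hj) (Finset.notMem_empty j), smul_eq_mul]
      linarith
  have := (C.h5_dom hJ h2).mul hJ ((C.h5_dom hJ h1).inv hJ (b := C.th (-y))
    (by rw [← th_add, add_neg_cancel, th_zero]) (by rw [← th_add, neg_add_cancel, th_zero])) w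
  rwa [← th_add, add_neg_cancel_right, map_add, add_neg_cancel_right] at this

theorem Tb_mul_supp {J : Finset B} (hJ : J ⊆ C.S0) {u : W} (hu : u ∈ C.WJ J) (w : W) :
    C.Tb u * C.TJ J w ∈ Submodule.span Rq
      (C.TJ J '' {g | g * w⁻¹ ∈ C.YJ J ∧ C.degW J (g * w⁻¹) = 0}) := by
  have := C.TJ_mul_supp hJ (y := u) (Subgroup.closure_mono Set.subset_union_right hu) w
  rwa [← C.h5_Tb hJ hu, C.degW_W0 J (C.WJ_mono hJ hu)] at this

theorem mem_HJ_iff {J : Finset B} (hJ : J ⊆ C.S0) {a : H} : a ∈ C.HJ J ↔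
    a ∈ Submodule.span Rq (C.TJ J '' (C.YJ J : Set W)) := by
  refine ⟨fun h => Submodule.span_le.2 ?_ ((C.mem_HJ_iff_left hJ).1 h),
    fun h => (Submodule.span_le (p := (C.HJ J).toSubmodule)).2 ?_ h⟩
  · rintro _ ⟨u, hu, x, rfl⟩
    have := h5Hom.mul hJ (C.Tb_mul_supp hJ hu) (C.th_mul_supp hJ x) 1
    rw [TJ_one, mul_one] at this
    exact Submodule.span_mono (Set.image_mono fun g hg => by simpa using hg.1) this
  · rintro _ ⟨y, hy, rfl⟩
    exact C.TJ_mem_HJ hJ hy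

theorem pd_TJ (J : Finset B) (δ : Lat C.n) (w : W) :
    C.pd J δ (C.TJ J w) = if C.degW J w = δ then C.TJ J w else 0 := by
  rw [pd, ← bJ_apply, Module.Basis.constr_basis, bJ_apply]

variable {C} in
theorem h5Hom.pd {J : Finset B} (hJ : J ⊆ C.S0) {a : H} {γ : Lat C.n} (h : C.h5Hom J a γ)
    (δ : Lat C.n) (ξ : H) : C.pd J (γ + δ) (a * ξ) = a * C.pd J δ ξ := by
  refine h.comm (C.h5_pd J δ) (C.h5_pd J _) (fun g g' c d => ?_) ξ
  have := (C.h5_rel hJ c 1).2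
  rw [mul_one, mul_one] at this
  rw [this, d, add_right_inj]

theorem pd_th {J : Finset B} (hJ : J ⊆ C.S0) (x δ : Lat C.n) (ξ : H) :
    C.pd J (δ + C.deg J x) (C.th x * ξ) = C.th x * C.pd J δ ξ := by
  rw [add_comm]
  exact h5Hom.pd hJ (C.th_mul_supp hJ x) δ ξ

theorem pd_Tb {J : Finset B} (hJ : J ⊆ C.S0) {u : W} (hu : u ∈ C.WJ J) (δ : Lat C.n) (ξ : H) :
    C.pd J δ (C.Tb u * ξ) = C.Tb u * C.pd J δ ξ := by
  simpa using h5Hom.pd hJ (C.Tb_mul_supp hJ hu) δ ξ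

theorem pd_mem_HJ {J : Finset B} (hJ : J ⊆ C.S0) {a : H} (ha : a ∈ C.HJ J) (δ : Lat C.n) :
    C.pd J δ a ∈ C.HJ J := by
  exact (C.mem_HJ_iff hJ).2 (Submodule.span_mono (Set.image_mono fun g hg => hg.1)
    ((C.h5_pd J δ).mem ((C.mem_HJ_iff hJ).1 ha)))

/-- homogeneous elements of `H^J` shift degrees -/
theorem pd_mul {J : Finset B} (hJ : J ⊆ C.S0) {a : H} (ha : a ∈ C.HJ J) (γ δ : Lat C.n)
    (ξ : H) : C.pd J (γ + δ) (C.pd J γ a * ξ) = C.pd J γ a * C.pd J δ ξ := by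
  refine h5Hom.pd hJ (fun w => ?_) δ ξ
  refine h5_mul_right ?_ ((C.h5_pd J γ).mem ((C.mem_HJ_iff hJ).1 ha))
  rintro _ ⟨y, ⟨hy, rfl⟩, rfl⟩
  exact C.TJ_mul_supp hJ hy w

theorem sum_pd (J : Finset B) (ξ : H) : ∃ s : Finset (Lat C.n), ξ = ∑ δ ∈ s, C.pd J δ ξ ∧
    ∀ δ ∉ s, C.pd J δ ξ = 0 := by
  have h := (C.bJ J).mem_span_repr_support ξ
  rw [funext (C.bJ_apply J)] at h
  refine ⟨((C.bJ J).repr ξ).support.image (C.degW J), ?_, fun δ hδ =>
    (C.h5_pd J δ).of_not (fun g hg e => hδ (Finset.mem_image.2 ⟨g, hg, e⟩)) h⟩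
  rw [← LinearMap.sum_apply]
  refine LinearMap.eqOn_span (f := LinearMap.id) ?_ h
  rintro _ ⟨g, hg, rfl⟩
  simp only [LinearMap.sum_apply, pd_TJ, LinearMap.id_apply, Finset.sum_ite_eq]
  rw [if_pos (Finset.mem_image_of_mem _ hg)]

theorem h5_W0 (K I : Finset B) {v : W} (hv : v ∈ C.W0) :
    C.TJ K v ∈ Submodule.span Rq (C.TJ I '' (C.W0 : Set W)) := by
  refine C.WJ_induction subset_rfl
    (p := fun v => C.TJ K v ∈ Submodule.span Rq (C.TJ I '' (C.W0 : Set W)))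
    (Submodule.subset_span ⟨1, one_mem _, by simp⟩) (fun u _ j hj _ ih => ?_) hv
  have k : C.TJ K u * C.Ts j ∈ Submodule.span Rq (C.TJ I '' (C.W0 : Set W)) := by
    refine h5_mul_right ?_ ih
    rintro _ ⟨g, hg, rfl⟩
    have hg' := mul_mem hg (C.simple_mem_WJ hj)
    rw [TJ_mul_Ts]
    split_ifs
    · exact Submodule.subset_span ⟨_, hg', rfl⟩
    · exact add_mem (Submodule.subset_span ⟨_, hg', rfl⟩)
        (Submodule.smul_mem _ _ (Submodule.subset_span ⟨_, hg, rfl⟩))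
  rcases C.lenJ_step K u j with a | a
  · rwa [C.TJ_up K (by omega)]
  · rw [C.TJ_down K (by omega), mul_sub, ← Algebra.commutes, ← Algebra.smul_def]
    exact sub_mem k (Submodule.smul_mem _ _ ih)

/-- a `J`-homogeneous element of degree coming from `x` is `I`-homogeneous -/
theorem pd_TJ_le {J I : Finset B} (hJI : J ⊆ I) (hI : I ⊆ C.S0) (g : W) :
    C.pd I (C.degW I g) (C.TJ J g) = C.TJ J g := by
  obtain ⟨u, hu, x, -, v, hv, e, -, h⟩ := C.TJ_normal (hJI.trans hI) g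
  have hu' := C.WJ_mono hJI hu
  have e1 : C.degW I g = 0 + C.deg I x + 0 := by
    rw [e, C.degW_mul hI (Subgroup.closure_mono Set.subset_union_right hu'), C.degW_tr_mul,
      C.degW_W0 I hv, C.degW_W0 I (C.WJ_mono hI hu'), add_assoc]
  rw [h, e1, (h5Hom.mul hI (C.Tb_mul_supp hI hu') (C.th_mul_supp hI x)).pd hI,
    (C.h5_pd I 0).of_mem (fun g hg => C.degW_W0 I hg) (C.h5_W0 ∅ I hv)]

theorem piJ_mem {J : Finset B} (hJ : J ⊆ C.S0) (ξ : H) : C.piJ J ξ ∈ C.HJ J := by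
  exact (C.mem_HJ_iff hJ).2 (Submodule.span_mono (Set.image_mono fun g hg => hg.2)
    ((C.h5_pi J).mem (C.h5_univ J ξ)))

theorem piJ_of_mem {J : Finset B} (hJ : J ⊆ C.S0) {a : H} (ha : a ∈ C.HJ J) :
    C.piJ J a = a := by
  exact (C.h5_pi J).of_mem (fun g hg => hg) ((C.mem_HJ_iff hJ).1 ha)

theorem piJ_mul {J : Finset B} (hJ : J ⊆ C.S0) {a : H} (ha : a ∈ C.HJ J) (ξ : H) :
    C.piJ J (a * ξ) = a * C.piJ J ξ := by
  refine LinearMap.eqOn_span (f := C.piJ J ∘ₗ LinearMap.mulRight Rq ξ)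
    (g := LinearMap.mulRight Rq (C.piJ J ξ)) ?_ ((C.mem_HJ_iff hJ).1 ha)
  rintro _ ⟨y, hy, rfl⟩
  exact h5Hom.comm (C.TJ_mul_supp hJ hy) (C.h5_pi J) (C.h5_pi J)
    (fun g g' c _ => by simpa using (C.h5_rel hJ c 1).1) ξ

theorem h5_ip (J : Finset B) {w : W} (h : w ≠ 1) : C.ip J (C.TJ J w) 1 = 0 := by
  rw [ip_TJ, ← C.TJ_one J, ← bJ_apply, Module.Basis.repr_self, Finsupp.single_eq_of_ne h]

theorem h5_ip_piJ (K J : Finset B) (h : ∀ w ∉ C.YJ J, C.ip K (C.TJ J w) 1 = 0) (ξ : H) :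
    C.ip K (C.piJ J ξ) 1 = C.ip K ξ 1 := by
  have := LinearMap.eqOn_span (f := C.ip K 1 ∘ₗ C.piJ J) (g := C.ip K 1) (by
    rintro _ ⟨g, -, rfl⟩
    rw [LinearMap.comp_apply]
    by_cases e : g ∈ C.YJ J
    · rw [(C.h5_pi J g).1 e]
    · rw [(C.h5_pi J g).2 e, map_zero, ip_comm, h g e]) (C.h5_univ J ξ)
  rwa [LinearMap.comp_apply, ip_comm, C.ip_comm K 1] at this

theorem ip_piJ (J : Finset B) (ξ : H) : C.ip J (C.piJ J ξ) 1 = C.ip J ξ 1 := by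
  exact C.h5_ip_piJ J J (fun w h => C.h5_ip J fun e => h (e ▸ one_mem _)) ξ

theorem ip_empty_piJ {J : Finset B} (hJ : J ⊆ C.S0) (ξ : H) :
    C.ip ∅ (C.piJ J ξ) 1 = C.ip ∅ ξ 1 := by
  refine C.h5_ip_piJ ∅ J (fun w h => ?_) ξ
  obtain ⟨u, hu, a⟩ := C.exists_adom hJ (C.fp w)
  have hg : u⁻¹ * C.fp w ∈ C.W0 := mul_mem (inv_mem (C.WJ_mono hJ hu)) (C.fp_mem w)
  have hs : ∀ γ ∈ C.Rp, γ (C.z J) = 0 → C.mu (u⁻¹ * C.fp w) γ = 0 := fun γ hγ h0 =>
    (C.mu_W0_iff hg (C.mem_Rp.1 hγ).1).2 ((C.adom_W0_iff hJ hg).1 a γ hγ h0)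
  have hY : ∀ x, ∀ v ∈ C.WJ J, C.tr x * v ∈ C.YJ J := fun x v hv =>
    mul_mem (Subgroup.subset_closure (Or.inl ⟨x, rfl⟩))
      (Subgroup.closure_mono Set.subset_union_right hv)
  have e : w = C.tr (C.xp w) * u * (u⁻¹ * C.fp w) := by
    rw [mul_assoc, mul_inv_cancel_left, C.tr_xp_fp]
  have hn : u⁻¹ * C.fp w ∉ C.YJ J := fun b => h (e ▸ mul_mem (hY _ u hu) b)
  rw [e, C.TJ_strip subset_rfl hJ hs (hY _ u hu), C.TJ_cmp (Finset.empty_subset J) hJ a]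
  have := h5_mul_right (N := LinearMap.ker (C.ip ∅ 1)) (a := C.TJ ∅ (u⁻¹ * C.fp w)) (by
    rintro _ ⟨v, hv, x, rfl⟩
    rw [LinearMap.mem_ker, ip_comm, th_mul_TJ_empty,
      ← C.TJ_strip (Finset.empty_subset J) hJ hs (hY x v hv)]
    exact C.h5_ip ∅ fun b => hn (eq_inv_of_mul_eq_one_right b ▸ inv_mem (hY x v hv)))
    ((C.mem_HJ_iff_right hJ).1 (C.TJ_mem_HJ hJ (hY (C.xp w) u hu)))
  rwa [LinearMap.mem_ker, ip_comm] at this

end HC

end Pool.Agent.P.MP_74db7f_al
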