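import Pool.Agent.P.MP_74db7f_al.F.H5

/-! H6: the decomposition `H = ⊕ T_u H^J`, (TS), left adjoints (paper, section 1). -/

namespace Pool.Agent.P.MP_74db7f_al

open scoped Classical

namespace HC

variable {B W H : Type*} [Group W] {M : CoxeterMatrix B} {cs : CoxeterSystem M W} [Ring H]
  [Algebra Rq H] (C : HC cs H)

theorem exists_dec {J I : Finset B} (hJI : J ⊆ I) (hI : I ⊆ C.S0) {h : H} (hh : h ∈ C.HJ I) :
    ∃ r : W → H, (∀ u, r u ∈ C.HJ J) ∧ h = ∑ u ∈ C.Mn I J, C.Tb u * r u := by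
  rw [C.mem_HJ_iff_left hI] at hh
  induction hh using Submodule.span_induction with
  | mem t ht =>
    obtain ⟨u, hu, x, rfl⟩ := ht
    obtain ⟨u1, h1, y, hy, rfl⟩ := C.exists_Mn hJI hI hu
    refine ⟨fun v => if u1 = v then C.Tb y * C.th x else 0, fun v => ?_, ?_⟩
    · dsimp only
      split_ifs
      · exact mul_mem (C.Tb_mem_HJ (hJI.trans hI) hy) (C.th_mem_HJ J x)
      · exact zero_mem _
    · simp only [mul_ite, mul_zero]
      rw [Finset.sum_ite_eq, if_pos h1, ← mul_assoc, C.Tb_mul (C.length_Mn hJI hI h1 hy)]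
  | zero => exact ⟨0, fun _ => zero_mem _, by simp⟩
  | add x y _ _ hx hy =>
    obtain ⟨r, hr, rfl⟩ := hx
    obtain ⟨r', hr', rfl⟩ := hy
    exact ⟨r + r', fun u => add_mem (hr u) (hr' u), by simp [mul_add, Finset.sum_add_distrib]⟩
  | smul a x _ hx =>
    obtain ⟨r, hr, rfl⟩ := hx
    exact ⟨a • r, fun u => Subalgebra.smul_mem _ (hr u) a, by simp [Finset.smul_sum]⟩

theorem cmp_spec {J : Finset B} (hJ : J ⊆ C.S0) (h : H) : (∀ u, C.cmp J h u ∈ C.HJ J) ∧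
    h = ∑ u ∈ C.Mn C.S0 J, C.Tb u * C.cmp J h u := by
  exact Classical.epsilon_spec (C.exists_dec hJ le_rfl (h := h) (by rw [C.HJ_S0]; trivial))

theorem h6_ind (J : Finset B) {p : H → Prop} (add : ∀ x y, p x → p y → p (x + y))
    (smul : ∀ (r : Rq) x, p x → p (r • x)) (basis : ∀ g, p (C.TJ J g)) (h : H) : p h := by
  have hm := (C.bJ J).mem_span h
  induction hm using Submodule.span_induction with
  | mem t ht =>
    obtain ⟨g, rfl⟩ := ht
    rw [C.bJ_apply]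
    exact basis g
  | zero =>
    have := smul 0 _ (basis 1)
    rwa [zero_smul] at this
  | add x y _ _ hx hy => exact add x y hx hy
  | smul a x _ hx => exact smul a x hx

theorem h6_mem {u : W} (hu : u ∈ C.W0) : u ∈ C.Mn C.S0 ∅ := by
  rw [C.Mn_empty le_rfl, C.mem_WF le_rfl]
  exact hu

theorem ip_deep {J : Finset B} (hJ : J ⊆ C.S0) {u u' : W} (hu : u ∈ C.Mn C.S0 J)
    (hu' : u' ∈ C.Mn C.S0 J) (ξ η : H) : ∀ᶠ k : ℕ in Filter.atTop,
      ipB C.Tb (C.Tb u * C.th ((k : ℤ) • C.z J) * ξ) (C.Tb u' * C.th ((k : ℤ) • C.z J) * η) =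
        if u = u' then C.ip J ξ η else 0 := by
  induction ξ using C.h6_ind J with
  | add x y hx hy =>
    filter_upwards [hx, hy] with k h1 h2
    rw [mul_add, map_add, LinearMap.add_apply, h1, h2, map_add, LinearMap.add_apply]
    split_ifs <;> simp
  | smul r x hx =>
    filter_upwards [hx] with k h1
    rw [mul_smul_comm, map_smul, LinearMap.smul_apply, h1, map_smul, LinearMap.smul_apply]
    split_ifs <;> simp
  | basis g =>
    induction η using C.h6_ind J with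
    | add x y hx hy =>
      filter_upwards [hx, hy] with k h1 h2
      rw [mul_add, map_add, h1, h2, map_add]
      split_ifs <;> simp
    | smul r x hx =>
      filter_upwards [hx] with k h1
      rw [mul_smul_comm, map_smul, h1, map_smul]
      split_ifs <;> simp
    | basis g' =>
      have h1 := C.deep_limit hJ le_rfl hu g
      have h2 := C.deep_limit hJ le_rfl hu' g'
      by_cases e : u = u'
      · subst e
        filter_upwards [h1, h2] with k h1 h2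
        rw [h1, h2, C.TJ_S0, C.TJ_S0, ipB_basis, if_pos rfl, C.ip_TJ, ← C.bJ_apply J g',
          Module.Basis.repr_self, Module.Basis.repr_self, Finsupp.single_apply,
          Finsupp.single_apply]
        simp only [mul_right_inj]
      · filter_upwards [h1, h2, C.Mn_sep hJ hu hu' e g g'] with k h1 h2 h3
        rw [h1, h2, C.TJ_S0, C.TJ_S0, ipB_basis, if_neg e, Module.Basis.repr_self,
          Finsupp.single_eq_of_ne h3]

theorem h6_ip_sum {J : Finset B} (hJ : J ⊆ C.S0) {r r' : W → H} (hr : ∀ u, r u ∈ C.HJ J)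
    (hr' : ∀ u, r' u ∈ C.HJ J) (ξ η : H) : ∀ᶠ k : ℕ in Filter.atTop,
    ipB C.Tb ((∑ u ∈ C.Mn C.S0 J, C.Tb u * r u) * C.th ((k : ℤ) • C.z J) * ξ)
      ((∑ u ∈ C.Mn C.S0 J, C.Tb u * r' u) * C.th ((k : ℤ) • C.z J) * η) =
      ∑ u ∈ C.Mn C.S0 J, C.ip J (r u * ξ) (r' u * η) := by
  have e : ∀ (k : ℕ) (s : W → H), (∀ u, s u ∈ C.HJ J) → ∀ ζ : H,
      (∑ u ∈ C.Mn C.S0 J, C.Tb u * s u) * C.th ((k : ℤ) • C.z J) * ζ =
        ∑ u ∈ C.Mn C.S0 J, C.Tb u * C.th ((k : ℤ) • C.z J) * (s u * ζ) := by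
    intro k s hs ζ
    rw [Finset.sum_mul, Finset.sum_mul]
    refine Finset.sum_congr rfl fun u _ => ?_
    have hf : C.Fix J ((k : ℤ) • C.z J) := fun j hj => by
      rw [map_smul, C.fix_z hJ j hj, smul_zero]
    rw [mul_assoc (C.Tb u), (C.HJ_comm_th hJ (hs u) hf).eq]
    simp only [mul_assoc]
  have h := (Filter.eventually_all_finset (C.Mn C.S0 J)).2 fun u hu =>
    (Filter.eventually_all_finset (C.Mn C.S0 J)).2 fun u' hu' =>
      C.ip_deep hJ hu hu' (r u * ξ) (r' u' * η)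
  filter_upwards [h] with k hk
  rw [e k r hr, e k r' hr', map_sum (ipB C.Tb), LinearMap.sum_apply]
  refine Finset.sum_congr rfl fun u hu => ?_
  rw [map_sum, Finset.sum_congr rfl (hk u hu), Finset.sum_ite_eq, if_pos hu]

theorem cmp_unique {J : Finset B} (hJ : J ⊆ C.S0) {h : H} {r : W → H} (hr : ∀ u, r u ∈ C.HJ J)
    (e : h = ∑ u ∈ C.Mn C.S0 J, C.Tb u * r u) : ∀ u ∈ C.Mn C.S0 J, C.cmp J h u = r u := by
  obtain ⟨h1, h2⟩ := C.cmp_spec hJ h
  have hd : ∀ u, C.cmp J h u - r u ∈ C.HJ J := fun u => sub_mem (h1 u) (hr u)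
  have h0 : ∑ u ∈ C.Mn C.S0 J, C.Tb u * (C.cmp J h u - r u) = 0 := by
    simp only [mul_sub]
    rw [Finset.sum_sub_distrib, ← h2, ← e, sub_self]
  obtain ⟨k, hk⟩ := (C.h6_ip_sum hJ hd hd 1 1).exists
  rw [h0, zero_mul, zero_mul, map_zero] at hk
  simp only [mul_one] at hk
  exact fun u hu => sub_eq_zero.1 (ipB_self_eq_zero (C.bJ J) _ _ hk.symm u hu)

/-- (TS) -/
theorem ip_cmp {J : Finset B} (hJ : J ⊆ C.S0) (h h' ξ η : H) : ∀ᶠ k : ℕ in Filter.atTop,
    ipB C.Tb (h * C.th ((k : ℤ) • C.z J) * ξ) (h' * C.th ((k : ℤ) • C.z J) * η) =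
      ∑ u ∈ C.Mn C.S0 J, C.ip J (C.cmp J h u * ξ) (C.cmp J h' u * η) := by
  have := C.h6_ip_sum hJ (C.cmp_spec hJ h).1 (C.cmp_spec hJ h').1 ξ η
  rwa [← (C.cmp_spec hJ h).2, ← (C.cmp_spec hJ h').2] at this

theorem cmp_add {J : Finset B} (hJ : J ⊆ C.S0) (h h' : H) {u : W} (hu : u ∈ C.Mn C.S0 J) :
    C.cmp J (h + h') u = C.cmp J h u + C.cmp J h' u := by
  refine C.cmp_unique hJ (r := fun u => C.cmp J h u + C.cmp J h' u)
    (fun u => add_mem ((C.cmp_spec hJ h).1 u) ((C.cmp_spec hJ h').1 u)) ?_ u hu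
  simp only [mul_add]
  rw [Finset.sum_add_distrib, ← (C.cmp_spec hJ h).2, ← (C.cmp_spec hJ h').2]

theorem cmp_smul {J : Finset B} (hJ : J ⊆ C.S0) (r : Rq) (h : H) {u : W}
    (hu : u ∈ C.Mn C.S0 J) : C.cmp J (r • h) u = r • C.cmp J h u := by
  refine C.cmp_unique hJ (r := fun u => r • C.cmp J h u)
    (fun u => Subalgebra.smul_mem _ ((C.cmp_spec hJ h).1 u) r) ?_ u hu
  simp only [mul_smul_comm]
  rw [← Finset.smul_sum, ← (C.cmp_spec hJ h).2]

theorem cmp_mul {J : Finset B} (hJ : J ⊆ C.S0) (h : H) {a : H} (ha : a ∈ C.HJ J) {u : W}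
    (hu : u ∈ C.Mn C.S0 J) : C.cmp J (h * a) u = C.cmp J h u * a := by
  refine C.cmp_unique hJ (r := fun u => C.cmp J h u * a)
    (fun u => mul_mem ((C.cmp_spec hJ h).1 u) ha) ?_ u hu
  simp only [← mul_assoc]
  rw [← Finset.sum_mul, ← (C.cmp_spec hJ h).2]

theorem cmp_Tb {J : Finset B} (hJ : J ⊆ C.S0) {a : H} (ha : a ∈ C.HJ J) {u u' : W}
    (hu : u ∈ C.Mn C.S0 J) (hu' : u' ∈ C.Mn C.S0 J) :
    C.cmp J (C.Tb u * a) u' = if u = u' then a else 0 := by
  refine C.cmp_unique hJ (r := fun v => if u = v then a else 0) (fun v => ?_) ?_ u' hu'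
  · split_ifs
    · exact ha
    · exact zero_mem _
  · simp only [mul_ite, mul_zero]
    rw [Finset.sum_ite_eq, if_pos hu]

/-- components of an element of `H^I` -/
theorem cmp_HJ {J I : Finset B} (hJI : J ⊆ I) (hI : I ⊆ C.S0) {h : H} (hh : h ∈ C.HJ I) :
    h = ∑ u ∈ C.Mn I J, C.Tb u * C.cmp J h u ∧
      ∀ u ∈ C.Mn C.S0 J, u ∉ C.Mn I J → C.cmp J h u = 0 := by
  obtain ⟨r, hr, e⟩ := C.exists_dec hJI hI hh
  have hs := C.Mn_mono hJI hI le_rfl
  have key := C.cmp_unique (hJI.trans hI) (h := h) (r := fun v => if v ∈ C.Mn I J then r v else 0)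
    (fun v => by
      split_ifs
      · exact hr v
      · exact zero_mem _)
    (by
      simp only [mul_ite, mul_zero]
      rw [Finset.sum_ite_mem, Finset.inter_eq_right.2 hs, ← e])
  refine ⟨e.trans (Finset.sum_congr rfl fun u hu => ?_), fun u hu hn => ?_⟩
  · rw [key u (hs hu), if_pos hu]
  · rw [key u hu, if_neg hn]

theorem ip_cmp_adj {J : Finset B} (hJ : J ⊆ C.S0) (h : H) {u : W} (hu : u ∈ C.Mn C.S0 J)
    (ξ η : H) : C.ip J (C.cmp J h u * ξ) η = C.ip J ξ (C.cmp J (C.flat h * C.Tb u) 1 * η) := by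
  have h1 := C.one_mem_Mn hJ le_rfl
  have a1 : ∀ {v : W}, v ∈ C.Mn C.S0 J → ∀ v' ∈ C.Mn C.S0 J,
      C.cmp J (C.Tb v) v' = if v = v' then 1 else 0 := fun hv v' hv' => by
    rw [← C.cmp_Tb hJ (one_mem _) hv hv', mul_one]
  obtain ⟨k, e1, e2⟩ :=
    ((C.ip_cmp hJ h (C.Tb u) ξ η).and (C.ip_cmp hJ (C.Tb 1) (C.flat h * C.Tb u) ξ η)).exists
  rw [Finset.sum_eq_single_of_mem u hu fun v hv hne => by
    rw [a1 hu v hv, if_neg hne.symm, zero_mul, map_zero], a1 hu u hu, if_pos rfl, one_mul] at e1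
  rw [Finset.sum_eq_single_of_mem 1 h1 fun v hv hne => by
    rw [a1 h1 v hv, if_neg hne.symm, zero_mul, map_zero, LinearMap.zero_apply], a1 h1 1 h1,
    if_pos rfl, one_mul] at e2
  rw [← e1, ← e2, mul_assoc h, C.ip0_mul_left, C.Tb_one, one_mul]
  simp only [mul_assoc]

theorem adj_mem {J : Finset B} (hJ : J ⊆ C.S0) (a : H) : C.adj J a ∈ C.HJ J := by
  exact (C.cmp_spec hJ _).1 1

theorem ip_mul_left {J : Finset B} (hJ : J ⊆ C.S0) {a : H} (ha : a ∈ C.HJ J) (ξ η : H) :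
    C.ip J (a * ξ) η = C.ip J ξ (C.adj J a * η) := by
  have h1 := C.one_mem_Mn hJ le_rfl
  have e1 := C.ip_cmp_adj hJ a h1 ξ η
  have e2 := C.cmp_Tb hJ ha h1 h1
  rw [C.Tb_one, one_mul, if_pos rfl] at e2
  rwa [e2, C.Tb_one, mul_one] at e1

theorem adj_unique {J : Finset B} {a a' : H}
    (h : ∀ ξ η, C.ip J ξ (a * η) = C.ip J ξ (a' * η)) : a = a' := by
  have e := h (a - a') 1
  rw [mul_one, mul_one, ← sub_eq_zero, ← map_sub] at e
  exact sub_eq_zero.1 (ipB_self_eq_zero (C.bJ J) {()} (fun _ => a - a')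
    (by rw [Finset.sum_singleton]; exact e) () (Finset.mem_singleton_self _))

theorem tauL_add (x y : H) : C.tauL (x + y) = C.tauL x + C.tauL y := by
  rw [tauL, tauL, tauL, C.cmp_add (Finset.empty_subset _) x y
    (C.one_mem_Mn (Finset.empty_subset _) le_rfl), map_add, LinearMap.add_apply]

theorem tauL_smul (r : Rq) (x : H) : C.tauL (r • x) = r * C.tauL x := by
  rw [tauL, tauL, C.cmp_smul (Finset.empty_subset _) r x
    (C.one_mem_Mn (Finset.empty_subset _) le_rfl), map_smul, LinearMap.smul_apply, smul_eq_mul]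

theorem tauL_Tb_Th {u : W} (hu : u ∈ C.W0) (f : LA Rq C.n) :
    C.tauL (C.Tb u * C.Th f) = if u = 1 then f.coeff 0 else 0 := by
  rw [tauL, C.cmp_Tb (Finset.empty_subset _) (C.Th_mem_HJ ∅ f) (C.h6_mem hu)
    (C.one_mem_Mn (Finset.empty_subset _) le_rfl)]
  split_ifs
  · have e := C.repr_Th f (one_mem _) (one_mem _) 0
    rw [C.TJ_one, mul_one, C.tr_zero, mul_one, if_pos rfl] at e
    rw [C.ip_comm, ← e, ← C.ip_TJ, C.TJ_one]
  · rw [map_zero, LinearMap.zero_apply]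

theorem tauL_cmp {J : Finset B} (hJ : J ⊆ C.S0) (h : H) : C.tauL (C.cmp J h 1) = C.tauL h := by
  obtain ⟨φ, hφ⟩ : ∃ φ : H →ₗ[Rq] Rq, ∀ x, φ x = C.tauL x :=
    ⟨⟨⟨C.tauL, C.tauL_add⟩, C.tauL_smul⟩, fun _ => rfl⟩
  have h1 := C.one_mem_Mn hJ le_rfl
  obtain ⟨hm, e⟩ := C.cmp_spec hJ h
  have key : ∀ u ∈ C.Mn C.S0 J, u ≠ 1 → ∀ a ∈ C.HJ J, φ (C.Tb u * a) = 0 := by
    intro u hu hne a ha
    rw [C.mem_HJ_iff_left hJ] at ha
    induction ha using Submodule.span_induction with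
    | mem t ht =>
      obtain ⟨y, hy, x, rfl⟩ := ht
      have hu0 : u ∈ C.W0 := ((C.mem_Mn hJ le_rfl).1 hu).1
      rw [← mul_assoc, C.Tb_mul (C.length_Mn hJ le_rfl hu hy), ← C.Th_mon, hφ,
        C.tauL_Tb_Th (u := u * y) (mul_mem hu0 (C.WJ_mono hJ hy))]
      refine if_neg fun e => hne ?_
      refine C.Mn_unique hJ le_rfl hu h1 ?_
      rw [mul_one, inv_eq_of_mul_eq_one_right e]
      exact hy
    | zero => rw [mul_zero, map_zero]
    | add x y _ _ hx hy => rw [mul_add, map_add, hx, hy, add_zero]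
    | smul r x _ hx => rw [mul_smul_comm, map_smul, hx, smul_zero]
  have e2 := congrArg φ e
  rw [map_sum, Finset.sum_eq_single_of_mem 1 h1 fun u hu hne => key u hu hne _ (hm u), C.Tb_one,
    one_mul, hφ, hφ] at e2
  exact e2.symm

/-- `tauL (h♭ T_v θ_x)` is the coefficient of `T_v θ_x` in `h` -/
theorem tauL_flat {v : W} (hv : v ∈ C.W0) (x : Lat C.n) (h : H) :
    C.tauL (C.flat h * (C.Tb v * C.th x)) = C.ip ∅ (C.cmp ∅ h v) (C.th x) := by
  have h0 : (∅ : Finset B) ⊆ C.S0 := Finset.empty_subset _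
  have e := C.ip_cmp_adj h0 h (C.h6_mem hv) 1 (C.th x)
  rw [mul_one, ← C.cmp_mul h0 _ (C.th_mem_HJ ∅ x) (C.one_mem_Mn h0 le_rfl), mul_assoc] at e
  rw [e, tauL, C.ip_comm]

end HC

end Pool.Agent.P.MP_74db7f_al
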