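import Pool.Agent.P.MP_74db7f_al.F.H6

/-! H7: the filtration, uniqueness of intertwiners, `ι_w` (paper, section 2). -/

namespace Pool.Agent.P.MP_74db7f_al

open scoped Classical

namespace HC

variable {B W H : Type*} [Group W] {M : CoxeterMatrix B} {cs : CoxeterSystem M W} [Ring H]
  [Algebra Rq H] (C : HC cs H)

theorem Fil_mono {k l : ℕ} (h : k ≤ l) : C.Fil k ≤ C.Fil l := by
  apply Submodule.span_mono
  rintro t ⟨x, v, hv, hl, rfl⟩
  exact ⟨x, v, hv, lt_of_lt_of_le hl h, rfl⟩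

theorem Fil_zero : C.Fil 0 = ⊥ := by
  unfold Fil
  rw [Submodule.span_eq_bot]
  rintro t ⟨x, v, hv, hl, rfl⟩
  exact absurd hl (Nat.not_lt_zero _)

theorem h7_Fil_eq (k : ℕ) :
    C.Fil k = Submodule.span Rq (C.bJ ∅ '' {g | cs.length (C.fp g) < k}) := by
  unfold Fil
  congr 1
  ext t
  constructor
  · rintro ⟨x, v, hv, hl, rfl⟩
    refine ⟨C.tr x * v, ?_, ?_⟩
    · show cs.length (C.fp (C.tr x * v)) < k
      rwa [C.fp_tr_mul x hv]
    · rw [C.bJ_apply, C.th_mul_TJ_empty]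
  · rintro ⟨g, hg, rfl⟩
    refine ⟨C.xp g, C.fp g, C.fp_mem g, hg, ?_⟩
    rw [C.bJ_apply, C.th_mul_TJ_empty, C.tr_xp_fp]

theorem h7_mem_Fil {k : ℕ} {m : H} : m ∈ C.Fil k ↔
    ∀ g, k ≤ cs.length (C.fp g) → (C.bJ ∅).repr m g = 0 := by
  rw [C.h7_Fil_eq, Module.Basis.mem_span_image]
  constructor
  · intro h g hg
    by_contra hne
    have h1 : cs.length (C.fp g) < k := h (Finset.mem_coe.2 (Finsupp.mem_support_iff.2 hne))
    omega
  · intro h g hg
    have h1 := Finsupp.mem_support_iff.1 (Finset.mem_coe.1 hg)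
    show cs.length (C.fp g) < k
    by_contra hlt
    exact h1 (h g (not_lt.1 hlt))

theorem exists_Fil_top : ∃ k, C.Fil k = ⊤ := by
  refine ⟨(C.WF C.S0).sup cs.length + 1, eq_top_iff.2 fun m _ => ?_⟩
  rw [C.h7_mem_Fil]
  intro g hg
  have h1 : C.fp g ∈ C.WF C.S0 := (C.mem_WF subset_rfl).2 (C.fp_mem g)
  have h2 := Finset.le_sup (f := cs.length) h1
  omega

theorem mem_Fil {k : ℕ} {m : H} : m ∈ C.Fil k ↔
    ∀ g, k ≤ cs.length (C.fp g) → (C.bJ ∅).repr m g = 0 := by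
  exact C.h7_mem_Fil

theorem h7_gen {k : ℕ} (x : Lat C.n) {v : W} (hv : v ∈ C.W0) (hl : cs.length v < k) :
    C.th x * C.TJ ∅ v ∈ C.Fil k :=
  Submodule.subset_span ⟨x, v, hv, hl, rfl⟩

theorem h7_tv {k : ℕ} {v : W} (hv : v ∈ C.W0) (hl : cs.length v < k) : C.TJ ∅ v ∈ C.Fil k := by
  have h := C.h7_gen 0 hv hl
  rwa [C.th_zero, one_mul] at h

theorem h7_th_mul_Fil {k : ℕ} (x : Lat C.n) {m : H} (hm : m ∈ C.Fil k) :
    C.th x * m ∈ C.Fil k := by
  induction hm using Submodule.span_induction with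
  | mem t ht =>
    obtain ⟨y, v, hv, hl, rfl⟩ := ht
    rw [← mul_assoc, ← C.th_add]
    exact C.h7_gen _ hv hl
  | zero => simp
  | add a b _ _ ha hb => rw [mul_add]; exact add_mem ha hb
  | smul r a _ ha => rw [mul_smul_comm]; exact Submodule.smul_mem _ _ ha

theorem Th_mul_Fil {k : ℕ} (f : LA Rq C.n) {m : H} (hm : m ∈ C.Fil k) :
    C.Th f * m ∈ C.Fil k := by
  induction f using AddMonoidAlgebra.induction_linear with
  | zero => simp
  | add f g hf hg => rw [map_add, add_mul]; exact add_mem hf hg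
  | single x r =>
    have e : (AddMonoidAlgebra.single x r : LA Rq C.n) = r • mon x := by
      simp [mon]
    rw [e, map_smul, C.Th_mon, smul_mul_assoc]
    exact Submodule.smul_mem _ _ (C.h7_th_mul_Fil x hm)

theorem Fil_mul_Ts {k : ℕ} {m : H} (hm : m ∈ C.Fil k) {i : B} (hi : i ∈ C.S0) :
    m * C.Ts i ∈ C.Fil (k + 1) := by
  induction hm using Submodule.span_induction with
  | mem t ht =>
    obtain ⟨y, v, hv, hl, rfl⟩ := ht
    have hs : v * cs.simple i ∈ C.W0 := mul_mem hv (C.simple_mem_WJ hi)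
    have hl' : cs.length (v * cs.simple i) < k + 1 := by
      have := cs.length_mul_le v (cs.simple i)
      rw [cs.length_simple] at this
      omega
    rw [mul_assoc]
    apply C.h7_th_mul_Fil
    rw [C.TJ_mul_Ts]
    split_ifs
    · exact C.h7_tv hs hl'
    · exact add_mem (C.h7_tv hs hl') (Submodule.smul_mem _ _ (C.h7_tv hv (by omega)))
  | zero => simp
  | add a b _ _ ha hb => rw [add_mul]; exact add_mem ha hb
  | smul r a _ ha => rw [smul_mul_assoc]; exact Submodule.smul_mem _ _ ha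

theorem h7_len {u : W} {j : B} (hl : cs.length u < cs.length (u * cs.simple j)) :
    cs.length (u * cs.simple j) = cs.length u + 1 := by
  have := cs.length_mul_le u (cs.simple j)
  rw [cs.length_simple] at this
  omega

theorem h7_tv_Ts {u : W} (hu : u ∈ C.W0) {j : B} (hj : j ∈ C.S0)
    (hl : cs.length u < cs.length (u * cs.simple j)) :
    C.TJ ∅ u * C.Ts j = C.TJ ∅ (u * cs.simple j) + C.cq j • C.TJ ∅ u := by
  have hs : u * cs.simple j ∈ C.W0 := mul_mem hu (C.simple_mem_WJ hj)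
  rw [C.TJ_mul_Ts, if_neg]
  rw [C.lenJ_empty_W0 hu, C.lenJ_empty_W0 hs]
  omega

theorem Tb_sub_Fil {v : W} (hv : v ∈ C.W0) : C.Tb v - C.TJ ∅ v ∈ C.Fil (cs.length v) := by
  refine C.WJ_induction (J := C.S0) subset_rfl
    (p := fun v => C.Tb v - C.TJ ∅ v ∈ C.Fil (cs.length v)) (by simp) ?_ hv
  intro u hu j hj hl ih
  have e1 : C.Tb (u * cs.simple j) = C.Tb u * C.Ts j := by
    rw [C.Tb_mul_Ts, if_pos hl]
  have e2 : C.Tb (u * cs.simple j) - C.TJ ∅ (u * cs.simple j) =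
      (C.Tb u - C.TJ ∅ u) * C.Ts j + C.cq j • C.TJ ∅ u := by
    rw [e1, sub_mul, C.h7_tv_Ts hu hj hl]
    abel
  rw [e2, h7_len hl]
  exact add_mem (C.Fil_mul_Ts ih hj) (Submodule.smul_mem _ _ (C.h7_tv hu (by omega)))

theorem tv_mul_Th {v : W} (hv : v ∈ C.W0) (f : LA Rq C.n) :
    C.TJ ∅ v * C.Th f - C.Th (C.act v f) * C.TJ ∅ v ∈ C.Fil (cs.length v) := by
  revert f
  refine C.WJ_induction (J := C.S0) subset_rfl
    (p := fun v => ∀ f, C.TJ ∅ v * C.Th f - C.Th (C.act v f) * C.TJ ∅ v ∈ C.Fil (cs.length v))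
    (by simp) ?_ hv
  intro u hu j hj hl ih f
  have h1 : ∀ g, C.TJ ∅ u * C.Th g ∈ C.Fil (cs.length u + 1) := fun g => by
    have := add_mem (C.Fil_mono (Nat.le_succ _) (ih g))
      (C.Th_mul_Fil (C.act u g) (C.h7_tv hu (Nat.lt_succ_self _)))
    rwa [sub_add_cancel] at this
  obtain ⟨g, hg, -⟩ := C.bern hj (C.act (cs.simple j) f)
  rw [← C.act_mul, cs.simple_mul_simple_self, C.act_one] at hg
  have e0 : C.TJ ∅ (u * cs.simple j) = C.TJ ∅ u * C.Ts j - C.cq j • C.TJ ∅ u := by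
    rw [C.h7_tv_Ts hu hj hl, add_sub_cancel_right]
  have e1 : C.Ts j * C.Th f = C.Th (C.act (cs.simple j) f) * C.Ts j - C.Th g := by
    rw [← hg, sub_sub_cancel]
  have e2 : C.TJ ∅ (u * cs.simple j) * C.Th f -
      C.Th (C.act (u * cs.simple j) f) * C.TJ ∅ (u * cs.simple j) =
      (C.TJ ∅ u * C.Th (C.act (cs.simple j) f) -
        C.Th (C.act u (C.act (cs.simple j) f)) * C.TJ ∅ u) * C.Ts j - C.TJ ∅ u * C.Th g -
        C.cq j • (C.TJ ∅ u * C.Th f) +
        C.cq j • (C.Th (C.act u (C.act (cs.simple j) f)) * C.TJ ∅ u) := by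
    rw [C.act_mul, e0, sub_mul, mul_assoc, e1]
    simp only [mul_sub, sub_mul, smul_mul_assoc, mul_smul_comm, mul_assoc]
    abel
  rw [e2, h7_len hl]
  exact add_mem (sub_mem (sub_mem (C.Fil_mul_Ts (ih _) hj) (h1 g))
    (Submodule.smul_mem _ _ (h1 f)))
    (Submodule.smul_mem _ _ (C.Th_mul_Fil _ (C.h7_tv hu (Nat.lt_succ_self _))))

theorem Fil_mul_Th {k : ℕ} {m : H} (hm : m ∈ C.Fil k) (f : LA Rq C.n) :
    m * C.Th f ∈ C.Fil k := by
  induction hm using Submodule.span_induction with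
  | mem t ht =>
    obtain ⟨y, v, hv, hl, rfl⟩ := ht
    rw [mul_assoc]
    apply C.h7_th_mul_Fil
    have := add_mem (C.Fil_mono hl.le (C.tv_mul_Th hv f))
      (C.Th_mul_Fil (C.act v f) (C.h7_tv hv hl))
    rwa [sub_add_cancel] at this
  | zero => simp
  | add a b _ _ ha hb => rw [add_mul]; exact add_mem ha hb
  | smul r a _ ha => rw [smul_mul_assoc]; exact Submodule.smul_mem _ _ ha

theorem Tb_mul_Th {v : W} (hv : v ∈ C.W0) (f : LA Rq C.n) :
    C.Tb v * C.Th f - C.Th (C.act v f) * C.Tb v ∈ C.Fil (cs.length v) := by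
  have e : C.Tb v * C.Th f - C.Th (C.act v f) * C.Tb v =
      (C.Tb v - C.TJ ∅ v) * C.Th f + (C.TJ ∅ v * C.Th f - C.Th (C.act v f) * C.TJ ∅ v) -
        C.Th (C.act v f) * (C.Tb v - C.TJ ∅ v) := by
    simp only [sub_mul, mul_sub]
    abel
  rw [e]
  exact sub_mem (add_mem (C.Fil_mul_Th (C.Tb_sub_Fil hv) f) (C.tv_mul_Th hv f))
    (C.Th_mul_Fil _ (C.Tb_sub_Fil hv))

theorem mem_Fil_left {k : ℕ} {m : H} : m ∈ C.Fil k ↔ m ∈ Submodule.span Rq
    {t | ∃ x, ∃ v ∈ C.W0, cs.length v < k ∧ t = C.Tb v * C.th x} := by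
  have key : ∀ (x : Lat C.n) (v : W), v ∈ C.W0 →
      C.Tb v * C.th x - C.th (C.gr v x) * C.TJ ∅ v ∈ C.Fil (cs.length v) := fun x v hv => by
    have h1 := add_mem (C.Tb_mul_Th hv (mon x)) (C.Th_mul_Fil (C.act v (mon x)) (C.Tb_sub_Fil hv))
    rw [C.act_mon, C.Th_mon, C.Th_mon, mul_sub, sub_add_sub_cancel] at h1
    exact h1
  constructor
  · induction k using Nat.strong_induction_on generalizing m with
    | _ k ih =>
      intro hm
      refine Submodule.span_le.2 ?_ hm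
      rintro t ⟨y, v, hv, hl, rfl⟩
      have h1 := ih _ hl (key (C.gr v⁻¹ y) v hv)
      rw [C.gr_gr_inv] at h1
      have h2 : C.Tb v * C.th (C.gr v⁻¹ y) - C.th y * C.TJ ∅ v ∈ Submodule.span Rq
          {t | ∃ x, ∃ v ∈ C.W0, cs.length v < k ∧ t = C.Tb v * C.th x} := by
        refine Submodule.span_mono ?_ h1
        rintro t ⟨x, u, hu, hl', rfl⟩
        exact ⟨x, u, hu, hl'.trans hl, rfl⟩
      have h3 : C.Tb v * C.th (C.gr v⁻¹ y) ∈ Submodule.span Rq
          {t | ∃ x, ∃ v ∈ C.W0, cs.length v < k ∧ t = C.Tb v * C.th x} :=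
        Submodule.subset_span ⟨_, v, hv, hl, rfl⟩
      have h4 := sub_mem h3 h2
      rwa [sub_sub_cancel] at h4
  · intro hm
    refine Submodule.span_le.2 ?_ hm
    rintro t ⟨x, v, hv, hl, rfl⟩
    have h1 := add_mem (C.Fil_mono hl.le (key x v hv)) (C.h7_gen (C.gr v x) hv hl)
    rwa [sub_add_cancel] at h1

theorem h7_down {m : H} (h : ∀ k, m ∈ C.Fil (k + 1) → m ∈ C.Fil k) : m = 0 := by
  obtain ⟨k, hk⟩ := C.exists_Fil_top
  have h1 : m ∈ C.Fil k := by rw [hk]; trivial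
  clear hk
  induction k with
  | zero => rwa [C.Fil_zero, Submodule.mem_bot] at h1
  | succ k ih => exact ih (h k h1)

theorem h7_repr_sum (f : W → LA Rq C.n) {v : W} (hv : v ∈ C.W0) (x : Lat C.n) :
    (C.bJ ∅).repr (∑ u ∈ C.WF C.S0, C.Th (f u) * C.TJ ∅ u) (C.tr x * v) = (f v).coeff x := by
  rw [map_sum, Finsupp.finsetSum_apply, Finset.sum_eq_single v]
  · rw [C.repr_Th _ hv hv, if_pos rfl]
  · intro u hu hne
    rw [C.repr_Th _ ((C.mem_WF subset_rfl).1 hu) hv, if_neg hne]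
  · intro h
    exact absurd ((C.mem_WF subset_rfl).2 hv) h

theorem h7_sum_mem {k : ℕ} {f : W → LA Rq C.n} :
    ∑ u ∈ C.WF C.S0, C.Th (f u) * C.TJ ∅ u ∈ C.Fil k ↔
      ∀ v ∈ C.W0, k ≤ cs.length v → f v = 0 := by
  constructor
  · intro h v hv hl
    refine AddMonoidAlgebra.ext (Finsupp.ext fun x => ?_)
    rw [← C.h7_repr_sum f hv x]
    exact C.mem_Fil.1 h _ (by rwa [C.fp_tr_mul x hv])
  · intro h
    refine Submodule.sum_mem _ fun u hu => ?_
    have hu' : u ∈ C.W0 := (C.mem_WF subset_rfl).1 hu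
    rcases lt_or_ge (cs.length u) k with hl | hl
    · exact C.Th_mul_Fil _ (C.h7_tv hu' hl)
    · rw [h u hu' hl, map_zero, zero_mul]
      exact zero_mem _

theorem h7_sum_mul {k : ℕ} {f : W → LA Rq C.n} (h : ∀ v ∈ C.W0, k + 1 ≤ cs.length v → f v = 0)
    (a : LA Rq C.n) : (∑ u ∈ C.WF C.S0, C.Th (f u) * C.TJ ∅ u) * C.Th a -
      ∑ u ∈ C.WF C.S0, C.Th (f u * C.act u a) * C.TJ ∅ u ∈ C.Fil k := by
  rw [Finset.sum_mul, ← Finset.sum_sub_distrib]
  refine Submodule.sum_mem _ fun u hu => ?_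
  have hu' : u ∈ C.W0 := (C.mem_WF subset_rfl).1 hu
  rcases le_or_gt (cs.length u) k with hl | hl
  · rw [map_mul, mul_assoc, mul_assoc, ← mul_sub]
    exact C.Th_mul_Fil _ (C.Fil_mono hl (C.tv_mul_Th hu' a))
  · rw [h u hu' hl]
    simp

/-- (U) -/
theorem intertw_unique {g : W} (hg : g ∈ C.W0) {m : H}
    (hm : ∀ x, C.th (C.gr g x) * m = m * C.th x)
    (h0 : ∀ x, (C.bJ ∅).repr m (C.tr x * g) = 0) : m = 0 := by
  obtain ⟨f, rfl⟩ := C.exists_coord m
  refine C.h7_down fun k hk => ?_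
  rw [C.h7_sum_mem] at hk ⊢
  intro v hv hl
  rcases hl.lt_or_eq with hl | hl
  · exact hk v hv hl
  by_cases hg' : v = g
  · subst hg'
    ext x
    rw [← C.h7_repr_sum f hv x, h0]
    rfl
  obtain ⟨x, hx⟩ : ∃ x, C.gr g x ≠ C.gr v x := by
    by_contra hc
    push Not at hc
    exact hg' (C.gr_inj hv hg (LinearEquiv.ext fun x => (hc x).symm))
  have h1 := C.h7_sum_mul hk (mon x)
  rw [C.Th_mon, ← hm x, ← C.Th_mon, Finset.mul_sum, ← Finset.sum_sub_distrib] at h1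
  have h2 : ∑ u ∈ C.WF C.S0, C.Th (f u * (mon (C.gr g x) - mon (C.gr u x))) * C.TJ ∅ u ∈
      C.Fil k := by
    convert h1 using 2 with u _
    rw [C.act_mon, ← mul_assoc, ← map_mul, ← sub_mul, ← map_sub, mul_sub, mul_comm (f u)]
  rw [C.h7_sum_mem (f := fun u => f u * (mon (C.gr g x) - mon (C.gr u x)))] at h2
  have h3 := h2 v hv hl.le
  refine (mul_eq_zero.1 h3).resolve_right fun h4 => hx ?_
  have h5 : (mon (C.gr g x) : LA Rq C.n) = mon (C.gr v x) := sub_eq_zero.1 h4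
  unfold mon at h5
  exact (AddMonoidAlgebra.single_left_inj one_ne_zero).1 h5

theorem word_intertw (ω : List B) (hω : ∀ i ∈ ω, i ∈ C.S0) (f : LA Rq C.n) :
    (ω.map C.iot).prod * C.Th f = C.Th (C.act (cs.wordProd ω) f) * (ω.map C.iot).prod := by
  induction ω with
  | nil => simp
  | cons i ω ih =>
    rw [List.map_cons, List.prod_cons, mul_assoc, ih fun j hj => hω j (List.mem_cons_of_mem _ hj),
      ← mul_assoc, C.iot_mul_Th (hω i List.mem_cons_self), cs.wordProd_cons, C.act_mul,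
      mul_assoc]

theorem h7_word_mem {J : Finset B} (ω : List B) (hω : ∀ i ∈ ω, i ∈ J) :
    cs.wordProd ω ∈ C.WJ J := by
  induction ω with
  | nil => simp
  | cons i ω ih =>
    rw [cs.wordProd_cons]
    exact mul_mem (C.simple_mem_WJ (hω i List.mem_cons_self))
      (ih fun j hj => hω j (List.mem_cons_of_mem _ hj))

theorem h7_Del {w : W} (hw : w ∈ C.W0) {i : B} (hi : i ∈ C.S0)
    (hl : cs.length w < cs.length (w * cs.simple i)) :
    C.Del (w * cs.simple i) = C.Del w * C.act w (C.dd (C.sr i)) := by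
  have h0 : C.pb w⁻¹ (C.sr i) ∈ C.Rp := (C.asc_iff hw hi).1 hl
  have h0' := (C.mem_Rp.1 h0).1
  have e0 : C.pb w (C.pb w⁻¹ (C.sr i)) = C.sr i := C.pb_pb_inv _ _
  have h1 : C.mu w (C.pb w⁻¹ (C.sr i)) = 0 := by
    rw [C.mu_W0_iff hw h0', e0]
    exact C.sr_mem_Rp hi
  have h2 : C.Rp.filter (fun γ => C.mu (w * cs.simple i) γ = -1) =
      insert (C.pb w⁻¹ (C.sr i)) (C.Rp.filter fun γ => C.mu w γ = -1) := by
    ext γ
    simp only [Finset.mem_filter, Finset.mem_insert]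
    by_cases hγ : γ = C.pb w⁻¹ (C.sr i)
    · subst hγ
      simp [h0, C.mu_step h0' e0, h1]
    · constructor
      · rintro ⟨h3, h4⟩
        exact Or.inr ⟨h3, by rwa [C.wall_ne h0 (Or.inl e0) h3 hγ] at h4⟩
      · rintro (h3 | ⟨h3, h4⟩)
        · exact absurd h3 hγ
        · exact ⟨h3, by rwa [C.wall_ne h0 (Or.inl e0) h3 hγ]⟩
  unfold Del
  rw [h2, Finset.prod_insert (by simp [h1]), mul_comm, ← C.act_dd w h0', e0]

theorem word_top (ω : List B) (hω : ∀ i ∈ ω, i ∈ C.S0) (hr : cs.IsReduced ω) :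
    (ω.map C.iot).prod - C.Th (C.Del (cs.wordProd ω)) * C.TJ ∅ (cs.wordProd ω) ∈
      C.Fil ω.length := by
  induction ω using List.reverseRecOn with
  | nil =>
    have e : C.Del 1 = 1 := by
      unfold Del
      rw [Finset.filter_eq_empty_iff.2, Finset.prod_empty]
      intro γ hγ
      rw [(C.mem_Rp.1 hγ).2]
      decide
    simp [e]
  | append_singleton ω i ih =>
    have hω' : ∀ j ∈ ω, j ∈ C.S0 := fun j hj => hω j (List.mem_append_left _ hj)
    have hi : i ∈ C.S0 := hω i (by simp)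
    have hr' : cs.IsReduced ω := by
      have := hr.take ω.length
      rwa [List.take_left'  rfl] at this
    have hw := C.h7_word_mem ω hω'
    have hlen : cs.length (cs.wordProd ω) = ω.length := hr'
    have hl : cs.length (cs.wordProd ω) < cs.length (cs.wordProd ω * cs.simple i) := by
      have h1 : cs.length (cs.wordProd (ω ++ [i])) = (ω ++ [i]).length := hr
      rw [cs.wordProd_append, cs.wordProd_singleton, List.length_append, List.length_singleton]
        at h1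
      omega
    have ih' := ih hω' hr'
    rw [cs.wordProd_append, cs.wordProd_singleton, List.map_append, List.prod_append,
      List.map_singleton, List.prod_singleton, List.length_append, List.length_singleton,
      C.h7_Del hw hi hl]
    set w := cs.wordProd ω
    set P := (ω.map C.iot).prod
    have h1 := C.tv_mul_Th hw (C.dd (C.sr i))
    rw [hlen] at h1
    have h2 : C.TJ ∅ w ∈ C.Fil (ω.length + 1) := C.h7_tv hw (by omega)
    have e0 : C.TJ ∅ (w * cs.simple i) = C.TJ ∅ w * C.Ts i - C.cq i • C.TJ ∅ w := by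
      rw [C.h7_tv_Ts hw hi hl, add_sub_cancel_right]
    have e : P * C.iot i - C.Th (C.Del w * C.act w (C.dd (C.sr i))) * C.TJ ∅ (w * cs.simple i) =
        (P - C.Th (C.Del w) * C.TJ ∅ w) * C.Th (C.dd (C.sr i)) * C.Ts i -
        (P - C.Th (C.Del w) * C.TJ ∅ w) * C.Th (C.nn i) +
        C.Th (C.Del w) * ((C.TJ ∅ w * C.Th (C.dd (C.sr i)) -
          C.Th (C.act w (C.dd (C.sr i))) * C.TJ ∅ w) * C.Ts i) -
        C.Th (C.Del w) * (C.TJ ∅ w * C.Th (C.nn i)) +
        C.cq i • (C.Th (C.Del w * C.act w (C.dd (C.sr i))) * C.TJ ∅ w) := by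
      rw [e0, map_mul]
      unfold iot
      simp only [mul_sub, sub_mul, mul_smul_comm, mul_assoc]
      abel
    rw [e]
    exact add_mem (sub_mem (add_mem (sub_mem (C.Fil_mul_Ts (C.Fil_mul_Th ih' _) hi)
      (C.Fil_mono (Nat.le_succ _) (C.Fil_mul_Th ih' _)))
      (C.Th_mul_Fil _ (C.Fil_mul_Ts h1 hi))) (C.Th_mul_Fil _ (C.Fil_mul_Th h2 _)))
      (Submodule.smul_mem _ _ (C.Th_mul_Fil _ h2))

theorem h7_word_spec {w : W} (hw : w ∈ C.W0) :
    cs.IsReduced (C.word w) ∧ cs.wordProd (C.word w) = w ∧ ∀ i ∈ C.word w, i ∈ C.S0 :=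
  Classical.epsilon_spec (C.exists_word subset_rfl hw)

theorem iotw_word (ω : List B) (hω : ∀ i ∈ ω, i ∈ C.S0) (hr : cs.IsReduced ω) :
    C.iotw (cs.wordProd ω) = (ω.map C.iot).prod := by
  have hw := C.h7_word_mem ω hω
  obtain ⟨h1, h2, h3⟩ := C.h7_word_spec hw
  refine sub_eq_zero.1 (C.intertw_unique hw (fun x => ?_) fun x => ?_)
  · have e1 := C.word_intertw ω hω (mon x)
    have e2 := C.word_intertw _ h3 (mon x)
    rw [h2] at e2
    rw [C.act_mon, C.Th_mon, C.Th_mon] at e1 e2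
    unfold iotw
    rw [mul_sub, sub_mul, e1, e2]
  · have e1 := C.word_top ω hω hr
    have e2 := C.word_top _ h3 h1
    have l1 : cs.length (cs.wordProd ω) = ω.length := hr
    have l2 : cs.length (cs.wordProd (C.word (cs.wordProd ω))) = _ := h1
    rw [h2] at e2 l2
    rw [← l2] at e2
    rw [← l1] at e1
    have e3 := sub_mem e2 e1
    rw [sub_sub_sub_cancel_right] at e3
    exact C.mem_Fil.1 e3 _ (by rw [C.fp_tr_mul x hw])

theorem iotw_one : C.iotw 1 = 1 := by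
  have h := C.iotw_word [] (by simp) (by simp [CoxeterSystem.IsReduced])
  simpa using h

theorem iotw_simple {i : B} (hi : i ∈ C.S0) : C.iotw (cs.simple i) = C.iot i := by
  have h := C.iotw_word [i] (by simpa using hi) (by simp [CoxeterSystem.IsReduced])
  simpa using h

theorem iotw_mul {w w' : W} (hw : w ∈ C.W0) (hw' : w' ∈ C.W0)
    (h : cs.length (w * w') = cs.length w + cs.length w') :
    C.iotw (w * w') = C.iotw w * C.iotw w' := by
  obtain ⟨h1, h2, h3⟩ := C.h7_word_spec hw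
  obtain ⟨h1', h2', h3'⟩ := C.h7_word_spec hw'
  have l1 : cs.length (cs.wordProd (C.word w)) = _ := h1
  have l2 : cs.length (cs.wordProd (C.word w')) = _ := h1'
  rw [h2] at l1
  rw [h2'] at l2
  have e : cs.wordProd (C.word w ++ C.word w') = w * w' := by
    rw [cs.wordProd_append, h2, h2']
  have h4 := C.iotw_word (C.word w ++ C.word w')
    (fun i hi => (List.mem_append.1 hi).elim (h3 i) (h3' i))
    (by
      show cs.length _ = _
      rw [e, h, List.length_append, l1, l2])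
  rw [e, List.map_append, List.prod_append] at h4
  exact h4

theorem iotw_mul_Th {w : W} (hw : w ∈ C.W0) (f : LA Rq C.n) :
    C.iotw w * C.Th f = C.Th (C.act w f) * C.iotw w := by
  obtain ⟨-, h2, h3⟩ := C.h7_word_spec hw
  have h := C.word_intertw _ h3 f
  rw [h2] at h
  exact h

theorem iotw_mem {J : Finset B} (hJ : J ⊆ C.S0) {w : W} (hw : w ∈ C.WJ J) :
    C.iotw w ∈ C.HJ J := by
  obtain ⟨ω, h1, rfl, h3⟩ := C.exists_word hJ hw
  rw [C.iotw_word ω (fun i hi => hJ (h3 i hi)) h1]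
  refine list_prod_mem fun a ha => ?_
  obtain ⟨i, hi, rfl⟩ := List.mem_map.1 ha
  exact C.iot_mem_HJ (h3 i hi)

/-- `ι_{w⁻¹} ι_w` is a unit times linear factors attached to the inversions of `w` -/
theorem iotw_inv_mul {w : W} (hw : w ∈ C.W0) : ∃ (l : List (LA Rq C.n)) (y : Lat C.n) (ε : ℤˣ),
    (∀ f ∈ l, C.Lin (fun x => ∃ γ ∈ C.Rp, C.pb w⁻¹ γ ∉ C.Rp ∧ x = C.co γ) f) ∧
      C.iotw w⁻¹ * C.iotw w = C.Th ((ε : ℤ) • mon y * l.prod) := by
  refine C.WJ_induction (J := C.S0) subset_rfl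
    (p := fun w => ∃ (l : List (LA Rq C.n)) (y : Lat C.n) (ε : ℤˣ),
    (∀ f ∈ l, C.Lin (fun x => ∃ γ ∈ C.Rp, C.pb w⁻¹ γ ∉ C.Rp ∧ x = C.co γ) f) ∧
      C.iotw w⁻¹ * C.iotw w = C.Th ((ε : ℤ) • mon y * l.prod)) ?_ ?_ hw
  · refine ⟨[], 0, 1, by simp, ?_⟩
    simp [C.iotw_one]
  intro u hu j hj hl ih
  obtain ⟨l, y, ε, h1, h2⟩ := ih
  obtain ⟨l', h3, h4⟩ := C.NN_fac hj
  have hs : cs.simple j ∈ C.W0 := C.simple_mem_WJ hj
  have h0 : C.pb u⁻¹ (C.sr j) ∈ C.Rp := (C.asc_iff hu hj).1 hl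
  have einv : (u * cs.simple j)⁻¹ = cs.simple j * u⁻¹ := by
    rw [mul_inv_rev, cs.inv_simple]
  have e1 : C.iotw (u * cs.simple j) = C.iotw u * C.iot j := by
    rw [C.iotw_mul hu hs (by rw [h7_len hl, cs.length_simple]), C.iotw_simple hj]
  have e2 : C.iotw (u * cs.simple j)⁻¹ = C.iot j * C.iotw u⁻¹ := by
    rw [einv, C.iotw_mul hs (inv_mem hu), C.iotw_simple hj]
    rw [← einv, cs.length_inv, cs.length_inv, h7_len hl, cs.length_simple, add_comm]
  refine ⟨l.map (C.act (cs.simple j)) ++ l',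
    C.gr (cs.simple j) y + -(2 : ℤ) • C.co (C.sr j), -ε, ?_, ?_⟩
  · intro f hf
    rcases List.mem_append.1 hf with hf | hf
    · obtain ⟨f', hf', rfl⟩ := List.mem_map.1 hf
      obtain ⟨x, ⟨γ, hγ, hn, rfl⟩, k, ε', rfl⟩ := h1 f' hf'
      have hne : γ ≠ C.sr j := by
        rintro rfl
        exact hn h0
      have hγ' := C.simple_perm hj hγ hne
      refine ⟨C.co (C.pb (cs.simple j) γ), ⟨_, hγ', ?_, rfl⟩, k, ε', ?_⟩
      · rwa [einv, C.pb_mul, C.pb_simple_simple]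
      · have e3 := C.co_pb (cs.simple j) (C.mem_Rp.1 hγ').1
        rw [C.pb_simple_simple] at e3
        rw [map_sub, C.act_mon, AlgHom.commutes, e3]
    · obtain ⟨x, rfl, k, ε', rfl⟩ := h3 f hf
      refine ⟨_, ⟨_, C.sr_mem_Rp hj, ?_, rfl⟩, k, ε', rfl⟩
      rw [einv, C.pb_mul, C.pb_simple_sr, C.pb_neg, C.neg_mem_Rp (C.mem_Rp.1 h0).1, not_not]
      exact h0
  · rw [e1, e2, mul_assoc, ← mul_assoc (C.iotw u⁻¹), h2, ← mul_assoc, C.iot_mul_Th hj, mul_assoc,
      C.iot_sq hj, ← map_mul, h4]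
    congr 1
    have e4 : ∀ a b : Lat C.n, (mon (a + b) : LA Rq C.n) = mon a * mon b := fun a b => by
      simp [mon, AddMonoidAlgebra.single_mul_single]
    rw [map_mul, map_zsmul, C.act_mon, map_list_prod, List.prod_append, e4]
    simp only [Units.val_neg, neg_smul, zsmul_eq_mul]
    ring

theorem lin_ne_zero {P : Lat C.n → Prop} (hP : ∀ x, P x → x ≠ 0) {f : LA Rq C.n}
    (hf : C.Lin P f) : f ≠ 0 := by
  obtain ⟨x, hx, k, ε, rfl⟩ := hf
  intro h
  have h1 := congrArg (fun f : LA Rq C.n => f.coeff x) h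
  have h2 := hP x hx
  simp [mon, AddMonoidAlgebra.coe_algebraMap, h2.symm] at h1

theorem h7_inv_mul {w : W} (hw : w ∈ C.W0) : ∃ F : LA Rq C.n, F ≠ 0 ∧
    C.iotw w⁻¹ * C.iotw w = C.Th F := by
  obtain ⟨l, y, ε, h1, h2⟩ := C.iotw_inv_mul hw
  refine ⟨_, mul_ne_zero ?_ (List.prod_ne_zero fun h0 => ?_), h2⟩
  · have h3 : (mon y : LA Rq C.n) ≠ 0 := by simp [mon]
    rcases Int.units_eq_one_or ε with rfl | rfl <;> simpa using h3
  · refine C.lin_ne_zero ?_ (h1 0 h0) rfl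
    rintro x ⟨γ, hγ, -, rfl⟩
    exact C.co_ne_zero (C.mem_Rp.1 hγ).1

theorem iotw_cancel_right {w : W} (hw : w ∈ C.W0) {a : H} (h : C.iotw w * a = 0) : a = 0 := by
  obtain ⟨F, hF, e⟩ := C.h7_inv_mul hw
  refine C.Th_mul_eq_zero hF ?_
  rw [← e, mul_assoc, h, mul_zero]

/-- `H` is also torsion free as a right `A`-module (top terms in the filtration) -/
theorem mul_Th_eq_zero {f : LA Rq C.n} (hf : f ≠ 0) {h : H} (e : h * C.Th f = 0) : h = 0 := by
  obtain ⟨F, rfl⟩ := C.exists_coord h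
  refine C.h7_down fun k hk => ?_
  rw [C.h7_sum_mem] at hk ⊢
  intro v hv hl
  have h1 := neg_mem (C.h7_sum_mul hk f)
  rw [e, zero_sub, neg_neg, C.h7_sum_mem (f := fun u => F u * C.act u f)] at h1
  refine (mul_eq_zero.1 (h1 v hv hl)).resolve_right fun h2 => hf ?_
  have h3 := congrArg (C.act v⁻¹) h2
  rwa [← C.act_mul, inv_mul_cancel, C.act_one, map_zero] at h3

theorem iotw_cancel_left {w : W} (hw : w ∈ C.W0) {a : H} (h : a * C.iotw w = 0) : a = 0 := by
  obtain ⟨F, hF, e⟩ := C.h7_inv_mul (inv_mem hw)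
  rw [inv_inv] at e
  refine C.mul_Th_eq_zero hF ?_
  rw [← e, ← mul_assoc, h, zero_mul]

end HC

end Pool.Agent.P.MP_74db7f_al
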