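import Pool.Agent.P.MP_74db7f_al.F.H7

/-! H8: the correspondence `a ~ a'` between `H^J` and `H^{J'}` (paper, section 2). -/

namespace Pool.Agent.P.MP_74db7f_al

open scoped Classical

namespace HC

variable {B W H : Type*} [Group W] {M : CoxeterMatrix B} {cs : CoxeterSystem M W} [Ring H]
  [Algebra Rq H] (C : HC cs H)

variable {C} {J J' : Finset B} {w : W}

theorem Sim.symm {a a' : H} (h : C.Sim J J' w a a') : C.Sim J' J w⁻¹ a' a := by
  refine ⟨h.mem', h.mem, h.right.symm, ?_⟩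
  rw [inv_inv]
  exact h.left.symm

theorem Sim.add {a a' b b' : H} (h : C.Sim J J' w a a') (h' : C.Sim J J' w b b') :
    C.Sim J J' w (a + b) (a' + b') := by
  refine ⟨add_mem h.mem h'.mem, add_mem h.mem' h'.mem', ?_, ?_⟩
  · rw [mul_add, add_mul, h.left, h'.left]
  · rw [mul_add, add_mul, h.right, h'.right]

theorem Sim.smul (r : Rq) {a a' : H} (h : C.Sim J J' w a a') :
    C.Sim J J' w (r • a) (r • a') := by
  refine ⟨Subalgebra.smul_mem _ h.mem r, Subalgebra.smul_mem _ h.mem' r, ?_, ?_⟩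
  · rw [mul_smul_comm, smul_mul_assoc, h.left]
  · rw [mul_smul_comm, smul_mul_assoc, h.right]

theorem Sim.mul {a a' b b' : H} (h : C.Sim J J' w a a') (h' : C.Sim J J' w b b') :
    C.Sim J J' w (a * b) (a' * b') := by
  refine ⟨mul_mem h.mem h'.mem, mul_mem h.mem' h'.mem', ?_, ?_⟩
  · rw [← mul_assoc, h.left, mul_assoc, h'.left, mul_assoc]
  · rw [mul_assoc, h'.right, ← mul_assoc, h.right, mul_assoc]

theorem sim_one : C.Sim J J' w 1 1 := by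
  exact ⟨one_mem _, one_mem _, by rw [mul_one, one_mul], by rw [mul_one, one_mul]⟩

theorem sim_Th (hw : w ∈ C.W0) (f : LA Rq C.n) :
    C.Sim J J' w (C.Th f) (C.Th (C.act w f)) := by
  refine ⟨C.Th_mem_HJ J f, C.Th_mem_HJ J' _, C.iotw_mul_Th hw f, ?_⟩
  rw [C.iotw_mul_Th (inv_mem hw), ← C.act_mul, inv_mul_cancel, C.act_one]

theorem Sim.unique (hw : w ∈ C.W0) {a a' a'' : H} (h : C.Sim J J' w a a')
    (h' : C.Sim J J' w a a'') : a' = a'' := by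
  refine sub_eq_zero.mp (C.iotw_cancel_left hw ?_)
  rw [sub_mul, ← h.left, ← h'.left, sub_self]

theorem h8_coeff (w : W) (f : LA Rq C.n) (x : Lat C.n) :
    (C.act w f).coeff (C.gr w x) = f.coeff x := by
  simp only [act, AddMonoidAlgebra.mapDomainAlgHom_apply, AddMonoidAlgebra.coeff_mapDomain]
  exact Finsupp.mapDomain_apply (C.gr w).injective f.coeff x

theorem h8_left (h : C.Mv J J' w) {j j' : B} (hj : j ∈ J) (hj' : j' ∈ J')
    (e : C.pb w (C.sr j') = C.sr j) : C.iotw w * C.Ts j = C.Ts j' * C.iotw w := by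
  obtain ⟨e1, e2⟩ := h.simple hj hj' e
  have s1 := h.sub hj
  have s2 := h.sub' hj'
  have h1 : C.iotw w * C.iot j = C.iot j' * C.iotw w := by
    rw [← C.iotw_simple s1, ← C.iotw_simple s2,
      ← C.iotw_mul h.mem (C.simple_mem_WJ s1) (by rw [e2, cs.length_simple]),
      ← C.iotw_mul (C.simple_mem_WJ s2) h.mem (by rw [← e1, e2, cs.length_simple, add_comm]), e1]
  have h2 : C.cq j = C.cq j' := C.L_eq_of_conj e1 e2
  have h3 : C.act w (C.NN j) = C.NN j' := by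
    refine C.Th_injective (sub_eq_zero.mp (C.iotw_cancel_left h.mem ?_))
    rw [sub_mul, ← C.iotw_mul_Th h.mem, ← C.iot_sq s1, ← C.iot_sq s2, ← mul_assoc, h1, mul_assoc,
      h1, mul_assoc, sub_self]
  have h4 : C.gr w (C.co (C.sr j)) = C.co (C.sr j') := by
    rw [← e]
    exact C.co_pb w (C.sr_mem j')
  have h5 : C.cq (C.nx j) = C.cq (C.nx j') := by
    have k := h8_coeff w (C.NN j) (C.co (C.sr j))
    rw [h3, h4, C.NN_coeff s1, C.NN_coeff s2, h2] at k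
    exact (mul_left_cancel₀ (C.cq_ne_zero j') k).symm
  have h6 : C.act w (C.nn j) = C.nn j' := by
    rw [nn, nn, map_add, map_smul, C.act_mon, AlgHom.commutes, h2, h4, h5]
  have h7 : C.act w (C.dd (C.sr j)) = C.dd (C.sr j') := by
    rw [← e]
    exact C.act_dd w (C.sr_mem j')
  rw [iot, iot, mul_sub, sub_mul, ← mul_assoc, C.iotw_mul_Th h.mem, C.iotw_mul_Th h.mem, h6, h7,
    sub_left_inj] at h1
  refine sub_eq_zero.mp (C.Th_mul_eq_zero (C.dd_ne_zero (C.sr_mem j')) ?_)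
  rw [mul_sub, ← mul_assoc, ← mul_assoc, h1, sub_self]

/-- from `ι_w ι_j = ι_{j'} ι_w`, `w N_j = N_{j'}`, `NN_coeff`, `L_eq_of_conj` -/
theorem sim_Ts (h : C.Mv J J' w) {j j' : B} (hj : j ∈ J) (hj' : j' ∈ J')
    (e : C.pb w (C.sr j') = C.sr j) : C.Sim J J' w (C.Ts j) (C.Ts j') := by
  refine ⟨C.Tb_mem_HJ h.sub (C.simple_mem_WJ hj), C.Tb_mem_HJ h.sub' (C.simple_mem_WJ hj'),
    h8_left h hj hj' e, (h8_left h.symm hj' hj ?_).symm⟩
  rw [← e, C.pb_inv_pb]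

theorem sim_Tb (h : C.Mv J J' w) {u : W} (hu : u ∈ C.WJ J) :
    C.Sim J J' w (C.Tb u) (C.Tb (w * u * w⁻¹)) := by
  refine C.WJ_induction h.sub
    (p := fun u => C.Sim J J' w (C.Tb u) (C.Tb (w * u * w⁻¹))) ?_ ?_ hu
  · rw [mul_one, mul_inv_cancel, C.Tb_one]
    exact sim_one
  · intro u hu j hj hl ih
    obtain ⟨j', hj', e⟩ := h.fwd j hj
    have e1 : w * (u * cs.simple j) * w⁻¹ = w * u * w⁻¹ * cs.simple j' := by
      have := (h.simple hj hj' e).1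
      rw [← mul_left_inj w, inv_mul_cancel_right, mul_assoc _ _ w, ← this]
      group
    have l1 := (h.conj_mem hu).2
    have l2 := (h.conj_mem (mul_mem hu (C.simple_mem_WJ hj))).2
    rw [e1] at l2 ⊢
    have k := ih.mul (sim_Ts h hj hj' e)
    rwa [C.Tb_mul_Ts, C.Tb_mul_Ts, if_pos hl, if_pos (by rw [l1, l2]; exact hl)] at k

theorem h8_inv {v : W} (hv : v ∈ C.W0) : C.Tb v⁻¹ * C.TJ ∅ v = 1 :=
  (C.isUnit_Tb v⁻¹).mul_right_cancel (by rw [mul_assoc, C.TJ_empty_mul hv, mul_one, one_mul])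

theorem h8_WJ {u : W} (hu : u ∈ C.WJ J) : u ∈ C.YJ J :=
  Subgroup.closure_mono Set.subset_union_right hu

theorem h8_tr (x : Lat C.n) : C.tr x ∈ C.YJ J :=
  Subgroup.subset_closure (Or.inl ⟨x, rfl⟩)

theorem h8_th (hw : w ∈ C.W0) (x : Lat C.n) : C.Sim J J' w (C.th x) (C.th (C.gr w x)) := by
  have := sim_Th (J := J) (J' := J') hw (mon x)
  rwa [C.act_mon, C.Th_mon, C.Th_mon] at this

theorem h8_tv (h : C.Mv J J' w) {v : W} (hv : v ∈ C.WJ J) :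
    C.Sim J J' w (C.TJ ∅ v) (C.TJ ∅ (w * v * w⁻¹)) := by
  have hv' := (h.conj_mem hv).1
  have k := sim_Tb h (inv_mem hv)
  rw [show w * v⁻¹ * w⁻¹ = (w * v * w⁻¹)⁻¹ by group] at k
  have a1 := C.TJ_empty_mul (C.WJ_mono h.sub hv)
  have a2 := h8_inv (C.WJ_mono h.sub hv)
  have b1 := C.TJ_empty_mul (C.WJ_mono h.sub' hv')
  have b2 := h8_inv (C.WJ_mono h.sub' hv')
  have m := C.TJ_empty_mem_HJ h.sub' hv'
  generalize w * v * w⁻¹ = v' at k b1 b2 m ⊢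
  refine ⟨C.TJ_empty_mem_HJ h.sub hv, m, ?_, ?_⟩
  · rw [← one_mul (C.iotw w * _), ← b1, mul_assoc, ← mul_assoc (C.Tb _), ← k.left, mul_assoc, a2,
      mul_one]
  · rw [← mul_one (_ * C.iotw w⁻¹), ← b2, ← mul_assoc, mul_assoc (C.TJ ∅ v), ← k.right,
      ← mul_assoc, a1, one_mul]

theorem sim_TJ_empty (h : C.Mv J J' w) {y : W} (hy : y ∈ C.YJ J) :
    C.Sim J J' w (C.TJ ∅ y) (C.TJ ∅ (w * y * w⁻¹)) := by
  have hv := (C.mem_YJ h.sub).mp hy
  have k := (h8_th h.mem (C.xp y)).mul (h8_tv h hv)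
  rw [C.th_mul_TJ_empty, C.th_mul_TJ_empty, C.tr_xp_fp, ← mul_assoc, ← mul_assoc, ← C.conj,
    mul_assoc w, C.tr_xp_fp] at k
  exact k

theorem h8_TJ (hJ : J ⊆ C.S0) {u g : W} (hu : u ∈ C.WJ J) (hg : C.ADom J g) :
    C.Tb u * C.TJ ∅ g = C.TJ J (u * g) := by
  rw [← C.TJ_cmp (Finset.empty_subset J) hJ hg]
  refine C.Tb_mul_TJ hJ hu (C.lenJ_add hJ hu fun γ hγ hn => C.mu_adom hJ hg hγ ?_)
  by_contra h0
  exact hn (C.pb_mem_Rp hJ (inv_mem hu) hγ h0)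

theorem sim_TJ (h : C.Mv J J' w) {y : W} (hy : y ∈ C.YJ J) :
    C.Sim J J' w (C.TJ J y) (C.TJ J' (w * y * w⁻¹)) := by
  obtain ⟨u, hu, ha⟩ := C.exists_adom h.sub y
  have hg : u⁻¹ * y ∈ C.YJ J := mul_mem (h8_WJ (inv_mem hu)) hy
  have k := (sim_Tb h hu).mul (sim_TJ_empty h hg)
  rw [h8_TJ h.sub hu ha, h8_TJ h.sub' (h.conj_mem hu).1 (h.adom hg ha), mul_inv_cancel_left,
    show w * u * w⁻¹ * (w * (u⁻¹ * y) * w⁻¹) = w * y * w⁻¹ by group] at k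
  exact k

theorem h8_span {G : Set H} (φ φ' : H → Rq) (h0 : φ 0 = φ' 0)
    (ha1 : ∀ x y, φ (x + y) = φ x + φ y) (ha2 : ∀ x y, φ' (x + y) = φ' x + φ' y)
    (hs1 : ∀ (r : Rq) x, φ (r • x) = r * φ x) (hs2 : ∀ (r : Rq) x, φ' (r • x) = r * φ' x)
    (hG : ∀ t ∈ G, ∃ t', C.Sim J J' w t t' ∧ φ t = φ' t') {a : H}
    (ha : a ∈ Submodule.span Rq G) : ∃ a', C.Sim J J' w a a' ∧ φ a = φ' a' := by
  induction ha using Submodule.span_induction with
  | mem t ht => exact hG t ht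
  | zero =>
    exact ⟨0, ⟨zero_mem _, zero_mem _, by rw [mul_zero, zero_mul], by rw [mul_zero, zero_mul]⟩, h0⟩
  | add a b _ _ ha hb =>
    obtain ⟨a', a1, a2⟩ := ha
    obtain ⟨b', b1, b2⟩ := hb
    exact ⟨_, a1.add b1, by rw [ha1, ha2, a2, b2]⟩
  | smul r a _ ha =>
    obtain ⟨a', a1, a2⟩ := ha
    exact ⟨_, a1.smul r, by rw [hs1, hs2, a2]⟩

theorem h8_span_ip {G : Set H} (K K' : Finset B)
    (hG : ∀ t ∈ G, ∃ t', C.Sim J J' w t t' ∧ C.ip K t 1 = C.ip K' t' 1) {a : H}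
    (ha : a ∈ Submodule.span Rq G) : ∃ a', C.Sim J J' w a a' ∧ C.ip K a 1 = C.ip K' a' 1 := by
  have k1 : ∀ (I : Finset B) x y, C.ip I (x + y) 1 = C.ip I x 1 + C.ip I y 1 := fun I x y => by
    rw [map_add, LinearMap.add_apply]
  have k2 : ∀ (I : Finset B) (r : Rq) x, C.ip I (r • x) 1 = r * C.ip I x 1 := fun I r x => by
    rw [map_smul, LinearMap.smul_apply, smul_eq_mul]
  exact h8_span (fun t => C.ip K t 1) (fun t => C.ip K' t 1)
    (by simp only [map_zero, LinearMap.zero_apply]) (k1 K) (k1 K') (k2 K) (k2 K') hG ha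

theorem h8_ip (K K' : Finset B) (w y : W) :
    C.ip K (C.TJ K y) 1 = C.ip K' (C.TJ K' (w * y * w⁻¹)) 1 := by
  have k : ∀ (I : Finset B) (g : W), C.ip I (C.TJ I g) 1 = if g = 1 then 1 else 0 := fun I g => by
    rw [C.ip_TJ, ← C.TJ_one I, ← C.bJ_apply, Module.Basis.repr_self, Finsupp.single_apply]
    simp only [eq_comm]
  rw [k, k]
  simp only [conj_eq_one_iff]

theorem exists_sim (h : C.Mv J J' w) {a : H} (ha : a ∈ C.HJ J) : ∃ a', C.Sim J J' w a a' := by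
  obtain ⟨a', h1, -⟩ := h8_span_ip (J := J) (J' := J') (w := w) J J' (by
    rintro _ ⟨y, hy, rfl⟩
    exact ⟨_, sim_TJ h hy, h8_ip J J' w y⟩) ((C.mem_HJ_iff h.sub).mp ha)
  exact ⟨a', h1⟩

theorem Sim.ip (h : C.Mv J J' w) {a a' : H} (hs : C.Sim J J' w a a') :
    C.ip J a 1 = C.ip J' a' 1 := by
  obtain ⟨b, h1, h2⟩ := h8_span_ip (J := J) (J' := J') (w := w) J J'
    (by
      rintro _ ⟨y, hy, rfl⟩
      exact ⟨_, sim_TJ h hy, h8_ip J J' w y⟩) ((C.mem_HJ_iff h.sub).mp hs.mem)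
  rw [hs.unique h.mem h1]
  exact h2

theorem Sim.ip_empty (h : C.Mv J J' w) {a a' : H} (hs : C.Sim J J' w a a') :
    C.ip ∅ a 1 = C.ip ∅ a' 1 := by
  obtain ⟨b, h1, h2⟩ := h8_span_ip (J := J) (J' := J') (w := w) ∅ ∅
    (by
      rintro _ ⟨u, hu, x, rfl⟩
      rw [C.th_mul_TJ_empty]
      exact ⟨_, sim_TJ_empty h (mul_mem (h8_tr x) (h8_WJ hu)), h8_ip ∅ ∅ w _⟩)
    ((C.mem_HJ_iff_right h.sub).mp hs.mem)
  rw [hs.unique h.mem h1]
  exact h2

theorem Sim.tauL (h : C.Mv J J' w) {a a' : H} (hs : C.Sim J J' w a a') :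
    C.tauL a = C.tauL a' := by
  obtain ⟨b, h1, h2⟩ := h8_span (J := J) (J' := J') (w := w) C.tauL C.tauL rfl C.tauL_add
    C.tauL_add C.tauL_smul C.tauL_smul
    (by
      rintro _ ⟨u, hu, x, rfl⟩
      refine ⟨_, (sim_Tb h hu).mul (h8_th h.mem x), ?_⟩
      have k := h8_coeff w (mon x) 0
      rw [map_zero, C.act_mon] at k
      rw [← C.Th_mon, ← C.Th_mon, C.tauL_Tb_Th (C.WJ_mono h.sub hu),
        C.tauL_Tb_Th (C.WJ_mono h.sub' (h.conj_mem hu).1), k]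
      simp only [conj_eq_one_iff])
    ((C.mem_HJ_iff_left h.sub).mp hs.mem)
  rw [hs.unique h.mem h1]
  exact h2

theorem sim_N (h : C.Mv J J' w) :
    C.Sim J J' w (C.iotw w⁻¹ * C.iotw w) (C.iotw w * C.iotw w⁻¹) := by
  obtain ⟨l, y, ε, -, e⟩ := C.iotw_inv_mul h.mem
  obtain ⟨l', y', ε', -, e'⟩ := C.iotw_inv_mul (inv_mem h.mem)
  rw [inv_inv] at e'
  refine ⟨?_, ?_, (mul_assoc _ _ _).symm, mul_assoc _ _ _⟩
  · rw [e]
    exact C.Th_mem_HJ _ _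
  · rw [e']
    exact C.Th_mem_HJ _ _

theorem N_comm (h : C.Mv J J' w) {a : H} (ha : a ∈ C.HJ J) :
    Commute (C.iotw w⁻¹ * C.iotw w) a := by
  obtain ⟨a', k⟩ := exists_sim h ha
  show _ * _ = _ * _
  rw [mul_assoc, k.left, ← mul_assoc, ← k.right, mul_assoc]

end HC

end Pool.Agent.P.MP_74db7f_al
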