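import Pool.Agent.P.MP_74db7f_al.F.H8

/-! H9: unitarity of the intertwiners, right version (UniR) (paper, section 2). -/

namespace Pool.Agent.P.MP_74db7f_al

open scoped Classical

namespace HC

variable {B W H : Type*} [Group W] {M : CoxeterMatrix B} {cs : CoxeterSystem M W} [Ring H]
  [Algebra Rq H] (C : HC cs H)

variable {C} {J J' : Finset B} {w : W}

theorem h9_ip_one (K : Finset B) (x y : H) : C.ip K x y = C.ip K (x * C.flat y) 1 := by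
  rw [C.ip_mul_right, C.flat_flat, one_mul]

theorem h9_flat_t {v : W} (hv : v ∈ C.W0) : C.flat (C.TJ ∅ v) = C.TJ ∅ v⁻¹ := by
  have a := congrArg C.flat (C.TJ_empty_mul hv)
  rw [C.flat_mul, C.flat_Tb, inv_inv, C.flat_one] at a
  have b := C.TJ_empty_mul (inv_mem hv)
  rw [inv_inv] at b
  calc C.flat (C.TJ ∅ v) = C.TJ ∅ v⁻¹ * C.Tb v * C.flat (C.TJ ∅ v) := by rw [b, one_mul]
    _ = C.TJ ∅ v⁻¹ := by rw [mul_assoc, a, mul_one]

theorem h9_ip_t {v : W} (hv : v ∈ C.W0) (m : H) :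
    C.ip ∅ (m * C.TJ ∅ v) 1 = (C.bJ ∅).repr m v⁻¹ := by
  rw [C.ip_mul_right, one_mul, h9_flat_t hv, C.ip_comm, C.ip_TJ]

theorem h9_repr (K : Finset B) (y g : W) :
    (C.bJ K).repr (C.TJ K y) g = if y = g then 1 else 0 := by
  rw [← C.bJ_apply, Module.Basis.repr_self, Finsupp.single_apply]

theorem h9_tr_eq {x y : Lat C.n} {u v : W} (hu : u ∈ C.W0) (hv : v ∈ C.W0) :
    C.tr x * u = C.tr y * v ↔ x = y ∧ u = v := by
  refine ⟨fun e => ⟨?_, ?_⟩, fun e => by rw [e.1, e.2]⟩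
  · rw [← C.xp_tr_mul x hu, e, C.xp_tr_mul y hv]
  · rw [← C.fp_tr_mul x hu, e, C.fp_tr_mul y hv]

theorem h9_TJ (y : W) : C.TJ ∅ y = C.th (C.xp y) * C.TJ ∅ (C.fp y) := by
  rw [C.th_mul_TJ_empty, C.tr_xp_fp]

theorem h9_key {u v : W} (hu : u ∈ C.W0) (hv : v ∈ C.W0) (hl : cs.length u ≤ cs.length v)
    (x y : Lat C.n) : C.ip ∅ (C.th (-C.gr u⁻¹ x) * C.Tb u⁻¹ * (C.th y * C.TJ ∅ v)) 1 =
      if x = y ∧ u = v then 1 else 0 := by
  have hu' := inv_mem hu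
  have a := C.Th_mul_Fil (mon (-C.gr u⁻¹ x)) (C.Tb_mul_Th hu' (mon y))
  have b := C.Th_mul_Fil (mon (-C.gr u⁻¹ x) * mon (C.gr u⁻¹ y)) (C.Tb_sub_Fil hu')
  have c := add_mem a b
  rw [C.act_mon, map_mul] at c
  simp only [C.Th_mon] at c
  have e : C.th (-C.gr u⁻¹ x) * (C.Tb u⁻¹ * C.th y - C.th (C.gr u⁻¹ y) * C.Tb u⁻¹) +
      C.th (-C.gr u⁻¹ x) * C.th (C.gr u⁻¹ y) * (C.Tb u⁻¹ - C.TJ ∅ u⁻¹) =
      C.th (-C.gr u⁻¹ x) * C.Tb u⁻¹ * C.th y -
        C.TJ ∅ (C.tr (-C.gr u⁻¹ x + C.gr u⁻¹ y) * u⁻¹) := by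
    rw [← C.th_mul_TJ_empty, C.th_add]
    noncomm_ring
  rw [e] at c
  have d := C.mem_Fil.1 c v⁻¹ (by
    rw [C.fp_W0 (inv_mem hv), cs.length_inv, cs.length_inv]
    exact hl)
  rw [map_sub, Finsupp.sub_apply, sub_eq_zero, h9_repr] at d
  rw [← mul_assoc, h9_ip_t hv, d]
  refine if_congr ?_ rfl rfl
  have f : C.tr (-C.gr u⁻¹ x + C.gr u⁻¹ y) * u⁻¹ = C.tr 0 * v⁻¹ ↔ _ :=
    h9_tr_eq hu' (inv_mem hv)
  rw [C.tr_zero, one_mul] at f
  rw [f, neg_add_eq_zero, inv_inj, EmbeddingLike.apply_eq_iff_eq]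

/-- nondegeneracy: take a shortest `t_u` occurring in `g` and `a = θ_x T_{u⁻¹}`; use `Tb_mul_Th`,
`mem_Fil`, and `⟨m t_u, 1⟩ = ⟨m, t_{u⁻¹}⟩` -/
theorem nondeg_left (hJ : J ⊆ C.S0) {g : H} (hg : g ∈ C.HJ J)
    (h : ∀ a ∈ C.HJ J, C.ip ∅ (a * g) 1 = 0) : g = 0 := by
  by_contra hne
  have hs : ((C.bJ ∅).repr g).support.Nonempty := by
    rw [Finsupp.support_nonempty_iff]
    exact fun e => hne ((C.bJ ∅).repr.map_eq_zero_iff.1 e)
  obtain ⟨y, hy, hmin⟩ := Finset.exists_min_image _ (fun y => cs.length (C.fp y)) hs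
  have hW : ∀ t ∈ Submodule.span Rq {t | ∃ u ∈ C.WJ J, ∃ x, t = C.th x * C.TJ ∅ u},
      C.fp y ∉ C.WJ J → (C.bJ ∅).repr t y = 0 := by
    intro t ht hn
    induction ht using Submodule.span_induction with
    | mem t ht =>
      obtain ⟨u, hu, x, rfl⟩ := ht
      rw [C.th_mul_TJ_empty, h9_repr, if_neg]
      rintro rfl
      rw [C.fp_tr_mul x (C.WJ_mono hJ hu)] at hn
      exact hn hu
    | zero => simp
    | add a b _ _ ha hb => rw [map_add, Finsupp.add_apply, ha, hb, add_zero]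
    | smul r a _ ha => rw [map_smul, Finsupp.smul_apply, ha, smul_zero]
  have hu : C.fp y ∈ C.WJ J := by
    by_contra hn
    exact Finsupp.mem_support_iff.1 hy (hW g ((C.mem_HJ_iff_right hJ).1 hg) hn)
  have a := h (C.th (-C.gr (C.fp y)⁻¹ (C.xp y)) * C.Tb (C.fp y)⁻¹)
    (mul_mem (C.th_mem_HJ J _) (C.Tb_mem_HJ hJ (inv_mem hu)))
  have e := (C.bJ ∅).linearCombination_repr g
  rw [Finsupp.linearCombination_apply, Finsupp.sum] at e
  rw [← e, Finset.mul_sum, map_sum, LinearMap.sum_apply, Finset.sum_eq_single y] at a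
  · rw [mul_smul_comm, map_smul, LinearMap.smul_apply, C.bJ_apply, h9_TJ y,
      h9_key (C.fp_mem y) (C.fp_mem y) le_rfl, if_pos ⟨rfl, rfl⟩, smul_eq_mul, mul_one] at a
    exact Finsupp.mem_support_iff.1 hy a
  · intro y' hy' hn
    rw [mul_smul_comm, map_smul, LinearMap.smul_apply, C.bJ_apply, h9_TJ y',
      h9_key (C.fp_mem y) (C.fp_mem y') (hmin y' hy'), if_neg, smul_zero]
    rintro ⟨e1, e2⟩
    exact hn (by rw [← C.tr_xp_fp y, e1, e2, C.tr_xp_fp])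
  · exact fun hn => absurd hy hn

theorem h9_term {i : B} {u v : W} (hu : u ∈ C.W0) (hv : v ∈ C.W0) (hu' : u⁻¹ = u)
    {y : Lat C.n} (hy : C.gr (cs.simple i) y = -y) (x : Lat C.n) :
    (C.bJ ∅).repr (C.th (C.gr (cs.simple i) x) * (C.th y * C.TJ ∅ u)) v⁻¹ =
      (C.bJ ∅).repr (C.th y * C.TJ ∅ u) (C.tr x * v) := by
  rw [← mul_assoc, ← C.th_add, C.th_mul_TJ_empty, C.th_mul_TJ_empty, h9_repr, h9_repr]
  refine if_congr ?_ rfl rfl
  have f : C.tr (C.gr (cs.simple i) x + y) * u = C.tr 0 * v⁻¹ ↔ _ := h9_tr_eq hu (inv_mem hv)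
  rw [C.tr_zero, one_mul] at f
  rw [f, h9_tr_eq hu hv, add_eq_zero_iff_eq_neg, ← hy, EmbeddingLike.apply_eq_iff_eq, eq_comm]
  refine and_congr Iff.rfl ⟨fun e => ?_, fun e => ?_⟩
  · rw [← hu', e, inv_inv]
  · rw [← e, hu']

theorem h9_iot {i : B} (hi : i ∈ C.S0) : C.iot i =
    C.th (C.co (C.sr i)) * C.TJ ∅ (cs.simple i) - C.th (-C.co (C.sr i)) * C.TJ ∅ (cs.simple i) -
      C.cq i • (C.th (-C.co (C.sr i)) * C.TJ ∅ 1) - C.cq (C.nx i) • (C.th 0 * C.TJ ∅ 1) := by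
  have a := C.TJ_empty_mul (v := cs.simple i) (C.simple_mem_WJ hi)
  rw [cs.inv_simple] at a
  have b := (C.Ts_mul_inv i).1
  have e : C.TJ ∅ (cs.simple i) = C.Ts i - algebraMap Rq H (C.cq i) := by
    calc C.TJ ∅ (cs.simple i)
        = C.TJ ∅ (cs.simple i) * (C.Ts i * (C.Ts i - algebraMap Rq H (C.cq i))) := by
          rw [b, mul_one]
      _ = _ := by rw [← mul_assoc, Ts, a, one_mul]
  rw [e, iot, dd, nn]
  simp only [map_sub, map_add, map_smul, C.Th_mon, C.TJ_one, C.th_zero, mul_one,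
    Algebra.algebraMap_eq_smul_one, map_one, mul_sub, sub_mul, mul_smul_comm]
  abel

theorem h9_uni_one {i : B} (hi : i ∈ C.S0) (ξ : H) :
    C.ip ∅ (C.iot i * ξ) 1 = C.ip ∅ ξ (C.iot i) := by
  have key : (C.ip ∅).flip 1 ∘ₗ LinearMap.mulLeft Rq (C.iot i) = (C.ip ∅).flip (C.iot i) := by
    refine (C.bJ ∅).ext fun y => ?_
    rw [LinearMap.comp_apply, LinearMap.flip_apply, LinearMap.flip_apply, LinearMap.mulLeft_apply,
      C.bJ_apply, C.ip_TJ, h9_TJ y, ← mul_assoc, h9_ip_t (C.fp_mem y), ← C.Th_mon,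
      C.iot_mul_Th hi, C.act_mon, C.Th_mon]
    conv_rhs => rw [← C.tr_xp_fp y]
    have hs : cs.simple i ∈ C.W0 := C.simple_mem_WJ hi
    have h1 : C.gr (cs.simple i) (C.co (C.sr i)) = -C.co (C.sr i) := by
      rw [C.gr_simple, (C.co_spec (C.sr_mem i)).1, two_smul]
      abel
    have h2 : C.gr (cs.simple i) (-C.co (C.sr i)) = - -C.co (C.sr i) := by rw [map_neg, h1]
    have h3 : C.gr (cs.simple i) 0 = -0 := by rw [map_zero, neg_zero]
    rw [h9_iot hi]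
    simp only [mul_sub, mul_smul_comm, map_sub, map_smul, Finsupp.sub_apply, Finsupp.smul_apply]
    rw [h9_term hs (C.fp_mem y) (cs.inv_simple i) h1, h9_term hs (C.fp_mem y) (cs.inv_simple i) h2,
      h9_term (one_mem _) (C.fp_mem y) inv_one h2, h9_term (one_mem _) (C.fp_mem y) inv_one h3]
  exact LinearMap.congr_fun key ξ

/-- check `η = 1` on the basis `θ_x t_v`, then use `ip_mul_right` -/
theorem uni_simple {i : B} (hi : i ∈ C.S0) (ξ η : H) :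
    C.ip ∅ (C.iot i * ξ) η = C.ip ∅ ξ (C.iot i * η) := by
  rw [h9_ip_one, mul_assoc, h9_uni_one hi, C.ip_mul_right, C.flat_flat]

theorem h9_uni_word (ω : List B) (hω : ∀ i ∈ ω, i ∈ C.S0) (ξ η : H) :
    C.ip ∅ ((ω.map C.iot).prod * ξ) η = C.ip ∅ ξ ((ω.reverse.map C.iot).prod * η) := by
  induction ω generalizing η with
  | nil => simp
  | cons i ω ih =>
    rw [List.map_cons, List.prod_cons, mul_assoc, uni_simple (hω i List.mem_cons_self),
      ih fun j hj => hω j (List.mem_cons_of_mem _ hj), List.reverse_cons, List.map_append,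
      List.prod_append, List.map_singleton, List.prod_singleton, mul_assoc]

theorem uni_empty (hw : w ∈ C.W0) (ξ η : H) :
    C.ip ∅ (C.iotw w * ξ) η = C.ip ∅ ξ (C.iotw w⁻¹ * η) := by
  obtain ⟨ω, hr, rfl, hω⟩ := C.exists_word subset_rfl hw
  rw [← cs.wordProd_reverse, C.iotw_word ω hω hr,
    C.iotw_word ω.reverse (fun i hi => hω i (List.mem_reverse.1 hi)) hr.reverse,
    h9_uni_word ω hω]

theorem sim_piJ (h : C.Mv J J' w) (ξ : H) :
    C.Sim J J' w (C.piJ J (ξ * C.flat (C.iotw w⁻¹))) (C.piJ J' (C.iotw w * ξ)) := by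
  obtain ⟨a', ha⟩ := exists_sim h (C.piJ_mem h.sub (ξ * C.flat (C.iotw w⁻¹)))
  have e : C.piJ J' (C.iotw w * ξ) - a' = 0 := by
    refine nondeg_left h.sub' (sub_mem (C.piJ_mem h.sub' _) ha.mem') fun b' hb' => ?_
    obtain ⟨b, hb⟩ := exists_sim h.symm hb'
    have hb2 := hb.symm
    rw [inv_inv] at hb2
    rw [mul_sub, map_sub, LinearMap.sub_apply, ← (hb2.mul ha).ip_empty h,
      ← C.piJ_mul h.sub' hb', C.ip_empty_piJ h.sub', ← C.piJ_mul h.sub hb2.mem,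
      C.ip_empty_piJ h.sub, ← mul_assoc, ← hb2.left, mul_assoc, uni_empty h.mem, mul_one,
      h9_ip_one, mul_assoc, sub_self]
  rw [sub_eq_zero.1 e]
  exact ha

/-- (UniR) -/
theorem uniR (h : C.Mv J J' w) (ξ η : H) :
    C.ip J' (C.iotw w * ξ) η = C.ip J ξ (C.iotw w⁻¹ * η) := by
  rw [h9_ip_one, mul_assoc, ← C.ip_piJ, ← (sim_piJ h _).ip h, C.ip_piJ, C.ip_mul_right,
    C.flat_flat, one_mul, C.ip_mul_right, C.flat_flat]

end HC

end Pool.Agent.P.MP_74db7f_al
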