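import Pool.Agent.P.MP_74db7f_al.F.G5

/-! Hecke context and alcove bases (paper, section 1). Definitions only. -/

namespace Pool.Agent.P.MP_74db7f_al

open scoped Classical

abbrev Rq := LaurentPolynomial ℤ

/-- the form making the basis `b` orthonormal -/
noncomputable def ipB {W H : Type*} [AddCommGroup H] [Module Rq H] (b : Module.Basis W Rq H) :
    H →ₗ[Rq] H →ₗ[Rq] Rq :=
  b.constr Rq fun w => b.coord w

/-- Hecke context -/
structure HC {B W : Type*} [Group W] {M : CoxeterMatrix B} (cs : CoxeterSystem M W)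
    (H : Type*) [Ring H] [Algebra Rq H] extends AD cs where
  L : W → ℕ
  hL : PosWeight cs L
  Tb : Module.Basis W Rq H
  hT : IsHecke cs L Tb
  Nb : ℕ
  hN : ∀ x y, Tb x * Tb y ∈ Dg Tb Nb

namespace HC

variable {B W H : Type*} [Group W] {M : CoxeterMatrix B} {cs : CoxeterSystem M W} [Ring H]
  [Algebra Rq H] (C : HC cs H)

/-- `q_s - q_s⁻¹` -/
noncomputable def cq (i : B) : Rq :=
  LaurentPolynomial.T (C.L (cs.simple i)) - LaurentPolynomial.T (-(C.L (cs.simple i) : ℤ))

noncomputable def Ts (i : B) : H := C.Tb (cs.simple i)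

/-- the anti-involution `T_w ↦ T_{w⁻¹}` -/
noncomputable def flat : H →ₗ[Rq] H := C.Tb.constr Rq fun w => C.Tb w⁻¹

/-- the alcove basis element `T^J_w` -/
noncomputable def TJ (J : Finset B) (w : W) : H :=
  Classical.epsilon fun t : H => ∀ᶠ k : ℕ in Filter.atTop,
    C.Tb (C.tr ((k : ℤ) • C.z J)) * t = C.Tb (C.tr ((k : ℤ) • C.z J) * w)

noncomputable def bJ (J : Finset B) : Module.Basis W Rq H :=
  if h : LinearIndependent Rq (C.TJ J) ∧ ⊤ ≤ Submodule.span Rq (Set.range (C.TJ J)) then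
    Module.Basis.mk h.1 h.2 else C.Tb

/-- the form `⟨ , ⟩_J` -/
noncomputable def ip (J : Finset B) : H →ₗ[Rq] H →ₗ[Rq] Rq := ipB (C.bJ J)

/-- Bernstein elements -/
noncomputable def th (x : Lat C.n) : H := C.TJ ∅ (C.tr x)

/-- the Levi subalgebra `H^J` -/
noncomputable def HJ (J : Finset B) : Subalgebra Rq H :=
  Algebra.adjoin Rq (C.Ts '' (J : Set B) ∪ Set.range C.th)

/-- coordinate projection to `Y_J` -/
noncomputable def piJ (J : Finset B) : H →ₗ[Rq] H :=
  (C.bJ J).constr Rq fun w => if w ∈ C.YJ J then C.TJ J w else 0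

/-- coordinate projection to the degree `δ` -/
noncomputable def pd (J : Finset B) (δ : Lat C.n) : H →ₗ[Rq] H :=
  (C.bJ J).constr Rq fun w => if C.degW J w = δ then C.TJ J w else 0

/-- components of `h = ∑_{u ∈ Min(S0, J)} T_u h_u` -/
noncomputable def cmp (J : Finset B) (h : H) : W → H :=
  Classical.epsilon fun r : W → H => (∀ u, r u ∈ C.HJ J) ∧
    h = ∑ u ∈ C.Mn C.S0 J, C.Tb u * r u

/-- the left adjoint of `a ∈ H^J` for `⟨ , ⟩_J` -/
noncomputable def adj (J : Finset B) (a : H) : H := C.cmp J (C.flat a) 1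

/-- the filtration by the length of the finite part -/
noncomputable def Fil (k : ℕ) : Submodule Rq H :=
  Submodule.span Rq {t | ∃ x, ∃ v ∈ C.W0, cs.length v < k ∧ t = C.th x * C.TJ ∅ v}

end HC

end Pool.Agent.P.MP_74db7f_al
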