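import Pool.Agent.P.MP_74db7f_al.F.H3

/-! The group algebra of the lattice, intertwiners: definitions (paper, sections 1, 2). -/

namespace Pool.Agent.P.MP_74db7f_al

open scoped Classical

/-- group algebra of the lattice -/
abbrev LA (R : Type*) [CommRing R] (n : ℕ) := AddMonoidAlgebra R (Lat n)

/-- monomial -/
noncomputable def mon {R : Type*} [CommRing R] {n : ℕ} (x : Lat n) : LA R n :=
  AddMonoidAlgebra.single x 1

/-- `θ_x ↦ θ_{-x}` -/
noncomputable def cstar {R : Type*} [CommRing R] {n : ℕ} : LA R n →ₐ[R] LA R n :=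
  AddMonoidAlgebra.mapDomainAlgHom R R (negAddMonoidHom : Lat n →+ Lat n)

namespace HC

variable {B W H : Type*} [Group W] {M : CoxeterMatrix B} {cs : CoxeterSystem M W} [Ring H]
  [Algebra Rq H] (C : HC cs H)

/-- `ℤ[q,q⁻¹][X] → H` -/
noncomputable def Th : LA Rq C.n →ₐ[Rq] H :=
  AddMonoidAlgebra.lift Rq H (Lat C.n)
    { toFun := fun x => C.th x.toAdd
      map_one' := C.th_zero
      map_mul' := fun x y => C.th_add x.toAdd y.toAdd }

/-- action of `W` on the group algebra -/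
noncomputable def act (w : W) : LA Rq C.n →ₐ[Rq] LA Rq C.n :=
  AddMonoidAlgebra.mapDomainAlgHom Rq Rq (C.gr w).toLinearMap.toAddMonoidHom

/-- `d_γ` -/
noncomputable def dd (γ : Du C.n) : LA Rq C.n := mon (C.co γ) - mon (-C.co γ)

/-- type of the next wall parallel to `sr i` -/
noncomputable def nx (i : B) : B :=
  @Classical.epsilon B ⟨i⟩ fun i' : B =>
    C.th (C.co (C.sr i)) * C.Ts i - C.Ts i * C.th (-C.co (C.sr i)) =
      C.cq i • C.th (C.co (C.sr i)) + algebraMap Rq H (C.cq i')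

noncomputable def nn (i : B) : LA Rq C.n :=
  C.cq i • mon (C.co (C.sr i)) + algebraMap Rq _ (C.cq (C.nx i))

/-- the intertwiner `ι_s` -/
noncomputable def iot (i : B) : H := C.Th (C.dd (C.sr i)) * C.Ts i - C.Th (C.nn i)

/-- `ι_s²` -/
noncomputable def NN (i : B) : LA Rq C.n :=
  C.nn i * C.act (cs.simple i) (C.nn i) - C.dd (C.sr i) * C.dd (C.sr i)

/-- a reduced word with letters in `S0` -/
noncomputable def word (w : W) : List B :=
  Classical.epsilon fun ω : List B => cs.IsReduced ω ∧ cs.wordProd ω = w ∧ ∀ i ∈ ω, i ∈ C.S0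

/-- the intertwiner `ι_w` -/
noncomputable def iotw (w : W) : H := ((C.word w).map C.iot).prod

/-- top coefficient of `ι_w` -/
noncomputable def Del (w : W) : LA Rq C.n :=
  ∏ γ ∈ C.Rp.filter fun γ => C.mu w γ = -1, C.dd γ

/-- `a ~ a'` -/
structure Sim (J J' : Finset B) (w : W) (a a' : H) : Prop where
  mem : a ∈ C.HJ J
  mem' : a' ∈ C.HJ J'
  left : C.iotw w * a = a' * C.iotw w
  right : a * C.iotw w⁻¹ = C.iotw w⁻¹ * a'

/-- constant term of the `T_e`-component in `H = ⊕ T_u A` -/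
noncomputable def tauL (h : H) : Rq := C.ip ∅ (C.cmp ∅ h 1) 1

/-- linear factors `θ_x - (± q^k)` -/
def Lin (P : Lat C.n → Prop) (f : LA Rq C.n) : Prop :=
  ∃ x, P x ∧ ∃ (k : ℤ) (ε : ℤˣ), f = mon x - algebraMap Rq _ ((ε : ℤ) • LaurentPolynomial.T k)

end HC

end Pool.Agent.P.MP_74db7f_al
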