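import Pool.Agent.P.MP_74db7f_al.Bound

/-! The valued field `K`, the space `c₀(W, K)`, points and Newton idempotents: definitions
(paper, section 3). -/

namespace Pool.Agent.P.MP_74db7f_al

open scoped Classical ENNReal Topology
open Filter

/-- `q` -/
noncomputable def qK (K : Type*) [Field K] [Algebra (LaurentPolynomial ℤ) K] : K :=
  algebraMap (LaurentPolynomial ℤ) K (LaurentPolynomial.T 1)

/-- the properties of `ℚ((q⁻¹))` that are used -/
class GoodK (K : Type*) [NontriviallyNormedField K] [Algebra (LaurentPolynomial ℤ) K] :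
    Prop where
  one_lt : 1 < ‖qK K‖
  disc : ∀ x : K, x ≠ 0 → ∃ k : ℤ, ‖x‖ = ‖qK K‖ ^ k
  deg : ∀ (r : LaurentPolynomial ℤ) (n : ℤ), ‖algebraMap _ K r‖ ≤ ‖qK K‖ ^ n ↔ r ∈ dR n
  aniso : ∀ (n : ℕ) (x : Fin n → K) (i : Fin n), ‖x i‖ ^ 2 ≤ ‖∑ j, x j ^ 2‖
  dense : ∀ (x : K) (δ : ℝ), 0 < δ → ∃ N : ℤ, N ≠ 0 ∧ ∃ r : LaurentPolynomial ℤ,
    ‖(N : K) * x - algebraMap _ K r‖ < δ

section C0

variable (W K : Type*) [NontriviallyNormedField K]

/-- functions tending to `0` at infinity -/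
def c0S : Submodule K (lp (fun _ : W => K) ∞) where
  carrier := {f | Tendsto (fun w => f w) cofinite (𝓝 0)}
  add_mem' := fun {f g} hf hg => by
    have := Tendsto.add hf hg
    rw [add_zero] at this
    exact this
  zero_mem' := by
    show Tendsto (fun _ => (0 : K)) cofinite (𝓝 0)
    exact tendsto_const_nhds
  smul_mem' := fun c f hf => by
    have := Tendsto.const_mul c hf
    rw [mul_zero] at this
    exact this

/-- `c₀(W, K)` -/
def C0 : Type _ := ↥(c0S W K)

noncomputable instance : NormedAddCommGroup (C0 W K) :=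
  inferInstanceAs (NormedAddCommGroup ↥(c0S W K))

noncomputable instance : NormedSpace K (C0 W K) := inferInstanceAs (NormedSpace K ↥(c0S W K))

noncomputable instance [Algebra (LaurentPolynomial ℤ) K] :
    Module (LaurentPolynomial ℤ) (C0 W K) :=
  Module.compHom _ (algebraMap (LaurentPolynomial ℤ) K)

instance [Algebra (LaurentPolynomial ℤ) K] : IsScalarTower (LaurentPolynomial ℤ) K (C0 W K) :=
  ⟨fun r c v => by
    rw [Algebra.smul_def, mul_smul]
    rfl⟩

namespace C0

variable {W K}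

/-- coordinates -/
def co (f : C0 W K) (w : W) : K := (show ↥(c0S W K) from f).1 w

theorem tendsto (f : C0 W K) : Tendsto f.co cofinite (𝓝 0) := (show ↥(c0S W K) from f).2

theorem norm_co_le (f : C0 W K) (w : W) : ‖f.co w‖ ≤ ‖f‖ :=
  lp.norm_apply_le_norm ENNReal.top_ne_zero (show ↥(c0S W K) from f).1 w

/-- the element with given coordinates -/
noncomputable def mk (f : W → K) (hf : Tendsto f cofinite (𝓝 0)) : C0 W K :=
  (⟨⟨f, memℓp_infty (by
    obtain ⟨r, hr⟩ := (Metric.isBounded_range_of_tendsto_cofinite hf).exists_norm_le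
    exact ⟨r, by rintro _ ⟨w, rfl⟩; exact hr _ ⟨w, rfl⟩⟩)⟩, hf⟩ : ↥(c0S W K))

/-- basis vectors -/
noncomputable def sg (w : W) : C0 W K :=
  mk (Pi.single w 1) (tendsto_const_nhds.congr' (by
    filter_upwards [(Set.finite_singleton w).compl_mem_cofinite] with v hv
    exact (Pi.single_eq_of_ne (M := fun _ => K) hv 1).symm))

/-- evaluation -/
noncomputable def ev (w : W) : C0 W K →L[K] K :=
  LinearMap.mkContinuous
    { toFun := fun f => f.co w, map_add' := fun _ _ => rfl, map_smul' := fun _ _ => rfl } 1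
    fun f => by simpa using f.norm_co_le w

/-- the bounded operator with prescribed values on the basis vectors -/
noncomputable def lift {E : Type*} [NormedAddCommGroup E] [NormedSpace K E] (y : W → E) :
    C0 W K →L[K] E :=
  Classical.epsilon fun F : C0 W K →L[K] E => ∀ w, F (sg w) = y w

/-- the standard form -/
noncomputable def ip : C0 W K →L[K] C0 W K →L[K] K := lift ev

/-- finitely supported vectors -/
noncomputable def fs : (W →₀ K) →ₗ[K] C0 W K := Finsupp.linearCombination K sg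

/-- `c'` is the adjoint of `c` -/
def IsAdj (c c' : C0 W K →L[K] C0 W K) : Prop := ∀ ξ η, ip (c ξ) η = ip ξ (c' η)

end C0

end C0

section Banach

variable {K : Type*} [NontriviallyNormedField K] {𝔅 : Type*} [NormedRing 𝔅] [NormedAlgebra K 𝔅]

/-- a point of a commutative subalgebra -/
structure Pt (𝒜 : Subalgebra K 𝔅) where
  p : 𝔅 → ℝ
  one : p 1 = 1
  nonneg : ∀ a ∈ 𝒜, 0 ≤ p a
  mul : ∀ a ∈ 𝒜, ∀ b ∈ 𝒜, p (a * b) = p a * p b
  add : ∀ a ∈ 𝒜, ∀ b ∈ 𝒜, p (a + b) ≤ max (p a) (p b)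
  le : ∀ a ∈ 𝒜, p a ≤ ‖a‖

/-- commutative, closed, inverse closed -/
structure Spec (𝒜 : Subalgebra K 𝔅) : Prop where
  comm : ∀ a ∈ 𝒜, ∀ b ∈ 𝒜, a * b = b * a
  closed : IsClosed (𝒜 : Set 𝔅)
  inv : ∀ a ∈ 𝒜, IsUnit a → Ring.inverse a ∈ 𝒜

variable (K) in
/-- bicommutant -/
def bic (s : Set 𝔅) : Subalgebra K 𝔅 :=
  Subalgebra.centralizer K (Subalgebra.centralizer K s : Set 𝔅)

/-- Newton iteration -/
def newt (a : 𝔅) : ℕ → 𝔅
  | 0 => a
  | n + 1 => 3 * newt a n ^ 2 - 2 * newt a n ^ 3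

/-- the idempotent lifted from `a` -/
noncomputable def nl (a : 𝔅) : 𝔅 := limUnder atTop (newt a)

end Banach

end Pool.Agent.P.MP_74db7f_al
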