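import Pool.Agent.P.MP_74db7f_al.F.KD

/-! L1: duals of finitely generated modules over the Laurent polynomial ring are projective. -/

namespace Pool.Agent.P.MP_74db7f_al

open scoped Classical

section L1Aux

open scoped Pointwise

/-- A localisation of a principal ideal ring is a principal ideal ring. -/
theorem l1_pir_loc {R S : Type*} [CommRing R] [CommRing S] [Algebra R S] (M : Submonoid R)
    [IsLocalization M S] [IsPrincipalIdealRing R] : IsPrincipalIdealRing S := by
  refine ⟨fun I => ?_⟩
  obtain ⟨a, ha⟩ := (IsPrincipalIdealRing.principal (I.under R)).principal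
  refine ⟨⟨algebraMap R S a, ?_⟩⟩
  rw [← IsLocalization.map_under M S I, ha]
  change Ideal.map _ (Ideal.span {a}) = Ideal.span _
  rw [Ideal.map_span, Set.image_singleton]

theorem l1_jac_int : IsJacobsonRing ℤ := by
  rw [isJacobsonRing_iff_prime_eq]
  intro P hP
  by_cases h : P = ⊥
  · subst h
    refine le_antisymm (fun x hx => ?_) Ideal.le_jacobson
    have h1 := Ideal.mem_jacobson_bot.1 hx x
    rw [Int.isUnit_iff] at h1
    rw [Ideal.mem_bot]
    rcases h1 with h1 | h1 <;> nlinarith [mul_self_nonneg x]
  · have : P.IsMaximal := IsPrime.to_maximal_ideal h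
    exact Ideal.jacobson_eq_self_of_isMaximal

/-- Every maximal ideal of a finitely generated ring contains a prime number. -/
theorem l1_exists_prime {R : Type*} [CommRing R] [Algebra.FiniteType ℤ R] (m : Ideal R)
    [hm : m.IsMaximal] : ∃ p : ℕ, p.Prime ∧ (p : R) ∈ m := by
  let : Field (R ⧸ m) := Ideal.Quotient.field m
  have := l1_jac_int
  have : Algebra.FiniteType ℤ (R ⧸ m) :=
    Algebra.FiniteType.of_surjective (Ideal.Quotient.mkₐ ℤ m) Ideal.Quotient.mk_surjective
  have : Module.Finite ℤ (R ⧸ m) := finite_of_finite_type_of_isJacobsonRing ℤ (R ⧸ m)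
  obtain ⟨p, hp⟩ := CharP.exists (R ⧸ m)
  rcases CharP.char_is_prime_or_zero (R ⧸ m) p with h | h
  · refine ⟨p, h, ?_⟩
    rw [← Ideal.Quotient.eq_zero_iff_mem, map_natCast]
    exact CharP.cast_eq_zero _ p
  · subst h
    have : CharZero (R ⧸ m) := CharP.charP_to_charZero _
    exact absurd (isField_of_isIntegral_of_isField (R := ℤ) (S := R ⧸ m)
      (FaithfulSMul.algebraMap_injective ℤ _) (Field.toIsField _)) Int.not_isField

/-- Local step. -/
theorem l1_local {R : Type*} [CommRing R] [IsDomain R] [IsNoetherianRing R] (P : Type*)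
    [AddCommGroup P] [Module R P] [Module.Finite R P] (m : Ideal R) [m.IsMaximal] (p : R)
    (hp : Prime p) (hpm : p ∈ m) [IsPrincipalIdealRing (R ⧸ Ideal.span {p})]
    (hreg : IsSMulRegular P p)
    (hsat : ∀ (a : R) (v w : P), ¬ p ∣ a → a • v = p • w → ∃ u : P, v = p • u) :
    Module.Free (Localization.AtPrime m) (LocalizedModule m.primeCompl P) := by
  set O := Localization.AtPrime m with hO
  set M := LocalizedModule m.primeCompl P with hM
  set x : O := algebraMap R O p with hx
  have : Module.Finite O M := inferInstance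
  have : Module.FinitePresentation O M := Module.finitePresentation_of_finite O M
  have hdis : Disjoint (m.primeCompl : Set R) (Ideal.span {p} : Ideal R) := by
    rw [Set.disjoint_left]
    intro a ha hb
    exact ha ((Ideal.span_singleton_le_iff_mem m).2 hpm hb)
  have hmap : Ideal.map (algebraMap R O) (Ideal.span {p}) = Ideal.span {x} := by
    rw [Ideal.map_span, Set.image_singleton]
  have hprime : (Ideal.span {x} : Ideal O).IsPrime := by
    rw [← hmap]
    exact IsLocalization.isPrime_of_isPrime_disjoint m.primeCompl O _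
      ((Ideal.span_singleton_prime hp.ne_zero).2 hp) hdis
  have : IsDomain (O ⧸ Ideal.span {x}) := Ideal.Quotient.isDomain _
  have : IsPrincipalIdealRing (O ⧸ Ideal.span {x}) := by
    refine ⟨fun I => ?_⟩
    let J : Ideal R := (I.comap (Ideal.Quotient.mk (Ideal.span {x}))).under R
    obtain ⟨a, ha⟩ := (IsPrincipalIdealRing.principal
      (J.map (Ideal.Quotient.mk (Ideal.span {p})))).principal
    obtain ⟨a, rfl⟩ := Ideal.Quotient.mk_surjective a
    have hpJ : p ∈ J := by
      change Ideal.Quotient.mk (Ideal.span {x}) x ∈ I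
      rw [Ideal.Quotient.eq_zero_iff_mem.2 (Ideal.mem_span_singleton_self x)]
      exact I.zero_mem
    have hJ : ∀ b : R, b ∈ J ↔ Ideal.Quotient.mk (Ideal.span {p}) b ∈
        J.map (Ideal.Quotient.mk (Ideal.span {p})) := by
      intro b
      rw [Ideal.mem_quotient_iff_mem ((Ideal.span_singleton_le_iff_mem J).2 hpJ)]
    have haJ : a ∈ J := by
      rw [hJ, ha]
      exact Submodule.mem_span_singleton_self _
    refine ⟨⟨Ideal.Quotient.mk _ (algebraMap R O a), le_antisymm (fun y hy => ?_) ?_⟩⟩
    · obtain ⟨y, rfl⟩ := Ideal.Quotient.mk_surjective y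
      obtain ⟨r, s, rfl⟩ := IsLocalization.exists_mk'_eq m.primeCompl y
      have hr : r ∈ J := by
        change Ideal.Quotient.mk (Ideal.span {x}) (algebraMap R O r) ∈ I
        rw [← IsLocalization.mk'_spec O r s, map_mul]
        exact I.mul_mem_right _ hy
      rw [hJ, ha, Submodule.mem_span_singleton] at hr
      obtain ⟨c, hc⟩ := hr
      obtain ⟨c, rfl⟩ := Ideal.Quotient.mk_surjective c
      rw [smul_eq_mul, ← map_mul, Ideal.Quotient.eq, Ideal.mem_span_singleton'] at hc
      obtain ⟨d, hd⟩ := hc
      rw [Submodule.mem_span_singleton]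
      refine ⟨Ideal.Quotient.mk _ (IsLocalization.mk' O c s), ?_⟩
      rw [smul_eq_mul, ← map_mul, Ideal.Quotient.eq, Ideal.mem_span_singleton']
      refine ⟨IsLocalization.mk' O d s, ?_⟩
      have h1 : r = c * a - d * p := by rw [hd]; ring
      rw [IsLocalization.mk'_eq_mul_mk'_one d s, IsLocalization.mk'_eq_mul_mk'_one c s,
        IsLocalization.mk'_eq_mul_mk'_one r s, h1, hx]
      simp only [map_sub, map_mul]
      ring
    · rw [Submodule.span_singleton_le_iff_mem]
      exact haJ
  have hxm : x ∈ IsLocalRing.maximalIdeal O := by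
    rw [hx, IsLocalization.AtPrime.to_map_mem_maximal_iff O m]
    exact hpm
  have hxreg : IsSMulRegular M x := by
    rw [isSMulRegular_iff_right_eq_zero_of_smul]
    intro v hv
    induction v using LocalizedModule.induction_on with
    | h v s =>
      rw [hx, algebraMap_smul, LocalizedModule.smul'_mk, ← LocalizedModule.zero_mk s,
        LocalizedModule.mk_eq] at hv
      obtain ⟨u, hu⟩ := hv
      rw [← LocalizedModule.zero_mk s, LocalizedModule.mk_eq]
      refine ⟨u, ?_⟩
      simp only [smul_zero] at hu ⊢
      apply hreg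
      simp only [smul_zero]
      rw [← hu]
      simp only [Submonoid.smul_def, smul_smul]
      congr 1
      ring
  have : Module.Finite (O ⧸ Ideal.span {x}) (QuotSMulTop x M) :=
    Module.Finite.of_restrictScalars_finite O _ _
  have : Module.IsTorsionFree (O ⧸ Ideal.span {x}) (QuotSMulTop x M) := by
    refine Module.IsTorsionFree.of_smul_eq_zero fun a v hav => ?_
    by_contra hcon
    push Not at hcon
    obtain ⟨ha, hv⟩ := hcon
    obtain ⟨a, rfl⟩ := Ideal.Quotient.mk_surjective a
    obtain ⟨v, rfl⟩ := Submodule.Quotient.mk_surjective _ v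
    apply hv
    have h1 : (Submodule.Quotient.mk (a • v) : QuotSMulTop x M) = 0 := hav
    rw [Submodule.Quotient.mk_eq_zero, Submodule.mem_smul_pointwise_iff_exists] at h1 ⊢
    obtain ⟨w, -, hw⟩ := h1
    obtain ⟨r, s, rfl⟩ := IsLocalization.exists_mk'_eq m.primeCompl a
    have hr : ¬ p ∣ r := by
      rintro ⟨c, rfl⟩
      apply ha
      rw [Ideal.Quotient.eq_zero_iff_mem, Ideal.mem_span_singleton']
      refine ⟨IsLocalization.mk' O c s, ?_⟩
      rw [IsLocalization.mk'_eq_mul_mk'_one c s, IsLocalization.mk'_eq_mul_mk'_one (p * c) s,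
        hx, map_mul]
      ring
    induction v using LocalizedModule.induction_on with
    | h v t =>
    induction w using LocalizedModule.induction_on with
    | h w t' =>
      rw [hx, algebraMap_smul, LocalizedModule.smul'_mk, ← Localization.mk_eq_mk',
        LocalizedModule.mk_smul_mk, LocalizedModule.mk_eq] at hw
      obtain ⟨u, hu⟩ := hw
      have hu' : ((u : R) * t' * r) • v = p • (((u : R) * (s * t)) • w) := by
        simp only [Submonoid.smul_def, smul_smul, Submonoid.coe_mul] at hu ⊢
        rw [mul_assoc, ← hu]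
        congr 1
        ring
      have hnd : ¬ p ∣ (u : R) * t' * r := by
        intro h
        rcases hp.dvd_or_dvd h with h | h
        · rcases hp.dvd_or_dvd h with h | h
          · exact u.2 (m.mem_of_dvd h hpm)
          · exact t'.2 (m.mem_of_dvd h hpm)
        · exact hr h
      obtain ⟨z, rfl⟩ := hsat _ _ _ hnd hu'
      refine ⟨LocalizedModule.mk z t, trivial, ?_⟩
      rw [hx, algebraMap_smul, LocalizedModule.smul'_mk]
  exact (Module.free_quotSMulTop_iff_free O M (IsLocalRing.maximalIdeal_le_jacobson _ hxm)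
    hxreg).1 inferInstance

theorem l1_dual {R : Type*} [CommRing R] [IsDomain R] [IsNoetherianRing R]
    (h : ∀ m : Ideal R, m.IsMaximal → ∃ p : R, Prime p ∧ p ∈ m ∧
      IsPrincipalIdealRing (R ⧸ Ideal.span {p}))
    (N : Type*) [AddCommGroup N] [Module R N] [Module.Finite R N] :
    Module.Projective R (Module.Dual R N) := by
  obtain ⟨n, π, hπ⟩ := Module.Finite.exists_fin' R N
  have : Module.Finite R (Module.Dual R N) :=
    Module.Finite.of_injective π.dualMap (LinearMap.dualMap_injective_of_surjective hπ)
  have : Module.FinitePresentation R (Module.Dual R N) :=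
    Module.finitePresentation_of_finite R _
  refine Module.projective_of_localization_maximal fun m hm => ?_
  obtain ⟨p, hp, hpm, hpir⟩ := h m hm
  have := l1_local (Module.Dual R N) m p hp hpm (fun f g hfg => ?_) (fun a v w ha hvw => ?_)
  · infer_instance
  · ext y
    exact mul_left_cancel₀ hp.ne_zero (LinearMap.congr_fun hfg y)
  · have h1 : ∀ y, ∃ c, v y = p * c := fun y => by
      have h2 : a * v y = p * w y := LinearMap.congr_fun hvw y
      exact (hp.dvd_or_dvd ⟨w y, h2⟩).resolve_left ha
    choose c hc using h1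
    refine ⟨⟨⟨c, fun y y' => ?_⟩, fun r y => ?_⟩, ?_⟩
    · apply mul_left_cancel₀ hp.ne_zero
      rw [mul_add, ← hc, ← hc, ← hc, map_add]
    · apply mul_left_cancel₀ hp.ne_zero
      simp only [RingHom.id_apply, smul_eq_mul]
      rw [← hc, map_smul, smul_eq_mul, hc]
      ring
    · ext y
      exact hc y

/-- Reduction of the coefficients modulo `p`. -/
noncomputable def l1_red (p : ℕ) : LaurentPolynomial ℤ →+* LaurentPolynomial (ZMod p) :=
  AddMonoidAlgebra.mapRingHom ℤ (Int.castRingHom (ZMod p))

theorem l1_red_surj (p : ℕ) : Function.Surjective (l1_red p) := by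
  intro f
  induction f using AddMonoidAlgebra.induction_linear with
  | zero => exact ⟨0, map_zero _⟩
  | add f g hf hg =>
    obtain ⟨a, rfl⟩ := hf
    obtain ⟨b, rfl⟩ := hg
    exact ⟨a + b, map_add _ _ _⟩
  | single n c =>
    obtain ⟨c, rfl⟩ := ZMod.intCast_surjective c
    exact ⟨AddMonoidAlgebra.single n c, AddMonoidAlgebra.mapRingHom_single _ _ _⟩

theorem l1_red_ker (p : ℕ) :
    RingHom.ker (l1_red p) = Ideal.span {(p : LaurentPolynomial ℤ)} := by
  refine le_antisymm (fun f hf => ?_) ?_
  · have h1 : ∀ n, (p : ℤ) ∣ f.coeff n := fun n => by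
      have h2 : (l1_red p f).coeff n = ((f.coeff n : ℤ) : ZMod p) :=
        AddMonoidAlgebra.coeff_mapRingHom _ _ _
      rw [RingHom.mem_ker.1 hf] at h2
      exact (ZMod.intCast_zmod_eq_zero_iff_dvd _ _).1 h2.symm
    rw [← AddMonoidAlgebra.sum_coeff_single f]
    refine Ideal.sum_mem _ fun n _ => ?_
    obtain ⟨c, hc⟩ := h1 n
    rw [hc, Ideal.mem_span_singleton]
    refine ⟨AddMonoidAlgebra.single n c, ?_⟩
    rw [← nsmul_eq_mul, ← nsmul_eq_mul, AddMonoidAlgebra.smul_single]
  · rw [Ideal.span_singleton_le_iff_mem, RingHom.mem_ker, map_natCast]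
    have : ((p : ℕ) : LaurentPolynomial (ZMod p)) = algebraMap (ZMod p) _ (p : ZMod p) := by
      rw [map_natCast]
    rw [this, ZMod.natCast_self, map_zero]

end L1Aux

/-- `P = N^*` is the kernel of a map `R^a → R^b`, so `R^a / P` is torsion free. For a prime `p`,
`P / p P` embeds in `(𝔽_p[q,q⁻¹])^a`, so it is free; a lift `R^r → P` of a basis is injective
(`⋂ p^k R = 0`) with cokernel killed by some `r ∈ 1 + p R` (Nakayama). At a maximal ideal not
containing a prime the localisation is a localisation of the PID `ℚ[q,q⁻¹]`. Then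
`Module.projective_of_localization_maximal`. -/
theorem dual_projective (N : Type*) [AddCommGroup N] [Module (LaurentPolynomial ℤ) N]
    [Module.Finite (LaurentPolynomial ℤ) N] :
    Module.Projective (LaurentPolynomial ℤ) (Module.Dual (LaurentPolynomial ℤ) N) := by
  have : IsNoetherianRing (LaurentPolynomial ℤ) :=
    IsLocalization.isNoetherianRing (Submonoid.powers (Polynomial.X : Polynomial ℤ)) _
      inferInstance
  have : @Algebra.FiniteType ℤ (LaurentPolynomial ℤ) _ _ (Ring.toIntAlgebra _) := by
    have h := (AddMonoidAlgebra.finiteType_of_fg (R := ℤ) (M := ℤ))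
    have e : (Ring.toIntAlgebra (LaurentPolynomial ℤ)) = AddMonoidAlgebra.algebra :=
      Subsingleton.elim _ _
    rw [e]
    exact h
  refine l1_dual (fun m hm => ?_) N
  obtain ⟨p, hp, hpm⟩ := l1_exists_prime m
  have := Fact.mk hp
  have : IsPrincipalIdealRing (LaurentPolynomial (ZMod p)) :=
    l1_pir_loc (Submonoid.powers (Polynomial.X : Polynomial (ZMod p)))
  have hp0 : (p : LaurentPolynomial ℤ) ≠ 0 := by
    intro h
    rw [← map_natCast (LaurentPolynomial.C : ℤ →+* LaurentPolynomial ℤ),
      ← LaurentPolynomial.single_eq_C, AddMonoidAlgebra.single_eq_zero] at h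
    exact hp.ne_zero (by exact_mod_cast h)
  refine ⟨p, ?_, hpm, ?_⟩
  · rw [← Ideal.span_singleton_prime hp0, ← l1_red_ker]
    exact RingHom.ker_isPrime _
  · rw [← l1_red_ker]
    let e := RingHom.quotientKerEquivOfSurjective (l1_red_surj p)
    exact IsPrincipalIdealRing.of_surjective e.symm.toRingHom e.symm.surjective

end Pool.Agent.P.MP_74db7f_al
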