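import Pool.Agent.P.MP_74db7f_al.F.L1
import Pool.Agent.P.MP_74db7f_al.F.HD2

/-! L2: matrices for endomorphisms of a lattice through its double dual (paper, section 9). -/

namespace Pool.Agent.P.MP_74db7f_al

open scoped Classical

open Matrix

theorem l2_noeth : IsNoetherianRing Rq :=
  IsLocalization.isNoetherianRing (Submonoid.powers (Polynomial.X : Polynomial ℤ)) Rq inferInstance

/-- a multiple of every element of the double dual comes from `N` -/
theorem l2_bidual (N : Type*) [AddCommGroup N] [Module Rq N] [Module.Finite Rq N] :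
    ∃ d : Rq, d ≠ 0 ∧ ∀ Ξ : Module.Dual Rq (Module.Dual Rq N),
      ∃ l : N, d • Ξ = Module.Dual.eval Rq N l := by
  obtain ⟨k, v, hv⟩ := Module.Finite.exists_fin (R := Rq) (M := N)
  obtain ⟨t, ht, hm⟩ := exists_maximal_linearIndepOn Rq v
  have hm' : ∀ i, ∃ a : Rq, a ≠ 0 ∧ a • v i ∈ Submodule.span Rq (v '' t) := by
    intro i
    by_cases hi : i ∈ t
    · exact ⟨1, one_ne_zero, by
        rw [one_smul]
        exact Submodule.subset_span ⟨i, hi, rfl⟩⟩
    · exact hm i hi
  choose a ha0 ha using hm'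
  have hd : ∀ l : N, (∏ i, a i) • l ∈ Submodule.span Rq (Set.range fun x : t => v x) := by
    intro l
    have hl : l ∈ Submodule.span Rq (Set.range v) := hv ▸ Submodule.mem_top
    rw [← Set.image_eq_range]
    induction hl using Submodule.span_induction with
    | mem x hx =>
      obtain ⟨i, rfl⟩ := hx
      rw [← Finset.mul_prod_erase Finset.univ a (Finset.mem_univ i), mul_comm, mul_smul]
      exact Submodule.smul_mem _ _ (ha i)
    | zero => simp
    | add x y _ _ hx hy =>
      rw [smul_add]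
      exact add_mem hx hy
    | smul c x _ hx =>
      rw [smul_comm]
      exact Submodule.smul_mem _ _ hx
  have ht' : LinearIndependent Rq fun x : t => v x := ht
  let lam : N →ₗ[Rq] (t →₀ Rq) :=
    ht'.repr ∘ₗ LinearMap.codRestrict _ ((∏ i, a i) • LinearMap.id) hd
  have hlam : ∀ l, ∑ x : t, lam l x • v x = (∏ i, a i) • l := by
    intro l
    have := ht'.linearCombination_repr ⟨(∏ i, a i) • l, hd l⟩
    rw [Finsupp.linearCombination_apply, Finsupp.sum_fintype _ _ (by simp)] at this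
    exact this
  refine ⟨∏ i, a i, Finset.prod_ne_zero_iff.2 fun i _ => ha0 i, fun Ξ =>
    ⟨∑ x : t, Ξ (Finsupp.lapply x ∘ₗ lam) • v x, ?_⟩⟩
  refine LinearMap.ext fun ψ => ?_
  have h1 : (∏ i, a i) • ψ = ∑ x : t, ψ (v x) • (Finsupp.lapply x ∘ₗ lam) := by
    refine LinearMap.ext fun l => ?_
    rw [LinearMap.smul_apply, ← map_smul, ← hlam l, map_sum, LinearMap.sum_apply]
    refine Finset.sum_congr rfl fun x _ => ?_
    simp [mul_comm]
  rw [LinearMap.smul_apply, ← map_smul, h1, map_sum, Module.Dual.eval_apply, map_sum]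
  refine Finset.sum_congr rfl fun x _ => ?_
  simp [mul_comm]

theorem l2_ext {R H S α β : Type*} [CommRing R] [Ring H] [Algebra R H] [CommRing S]
    [Algebra R S] [Fintype α] [DecidableEq α] [Fintype β] [DecidableEq β] (χ : H →ₐ[R] R)
    (π : H →ₐ[R] Matrix α α S) (P : Matrix β α S) (Q : Matrix α β S) (h : Q * P = 1) :
    ∃ σ : H →ₐ[R] Matrix β β S, ∀ x, σ x = P * π x * Q + χ x • (1 - P * Q) := by
  have e1 : ∀ A : Matrix α α S, P * A * Q * (1 - P * Q) = 0 := by
    intro A
    rw [Matrix.mul_sub, Matrix.mul_one, Matrix.mul_assoc (P * A) Q (P * Q),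
      ← Matrix.mul_assoc Q P Q, h, Matrix.one_mul, sub_self]
  have e2 : ∀ A : Matrix α α S, (1 - P * Q) * (P * A * Q) = 0 := by
    intro A
    rw [Matrix.sub_mul, Matrix.one_mul, Matrix.mul_assoc P A Q, Matrix.mul_assoc P Q,
      ← Matrix.mul_assoc Q P, h, Matrix.one_mul, sub_self]
  have e3 : (1 - P * Q) * (1 - P * Q) = 1 - P * Q := by
    have := e1 1
    rw [Matrix.mul_one] at this
    rw [Matrix.sub_mul, Matrix.one_mul, this, sub_zero]
  have e4 : ∀ A B : Matrix α α S, P * A * Q * (P * B * Q) = P * (A * B) * Q := by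
    intro A B
    rw [Matrix.mul_assoc (P * A) Q, Matrix.mul_assoc P B Q, ← Matrix.mul_assoc Q P, h,
      Matrix.one_mul, ← Matrix.mul_assoc, Matrix.mul_assoc P A B]
  let f : H →ₗ[R] Matrix β β S :=
    { toFun := fun x => P * π x * Q + χ x • (1 - P * Q)
      map_add' := fun x y => by
        rw [map_add, map_add, Matrix.mul_add, Matrix.add_mul, add_smul]
        abel
      map_smul' := fun c x => by
        rw [map_smul, map_smul, Matrix.mul_smul, Matrix.smul_mul, smul_eq_mul, mul_smul,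
          RingHom.id_apply, smul_add] }
  refine ⟨AlgHom.ofLinearMap f ?_ ?_, fun x => rfl⟩
  · show P * π 1 * Q + χ 1 • (1 - P * Q) = 1
    rw [map_one, map_one, Matrix.mul_one, one_smul, add_sub_cancel]
  · intro x y
    show P * π (x * y) * Q + χ (x * y) • (1 - P * Q) =
      (P * π x * Q + χ x • (1 - P * Q)) * (P * π y * Q + χ y • (1 - P * Q))
    rw [map_mul, map_mul, add_mul, mul_add, mul_add, e4, mul_smul_comm, e1, smul_mul_assoc, e2,
      smul_mul_assoc, mul_smul_comm, e3, smul_zero, smul_zero, add_zero, zero_add, mul_smul]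

/-- `P = N^{**}` is projective: `i : P → R^s`, `r : R^s → P`, `r i = 1`; `j = i ∘ eval`, the row
`a` of `Λ φ` is `i (φ^{**} (r e_a))`. With a maximal independent family `n_t` and functionals
`λ_t` such that `d n = ∑ λ_t(n) n_t` one has `d Ξ = eval (∑ Ξ(λ_t) n_t)` on `N^{**}`. -/
theorem exists_proj (N : Type*) [AddCommGroup N] [Module Rq N] [Module.Finite Rq N]
    (hN : ∀ (r : Rq) (l : N), r • l = 0 → r = 0 ∨ l = 0) :
    ∃ (s : ℕ) (j : N →ₗ[Rq] (Fin s → Rq))
      (Λ : Module.End Rq N →ₗ[Rq] Matrix (Fin s) (Fin s) Rq),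
      (∀ φ φ', Λ (φ * φ') = Λ φ' * Λ φ) ∧ (∀ φ l, j (φ l) = j l ᵥ* Λ φ) ∧
      (∀ ψ : N →ₗ[Rq] Rq, ∃ c : Fin s → Rq, ∀ l, ψ l = j l ⬝ᵥ c) ∧
      ∃ d : Rq, d ≠ 0 ∧ ∃ l : Fin s → N, ∀ φ a b, d * Λ φ a b = j (φ (l a)) b := by
  have := l2_noeth
  have : Module.Projective Rq (Module.Dual Rq (Module.Dual Rq N)) := dual_projective _
  obtain ⟨s, r, hr⟩ := Module.Finite.exists_fin' Rq (Module.Dual Rq (Module.Dual Rq N))
  obtain ⟨i, hi⟩ := Module.projective_lifting_property r LinearMap.id hr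
  have hri : ∀ Ξ, r (i Ξ) = Ξ := fun Ξ => LinearMap.congr_fun hi Ξ
  let Λ : Module.End Rq N →ₗ[Rq] Matrix (Fin s) (Fin s) Rq :=
    { toFun := fun φ => Matrix.of fun a b => i (φ.dualMap.dualMap (r (Pi.single a 1))) b
      map_add' := fun φ φ' => by
        ext a b
        have : (φ + φ').dualMap.dualMap (r (Pi.single a 1)) =
            φ.dualMap.dualMap (r (Pi.single a 1)) + φ'.dualMap.dualMap (r (Pi.single a 1)) := by
          ext ψ
          have h2 : (φ + φ').dualMap ψ = φ.dualMap ψ + φ'.dualMap ψ := by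
            ext l
            simp
          simp only [LinearMap.dualMap_apply, LinearMap.add_apply, h2, map_add]
        simp only [Matrix.of_apply, Matrix.add_apply, this, map_add, Pi.add_apply]
      map_smul' := fun c φ => by
        ext a b
        have : (c • φ).dualMap.dualMap (r (Pi.single a 1)) =
            c • φ.dualMap.dualMap (r (Pi.single a 1)) := by
          ext ψ
          have h2 : (c • φ).dualMap ψ = c • φ.dualMap ψ := by
            ext l
            simp
          simp only [LinearMap.dualMap_apply, LinearMap.smul_apply, h2, map_smul]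
        simp only [Matrix.of_apply, Matrix.smul_apply, this, map_smul, Pi.smul_apply,
          RingHom.id_apply] }
  have hv : ∀ v : Fin s → Rq, v = ∑ a, v a • (Pi.single a 1 : Fin s → Rq) := by
    intro v
    ext b
    simp [Finset.sum_apply, Pi.single_apply]
  have key : ∀ φ (v : Fin s → Rq), v ᵥ* Λ φ = i (φ.dualMap.dualMap (r v)) := by
    intro φ v
    conv_rhs => rw [hv v]
    ext b
    simp only [map_sum, map_smul, Finset.sum_apply, Pi.smul_apply, smul_eq_mul]
    rfl
  obtain ⟨d, hd0, hd⟩ := l2_bidual N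
  choose l hl using hd
  refine ⟨s, i ∘ₗ Module.Dual.eval Rq N, Λ, fun φ φ' => ?_, fun φ l => ?_, fun ψ => ?_, d, hd0,
    fun a => l (r (Pi.single a 1)), fun φ a b => ?_⟩
  · refine Matrix.ext fun a b => ?_
    have := congrFun (key φ (i (φ'.dualMap.dualMap (r (Pi.single a 1))))) b
    rw [hri] at this
    exact this.symm
  · rw [key, LinearMap.comp_apply, LinearMap.comp_apply, hri]
    rfl
  · refine ⟨fun a => r (Pi.single a 1) ψ, fun l => ?_⟩
    have h1 : ψ l = r (i (Module.Dual.eval Rq N l)) ψ := by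
      rw [hri]
      rfl
    rw [h1]
    conv_lhs => rw [hv (i (Module.Dual.eval Rq N l))]
    simp only [map_sum, map_smul, LinearMap.sum_apply, LinearMap.smul_apply, smul_eq_mul]
    rfl
  · have h1 : Module.Dual.eval Rq N (φ (l (r (Pi.single a 1)))) =
        d • φ.dualMap.dualMap (r (Pi.single a 1)) := by
      rw [← map_smul, hl]
      rfl
    rw [LinearMap.comp_apply, h1, map_smul]
    rfl

/-- `π h = ∑_x θ^x Λ (ρ h x) + χ h (1 - Λ 1)` -/
theorem exists_pi {H E : Type*} [Ring H] [Algebra Rq H] [Ring E] [Algebra Rq E] {n s : ℕ}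
    (χ : H →ₐ[Rq] Rq) (ρ : H →ₗ[Rq] (Lat n →₀ E)) (h1 : ρ 1 = Finsupp.single 0 1)
    (hm : ∀ h h', ρ (h * h') =
      (ρ h).sum fun y φ => (ρ h').sum fun y' φ' => Finsupp.single (y + y') (φ' * φ))
    (Λ : E →ₗ[Rq] Matrix (Fin s) (Fin s) Rq) (hΛ : ∀ φ φ', Λ (φ * φ') = Λ φ' * Λ φ) :
    ∃ π : H →ₐ[Rq] Matrix (Fin s) (Fin s) (LA Rq n), ∀ h a b x, (π h a b).coeff x =
      Λ (ρ h x) a b + if x = 0 then χ h * (1 - Λ 1) a b else 0 := by
  let ι : Matrix (Fin s) (Fin s) Rq →ₐ[Rq] Matrix (Fin s) (Fin s) (LA Rq n) :=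
    (Algebra.ofId Rq (LA Rq n)).mapMatrix
  let Φ : (Lat n →₀ E) →ₗ[Rq] Matrix (Fin s) (Fin s) (LA Rq n) :=
    Finsupp.lsum Rq fun x => (mon x : LA Rq n) • (ι.toLinearMap ∘ₗ Λ)
  have hs : ∀ x φ, Φ (Finsupp.single x φ) = (mon x : LA Rq n) • ι (Λ φ) := by
    intro x φ
    simp [Φ]
  have hsum : ∀ f, Φ f = f.sum fun x φ => (mon x : LA Rq n) • ι (Λ φ) := fun f => rfl
  have hmul : ∀ h h', Φ (ρ (h * h')) = Φ (ρ h) * Φ (ρ h') := by
    intro h h'
    rw [hm, map_finsuppSum, hsum (ρ h), Finsupp.sum_mul]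
    refine Finsupp.sum_congr fun y _ => ?_
    rw [map_finsuppSum, hsum (ρ h'), Finsupp.mul_sum]
    refine Finsupp.sum_congr fun y' _ => ?_
    rw [hs, hΛ, map_mul, smul_mul_assoc, mul_smul_comm, smul_smul]
    congr 1
    simp [mon, AddMonoidAlgebra.single_mul_single]
  have hone : Φ (ρ 1) = ι (Λ 1) := by
    rw [h1, hs]
    exact one_smul _ _
  have hco : ∀ f a b x, (Φ f a b).coeff x = Λ (f x) a b := by
    intro f a b x
    induction f using Finsupp.induction_linear with
    | zero => simp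
    | add f g hf hg => simp [hf, hg]
    | single y φ =>
      rw [hs]
      have : ((mon y : LA Rq n) • ι (Λ φ)) a b = AddMonoidAlgebra.single y (Λ φ a b) := by
        show mon y * algebraMap Rq (LA Rq n) (Λ φ a b) = _
        simp [mon, AddMonoidAlgebra.coe_algebraMap, AddMonoidAlgebra.single_mul_single]
      rw [this, AddMonoidAlgebra.coeff_single, Finsupp.single_apply, Finsupp.single_apply]
      split_ifs <;> simp
  have e1 : ∀ h, Φ (ρ h) * (1 - ι (Λ 1)) = 0 := by
    intro h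
    rw [mul_sub, mul_one, ← hone, ← hmul, mul_one, sub_self]
  have e2 : ∀ h, (1 - ι (Λ 1)) * Φ (ρ h) = 0 := by
    intro h
    rw [sub_mul, one_mul, ← hone, ← hmul, one_mul, sub_self]
  have e3 : (1 - ι (Λ 1)) * (1 - ι (Λ 1)) = 1 - ι (Λ 1) := by
    have := e1 1
    rw [hone] at this
    rw [sub_mul, one_mul, this, sub_zero]
  let f : H →ₗ[Rq] Matrix (Fin s) (Fin s) (LA Rq n) :=
    Φ ∘ₗ ρ + χ.toLinearMap.smulRight (1 - ι (Λ 1))
  have hf : ∀ h, f h = Φ (ρ h) + χ h • (1 - ι (Λ 1)) := fun h => rfl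
  refine ⟨AlgHom.ofLinearMap f ?_ ?_, fun h a b x => ?_⟩
  · rw [hf, hone, map_one χ, one_smul, add_sub_cancel]
  · intro x y
    rw [hf, hf, hf, hmul, map_mul, add_mul, mul_add, mul_add, mul_smul_comm, e1, smul_mul_assoc,
      e2, smul_mul_assoc, mul_smul_comm, e3, smul_zero, smul_zero, add_zero, zero_add, mul_smul]
  · show (f h a b).coeff x = _
    rw [hf, Matrix.add_apply, AddMonoidAlgebra.coeff_add, Finsupp.add_apply, hco]
    congr 1
    have : (χ h • (1 - ι (Λ 1))) a b = AddMonoidAlgebra.single 0 (χ h * (1 - Λ 1) a b) := by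
      rw [← map_one ι, ← map_sub, ← map_smul]
      rfl
    rw [this, AddMonoidAlgebra.coeff_single, Finsupp.single_apply]
    simp [eq_comm]

/-- conjugate `χ ⊕ π ⊕ χ^t` by the unipotent matrix with rows `v₀ + τ m`, `b + τ ∑ ψ_i(b) u_i`,
`u_i` -/
theorem twist {H S : Type*} [Ring H] [Algebra Rq H] [CommRing S] [Algebra Rq S]
    (χ : H →ₐ[Rq] Rq) {s t : ℕ} (π : H →ₐ[Rq] Matrix (Fin s) (Fin s) S) (m : Fin s → S)
    (ψ : Fin t → Fin s → S) (τ : S) :
    ∃ σ : H →ₐ[Rq] Matrix (Option (Fin s ⊕ Fin t)) (Option (Fin s ⊕ Fin t)) S, ∀ h, χ h = 0 →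
      (∀ a, σ h a none = 0) ∧ (∀ i b, σ h (some (.inr i)) b = 0) ∧
      (∀ a b, σ h (some (.inl a)) (some (.inl b)) = π h a b) ∧
      (∀ a i, σ h (some (.inl a)) (some (.inr i)) = -τ * (π h *ᵥ ψ i) a) ∧
      (∀ b, σ h none (some (.inl b)) = τ * (m ᵥ* π h) b) ∧
      ∀ i, σ h none (some (.inr i)) = -τ ^ 2 * ((m ᵥ* π h) ⬝ᵥ ψ i) := by
  let P : Matrix (Option (Fin s ⊕ Fin t)) (Fin s) S := Matrix.of fun x b =>
    x.elim (τ * m b) (Sum.elim (fun a => (1 : Matrix (Fin s) (Fin s) S) a b) fun _ => 0)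
  let Q : Matrix (Fin s) (Option (Fin s ⊕ Fin t)) S := Matrix.of fun b x =>
    x.elim 0 (Sum.elim (fun a => (1 : Matrix (Fin s) (Fin s) S) b a) fun i => -τ * ψ i b)
  have hQP : Q * P = 1 := by
    ext a b
    simp [P, Q, Matrix.mul_apply, Fintype.sum_option, Fintype.sum_sum_type, Matrix.one_apply]
  obtain ⟨σ, hσ⟩ := l2_ext χ π P Q hQP
  refine ⟨σ, fun h hh => ?_⟩
  rw [hσ, hh, zero_smul, add_zero]
  refine ⟨fun a => ?_, fun i b => ?_, fun a b => ?_, fun a i => ?_, fun b => ?_, fun i => ?_⟩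
  · simp [Q, Matrix.mul_apply]
  · simp [P, Matrix.mul_apply]
  · simp [P, Q, Matrix.mul_apply, Matrix.one_apply]
  · simp only [P, Q, Matrix.mul_apply, Matrix.one_apply, Matrix.of_apply, Option.elim,
      Sum.elim_inl, Sum.elim_inr, ite_mul, one_mul, zero_mul, Finset.sum_ite_eq, Finset.mem_univ,
      if_true, Matrix.mulVec, dotProduct, Finset.mul_sum]
    exact Finset.sum_congr rfl fun c _ => by ring
  · simp only [P, Q, Matrix.mul_apply, Matrix.one_apply, Matrix.of_apply, Option.elim,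
      Sum.elim_inl, mul_ite, mul_one, mul_zero, Finset.sum_ite_eq', Finset.mem_univ,
      if_true, Matrix.vecMul, dotProduct, Finset.mul_sum]
    exact Finset.sum_congr rfl fun c _ => by ring
  · simp only [P, Q, Matrix.mul_apply, Matrix.of_apply, Option.elim,
      Sum.elim_inr, Matrix.vecMul, dotProduct, Finset.mul_sum, Finset.sum_mul]
    exact Finset.sum_congr rfl fun c _ => Finset.sum_congr rfl fun e _ => by ring

/-- direct sums -/
theorem dsum {H S : Type*} [Ring H] [Algebra Rq H] [CommRing S] [Algebra Rq S] {T : Type*}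
    (s : Finset T) (N : T → ℕ) (σ : ∀ t, H →ₐ[Rq] Matrix (Fin (N t)) (Fin (N t)) S) :
    ∃ (N' : ℕ) (σ' : H →ₐ[Rq] Matrix (Fin N') (Fin N') S), ∀ h (p : S → Prop), p 0 →
      ((∀ a b, p (σ' h a b)) ↔ ∀ t ∈ s, ∀ a b, p (σ t h a b)) := by
  let f : H →ₗ[Rq] Matrix (Σ t : s, Fin (N t)) (Σ t : s, Fin (N t)) S :=
    { toFun := fun h => Matrix.blockDiagonal' fun t : s => σ t h
      map_add' := fun x y => by
        rw [← Matrix.blockDiagonal'_add]
        congr 1
        ext t : 1
        simp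
      map_smul' := fun c x => by
        rw [RingHom.id_apply, ← Matrix.blockDiagonal'_smul]
        congr 1
        ext t : 1
        simp }
  have hf : ∀ h, f h = Matrix.blockDiagonal' fun t : s => σ t h := fun h => rfl
  let σ0 : H →ₐ[Rq] Matrix (Σ t : s, Fin (N t)) (Σ t : s, Fin (N t)) S :=
    AlgHom.ofLinearMap f
      (by
        rw [hf, ← Matrix.blockDiagonal'_one]
        congr 1
        ext t : 1
        simp)
      (fun x y => by
        rw [hf, hf, hf, ← Matrix.blockDiagonal'_mul]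
        congr 1
        ext t : 1
        simp)
  let e := Fintype.equivFin (Σ t : s, Fin (N t))
  refine ⟨_, (Matrix.reindexAlgEquiv Rq S e).toAlgHom.comp σ0, fun h p hp => ?_⟩
  have hσ : ∀ a b, ((Matrix.reindexAlgEquiv Rq S e).toAlgHom.comp σ0) h a b =
      Matrix.blockDiagonal' (fun t : s => σ t h) (e.symm a) (e.symm b) := fun a b => rfl
  constructor
  · intro hh t ht a b
    have := hh (e ⟨⟨t, ht⟩, a⟩) (e ⟨⟨t, ht⟩, b⟩)
    rwa [hσ, e.symm_apply_apply, e.symm_apply_apply, Matrix.blockDiagonal'_apply_eq] at this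
  · intro hh a b
    rw [hσ]
    obtain ⟨t, a'⟩ := e.symm a
    obtain ⟨t', b'⟩ := e.symm b
    by_cases htt : t = t'
    · subst htt
      rw [Matrix.blockDiagonal'_apply_eq]
      exact hh t t.2 a' b'
    · rw [Matrix.blockDiagonal'_apply_ne _ _ _ htt]
      exact hp

/-- all coefficients have degree at most `k` -/
def GD {n : ℕ} (k : ℤ) (f : LA Rq n) : Prop := ∀ x, f.coeff x ∈ dR k

variable {n : ℕ} {k l : ℤ} {f g : LA Rq n}

theorem GD.zero (k : ℤ) : GD k (0 : LA Rq n) := by
  exact fun _ => zero_mem (dR k)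

theorem GD.mono (h : GD k f) (hk : k ≤ l) : GD l f := by
  exact fun x => dR_mono hk (h x)

theorem GD.add (h : GD k f) (h' : GD k g) : GD k (f + g) := by
  exact fun x => add_mem (h x) (h' x)

theorem GD.neg (h : GD k f) : GD k (-f) := by
  exact fun x => neg_mem (h x)

theorem GD.sum {ι : Type*} {s : Finset ι} {a : ι → LA Rq n} (h : ∀ i ∈ s, GD k (a i)) :
    GD k (∑ i ∈ s, a i) := by
  intro x
  rw [AddMonoidAlgebra.coeff_sum, Finsupp.finsetSum_apply]
  exact sum_mem fun i hi => h i hi x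

theorem GD.mul (h : GD k f) (h' : GD l g) : GD (k + l) (f * g) := by
  intro x
  rw [AddMonoidAlgebra.coeff_mul]
  refine sum_mem fun a _ => sum_mem fun b _ => ?_
  dsimp only
  split_ifs
  · exact mul_mem_dR (h a) (h' b)
  · exact zero_mem _

theorem l2_exists_dR (r : Rq) : ∃ k : ℕ, r ∈ dR k := by
  refine ⟨r.coeff.support.sup Int.toNat, fun k hk => ?_⟩
  by_contra h
  have := Finset.le_sup (f := Int.toNat) (Finsupp.mem_support_iff.2 h)
  omega

theorem exists_GD (f : LA Rq n) : ∃ k : ℕ, GD k f := by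
  choose c hc using fun r : Rq => l2_exists_dR r
  refine ⟨f.coeff.support.sup fun x => c (f.coeff x), fun x => ?_⟩
  by_cases hx : x ∈ f.coeff.support
  · exact dR_mono (by exact_mod_cast Finset.le_sup (f := fun x => c (f.coeff x)) hx) (hc _)
  · rw [Finsupp.notMem_support_iff.1 hx]
    exact zero_mem _

theorem GD_T_mul (m : ℤ) :
    GD (m + k) (algebraMap Rq (LA Rq n) (LaurentPolynomial.T m) * f) ↔ GD k f := by
  refine forall_congr' fun x => ?_
  rw [← Algebra.smul_def, AddMonoidAlgebra.coeff_smul_apply, smul_eq_mul, mem_dR, mem_dR]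
  constructor
  · intro h j hj
    have := h (j + m) (by omega)
    rwa [coeff_T_mul, add_sub_cancel_right] at this
  · intro h j hj
    rw [coeff_T_mul]
    exact h _ (by omega)

theorem exists_dR (r : Rq) : ∃ k : ℕ, r ∈ dR k := by
  exact l2_exists_dR r

/-- top coefficients multiply -/
theorem dR_of_mul {d : Rq} (hd : d ≠ 0) : ∃ c : ℕ, ∀ r k, d * r ∈ dR k → r ∈ dR (k + c) := by
  have hne : d.coeff.support.Nonempty := by
    rw [Finsupp.support_nonempty_iff]
    simpa using hd
  refine ⟨(-d.coeff.support.max' hne).toNat, fun r k h j hj => ?_⟩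
  by_contra hr
  have hj' : j ∈ r.coeff.support := Finsupp.mem_support_iff.2 hr
  have hne' : r.coeff.support.Nonempty := ⟨j, hj'⟩
  have hu : UniqueAdd d.coeff.support r.coeff.support (d.coeff.support.max' hne)
      (r.coeff.support.max' hne') := by
    intro a b ha hb hab
    have h1 := Finset.le_max' _ a ha
    have h2 := Finset.le_max' _ b hb
    omega
  have h1 := AddMonoidAlgebra.coeff_mul_add_of_uniqueAdd hu
  have h2 := Finset.le_max' _ j hj'
  rw [h _ (by omega)] at h1
  exact mul_ne_zero (Finsupp.mem_support_iff.1 (Finset.max'_mem _ hne))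
    (Finsupp.mem_support_iff.1 (Finset.max'_mem _ hne')) h1.symm

end Pool.Agent.P.MP_74db7f_al
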