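import Pool.Agent.P.MP_74db7f_al.F.KD

/-! P1: existence of points (Berkovich) (paper, section 3). -/

namespace Pool.Agent.P.MP_74db7f_al

open scoped Classical Topology
open Filter

set_option linter.unusedSectionVars false

/-- a nonempty compact set of real functions has a minimal element -/
theorem p1_exists_min {A : Type*} {S : Set (A → ℝ)} (hS : IsCompact S) (hc : IsClosed S)
    {f : A → ℝ} (hf : f ∈ S) : ∃ m ∈ S, ∀ g ∈ S, g ≤ m → m ≤ g := by
  obtain ⟨m, -, hm⟩ := zorn_le_nonempty₀ (α := (A → ℝ)ᵒᵈ) S (fun c hcS hch y hy => by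
    have : Nonempty c := ⟨⟨y, hy⟩⟩
    have hcl : ∀ z : c, IsClosed (S ∩ Set.Iic (OrderDual.ofDual z.1)) :=
      fun z => hc.inter isClosed_Iic
    obtain ⟨u, hu⟩ := IsCompact.nonempty_iInter_of_directed_nonempty_isCompact_isClosed
      (fun z : c => S ∩ Set.Iic (OrderDual.ofDual z.1)) (fun z z' => by
        rcases hch.total z.2 z'.2 with h | h
        · exact ⟨z', fun x hx => ⟨hx.1, Set.mem_Iic.2
            (le_trans (Set.mem_Iic.1 hx.2) (OrderDual.ofDual_le_ofDual.2 h))⟩, fun x hx => hx⟩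
        · exact ⟨z, fun x hx => hx, fun x hx => ⟨hx.1, Set.mem_Iic.2
            (le_trans (Set.mem_Iic.1 hx.2) (OrderDual.ofDual_le_ofDual.2 h))⟩⟩)
      (fun z => ⟨OrderDual.ofDual z.1, hcS z.2, Set.mem_Iic.2 (le_refl _)⟩)
      (fun z => hS.of_isClosed_subset (hcl z) Set.inter_subset_left) hcl
    rw [Set.mem_iInter] at hu
    exact ⟨u, (hu ⟨y, hy⟩).1, fun z hz => (hu ⟨z, hz⟩).2⟩) f hf
  exact ⟨m, hm.1, fun g hg h => hm.2 hg h⟩

/-- Zorn's lemma on power multiplicative nonarchimedean seminorms below `smoothingSeminorm μ`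
for which `a` is multiplicative; a minimal one is fixed by `seminormFromConst`. -/
theorem exists_mul_seminorm {A : Type*} [CommRing A] (μ : RingSeminorm A) (h1 : μ 1 = 1)
    (hna : IsNonarchimedean μ) (a : A) : ∃ p : A → ℝ, p 1 = 1 ∧ (∀ x, 0 ≤ p x) ∧
      (∀ x y, p (x * y) = p x * p y) ∧ (∀ x y, p (x + y) ≤ max (p x) (p y)) ∧
      (∀ x, p x ≤ μ x) ∧ p a = smoothingFun μ a := by
  set ρ := smoothingFun μ a with hρ
  let S : Set (A → ℝ) := {f | f 0 = 0 ∧ f 1 = 1 ∧ (∀ x, 0 ≤ f x) ∧ (∀ x, f (-x) = f x) ∧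
    (∀ x y, f (x * y) ≤ f x * f y) ∧ (∀ x y, f (x + y) ≤ max (f x) (f y)) ∧
    (∀ x (n : ℕ), f (x ^ (n + 1)) = f x ^ (n + 1)) ∧ (∀ x, f x ≤ μ x) ∧ f a = ρ ∧
    ∀ y, f (a * y) = ρ * f y}
  have hcl : IsClosed S := by
    simp only [S, Set.ofPred_and, Set.ofPred_forall]
    refine IsClosed.inter (isClosed_eq (by fun_prop) (by fun_prop)) ?_
    refine IsClosed.inter (isClosed_eq (by fun_prop) (by fun_prop)) ?_
    refine IsClosed.inter (isClosed_iInter fun x => isClosed_le (by fun_prop) (by fun_prop)) ?_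
    refine IsClosed.inter (isClosed_iInter fun x => isClosed_eq (by fun_prop) (by fun_prop)) ?_
    refine IsClosed.inter (isClosed_iInter fun x => isClosed_iInter fun y =>
      isClosed_le (by fun_prop) (by fun_prop)) ?_
    refine IsClosed.inter (isClosed_iInter fun x => isClosed_iInter fun y =>
      isClosed_le (by fun_prop) (by fun_prop)) ?_
    refine IsClosed.inter (isClosed_iInter fun x => isClosed_iInter fun y =>
      isClosed_eq (by fun_prop) (by fun_prop)) ?_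
    refine IsClosed.inter (isClosed_iInter fun x => isClosed_le (by fun_prop) (by fun_prop)) ?_
    refine IsClosed.inter (isClosed_eq (by fun_prop) (by fun_prop)) ?_
    exact isClosed_iInter fun x => isClosed_eq (by fun_prop) (by fun_prop)
  have hcp : IsCompact S := by
    refine (isCompact_univ_pi fun x => (isCompact_Icc : IsCompact (Set.Icc 0 (μ x)))).of_isClosed_subset
      hcl ?_
    intro f hf x _
    exact ⟨hf.2.2.1 x, hf.2.2.2.2.2.2.2.1 x⟩
  -- a seminorm with the properties gives an element of `S`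
  have mk : ∀ g : RingSeminorm A, g 1 = 1 → IsNonarchimedean g → IsPowMul g → (∀ x, g x ≤ μ x) →
      g a = ρ → (∀ y, g (a * y) = g a * g y) → (g : A → ℝ) ∈ S := by
    intro g g1 gna gpm gle ga gm
    exact ⟨map_zero g, g1, fun x => apply_nonneg g x, fun x => map_neg_eq_map g x,
      fun x y => map_mul_le_mul g x y, gna, fun x n => gpm x (Nat.succ_le_succ (Nat.zero_le n)),
      gle, ga, fun y => by rw [gm, ga]⟩
  have hne : ∃ f, f ∈ S := by
    let g := smoothingSeminorm μ h1.le hna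
    have g1 : g 1 = 1 := by
      have := smoothingFun_of_powMul μ h1.le (x := 1) (fun n _ => by rw [one_pow, h1, one_pow])
      rw [h1] at this
      exact this
    have gna : IsNonarchimedean g := isNonarchimedean_smoothingFun μ h1.le hna
    have gpm : IsPowMul g := isPowMul_smoothingFun μ h1.le
    have gle : ∀ x, g x ≤ μ x := smoothingFun_le_self μ
    have ga : g a = ρ := rfl
    by_cases h0 : g a = 0
    · refine ⟨g, mk g g1 gna gpm gle ga fun y => le_antisymm (map_mul_le_mul g a y) ?_⟩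
      rw [h0, zero_mul]
      exact apply_nonneg g _
    · exact ⟨_, mk (seminormFromConst g1.le h0 gpm) (seminormFromConst_one g1.le h0 gpm)
        (seminormFromConst_isNonarchimedean g1.le h0 gpm gna)
        (seminormFromConst_isPowMul g1.le h0 gpm)
        (fun x => (seminormFromConst_le_seminorm g1.le h0 gpm x).trans (gle x))
        ((seminormFromConst_apply_c g1.le h0 gpm).trans ga)
        (seminormFromConst_const_mul g1.le h0 gpm)⟩
  obtain ⟨f, hf⟩ := hne
  obtain ⟨m, ⟨m0, m1, mn, mneg, mmul, madd, mpow, mle, ma, mam⟩, hmin⟩ := p1_exists_min hcp hcl hf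
  refine ⟨m, m1, mn, fun c x => ?_, madd, mle, ma⟩
  by_cases h0 : m c = 0
  · refine le_antisymm (mmul c x) ?_
    rw [h0, zero_mul]
    exact mn _
  let g : RingSeminorm A :=
    { toFun := m
      map_zero' := m0
      add_le' := fun x y => (madd x y).trans
        (max_le (le_add_of_nonneg_right (mn y)) (le_add_of_nonneg_left (mn x)))
      neg' := mneg
      mul_le' := mmul }
  have g1 : g 1 = 1 := m1
  have gpm : IsPowMul g := fun x n hn => by
    obtain ⟨k, rfl⟩ := Nat.exists_eq_add_of_le' hn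
    exact mpow x k
  have gam : ∀ y, g (a * y) = g a * g y := fun y => by
    show m (a * y) = m a * m y
    rw [mam, ma]
  have h0' : g c ≠ 0 := h0
  have hmem := mk (seminormFromConst g1.le h0' gpm) (seminormFromConst_one g1.le h0' gpm)
    (seminormFromConst_isNonarchimedean g1.le h0' gpm madd)
    (seminormFromConst_isPowMul g1.le h0' gpm)
    (fun x => (seminormFromConst_le_seminorm g1.le h0' gpm x).trans (mle x))
    ((seminormFromConst_apply_of_isMul g1.le h0' gpm gam).trans ma)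
    (seminormFromConst_isMul_of_isMul g1.le h0' gpm gam)
  have hle : (seminormFromConst g1.le h0' gpm : A → ℝ) ≤ m :=
    fun x => seminormFromConst_le_seminorm g1.le h0' gpm x
  have heq : seminormFromConst' c g = m := le_antisymm hle (hmin _ hmem hle)
  have := seminormFromConst_const_mul g1.le h0' gpm x
  rwa [heq] at this

variable {K : Type*} [NontriviallyNormedField K] {𝔅 : Type*} [NormedRing 𝔅] [NormedAlgebra K 𝔅]
  [CompleteSpace 𝔅] [IsUltrametricDist 𝔅] [NormOneClass 𝔅] {𝒜 : Subalgebra K 𝔅}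

/-- the commutative ring structure -/
@[reducible] def Spec.commRing (h : Spec 𝒜) : CommRing 𝒜 :=
  { (inferInstance : Ring 𝒜) with mul_comm := fun a b => Subtype.ext (h.comm a a.2 b b.2) }

omit [CompleteSpace 𝔅] [IsUltrametricDist 𝔅] [NormOneClass 𝔅] in
theorem Spec.exists_pt (h : Spec 𝒜) (μ : RingSeminorm 𝒜) (h1 : μ 1 = 1)
    (hna : IsNonarchimedean μ) (hle : ∀ x, μ x ≤ ‖(x : 𝔅)‖) (a : 𝒜) :
    ∃ p : Pt 𝒜, (∀ x : 𝒜, p.p x ≤ μ x) ∧
      Tendsto (fun n : ℕ => μ (a ^ n) ^ (1 / n : ℝ)) atTop (𝓝 (p.p a)) := by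
  let _ := h.commRing
  obtain ⟨p, p1, pn, pm, pa, pl, pe⟩ := exists_mul_seminorm μ h1 hna a
  let q : 𝔅 → ℝ := fun x => if hx : x ∈ 𝒜 then p ⟨x, hx⟩ else 0
  have hq : ∀ x (hx : x ∈ 𝒜), q x = p ⟨x, hx⟩ := fun x hx => dif_pos hx
  refine ⟨⟨q, ?_, fun x hx => ?_, fun x hx y hy => ?_, fun x hx y hy => ?_, fun x hx => ?_⟩,
    fun x => ?_, ?_⟩
  · rw [hq 1 (one_mem _)]
    exact p1
  · rw [hq x hx]
    exact pn _
  · rw [hq x hx, hq y hy, hq _ (mul_mem hx hy)]
    exact pm ⟨x, hx⟩ ⟨y, hy⟩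
  · rw [hq x hx, hq y hy, hq _ (add_mem hx hy)]
    exact pa ⟨x, hx⟩ ⟨y, hy⟩
  · rw [hq x hx]
    exact (pl _).trans (hle _)
  · show q x ≤ μ x
    rw [hq x x.2]
    exact pl _
  · show Tendsto _ _ (𝓝 (q a))
    rw [hq a a.2]
    show Tendsto _ _ (𝓝 (p a))
    rw [pe]
    exact tendsto_smoothingFun_of_map_one_le_one μ h1.le a

/-- (P1): use the seminorm `x ↦ inf_b ‖x + a b‖` on `𝒜` -/
theorem Spec.exists_pt_zero (h : Spec 𝒜) {a : 𝔅} (ha : a ∈ 𝒜) (hn : ¬ IsUnit a) :
    ∃ p : Pt 𝒜, p.p a = 0 := by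
  let f : 𝒜 → ℝ := fun x => ⨅ b : 𝒜, ‖(x : 𝔅) + a * b‖
  have bdd : ∀ x : 𝒜, BddBelow (Set.range fun b : 𝒜 => ‖(x : 𝔅) + a * b‖) :=
    fun x => ⟨0, by rintro _ ⟨b, rfl⟩; exact norm_nonneg _⟩
  have fle : ∀ x b : 𝒜, f x ≤ ‖(x : 𝔅) + a * b‖ := fun x b => ciInf_le (bdd x) b
  have fn : ∀ x, 0 ≤ f x := fun x => le_ciInf fun b => norm_nonneg _
  have fle' : ∀ x : 𝒜, f x ≤ ‖(x : 𝔅)‖ := fun x => by simpa using fle x 0
  have fadd : ∀ x y, f (x + y) ≤ max (f x) (f y) := by
    intro x y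
    by_contra hlt
    rw [not_le, max_lt_iff] at hlt
    obtain ⟨b, hb⟩ := exists_lt_of_ciInf_lt hlt.1
    obtain ⟨c, hc⟩ := exists_lt_of_ciInf_lt hlt.2
    have h1 := fle (x + y) (b + c)
    have h2 : ((x + y : 𝒜) : 𝔅) + a * (b + c : 𝒜) = (x + a * b) + (y + a * c) := by
      push_cast
      noncomm_ring
    rw [h2] at h1
    have h3 := h1.trans (IsUltrametricDist.norm_add_le_max _ _)
    exact absurd (max_lt hb hc) (not_lt.mpr h3)
  have fneg : ∀ x, f (-x) ≤ f x := by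
    intro x
    refine le_ciInf fun b => (fle (-x) (-b)).trans (le_of_eq ?_)
    rw [← norm_neg]
    congr 1
    push_cast
    noncomm_ring
  let μ : RingSeminorm 𝒜 :=
    { toFun := f
      map_zero' := le_antisymm (by simpa using fle' 0) (fn 0)
      add_le' := fun x y => (fadd x y).trans
        (max_le (le_add_of_nonneg_right (fn y)) (le_add_of_nonneg_left (fn x)))
      neg' := fun x => le_antisymm (fneg x) (by simpa using fneg (-x))
      mul_le' := fun x y => by
        show f (x * y) ≤ (⨅ b : 𝒜, ‖(x : 𝔅) + a * b‖) * f y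
        rw [Real.iInf_mul_of_nonneg (fn y)]
        refine le_ciInf fun b => ?_
        show f (x * y) ≤ _ * ⨅ c : 𝒜, ‖(y : 𝔅) + a * c‖
        rw [Real.mul_iInf_of_nonneg (norm_nonneg _)]
        refine le_ciInf fun c => ?_
        refine (fle (x * y) (b * y + x * c + b * ⟨a, ha⟩ * c)).trans ?_
        refine le_trans (le_of_eq ?_) (norm_mul_le _ _)
        congr 1
        push_cast
        have e : (x : 𝔅) * (a * c) = a * (x * c) := by
          rw [← mul_assoc, h.comm x x.2 a ha, mul_assoc]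
        rw [add_mul, mul_add, mul_add, mul_add, mul_add, e]
        noncomm_ring }
  have μ1 : μ 1 = 1 := by
    show f 1 = 1
    refine le_antisymm (by simpa using fle' 1) (le_ciInf fun b => ?_)
    by_contra hlt
    rw [not_le] at hlt
    have hu : IsUnit (1 - (((1 : 𝒜) : 𝔅) + a * b)) := (Units.oneSub _ hlt).isUnit
    have e : (1 - (((1 : 𝒜) : 𝔅) + a * b)) = a * (-b) := by
      push_cast
      noncomm_ring
    rw [e] at hu
    have hc : Commute a (-(b : 𝔅)) := h.comm a ha _ (neg_mem b.2)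
    exact hn (hc.isUnit_mul_iff.mp hu).1
  obtain ⟨p, hp, -⟩ := h.exists_pt μ μ1 fadd fle' 1
  refine ⟨p, le_antisymm ((hp ⟨a, ha⟩).trans ?_) (p.nonneg a ha)⟩
  show f _ ≤ 0
  simpa using fle ⟨a, ha⟩ (-1)

/-- (P2) -/
theorem Spec.pow_le (h : Spec 𝒜) {a : 𝔅} (ha : a ∈ 𝒜) {r : ℝ} (hr : ∀ p : Pt 𝒜, p.p a ≤ r)
    {r' : ℝ} (hr' : r < r') : ∃ A : ℝ, ∀ k : ℕ, ‖a ^ k‖ ≤ A * r' ^ k := by
  let μ : RingSeminorm 𝒜 :=
    { toFun := fun x => ‖(x : 𝔅)‖
      map_zero' := by simp
      add_le' := fun x y => norm_add_le (x : 𝔅) y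
      neg' := fun x => norm_neg (x : 𝔅)
      mul_le' := fun x y => norm_mul_le (x : 𝔅) y }
  obtain ⟨p, -, hp⟩ := h.exists_pt μ (norm_one (α := 𝔅))
    (fun x y => IsUltrametricDist.norm_add_le_max (x : 𝔅) y) (fun x => le_refl _) ⟨a, ha⟩
  have hlt : p.p a < r' := (hr p).trans_lt hr'
  have hpos : 0 < r' := (p.nonneg a ha).trans_lt hlt
  have hev : ∀ᶠ k : ℕ in atTop, ‖a ^ k‖ / r' ^ k ≤ 1 := by
    filter_upwards [hp.eventually (gt_mem_nhds hlt), eventually_gt_atTop 0] with k hk hk0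
    rw [div_le_one (pow_pos hpos k)]
    have e : μ (⟨a, ha⟩ ^ k) = ‖a ^ k‖ := by
      show ‖((⟨a, ha⟩ ^ k : 𝒜) : 𝔅)‖ = _
      rw [SubmonoidClass.coe_pow]
    rw [e] at hk
    have h2 := pow_le_pow_left₀ (Real.rpow_nonneg (norm_nonneg _) _) hk.le k
    rwa [one_div, Real.rpow_inv_natCast_pow (norm_nonneg _) hk0.ne'] at h2
  obtain ⟨A, hA⟩ := (isBoundedUnder_of_eventually_le hev).bddAbove_range
  refine ⟨A, fun k => ?_⟩
  rw [← div_le_iff₀ (pow_pos hpos k)]
  exact hA ⟨k, rfl⟩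

end Pool.Agent.P.MP_74db7f_al
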