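import Pool.Agent.P.MP_74db7f_al.F.P1

/-! P2: calculus of points, Newton idempotents, Riesz projections, reflection of points. -/

namespace Pool.Agent.P.MP_74db7f_al

open scoped Classical Topology
open Filter

set_option linter.unusedSectionVars false

variable {K : Type*} [NontriviallyNormedField K] {𝔅 : Type*} [NormedRing 𝔅] [NormedAlgebra K 𝔅]
  [CompleteSpace 𝔅] [IsUltrametricDist 𝔅] [NormOneClass 𝔅] {𝒜 : Subalgebra K 𝔅}

theorem mem_bic_iff {s : Set 𝔅} {a : 𝔅} :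
    a ∈ bic K s ↔ ∀ b, (∀ c ∈ s, c * b = b * c) → b * a = a * b := Iff.rfl

theorem spec_bic {s : Set 𝔅} (hs : ∀ a ∈ s, ∀ b ∈ s, a * b = b * a) : Spec (bic K s) := by
  refine ⟨fun a ha b hb => ?_, Set.isClosed_centralizer _, fun a ha hu => ?_⟩
  · exact (mem_bic_iff.1 ha b fun c hc => mem_bic_iff.1 hb c fun d hd => hs d hd c hc).symm
  · obtain ⟨u, rfl⟩ := hu
    rw [Ring.inverse_unit]
    exact mem_bic_iff.2 fun b hb =>
      (Commute.units_inv_right (show Commute b u from mem_bic_iff.1 ha b hb)).eq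

theorem mem_bic {s : Set 𝔅} {a : 𝔅} (ha : a ∈ s) : a ∈ bic K s :=
  mem_bic_iff.2 fun _ hb => (hb a ha).symm

theorem bic_comm {s : Set 𝔅} {a b : 𝔅} (ha : a ∈ bic K s) (hb : ∀ c ∈ s, c * b = b * c) :
    a * b = b * a :=
  (mem_bic_iff.1 ha b hb).symm

theorem p2_le_of_pow_le {x y C : ℝ} (hy : 0 ≤ y) (h : ∀ k : ℕ, x ^ k ≤ C * y ^ k) : x ≤ y := by
  by_contra hlt
  rw [not_le] at hlt
  rcases hy.eq_or_lt with rfl | hy
  · have := h 1
    simp only [pow_one, mul_zero] at this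
    exact absurd hlt (not_lt.mpr this)
  · have h1 : 1 < x / y := (one_lt_div hy).mpr hlt
    obtain ⟨k, hk⟩ := ((tendsto_pow_atTop_atTop_of_one_lt h1).eventually_gt_atTop C).exists
    rw [div_pow, lt_div_iff₀ (pow_pos hy k)] at hk
    exact absurd (h k) (not_le.mpr hk)

namespace Pt

variable (p : Pt 𝒜)

theorem zero : p.p 0 = 0 :=
  le_antisymm (by simpa using p.le 0 (zero_mem _)) (p.nonneg 0 (zero_mem _))

theorem algebraMap (c : K) : p.p (algebraMap K 𝔅 c) = ‖c‖ := by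
  have hle : ∀ c : K, p.p (Algebra.algebraMap K 𝔅 c) ≤ ‖c‖ := fun c => by
    simpa using p.le _ (𝒜.algebraMap_mem c)
  refine le_antisymm (hle c) ?_
  by_cases hc : c = 0
  · rw [hc, norm_zero]
    exact p.nonneg _ (𝒜.algebraMap_mem _)
  have h1 := p.mul _ (𝒜.algebraMap_mem c) _ (𝒜.algebraMap_mem c⁻¹)
  rw [← map_mul, mul_inv_cancel₀ hc, map_one, p.one] at h1
  have h2 := hle c⁻¹
  have h3 : 0 < ‖c‖ := norm_pos_iff.mpr hc
  have h4 := p.nonneg _ (𝒜.algebraMap_mem c)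
  rw [norm_inv] at h2
  have h5 : 1 ≤ p.p (Algebra.algebraMap K 𝔅 c) * ‖c‖⁻¹ := h1.le.trans (by gcongr)
  rwa [← div_eq_mul_inv, one_le_div h3] at h5

theorem smul (c : K) {a : 𝔅} (ha : a ∈ 𝒜) : p.p (c • a) = ‖c‖ * p.p a := by
  rw [Algebra.smul_def, p.mul _ (𝒜.algebraMap_mem c) _ ha, p.algebraMap]

theorem neg {a : 𝔅} (ha : a ∈ 𝒜) : p.p (-a) = p.p a := by
  have := p.smul (-1) ha
  simpa using this

theorem pow {a : 𝔅} (ha : a ∈ 𝒜) (k : ℕ) : p.p (a ^ k) = p.p a ^ k := by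
  induction k with
  | zero => simpa using p.one
  | succ k ih => rw [pow_succ, p.mul _ (pow_mem ha k) _ ha, ih, pow_succ]

theorem sub_le {a b : 𝔅} (ha : a ∈ 𝒜) (hb : b ∈ 𝒜) : p.p (a - b) ≤ max (p.p a) (p.p b) := by
  rw [sub_eq_add_neg, ← p.neg hb]
  exact p.add _ ha _ (neg_mem hb)

theorem add_eq {a b : 𝔅} (ha : a ∈ 𝒜) (hb : b ∈ 𝒜) (h : p.p b < p.p a) :
    p.p (a + b) = p.p a := by
  refine le_antisymm ((p.add _ ha _ hb).trans (max_le le_rfl h.le)) ?_
  have h1 := p.sub_le (add_mem ha hb) hb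
  rw [add_sub_cancel_right] at h1
  rcases le_max_iff.mp h1 with h2 | h2
  · exact h2
  · exact absurd h (not_lt.mpr h2)

theorem eq_of_sub {a b : 𝔅} (ha : a ∈ 𝒜) (hb : b ∈ 𝒜) (h : p.p (a - b) = 0) :
    p.p a = p.p b := by
  have h1 := p.add _ hb _ (sub_mem ha hb)
  have h2 := p.sub_le ha (sub_mem ha hb)
  rw [add_sub_cancel, h, max_eq_left (p.nonneg _ hb)] at h1
  rw [sub_sub_cancel, h, max_eq_left (p.nonneg _ ha)] at h2
  exact le_antisymm h1 h2

theorem le_one {a : 𝔅} (ha : a ∈ 𝒜) {A : ℝ} (h : ∀ k : ℕ, ‖a ^ k‖ ≤ A) : p.p a ≤ 1 :=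
  p2_le_of_pow_le (C := A) zero_le_one fun k => by
    rw [one_pow, mul_one, ← p.pow ha]
    exact (p.le _ (pow_mem ha k)).trans (h k)

theorem idem {e : 𝔅} (he : e ∈ 𝒜) (h : e * e = e) : p.p e = 0 ∨ p.p e = 1 := by
  have h1 := p.mul _ he _ he
  rw [h] at h1
  by_cases h0 : p.p e = 0
  · exact Or.inl h0
  · exact Or.inr (by
      have h2 : p.p e * p.p e = p.p e * 1 := by rw [mul_one, ← h1]
      exact mul_left_cancel₀ h0 h2)

theorem prod {ι : Type*} (l : List ι) (a : ι → 𝔅) (ha : ∀ i ∈ l, a i ∈ 𝒜) :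
    p.p (l.map a).prod = (l.map fun i => p.p (a i)).prod := by
  induction l with
  | nil => simpa using p.one
  | cons i l ih =>
    have hl : ∀ j ∈ l, a j ∈ 𝒜 := fun j hj => ha j (List.mem_cons_of_mem _ hj)
    rw [List.map_cons, List.prod_cons, List.map_cons, List.prod_cons, p.mul _
      (ha i List.mem_cons_self) _ (list_prod_mem fun x hx => by
        obtain ⟨j, hj, rfl⟩ := List.mem_map.mp hx
        exact hl j hj), ih hl]

end Pt

theorem Spec.isUnit (h : Spec 𝒜) {a : 𝔅} (ha : a ∈ 𝒜) (hp : ∀ p : Pt 𝒜, p.p a ≠ 0) :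
    IsUnit a := by
  by_contra hn
  obtain ⟨p, hp0⟩ := h.exists_pt_zero ha hn
  exact hp p hp0

theorem Spec.tendsto_pow (h : Spec 𝒜) {a : 𝔅} (ha : a ∈ 𝒜) {r : ℝ} (hr : r < 1)
    (hp : ∀ p : Pt 𝒜, p.p a ≤ r) : Tendsto (fun k : ℕ => a ^ k) atTop (𝓝 0) := by
  have h0 : 0 ≤ max r 0 := le_max_right _ _
  have h1 : max r 0 < 1 := max_lt hr zero_lt_one
  have h2 : r ≤ max r 0 := le_max_left _ _
  obtain ⟨A, hA⟩ := h.pow_le ha hp (r' := (max r 0 + 1) / 2) (by linarith)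
  refine squeeze_zero_norm hA ?_
  have := (tendsto_pow_atTop_nhds_zero_of_lt_one (r := (max r 0 + 1) / 2) (by linarith)
    (by linarith)).const_mul A
  rwa [mul_zero] at this

theorem Spec.idem_ext (h : Spec 𝒜) {e e' : 𝔅} (he : e ∈ 𝒜) (he' : e' ∈ 𝒜) (h1 : e * e = e)
    (h2 : e' * e' = e') (hp : ∀ p : Pt 𝒜, p.p e = p.p e') : e = e' := by
  have hc := h.comm e he e' he'
  have hd : e - e' ∈ 𝒜 := sub_mem he he'
  have h3 : (e - e') * (e - e') * (e - e') = e - e' := by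
    have a1 : (e - e') * (e - e') = e + e' - (e * e' + e * e') := by
      rw [sub_mul, mul_sub, mul_sub, h1, h2, ← hc]
      abel
    have a2 : e * e' * e = e * e' := by rw [mul_assoc, ← hc, ← mul_assoc, h1]
    have a3 : e * e' * e' = e * e' := by rw [mul_assoc, h2]
    rw [a1, mul_sub, sub_mul, sub_mul, add_mul, add_mul, add_mul, add_mul, h1, h2, a2, a3, ← hc]
    abel
  have h4 : ∀ k : ℕ, (e - e') ^ (2 * k + 1) = e - e' := by
    intro k
    induction k with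
    | zero => simp
    | succ k ih =>
      rw [show 2 * (k + 1) + 1 = 2 * k + 1 + 1 + 1 by ring, pow_succ, pow_succ, ih, h3]
  have h5 : ∀ p : Pt 𝒜, p.p (e - e') ≤ 0 := by
    intro p
    have hz : ∀ f ∈ 𝒜, f * f = f → p.p f = 1 → p.p (1 - f) = 0 := by
      intro f hf hff hp1
      have := p.mul _ (sub_mem (one_mem 𝒜) hf) _ hf
      rw [sub_mul, one_mul, hff, sub_self, p.zero, hp1, mul_one] at this
      exact this.symm
    rcases p.idem he h1 with h0 | h0
    · refine (p.sub_le he he').trans ?_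
      rw [← hp p, h0, max_self]
    · have := p.sub_le (sub_mem (one_mem 𝒜) he') (sub_mem (one_mem 𝒜) he)
      rw [hz e he h1 h0, hz e' he' h2 (hp p ▸ h0), max_self, sub_sub_sub_cancel_left] at this
      exact this
  have h6 := (h.tendsto_pow hd zero_lt_one h5).comp
    (show Tendsto (fun k : ℕ => 2 * k + 1) atTop atTop from
      tendsto_atTop_mono (fun k => by simp only [id]; omega) tendsto_id)
  have h7 : ((fun k : ℕ => (e - e') ^ k) ∘ fun k : ℕ => 2 * k + 1) = fun _ => e - e' :=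
    funext h4
  rw [h7] at h6
  exact sub_eq_zero.mp (tendsto_nhds_unique tendsto_const_nhds h6)

/-- integral combinations of `x ^ j` and `a x ^ j`, `n ≤ j`, `x = a² - a` -/
def p2Sm (a : 𝔅) (n : ℕ) : AddSubgroup 𝔅 :=
  AddSubgroup.closure {z | ∃ j, n ≤ j ∧ (z = (a * a - a) ^ j ∨ z = a * (a * a - a) ^ j)}

theorem p2Sm_mono {a : 𝔅} {n m : ℕ} (h : n ≤ m) : p2Sm a m ≤ p2Sm a n :=
  AddSubgroup.closure_mono fun _ ⟨j, hj, hz⟩ => ⟨j, h.trans hj, hz⟩

theorem p2Sm_mul {a y z : 𝔅} {n m : ℕ} (hy : y ∈ p2Sm a n) (hz : z ∈ p2Sm a m) :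
    y * z ∈ p2Sm a (n + m) := by
  have hc : ∀ j : ℕ, (a * a - a) ^ j * a = a * (a * a - a) ^ j := fun j =>
    (Commute.pow_left (show (a * a - a) * a = a * (a * a - a) by noncomm_ring) j).eq
  have g1 : ∀ j, n + m ≤ j → (a * a - a) ^ j ∈ p2Sm a (n + m) :=
    fun j hj => AddSubgroup.subset_closure ⟨j, hj, Or.inl rfl⟩
  have g2 : ∀ j, n + m ≤ j → a * (a * a - a) ^ j ∈ p2Sm a (n + m) :=
    fun j hj => AddSubgroup.subset_closure ⟨j, hj, Or.inr rfl⟩
  induction hy using AddSubgroup.closure_induction with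
  | zero => rw [zero_mul]; exact zero_mem _
  | add _ _ _ _ h1 h2 => rw [add_mul]; exact add_mem h1 h2
  | neg _ _ h1 => rw [neg_mul]; exact neg_mem h1
  | mem y hy =>
    induction hz using AddSubgroup.closure_induction with
    | zero => rw [mul_zero]; exact zero_mem _
    | add _ _ _ _ h1 h2 => rw [mul_add]; exact add_mem h1 h2
    | neg _ _ h1 => rw [mul_neg]; exact neg_mem h1
    | mem z hz =>
      obtain ⟨i, hi, rfl | rfl⟩ := hy <;> obtain ⟨j, hj, rfl | rfl⟩ := hz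
      · rw [← pow_add]
        exact g1 _ (add_le_add hi hj)
      · rw [← mul_assoc, hc, mul_assoc, ← pow_add]
        exact g2 _ (add_le_add hi hj)
      · rw [mul_assoc, ← pow_add]
        exact g2 _ (add_le_add hi hj)
      · have e : a * (a * a - a) ^ i * (a * (a * a - a) ^ j) =
            (a * a - a) ^ (i + j + 1) + a * (a * a - a) ^ (i + j) := by
          rw [mul_assoc, ← mul_assoc _ a, hc, mul_assoc, ← pow_add, pow_succ', ← add_mul,
            sub_add_cancel, mul_assoc]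
        rw [e]
        exact add_mem (g1 _ (by omega)) (g2 _ (add_le_add hi hj))

theorem p2Sm_small {a : 𝔅} (h : Tendsto (fun k : ℕ => (a * a - a) ^ k) atTop (𝓝 0))
    {y : ℕ → 𝔅} (hy : ∀ k, y k ∈ p2Sm a k) : Tendsto y atTop (𝓝 0) := by
  have h' : Tendsto (fun k : ℕ => a * (a * a - a) ^ k) atTop (𝓝 0) := by
    simpa using h.const_mul a
  rw [NormedAddGroup.tendsto_nhds_zero] at h h' ⊢
  intro ε hε
  obtain ⟨n, hn⟩ := eventually_atTop.mp ((h ε hε).and (h' ε hε))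
  filter_upwards [eventually_ge_atTop n] with k hk
  have hk' := p2Sm_mono hk (hy k)
  generalize y k = z at hk'
  induction hk' using AddSubgroup.closure_induction with
  | zero => simpa using hε
  | add _ _ _ _ h1 h2 => exact (IsUltrametricDist.norm_add_le_max _ _).trans_lt (max_lt h1 h2)
  | neg _ _ h1 => rwa [norm_neg]
  | mem z hz =>
    obtain ⟨j, hj, rfl | rfl⟩ := hz
    · exact (hn j hj).1
    · exact (hn j hj).2

/-- with `x = a² - a`: `x_{k+1} = x_k² (4 x_k - 3)` and `a_{k+1} - a_k = -x_k (2 a_k - 1)` -/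
theorem tendsto_newt {a : 𝔅} (h : Tendsto (fun k : ℕ => (a * a - a) ^ k) atTop (𝓝 0)) :
    Tendsto (newt a) atTop (𝓝 (nl a)) ∧ nl a * nl a = nl a := by
  have one : (1 : 𝔅) ∈ p2Sm a 0 := AddSubgroup.subset_closure ⟨0, le_rfl, Or.inl (pow_zero _).symm⟩
  have h1 : ∀ k, newt a k ∈ p2Sm a 0 := by
    intro k
    induction k with
    | zero => exact AddSubgroup.subset_closure ⟨0, le_rfl, Or.inr (by simp [newt])⟩
    | succ k ih =>
      have e : newt a (k + 1) = 3 • (newt a k * newt a k) - 2 • (newt a k * newt a k * newt a k) := by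
        rw [newt]
        noncomm_ring
      rw [e]
      exact sub_mem (nsmul_mem (p2Sm_mul ih ih) 3) (nsmul_mem (p2Sm_mul (p2Sm_mul ih ih) ih) 2)
  have h2 : ∀ k, newt a k * newt a k - newt a k ∈ p2Sm a (k + 1) := by
    intro k
    induction k with
    | zero => exact AddSubgroup.subset_closure ⟨1, le_rfl, Or.inl (by simp [newt])⟩
    | succ k ih =>
      have e : newt a (k + 1) * newt a (k + 1) - newt a (k + 1) =
          (newt a k * newt a k - newt a k) * (newt a k * newt a k - newt a k) *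
            (4 • (newt a k * newt a k - newt a k) - 3 • 1) := by
        rw [newt]
        noncomm_ring
      rw [e]
      exact p2Sm_mono (by omega) (p2Sm_mul (p2Sm_mul ih ih)
        (sub_mem (nsmul_mem (p2Sm_mono (Nat.zero_le _) ih) 4) (nsmul_mem one 3)))
  have h3 : ∀ k, newt a (k + 1) - newt a k ∈ p2Sm a k := by
    intro k
    have e : newt a (k + 1) - newt a k =
        (newt a k * newt a k - newt a k) * (1 - 2 • newt a k) := by
      rw [newt]
      noncomm_ring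
    rw [e]
    exact p2Sm_mono (by omega) (p2Sm_mul (h2 k) (sub_mem one (nsmul_mem (h1 k) 2)))
  have h4 : Tendsto (newt a) atTop (𝓝 (nl a)) :=
    (NonarchimedeanAddGroup.cauchySeq_of_tendsto_sub_nhds_zero (p2Sm_small h h3)).tendsto_limUnder
  refine ⟨h4, sub_eq_zero.mp (tendsto_nhds_unique ((h4.mul h4).sub h4) ?_)⟩
  exact p2Sm_small h fun k => p2Sm_mono (Nat.le_succ k) (h2 k)

theorem newt_nat {F a a' : 𝔅} (h : F * a = a' * F) (k : ℕ) : F * newt a k = newt a' k * F := by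
  induction k with
  | zero => exact h
  | succ k ih =>
    have ih' : SemiconjBy F (newt a k) (newt a' k) := ih
    have h3 : SemiconjBy F 3 3 := (Commute.ofNat_right F 3 :)
    have h2 : SemiconjBy F 2 2 := (Commute.ofNat_right F 2 :)
    exact ((h3.mul_right (ih'.pow_right 2)).sub_right (h2.mul_right (ih'.pow_right 3))).eq

theorem newt_mem {a : 𝔅} (ha : a ∈ 𝒜) (k : ℕ) : newt a k ∈ 𝒜 := by
  induction k with
  | zero => exact ha
  | succ k ih =>
    exact sub_mem (mul_mem (ofNat_mem 𝒜 3) (pow_mem ih 2)) (mul_mem (ofNat_mem 𝒜 2) (pow_mem ih 3))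

theorem newt_one_sub (a : 𝔅) (k : ℕ) : newt (1 - a) k = 1 - newt a k := by
  induction k with
  | zero => rfl
  | succ k ih =>
    rw [newt, newt, ih]
    noncomm_ring

theorem Pt.newt_le (p : Pt 𝒜) {a : 𝔅} (ha : a ∈ 𝒜) (h : p.p a ≤ 1) (k : ℕ) :
    p.p (newt a k) ≤ p.p a := by
  induction k with
  | zero => exact le_rfl
  | succ k ih =>
    have hm := newt_mem ha k
    have h0 := p.nonneg _ hm
    have h1 : p.p (newt a k) ≤ 1 := ih.trans h
    have h2 : p.p (newt a k ^ 2) ≤ p.p a := by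
      rw [p.pow hm]
      exact (pow_le_of_le_one h0 h1 (by norm_num)).trans ih
    have h3 : p.p (newt a k ^ 3) ≤ p.p a := by
      rw [p.pow hm]
      exact (pow_le_of_le_one h0 h1 (by norm_num)).trans ih
    have m2 := pow_mem hm 2
    have m3 := pow_mem hm 3
    have e : newt a (k + 1) = newt a k ^ 2 + newt a k ^ 2 + newt a k ^ 2 -
        (newt a k ^ 3 + newt a k ^ 3) := by
      rw [newt]
      noncomm_ring
    rw [e]
    refine (p.sub_le (add_mem (add_mem m2 m2) m2) (add_mem m3 m3)).trans (max_le ?_ ?_)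
    · exact (p.add _ (add_mem m2 m2) _ m2).trans
        (max_le ((p.add _ m2 _ m2).trans (max_le h2 h2)) h2)
    · exact (p.add _ m3 _ m3).trans (max_le h3 h3)

theorem Pt.lim_lt (p : Pt 𝒜) {y : ℕ → 𝔅} {e : 𝔅} (hy : ∀ k, y k ∈ 𝒜) (he : e ∈ 𝒜)
    (h : Tendsto y atTop (𝓝 e)) {r : ℝ} (hr : r < 1) (hp : ∀ k, p.p (y k) ≤ r) : p.p e < 1 := by
  have h1 : Tendsto (fun k => e - y k) atTop (𝓝 0) := by
    simpa using (tendsto_const_nhds (x := e)).sub h
  obtain ⟨k, hk⟩ := (NormedAddGroup.tendsto_nhds_zero.mp h1 1 zero_lt_one).exists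
  have h2 := p.add _ (sub_mem he (hy k)) _ (hy k)
  rw [sub_add_cancel] at h2
  exact h2.trans_lt (max_lt ((p.le _ (sub_mem he (hy k))).trans_lt hk) ((hp k).trans_lt hr))

/-- the Riesz projection of `T` for the circle of radius `‖l‖` -/
theorem Spec.riesz (h : Spec 𝒜) {T : 𝔅} (hT : T ∈ 𝒜) {l : K} (hl : l ≠ 0) {ρ : ℝ} (hρ : ρ < 1)
    (hp : ∀ p : Pt 𝒜, p.p T ≤ ρ * ‖l‖ ∨ ‖l‖ ≤ ρ * p.p T) :
    IsUnit (algebraMap K 𝔅 l - T) ∧
    Tendsto (newt (l • Ring.inverse (algebraMap K 𝔅 l - T))) atTop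
      (𝓝 (nl (l • Ring.inverse (algebraMap K 𝔅 l - T)))) ∧
    nl (l • Ring.inverse (algebraMap K 𝔅 l - T)) ∈ 𝒜 ∧
    IsIdempotentElem (nl (l • Ring.inverse (algebraMap K 𝔅 l - T))) ∧
    ∀ p : Pt 𝒜, p.p (nl (l • Ring.inverse (algebraMap K 𝔅 l - T))) =
      if p.p T < ‖l‖ then 1 else 0 := by
  have l0 : 0 < ‖l‖ := norm_pos_iff.mpr hl
  have hL : algebraMap K 𝔅 l ∈ 𝒜 := 𝒜.algebraMap_mem l
  have hD : algebraMap K 𝔅 l - T ∈ 𝒜 := sub_mem hL hT
  have c1 : ∀ p : Pt 𝒜, p.p T ≤ ρ * ‖l‖ → p.p T < ‖l‖ ∧ p.p (algebraMap K 𝔅 l - T) = ‖l‖ := by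
    intro p h1
    have h2 : p.p T < ‖l‖ := h1.trans_lt (mul_lt_of_lt_one_left l0 hρ)
    refine ⟨h2, ?_⟩
    rw [sub_eq_add_neg, p.add_eq hL (neg_mem hT) (by rwa [p.neg hT, p.algebraMap]), p.algebraMap]
  have c2 : ∀ p : Pt 𝒜, ‖l‖ ≤ ρ * p.p T → ‖l‖ < p.p T ∧ p.p (algebraMap K 𝔅 l - T) = p.p T := by
    intro p h1
    have h0 : 0 < p.p T := by
      refine (p.nonneg _ hT).lt_of_ne fun h0 => ?_
      rw [← h0, mul_zero] at h1
      exact absurd l0 (not_lt.mpr h1)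
    have h2 : ‖l‖ < p.p T := h1.trans_lt (mul_lt_of_lt_one_left h0 hρ)
    refine ⟨h2, ?_⟩
    rw [sub_eq_neg_add, p.add_eq (neg_mem hT) hL (by rwa [p.neg hT, p.algebraMap]), p.neg hT]
  have hu : IsUnit (algebraMap K 𝔅 l - T) := h.isUnit hD fun p => by
    rcases hp p with h1 | h1
    · rw [(c1 p h1).2]
      exact l0.ne'
    · rw [(c2 p h1).2]
      exact (l0.trans (c2 p h1).1).ne'
  have hU := h.inv _ hD hu
  have hUD := Ring.inverse_mul_cancel _ hu
  set u := Ring.inverse (algebraMap K 𝔅 l - T) with hudef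
  have ha : l • u ∈ 𝒜 := 𝒜.smul_mem hU l
  have pu : ∀ p : Pt 𝒜, p.p u = (p.p (algebraMap K 𝔅 l - T))⁻¹ := fun p => by
    have := p.mul _ hU _ hD
    rw [hUD, p.one] at this
    exact eq_inv_of_mul_eq_one_left this.symm
  have e1 : 1 - l • u = -(u * T) := by
    rw [← hUD, mul_sub, Algebra.smul_def, h.comm _ hL _ hU]
    abel
  have d1 : ∀ p : Pt 𝒜, p.p T ≤ ρ * ‖l‖ → p.p (l • u) = 1 ∧ p.p (1 - l • u) ≤ ρ := by
    intro p h1
    rw [e1, p.neg (mul_mem hU hT), p.mul _ hU _ hT, p.smul _ hU, pu, (c1 p h1).2,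
      mul_inv_cancel₀ l0.ne', inv_mul_le_iff₀ l0, mul_comm]
    exact ⟨rfl, h1⟩
  have d2 : ∀ p : Pt 𝒜, ‖l‖ ≤ ρ * p.p T → p.p (l • u) ≤ ρ ∧ p.p (1 - l • u) = 1 := by
    intro p h1
    have h0 := l0.trans (c2 p h1).1
    rw [e1, p.neg (mul_mem hU hT), p.mul _ hU _ hT, p.smul _ hU, pu, (c2 p h1).2,
      inv_mul_cancel₀ h0.ne', mul_inv_le_iff₀ h0]
    exact ⟨h1, rfl⟩
  have h1a : 1 - l • u ∈ 𝒜 := sub_mem (one_mem _) ha
  have hx : Tendsto (fun k : ℕ => (l • u * l • u - l • u) ^ k) atTop (𝓝 0) := by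
    refine h.tendsto_pow (sub_mem (mul_mem ha ha) ha) hρ fun p => ?_
    have e : l • u * l • u - l • u = -(l • u * (1 - l • u)) := by noncomm_ring
    rw [e, p.neg (mul_mem ha h1a), p.mul _ ha _ h1a]
    rcases hp p with h1 | h1
    · rw [(d1 p h1).1, one_mul]
      exact (d1 p h1).2
    · rw [(d2 p h1).2, mul_one]
      exact (d2 p h1).1
  obtain ⟨hlim, hid⟩ := tendsto_newt hx
  have he : nl (l • u) ∈ 𝒜 := h.closed.mem_of_tendsto hlim (Eventually.of_forall (newt_mem ha))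
  refine ⟨hu, hlim, he, hid, fun p => ?_⟩
  rcases hp p with h1 | h1
  · rw [if_pos (c1 p h1).1]
    have h2 : p.p (1 - nl (l • u)) < 1 :=
      p.lim_lt (y := fun k => 1 - newt (l • u) k) (fun k => sub_mem (one_mem _) (newt_mem ha k))
        (sub_mem (one_mem _) he) (tendsto_const_nhds.sub hlim) hρ fun k => by
          rw [← newt_one_sub]
          exact (p.newt_le h1a ((d1 p h1).2.trans hρ.le) k).trans (d1 p h1).2
    have h3 := p.add_eq (one_mem 𝒜) (neg_mem (sub_mem (one_mem _) he))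
      (by rwa [p.neg (sub_mem (one_mem _) he), p.one])
    rwa [p.one, ← sub_eq_add_neg, sub_sub_cancel] at h3
  · rw [if_neg (not_lt.mpr (c2 p h1).1.le)]
    have h2 : p.p (nl (l • u)) < 1 := p.lim_lt (newt_mem ha) he hlim hρ fun k =>
      (p.newt_le ha ((d2 p h1).1.trans hρ.le) k).trans (d2 p h1).1
    exact (p.idem he hid).resolve_right h2.ne

/-- (Refl): `p' a = p (N ι a ι) / p N ^ 2` with `N = ι²` -/
theorem refl_pt {s : Set 𝔅} (hs : ∀ a ∈ s, ∀ b ∈ s, a * b = b * a) {ι : 𝔅}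
    (hι : ∀ f ∈ s, ∃ f' ∈ s, ι * f = f' * ι ∧ f * ι = ι * f') (hN : ι * ι ∈ bic K s)
    (p : Pt (bic K s)) (hp : p.p (ι * ι) ≠ 0) : ∃ p' : Pt (bic K s),
      ∀ f ∈ bic K s, ∀ f' ∈ bic K s, ι * f = f' * ι → p'.p f = p.p f' := by
  have hS : Spec (bic K s) := spec_bic hs
  have hpos : 0 < p.p (ι * ι) ^ 2 := pow_pos ((p.nonneg _ hN).lt_of_ne hp.symm) 2
  have hmem : ∀ a ∈ bic K s, ι * ι * (ι * a * ι) ∈ bic K s := by
    intro a ha
    refine mem_bic_iff.2 fun c hc => ?_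
    have h1 : a * (ι * c * ι) = ι * c * ι * a := bic_comm ha fun f hf => by
      obtain ⟨f', hf', e1, e2⟩ := hι f hf
      calc f * (ι * c * ι) = f * ι * c * ι := by noncomm_ring
        _ = ι * (f' * c) * ι := by rw [e2]; noncomm_ring
        _ = ι * c * (f' * ι) := by rw [hc f' hf']; noncomm_ring
        _ = ι * c * ι * f := by rw [← e1]; noncomm_ring
    have h2 : ι * ι * c = c * (ι * ι) := bic_comm hN hc
    have h3 : ι * ι * a = a * (ι * ι) := hS.comm _ hN _ ha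
    calc c * (ι * ι * (ι * a * ι)) = c * (ι * ι) * (ι * a * ι) := by noncomm_ring
      _ = ι * (ι * c * ι * a) * ι := by rw [← h2]; noncomm_ring
      _ = ι * a * ι * (c * (ι * ι)) := by rw [← h1]; noncomm_ring
      _ = ι * (a * (ι * ι)) * ι * c := by rw [← h2]; noncomm_ring
      _ = ι * ι * (ι * a * ι) * c := by rw [← h3]; noncomm_ring
  let q : 𝔅 → ℝ := fun a => p.p (ι * ι * (ι * a * ι)) / p.p (ι * ι) ^ 2
  have q1 : q 1 = 1 := by
    show p.p (ι * ι * (ι * 1 * ι)) / _ = 1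
    rw [mul_one, p.mul _ hN _ hN, ← sq, div_self hpos.ne']
  have qm : ∀ a ∈ bic K s, ∀ b ∈ bic K s, q (a * b) = q a * q b := by
    intro a ha b hb
    have h3 : ι * ι * a = a * (ι * ι) := hS.comm _ hN _ ha
    have e : ι * ι * (ι * a * ι) * (ι * ι * (ι * b * ι)) =
        ι * ι * (ι * ι) * (ι * ι * (ι * (a * b) * ι)) := by
      calc ι * ι * (ι * a * ι) * (ι * ι * (ι * b * ι))
          = ι * ι * ι * (a * (ι * ι)) * (ι * ι) * b * ι := by noncomm_ring
        _ = ι * ι * ι * (ι * ι * a) * (ι * ι) * b * ι := by rw [← h3]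
        _ = ι * ι * ι * (ι * ι) * (a * (ι * ι)) * b * ι := by noncomm_ring
        _ = ι * ι * ι * (ι * ι) * (ι * ι * a) * b * ι := by rw [← h3]
        _ = _ := by noncomm_ring
    have h4 := p.mul _ (hmem a ha) _ (hmem b hb)
    rw [e, p.mul _ (mul_mem hN hN) _ (hmem _ (mul_mem ha hb)), p.mul _ hN _ hN, ← sq] at h4
    show _ / _ = _ / _ * (_ / _)
    rw [div_mul_div_comm, ← h4]
    field_simp
  have qp : ∀ a ∈ bic K s, ∀ k : ℕ, q (a ^ k) = q a ^ k := by
    intro a ha k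
    induction k with
    | zero => simpa using q1
    | succ k ih => rw [pow_succ, qm _ (pow_mem ha k) _ ha, ih, pow_succ]
  refine ⟨⟨q, q1, fun a ha => div_nonneg (p.nonneg _ (hmem a ha)) hpos.le, qm,
    fun a ha b hb => ?_, fun a ha => ?_⟩, fun f hf f' hf' e => ?_⟩
  · show _ / _ ≤ max (_ / _) (_ / _)
    rw [max_div_div_right hpos.le, mul_add, add_mul, mul_add]
    exact div_le_div_of_nonneg_right (p.add _ (hmem a ha) _ (hmem b hb)) hpos.le
  · refine p2_le_of_pow_le (C := ‖ι * ι‖ * (‖ι‖ * ‖ι‖) / p.p (ι * ι) ^ 2) (norm_nonneg a)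
      fun k => ?_
    rw [← qp a ha, div_mul_eq_mul_div]
    refine div_le_div_of_nonneg_right ((p.le _ (hmem _ (pow_mem ha k))).trans ?_) hpos.le
    calc ‖ι * ι * (ι * a ^ k * ι)‖ ≤ ‖ι * ι‖ * (‖ι‖ * ‖a‖ ^ k * ‖ι‖) := by
          refine (norm_mul_le _ _).trans ?_
          gcongr
          refine (norm_mul_le _ _).trans ?_
          gcongr
          refine (norm_mul_le _ _).trans ?_
          gcongr
          exact norm_pow_le a k
      _ = _ := by ring
  · show p.p (ι * ι * (ι * f * ι)) / _ = _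
    rw [e, mul_assoc f', p.mul _ hN _ (mul_mem hf' hN), p.mul _ hf' _ hN]
    field_simp

end Pool.Agent.P.MP_74db7f_al
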