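import Pool.Agent.P.MP_74db7f_al.F.V1

/-! S1: the spectrum of the `Θ_x` (paper, sections 4, 5). -/

namespace Pool.Agent.P.MP_74db7f_al

open scoped Classical Topology
open Filter

set_option linter.unusedSectionVars false

namespace HC

variable {B W H : Type*} [Group W] {M : CoxeterMatrix B} {cs : CoxeterSystem M W} [Ring H]
  [Algebra Rq H] (C : HC cs H) (K : Type*) [NontriviallyNormedField K] [CompleteSpace K]
  [IsUltrametricDist K] [Algebra Rq K] [GoodK K]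

variable {C K} {J : Finset B} (hJ : J ⊆ C.S0) {e : Op W K}
  (he : ∀ a ∈ C.HJ J, e * C.Lop K J a = C.Lop K J a * e)

theorem Tht_mem (x : Lat C.n) : C.Tht K J x ∈ C.AJ K J e := by
  exact mem_bic (Set.mem_insert_of_mem _ ⟨x, rfl⟩)

theorem e_mem : e ∈ C.AJ K J e := by
  exact mem_bic (Set.mem_insert _ _)

/-- `γ ∈ R_p` -/
def RP (p : Pt (C.AJ K J e)) (γ : Du C.n) : Prop :=
  ∃ (k : ℤ) (ε : ℤˣ), p.p (C.Tht K J (C.co γ) - algebraMap K _ (((ε : ℤ) : K) * qK K ^ k)) = 0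

include hJ

theorem Lop_Th_mem (f : LA Rq C.n) : C.Lop K J (C.Th f) ∈ C.AJ K J e := by
  induction f using h4_ind with
  | hm x => rw [Th_mon]; exact Tht_mem x
  | hadd f g hf hg =>
    rw [map_add, C.Lop_add K hJ (C.Th_mem_HJ J f) (C.Th_mem_HJ J g)]
    exact add_mem hf hg
  | hsmul r f hf =>
    rw [map_smul, C.Lop_smul K hJ r (C.Th_mem_HJ J f)]
    exact Subalgebra.smul_mem _ hf _

theorem s1_Lop_sub (x : Lat C.n) (r : Rq) :
    C.Lop K J (C.Th (mon x - algebraMap Rq _ r)) =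
      C.Tht K J x - algebraMap K _ (algebraMap Rq K r) := by
  have e1 : C.Th (mon x - algebraMap Rq _ r) = C.th x + (-r) • (1 : H) := by
    rw [map_sub, Th_mon, AlgHom.commutes, Algebra.algebraMap_eq_smul_one, neg_smul,
      sub_eq_add_neg]
  rw [e1, C.Lop_add K hJ (C.th_mem_HJ J x) (Subalgebra.smul_mem _ (one_mem _) _),
    C.Lop_smul K hJ _ (one_mem _), C.Lop_one K hJ, map_neg, neg_smul,
    Algebra.algebraMap_eq_smul_one, sub_eq_add_neg]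
  rfl

theorem Lop_lin (x : Lat C.n) (k : ℤ) (ε : ℤˣ) :
    C.Lop K J (C.Th (mon x - algebraMap Rq _ ((ε : ℤ) • LaurentPolynomial.T k))) =
      C.Tht K J x - algebraMap K _ (((ε : ℤ) : K) * qK K ^ k) := by
  rw [s1_Lop_sub hJ, map_zsmul, algebraMap_T, zsmul_eq_mul]

theorem s1_pt_add (p : Pt (C.AJ K J e)) (x y : Lat C.n) :
    p.p (C.Tht K J (x + y)) = p.p (C.Tht K J x) * p.p (C.Tht K J y) := by
  rw [C.Tht_add K hJ, p.mul _ (Tht_mem x) _ (Tht_mem y)]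

theorem s1_pt_neg (p : Pt (C.AJ K J e)) (x : Lat C.n) :
    p.p (C.Tht K J x) * p.p (C.Tht K J (-x)) = 1 := by
  rw [← s1_pt_add hJ, add_neg_cancel, C.Tht_zero K hJ, p.one]

theorem s1_Lop_Th_mul (p : Pt (C.AJ K J e)) (f g : LA Rq C.n) :
    p.p (C.Lop K J (C.Th (f * g))) = p.p (C.Lop K J (C.Th f)) * p.p (C.Lop K J (C.Th g)) := by
  rw [map_mul, C.Lop_mul K hJ (C.Th_mem_HJ J f) (C.Th_mem_HJ J g),
    p.mul _ (Lop_Th_mem hJ f) _ (Lop_Th_mem hJ g)]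

theorem s1_prod_ne (p : Pt (C.AJ K J e)) (l : List (LA Rq C.n))
    (hl : ∀ f ∈ l, p.p (C.Lop K J (C.Th f)) ≠ 0) : p.p (C.Lop K J (C.Th l.prod)) ≠ 0 := by
  induction l with
  | nil =>
    rw [List.prod_nil, map_one, C.Lop_one K hJ, p.one]
    exact one_ne_zero
  | cons a l ih =>
    rw [List.prod_cons, s1_Lop_Th_mul hJ]
    exact mul_ne_zero (hl a List.mem_cons_self) (ih fun f hf => hl f (List.mem_cons_of_mem _ hf))

theorem s1_cong_add (p : Pt (C.AJ K J e)) {x y : Lat C.n} {c d : K}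
    (hx : p.p (C.Tht K J x - algebraMap K _ c) = 0)
    (hy : p.p (C.Tht K J y - algebraMap K _ d) = 0) :
    p.p (C.Tht K J (x + y) - algebraMap K _ (c * d)) = 0 := by
  have mx : C.Tht K J x - algebraMap K _ c ∈ C.AJ K J e :=
    sub_mem (Tht_mem x) (Subalgebra.algebraMap_mem _ c)
  have my : C.Tht K J y - algebraMap K _ d ∈ C.AJ K J e :=
    sub_mem (Tht_mem y) (Subalgebra.algebraMap_mem _ d)
  have e1 : C.Tht K J (x + y) - algebraMap K _ (c * d) =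
      C.Tht K J x * (C.Tht K J y - algebraMap K _ d) +
        (C.Tht K J x - algebraMap K _ c) * algebraMap K _ d := by
    rw [C.Tht_add K hJ, map_mul, mul_sub, sub_mul, sub_add_sub_cancel]
  have m1 := mul_mem (Tht_mem (e := e) x) my
  have m2 := mul_mem mx (Subalgebra.algebraMap_mem _ d)
  have h := p.add _ m1 _ m2
  rw [p.mul _ (Tht_mem x) _ my, p.mul _ mx _ (Subalgebra.algebraMap_mem _ d), hx, hy, mul_zero,
    zero_mul, max_self] at h
  rw [e1]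
  exact le_antisymm h (p.nonneg _ (add_mem m1 m2))

theorem s1_cong_neg (p : Pt (C.AJ K J e)) {x : Lat C.n} {c : K} (hc : c ≠ 0)
    (hx : p.p (C.Tht K J x - algebraMap K _ c) = 0) :
    p.p (C.Tht K J (-x) - algebraMap K _ c⁻¹) = 0 := by
  have mx : C.Tht K J x - algebraMap K _ c ∈ C.AJ K J e :=
    sub_mem (Tht_mem x) (Subalgebra.algebraMap_mem _ c)
  have e1 : C.Tht K J (-x) - algebraMap K _ c⁻¹ =
      (-c⁻¹) • (C.Tht K J (-x) * (C.Tht K J x - algebraMap K _ c)) := by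
    rw [mul_sub, ← C.Tht_add K hJ, neg_add_cancel, C.Tht_zero K hJ, ← Algebra.commutes,
      ← Algebra.smul_def, smul_sub, smul_smul, neg_mul, inv_mul_cancel₀ hc, neg_smul, neg_smul,
      one_smul, Algebra.algebraMap_eq_smul_one]
    abel
  rw [e1, p.smul _ (mul_mem (Tht_mem _) mx), p.mul _ (Tht_mem _) _ mx, hx, mul_zero, mul_zero]

/-- the vectors `y` with `Θ_y` congruent to some `± q^k` modulo the kernel of `p` -/
def s1_grp (p : Pt (C.AJ K J e)) : AddSubgroup (Lat C.n) where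
  carrier := {y | ∃ (k : ℤ) (ε : ℤˣ),
    p.p (C.Tht K J y - algebraMap K _ (((ε : ℤ) : K) * qK K ^ k)) = 0}
  add_mem' := by
    rintro x y ⟨k, ε, hx⟩ ⟨k', ε', hy⟩
    refine ⟨k + k', ε * ε', ?_⟩
    have := s1_cong_add hJ p hx hy
    rwa [Units.val_mul, Int.cast_mul, zpow_add₀ qK_ne_zero, mul_mul_mul_comm]
  zero_mem' := ⟨0, 1, by
    rw [C.Tht_zero K hJ, Units.val_one, Int.cast_one, zpow_zero, mul_one, map_one, sub_self,
      p.zero]⟩
  neg_mem' := by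
    rintro x ⟨k, ε, hx⟩
    refine ⟨-k, ε, ?_⟩
    have h1 : ((ε : ℤ) : K) * ((ε : ℤ) : K) = 1 := by
      rw [← Int.cast_mul, ← Units.val_mul, Int.units_mul_self, Units.val_one, Int.cast_one]
    have := s1_cong_neg hJ p
      (mul_ne_zero (left_ne_zero_of_mul_eq_one h1) (zpow_ne_zero k qK_ne_zero)) hx
    rwa [mul_inv, ← zpow_neg, ← eq_inv_of_mul_eq_one_left h1] at this

/-- the decomposition of `M x` along the roots in `R_p` -/
theorem s1_perp (p : Pt (C.AJ K J e)) (x : Lat C.n) : ∃ x0 y : Lat C.n,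
    (C.Mo : ℤ) • x = x0 + y ∧ y ∈ s1_grp hJ p ∧
      (∀ γ ∈ C.R, γ (C.z J) = 0 → RP p γ → γ x0 = 0) ∧ (C.deg J x = 0 → C.deg J x0 = 0) := by
  obtain ⟨x0, k, h1, h2, h3⟩ := C.exists_perp hJ (C.R.filter fun γ => γ (C.z J) = 0 ∧ RP p γ)
    (fun γ hγ => ⟨(Finset.mem_filter.1 hγ).1, (Finset.mem_filter.1 hγ).2.1⟩) x
  refine ⟨x0, _, h1, sum_mem fun γ hγ => zsmul_mem ?_ _,
    fun γ hγ h0 hr => h2 γ (Finset.mem_filter.2 ⟨hγ, h0, hr⟩), h3⟩
  exact (Finset.mem_filter.1 hγ).2.2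

include he

theorem s1_comm : ∀ a ∈ insert e (Set.range (C.Tht K J)),
    ∀ b ∈ insert e (Set.range (C.Tht K J)), a * b = b * a := by
  rintro a (rfl | ⟨x, rfl⟩) b (rfl | ⟨y, rfl⟩)
  · rfl
  · exact he _ (C.th_mem_HJ J y)
  · exact (he _ (C.th_mem_HJ J x)).symm
  · rw [← C.Tht_add K hJ, ← C.Tht_add K hJ, add_comm]

theorem spec_AJ : Spec (C.AJ K J e) := by
  exact spec_bic (s1_comm hJ he)

theorem pt_add (p : Pt (C.AJ K J e)) (x y : Lat C.n) :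
    p.p (C.Tht K J (x + y)) = p.p (C.Tht K J x) * p.p (C.Tht K J y) := by
  exact s1_pt_add hJ p x y

theorem pt_pos (p : Pt (C.AJ K J e)) (x : Lat C.n) : 0 < p.p (C.Tht K J x) := by
  exact (p.nonneg _ (Tht_mem x)).lt_of_ne' (left_ne_zero_of_mul_eq_one (s1_pt_neg hJ p x))

theorem pt_zsmul (p : Pt (C.AJ K J e)) (k : ℤ) (x : Lat C.n) :
    p.p (C.Tht K J (k • x)) = p.p (C.Tht K J x) ^ k := by
  have hn : ∀ n : ℕ, p.p (C.Tht K J ((n : ℤ) • x)) = p.p (C.Tht K J x) ^ n := fun n => by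
    rw [C.Tht_nsmul K hJ, p.pow (Tht_mem x)]
  obtain ⟨n, rfl | rfl⟩ := k.eq_nat_or_neg
  · rw [hn, zpow_natCast]
  · rw [neg_smul, zpow_neg, zpow_natCast, ← hn]
    exact eq_inv_of_mul_eq_one_right (s1_pt_neg hJ p _)

theorem pt_dom (p : Pt (C.AJ K J e)) {x : Lat C.n} (hx : C.Dom J x) :
    p.p (C.Tht K J x) ≤ 1 := by
  refine p.le_one (Tht_mem x) (A := ‖qK K‖ ^ C.Nb) fun k => ?_
  rw [← C.Tht_nsmul K hJ]
  refine C.norm_Tht K hJ fun j hj => ?_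
  rw [map_zsmul, smul_eq_mul]
  exact mul_nonneg (Int.natCast_nonneg k) (hx j hj)

theorem s1_eq_one (p : Pt (C.AJ K J e)) {x : Lat C.n} (h1 : p.p (C.Tht K J x) ≤ 1)
    (h2 : p.p (C.Tht K J (-x)) ≤ 1) : p.p (C.Tht K J x) = 1 := by
  refine le_antisymm h1 ?_
  rw [← s1_pt_neg hJ p x]
  exact mul_le_of_le_one_right (pt_pos hJ he p x).le h2

theorem pt_fix (p : Pt (C.AJ K J e)) {x : Lat C.n} (hx : C.Fix J x) :
    p.p (C.Tht K J x) = 1 := by
  exact s1_eq_one hJ he p (pt_dom hJ he p fun j hj => (hx j hj).ge)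
    (pt_dom hJ he p fun j hj => (C.v1_fix_neg hx j hj).ge)

theorem s1_iot_Tht {j : B} (hj : j ∈ J) (y : Lat C.n) :
    C.Lop K J (C.iot j) * C.Tht K J y =
      C.Tht K J (C.gr (cs.simple j) y) * C.Lop K J (C.iot j) ∧
    C.Tht K J y * C.Lop K J (C.iot j) =
      C.Lop K J (C.iot j) * C.Tht K J (C.gr (cs.simple j) y) := by
  have h1 := C.iot_mul_Th (hJ hj) (mon y)
  have h2 := C.Th_mul_iot (hJ hj) (mon y)
  rw [act_mon, Th_mon, Th_mon] at h1 h2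
  have hi := C.iot_mem_HJ hj
  unfold Tht
  rw [← C.Lop_mul K hJ hi (C.th_mem_HJ J _), ← C.Lop_mul K hJ hi (C.th_mem_HJ J _),
    ← C.Lop_mul K hJ (C.th_mem_HJ J _) hi, ← C.Lop_mul K hJ (C.th_mem_HJ J _) hi, h1, h2]
  exact ⟨rfl, rfl⟩

/-- reflection of a point in a simple root outside `R_p` -/
theorem s1_refl (p : Pt (C.AJ K J e)) {j : B} (hj : j ∈ J) (hr : ¬ RP p (C.sr j)) :
    ∃ p' : Pt (C.AJ K J e), p'.p e = p.p e ∧ ∀ (y : Lat C.n) (c : K),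
      p'.p (C.Tht K J y - algebraMap K _ c) =
        p.p (C.Tht K J (C.gr (cs.simple j) y) - algebraMap K _ c) := by
  have hi := C.iot_mem_HJ hj
  have hsq : C.Lop K J (C.iot j) * C.Lop K J (C.iot j) = C.Lop K J (C.Th (C.NN j)) := by
    rw [← C.Lop_mul K hJ hi hi, C.iot_sq (hJ hj)]
  have hne : p.p (C.Lop K J (C.Th (C.NN j))) ≠ 0 := by
    obtain ⟨l, hl, e1⟩ := C.NN_fac (hJ hj)
    rw [e1, s1_Lop_Th_mul hJ]
    refine mul_ne_zero ?_ (s1_prod_ne hJ p l fun f hf => ?_)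
    · rw [← neg_one_smul Rq, map_smul, Th_mon, C.Lop_smul K hJ _ (C.th_mem_HJ J _), map_neg,
        map_one, neg_one_smul]
      exact (p.neg (Tht_mem _)).trans_ne (pt_pos hJ he p _).ne'
    · obtain ⟨x, rfl, k, ε, rfl⟩ := hl f hf
      rw [Lop_lin hJ]
      exact fun h => hr ⟨k, ε, h⟩
  obtain ⟨p', hp'⟩ := refl_pt (K := K) (s1_comm hJ he) (ι := C.Lop K J (C.iot j)) (by
    rintro f (rfl | ⟨y, rfl⟩)
    · exact ⟨f, Set.mem_insert _ _, (he _ hi).symm, he _ hi⟩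
    · exact ⟨_, Set.mem_insert_of_mem _ ⟨_, rfl⟩, s1_iot_Tht hJ he hj y⟩)
    (by rw [hsq]; exact Lop_Th_mem hJ _) p (by rw [hsq]; exact hne)
  refine ⟨p', hp' e e_mem e e_mem (he _ hi).symm, fun y c => hp' _
    (sub_mem (Tht_mem y) (Subalgebra.algebraMap_mem _ c)) _
    (sub_mem (Tht_mem _) (Subalgebra.algebraMap_mem _ c)) ?_⟩
  rw [mul_sub, sub_mul, (s1_iot_Tht hJ he hj y).1, Algebra.commutes]

/-- induction on `ngt J x` (`ngt_simple`), reflecting the point with `refl_pt`, `iot_sq`,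
`NN_fac` -/
theorem walk (p : Pt (C.AJ K J e)) {x : Lat C.n}
    (hx : ∀ γ ∈ C.R, γ (C.z J) = 0 → RP p γ → γ x = 0) :
    ∃ p' : Pt (C.AJ K J e), ∃ u ∈ C.WJ J, C.Dom J (C.gr u x) ∧
      p'.p (C.Tht K J (C.gr u x)) = p.p (C.Tht K J x) ∧ p'.p e = p.p e := by
  induction hn : C.ngt J x using Nat.strong_induction_on generalizing p x with
  | _ n ih =>
    by_cases hd : C.Dom J x
    · refine ⟨p, 1, one_mem _, ?_, ?_, rfl⟩
      · rw [map_one]; exact hd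
      · rw [map_one]; rfl
    · obtain ⟨j, hj⟩ := not_forall.1 hd
      obtain ⟨hj, hlt⟩ := Classical.not_imp.1 hj
      rw [not_le] at hlt
      obtain ⟨p', h1, h2⟩ := s1_refl hJ he p hj fun hr =>
        hlt.ne (hx _ (C.sr_mem j) (C.sr_z_mem (hJ hj) hj) hr)
      obtain ⟨p'', u, hu, h3, h4, h5⟩ := ih _ (hn ▸ AD.ngt_simple hJ hj hlt) p'
        (x := C.gr (cs.simple j) x) (fun γ hγ h0 hr => by
          obtain ⟨k, ε, hr⟩ := hr
          have e1 := C.co_pb (cs.simple j) (C.pb_mem (cs.simple j) hγ)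
          rw [C.pb_simple_simple] at e1
          rw [h2, e1] at hr
          exact hx _ (C.pb_mem (cs.simple j) hγ)
            ((C.pb_z hJ (C.simple_mem_WJ hj) γ).trans h0) ⟨k, ε, hr⟩) rfl
      refine ⟨p'', u * cs.simple j, mul_mem hu (C.simple_mem_WJ hj), ?_, ?_, h5.trans h1⟩
      · rw [C.gr_mul]; exact h3
      · have := h2 (C.gr (cs.simple j) x) 0
        rw [map_zero, sub_zero, sub_zero, ← C.gr_mul, cs.simple_mul_simple_self, map_one] at this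
        rw [C.gr_mul, h4, this]
        rfl

theorem s1_neg_perp (p : Pt (C.AJ K J e)) {x : Lat C.n}
    (hx : ∀ γ ∈ C.R, γ (C.z J) = 0 → RP p γ → γ x = 0) :
    ∀ γ ∈ C.R, γ (C.z J) = 0 → RP p γ → γ (-x) = 0 := fun γ hγ h0 hr => by
  rw [map_neg, hx γ hγ h0 hr, neg_zero]

theorem s1_le_one (p : Pt (C.AJ K J e)) {x : Lat C.n}
    (hx : ∀ γ ∈ C.R, γ (C.z J) = 0 → RP p γ → γ x = 0) : p.p (C.Tht K J x) ≤ 1 := by
  obtain ⟨p', u, -, h1, h2, -⟩ := walk hJ he p hx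
  exact h2 ▸ pt_dom hJ he p' h1

/-- `exists_perp` for the set of roots in `R_p` -/
theorem pt_int (p : Pt (C.AJ K J e)) (x : Lat C.n) :
    ∃ k : ℤ, p.p (C.Tht K J ((C.Mo : ℤ) • x)) = ‖qK K‖ ^ k := by
  obtain ⟨x0, y, h1, ⟨k, ε, h2⟩, h3, -⟩ := s1_perp hJ p x
  refine ⟨k, ?_⟩
  rw [h1, s1_pt_add hJ, s1_eq_one hJ he p (s1_le_one hJ he p h3)
    (s1_le_one hJ he p (s1_neg_perp hJ he p h3)), one_mul,
    p.eq_of_sub (Tht_mem y) (Subalgebra.algebraMap_mem _ _) h2, p.algebraMap, norm_mul,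
    norm_zpow, norm_intK ε.ne_zero, one_mul]

theorem pt_disc (hd : ∀ p' : Pt (C.AJ K J e), p'.p e = 1 → ∀ x, C.Dom J x → C.deg J x = 0 →
      x ≠ 0 → p'.p (C.Tht K J x) < 1) (p : Pt (C.AJ K J e)) (hp : p.p e = 1) {x : Lat C.n}
    (hx : C.deg J x = 0) : ∃ k : ℤ,
      p.p (C.Tht K J ((2 * C.Mo : ℤ) • x) - algebraMap K _ (qK K ^ (2 * k))) = 0 := by
  obtain ⟨x0, y, h1, ⟨k, ε, h2⟩, h3, h4⟩ := s1_perp hJ p x
  have key : ∀ x1 : Lat C.n, (∀ γ ∈ C.R, γ (C.z J) = 0 → RP p γ → γ x1 = 0) →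
      C.deg J x1 = 0 → x1 ≠ 0 → p.p (C.Tht K J x1) < 1 := fun x1 a b c => by
    obtain ⟨p', u, hu, g1, g2, g3⟩ := walk hJ he p a
    rw [← g2]
    exact hd p' (g3.trans hp) _ g1 ((C.deg_gr hJ hu x1).trans b)
      fun h => c ((C.gr u).map_eq_zero_iff.1 h)
  have h0 : x0 = 0 := by
    by_contra h0
    exact (key x0 h3 (h4 hx) h0).ne (s1_eq_one hJ he p (s1_le_one hJ he p h3)
      (s1_le_one hJ he p (s1_neg_perp hJ he p h3)))
  refine ⟨k, ?_⟩
  have h5 := s1_cong_add hJ p h2 h2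
  have h6 : ((ε : ℤ) : K) * ((ε : ℤ) : K) = 1 := by
    rw [← Int.cast_mul, ← Units.val_mul, Int.units_mul_self, Units.val_one, Int.cast_one]
  rw [mul_mul_mul_comm, h6, one_mul, ← zpow_add₀ qK_ne_zero, ← two_mul k] at h5
  rwa [mul_smul, h1, h0, zero_add, two_smul]

end HC

end Pool.Agent.P.MP_74db7f_al
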