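import Pool.Agent.P.MP_74db7f_al.F.S1

/-! S2: slope projections `η` and the constant term projections `ε` (paper, section 4). -/

namespace Pool.Agent.P.MP_74db7f_al

open scoped Classical Topology
open Filter

section Gen

variable {K : Type*} [NontriviallyNormedField K] {𝔅 : Type*} [NormedRing 𝔅] [NormedAlgebra K 𝔅]
  [CompleteSpace 𝔅] [IsUltrametricDist 𝔅] [NormOneClass 𝔅] {𝒜 : Subalgebra K 𝔅}

theorem s2_one_sub (p : Pt 𝒜) {e : 𝔅} (he : e ∈ 𝒜) (h : e * e = e) :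
    p.p (1 - e) = 1 - p.p e := by
  rcases p.idem he h with h0 | h1
  · rw [h0, sub_zero, sub_eq_add_neg, p.add_eq (one_mem _) (neg_mem he), p.one]
    rw [p.neg he, h0, p.one]
    exact zero_lt_one
  · have h2 := p.mul _ he _ (sub_mem (one_mem _) he)
    rw [mul_sub, mul_one, h, sub_self, p.zero, h1, one_mul] at h2
    rw [← h2, h1, sub_self]

/-- comparable idempotents -/
theorem s2_idem_le (h : Spec 𝒜) {e e' : 𝔅} (he : e ∈ 𝒜) (he' : e' ∈ 𝒜) (h1 : e * e = e)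
    (h2 : e' * e' = e') (hp : ∀ p : Pt 𝒜, p.p e = 1 → p.p e' = 1) : e * e' = e := by
  have hc := h.comm e he e' he'
  refine h.idem_ext (mul_mem he he') he ?_ h1 fun p => ?_
  · calc e * e' * (e * e') = e * (e' * e) * e' := by simp only [mul_assoc]
      _ = e * e * (e' * e') := by rw [← hc]; simp only [mul_assoc]
      _ = e * e' := by rw [h1, h2]
  · rw [p.mul _ he _ he']
    rcases p.idem he h1 with h0 | h0
    · rw [h0, zero_mul]
    · rw [hp p h0, mul_one]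

theorem s2_inv_nat {F a a' : 𝔅} (ha : IsUnit a) (ha' : IsUnit a') (h : F * a = a' * F) :
    F * Ring.inverse a = Ring.inverse a' * F := by
  calc F * Ring.inverse a = Ring.inverse a' * (a' * F) * Ring.inverse a := by
        rw [← mul_assoc, Ring.inverse_mul_cancel _ ha', one_mul]
    _ = Ring.inverse a' * F := by
        rw [← h, mul_assoc, mul_assoc, Ring.mul_inverse_cancel _ ha, mul_one]

theorem s2_telescope {G : Type*} [AddCommGroup G] (f : ℤ → G) (a : ℤ) (n : ℕ) :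
    ∑ k ∈ Finset.Ico a (a + n), (f (k + 1) - f k) = f (a + n) - f a := by
  induction n with
  | zero => simp
  | succ n ih =>
    have e : Finset.Ico a (a + ((n + 1 : ℕ) : ℤ)) = insert (a + n) (Finset.Ico a (a + n)) := by
      ext k
      simp only [Finset.mem_Ico, Finset.mem_insert]
      push_cast
      omega
    rw [e, Finset.sum_insert (by simp), ih]
    push_cast
    rw [add_assoc]
    abel

end Gen

namespace HC

variable {B W H : Type*} [Group W] {M : CoxeterMatrix B} {cs : CoxeterSystem M W} [Ring H]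
  [Algebra Rq H] (C : HC cs H) (K : Type*) [NontriviallyNormedField K] [CompleteSpace K]
  [IsUltrametricDist K] [Algebra Rq K] [GoodK K]

variable {C K} {J I : Finset B}

theorem s2_he : ∀ a ∈ C.HJ J, (1 : Op W K) * C.Lop K J a = C.Lop K J a * 1 := fun _ _ => by
  rw [one_mul, mul_one]

theorem spec_AJ1 (hJ : J ⊆ C.S0) : Spec (C.AJ K J 1) :=
  spec_AJ hJ s2_he

theorem AJ1_comm {a F : Op W K} (ha : a ∈ C.AJ K J 1)
    (hF : ∀ x, C.Tht K J x * F = F * C.Tht K J x) : a * F = F * a := by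
  refine bic_comm ha fun c hc => ?_
  rcases hc with rfl | ⟨x, rfl⟩
  · rw [one_mul, mul_one]
  · exact hF x

theorem s2_pt_two (hJ : J ⊆ C.S0) (p : Pt (C.AJ K J 1)) (x : Lat C.n) :
    p.p (C.Tht K J ((2 * C.Mo : ℤ) • x)) = p.p (C.Tht K J ((C.Mo : ℤ) • x)) ^ 2 := by
  rw [two_mul, add_smul, pt_add hJ s2_he, sq]

theorem s2_pt_neg (hJ : J ⊆ C.S0) (p : Pt (C.AJ K J 1)) (x : Lat C.n) :
    p.p (C.Tht K J (-x)) = (p.p (C.Tht K J x))⁻¹ := by
  rw [← neg_one_smul ℤ x, pt_zsmul hJ s2_he, zpow_neg_one]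

theorem s2_pt_nsmul (hJ : J ⊆ C.S0) (p : Pt (C.AJ K J 1)) (k : ℕ) (x : Lat C.n) :
    p.p (C.Tht K J ((k : ℤ) • x)) = p.p (C.Tht K J x) ^ k := by
  rw [pt_zsmul hJ s2_he, zpow_natCast]

theorem etaL_spec (hJ : J ⊆ C.S0) (x : Lat C.n) (k : ℤ) :
    IsUnit (algebraMap K (Op W K) (qK K ^ (2 * k - 1)) - C.Tht K J ((2 * C.Mo : ℤ) • x)) ∧
    Tendsto (newt (C.bet K J x k)) atTop (𝓝 (C.etaL K J x k)) ∧
    C.etaL K J x k ∈ C.AJ K J 1 ∧ IsIdempotentElem (C.etaL K J x k) ∧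
    ∀ p : Pt (C.AJ K J 1), p.p (C.etaL K J x k) =
      if p.p (C.Tht K J ((C.Mo : ℤ) • x)) < ‖qK K‖ ^ k then 1 else 0 := by
  have hQ : 1 < ‖qK K‖ := GoodK.one_lt
  have hQ0 : ‖qK K‖ ≠ 0 := (zero_lt_one.trans hQ).ne'
  have hT : ∀ (p : Pt (C.AJ K J 1)) (j : ℤ), p.p (C.Tht K J ((C.Mo : ℤ) • x)) = ‖qK K‖ ^ j →
      p.p (C.Tht K J ((2 * C.Mo : ℤ) • x)) = ‖qK K‖ ^ (2 * j) := fun p j hj => by
    rw [s2_pt_two hJ, hj, ← zpow_natCast, ← zpow_mul, mul_comm]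
    rfl
  obtain ⟨h1, h2, h3, h4, h5⟩ := (spec_AJ1 (K := K) hJ).riesz
    (Tht_mem ((2 * C.Mo : ℤ) • x)) (l := qK K ^ (2 * k - 1))
    (zpow_ne_zero _ (norm_ne_zero_iff.1 hQ0)) (ρ := ‖qK K‖⁻¹) (inv_lt_one_of_one_lt₀ hQ)
    (fun p => by
      obtain ⟨j, hj⟩ := pt_int hJ s2_he p x
      rw [hT p j hj, norm_zpow, ← zpow_neg_one, ← zpow_add₀ hQ0, ← zpow_add₀ hQ0,
        zpow_le_zpow_iff_right₀ hQ, zpow_le_zpow_iff_right₀ hQ]
      omega)
  refine ⟨h1, h2, h3, h4, fun p => ?_⟩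
  obtain ⟨j, hj⟩ := pt_int hJ s2_he p x
  refine (h5 p).trans ?_
  rw [hT p j hj, hj, norm_zpow]
  simp only [zpow_lt_zpow_iff_right₀ hQ]
  exact if_congr (by omega) rfl rfl

theorem s2_etaL_mul (hJ : J ⊆ C.S0) (x : Lat C.n) (k : ℤ) :
    C.etaL K J x k * C.etaL K J x (k + 1) = C.etaL K J x k := by
  have hQ : 1 < ‖qK K‖ := GoodK.one_lt
  obtain ⟨-, -, a3, a4, a5⟩ := etaL_spec (K := K) hJ x (k + 1)
  obtain ⟨-, -, b3, b4, b5⟩ := etaL_spec (K := K) hJ x k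
  refine s2_idem_le (spec_AJ1 hJ) b3 a3 b4 a4 fun p hp => ?_
  rw [b5] at hp
  rw [a5, if_pos]
  split_ifs at hp with h
  · exact h.trans (zpow_lt_zpow_right₀ hQ (lt_add_one k))
  · exact absurd hp zero_ne_one

theorem eta_mem (hJ : J ⊆ C.S0) (x : Lat C.n) (k : ℤ) : C.eta K J x k ∈ C.AJ K J 1 :=
  sub_mem (etaL_spec hJ x (k + 1)).2.2.1 (etaL_spec hJ x k).2.2.1

theorem eta_idem (hJ : J ⊆ C.S0) (x : Lat C.n) (k : ℤ) :
    C.eta K J x k * C.eta K J x k = C.eta K J x k := by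
  obtain ⟨-, -, a3, a4, -⟩ := etaL_spec (K := K) hJ x (k + 1)
  obtain ⟨-, -, b3, b4, -⟩ := etaL_spec (K := K) hJ x k
  have h := s2_etaL_mul (K := K) hJ x k
  have h' := (spec_AJ1 hJ).comm _ a3 _ b3
  rw [eta, sub_mul, mul_sub, mul_sub, a4.eq, b4.eq, h', h, sub_self, sub_zero]

theorem pt_eta (hJ : J ⊆ C.S0) (x : Lat C.n) (k : ℤ) (p : Pt (C.AJ K J 1)) :
    p.p (C.eta K J x k) = if p.p (C.Tht K J ((C.Mo : ℤ) • x)) = ‖qK K‖ ^ k then 1 else 0 := by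
  have hQ : 1 < ‖qK K‖ := GoodK.one_lt
  obtain ⟨-, -, a3, -, a5⟩ := etaL_spec (K := K) hJ x (k + 1)
  obtain ⟨-, -, b3, b4, b5⟩ := etaL_spec (K := K) hJ x k
  have e : C.eta K J x k = (1 - C.etaL K J x k) * C.etaL K J x (k + 1) := by
    rw [sub_mul, one_mul, s2_etaL_mul hJ, eta]
  obtain ⟨j, hj⟩ := pt_int hJ s2_he p x
  rw [e, p.mul _ (sub_mem (one_mem _) b3) _ a3, s2_one_sub p b3 b4.eq, a5, b5, hj]
  simp only [zpow_lt_zpow_iff_right₀ hQ, zpow_right_inj₀ (zero_lt_one.trans hQ) hQ.ne']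
  split_ifs <;> first | omega | norm_num

theorem s2_etaL_nat (hJ : J ⊆ C.S0) (hI : I ⊆ C.S0) {x x' : Lat C.n} {F : Op W K}
    (hF : F * C.Tht K J x = C.Tht K I x' * F) (k : ℤ) :
    F * C.etaL K J x k = C.etaL K I x' k * F := by
  obtain ⟨a1, a2, -⟩ := etaL_spec (K := K) hJ x k
  obtain ⟨b1, b2, -⟩ := etaL_spec (K := K) hI x' k
  have h1 : F * C.Tht K J ((2 * C.Mo : ℤ) • x) = C.Tht K I ((2 * C.Mo : ℤ) • x') * F := by
    have e : (2 * C.Mo : ℤ) = ((2 * C.Mo : ℕ) : ℤ) := by push_cast; rfl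
    rw [e, Tht_nsmul C K hJ, Tht_nsmul C K hI]
    exact (SemiconjBy.pow_right hF _).eq
  have h2 : F * C.bet K J x k = C.bet K I x' k * F := by
    rw [bet, bet, mul_smul_comm, smul_mul_assoc, s2_inv_nat a1 b1]
    rw [mul_sub, sub_mul, h1, Algebra.commutes]
  exact tendsto_nhds_unique ((a2.const_mul F).congr (newt_nat h2)) (b2.mul_const F)

theorem eta_nat (hJ : J ⊆ C.S0) (hI : I ⊆ C.S0) {x x' : Lat C.n} {F : Op W K}
    (hF : F * C.Tht K J x = C.Tht K I x' * F) (k : ℤ) :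
    F * C.eta K J x k = C.eta K I x' k * F := by
  rw [eta, eta, mul_sub, sub_mul, s2_etaL_nat hJ hI hF, s2_etaL_nat hJ hI hF]

theorem sum_eta (hJ : J ⊆ C.S0) (x : Lat C.n) : ∃ k0 : ℤ, ∀ k1, k0 ≤ k1 →
    ∑ k ∈ Finset.Icc (-k1) k1, C.eta K J x k = 1 := by
  have hQ : 1 < ‖qK K‖ := GoodK.one_lt
  obtain ⟨n, hn⟩ := pow_unbounded_of_one_lt
    (max ‖C.Tht K J ((C.Mo : ℤ) • x)‖ ‖C.Tht K J (-((C.Mo : ℤ) • x))‖) hQ
  refine ⟨n, fun k1 hk => ?_⟩
  obtain ⟨m, hm⟩ : ∃ m : ℕ, k1 + 1 = -k1 + m := ⟨(2 * k1 + 1).toNat, by omega⟩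
  have e : Finset.Icc (-k1) k1 = Finset.Ico (-k1) (-k1 + m) := by
    rw [← hm]
    ext k
    simp only [Finset.mem_Icc, Finset.mem_Ico]
    omega
  have hn' : ‖qK K‖ ^ n ≤ ‖qK K‖ ^ k1 := by
    rw [← zpow_natCast]
    exact zpow_le_zpow_right₀ hQ.le hk
  obtain ⟨-, -, a3, a4, a5⟩ := etaL_spec (K := K) hJ x (k1 + 1)
  obtain ⟨-, -, b3, b4, b5⟩ := etaL_spec (K := K) hJ x (-k1)
  have h1 : C.etaL K J x (k1 + 1) = 1 := by
    refine (spec_AJ1 hJ).idem_ext a3 (one_mem _) a4 (one_mul _) fun p => ?_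
    rw [a5, p.one, if_pos]
    exact ((p.le _ (Tht_mem _)).trans (le_max_left _ _)).trans_lt
      (hn.trans_le (hn'.trans (zpow_le_zpow_right₀ hQ.le (le_add_of_nonneg_right zero_le_one))))
  have h0 : C.etaL K J x (-k1) = 0 := by
    refine (spec_AJ1 hJ).idem_ext b3 (zero_mem _) b4 (zero_mul _) fun p => ?_
    rw [b5, p.zero, if_neg]
    have h2 := ((p.le _ (Tht_mem (-((C.Mo : ℤ) • x)))).trans (le_max_right _ _)).trans
      (hn.le.trans hn')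
    rw [s2_pt_neg hJ] at h2
    rw [not_lt, zpow_neg]
    exact inv_le_of_inv_le₀ (pt_pos hJ s2_he p _) h2
  rw [e]
  refine (s2_telescope (C.etaL K J x) (-k1) m).trans ?_
  rw [← hm, h1, h0, sub_zero]

theorem eta_neg (hJ : J ⊆ C.S0) (x : Lat C.n) : C.eta K J (-x) 0 = C.eta K J x 0 := by
  refine (spec_AJ1 hJ).idem_ext (eta_mem hJ _ _) (eta_mem hJ _ _) (eta_idem hJ _ _)
    (eta_idem hJ _ _) fun p => ?_
  rw [pt_eta hJ, pt_eta hJ, smul_neg, s2_pt_neg hJ, zpow_zero]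
  exact if_congr inv_eq_one rfl rfl

theorem s2_eta_proj (hJ : J ⊆ C.S0) (x : Lat C.n) (k : ℤ) : C.eta K J x k =
    C.eta K J (((C.WF J).card : ℤ) • x - C.deg J x) (k * ((C.WF J).card : ℤ)) := by
  have hQ : 1 < ‖qK K‖ := GoodK.one_lt
  refine (spec_AJ1 hJ).idem_ext (eta_mem hJ _ _) (eta_mem hJ _ _) (eta_idem hJ _ _)
    (eta_idem hJ _ _) fun p => ?_
  have e : (C.Mo : ℤ) • (((C.WF J).card : ℤ) • x - C.deg J x) =
      ((C.WF J).card : ℤ) • ((C.Mo : ℤ) • x) + (-(C.Mo : ℤ)) • C.deg J x := by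
    rw [smul_sub, smul_comm, neg_smul, sub_eq_add_neg]
  rw [pt_eta hJ, pt_eta hJ, e, pt_add hJ s2_he, pt_zsmul hJ s2_he p (-(C.Mo : ℤ)),
    pt_fix hJ s2_he p (C.fix_deg hJ x), one_zpow, mul_one, s2_pt_nsmul hJ p (C.WF J).card,
    zpow_mul, zpow_natCast]
  exact if_congr (pow_left_inj₀ (pt_pos hJ s2_he p _).le (zpow_pos (zero_lt_one.trans hQ) k).le
    (C.card_WF_pos hJ).ne').symm rfl rfl

/-- replace `x` by its projection `|W_J| x - deg x`, which has degree `0` -/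
theorem eta_PD (hJ : J ⊆ C.S0) (x : Lat C.n) (k : ℤ) (δ : Lat C.n) :
    C.PD K J δ * C.eta K J x k = C.eta K J x k * C.PD K J δ := by
  rw [s2_eta_proj hJ]
  refine eta_nat hJ hJ ?_ _
  have h := PD_Tht C K hJ δ (((C.WF J).card : ℤ) • x - C.deg J x)
  rwa [C.deg_proj hJ, add_zero] at h

theorem phi_mem (hJ : J ⊆ C.S0) (x : Lat C.n) (k : ℤ) (j : ℕ) :
    C.phi K J x k j ∈ C.AJ K J 1 :=
  mul_mem (pow_mem (Subalgebra.smul_mem _ (Tht_mem _) _) j) (eta_mem hJ x k)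

theorem phi_PD (hJ : J ⊆ C.S0) (x : Lat C.n) (k : ℤ) (j : ℕ) (δ : Lat C.n) :
    C.PD K J (δ + ((j * C.Mo : ℕ) : ℤ) • C.deg J x) * C.phi K J x k j =
      C.phi K J x k j * C.PD K J δ := by
  have h := PD_Tht C K hJ δ ((j : ℤ) • (C.Mo : ℤ) • x)
  rw [map_zsmul, map_zsmul, smul_smul, Tht_nsmul C K hJ] at h
  rw [phi, smul_pow, Nat.cast_mul, smul_mul_assoc, smul_mul_assoc, mul_smul_comm, ← mul_assoc, h,
    mul_assoc, eta_PD hJ, mul_assoc]

theorem s2_dom {x y : Lat C.n} (hx : C.Fix J x) (hx' : ∀ b ∈ I, b ∉ J → 0 < C.sr b x)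
    (hy : C.Fix J y) : ∃ N : ℕ, C.Dom I ((N : ℤ) • x - y) := by
  refine ⟨∑ b ∈ I, (C.sr b y).natAbs, fun b hb => ?_⟩
  rw [map_sub, map_zsmul, smul_eq_mul]
  by_cases hbJ : b ∈ J
  · rw [hx b hbJ, hy b hbJ, mul_zero, sub_zero]
  · have h1 := hx' b hb hbJ
    have h2 : (C.sr b y).natAbs ≤ ∑ b ∈ I, (C.sr b y).natAbs :=
      Finset.single_le_sum (f := fun b => (C.sr b y).natAbs) (fun _ _ => Nat.zero_le _) hb
    have h3 : C.sr b y ≤ ((∑ b ∈ I, (C.sr b y).natAbs : ℕ) : ℤ) :=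
      Int.le_natAbs.trans (Nat.cast_le.2 h2)
    nlinarith [Int.natCast_nonneg (∑ b ∈ I, (C.sr b y).natAbs)]

theorem s2_pt_one (hI : I ⊆ C.S0) {x y : Lat C.n} (hx : C.Fix J x)
    (hx' : ∀ b ∈ I, b ∉ J → 0 < C.sr b x) (hy : C.Fix J y) (hy' : C.Dom I y)
    (p : Pt (C.AJ K I 1)) (h : p.p (C.Tht K I x) = 1) : p.p (C.Tht K I y) = 1 := by
  obtain ⟨N, hN⟩ := s2_dom hx hx' hy
  have h1 := pt_add hI s2_he p ((N : ℤ) • x - y) y
  rw [sub_add_cancel, s2_pt_nsmul hI, h, one_pow] at h1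
  have h2 := pt_dom hI s2_he p hN
  have h3 := pt_dom hI s2_he p hy'
  have h4 := pt_pos hI s2_he p y
  nlinarith

theorem s2_dom_z (hI : I ⊆ C.S0) (J : Finset B) : C.Dom I (C.z J) :=
  fun b hb => C.dom_z J b (hI hb)

theorem s2_pos_z (hI : I ⊆ C.S0) (J : Finset B) : ∀ b ∈ I, b ∉ J → 0 < C.sr b (C.z J) :=
  fun b hb hbJ => by
    rw [C.sr_z_not (hI hb) hbJ]
    exact C.m_pos

theorem s2_pt_eta0 (hI : I ⊆ C.S0) (x : Lat C.n) (p : Pt (C.AJ K I 1)) :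
    p.p (C.eta K I x 0) = if p.p (C.Tht K I x) = 1 then 1 else 0 := by
  rw [pt_eta hI, s2_pt_nsmul hI, zpow_zero]
  exact if_congr (pow_eq_one_iff_of_nonneg (pt_pos hI s2_he p _).le C.Mo_pos.ne') rfl rfl

variable (hJI : J ⊆ I) (hI : I ⊆ C.S0)
include hJI hI

theorem pt_eps (p : Pt (C.AJ K I 1)) :
    p.p (C.eps K I J) = if p.p (C.Tht K I (C.z J)) = 1 then 1 else 0 :=
  s2_pt_eta0 hI _ p

theorem eps_eq {x : Lat C.n} (hx : C.Fix J x) (hx' : ∀ b ∈ I, b ∉ J → 0 < C.sr b x) :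
    C.eta K I x 0 = C.eps K I J := by
  refine (spec_AJ1 hI).idem_ext (eta_mem hI _ _) (eta_mem hI _ _) (eta_idem hI _ _)
    (eta_idem hI _ _) fun p => ?_
  have hz := C.fix_z (hJI.trans hI)
  have hd : C.Dom I x := fun b hb => by
    by_cases hbJ : b ∈ J
    · exact (hx b hbJ).ge
    · exact (hx' b hb hbJ).le
  rw [s2_pt_eta0 hI, pt_eps hJI hI]
  exact if_congr ⟨s2_pt_one hI hx hx' hz (s2_dom_z hI J) p,
    s2_pt_one hI hz (s2_pos_z hI J) hx hd p⟩ rfl rfl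

omit hJI in
theorem eps_self : C.eps K I I = 1 := by
  refine (spec_AJ1 hI).idem_ext (eta_mem hI _ _) (one_mem _) (eta_idem hI _ _) (one_mul _)
    fun p => ?_
  rw [pt_eps subset_rfl hI, p.one, if_pos (pt_fix hI s2_he p (C.fix_z hI))]

theorem eps_mul_eps {J' : Finset B} (h : J' ⊆ J) :
    C.eps K I J' * C.eps K I J = C.eps K I J' := by
  refine s2_idem_le (spec_AJ1 hI) (eta_mem hI _ _) (eta_mem hI _ _) (eta_idem hI _ _)
    (eta_idem hI _ _) fun p hp => ?_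
  rw [pt_eps (h.trans hJI) hI] at hp
  rw [pt_eps hJI hI, if_pos]
  split_ifs at hp with h1
  · exact s2_pt_one hI (C.fix_z ((h.trans hJI).trans hI)) (s2_pos_z hI J')
      (fun j hj => C.fix_z (hJI.trans hI) j (h hj)) (s2_dom_z hI J) p h1
  · exact absurd hp zero_ne_one

theorem eps_tendsto :
    Tendsto (fun k : ℕ => C.Tht K I (C.z J) ^ k * (1 - C.eps K I J)) atTop (𝓝 0) := by
  have hQ : 1 < ‖qK K‖ := GoodK.one_lt
  have hQi : 0 ≤ ‖qK K‖⁻¹ := inv_nonneg.2 (norm_nonneg _)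
  have hm : C.eps K I J ∈ C.AJ K I 1 := eta_mem hI _ _
  have hi : C.eps K I J * C.eps K I J = C.eps K I J := eta_idem hI _ _
  have hm' : 1 - C.eps K I J ∈ C.AJ K I 1 := sub_mem (one_mem _) hm
  have hc : Commute (C.Tht K I (C.z J)) (1 - C.eps K I J) :=
    (spec_AJ1 hI).comm _ (Tht_mem _) _ hm'
  have hi' : IsIdempotentElem (1 - C.eps K I J) := IsIdempotentElem.one_sub hi
  have hr : ‖qK K‖⁻¹ ^ ((C.Mo : ℝ)⁻¹) < 1 :=
    Real.rpow_lt_one hQi (inv_lt_one_of_one_lt₀ hQ) (inv_pos.2 (Nat.cast_pos.2 C.Mo_pos))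
  have h := (spec_AJ1 hI).tendsto_pow (mul_mem (Tht_mem (C.z J)) hm') hr fun p => by
    rw [p.mul _ (Tht_mem _) _ hm', s2_one_sub p hm hi, pt_eps hJI hI]
    split_ifs with h1
    · rw [sub_self, mul_zero]
      exact Real.rpow_nonneg hQi _
    · rw [sub_zero, mul_one]
      obtain ⟨j, hj⟩ := pt_int hI s2_he p (C.z J)
      rw [s2_pt_nsmul hI] at hj
      have h2 : p.p (C.Tht K I (C.z J)) < 1 :=
        lt_of_le_of_ne (pt_dom hI s2_he p (s2_dom_z hI J)) h1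
      have h3 := pow_lt_one₀ (pt_pos hI s2_he p _).le h2 C.Mo_pos.ne'
      rw [hj, zpow_lt_one_iff_right₀ hQ] at h3
      refine le_of_pow_le_pow_left₀ C.Mo_pos.ne' (Real.rpow_nonneg hQi _) ?_
      rw [Real.rpow_inv_natCast_pow hQi C.Mo_pos.ne', hj, ← zpow_neg_one]
      exact zpow_le_zpow_right₀ hQ.le (by omega)
  refine h.congr' ?_
  filter_upwards [eventually_ge_atTop 1] with k hk
  rw [hc.mul_pow, hi'.pow_eq (by omega)]

theorem eps_Lop {a : H} (ha : a ∈ C.HJ J) :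
    C.eps K I J * C.Lop K I a = C.Lop K I a * C.eps K I J := by
  refine (eta_nat hI hI ?_ 0).symm
  have ha' := C.HJ_mono hJI ha
  rw [Tht, ← Lop_mul C K hI ha' (C.th_mem_HJ I _), ← Lop_mul C K hI (C.th_mem_HJ I _) ha',
    (C.HJ_comm_th (hJI.trans hI) ha (C.fix_z (hJI.trans hI))).eq]

omit hJI in
theorem eps_Rop (h : H) : C.eps K I J * C.Rop K I h = C.Rop K I h * C.eps K I J :=
  (eta_nat hI hI (Lop_Rop C K hI (C.th_mem_HJ I _) h).symm 0).symm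

omit hJI in
theorem s2_Fpol {s : Finset ℤ} (hs : ∀ k ∈ s, k < 0) (N : ℕ) (x : Lat C.n) :
    C.Fpol s N x ∈ C.HJ I ∧ C.Lop K I (C.Fpol s N x) ∈ C.AJ K I 1 ∧
      ∀ p : Pt (C.AJ K I 1), p.p (C.Tht K I ((2 * C.Mo : ℤ) • x)) = 1 →
        p.p (C.Lop K I (C.Fpol s N x)) = 1 := by
  have hQ : 1 < ‖qK K‖ := GoodK.one_lt
  let S : Submonoid H :=
    { carrier := {a | a ∈ C.HJ I ∧ C.Lop K I a ∈ C.AJ K I 1 ∧
        ∀ p : Pt (C.AJ K I 1), p.p (C.Tht K I ((2 * C.Mo : ℤ) • x)) = 1 →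
          p.p (C.Lop K I a) = 1}
      one_mem' := ⟨one_mem _, by rw [Lop_one C K hI]; exact one_mem _, fun p _ => by
        rw [Lop_one C K hI, p.one]⟩
      mul_mem' := fun {a b} ha hb => ⟨mul_mem ha.1 hb.1, by
        rw [Lop_mul C K hI ha.1 hb.1]; exact mul_mem ha.2.1 hb.2.1, fun p hp => by
        rw [Lop_mul C K hI ha.1 hb.1, p.mul _ ha.2.1 _ hb.2.1, ha.2.2 p hp, hb.2.2 p hp,
          mul_one]⟩ }
  have key : ∏ k ∈ s, (Polynomial.X - Polynomial.C (LaurentPolynomial.T (2 * k) : Rq)) ^ N ∈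
      S.comap (Polynomial.aeval (R := Rq) (C.th ((2 * C.Mo : ℤ) • x))) := by
    refine prod_mem fun k hk => pow_mem ?_ N
    have e := Lop_lin (K := K) hI ((2 * C.Mo : ℤ) • x) (2 * k) 1
    rw [map_sub, Th_mon, AlgHom.commutes, Units.val_one, one_smul, Int.cast_one, one_mul] at e
    rw [Submonoid.mem_comap, map_sub, Polynomial.aeval_X, Polynomial.aeval_C]
    refine ⟨sub_mem (C.th_mem_HJ I _) (Subalgebra.algebraMap_mem _ _), ?_, fun p hp => ?_⟩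
    · rw [e]
      exact sub_mem (Tht_mem _) (Subalgebra.algebraMap_mem _ _)
    · rw [e, sub_eq_add_neg, p.add_eq (Tht_mem _) (neg_mem (Subalgebra.algebraMap_mem _ _)), hp]
      rw [p.neg (Subalgebra.algebraMap_mem _ _), p.algebraMap, hp, norm_zpow,
        zpow_lt_one_iff_right₀ hQ]
      have := hs k hk
      omega
  exact key

/-- `F(Θ)` is invertible on the range of `ε` when all roots of `F` are small -/
theorem Fpol_eps {x : Lat C.n} (hx : C.Fix J x) (hx' : ∀ b ∈ I, b ∉ J → 0 < C.sr b x)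
    {s : Finset ℤ} (hs : ∀ k ∈ s, k < 0) (N : ℕ) :
    ∃ G : Op W K, C.Lop K I (C.Fpol s N x) * G = C.eps K I J := by
  obtain ⟨-, hF, hp⟩ := s2_Fpol (K := K) hI hs N x
  have hS := spec_AJ1 (K := K) hI
  have hm : C.eps K I J ∈ C.AJ K I 1 := eta_mem hI _ _
  have hi : C.eps K I J * C.eps K I J = C.eps K I J := eta_idem hI _ _
  have hm' : 1 - C.eps K I J ∈ C.AJ K I 1 := sub_mem (one_mem _) hm
  have hu := add_mem (mul_mem hF hm) hm'
  have hU := hS.isUnit hu fun p => by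
    have h1 := p.mul _ hF _ hm
    have h2 := s2_one_sub p hm hi
    have h3 := s2_pt_eta0 hI x p
    rw [eps_eq hJI hI hx hx'] at h3
    split_ifs at h3 with h4
    · rw [h3, sub_self] at h2
      rw [h3, mul_one, hp p (by rw [pt_zsmul hI s2_he, h4, one_zpow])] at h1
      rw [p.add_eq (mul_mem hF hm) hm' (by rw [h1, h2]; exact zero_lt_one), h1]
      exact one_ne_zero
    · rw [h3, sub_zero] at h2
      rw [h3, mul_zero] at h1
      rw [add_comm, p.add_eq hm' (mul_mem hF hm) (by rw [h1, h2]; exact zero_lt_one), h2]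
      exact one_ne_zero
  have e : (C.Lop K I (C.Fpol s N x) * C.eps K I J + (1 - C.eps K I J)) * C.eps K I J =
      C.Lop K I (C.Fpol s N x) * C.eps K I J := by
    rw [add_mul, mul_assoc, hi, sub_mul, one_mul, hi, sub_self, add_zero]
  generalize C.Lop K I (C.Fpol s N x) * C.eps K I J + (1 - C.eps K I J) = u at hu hU e
  refine ⟨Ring.inverse u * C.eps K I J, ?_⟩
  rw [← mul_assoc, hS.comm _ hF _ (hS.inv _ hu hU), mul_assoc, ← e, ← mul_assoc,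
    Ring.inverse_mul_cancel _ hU, one_mul]

end HC

end Pool.Agent.P.MP_74db7f_al
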