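import Pool.Agent.P.MP_74db7f_al.F.S2

/-! S3: the algebra of natural families (paper, section 4). -/

namespace Pool.Agent.P.MP_74db7f_al

open scoped Classical Topology
open Filter

namespace HC

variable {B W H : Type*} [Group W] {M : CoxeterMatrix B} {cs : CoxeterSystem M W} [Ring H]
  [Algebra Rq H] (C : HC cs H) (K : Type*) [NontriviallyNormedField K] [CompleteSpace K]
  [IsUltrametricDist K] [Algebra Rq K] [GoodK K]

variable {C K} {c c' d d' : Finset B → Op W K}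

theorem Nat.comm (h : C.Nat K c) {J : Finset B} (hJ : J ⊆ C.S0) {F : Op W K}
    (hF : ∀ z, F * C.Rop K J z = C.Rop K J z * F) : F * c J = c J * F := by
  exact h J hJ J hJ F fun z _ => hF z

theorem Nat.comm_Rop (h : C.Nat K c) {J : Finset B} (hJ : J ⊆ C.S0) (z : H) :
    C.Rop K J z * c J = c J * C.Rop K J z := by
  refine h J hJ J hJ _ fun y hy => ?_
  rw [← C.Rop_mul, ← C.Rop_mul, Subring.mem_center_iff.1 hy z]

theorem Nat.comm_nat (h : C.Nat K c) (h' : C.Nat K d) {J : Finset B} (hJ : J ⊆ C.S0) :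
    c J * d J = d J * c J := by
  exact h' J hJ J hJ _ fun z _ => (h.comm_Rop hJ z).symm

/-- subtract the `θ t_1` part (`exists_coord`, `repr_Th`) and apply `intertw_unique` with
`g = 1` -/
theorem center_Th {z : H} (hz : z ∈ Subring.center H) : ∃ f, z = C.Th f := by
  obtain ⟨f, hf⟩ := C.exists_coord z
  have h1 : (1 : W) ∈ C.W0 := one_mem _
  refine ⟨f 1, sub_eq_zero.1 (C.intertw_unique h1 (fun x => ?_) fun x => ?_)⟩
  · have e1 : C.gr 1 x = x := by rw [map_one]; rfl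
    rw [e1, mul_sub, sub_mul, Subring.mem_center_iff.1 hz, ← C.Th_mon, ← map_mul, ← map_mul,
      mul_comm]
  · have e2 : (C.bJ ∅).repr (C.Th (f 1)) (C.tr x * 1) = (f 1).coeff x := by
      have := C.repr_Th (f 1) h1 h1 x
      rwa [C.TJ_one, mul_one, if_pos rfl] at this
    have e3 : (C.bJ ∅).repr z (C.tr x * 1) = (f 1).coeff x := by
      rw [hf, map_sum, Finsupp.finsetSum_apply,
        Finset.sum_congr rfl fun v hv =>
          C.repr_Th (f v) ((C.mem_WF (Finset.Subset.refl _)).1 hv) h1 x,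
        Finset.sum_ite_eq', if_pos ((C.mem_WF (Finset.Subset.refl _)).2 (one_mem _))]
    rw [map_sub, Finsupp.sub_apply, e2, e3, sub_self]

/-- an operator commuting with all `Θ_x` commutes with the centre (`center_Th`, `Lop_central`,
`Lop_Th_mem`) -/
theorem Nat.mem_AJ (h : C.Nat K c) {J : Finset B} (hJ : J ⊆ C.S0) : c J ∈ C.AJ K J 1 := by
  refine mem_bic_iff.2 fun b hb => h J hJ J hJ b fun z hz => ?_
  obtain ⟨f, rfl⟩ := center_Th (C := C) hz
  rw [← C.Lop_central K hJ hz (C.Th_mem_HJ J f)]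
  exact (bic_comm (Lop_Th_mem (C := C) (K := K) (e := 1) hJ f) hb).symm

theorem s3_add (h : C.Nat K c) (h' : C.Nat K d) : C.Nat K (c + d) :=
  fun J hJ J' hJ' F hF => by
    rw [Pi.add_apply, Pi.add_apply, mul_add, add_mul, h J hJ J' hJ' F hF, h' J hJ J' hJ' F hF]

theorem s3_mul (h : C.Nat K c) (h' : C.Nat K d) : C.Nat K (c * d) :=
  fun J hJ J' hJ' F hF => by
    rw [Pi.mul_apply, Pi.mul_apply, ← mul_assoc, h J hJ J' hJ' F hF, mul_assoc,
      h' J hJ J' hJ' F hF, mul_assoc]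

theorem s3_smul (h : C.Nat K c) (a : K) : C.Nat K (a • c) :=
  fun J hJ J' hJ' F hF => by
    rw [Pi.smul_apply, Pi.smul_apply, mul_smul_comm, smul_mul_assoc, h J hJ J' hJ' F hF]

theorem s3_congr (h : C.Nat K c) (e : ∀ J ⊆ C.S0, c J = d J) : C.Nat K d :=
  fun J hJ J' hJ' F hF => by
    rw [← e J hJ, ← e J' hJ', h J hJ J' hJ' F hF]

theorem s3_inverse (h : C.Nat K c) (hu : ∀ J ⊆ C.S0, IsUnit (c J)) :
    C.Nat K fun J => Ring.inverse (c J) :=
  fun J hJ J' hJ' F hF => by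
    have e := h J hJ J' hJ' F hF
    show F * Ring.inverse (c J) = Ring.inverse (c J') * F
    calc F * Ring.inverse (c J)
        = Ring.inverse (c J') * (c J' * F) * Ring.inverse (c J) := by
          rw [Ring.inverse_mul_cancel_left _ _ (hu J' hJ')]
      _ = Ring.inverse (c J') * F := by
          rw [← e, ← mul_assoc, Ring.mul_inverse_cancel_right _ _ (hu J hJ)]

theorem s3_lim {a : ℕ → Finset B → Op W K} (h : ∀ i, C.Nat K (a i))
    (hl : ∀ J ⊆ C.S0, Tendsto (fun i => a i J) atTop (𝓝 (c J))) : C.Nat K c :=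
  fun J hJ J' hJ' F hF =>
    tendsto_nhds_unique ((hl J hJ).const_mul F)
      (((hl J' hJ').mul_const F).congr fun i => (h i J hJ J' hJ' F hF).symm)

theorem s3_orbit_central (x : Lat C.n) (a : H) :
    Commute (C.Th (∑ w ∈ C.WF C.S0, mon (C.gr w x))) a := by
  refine C.Th_central (fun j hj => ?_) a
  rw [map_sum, ← AD.sum_mul_left (fun u => C.mem_WF (Finset.Subset.refl _))
    (C.simple_mem_WJ hj) fun w => (mon (C.gr w x) : LA Rq C.n)]
  exact Finset.sum_congr rfl fun w _ => by rw [C.act_mon, C.gr_mul]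

theorem s3_orbit {J : Finset B} (hJ : J ⊆ C.S0) (x : Lat C.n) :
    ∑ w ∈ C.WF C.S0, C.Tht K J (C.gr w x) =
      C.Rop K J (C.Th (∑ w ∈ C.WF C.S0, mon (C.gr w x))) := by
  refine C.op_ext J fun y => ?_
  rw [C.Rop_kap, ← (s3_orbit_central x y).eq, map_sum, Finset.sum_mul, map_sum,
    sum_apply]
  exact Finset.sum_congr rfl fun w _ => by
    rw [Tht, C.Lop_kap K hJ (C.th_mem_HJ J _), C.Th_mon]

theorem s3_orbit_nat (x : Lat C.n) :
    C.Nat K fun J => ∑ w ∈ C.WF C.S0, C.Tht K J (C.gr w x) :=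
  fun J hJ J' hJ' F hF => by
    show F * ∑ w ∈ C.WF C.S0, C.Tht K J (C.gr w x) =
      (∑ w ∈ C.WF C.S0, C.Tht K J' (C.gr w x)) * F
    rw [s3_orbit hJ, s3_orbit hJ']
    exact hF _ (Subring.mem_center_iff.2 fun a => (s3_orbit_central x a).symm.eq)

theorem natA_one : C.NatA K (1 : Finset B → Op W K) 1 := by
  have h : C.Nat K (1 : Finset B → Op W K) := fun J _ J' _ F _ => by
    rw [Pi.one_apply, Pi.one_apply, mul_one, one_mul]
  exact ⟨h, h, fun J _ => C0.isAdj_one⟩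

theorem NatA.add (h : C.NatA K c c') (h' : C.NatA K d d') : C.NatA K (c + d) (c' + d') := by
  exact ⟨s3_add h.1 h'.1, s3_add h.2.1 h'.2.1, fun J hJ => (h.2.2 J hJ).add (h'.2.2 J hJ)⟩

theorem NatA.mul (h : C.NatA K c c') (h' : C.NatA K d d') : C.NatA K (c * d) (d' * c') := by
  exact ⟨s3_mul h.1 h'.1, s3_mul h'.2.1 h.2.1, fun J hJ => (h.2.2 J hJ).mul (h'.2.2 J hJ)⟩

theorem NatA.smul (h : C.NatA K c c') (a : K) : C.NatA K (a • c) (a • c') := by
  exact ⟨s3_smul h.1 a, s3_smul h.2.1 a, fun J hJ => (h.2.2 J hJ).smul a⟩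

theorem NatA.symm (h : C.NatA K c c') : C.NatA K c' c := by
  exact ⟨h.2.1, h.1, fun J hJ => (h.2.2 J hJ).symm⟩

theorem NatA.congr (h : C.NatA K c c') (e : ∀ J ⊆ C.S0, c J = d J) : C.NatA K d c' := by
  exact ⟨s3_congr h.1 e, h.2.1, fun J hJ => e J hJ ▸ h.2.2 J hJ⟩

theorem NatA.inverse (h : C.NatA K c c') (hu : ∀ J ⊆ C.S0, IsUnit (c J) ∧ IsUnit (c' J)) :
    C.NatA K (fun J => Ring.inverse (c J)) (fun J => Ring.inverse (c' J)) := by
  exact ⟨s3_inverse h.1 fun J hJ => (hu J hJ).1, s3_inverse h.2.1 fun J hJ => (hu J hJ).2,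
    fun J hJ => (h.2.2 J hJ).inverse (hu J hJ).1 (hu J hJ).2⟩

theorem natA_lim {a : ℕ → Finset B → Op W K} (h : ∀ i, ∃ a', C.NatA K (a i) a')
    (hl : ∀ J ⊆ C.S0, Tendsto (fun i => a i J) atTop (𝓝 (c J))) : ∃ c', C.NatA K c c' := by
  choose a' ha' using h
  have h1 : ∀ J : Finset B, ∃ e : Op W K, J ⊆ C.S0 →
      Tendsto (fun i => a' i J) atTop (𝓝 e) ∧ C0.IsAdj (c J) e := fun J => by
    by_cases hJ : J ⊆ C.S0
    · obtain ⟨e, he⟩ := C0.IsAdj.lim (fun i => (ha' i).2.2 J hJ) (hl J hJ)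
      exact ⟨e, fun _ => he⟩
    · exact ⟨0, fun h => absurd h hJ⟩
  choose c' hc' using h1
  exact ⟨c', s3_lim (fun i => (ha' i).1) hl,
    s3_lim (fun i => (ha' i).2.1) fun J hJ => (hc' J hJ).1, fun J hJ => (hc' J hJ).2⟩

/-- orbit sums are central with adjoint the opposite orbit sum (`Th_central`,
`flat_Th_central`) -/
theorem natA_orbit (x : Lat C.n) :
    C.NatA K (fun J => ∑ w ∈ C.WF C.S0, C.Tht K J (C.gr w x))
      (fun J => ∑ w ∈ C.WF C.S0, C.Tht K J (C.gr w (-x))) := by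
  refine ⟨s3_orbit_nat x, s3_orbit_nat (-x), fun J hJ => ?_⟩
  have e : cstar (∑ w ∈ C.WF C.S0, (mon (C.gr w x) : LA Rq C.n)) =
      ∑ w ∈ C.WF C.S0, mon (C.gr w (-x)) := by
    rw [map_sum]
    exact Finset.sum_congr rfl fun w _ => by rw [cstar_mon, map_neg]
  have := C.Rop_adj K J (C.Th (∑ w ∈ C.WF C.S0, mon (C.gr w x)))
  rw [C.flat_Th_central (s3_orbit_central x), e, ← s3_orbit hJ, ← s3_orbit hJ] at this
  exact this

/-- `IsAdj.norm_le_one`, `Spec.pow_le`, `IsAdj.norm_le` -/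
theorem NatA.nat1 (h : C.NatA K c c') (hm : ∀ J ⊆ C.S0,
    ∀ p : Pt (C.AJ K J 1), p.p (c J) ≤ 1) : C.Nat1 K c := by
  refine ⟨c', h, fun J hJ => ?_⟩
  have h1 : ‖c J‖ ≤ 1 := (h.2.2 J hJ).norm_le_one (h.1.comm_nat h.2.1 hJ) fun r hr =>
    (spec_AJ1 hJ).pow_le (h.1.mem_AJ hJ) (hm J hJ) hr
  exact ⟨h1, (h.2.2 J hJ).norm_le.trans h1⟩

theorem nat1_zero : C.Nat1 K (0 : Finset B → Op W K) := by
  have h := (natA_one (C := C) (K := K)).smul 0
  rw [zero_smul] at h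
  exact ⟨0, h, fun J _ => ⟨by simp, by simp⟩⟩

theorem nat1_one : C.Nat1 K (1 : Finset B → Op W K) := by
  exact ⟨1, natA_one, fun J _ => ⟨norm_one.le, norm_one.le⟩⟩

theorem Nat1.add (h : C.Nat1 K c) (h' : C.Nat1 K d) : C.Nat1 K (c + d) := by
  obtain ⟨c', hc, hn⟩ := h
  obtain ⟨d', hd, hm⟩ := h'
  exact ⟨c' + d', hc.add hd, fun J hJ =>
    ⟨(IsUltrametricDist.norm_add_le_max _ _).trans (max_le (hn J hJ).1 (hm J hJ).1),
      (IsUltrametricDist.norm_add_le_max _ _).trans (max_le (hn J hJ).2 (hm J hJ).2)⟩⟩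

theorem Nat1.mul (h : C.Nat1 K c) (h' : C.Nat1 K d) : C.Nat1 K (c * d) := by
  obtain ⟨c', hc, hn⟩ := h
  obtain ⟨d', hd, hm⟩ := h'
  exact ⟨d' * c', hc.mul hd, fun J hJ =>
    ⟨(norm_mul_le _ _).trans (mul_le_one₀ (hn J hJ).1 (norm_nonneg _) (hm J hJ).1),
      (norm_mul_le _ _).trans (mul_le_one₀ (hm J hJ).2 (norm_nonneg _) (hn J hJ).2)⟩⟩

theorem Nat1.neg (h : C.Nat1 K c) : C.Nat1 K (-c) := by
  obtain ⟨c', hc, hn⟩ := h
  have h1 := hc.smul (-1)
  rw [neg_one_smul, neg_one_smul] at h1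
  exact ⟨-c', h1, fun J hJ => ⟨(norm_neg _).trans_le (hn J hJ).1,
    (norm_neg _).trans_le (hn J hJ).2⟩⟩

end HC

end Pool.Agent.P.MP_74db7f_al
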