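import Pool.Agent.P.MP_74db7f_al.F.S3

/-! S4: equivariant families and their symmetric functions (paper, section 4). -/

namespace Pool.Agent.P.MP_74db7f_al

open scoped Classical Topology
open Filter

namespace HC

variable {B W H : Type*} [Group W] {M : CoxeterMatrix B} {cs : CoxeterSystem M W} [Ring H]
  [Algebra Rq H] (C : HC cs H) (K : Type*) [NontriviallyNormedField K] [CompleteSpace K]
  [IsUltrametricDist K] [Algebra Rq K] [GoodK K]

/-- `a w = w • F` for an element `F` of the group algebra of `X` over the natural families -/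
def Equi (a : W → Finset B → Op W K) : Prop :=
  ∃ F : Lat C.n →₀ (Finset B → Op W K), (∀ y, ∃ c', C.NatA K (F y) c') ∧
    ∀ w ∈ C.W0, ∀ J ⊆ C.S0, a w J = F.sum fun y c => c J * C.Tht K J (C.gr w y)

/-- limits of equivariant families -/
def EquiL (a : W → Finset B → Op W K) : Prop :=
  ∃ s : ℕ → W → Finset B → Op W K, (∀ i, C.Equi K (s i)) ∧
    ∀ w ∈ C.W0, ∀ J ⊆ C.S0, Tendsto (fun i => s i w J) atTop (𝓝 (a w J))

variable {C K} {a b : W → Finset B → Op W K}

theorem s4_nat_zero : ∃ c', C.NatA K (0 : Finset B → Op W K) c' :=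
  ⟨_, (natA_one.smul (0 : K)).congr fun J _ => by simp⟩

theorem s4_nat_sum {ι : Type*} (s : Finset ι) (c : ι → Finset B → Op W K)
    (h : ∀ i ∈ s, ∃ c', C.NatA K (c i) c') : ∃ c', C.NatA K (∑ i ∈ s, c i) c' :=
  Finset.sum_induction c (fun x => ∃ c', C.NatA K x c')
    (fun _ _ ⟨_, h1⟩ ⟨_, h2⟩ => ⟨_, h1.add h2⟩) s4_nat_zero h

theorem Equi.s4_congr (ha : C.Equi K a) (e : ∀ w ∈ C.W0, ∀ J ⊆ C.S0, a w J = b w J) :
    C.Equi K b := by
  obtain ⟨F, h1, h2⟩ := ha
  exact ⟨F, h1, fun w hw J hJ => (e w hw J hJ).symm.trans (h2 w hw J hJ)⟩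

theorem s4_single {c c' : Finset B → Op W K} (h : C.NatA K c c') (y : Lat C.n) :
    C.Equi K fun w J => c J * C.Tht K J (C.gr w y) := by
  refine ⟨Finsupp.single y c, fun y' => ?_, fun w _ J _ => ?_⟩
  · rw [Finsupp.single_apply]
    split_ifs
    · exact ⟨c', h⟩
    · exact s4_nat_zero
  · rw [Finsupp.sum_single_index]
    simp

theorem s4_zero : C.Equi K (0 : W → Finset B → Op W K) :=
  ⟨0, fun _ => s4_nat_zero, fun _ _ _ _ => by simp⟩

theorem Equi.s4_add (ha : C.Equi K a) (hb : C.Equi K b) : C.Equi K (a + b) := by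
  obtain ⟨F, h1, h2⟩ := ha
  obtain ⟨G, k1, k2⟩ := hb
  refine ⟨F + G, fun y => ?_, fun w hw J hJ => ?_⟩
  · obtain ⟨c, hc⟩ := h1 y
    obtain ⟨d, hd⟩ := k1 y
    exact ⟨_, hc.add hd⟩
  · rw [Finsupp.sum_add_index' (fun _ => by simp) (fun _ _ _ => by simp [add_mul]),
      ← h2 w hw J hJ, ← k2 w hw J hJ]
    rfl

theorem s4_sum {ι : Type*} (s : Finset ι) (c : ι → W → Finset B → Op W K)
    (h : ∀ i ∈ s, C.Equi K (c i)) : C.Equi K (∑ i ∈ s, c i) :=
  Finset.sum_induction c (fun x => C.Equi K x) (fun _ _ h1 h2 => h1.s4_add h2) s4_zero h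

theorem s4_comm {c : Finset B → Op W K} (h : C.Nat K c) {J : Finset B} (hJ : J ⊆ C.S0)
    (x : Lat C.n) : C.Tht K J x * c J = c J * C.Tht K J x :=
  h.comm hJ fun z => C.Lop_Rop K hJ (C.th_mem_HJ J x) z

theorem Equi.s4_mul (ha : C.Equi K a) (hb : C.Equi K b) : C.Equi K (a * b) := by
  obtain ⟨F, h1, h2⟩ := ha
  obtain ⟨G, k1, k2⟩ := hb
  refine (s4_sum F.support (fun y => ∑ y' ∈ G.support,
    fun w J => (F y * G y') J * C.Tht K J (C.gr w (y + y'))) fun y _ =>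
      s4_sum _ _ fun y' _ => ?_).s4_congr fun w hw J hJ => ?_
  · obtain ⟨c, hc⟩ := h1 y
    obtain ⟨d, hd⟩ := k1 y'
    exact s4_single (hc.mul hd) _
  · simp only [Finset.sum_apply, Pi.mul_apply]
    rw [h2 w hw J hJ, k2 w hw J hJ, Finsupp.sum, Finsupp.sum, Finset.sum_mul_sum]
    refine Finset.sum_congr rfl fun y _ => Finset.sum_congr rfl fun y' _ => ?_
    obtain ⟨d, hd⟩ := k1 y'
    rw [map_add, C.Tht_add K hJ, mul_assoc, mul_assoc, ← mul_assoc (G y' J),
      ← s4_comm hd.1 hJ, mul_assoc]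

theorem s4_const {c c' : Finset B → Op W K} (h : C.NatA K c c') : C.Equi K fun _ => c :=
  (s4_single h 0).s4_congr fun w _ J hJ => by
    rw [map_zero, C.Tht_zero K hJ, mul_one]

theorem s4_Tht (x : Lat C.n) : C.Equi K fun w J => C.Tht K J (C.gr w x) :=
  (s4_single natA_one x).s4_congr fun w _ J _ => by simp

theorem Equi.s4_smul (ha : C.Equi K a) (r : K) : C.Equi K (r • a) :=
  ((s4_const (natA_one.smul r)).s4_mul ha).s4_congr fun w _ J _ => by simp

theorem Equi.s4_shift (ha : C.Equi K a) {u : W} (hu : u ∈ C.W0) :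
    C.Equi K fun w => a (w * u) := by
  obtain ⟨F, h1, h2⟩ := ha
  refine (s4_sum F.support (fun y w J => F y J * C.Tht K J (C.gr w (C.gr u y))) fun y _ =>
      ?_).s4_congr fun w hw J hJ => ?_
  · obtain ⟨c, hc⟩ := h1 y
    exact s4_single hc _
  · simp only [Finset.sum_apply]
    rw [h2 _ (mul_mem hw hu) J hJ, Finsupp.sum]
    simp only [AD.gr_mul]

theorem Equi.s4_orbit (ha : C.Equi K a) :
    ∃ c', C.NatA K (fun J => ∑ w ∈ C.WF C.S0, a w J) c' := by
  obtain ⟨F, h1, h2⟩ := ha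
  obtain ⟨c', hc⟩ := s4_nat_sum F.support
    (fun y => F y * fun J => ∑ w ∈ C.WF C.S0, C.Tht K J (C.gr w y)) fun y _ => by
      obtain ⟨c, hc⟩ := h1 y
      exact ⟨_, hc.mul (natA_orbit y)⟩
  refine ⟨c', hc.congr fun J hJ => ?_⟩
  simp only [Finset.sum_apply, Pi.mul_apply, Finset.mul_sum]
  rw [Finset.sum_comm]
  refine Finset.sum_congr rfl fun w hw => ?_
  rw [h2 w ((C.mem_WF subset_rfl).1 hw) J hJ, Finsupp.sum]

theorem Equi.s4_L (ha : C.Equi K a) : C.EquiL K a :=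
  ⟨fun _ => a, fun _ => ha, fun _ _ _ _ => tendsto_const_nhds⟩

theorem EquiL.s4_congr (ha : C.EquiL K a) (e : ∀ w ∈ C.W0, ∀ J ⊆ C.S0, a w J = b w J) :
    C.EquiL K b := by
  obtain ⟨s, h1, h2⟩ := ha
  exact ⟨s, h1, fun w hw J hJ => e w hw J hJ ▸ h2 w hw J hJ⟩

theorem equiL_const {c c' : Finset B → Op W K} (h : C.NatA K c c') :
    C.EquiL K fun _ => c := by
  exact (s4_const h).s4_L

theorem equiL_Tht (x : Lat C.n) : C.EquiL K fun w J => C.Tht K J (C.gr w x) := by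
  exact (s4_Tht x).s4_L

theorem EquiL.add (ha : C.EquiL K a) (hb : C.EquiL K b) : C.EquiL K (a + b) := by
  obtain ⟨s, h1, h2⟩ := ha
  obtain ⟨t, k1, k2⟩ := hb
  exact ⟨s + t, fun i => (h1 i).s4_add (k1 i), fun w hw J hJ =>
    (h2 w hw J hJ).add (k2 w hw J hJ)⟩

theorem EquiL.mul (ha : C.EquiL K a) (hb : C.EquiL K b) : C.EquiL K (a * b) := by
  obtain ⟨s, h1, h2⟩ := ha
  obtain ⟨t, k1, k2⟩ := hb
  exact ⟨s * t, fun i => (h1 i).s4_mul (k1 i), fun w hw J hJ =>
    (h2 w hw J hJ).mul (k2 w hw J hJ)⟩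

theorem EquiL.smul (ha : C.EquiL K a) (r : K) : C.EquiL K (r • a) := by
  obtain ⟨s, h1, h2⟩ := ha
  exact ⟨r • s, fun i => (h1 i).s4_smul r, fun w hw J hJ => (h2 w hw J hJ).const_smul r⟩

theorem EquiL.shift (ha : C.EquiL K a) {u : W} (hu : u ∈ C.W0) :
    C.EquiL K fun w => a (w * u) := by
  obtain ⟨s, h1, h2⟩ := ha
  exact ⟨fun i w => s i (w * u), fun i => (h1 i).s4_shift hu, fun w hw J hJ =>
    h2 _ (mul_mem hw hu) J hJ⟩

theorem EquiL.sum (ha : C.EquiL K a) :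
    ∃ c', C.NatA K (fun J => ∑ w ∈ C.WF C.S0, a w J) c' := by
  obtain ⟨s, h1, h2⟩ := ha
  exact natA_lim (a := fun i J => ∑ w ∈ C.WF C.S0, s i w J) (fun i => (h1 i).s4_orbit)
    fun J hJ => tendsto_finsetSum _ fun w hw => h2 w ((C.mem_WF subset_rfl).1 hw) J hJ

theorem EquiL.inv (ha : C.EquiL K a) {c : Finset B → Op W K}
    (hc : ∀ w ∈ C.W0, ∀ J ⊆ C.S0, a w J = c J) : ∃ c', C.NatA K c c' := by
  obtain ⟨c', h⟩ := ha.sum
  refine ⟨_, (h.smul (C.Mo : K)⁻¹).congr fun J hJ => ?_⟩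
  have := charZeroK (K := K)
  have h0 : (C.Mo : K) ≠ 0 := Nat.cast_ne_zero.2 C.Mo_pos.ne'
  rw [Pi.smul_apply, Finset.sum_congr rfl fun w hw => hc w ((C.mem_WF subset_rfl).1 hw) J hJ,
    Finset.sum_const, ← Nat.cast_smul_eq_nsmul K, smul_smul]
  change ((C.Mo : K)⁻¹ * (C.Mo : K)) • c J = c J
  rw [inv_mul_cancel₀ h0, one_smul]

theorem s4_hom {J : Finset B} (hJ : J ⊆ C.S0) : ∃ Φ : LA Rq C.n →+* Op W K,
    (∀ f, Φ f = C.Lop K J (C.Th f)) ∧
      ∀ r : Rq, Φ (algebraMap Rq _ r) = algebraMap K _ (algebraMap Rq K r) := by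
  obtain ⟨Λ, h1, h2⟩ := C.exists_Lhom K hJ
  refine ⟨Λ.comp (C.Th.codRestrict (C.HJ J) (C.Th_mem_HJ J)).toRingHom, fun f => h1 _,
    fun r => ?_⟩
  rw [← h2 r]
  exact congrArg Λ ((C.Th.codRestrict (C.HJ J) (C.Th_mem_HJ J)).commutes r)

theorem s4_act (f : LA Rq C.n) : C.Equi K fun w J => C.Lop K J (C.Th (C.act w f)) := by
  induction f using AddMonoidAlgebra.induction_on with
  | of x =>
    refine (s4_Tht x).s4_congr fun w _ J _ => ?_
    change _ = C.Lop K J (C.Th (C.act w (mon x)))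
    rw [act_mon, Th_mon]
    rfl
  | add f g hf hg =>
    refine (hf.s4_add hg).s4_congr fun w _ J hJ => ?_
    rw [map_add, map_add, C.Lop_add K hJ (C.Th_mem_HJ J _) (C.Th_mem_HJ J _)]
    rfl
  | smul r f hf =>
    refine (hf.s4_smul (algebraMap Rq K r)).s4_congr fun w _ J hJ => ?_
    rw [map_smul, map_smul, C.Lop_smul K hJ _ (C.Th_mem_HJ J _)]
    rfl

variable (C) in
/-- the factor `l - θ_{u y}` -/
noncomputable def s4L (x : Lat C.n) (k : ℤ) (u : W) : LA Rq C.n :=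
  algebraMap Rq _ (LaurentPolynomial.T (2 * k - 1)) - mon ((2 * C.Mo : ℤ) • C.gr u x)

theorem s4L_act (x : Lat C.n) (k : ℤ) (w u : W) :
    C.act w (C.s4L x k u) = C.s4L x k (w * u) := by
  rw [s4L, s4L, map_sub, AlgHom.commutes, act_mon, map_zsmul, AD.gr_mul]

theorem s4L_star (x : Lat C.n) (k : ℤ) (u : W) : cstar (C.s4L x k u) = C.s4L (-x) k u := by
  rw [s4L, s4L, map_sub, AlgHom.commutes, cstar_mon, map_neg, smul_neg]

theorem s4P_act (x : Lat C.n) (k : ℤ) {w : W} (hw : w ∈ C.W0) :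
    C.act w (∏ u ∈ C.WF C.S0, C.s4L x k u) = ∏ u ∈ C.WF C.S0, C.s4L x k u := by
  rw [map_prod]
  simp only [s4L_act]
  exact Finset.prod_equiv (Equiv.mulLeft w) (fun u => by
    rw [C.mem_WF subset_rfl, C.mem_WF subset_rfl, Equiv.coe_mulLeft]
    exact (C.W0.mul_mem_cancel_left hw).symm) fun _ _ => rfl

theorem s4P_comm (x : Lat C.n) (k : ℤ) (h : H) :
    Commute (C.Th (∏ u ∈ C.WF C.S0, C.s4L x k u)) h :=
  C.Th_central (fun _ hj => s4P_act x k (C.simple_mem_WJ hj)) h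

theorem s4P_central (x : Lat C.n) (k : ℤ) :
    C.Th (∏ u ∈ C.WF C.S0, C.s4L x k u) ∈ Subring.center H :=
  Subring.mem_center_iff.2 fun h => (s4P_comm x k h).eq.symm

theorem s4L_op {J : Finset B} (hJ : J ⊆ C.S0) (x : Lat C.n) (k : ℤ) (u : W) :
    C.Lop K J (C.Th (C.s4L x k u)) =
      algebraMap K (Op W K) (qK K ^ (2 * k - 1)) - C.Tht K J ((2 * C.Mo : ℤ) • C.gr u x) := by
  obtain ⟨Φ, h1, h2⟩ := s4_hom (K := K) hJ
  rw [← h1, s4L, map_sub, h2, algebraMap_T, h1, Th_mon]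
  rfl

theorem s4P_unit {J : Finset B} (hJ : J ⊆ C.S0) (x : Lat C.n) (k : ℤ) :
    IsUnit (C.Lop K J (C.Th (∏ u ∈ C.WF C.S0, C.s4L x k u))) := by
  obtain ⟨Φ, h1, _⟩ := s4_hom (K := K) hJ
  rw [← h1]
  refine Finset.prod_induction _ (fun f => IsUnit (Φ f)) (fun f g hf hg => ?_) ?_ fun u _ => ?_
  · rw [map_mul]
    exact hf.mul hg
  · rw [map_one]
    exact isUnit_one
  · rw [h1, s4L_op hJ]
    exact (etaL_spec hJ _ k).1

theorem s4P_nat (x : Lat C.n) (k : ℤ) :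
    C.Nat K fun J => C.Lop K J (C.Th (∏ u ∈ C.WF C.S0, C.s4L x k u)) := by
  intro J hJ J' hJ' F hF
  beta_reduce
  rw [C.Lop_central K hJ (s4P_central x k) (C.Th_mem_HJ J _),
    C.Lop_central K hJ' (s4P_central x k) (C.Th_mem_HJ J' _)]
  exact hF _ (s4P_central x k)

theorem s4P_natA (x : Lat C.n) (k : ℤ) :
    C.NatA K (fun J => C.Lop K J (C.Th (∏ u ∈ C.WF C.S0, C.s4L x k u)))
      fun J => C.Lop K J (C.Th (∏ u ∈ C.WF C.S0, C.s4L (-x) k u)) := by
  refine ⟨s4P_nat x k, s4P_nat (-x) k, fun J hJ => ?_⟩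
  have := C.Rop_adj K J (C.Th (∏ u ∈ C.WF C.S0, C.s4L x k u))
  rw [C.flat_Th_central (s4P_comm x k), map_prod cstar] at this
  simp only [s4L_star] at this
  beta_reduce
  rw [C.Lop_central K hJ (s4P_central x k) (C.Th_mem_HJ J _),
    C.Lop_central K hJ (s4P_central (-x) k) (C.Th_mem_HJ J _)]
  exact this

/-- `(l - Θ_{wy})⁻¹ = P⁻¹ ∏_{w' ≠ w} (l - Θ_{w'y})` with `P = ∏_w (l - Θ_{wy})` natural; its
adjoint is the same product for `-y` (expand, or apply `EquiL.inv` and compare adjoints on the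
centre) -/
theorem equi_bet (x : Lat C.n) (k : ℤ) : C.Equi K fun w J => C.bet K J (C.gr w x) k := by
  have hP := (s4P_natA (K := K) x k).inverse fun J hJ => ⟨s4P_unit hJ x k, s4P_unit hJ (-x) k⟩
  refine (((s4_const hP).s4_mul (s4_act (∏ u ∈ (C.WF C.S0).erase 1, C.s4L x k u))).s4_smul
    (qK K ^ (2 * k - 1))).s4_congr fun w hw J hJ => ?_
  obtain ⟨Φ, h1, _⟩ := s4_hom (K := K) hJ
  have hu := s4P_unit (K := K) hJ x k
  have hA := (etaL_spec (K := K) hJ (C.gr w x) k).1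
  have e : C.Lop K J (C.Th (∏ u ∈ C.WF C.S0, C.s4L x k u)) =
      C.Lop K J (C.Th (C.act w (∏ u ∈ (C.WF C.S0).erase 1, C.s4L x k u))) *
      (algebraMap K (Op W K) (qK K ^ (2 * k - 1)) - C.Tht K J ((2 * C.Mo : ℤ) • C.gr w x)) := by
    rw [← s4L_op hJ, ← h1, ← h1, ← h1, ← map_mul, ← s4P_act x k hw,
      ← Finset.prod_erase_mul _ _ ((C.mem_WF subset_rfl).2 (one_mem _)), map_mul, s4L_act,
      mul_one]
  simp only [Pi.smul_apply, Pi.mul_apply, bet]
  congr 1
  rw [← mul_one (Ring.inverse _ * _), ← Ring.mul_inverse_cancel _ hA, ← mul_assoc,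
    mul_assoc (Ring.inverse _), ← e, Ring.inverse_mul_cancel _ hu, one_mul]

theorem s4_newt (ha : C.Equi K a) (n : ℕ) : C.Equi K fun w J => newt (a w J) n := by
  induction n with
  | zero => exact ha
  | succ n ih =>
    refine (((ih.s4_mul ih).s4_smul 3).s4_add
      (((ih.s4_mul ih).s4_mul ih).s4_smul (-2))).s4_congr fun w _ J _ => ?_
    simp only [Pi.add_apply, Pi.smul_apply, Pi.mul_apply, newt]
    rw [Algebra.smul_def, Algebra.smul_def, map_neg, map_ofNat, map_ofNat]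
    noncomm_ring

theorem s4_etaL (x : Lat C.n) (k : ℤ) : C.EquiL K fun w J => C.etaL K J (C.gr w x) k :=
  ⟨fun n w J => newt (C.bet K J (C.gr w x) k) n, s4_newt (equi_bet x k),
    fun _ _ _ hJ => (etaL_spec hJ _ k).2.1⟩

theorem equiL_eta (x : Lat C.n) (k : ℤ) : C.EquiL K fun w J => C.eta K J (C.gr w x) k := by
  refine ((s4_etaL x (k + 1)).add ((s4_etaL x k).smul (-1))).s4_congr fun w _ J _ => ?_
  simp only [Pi.add_apply, Pi.neg_apply, eta, neg_smul, one_smul, sub_eq_add_neg]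

/-- the product of the linear factors -/
noncomputable def s4Q (a : W → Finset B → Op W K) (L : List W) (w : W) (J : Finset B) :
    Polynomial (Op W K) :=
  (L.map fun u => Polynomial.X - Polynomial.C (a (w * u) J)).prod

theorem s4Q_zero (u : W) (L : List W) (w : W) (J : Finset B) :
    (s4Q a (u :: L) w J).coeff 0 = -(a (w * u) J * (s4Q a L w J).coeff 0) := by
  simp [s4Q, sub_mul]

theorem s4Q_succ (u : W) (L : List W) (w : W) (J : Finset B) (j : ℕ) :
    (s4Q a (u :: L) w J).coeff (j + 1) =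
      (s4Q a L w J).coeff j - a (w * u) J * (s4Q a L w J).coeff (j + 1) := by
  simp [s4Q, sub_mul, Polynomial.coeff_X_mul]

theorem s4Q_nil (w : W) (J : Finset B) (j : ℕ) :
    (s4Q a [] w J).coeff j = if j = 0 then 1 else 0 := by
  simp [s4Q, Polynomial.coeff_one]

theorem s4Q_equi (ha : C.EquiL K a) (L : List W) (hL : ∀ u ∈ L, u ∈ C.W0) (j : ℕ) :
    C.EquiL K fun w J => (s4Q a L w J).coeff j := by
  induction L generalizing j with
  | nil =>
    simp only [s4Q_nil]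
    split_ifs
    · exact equiL_const natA_one
    · exact s4_zero.s4_L
  | cons u L ih =>
    have hu := ha.shift (hL u List.mem_cons_self)
    have ih' := ih fun v hv => hL v (List.mem_cons_of_mem _ hv)
    cases j with
    | zero =>
      refine ((hu.mul (ih' 0)).smul (-1)).s4_congr fun w _ J _ => ?_
      simp [s4Q_zero]
    | succ j =>
      refine ((ih' j).add ((hu.mul (ih' (j + 1))).smul (-1))).s4_congr fun w _ J _ => ?_
      simp [s4Q_succ, sub_eq_add_neg]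

theorem s4Q_top (L : List W) (w : W) (J : Finset B) :
    (s4Q a L w J).coeff L.length = 1 ∧ ∀ j, L.length < j → (s4Q a L w J).coeff j = 0 := by
  induction L with
  | nil => exact ⟨by simp [s4Q_nil], fun j hj => by rw [s4Q_nil, if_neg (by simpa using hj.ne')]⟩
  | cons u L ih =>
    refine ⟨by rw [List.length_cons, s4Q_succ, ih.1, ih.2 _ (Nat.lt_succ_self _)]; simp,
      fun j hj => ?_⟩
    obtain ⟨j, rfl⟩ : ∃ i, j = i + 1 := ⟨j - 1, by rw [List.length_cons] at hj; omega⟩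
    rw [List.length_cons] at hj
    rw [s4Q_succ, ih.2 _ (by omega), ih.2 _ (by omega)]
    simp

theorem s4Q_pt {J : Finset B} {w : W} (L : List W)
    (hL : ∀ u ∈ L, a (w * u) J ∈ C.AJ K J 1 ∧ ∀ p : Pt (C.AJ K J 1), p.p (a (w * u) J) ≤ 1)
    (j : ℕ) : (s4Q a L w J).coeff j ∈ C.AJ K J 1 ∧
      ∀ p : Pt (C.AJ K J 1), p.p ((s4Q a L w J).coeff j) ≤ 1 := by
  induction L generalizing j with
  | nil =>
    rw [s4Q_nil]
    split_ifs
    · exact ⟨one_mem _, fun p => p.one.le⟩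
    · exact ⟨zero_mem _, fun p => p.zero.trans_le zero_le_one⟩
  | cons u L ih =>
    have hu := hL u List.mem_cons_self
    have ih' := ih fun v hv => hL v (List.mem_cons_of_mem _ hv)
    have hm : ∀ i, ∀ p : Pt (C.AJ K J 1), p.p (a (w * u) J * (s4Q a L w J).coeff i) ≤ 1 :=
      fun i p => by
        rw [p.mul _ hu.1 _ (ih' i).1]
        exact mul_le_one₀ (hu.2 p) (p.nonneg _ (ih' i).1) ((ih' i).2 p)
    cases j with
    | zero =>
      rw [s4Q_zero]
      exact ⟨neg_mem (mul_mem hu.1 (ih' 0).1), fun p => by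
        rw [p.neg (mul_mem hu.1 (ih' 0).1)]
        exact hm 0 p⟩
    | succ j =>
      rw [s4Q_succ]
      exact ⟨sub_mem (ih' j).1 (mul_mem hu.1 (ih' _).1), fun p =>
        (p.sub_le (ih' j).1 (mul_mem hu.1 (ih' _).1)).trans (max_le ((ih' j).2 p) (hm _ p))⟩

theorem s4_perm {J : Finset B} (hJ : J ⊆ C.S0) (hm : ∀ w ∈ C.W0, a w J ∈ C.AJ K J 1)
    {L L' : List W} (h : L.Perm L') (hL : ∀ u ∈ L, u ∈ C.W0) :
    (L.map fun u => Polynomial.X - Polynomial.C (a u J)).prod =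
      (L'.map fun u => Polynomial.X - Polynomial.C (a u J)).prod := by
  refine (h.map _).prod_eq' (List.pairwise_of_forall_mem_list ?_)
  intro f hf g hg
  obtain ⟨u, hu, rfl⟩ := List.mem_map.1 hf
  obtain ⟨v, hv, rfl⟩ := List.mem_map.1 hg
  have hc : Commute (a u J) (a v J) := (spec_AJ1 hJ).comm _ (hm u (hL u hu)) _ (hm v (hL v hv))
  exact ((Polynomial.commute_X _).sub_right (Polynomial.commute_X _)).sub_left
    ((Polynomial.commute_X _).symm.sub_right (hc.map Polynomial.C))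

/-- Cayley-Hamilton: the coefficients of `∏_u (T - a u)` are invariant, so natural -/
theorem EquiL.charpoly (ha : C.EquiL K a) (hm : ∀ w ∈ C.W0, ∀ J ⊆ C.S0, a w J ∈ C.AJ K J 1 ∧
      ∀ p : Pt (C.AJ K J 1), p.p (a w J) ≤ 1) :
    ∃ c : ℕ → Finset B → Op W K, (∀ j, C.Nat1 K (c j)) ∧ ∀ w ∈ C.W0, ∀ J ⊆ C.S0,
      a w J ^ C.Mo = ∑ j ∈ Finset.range C.Mo, c j J * a w J ^ j := by
  have hL : ∀ u ∈ (C.WF C.S0).toList, u ∈ C.W0 := fun u hu =>
    (C.mem_WF subset_rfl).1 (Finset.mem_toList.1 hu)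
  have hinv : ∀ w ∈ C.W0, ∀ J ⊆ C.S0,
      s4Q a (C.WF C.S0).toList w J = s4Q a (C.WF C.S0).toList 1 J := by
    intro w hw J hJ
    have hp : ((C.WF C.S0).toList.map fun u => w * u).Perm (C.WF C.S0).toList := by
      refine (List.perm_ext_iff_of_nodup ((Finset.nodup_toList _).map (mul_right_injective w))
        (Finset.nodup_toList _)).2 fun v => ?_
      rw [List.mem_map]
      constructor
      · rintro ⟨u, hu, rfl⟩
        exact Finset.mem_toList.2 ((C.mem_WF subset_rfl).2 (mul_mem hw (hL u hu)))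
      · intro hv
        exact ⟨w⁻¹ * v, Finset.mem_toList.2 ((C.mem_WF subset_rfl).2
          (mul_mem (inv_mem hw) (hL v hv))), mul_inv_cancel_left _ _⟩
    have := s4_perm hJ (fun u hu => (hm u hu J hJ).1) hp.symm hL
    rw [List.map_map] at this
    simp only [s4Q, one_mul]
    exact this.symm
  refine ⟨fun j => -fun J => (s4Q a (C.WF C.S0).toList 1 J).coeff j, fun j => ?_,
    fun w hw J hJ => ?_⟩
  · obtain ⟨c', hc⟩ := (s4Q_equi ha _ hL j).inv
      (c := fun J => (s4Q a (C.WF C.S0).toList 1 J).coeff j) fun w hw J hJ => by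
        rw [hinv w hw J hJ]
    exact (hc.nat1 fun J hJ => (s4Q_pt _ (fun u hu =>
      hm _ (mul_mem (one_mem _) (hL u hu)) J hJ) j).2).neg
  · have hw' : w ∈ (C.WF C.S0).toList := Finset.mem_toList.2 ((C.mem_WF subset_rfl).2 hw)
    have hp : (C.WF C.S0).toList.Perm ((C.WF C.S0).toList.erase w ++ [w]) :=
      (List.perm_cons_erase hw').trans (List.perm_append_singleton _ _).symm
    have e := s4_perm hJ (fun u hu => (hm u hu J hJ).1) hp hL
    have h0 : (s4Q a (C.WF C.S0).toList 1 J).eval (a w J) = 0 := by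
      simp only [s4Q, one_mul]
      rw [e, List.map_append, List.prod_append, List.map_singleton, List.prod_singleton,
        Polynomial.eval_mul_X_sub_C]
    have ht := s4Q_top (a := a) (C.WF C.S0).toList 1 J
    rw [Finset.length_toList] at ht
    have hd : (s4Q a (C.WF C.S0).toList 1 J).natDegree < C.Mo + 1 :=
      Nat.lt_succ_of_le (Polynomial.natDegree_le_iff_coeff_eq_zero.2 ht.2)
    rw [Polynomial.eval_eq_sum_range' hd, Finset.sum_range_succ] at h0
    have h1 : (s4Q a (C.WF C.S0).toList 1 J).coeff C.Mo = 1 := ht.1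
    rw [h1, one_mul] at h0
    simp only [Pi.neg_apply, neg_mul, Finset.sum_neg_distrib]
    exact eq_neg_of_add_eq_zero_right h0

end HC

end Pool.Agent.P.MP_74db7f_al
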