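import Pool.Agent.P.MP_74db7f_al.F.S4

/-! S5: the recurrences (Rec), the contraction `ι^I_J` (Con), transitivity (paper, section 4). -/

namespace Pool.Agent.P.MP_74db7f_al

open scoped Classical Topology
open Filter

set_option linter.unusedSectionVars false

/-- pure algebra: powers of `U η` act on `U ^ n η` by shifting -/
theorem s5_pow_mul {A : Type*} [Ring A] {U η : A} (hc : Commute U η) (hi : η * η = η)
    (j n : ℕ) : (U * η) ^ j * (U ^ n * η) = U ^ (j + n) * η := by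
  induction j with
  | zero => simp
  | succ j ih =>
    rw [pow_succ', mul_assoc, ih, mul_assoc, ← mul_assoc η, ← (hc.pow_left (j + n)).eq,
      mul_assoc, hi, ← mul_assoc, ← pow_succ']
    congr 2
    omega

theorem s5_pow_mul_inv {A : Type*} [Ring A] {U V η : A} (hc : Commute U η) (hi : η * η = η)
    (hVU : V * U = 1) (j n : ℕ) : (V * η) ^ j * (U ^ (j + n) * η) = U ^ n * η := by
  induction j with
  | zero => simp
  | succ j ih =>
    have e : j + 1 + n = (j + n) + 1 := by omega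
    rw [pow_succ, mul_assoc, e, mul_assoc V, ← mul_assoc η, ← (hc.pow_left (j + n + 1)).eq,
      mul_assoc, hi, pow_succ', mul_assoc U, ← mul_assoc V, hVU, one_mul, ih]

theorem s5_pt_sum {K : Type*} [NontriviallyNormedField K] {𝔅 : Type*} [NormedRing 𝔅]
    [NormedAlgebra K 𝔅] [CompleteSpace 𝔅] [IsUltrametricDist 𝔅] [NormOneClass 𝔅]
    {𝒜 : Subalgebra K 𝔅} (p : Pt 𝒜) {ι : Type*} (s : Finset ι) (a : ι → 𝔅)
    (ha : ∀ i ∈ s, a i ∈ 𝒜) (hp : ∀ i ∈ s, p.p (a i) ≤ 1) : p.p (∑ i ∈ s, a i) ≤ 1 := by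
  induction s using Finset.induction_on with
  | empty => rw [Finset.sum_empty, p.zero]; exact zero_le_one
  | insert i s hi ih =>
    rw [Finset.sum_insert hi]
    have h1 := ih (fun j hj => ha j (Finset.mem_insert_of_mem hj))
      (fun j hj => hp j (Finset.mem_insert_of_mem hj))
    refine (p.add _ (ha i (Finset.mem_insert_self _ _)) _
      (𝒜.sum_mem fun j hj => ha j (Finset.mem_insert_of_mem hj))).trans ?_
    exact max_le (hp i (Finset.mem_insert_self _ _)) h1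

theorem s5_norm_sum {E : Type*} [NormedAddCommGroup E] [IsUltrametricDist E] {ι : Type*}
    (s : Finset ι) (a : ι → E) {c : ℝ} (hc : 0 ≤ c) (h : ∀ i ∈ s, ‖a i‖ ≤ c) :
    ‖∑ i ∈ s, a i‖ ≤ c :=
  IsUltrametricDist.norm_sum_le_of_forall_le_of_nonneg hc h

namespace HC

variable {B W H : Type*} [Group W] {M : CoxeterMatrix B} {cs : CoxeterSystem M W} [Ring H]
  [Algebra Rq H] (C : HC cs H) (K : Type*) [NontriviallyNormedField K] [CompleteSpace K]
  [IsUltrametricDist K] [Algebra Rq K] [GoodK K]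

/-- `q^{-k} Θ_{Mx}` -/
noncomputable def s5U (J : Finset B) (x : Lat C.n) (k : ℤ) : Op W K :=
  qK K ^ (-k) • C.Tht K J ((C.Mo : ℤ) • x)

/-- `q^k Θ_{-Mx}` -/
noncomputable def s5V (J : Finset B) (x : Lat C.n) (k : ℤ) : Op W K :=
  qK K ^ k • C.Tht K J (-((C.Mo : ℤ) • x))

theorem s5_phi (J : Finset B) (x : Lat C.n) (k : ℤ) (j : ℕ) :
    C.phi K J x k j = C.s5U K J x k ^ j * C.eta K J x k := rfl

theorem s5U_mem (J : Finset B) (x : Lat C.n) (k : ℤ) : C.s5U K J x k ∈ C.AJ K J 1 :=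
  Subalgebra.smul_mem _ (Tht_mem _) _

theorem s5V_mem (J : Finset B) (x : Lat C.n) (k : ℤ) : C.s5V K J x k ∈ C.AJ K J 1 :=
  Subalgebra.smul_mem _ (Tht_mem _) _

theorem s5_VU {J : Finset B} (hJ : J ⊆ C.S0) (x : Lat C.n) (k : ℤ) :
    C.s5V K J x k * C.s5U K J x k = 1 := by
  unfold s5V s5U
  rw [smul_mul_smul_comm, ← C.Tht_add K hJ, neg_add_cancel, C.Tht_zero K hJ,
    ← zpow_add₀ qK_ne_zero, add_neg_cancel, zpow_zero, one_smul]

theorem s5_comm {J : Finset B} (hJ : J ⊆ C.S0) (x : Lat C.n) (k : ℤ) :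
    Commute (C.s5U K J x k) (C.eta K J x k) :=
  (spec_AJ1 hJ).comm _ (C.s5U_mem K J x k) _ (eta_mem hJ x k)

theorem s5_ptU {J : Finset B} (x : Lat C.n) (k : ℤ) (p : Pt (C.AJ K J 1))
    (h : p.p (C.Tht K J ((C.Mo : ℤ) • x)) = ‖qK K‖ ^ k) : p.p (C.s5U K J x k) = 1 := by
  unfold s5U
  have hq : ‖qK K‖ ≠ 0 := norm_ne_zero_iff.2 qK_ne_zero
  rw [p.smul _ (Tht_mem _), h, norm_zpow, ← zpow_add₀ hq, neg_add_cancel, zpow_zero]

theorem s5_pt_phi {J : Finset B} (hJ : J ⊆ C.S0) (x : Lat C.n) (k : ℤ) (j : ℕ)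
    (p : Pt (C.AJ K J 1)) : p.p (C.phi K J x k j) ≤ 1 := by
  rw [s5_phi, p.mul _ (Subalgebra.pow_mem _ (C.s5U_mem K J x k) j) _ (eta_mem hJ x k),
    pt_eta hJ, p.pow (C.s5U_mem K J x k)]
  split_ifs with h
  · rw [C.s5_ptU K x k p h]; simp
  · simp

theorem s5_pt_psi {J : Finset B} (hJ : J ⊆ C.S0) (x : Lat C.n) (k : ℤ)
    (p : Pt (C.AJ K J 1)) : p.p (C.s5V K J x k * C.eta K J x k) ≤ 1 := by
  rw [p.mul _ (C.s5V_mem K J x k) _ (eta_mem hJ x k), pt_eta hJ]
  split_ifs with h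
  · have h1 := p.mul _ (C.s5V_mem K J x k) _ (C.s5U_mem K J x k)
    rw [C.s5_VU K hJ, p.one, C.s5_ptU K x k p h] at h1
    exact h1.ge
  · simp

theorem s5_equiL_U (x : Lat C.n) (k : ℤ) : C.EquiL K fun w J => C.s5U K J (C.gr w x) k := by
  have h := (equiL_Tht (C := C) (K := K) ((C.Mo : ℤ) • x)).smul (qK K ^ (-k))
  convert h using 3 with w J
  simp only [s5U, Pi.smul_apply, map_zsmul]

theorem s5_equiL_V (x : Lat C.n) (k : ℤ) : C.EquiL K fun w J => C.s5V K J (C.gr w x) k := by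
  have h := (equiL_Tht (C := C) (K := K) (-((C.Mo : ℤ) • x))).smul (qK K ^ k)
  convert h using 3 with w J
  simp only [s5V, Pi.smul_apply, map_zsmul, map_neg]

theorem s5_equiL_phi (x : Lat C.n) (k : ℤ) (n : ℕ) :
    C.EquiL K fun w J => C.phi K J (C.gr w x) k n := by
  induction n with
  | zero =>
    convert equiL_eta (C := C) (K := K) x k using 3 with w J
    rw [s5_phi, pow_zero, one_mul]
  | succ n ih =>
    convert (C.s5_equiL_U K x k).mul ih using 3 with w J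
    simp only [Pi.mul_apply, s5_phi]
    rw [pow_succ', mul_assoc]

/-- the backward recurrence -/
theorem s5_back (x : Lat C.n) (k : ℤ) : ∃ d : ℕ → Finset B → Op W K,
    (∀ j, C.Nat1 K (d j)) ∧ ∀ w ∈ C.W0, ∀ J ⊆ C.S0, ∀ m, C.phi K J (C.gr w x) k m =
      ∑ j ∈ Finset.range C.Mo, d j J * C.phi K J (C.gr w x) k (m + 1 + j) := by
  obtain ⟨c, hc, hrec⟩ := ((C.s5_equiL_V K x k).mul (equiL_eta x k)).charpoly
    (fun w _ J hJ => ⟨Subalgebra.mul_mem _ (C.s5V_mem K J _ k) (eta_mem hJ _ k),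
      fun p => C.s5_pt_psi K hJ _ k p⟩)
  refine ⟨fun j => c (C.Mo - 1 - j), fun j => hc _, fun w hw J hJ m => ?_⟩
  have h := hrec w hw J hJ
  simp only [Pi.mul_apply] at h
  have hcm := C.s5_comm K hJ (C.gr w x) k
  have hi := eta_idem (K := K) hJ (C.gr w x) k
  have hVU := C.s5_VU K hJ (C.gr w x) k
  rw [s5_phi, ← s5_pow_mul_inv hcm hi hVU C.Mo m, h, Finset.sum_mul,
    ← Finset.sum_range_reflect]
  refine Finset.sum_congr rfl fun j hj => ?_
  have hj' := Finset.mem_range.1 hj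
  have e : C.Mo + m = (C.Mo - 1 - j) + (m + 1 + j) := by omega
  rw [mul_assoc, e, s5_pow_mul_inv hcm hi hVU, s5_phi]

/-- (Rec): `charpoly` for `ψ_w = q^k Θ_{-Mwx} η`, multiply by `φ_w^{M+n}`, iterate -/
theorem rec_eta (x : Lat C.n) (k : ℤ) (n : ℕ) : ∃ c : ℕ → Finset B → Op W K,
    (∀ j, C.Nat1 K (c j)) ∧ ∀ w ∈ C.W0, ∀ J ⊆ C.S0, C.eta K J (C.gr w x) k =
      ∑ j ∈ Finset.range C.Mo, c j J * C.phi K J (C.gr w x) k (n + j) := by
  obtain ⟨d, hd, hback⟩ := C.s5_back K x k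
  obtain ⟨M', hM⟩ : ∃ M', C.Mo = M' + 1 := ⟨C.Mo - 1, by have := C.Mo_pos; omega⟩
  induction n with
  | zero =>
    refine ⟨fun j => if j = 0 then 1 else 0, fun j => ?_, fun w _ J _ => ?_⟩
    · beta_reduce
      split_ifs
      · exact nat1_one
      · exact nat1_zero
    · rw [hM, Finset.sum_range_succ']
      simp [s5_phi]
  | succ n ih =>
    obtain ⟨c, hc, h⟩ := ih
    refine ⟨fun j => c 0 * d j + if j < M' then c (j + 1) else 0, fun j => ?_,
      fun w hw J hJ => ?_⟩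
    · refine ((hc 0).mul (hd j)).add ?_
      split_ifs
      · exact hc _
      · exact nat1_zero
    · have h1 := h w hw J hJ
      have h2 := hback w hw J hJ n
      rw [hM] at h1 h2 ⊢
      rw [Finset.sum_range_succ', add_zero, h2, Finset.mul_sum] at h1
      simp only [Pi.add_apply, Pi.mul_apply, add_mul, Finset.sum_add_distrib, mul_assoc]
      rw [h1, add_comm]
      congr 1
      rw [Finset.sum_range_succ, if_neg (lt_irrefl _), Pi.zero_apply, zero_mul, add_zero]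
      refine Finset.sum_congr rfl fun j hj => ?_
      rw [if_pos (Finset.mem_range.1 hj)]
      congr 2
      omega

theorem phi_bdd {J : Finset B} (hJ : J ⊆ C.S0) (x : Lat C.n) (k : ℤ) :
    ∃ A : ℝ, ∀ n, ‖C.phi K J x k n‖ ≤ A := by
  obtain ⟨c, hc, hrec⟩ := (C.s5_equiL_phi K x k 1).charpoly
    (fun w _ J hJ => ⟨phi_mem hJ _ k 1, fun p => C.s5_pt_phi K hJ _ k 1 p⟩)
  have h := hrec 1 C.W0.one_mem J hJ
  simp only [map_one, LinearEquiv.coe_one, id_eq, s5_phi, pow_one] at h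
  have hcm := C.s5_comm K hJ x k
  have hi := eta_idem (K := K) hJ x k
  have hA : 0 ≤ ∑ j ∈ Finset.range C.Mo, ‖C.phi K J x k j‖ :=
    Finset.sum_nonneg fun _ _ => norm_nonneg _
  refine ⟨∑ j ∈ Finset.range C.Mo, ‖C.phi K J x k j‖, fun n => ?_⟩
  induction n using Nat.strong_induction_on with
  | _ n ih =>
    by_cases hn : n < C.Mo
    · exact Finset.single_le_sum (f := fun j => ‖C.phi K J x k j‖)
        (fun _ _ => norm_nonneg _) (Finset.mem_range.2 hn)
    · obtain ⟨m, rfl⟩ : ∃ m, n = C.Mo + m := ⟨n - C.Mo, by omega⟩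
      rw [s5_phi, ← s5_pow_mul hcm hi, h, Finset.sum_mul]
      refine s5_norm_sum _ _ hA fun j hj => ?_
      have hj' := Finset.mem_range.1 hj
      obtain ⟨c', -, hn1⟩ := hc j
      rw [mul_assoc, s5_pow_mul hcm hi, ← s5_phi]
      refine (norm_mul_le _ _).trans ?_
      have := ih (j + m) (by omega)
      calc ‖c j J‖ * ‖C.phi K J x k (j + m)‖ ≤ 1 * ‖C.phi K J x k (j + m)‖ :=
            mul_le_mul_of_nonneg_right (hn1 J hJ).1 (norm_nonneg _)
        _ ≤ _ := by rwa [one_mul]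

theorem nat1_psum (x : Lat C.n) (k : ℤ) (n : ℕ) :
    C.Nat1 K fun J => ∑ w ∈ C.WF C.S0, C.phi K J (C.gr w x) k n := by
  obtain ⟨c', hc'⟩ := (C.s5_equiL_phi K x k n).sum
  exact hc'.nat1 fun J hJ p => s5_pt_sum p _ _ (fun w _ => phi_mem hJ _ k n)
    fun w _ => C.s5_pt_phi K hJ _ k n p

variable {C K} {J I : Finset B} (hJI : J ⊆ I) (hI : I ⊆ C.S0)
include hJI hI

theorem s5_eventually {u : W} (hu : u ∈ C.Mn I J) (g : W) : ∀ᶠ m : ℕ in atTop,
    ‖C.Lop K I (C.Tb u) ((C.Tht K I (C.z J) ^ m * C.eps K I J) (C.kap K I (C.TJ J g)))‖ ≤ 1 := by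
  have huI : C.Tb u ∈ C.HJ I := C.Tb_mem_HJ hI ((C.mem_Mn hJI hI).1 hu).1
  have h0 : Tendsto (fun m : ℕ => C.Lop K I (C.Tb u)
      ((C.Tht K I (C.z J) ^ m * (1 - C.eps K I J)) (C.kap K I (C.TJ J g)))) atTop (𝓝 0) := by
    have h1 := ((ContinuousLinearMap.apply K (C0 W K) (C.kap K I (C.TJ J g))).continuous.tendsto
      0).comp (eps_tendsto (K := K) hJI hI)
    have h2 := ((C.Lop K I (C.Tb u)).continuous.tendsto _).comp h1
    simpa [Function.comp_def] using h2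
  have h3 := (tendsto_norm_zero.comp h0).eventually (gt_mem_nhds (zero_lt_one' ℝ))
  filter_upwards [h3, C.deep_limit hJI hI hu g] with m hm hd
  have e : C.Tht K I (C.z J) ^ m * C.eps K I J =
      C.Tht K I (C.z J) ^ m - C.Tht K I (C.z J) ^ m * (1 - C.eps K I J) := by
    rw [mul_sub, mul_one, sub_sub_cancel]
  rw [e, sub_apply, map_sub]
  rw [sub_eq_add_neg]
  refine (IsUltrametricDist.norm_add_le_max _ _).trans (max_le ?_ (by rw [norm_neg]; exact hm.le))
  rw [← C.Tht_nsmul K hI, Tht, C.Lop_kap K hI (C.th_mem_HJ I _), C.Lop_kap K hI huI,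
    ← mul_assoc, hd, kap_TJ, C0.norm_sg]

/-- (Con) on basis vectors: `deep_limit`, `eps_tendsto`, `rec_eta` -/
theorem con_basis {u : W} (hu : u ∈ C.Mn I J) (g : W) :
    ‖C.Lop K I (C.Tb u) (C.eps K I J (C.kap K I (C.TJ J g)))‖ ≤ 1 := by
  have huI : C.Tb u ∈ C.HJ I := C.Tb_mem_HJ hI ((C.mem_Mn hJI hI).1 hu).1
  obtain ⟨n, hn⟩ := eventually_atTop.1 (s5_eventually (K := K) hJI hI hu g)
  obtain ⟨c, hc, hrec⟩ := C.rec_eta K (C.z J) 0 n
  have h := hrec 1 C.W0.one_mem I hI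
  simp only [map_one, LinearEquiv.coe_one, id_eq] at h
  have he : C.eps K I J = ∑ j ∈ Finset.range C.Mo, c j I * C.phi K I (C.z J) 0 (n + j) := h
  rw [he, sum_apply, map_sum]
  refine s5_norm_sum _ _ zero_le_one fun j _ => ?_
  obtain ⟨c', hna, hn1⟩ := hc j
  have hcm := hna.1.comm hI (F := C.Lop K I (C.Tb u)) fun z => C.Lop_Rop K hI huI z
  have e1 : C.phi K I (C.z J) 0 (n + j) = C.Tht K I (C.z J) ^ (C.Mo * (n + j)) * C.eps K I J := by
    rw [phi, neg_zero, zpow_zero, one_smul, C.Tht_nsmul K hI, ← pow_mul]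
    rfl
  have e2 : C.Lop K I (C.Tb u) ((c j I * C.phi K I (C.z J) 0 (n + j)) (C.kap K I (C.TJ J g))) =
      c j I (C.Lop K I (C.Tb u) (C.phi K I (C.z J) 0 (n + j) (C.kap K I (C.TJ J g)))) := by
    rw [mul_apply_eq_comp, ← mul_apply_eq_comp (C.Lop K I (C.Tb u)), hcm,
      mul_apply_eq_comp]
  rw [e2, e1]
  refine ((c j I).le_opNorm _).trans ?_
  have hb := hn (C.Mo * (n + j)) (by have := C.Mo_pos; nlinarith)
  exact mul_le_one₀ (hn1 I hI).1 (norm_nonneg _) hb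

theorem s5_io_sg (g : W) : C.io K I J (C0.sg g) = C.eps K I J (C.kap K I (C.TJ J g)) := by
  refine C0.lift_sg ⟨1, fun w => ?_⟩ g
  have h := con_basis (K := K) hJI hI (C.one_mem_Mn hJI hI) w
  rwa [Tb_one, C.Lop_one K hI, one_apply_eq_self] at h

theorem io_kap (h : H) : C.io K I J (C.kap K J h) = C.eps K I J (C.kap K I h) := by
  have e : ((C.io K I J).toLinearMap.restrictScalars Rq) ∘ₗ C.kap K J =
      ((C.eps K I J).toLinearMap.restrictScalars Rq) ∘ₗ C.kap K I := by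
    refine (C.bJ J).ext fun g => ?_
    simp only [LinearMap.comp_apply, LinearMap.restrictScalars_apply, bJ_apply, kap_TJ,
      ContinuousLinearMap.coe_coe]
    exact s5_io_sg hJI hI g
  exact LinearMap.congr_fun e h

theorem norm_io {u : W} (hu : u ∈ C.Mn I J) : ‖C.Lop K I (C.Tb u) * C.io K I J‖ ≤ 1 := by
  refine C0.opNorm_le zero_le_one fun g => ?_
  rw [mul_apply_eq_comp, s5_io_sg hJI hI]
  exact con_basis hJI hI hu g

theorem io_Rop (h : H) : C.io K I J * C.Rop K J h = C.Rop K I h * C.io K I J := by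
  refine C.op_ext J fun x => ?_
  rw [mul_apply_eq_comp, mul_apply_eq_comp, Rop_kap, io_kap hJI hI,
    io_kap hJI hI, ← mul_apply_eq_comp (C.Rop K I h), ← eps_Rop hI,
    mul_apply_eq_comp, Rop_kap]

theorem io_Lop {a : H} (ha : a ∈ C.HJ J) :
    C.io K I J * C.Lop K J a = C.Lop K I a * C.io K I J := by
  refine C.op_ext J fun x => ?_
  rw [mul_apply_eq_comp, mul_apply_eq_comp,
    C.Lop_kap K (hJI.trans hI) ha, io_kap hJI hI,
    io_kap hJI hI, ← mul_apply_eq_comp (C.Lop K I a), ← eps_Lop hJI hI ha,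
    mul_apply_eq_comp, C.Lop_kap K hI (C.HJ_mono hJI ha)]

theorem eps_io : C.eps K I J * C.io K I J = C.io K I J := by
  refine C.op_ext J fun x => ?_
  rw [mul_apply_eq_comp, io_kap hJI hI, ← mul_apply_eq_comp,
    eps_mul_eps hJI hI subset_rfl]

omit hJI in
theorem io_self : C.io K I I = 1 := by
  refine C.op_ext I fun x => ?_
  rw [io_kap subset_rfl hI, eps_self hI]

theorem io_trans {J' : Finset B} (h : J' ⊆ J) : C.io K I J * C.io K J J' = C.io K I J' := by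
  have hJ := hJI.trans hI
  have e : C.io K I J * C.eps K J J' = C.eps K I J' * C.io K I J :=
    eta_nat hJ hI (io_Lop hJI hI (C.th_mem_HJ J (C.z J'))) 0
  refine C.op_ext J' fun x => ?_
  rw [mul_apply_eq_comp, io_kap h hJ, ← mul_apply_eq_comp, e,
    mul_apply_eq_comp, io_kap hJI hI, ← mul_apply_eq_comp,
    eps_mul_eps hJI hI h, io_kap (h.trans hJI) hI]

theorem io_PD (δ : Lat C.n) : C.PD K I δ * C.io K I J = C.io K I J * C.PD K I δ := by
  refine C0.clm_ext fun g => ?_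
  have e : C.PD K I δ * C.eps K I J = C.eps K I J * C.PD K I δ := eta_PD hI _ 0 δ
  have e1 : C.kap K I (C.TJ J g) = C.PD K I (C.degW I g) (C.kap K I (C.TJ J g)) := by
    rw [PD_kap, C.pd_TJ_le hJI hI]
  rw [mul_apply_eq_comp, mul_apply_eq_comp, s5_io_sg hJI hI, PD_sg,
    ← mul_apply_eq_comp, e, mul_apply_eq_comp]
  split_ifs with hd
  · rw [s5_io_sg hJI hI, ← hd, ← e1]
  · rw [e1, ← mul_apply_eq_comp (C.PD K I δ), PD_mul, if_neg (Ne.symm hd)]
    simp

theorem Nat.io {c : Finset B → Op W K} (hc : C.Nat K c) {a : H} (ha : a ∈ C.HJ I) :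
    c I * (C.Lop K I a * C.io K I J) = C.Lop K I a * C.io K I J * c J := by
  refine (hc J (hJI.trans hI) I hI _ fun z _ => ?_).symm
  rw [mul_assoc, io_Rop hJI hI, ← mul_assoc, C.Lop_Rop K hI ha, mul_assoc]

end HC

end Pool.Agent.P.MP_74db7f_al
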