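import Pool.Agent.P.MP_74db7f_al.F.E2

/-! Sc1: the intertwining operators between two levels (paper, section 6). -/

namespace Pool.Agent.P.MP_74db7f_al

open scoped Classical Topology
open Filter

namespace HC

variable {B W H : Type*} [Group W] {M : CoxeterMatrix B} {cs : CoxeterSystem M W} [Ring H]
  [Algebra Rq H] (C : HC cs H) (K : Type*) [NontriviallyNormedField K] [CompleteSpace K]
  [IsUltrametricDist K] [Algebra Rq K] [GoodK K]

variable {C} {J J' : Finset B} {w : W}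

/-- boundedness: `‖ι x‖² = |⟨x, ι' ι x⟩_J|` by `uniR`, and `ι' ι ∈ H^J` is bounded -/
theorem Jop_kap (h : C.Mv J J' w) (x : H) :
    C.Jop K J J' w (C.kap K J x) = C.kap K J' (C.iotw w * x) := by
  obtain ⟨N, hN⟩ := C.exists_left_boundJ h.sub (sim_N h).mem
  refine (C.ext_kap K (J := J) (J' := J') (LinearMap.mulLeft Rq (C.iotw w)) (N := N)
    fun g => ?_).1 x
  rw [LinearMap.mulLeft_apply, ← C.norm_kap_le K]
  have h1 : (1 : ℝ) ≤ ‖qK K‖ ^ (N : ℤ) := one_le_zpow₀ GoodK.one_lt.le (Int.natCast_nonneg N)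
  have h2 : ‖C.kap K J' (C.iotw w * C.TJ J g)‖ ^ 2 ≤ ‖qK K‖ ^ (N : ℤ) := by
    rw [← C0.norm_ip_self, C.ip_kap, uniR h, C.ip_TJ, ← mul_assoc]
    exact (GoodK.deg _ _).2 (hN g g)
  exact (pow_le_pow_iff_left₀ (norm_nonneg _) (zero_le_one.trans h1) two_ne_zero).1
    (h2.trans (le_self_pow₀ h1 two_ne_zero))

theorem Jop_adj (h : C.Mv J J' w) : C0.IsAdj (C.Jop K J J' w) (C.Jop K J' J w⁻¹) := by
  refine C0.isAdj_of_sg fun g g' => ?_
  conv_lhs => rw [← C.kap_TJ K J g, ← C.kap_TJ K J' g']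
  conv_rhs => rw [← C.kap_TJ K J g, ← C.kap_TJ K J' g']
  rw [Jop_kap K h, Jop_kap K h.symm, C.ip_kap, C.ip_kap, uniR h]

theorem Jop_Rop (h : C.Mv J J' w) (x : H) :
    C.Jop K J J' w * C.Rop K J x = C.Rop K J' x * C.Jop K J J' w := by
  refine C.op_ext J fun y => ?_
  simp only [mul_apply_eq_comp, Rop_kap, Jop_kap K h, mul_assoc]

theorem Jop_sim (h : C.Mv J J' w) {a a' : H} (hs : C.Sim J J' w a a') :
    C.Jop K J J' w * C.Lop K J a = C.Lop K J' a' * C.Jop K J J' w := by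
  refine C.op_ext J fun y => ?_
  simp only [mul_apply_eq_comp]
  rw [C.Lop_kap K h.sub hs.mem, Jop_kap K h, Jop_kap K h, C.Lop_kap K h.sub' hs.mem', ← mul_assoc,
    hs.left, mul_assoc]

theorem Jop_Tht (h : C.Mv J J' w) (x : Lat C.n) :
    C.Jop K J J' w * C.Tht K J x = C.Tht K J' (C.gr w x) * C.Jop K J J' w := by
  have := Jop_sim K h (sim_Th (J := J) (J' := J') h.mem (mon x))
  rwa [C.act_mon, C.Th_mon, C.Th_mon] at this

theorem Jop_mul (h : C.Mv J J' w) :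
    C.Jop K J' J w⁻¹ * C.Jop K J J' w = C.Lop K J (C.iotw w⁻¹ * C.iotw w) := by
  refine C.op_ext J fun y => ?_
  rw [mul_apply_eq_comp, Jop_kap K h, Jop_kap K h.symm,
    C.Lop_kap K h.sub (sim_N h).mem, mul_assoc]

theorem sc1_map {𝕜 E : Type*} [NontriviallyNormedField 𝕜] [NormedAddCommGroup E] [NormedSpace 𝕜 E]
    (F : E →L[𝕜] E) {S : Set E} {N : Submodule 𝕜 E} (hN : IsClosed (N : Set E))
    (h : ∀ v ∈ S, F v ∈ N) {k : E} (hk : k ∈ (Submodule.span 𝕜 S).topologicalClosure) :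
    F k ∈ N :=
  Submodule.topologicalClosure_minimal _ (t := N.comap (F : E →ₗ[𝕜] E)) (Submodule.span_le.2 h)
    (hN.preimage F.continuous) hk

/-- `sim_Tb`, `Mv.ssub`, `eta_nat`, `eps_eq` -/
theorem Jop_KK (h : C.Mv J J' w) {k : C0 W K} (hk : k ∈ C.KK K J) :
    C.Jop K J J' w k ∈ C.KK K J' := by
  refine sc1_map (C.Jop K J J' w) KK_closed (fun v hv => ?_) hk
  obtain ⟨I, hI, u, hu, ξ, rfl⟩ := hv
  obtain ⟨I', hI', hf, hp⟩ := h.ssub hI
  have e1 := Jop_sim K h (sim_Tb h hu)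
  have e2 : C.Jop K J J' w * C.eps K J I = C.eps K J' I' * C.Jop K J J' w := by
    rw [← eps_eq hI'.subset h.sub' hf hp]
    exact eta_nat h.sub h.sub' (Jop_Tht K h (C.z I)) 0
  have e3 : C.Jop K J J' w (C.Lop K J (C.Tb u) (C.eps K J I ξ)) =
      C.Lop K J' (C.Tb (w * u * w⁻¹)) (C.eps K J' I' (C.Jop K J J' w ξ)) := by
    rw [← mul_apply_eq_comp, e1, mul_apply_eq_comp, ← mul_apply_eq_comp (C.Jop K J J' w), e2,
      mul_apply_eq_comp]
  rw [e3]
  exact Submodule.le_topologicalClosure _ (Submodule.subset_span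
    ⟨I', hI', _, (h.conj_mem hu).1, C.Jop K J J' w ξ, rfl⟩)

theorem Jop_eJ (h : C.Mv J J' w) :
    C.Jop K J J' w * C.eJ K J = C.eJ K J' * C.Jop K J J' w := by
  refine ContinuousLinearMap.ext fun ξ => ?_
  have h1 := eJ_KK h.sub' (Jop_KK K h ((eJ_spec h.sub).1 ξ))
  have h2 : C.eJ K J' (C.Jop K J J' w (C.eJ K J ξ)) = C.Jop K J J' w (C.eJ K J ξ) :=
    eJ_of_orth h.sub' fun k hk => by
      rw [Jop_adj K h]
      exact (eJ_spec h.sub).2 ξ _ (Jop_KK K h.symm hk)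
  rw [map_sub, map_sub, h2, sub_eq_zero] at h1
  exact h1.symm

variable {b : B}

/-- `eta_nat` for `x = w (z J)`, `El.neg_z`, `eta_neg`, `eps_eq` -/
theorem eps_iot (h : C.El J b J' w) :
    C.eps K (insert b J) J * C.Lop K (insert b J) (C.iotw w⁻¹) =
      C.Lop K (insert b J) (C.iotw w⁻¹) * C.eps K (insert b J) J' := by
  have hI : insert b J ⊆ C.S0 := Finset.insert_subset h.bmem h.sub
  have hm := C.iotw_mem hI (inv_mem h.memK)
  have e : C.Lop K (insert b J) (C.iotw w⁻¹) * C.Tht K (insert b J) (-C.gr w (C.z J)) =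
      C.Tht K (insert b J) (-C.z J) * C.Lop K (insert b J) (C.iotw w⁻¹) := by
    have := C.iotw_mul_Th (inv_mem h.mem) (mon (-C.gr w (C.z J)))
    rw [C.act_mon, C.Th_mon, C.Th_mon, map_neg, ← LinearEquiv.mul_apply, ← map_mul,
      inv_mul_cancel, map_one, LinearEquiv.coe_one, id] at this
    rw [Tht, Tht, ← C.Lop_mul K hI hm (C.th_mem_HJ _ _), ← C.Lop_mul K hI (C.th_mem_HJ _ _) hm,
      this]
  have e2 := eta_nat hI hI e 0
  rw [eps_eq h.subK hI (x := -C.gr w (C.z J))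
    (fun j hj => by rw [map_neg, h.toMv.fix (C.fix_z h.sub) j hj, neg_zero])
    (fun i hi hi' => by rw [map_neg]; exact neg_pos.2 (h.neg_z i hi hi')),
    eta_neg hI (C.z J)] at e2
  exact e2.symm

/-- evaluate on `kap J x`; `cmp_HJ`, `eps_Lop` -/
theorem io_scat0 (h : C.El J b J' w) :
    C.io K (insert b J) J * C.Lop K J (C.iotw w⁻¹ * C.iotw w) =
      ∑ u ∈ C.Mn (insert b J) J', C.Lop K (insert b J) (C.Tb u) * C.io K (insert b J) J' *
        (C.Lop K J' (C.cmp J' (C.iotw w⁻¹) u) * C.Jop K J J' w) := by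
  have hI : insert b J ⊆ C.S0 := Finset.insert_subset h.bmem h.sub
  have hm := C.iotw_mem hI (inv_mem h.memK)
  have hc := fun u => (C.cmp_spec h.sub' (C.iotw w⁻¹)).1 u
  have hT : ∀ u ∈ C.Mn (insert b J) J', C.Tb u ∈ C.HJ (insert b J) := fun u hu =>
    C.Tb_mem_HJ hI ((C.mem_Mn h.subK hI).1 hu).1
  have e : C.Lop K (insert b J) (C.iotw w⁻¹) = ∑ u ∈ C.Mn (insert b J) J',
      C.Lop K (insert b J) (C.Tb u) * C.Lop K (insert b J) (C.cmp J' (C.iotw w⁻¹) u) := by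
    refine C.op_ext (insert b J) fun y => ?_
    rw [C.Lop_kap K hI hm, sum_apply]
    conv_lhs => rw [(C.cmp_HJ h.subK hI hm).1, Finset.sum_mul, map_sum]
    refine Finset.sum_congr rfl fun u hu => ?_
    rw [mul_apply_eq_comp, C.Lop_kap K hI (C.HJ_mono h.subK (hc u)),
      C.Lop_kap K hI (hT u hu), mul_assoc]
  refine C.op_ext J fun y => ?_
  rw [mul_apply_eq_comp, C.Lop_kap K h.sub (sim_N h.toMv).mem,
    io_kap (Finset.subset_insert b J) hI, mul_assoc, ← C.Lop_kap K hI hm,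
    ← mul_apply_eq_comp, eps_iot K h, e, Finset.sum_mul, sum_apply,
    sum_apply]
  refine Finset.sum_congr rfl fun u _ => ?_
  rw [mul_assoc, ← eps_Lop h.subK hI (hc u)]
  simp only [mul_apply_eq_comp]
  rw [Jop_kap K h.toMv, C.Lop_kap K h.sub' (hc u), io_kap h.subK hI,
    C.Lop_kap K hI (C.HJ_mono h.subK (hc u))]

/-- `uniL`, `cmp_HJ`, continuity; then `sim_N`, `Jop_adj`, `Jop_mul` -/
theorem uni_op (h : C.El J b J' w) (ξ η : C0 W K) :
    ∑ u ∈ C.Mn (insert b J) J',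
      C0.ip ((C.Lop K J' (C.cmp J' (C.iotw w⁻¹) u) * C.Jop K J J' w) ξ)
        ((C.Lop K J' (C.cmp J' (C.iotw w⁻¹) u) * C.Jop K J J' w) η) =
      C0.ip (C.Lop K J (C.iotw w⁻¹ * C.iotw w) ξ) (C.Lop K J (C.iotw w⁻¹ * C.iotw w) η) := by
  have hI : insert b J ⊆ C.S0 := Finset.insert_subset h.bmem h.sub
  have hm := C.iotw_mem hI (inv_mem h.memK)
  have hc := fun u => (C.cmp_spec h.sub' (C.iotw w⁻¹)).1 u
  have e : ∑ u ∈ C.Mn (insert b J) J', (C0.ip : C0 W K →L[K] C0 W K →L[K] K).bilinearComp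
      (C.Lop K J' (C.cmp J' (C.iotw w⁻¹) u) * C.Jop K J J' w)
      (C.Lop K J' (C.cmp J' (C.iotw w⁻¹) u) * C.Jop K J J' w) =
      (C0.ip : C0 W K →L[K] C0 W K →L[K] K).bilinearComp (C.Lop K J (C.iotw w⁻¹ * C.iotw w))
        (C.Lop K J (C.iotw w⁻¹ * C.iotw w)) := by
    refine C.op_ext J fun x => C.op_ext J fun y => ?_
    simp only [sum_apply, ContinuousLinearMap.bilinearComp_apply,
      mul_apply_eq_comp, Jop_kap K h.toMv, C.Lop_kap K h.sub' (hc _),
      C.Lop_kap K h.sub (sim_N h.toMv).mem, C.ip_kap]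
    rw [← map_sum, Finset.sum_subset (C.Mn_mono h.subK hI subset_rfl) fun u hu hu' => by
      rw [(C.cmp_HJ h.subK hI hm).2 u hu hu', zero_mul, map_zero, LinearMap.zero_apply],
      uniL h.toMv, mul_assoc (C.iotw w⁻¹), uniR h.toMv.symm, inv_inv]
    simp only [mul_assoc]
  have := DFunLike.congr_fun (DFunLike.congr_fun e ξ) η
  simpa only [sum_apply, ContinuousLinearMap.bilinearComp_apply] using this

end HC

end Pool.Agent.P.MP_74db7f_al
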