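import Pool.Agent.P.MP_74db7f_al.F.E2

/-! Sc2: replacing `N` by a product of `Θ_y - 1` on the discrete part (paper, section 6). -/

set_option linter.unusedSectionVars false

namespace Pool.Agent.P.MP_74db7f_al

open scoped Classical Topology
open Filter

section Aux

variable {K 𝔅 X : Type*} [Field K] [Ring 𝔅] [Algebra K 𝔅]

/-- `a` divides a product of good `T x - 1` on the range of `e` -/
def Sc2P (𝒜 : Subalgebra K 𝔅) (e : 𝔅) (T : X → 𝔅) (G : X → Prop) (a : 𝔅) : Prop :=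
  a ∈ 𝒜 ∧ ∃ N ∈ 𝒜, ∃ ys : List X, (∀ x ∈ ys, G x) ∧
    a * N * e = (ys.map fun x => T x - 1).prod * e

variable {𝒜 : Subalgebra K 𝔅} {e : 𝔅} {T : X → 𝔅} {G : X → Prop} {a a' : 𝔅}

theorem sc2_unit (ha : a ∈ 𝒜) (ha' : a' ∈ 𝒜) (h : a * a' = 1) : Sc2P 𝒜 e T G a :=
  ⟨ha, a', ha', [], by simp, by rw [h, List.map_nil, List.prod_nil]⟩

theorem sc2_one : Sc2P 𝒜 e T G 1 := sc2_unit (one_mem _) (one_mem _) (mul_one _)

theorem sc2_scalar {c : K} (hc : c ≠ 0) : Sc2P 𝒜 e T G (algebraMap K 𝔅 c) :=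
  sc2_unit (𝒜.algebraMap_mem c) (𝒜.algebraMap_mem c⁻¹)
    (by rw [← map_mul, mul_inv_cancel₀ hc, map_one])

theorem sc2_base {x : X} (hT : T x ∈ 𝒜) (hx : G x) : Sc2P 𝒜 e T G (T x - 1) :=
  ⟨sub_mem hT (one_mem _), 1, one_mem _, [x], by simpa using hx, by simp⟩

theorem sc2_dvd (ha : a ∈ 𝒜) (ha' : a' ∈ 𝒜) (h : Sc2P 𝒜 e T G (a * a')) : Sc2P 𝒜 e T G a := by
  obtain ⟨-, N, hN, ys, hy, h⟩ := h
  exact ⟨ha, a' * N, mul_mem ha' hN, ys, hy, by rw [← mul_assoc a, h]⟩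

variable (hc : ∀ a ∈ 𝒜, ∀ b ∈ 𝒜, a * b = b * a)
include hc

theorem sc2_congr (ha : a ∈ 𝒜) (h : a * e = a' * e) (h' : Sc2P 𝒜 e T G a') :
    Sc2P 𝒜 e T G a := by
  obtain ⟨ha', N, hN, ys, hy, h'⟩ := h'
  refine ⟨ha, N, hN, ys, hy, ?_⟩
  rw [← h', hc a ha N hN, hc a' ha' N hN, mul_assoc, h, mul_assoc]

theorem sc2_pow_sub (ha : a ∈ 𝒜) (ha' : a' ∈ 𝒜) (n : ℕ) :
    ∃ c ∈ 𝒜, a ^ n - a' ^ n = (a - a') * c :=
  ⟨_, sum_mem fun _ _ => mul_mem (pow_mem ha _) (pow_mem ha' _),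
    (Commute.mul_geom_sum₂ (hc a ha a' ha') n).symm⟩

theorem sc2_aeval_sub (ha : a ∈ 𝒜) (ha' : a' ∈ 𝒜) (F : Polynomial K) :
    ∃ c ∈ 𝒜, F.aeval a - F.aeval a' = (a - a') * c := by
  induction F using Polynomial.induction_on' with
  | add p q hp hq =>
    obtain ⟨c, h1, h2⟩ := hp
    obtain ⟨d, h3, h4⟩ := hq
    exact ⟨c + d, add_mem h1 h3, by rw [map_add, map_add, mul_add, ← h2, ← h4]; abel⟩
  | monomial n r =>
    obtain ⟨c, h1, h2⟩ := sc2_pow_sub hc ha ha' n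
    refine ⟨r • c, 𝒜.smul_mem h1 r, ?_⟩
    rw [Polynomial.aeval_monomial, Polynomial.aeval_monomial, ← mul_sub, h2, ← Algebra.smul_def,
      mul_smul_comm]

variable (hT : ∀ x, T x ∈ 𝒜)
include hT

theorem sc2_mul (h : Sc2P 𝒜 e T G a) (h' : Sc2P 𝒜 e T G a') : Sc2P 𝒜 e T G (a * a') := by
  obtain ⟨ha, N, hN, ys, hy, h⟩ := h
  obtain ⟨ha', N', hN', ys', hy', h'⟩ := h'
  have hp : ∀ l : List X, (l.map fun x => T x - 1).prod ∈ 𝒜 := fun l =>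
    list_prod_mem fun z hz => by
      obtain ⟨x, -, rfl⟩ := List.mem_map.1 hz
      exact sub_mem (hT x) (one_mem _)
  refine ⟨mul_mem ha ha', N * N', mul_mem hN hN', ys' ++ ys, fun x hx =>
    (List.mem_append.1 hx).elim (hy' x) (hy x), ?_⟩
  have e1 : a * a' * (N * N') = a * N * (a' * N') := by
    rw [mul_assoc a, mul_assoc a, ← mul_assoc a', ← mul_assoc N, hc a' ha' N hN]
  rw [e1, mul_assoc (a * N), h', ← mul_assoc, hc _ (mul_mem ha hN) _ (hp ys'),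
    mul_assoc _ (a * N), h, List.map_append, List.prod_append, mul_assoc]

theorem sc2_pow (h : Sc2P 𝒜 e T G a) (n : ℕ) : Sc2P 𝒜 e T G (a ^ n) := by
  induction n with
  | zero => rw [pow_zero]; exact sc2_one
  | succ n ih => rw [pow_succ]; exact sc2_mul hc hT ih h

theorem sc2_aeval {ι : Type*} (s : Finset ι) (r : ι → K) (n : ℕ)
    (h : ∀ j, Sc2P 𝒜 e T G (a - algebraMap K 𝔅 (r j))) :
    Sc2P 𝒜 e T G ((∏ j ∈ s, (Polynomial.X - Polynomial.C (r j)) ^ n).aeval a) := by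
  induction s using Finset.induction_on with
  | empty => rw [Finset.prod_empty, map_one]; exact sc2_one
  | insert j s hj ih =>
    rw [Finset.prod_insert hj, map_mul, map_pow, map_sub, Polynomial.aeval_X, Polynomial.aeval_C]
    exact sc2_mul hc hT (sc2_pow hc hT (h j) n) ih

end Aux

namespace HC

variable {B W H : Type*} [Group W] {M : CoxeterMatrix B} {cs : CoxeterSystem M W} [Ring H]
  [Algebra Rq H] (C : HC cs H) (K : Type*) [NontriviallyNormedField K] [CompleteSpace K]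
  [IsUltrametricDist K] [Algebra Rq K] [GoodK K]

variable {C} {J J' : Finset B} {w : W} {b : B}

/-- the predicate for `J`, `b` -/
abbrev Sc2Q (C : HC cs H) (J : Finset B) (b : B) (a : Op W K) : Prop :=
  Sc2P (C.AJ K J 1) (C.eJ K J) (C.Tht K J) (fun x => C.Fix J x ∧ C.sr b x ≠ 0) a

theorem sc2_q_ne : qK K ≠ 0 := by
  have := GoodK.one_lt (K := K)
  exact norm_pos_iff.1 (zero_lt_one.trans this)

theorem sc2_Tht (hJ : J ⊆ C.S0) (x : Lat C.n) : Sc2Q K C J b (C.Tht K J x) :=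
  sc2_unit (Tht_mem x) (Tht_mem (-x)) (by rw [← C.Tht_add K hJ, add_neg_cancel, C.Tht_zero K hJ])

theorem sc2_factor (hJ : J ⊆ C.S0) {x : Lat C.n} (hx : C.Fix J x) (hb : C.sr b x ≠ 0) (t j : ℤ) :
    Sc2Q K C J b (qK K ^ t • C.Tht K J x - algebraMap K _ (qK K ^ j)) := by
  have hS := spec_AJ1 (K := K) hJ
  by_cases h : t = j
  · subst h
    rw [Algebra.smul_def, ← mul_sub_one]
    exact sc2_mul hS.comm Tht_mem (sc2_scalar (zpow_ne_zero _ (sc2_q_ne K)))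
      (sc2_base (Tht_mem x) ⟨hx, hb⟩)
  · have h1 : qK K ^ t • C.Tht K J x ∈ C.AJ K J 1 := Subalgebra.smul_mem _ (Tht_mem x) _
    have h2 := sub_mem h1 ((C.AJ K J 1).algebraMap_mem (qK K ^ j))
    have hu := hS.isUnit h2 fun p hp => by
      have h3 := p.eq_of_sub h1 ((C.AJ K J 1).algebraMap_mem _) hp
      rw [p.smul _ (Tht_mem x), p.algebraMap, pt_fix hJ (fun a _ => by rw [one_mul, mul_one]) p hx,
        mul_one, norm_zpow, norm_zpow] at h3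
      have h4 := GoodK.one_lt (K := K)
      exact h (zpow_right_injective₀ (zero_lt_one.trans h4) h4.ne' h3)
    exact sc2_unit h2 (hS.inv _ h2 hu) (Ring.mul_inverse_cancel _ hu)

theorem sc2_lin (hJ : J ⊆ C.S0) {y : Lat C.n} (hy : C.sr b (C.deg J y) ≠ 0) (k : ℤ) (ε : ℤˣ) :
    Sc2Q K C J b (C.Tht K J y - algebraMap K _ (((ε : ℤ) : K) * qK K ^ k)) := by
  have hS := spec_AJ1 (K := K) hJ
  set n := (C.WF J).card with hn
  obtain ⟨s, N, hk⟩ := Fpol_kill (K := K) hJ (C.deg_proj hJ y)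
  rw [Lop_Fpol hJ, ← hn] at hk
  set x : Lat C.n := -((2 * C.Mo : ℤ) • C.deg J y) with hx
  have hfx : C.Fix J x := fun j hj => by
    rw [hx, map_neg, map_zsmul, C.fix_deg hJ y j hj, smul_zero, neg_zero]
  have hbx : C.sr b x ≠ 0 := by
    rw [hx, map_neg, map_zsmul, neg_ne_zero, smul_eq_mul]
    exact mul_ne_zero (mul_ne_zero two_ne_zero (Nat.cast_ne_zero.2 C.Mo_pos.ne')) hy
  set A := C.Tht K J ((2 * C.Mo : ℤ) • ((n : ℤ) • y - C.deg J y)) with hA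
  set t : ℤ := k * (2 * C.Mo * n : ℕ) with ht
  set V := qK K ^ t • C.Tht K J x with hV
  have hAm : A ∈ C.AJ K J 1 := Tht_mem _
  have hVm : V ∈ C.AJ K J 1 := Subalgebra.smul_mem _ (Tht_mem x) _
  have h1 := sc2_aeval hS.comm Tht_mem s (fun j => qK K ^ (2 * j)) N
    fun j => sc2_factor K hJ hfx hbx t (2 * j)
  rw [← hV] at h1
  obtain ⟨c, hc, h2⟩ := sc2_aeval_sub hS.comm hVm hAm
    (∏ j ∈ s, (Polynomial.X - Polynomial.C (qK K ^ (2 * j))) ^ N)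
  have h3 : Sc2Q K C J b (V - A) := sc2_dvd (sub_mem hVm hAm) hc
    (sc2_congr hS.comm (mul_mem (sub_mem hVm hAm) hc) (by rw [← h2, sub_mul, hk, sub_zero]) h1)
  have h4 := sc2_mul hS.comm Tht_mem
    (sc2_mul hS.comm Tht_mem (sc2_scalar (neg_ne_zero.2 one_ne_zero)) (sc2_Tht K hJ (-x))) h3
  have hm := (C.AJ K J 1).algebraMap_mem (((ε : ℤ) : K) * qK K ^ k)
  obtain ⟨d, hd, h5⟩ := sc2_pow_sub hS.comm (Tht_mem y) hm (2 * C.Mo * n)
  refine sc2_dvd (sub_mem (Tht_mem y) hm) hd ?_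
  have h6 : (((ε : ℤ) : K) * qK K ^ k) ^ (2 * C.Mo * n) = qK K ^ t := by
    have : ((ε : ℤ) : K) ^ 2 = 1 := by
      rcases Int.units_eq_one_or ε with rfl | rfl <;> simp
    rw [mul_pow, mul_assoc 2, pow_mul, this, one_pow, one_mul, ht, zpow_mul, zpow_natCast,
      mul_assoc 2]
  have h7 : ((2 * C.Mo * n : ℕ) : ℤ) • y =
      -x + (2 * C.Mo : ℤ) • ((n : ℤ) • y - C.deg J y) := by
    rw [hx, neg_neg, ← smul_add, add_sub_cancel, smul_smul]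
    push_cast
    rfl
  rw [← h5, ← map_pow, h6, ← C.Tht_nsmul K hJ, h7, C.Tht_add K hJ, ← hA]
  convert h4 using 1
  rw [map_neg, map_one, neg_one_mul, neg_mul, mul_sub, neg_sub, hV, mul_smul_comm,
    ← C.Tht_add K hJ (-x) x, neg_add_cancel, C.Tht_zero K hJ, Algebra.algebraMap_eq_smul_one]

/-- With `c = ± q^k`, `m = 2 M |W_J|`: `Θ_y - c` divides `Θ_{my} - c^m = U (A - c^m U⁻¹)`, where
`A = Θ_{2M y₁}`, `U = Θ_{2M y₂}`, `y₂ = deg y`, `y₁ = |W_J| y - y₂`. `A - c^m U⁻¹` divides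
`F(A) - F(c^m U⁻¹)`, `F(A) e = 0` (`Fpol_kill`), and the factors `c^m U⁻¹ - q^{2j}` of
`F(c^m U⁻¹)` are units of `AJ` (`Spec.isUnit`, `pt_fix`) or multiples of `U⁻¹ - 1`. -/
theorem div_lin (hJ : J ⊆ C.S0) {y : Lat C.n} (hy : C.sr b (C.deg J y) ≠ 0) (k : ℤ) (ε : ℤˣ) :
    ∃ N ∈ C.AJ K J 1, ∃ ys : List (Lat C.n), (∀ x ∈ ys, C.Fix J x ∧ C.sr b x ≠ 0) ∧
      (C.Tht K J y - algebraMap K _ (((ε : ℤ) : K) * qK K ^ k)) * N * C.eJ K J =
        (ys.map fun x => C.Tht K J x - 1).prod * C.eJ K J := by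
  exact (sc2_lin K hJ hy k ε).2

/-- `iotw_inv_mul`, `El.inv`, `sr_deg_co_ne`, `Lop_lin`, `div_lin` -/
theorem div_N (h : C.El J b J' w) :
    ∃ N ∈ C.AJ K J 1, ∃ ys : List (Lat C.n), (∀ x ∈ ys, C.Fix J x ∧ C.sr b x ≠ 0) ∧
      C.Lop K J (C.iotw w⁻¹ * C.iotw w) * N * C.eJ K J =
        (ys.map fun x => C.Tht K J x - 1).prod * C.eJ K J := by
  have hJ := h.sub
  have hS := spec_AJ1 (K := K) hJ
  obtain ⟨l, y, ε, hl, e⟩ := C.iotw_inv_mul h.mem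
  have hm : ∀ f g : LA Rq C.n, Sc2Q K C J b (C.Lop K J (C.Th f)) →
      Sc2Q K C J b (C.Lop K J (C.Th g)) → Sc2Q K C J b (C.Lop K J (C.Th (f * g))) :=
    fun f g hf hg => by
      rw [map_mul, C.Lop_mul K hJ (C.Th_mem_HJ J f) (C.Th_mem_HJ J g)]
      exact sc2_mul hS.comm Tht_mem hf hg
  have h1 : Sc2Q K C J b (C.Lop K J (C.Th l.prod)) := by
    refine List.prod_induction (fun f => Sc2Q K C J b (C.Lop K J (C.Th f))) hm ?_ fun f hf => ?_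
    · rw [map_one, C.Lop_one K hJ]
      exact sc2_one
    · obtain ⟨x, ⟨γ, hγ, hn, rfl⟩, k, ε', rfl⟩ := hl f hf
      rw [Lop_lin hJ]
      exact sc2_lin K hJ (C.sr_deg_co_ne hJ h.bmem (C.mem_Rp.1 hγ).1 (h.inv hγ hn).1
        (h.inv hγ hn).2) k ε'
  have h2 : Sc2Q K C J b (C.Lop K J (C.Th ((ε : ℤ) • mon y))) := by
    rcases Int.units_eq_one_or ε with rfl | rfl
    · rw [Units.val_one, one_smul, Th_mon]
      exact sc2_Tht K hJ y
    · have : C.Th (((-1 : ℤˣ) : ℤ) • mon y) = (-1 : Rq) • C.th y := by simp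
      rw [this, C.Lop_smul K hJ _ (C.th_mem_HJ J y), map_neg, map_one, Algebra.smul_def]
      exact sc2_mul hS.comm Tht_mem (sc2_scalar (neg_ne_zero.2 one_ne_zero)) (sc2_Tht K hJ y)
  rw [e]
  exact (hm _ _ h2 h1).2

end HC

end Pool.Agent.P.MP_74db7f_al
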