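import Pool.Agent.P.MP_74db7f_al.F.E1

/-! Sc3: the vanishing lemma (Z0) (paper, section 6). -/

namespace Pool.Agent.P.MP_74db7f_al

open scoped Classical Topology
open Filter

namespace HC

variable {B W H : Type*} [Group W] {M : CoxeterMatrix B} {cs : CoxeterSystem M W} [Ring H]
  [Algebra Rq H] (C : HC cs H) (K : Type*) [NontriviallyNormedField K] [CompleteSpace K]
  [IsUltrametricDist K] [Algebra Rq K] [GoodK K]

variable {C K} {J : Finset B} {b : B}

theorem sc3_zsmul (hJ : J ⊆ C.S0) {D : Op W K} {y : Lat C.n} (h4 : D * C.Tht K J y = D)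
    (k : ℤ) : D * C.Tht K J (k • y) = D := by
  induction k using Int.induction_on with
  | zero => rw [zero_smul, C.Tht_zero K hJ, mul_one]
  | succ k ih => rw [add_smul, one_smul, C.Tht_add K hJ, ← mul_assoc, ih, h4]
  | pred k ih =>
    have e : (-(k : ℤ)) • y = y + (-(k : ℤ) - 1) • y := by
      rw [sub_smul, one_smul]
      abel
    rw [e, C.Tht_add K hJ, ← mul_assoc, h4] at ih
    exact ih

theorem sc3_norm_le {I : Finset B} (hI : I ⊆ C.S0) {u : W} (hu : u ∈ C.WJ I) {x : Lat C.n}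
    (hx : C.Dom I x) (η : C0 W K) : ‖C.Lop K I (C.Tb u) (C.Tht K I x η)‖ ≤
      ‖qK K‖ ^ C.Nb * (‖qK K‖ ^ C.Nb * ‖η‖) := by
  refine (ContinuousLinearMap.le_opNorm _ _).trans ?_
  refine mul_le_mul (C.norm_Lop_Tb K hI hu) ?_ (norm_nonneg _) (by positivity)
  refine (ContinuousLinearMap.le_opNorm _ _).trans ?_
  exact mul_le_mul_of_nonneg_right (C.norm_Tht K hI hx) (norm_nonneg _)

/-- moving everything to the right hand side of the form -/
theorem sc3_move {I : Finset B} (hI : I ⊆ C.S0) {a : H} (ha : a ∈ C.HJ I) {x' : Lat C.n}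
    (hx' : C.Fix I x') (x : Lat C.n) (v η : C0 W K) :
    C0.ip (C.Tht K I x' v) (C.Lop K I a (C.Tht K I x η)) =
      C0.ip (C.Lop K I (C.adj I a) v) (C.Tht K I (x - x') η) := by
  have hn : C.Fix I (-x') := fun j hj => by rw [map_neg, hx' j hj, neg_zero]
  rw [C.Tht_adj K hI hx', (C.Lop_adj K hI ha).symm]
  congr 1
  have e : C.Tht K I (-x') * C.Lop K I a * C.Tht K I x = C.Lop K I a * C.Tht K I (x - x') := by
    rw [← C.Lop_Tht K hI ha hn, mul_assoc, ← C.Tht_add K hI, neg_add_eq_sub]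
  exact congrArg (fun F : Op W K => F η) e

/-- `D (sg w)` is small (`eJ_small`) or of the form `Θ_{x'} yᵢ` with finitely many `yᵢ` and
`x' ∈ X^{J+b}` (`exists_fin`, `exists_fix_reps`); then `Tht_adj`, `Lop_adj`, `Tht_weak`: the
vector `m z - x'` is dominant and `sr b' (m z - x')` tends to infinity for `b' ∈ (J + b) - I`. -/
theorem Z0_unif [Finite B] (hJ : J ⊆ C.S0) (hb : b ∈ C.S0) {D : Op W K}
    (h2 : ∀ x, C.Fix (insert b J) x → D * C.Tht K J x = C.Tht K (insert b J) x * D)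
    (h3 : D * C.eJ K J = D) {y : Lat C.n} (hy : C.Fix J y) (hy' : C.sr b y ≠ 0)
    (h4 : D * C.Tht K J y = D) {I : Finset B} (hI : I ⊂ insert b J) {u : W}
    (hu : u ∈ C.WJ (insert b J)) (η : C0 W K) {δ : ℝ} (hδ : 0 < δ) :
    ∀ᶠ m : ℕ in atTop, ∀ ξ, ‖C0.ip (D ξ) (C.Lop K (insert b J) (C.Tb u)
      (C.Tht K (insert b J) ((m : ℤ) • C.z I) η))‖ ≤ δ * ‖ξ‖ := by
  have hK : insert b J ⊆ C.S0 := Finset.insert_subset hb hJ
  have ha : C.Tb u ∈ C.HJ (insert b J) := C.Tb_mem_HJ hK hu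
  obtain ⟨b', hb'K, hb'I⟩ := Finset.exists_of_ssubset hI
  set A : ℝ := ‖qK K‖ ^ C.Nb * (‖qK K‖ ^ C.Nb * ‖η‖) with hA
  have hA0 : 0 ≤ A := by positivity
  have hB : 0 < ‖D‖ * A + 1 := by positivity
  obtain ⟨N, hN⟩ := eJ_small (C := C) (K := K) hJ (div_pos hδ hB)
  obtain ⟨F, hF⟩ := C.exists_fin hJ N
  obtain ⟨F', hF'⟩ := C.exists_fix_reps hJ hb hy hy'
  let S : Set (Lat C.n) := ⋃ p ∈ F ×ˢ F', {x | C.Dom (insert b J) x ∧
    δ ≤ ‖C0.ip (C.Lop K (insert b J) (C.adj (insert b J) (C.Tb u))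
      (D (C.Tht K J p.2 (C0.sg p.1)))) (C.Tht K (insert b J) x η)‖}
  have hS : S.Finite := (F ×ˢ F').finite_toSet.biUnion fun p _ => C.Tht_weak K hK _ η hδ
  obtain ⟨c, hc⟩ := (hS.image (C.sr b')).bddAbove
  have hdom : ∀ m : ℕ, C.Dom (insert b J) ((m : ℤ) • C.z I) := fun m j hj => by
    rw [map_zsmul, smul_eq_mul]
    exact mul_nonneg (Int.natCast_nonneg m) (C.dom_z I j (hK hj))
  filter_upwards [eventually_gt_atTop c.toNat] with m hm
  have key : ∀ w, ‖C0.ip (D (C0.sg w)) (C.Lop K (insert b J) (C.Tb u)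
      (C.Tht K (insert b J) ((m : ℤ) • C.z I) η))‖ ≤ δ := by
    intro w
    rcases le_or_gt N (C.lam J w) with hw | hw
    · have e1 : D (C0.sg w) = D (C.eJ K J (C0.sg w)) := by
        conv_lhs => rw [← h3]
        rfl
      have e2 : ‖D (C0.sg w)‖ ≤ ‖D‖ * (δ / (‖D‖ * A + 1)) := by
        rw [e1]
        exact (D.le_opNorm _).trans (mul_le_mul_of_nonneg_left (hN w hw).le (norm_nonneg _))
      refine (C0.norm_ip_le _ _).trans ?_
      refine (mul_le_mul e2 (sc3_norm_le hK hu (hdom m) η) (norm_nonneg _) (by positivity)).trans ?_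
      rw [← hA, mul_right_comm, ← mul_div_assoc, div_le_iff₀ hB]
      nlinarith
    · obtain ⟨x, hx, f, hf, rfl⟩ := hF w hw
      obtain ⟨x', hx', k, f', hf', -, rfl⟩ := hF' x hx
      have e1 : D * C.Tht K J (x' + k • y + f') =
          C.Tht K (insert b J) x' * D * C.Tht K J f' := by
        rw [add_comm x', C.Tht_add K hJ, C.Tht_add K hJ, ← mul_assoc, ← mul_assoc,
          sc3_zsmul hJ h4, h2 x' hx']
      have e2 : D (C0.sg (C.tr (x' + k • y + f') * f)) =
          C.Tht K (insert b J) x' (D (C.Tht K J f' (C0.sg f))) := by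
        rw [← C.Tht_sg K hJ hx]
        exact congrArg (fun G : Op W K => G (C0.sg f)) e1
      rw [e2, sc3_move hK ha hx']
      by_contra hcon
      have hmem : (m : ℤ) • C.z I - x' ∈ S := by
        refine Set.mem_biUnion (x := (f, f')) (Finset.mem_coe.2 (Finset.mem_product.2 ⟨hf, hf'⟩))
          ⟨fun j hj => ?_, (not_le.1 hcon).le⟩
        rw [map_sub, hx' j hj, sub_zero]
        exact hdom m j hj
      have h5 := hc ⟨_, hmem, rfl⟩
      rw [map_sub, hx' b' hb'K, sub_zero, map_zsmul, smul_eq_mul,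
        C.sr_z_not (hK hb'K) hb'I] at h5
      have h6 := C.m_pos
      have h7 : c < (m : ℤ) := lt_of_le_of_lt (Int.self_le_toNat c) (by exact_mod_cast hm)
      have h8 : (0 : ℤ) ≤ m := Int.natCast_nonneg m
      nlinarith
  intro ξ
  let Φ : C0 W K →L[K] K := (C0.ip.flip (C.Lop K (insert b J) (C.Tb u)
      (C.Tht K (insert b J) ((m : ℤ) • C.z I) η))).comp D
  have hΦ : ‖Φ‖ ≤ δ := C0.opNorm_le hδ.le key
  exact (Φ.le_opNorm ξ).trans (mul_le_mul_of_nonneg_right hΦ (norm_nonneg _))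

/-- (Z0): by `rec_eta` and naturality the image of `D` is orthogonal to `KK` -/
theorem Z0 [Finite B] (hJ : J ⊆ C.S0) (hb : b ∈ C.S0) {D : Op W K}
    (h1 : ∀ h, D * C.Rop K J h = C.Rop K (insert b J) h * D)
    (h2 : ∀ x, C.Fix (insert b J) x → D * C.Tht K J x = C.Tht K (insert b J) x * D)
    (h3 : D * C.eJ K J = D) {y : Lat C.n} (hy : C.Fix J y) (hy' : C.sr b y ≠ 0)
    (h4 : D * C.Tht K J y = D) (h5 : ∀ ξ, D ξ ∈ C.KK K (insert b J)) : D = 0 := by
  have hK : insert b J ⊆ C.S0 := Finset.insert_subset hb hJ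
  have hMo : 0 < C.Mo := C.card_WF_pos (Finset.Subset.refl _)
  have gen : ∀ ξ, ∀ I ⊂ insert b J, ∀ u ∈ C.WJ (insert b J), ∀ η,
      C0.ip (D ξ) (C.Lop K (insert b J) (C.Tb u) (C.eps K (insert b J) I η)) = 0 := by
    intro ξ I hI u hu η
    have ha : C.Tb u ∈ C.HJ (insert b J) := C.Tb_mem_HJ hK hu
    have bound : ∀ δ : ℝ, 0 < δ →
        ‖C0.ip (D ξ) (C.Lop K (insert b J) (C.Tb u) (C.eps K (insert b J) I η))‖ ≤ δ * ‖ξ‖ := by
      intro δ hδ
      obtain ⟨n, hn⟩ := eventually_atTop.1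
        (Z0_unif hJ hb h2 h3 hy hy' h4 hI hu (C.eps K (insert b J) I η) hδ)
      obtain ⟨c, hc, hrec⟩ := C.rec_eta K (C.z I) 0 n
      have e1 := hrec 1 (one_mem _) _ hK
      rw [map_one] at e1
      change C.eps K (insert b J) I = ∑ j ∈ Finset.range C.Mo,
        c j (insert b J) * C.phi K (insert b J) (C.z I) 0 (n + j) at e1
      have e2 : C0.ip (D ξ) (C.Lop K (insert b J) (C.Tb u) (C.eps K (insert b J) I η)) =
          ∑ j ∈ Finset.range C.Mo, C0.ip (D ξ) (C.Lop K (insert b J) (C.Tb u)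
            (c j (insert b J) (C.phi K (insert b J) (C.z I) 0 (n + j) η))) := by
        conv_lhs => rw [e1]
        rw [sum_apply, map_sum, map_sum]
        rfl
      rw [e2]
      refine IsUltrametricDist.norm_sum_le_of_forall_le_of_nonneg (by positivity) fun j _ => ?_
      obtain ⟨c', ⟨hc1, hc2, hc3⟩, hc4⟩ := hc j
      have e3 : C.phi K (insert b J) (C.z I) 0 (n + j) =
          C.Tht K (insert b J) ((((n + j) * C.Mo : ℕ) : ℤ) • C.z I) * C.eps K (insert b J) I := by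
        rw [phi, neg_zero, zpow_zero, one_smul, ← C.Tht_nsmul K hK, smul_smul, Nat.cast_mul]
        rfl
      have e4 : C.Lop K (insert b J) (C.Tb u) * c j (insert b J) =
          c j (insert b J) * C.Lop K (insert b J) (C.Tb u) :=
        hc1.comm hK fun z => C.Lop_Rop K hK ha z
      have e5 : D * c' J = c' (insert b J) * D := hc2 J hJ _ hK D fun z _ => h1 z
      have e6 : C0.ip (D ξ) (C.Lop K (insert b J) (C.Tb u)
            (c j (insert b J) (C.phi K (insert b J) (C.z I) 0 (n + j) η))) =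
          C0.ip (D (c' J ξ)) (C.Lop K (insert b J) (C.Tb u) (C.Tht K (insert b J)
            ((((n + j) * C.Mo : ℕ) : ℤ) • C.z I) (C.eps K (insert b J) I η))) := by
        have f1 : D (c' J ξ) = c' (insert b J) (D ξ) := congrArg (fun G : Op W K => G ξ) e5
        rw [f1, (hc3 _ hK).symm, e3]
        congr 1
        exact congrArg (fun G : Op W K => G (C.Tht K (insert b J)
            ((((n + j) * C.Mo : ℕ) : ℤ) • C.z I) (C.eps K (insert b J) I η))) e4
      rw [e6]
      refine (hn _ (le_trans (Nat.le_add_right n j) (Nat.le_mul_of_pos_right _ hMo)) _).trans ?_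
      refine mul_le_mul_of_nonneg_left ?_ hδ.le
      refine ((c' J).le_opNorm ξ).trans ?_
      exact mul_le_of_le_one_left (norm_nonneg _) (hc4 J hJ).2
    rw [← norm_le_zero_iff]
    refine le_of_forall_pos_le_add fun ε hε => ?_
    have hp : 0 < ‖ξ‖ + 1 := by positivity
    refine (bound (ε / (‖ξ‖ + 1)) (div_pos hε hp)).trans ?_
    rw [zero_add, div_mul_eq_mul_div, div_le_iff₀ hp]
    nlinarith
  ext1 ξ
  have hle : C.KK K (insert b J) ≤ LinearMap.ker (C0.ip (D ξ) : C0 W K →ₗ[K] K) := by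
    refine Submodule.topologicalClosure_minimal _ (Submodule.span_le.2 ?_)
      (C0.ip (D ξ)).isClosed_ker
    rintro _ ⟨I, hI, u, hu, η, rfl⟩
    exact gen ξ I hI u hu η
  exact C0.eq_zero_of_ip_self (hle (h5 ξ))

end HC

end Pool.Agent.P.MP_74db7f_al
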