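import Pool.Agent.P.MP_74db7f_al.F.Sc1
import Pool.Agent.P.MP_74db7f_al.F.Sc2
import Pool.Agent.P.MP_74db7f_al.F.Sc3

/-! Sc4: the scattering identity (paper, section 6). -/

namespace Pool.Agent.P.MP_74db7f_al

open scoped Classical Topology
open Filter

namespace HC

variable {B W H : Type*} [Group W] {M : CoxeterMatrix B} {cs : CoxeterSystem M W} [Ring H]
  [Algebra Rq H] (C : HC cs H) (K : Type*) [NontriviallyNormedField K] [CompleteSpace K]
  [IsUltrametricDist K] [Algebra Rq K] [GoodK K]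

/-- the induction invariant: `F` solves the scattering problem for the multiplier `D` -/
structure ScD (J : Finset B) (b : B) (J' : Finset B) (w : W) (D : Op W K) (F : W → Op W K) :
    Prop where
  eq : C.io K (insert b J) J * (D * C.eJ K J) = ∑ u ∈ C.Mn (insert b J) J',
    C.Lop K (insert b J) (C.Tb u) * C.io K (insert b J) J' * F u
  uni : ∀ ξ η, ∑ u ∈ C.Mn (insert b J) J', C0.ip (F u ξ) (F u η) =
    C0.ip ((D * C.eJ K J) ξ) ((D * C.eJ K J) η)
  tht : ∀ u ∈ C.Mn (insert b J) J', ∀ x, C.Fix J x →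
    F u * C.Tht K J x = C.Tht K J' (C.gr w x) * F u
  rop : ∀ u ∈ C.Mn (insert b J) J', ∀ h, F u * C.Rop K J h = C.Rop K J' h * F u
  right : ∀ u ∈ C.Mn (insert b J) J', F u * C.eJ K J = F u
  left : ∀ u ∈ C.Mn (insert b J) J', C.eJ K J' * F u = F u

variable {C} {J J' : Finset B} {w : W} {b : B}

theorem sc4_cancel {U X Y : Op W K} {t : W} (h : C0.Shift U t) (e : (U - 1) * X = (U - 1) * Y) :
    X = Y := by
  ext1 ξ
  have h1 := h.norm_sub (X ξ - Y ξ)
  have h2 : (U - 1) (X ξ) = (U - 1) (Y ξ) := congrArg (fun T : Op W K => T ξ) e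
  have h3 : U (X ξ - Y ξ) - (X ξ - Y ξ) = (U - 1) (X ξ - Y ξ) := rfl
  rw [h3, map_sub, h2, sub_self, norm_zero] at h1
  exact sub_eq_zero.1 (norm_eq_zero.1 h1.symm)

theorem sc4_AJ (hJ : J ⊆ C.S0) {D : Op W K} (hD : D ∈ C.AJ K J 1) :
    (∀ x, D * C.Tht K J x = C.Tht K J x * D) ∧ (∀ h, D * C.Rop K J h = C.Rop K J h * D) ∧
      D * C.eJ K J = C.eJ K J * D :=
  ⟨fun x => (spec_AJ1 hJ).comm _ hD _ (Tht_mem x),
    fun h => AJ1_comm hD fun x => C.Lop_Rop K hJ (C.th_mem_HJ J x) h,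
    AJ1_comm hD fun x => (eJ_Lop hJ (C.th_mem_HJ J x)).symm⟩

/-- `F u = L(r_u) * Jop * N * e` with `N` from `div_N` -/
theorem scD_init (h : C.El J b J' w) : ∃ ys : List (Lat C.n),
    (∀ x ∈ ys, C.Fix J x ∧ C.sr b x ≠ 0) ∧
      ∃ F, C.ScD K J b J' w (ys.map fun x => C.Tht K J x - 1).prod F := by
  obtain ⟨N, hN, ys, hys, e⟩ := div_N K h
  have hJ := h.sub
  have hJ' := h.sub'
  have hr := (C.cmp_spec hJ' (C.iotw w⁻¹)).1
  obtain ⟨n1, n2, n3⟩ := sc4_AJ K hJ hN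
  have hee := eJ_idem (C := C) (K := K) hJ
  refine ⟨ys, hys, fun u => C.Lop K J' (C.cmp J' (C.iotw w⁻¹) u) * C.Jop K J J' w *
    (N * C.eJ K J), ?_, fun ξ η => ?_, fun u _ x hx => ?_, fun u _ a => ?_, fun u _ => ?_,
    fun u _ => ?_⟩
  · rw [← e, mul_assoc _ N, ← mul_assoc, io_scat0 K h, Finset.sum_mul]
    simp only [mul_assoc]
  · rw [← e, mul_assoc _ N]
    exact uni_op K h ((N * C.eJ K J) ξ) ((N * C.eJ K J) η)
  · exact SemiconjBy.mul_left (SemiconjBy.mul_left (C.Lop_Tht K hJ' (hr u) (h.toMv.fix hx))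
      (Jop_Tht K h.toMv x)) (SemiconjBy.mul_left (n1 x) (eJ_Lop hJ (C.th_mem_HJ J x)))
  · exact SemiconjBy.mul_left (SemiconjBy.mul_left (C.Lop_Rop K hJ' (hr u) a)
      (Jop_Rop K h.toMv a)) (SemiconjBy.mul_left (n2 a) (eJ_Rop hJ a))
  · rw [mul_assoc, mul_assoc N, hee]
  · have h1 : SemiconjBy _ (C.eJ K J) (C.eJ K J') := SemiconjBy.mul_left
      (SemiconjBy.mul_left (eJ_Lop hJ' (hr u)).symm (Jop_eJ K h.toMv))
      (SemiconjBy.mul_left n3 (Commute.refl (C.eJ K J)))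
    rw [← h1.eq, mul_assoc, mul_assoc N, hee]

/-- `div_shift`, cancel `Θ_{wy} - 1` (`Shift.norm_sub`), `Z0` -/
theorem scD_step [Finite B] (h : C.El J b J' w) {D : Op W K} (hD : D ∈ C.AJ K J 1)
    {y : Lat C.n} (hy : C.Fix J y) (hy' : C.sr b y ≠ 0) {F : W → Op W K}
    (hF : C.ScD K J b J' w ((C.Tht K J y - 1) * D) F) : ∃ F1, C.ScD K J b J' w D F1 := by
  have hJ := h.sub
  have hJ' := h.sub'
  have hI : insert b J ⊆ C.S0 := Finset.insert_subset h.bmem hJ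
  have hJI : J ⊆ insert b J := Finset.subset_insert b J
  have hy0 : y ≠ 0 := fun e => hy' (by rw [e, map_zero])
  have hs := C.Tht_shift K hJ hy hy0
  have hs' := C.Tht_shift K hJ' (h.toMv.fix hy) (by simpa using hy0)
  obtain ⟨n1, n2, n3⟩ := sc4_AJ K hJ hD
  obtain ⟨m1, m2, m3⟩ := sc4_AJ K hJ' (sub_mem (Tht_mem (C.gr w y)) (one_mem (C.AJ K J' 1)))
  have he : ∀ x, C.eJ K J * C.Tht K J x = C.Tht K J x * C.eJ K J := fun x =>
    eJ_Lop hJ (C.th_mem_HJ J x)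
  have hG : ∀ x, D * C.eJ K J * C.Tht K J x = C.Tht K J x * (D * C.eJ K J) := fun x => by
    rw [mul_assoc, he, ← mul_assoc, n1, mul_assoc]
  obtain ⟨F1, h1, h2⟩ := C0.div_shift _ hs hs' F (D * C.eJ K J) (hG y)
    (fun u hu => hF.tht u hu y hy) hF.uni
  have ht : ∀ u ∈ C.Mn (insert b J) J', ∀ x, C.Fix J x →
      F1 u * C.Tht K J x = C.Tht K J' (C.gr w x) * F1 u := fun u hu x hx =>
    sc4_cancel K hs' (by
      rw [← mul_assoc, ← h1 u hu, hF.tht u hu x hx, ← mul_assoc, m1, mul_assoc, ← h1 u hu])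
  have hr : ∀ u ∈ C.Mn (insert b J) J', ∀ a, F1 u * C.Rop K J a = C.Rop K J' a * F1 u :=
    fun u hu a => sc4_cancel K hs' (by
      rw [← mul_assoc, ← h1 u hu, hF.rop u hu a, ← mul_assoc, m2, mul_assoc, ← h1 u hu])
  have hri : ∀ u ∈ C.Mn (insert b J) J', F1 u * C.eJ K J = F1 u := fun u hu =>
    sc4_cancel K hs' (by rw [← mul_assoc, ← h1 u hu, hF.right u hu])
  have hT : ∀ u ∈ C.Mn (insert b J) J', C.Tb u ∈ C.HJ (insert b J) := fun u hu =>
    C.Tb_mem_HJ hI ((C.mem_Mn h.subK hI).1 hu).1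
  refine ⟨F1, sub_eq_zero.1 (Z0 hJ h.bmem (fun a => ?_) (fun x hx => ?_) ?_ hy hy' ?_ fun ξ => ?_),
    h2, ht, hr, hri, fun u hu => sc4_cancel K hs' (by
      rw [← mul_assoc, m3, mul_assoc, ← h1 u hu, hF.left u hu])⟩
  · rw [sub_mul, mul_sub, Finset.sum_mul, Finset.mul_sum]
    congr 1
    · exact SemiconjBy.mul_left (io_Rop hJI hI a) (SemiconjBy.mul_left (n2 a) (eJ_Rop hJ a))
    · exact Finset.sum_congr rfl fun u hu => SemiconjBy.mul_left
        (SemiconjBy.mul_left (C.Lop_Rop K hI (hT u hu) a) (io_Rop h.subK hI a)) (hr u hu a)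
  · rw [sub_mul, mul_sub, Finset.sum_mul, Finset.mul_sum]
    congr 1
    · exact SemiconjBy.mul_left (io_Lop hJI hI (C.th_mem_HJ J x)) (hG x)
    · refine Finset.sum_congr rfl fun u hu => ?_
      have h3 := ht u hu x fun j hj => hx j (hJI hj)
      rw [C.gr_fix h.memK hx] at h3
      exact SemiconjBy.mul_left (SemiconjBy.mul_left (C.Lop_Tht K hI (hT u hu) hx)
        (io_Lop h.subK hI (C.th_mem_HJ J' x))) h3
  · rw [sub_mul, Finset.sum_mul, mul_assoc, mul_assoc D, eJ_idem hJ]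
    congr 1
    exact Finset.sum_congr rfl fun u hu => by rw [mul_assoc, hri u hu]
  · have h3 := hF.eq
    rw [Finset.sum_congr rfl fun u hu => by rw [h1 u hu, sub_mul, one_mul, mul_sub, ← ht u hu y hy,
      ← mul_assoc], Finset.sum_sub_distrib, ← Finset.sum_mul, mul_assoc _ D, sub_mul, one_mul,
      mul_sub, ← hG, ← mul_assoc] at h3
    rw [sub_mul, sub_eq_sub_iff_sub_eq_sub]
    exact h3
  · rw [sub_apply, sum_apply]
    refine sub_mem ?_ (Submodule.sum_mem _ fun u hu => io_mem_KK hI h.ssub (hT u hu) (F1 u ξ))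
    have h3 := io_mem_KK (K := K) hI (Finset.ssubset_insert h.bnot) (one_mem (C.HJ _))
      ((D * C.eJ K J) ξ)
    rwa [C.Lop_one K hI] at h3

/-- (Scat) -/
theorem scat [Finite B] (h : C.El J b J' w) : ∃ F, C.ScD K J b J' w 1 F := by
  obtain ⟨ys, hys, hF⟩ := scD_init K h
  induction ys with
  | nil => exact hF
  | cons y ys ih =>
    obtain ⟨F, hF⟩ := hF
    rw [List.map_cons, List.prod_cons] at hF
    refine ih (fun x hx => hys x (List.mem_cons_of_mem _ hx)) (scD_step K h ?_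
      (hys y List.mem_cons_self).1 (hys y List.mem_cons_self).2 hF)
    refine list_prod_mem fun a ha => ?_
    obtain ⟨x, -, rfl⟩ := List.mem_map.1 ha
    exact sub_mem (Tht_mem x) (one_mem _)

end HC

end Pool.Agent.P.MP_74db7f_al
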