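import Pool.Agent.P.MP_74db7f_al.F.Sc4

/-! Sc5: decay of matrix coefficients, (D) and (Phi) (paper, section 6). -/

namespace Pool.Agent.P.MP_74db7f_al

open scoped Classical Topology
open Filter

namespace HC

variable {B W H : Type*} [Group W] {M : CoxeterMatrix B} {cs : CoxeterSystem M W} [Ring H]
  [Algebra Rq H] (C : HC cs H) (K : Type*) [NontriviallyNormedField K] [CompleteSpace K]
  [IsUltrametricDist K] [Algebra Rq K] [GoodK K]

variable {C K} {I : Finset B}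

omit [CompleteSpace K] [IsUltrametricDist K] [GoodK K] in
theorem sc5_app {F G : Op W K} (ξ : C0 W K) : (F * G) ξ = F (G ξ) := rfl

omit [IsUltrametricDist K] [CompleteSpace K] [Algebra Rq K] [GoodK K] in
theorem sc5_sum {ι : Type*} (s : Finset ι) (f : ι → K) {δ : ℝ} (hδ : 0 < δ)
    (h : δ ≤ ‖∑ i ∈ s, f i‖) : ∃ i ∈ s, δ / (s.card + 1) ≤ ‖f i‖ := by
  by_contra hc
  push Not at hc
  have hp : (0 : ℝ) < s.card + 1 := by positivity
  have h1 : ‖∑ i ∈ s, f i‖ ≤ ∑ _i ∈ s, δ / (s.card + 1) :=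
    (norm_sum_le s f).trans (Finset.sum_le_sum fun i hi => (hc i hi).le)
  rw [Finset.sum_const, nsmul_eq_mul] at h1
  have h2 : (s.card : ℝ) * (δ / (s.card + 1)) < δ := by
    rw [← mul_div_assoc, div_lt_iff₀ hp]
    nlinarith
  linarith

theorem sc5_adj (hI : I ⊆ C.S0) {a : H} (ha : a ∈ C.HJ I) (y η : C0 W K) :
    C0.ip y (C.Lop K I a η) = C0.ip (C.Lop K I (C.adj I a) y) η := by
  rw [C0.ip_comm y, C.Lop_adj K hI ha η y, C0.ip_comm η]

theorem sc5_scat (hI : I ⊆ C.S0) {J J' : Finset B} {b : B} {w : W} (h : C.El J b J' w)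
    (hK : insert b J ⊆ I) {F : W → Op W K} (hF : C.ScD K J b J' w 1 F) {x : Lat C.n}
    (hx : C.Fix J x) (y ξ : C0 W K) :
    C0.ip y (C.io K I J (C.eJ K J (C.Tht K J x ξ))) = ∑ u ∈ C.Mn (insert b J) J',
      C0.ip (C.Lop K I (C.adj I (C.Tb u)) y)
        (C.io K I J' (C.eJ K J' (C.Tht K J' (C.gr w x) (F u ξ)))) := by
  have hK0 : insert b J ⊆ C.S0 := hK.trans hI
  have e1 : C.io K I (insert b J) * C.io K (insert b J) J = C.io K I J :=
    io_trans hK hI (Finset.subset_insert b J)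
  have e2 : C.io K I (insert b J) * C.io K (insert b J) J' = C.io K I J' :=
    io_trans hK hI h.subK
  have e3 := congrArg (fun T : Op W K => T (C.Tht K J x ξ)) hF.eq
  simp only [one_mul, ContinuousLinearMap.sum_apply, sc5_app] at e3
  rw [← e1, sc5_app, e3, map_sum, map_sum]
  refine Finset.sum_congr rfl fun u hu => ?_
  have huK : u ∈ C.WJ (insert b J) := ((C.mem_Mn h.subK hK0).1 hu).1
  have hTK : C.Tb u ∈ C.HJ (insert b J) := C.Tb_mem_HJ hK0 huK
  have hTI : C.Tb u ∈ C.HJ I := C.HJ_mono hK hTK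
  have e4 := congrArg (fun T : Op W K => T (C.io K (insert b J) J' (F u (C.Tht K J x ξ))))
    (io_Lop (K := K) hK hI hTK)
  simp only [sc5_app] at e4
  have e5 : F u (C.Tht K J x ξ) = C.eJ K J' (C.Tht K J' (C.gr w x) (F u ξ)) := by
    have a1 := congrArg (fun T : Op W K => T ξ) (hF.tht u hu x hx)
    have a2 := congrArg (fun T : Op W K => T (C.Tht K J x ξ)) (hF.left u hu)
    simp only [sc5_app] at a1 a2
    rw [← a2, a1]
  rw [e4, sc5_adj hI hTI, e5, ← e2, sc5_app]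

theorem sc5_ind [Finite B] (hI : I ⊆ C.S0) (n : ℕ) : ∀ J : Finset B, J ⊆ I →
    ∀ (y ξ : C0 W K) (δ : ℝ), 0 < δ → {x | C.ngt I x < n ∧ C.Fix J x ∧
      δ ≤ ‖C0.ip y (C.io K I J (C.eJ K J (C.Tht K J x ξ)))‖}.Finite := by
  induction n with
  | zero => intro J _ y ξ δ _; simp
  | succ n ih =>
    intro J hJI y ξ δ hδ
    have hJ : J ⊆ C.S0 := hJI.trans hI
    have hA := C.Tht_weak K hI y (C.io K I J (C.eJ K J ξ)) hδ
    have hB : ∀ b ∈ I \ J, {x | C.sr b x < 0 ∧ C.ngt I x < n + 1 ∧ C.Fix J x ∧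
        δ ≤ ‖C0.ip y (C.io K I J (C.eJ K J (C.Tht K J x ξ)))‖}.Finite := by
      intro b hb
      obtain ⟨hbI, hbJ⟩ := Finset.mem_sdiff.1 hb
      obtain ⟨J', w, h⟩ := C.exists_El hJ (hI hbI) hbJ
      have hK : insert b J ⊆ I := Finset.insert_subset hbI hJI
      obtain ⟨F, hF⟩ := scat K h
      have hp : 0 < δ / ((C.Mn (insert b J) J').card + 1) := by positivity
      have hC : ∀ u ∈ C.Mn (insert b J) J', ((C.gr w) ⁻¹' {x | C.ngt I x < n ∧ C.Fix J' x ∧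
          δ / ((C.Mn (insert b J) J').card + 1) ≤ ‖C0.ip (C.Lop K I (C.adj I (C.Tb u)) y)
            (C.io K I J' (C.eJ K J' (C.Tht K J' x (F u ξ))))‖}).Finite := fun u _ =>
        (ih J' (h.subK.trans hK) _ _ _ hp).preimage (C.gr w).injective.injOn
      refine ((C.Mn (insert b J) J').finite_toSet.biUnion fun u hu => hC u hu).subset ?_
      rintro x ⟨h1, h2, h3, h4⟩
      rw [sc5_scat hI h hK hF h3] at h4
      obtain ⟨u, hu, h5⟩ := sc5_sum _ _ hδ h4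
      have h6 := h.ngt_lt hI hK h3 h1
      exact Set.mem_biUnion (Finset.mem_coe.2 hu) ⟨by omega, h.toMv.fix h3, h5⟩
    refine (hA.union ((I \ J).finite_toSet.biUnion fun b hb => hB b hb)).subset ?_
    rintro x ⟨h2, h3, h4⟩
    by_cases hd : C.Dom I x
    · left
      refine ⟨hd, ?_⟩
      have a1 := congrArg (fun T : Op W K => T ξ) (eJ_Lop (K := K) hJ (C.th_mem_HJ J x))
      have a2 := congrArg (fun T : Op W K => T (C.eJ K J ξ))
        (io_Lop (K := K) hJI hI (C.th_mem_HJ J x))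
      simp only [sc5_app] at a1 a2
      unfold Tht at h4 ⊢
      rwa [a1, a2] at h4
    · right
      unfold AD.Dom at hd
      push Not at hd
      obtain ⟨b, hb, hb0⟩ := hd
      have hbJ : b ∉ J := fun a => by
        rw [h3 b a] at hb0
        exact lt_irrefl _ hb0
      exact Set.mem_biUnion (Finset.mem_coe.2 (Finset.mem_sdiff.2 ⟨hb, hbJ⟩)) ⟨hb0, h2, h3, h4⟩

/-- (D): induction on `ngt I x` for all `J`, `y`, `ξ` at once (`dom_of_ngt`, `Tht_weak`,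
`exists_El`, `scat`, `io_trans`, `io_Lop`, `Lop_adj`, `El.ngt_lt`) -/
theorem decay [Finite B] (hI : I ⊆ C.S0) {J : Finset B} (hJI : J ⊆ I) (y ξ : C0 W K) {δ : ℝ}
    (hδ : 0 < δ) : {x | C.Fix J x ∧
      δ ≤ ‖C0.ip y (C.io K I J (C.eJ K J (C.Tht K J x ξ)))‖}.Finite := by
  refine (sc5_ind hI (C.Rp.card + 1) J hJI y ξ δ hδ).subset ?_
  rintro x ⟨h1, h2⟩
  exact ⟨Nat.lt_succ_of_le (Finset.card_filter_le _ _), h1, h2⟩

/-- (Phi): `exists_rep`, `eJ_small`, `exists_fin`, `decay` -/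
theorem exists_Phi [Finite B] (hI : I ⊆ C.S0) {J : Finset B} (hJI : J ⊆ I) {a : H}
    (ha : a ∈ C.HJ I) (y : C0 W K) : ∃ v, C.eJ K J v = v ∧
      ∀ ξ, C0.ip v ξ = C0.ip y (C.Lop K I a (C.io K I J (C.eJ K J ξ))) := by
  have hJ : J ⊆ C.S0 := hJI.trans hI
  have hid : ∀ ξ, C.eJ K J (C.eJ K J ξ) = C.eJ K J ξ := fun ξ =>
    congrArg (fun T : Op W K => T ξ) (eJ_idem (K := K) hJ)
  let ψ : C0 W K →L[K] K := (C0.ip (C.Lop K I (C.adj I a) y)).comp (C.io K I J)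
  let φ : C0 W K →L[K] K := ψ.comp (C.eJ K J)
  have hφ : Tendsto (fun w => φ (C0.sg w)) cofinite (𝓝 0) := by
    rw [Metric.tendsto_nhds]
    intro δ hδ
    have hp : 0 < ‖ψ‖ + 1 := by positivity
    obtain ⟨N, hN⟩ := eJ_small (K := K) hJ (div_pos hδ hp)
    obtain ⟨F, hF⟩ := C.exists_fin hJ N
    have hfin := F.finite_toSet.biUnion fun f _ =>
      (decay hI hJI (C.Lop K I (C.adj I a) y) (C0.sg f) hδ).image fun x => C.tr x * f
    rw [Filter.eventually_cofinite]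
    refine hfin.subset ?_
    intro w hw
    simp only [Set.mem_setOf_eq, dist_zero_right, not_lt] at hw
    by_cases hl : C.lam J w < N
    · obtain ⟨x, hx, f, hf, rfl⟩ := hF w hl
      refine Set.mem_biUnion (Finset.mem_coe.2 hf) ⟨x, ⟨hx, ?_⟩, rfl⟩
      rw [C.Tht_sg K hJ hx]
      exact hw
    · exfalso
      have h1 := hN w (not_lt.1 hl)
      have h2 : ‖φ (C0.sg w)‖ ≤ ‖ψ‖ * ‖C.eJ K J (C0.sg w)‖ := ψ.le_opNorm _
      rw [lt_div_iff₀ hp] at h1
      nlinarith [norm_nonneg (C.eJ K J (C0.sg w)), norm_nonneg ψ]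
  obtain ⟨y0, hy0⟩ := C0.exists_rep φ hφ
  refine ⟨C.eJ K J y0, hid y0, fun ξ => ?_⟩
  rw [eJ_adj (K := K) hJ y0 ξ, hy0, sc5_adj hI ha]
  show ψ (C.eJ K J (C.eJ K J ξ)) = ψ (C.eJ K J ξ)
  rw [hid]

end HC

end Pool.Agent.P.MP_74db7f_al
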