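import Pool.Agent.P.MP_74db7f_al.F.VD

/-! V1: the operators `R`, `L`, `Θ`, degree projections (paper, section 3). -/

namespace Pool.Agent.P.MP_74db7f_al

open scoped Classical Topology
open Filter

namespace HC

variable {B W H : Type*} [Group W] {M : CoxeterMatrix B} {cs : CoxeterSystem M W} [Ring H]
  [Algebra Rq H] (C : HC cs H) (K : Type*) [NontriviallyNormedField K] [CompleteSpace K]
  [IsUltrametricDist K] [Algebra Rq K] [GoodK K]

omit [CompleteSpace K] [IsUltrametricDist K] [GoodK K] [Group W] in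
theorem v1_smul (r : Rq) (v : C0 W K) : r • v = algebraMap Rq K r • v := rfl

theorem v1_fs (J : Finset B) (h : H) : C.kap K J h =
    C0.fs (((C.bJ J).repr h).mapRange (algebraMap Rq K) (map_zero _)) := by
  rw [kap, Module.Basis.constr_apply, C0.fs, Finsupp.linearCombination_apply,
    Finsupp.sum_mapRange_index (h := fun i (a : K) => a • (C0.sg i : C0 W K))
      fun _ => zero_smul _ _]
  rfl

@[simp] theorem kap_TJ (J : Finset B) (w : W) : C.kap K J (C.TJ J w) = C0.sg w := by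
  rw [← bJ_apply, kap, Module.Basis.constr_basis]

theorem kap_one (J : Finset B) : C.kap K J 1 = C0.sg 1 := by
  rw [← C.TJ_one J, kap_TJ]

theorem co_kap (J : Finset B) (h : H) (w : W) :
    (C.kap K J h).co w = algebraMap Rq K ((C.bJ J).repr h w) := by
  rw [v1_fs, C0.co_fs, Finsupp.mapRange_apply]

theorem kap_eq_fs (J : Finset B) (h : H) : C.kap K J h =
    C0.fs (((C.bJ J).repr h).mapRange (algebraMap Rq K) (map_zero _)) := by
  exact C.v1_fs K J h

theorem kap_injective (J : Finset B) : Function.Injective (C.kap K J) := by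
  intro x y e
  refine (C.bJ J).repr.injective (Finsupp.ext fun w => algK_injective (K := K) ?_)
  rw [← co_kap, ← co_kap, e]

theorem norm_kap_le (J : Finset B) (h : H) (k : ℤ) :
    ‖C.kap K J h‖ ≤ ‖qK K‖ ^ k ↔ h ∈ Dg (C.bJ J) k := by
  constructor
  · intro hh z
    refine (GoodK.deg (K := K) _ _).1 ?_
    rw [← co_kap]
    exact (C0.norm_co_le _ _).trans hh
  · intro hh
    refine C0.norm_le (zpow_nonneg (norm_nonneg _) _) fun w => ?_
    rw [co_kap]
    exact (GoodK.deg _ _).2 (hh w)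

theorem ip_kap (J : Finset B) (x y : H) :
    C0.ip (C.kap K J x) (C.kap K J y) = algebraMap Rq K (C.ip J x y) := by
  rw [ip, ipB_apply, Finsupp.sum, map_sum]
  conv_lhs => rw [kap, Module.Basis.constr_apply, Finsupp.sum, map_sum,
    sum_apply]
  refine Finset.sum_congr rfl fun w _ => ?_
  rw [v1_smul, map_smul, smul_apply, C0.ip_sg, map_mul, smul_eq_mul,
    ← C.co_kap K J y]
  rfl

variable {K} in
theorem op_ext (J : Finset B) {E : Type*} [NormedAddCommGroup E] [NormedSpace K E]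
    {F G : C0 W K →L[K] E} (h : ∀ x, F (C.kap K J x) = G (C.kap K J x)) : F = G := by
  exact C0.clm_ext fun w => by simpa only [kap_TJ] using h (C.TJ J w)

theorem v1_lin {J J' : Finset B} (f : H →ₗ[Rq] H) {F : Op W K}
    (h1 : ∀ w, F (C0.sg w) = C.kap K J' (f (C.TJ J w))) (x : H) :
    F (C.kap K J x) = C.kap K J' (f x) := by
  have : ((F : C0 W K →ₗ[K] C0 W K).restrictScalars Rq) ∘ₗ C.kap K J = C.kap K J' ∘ₗ f :=
    (C.bJ J).ext fun w => by
      rw [LinearMap.comp_apply, LinearMap.comp_apply, bJ_apply, kap_TJ]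
      exact h1 w
  exact LinearMap.congr_fun this x

theorem ext_kap {J J' : Finset B} (f : H →ₗ[Rq] H) {N : ℤ}
    (hf : ∀ w, f (C.TJ J w) ∈ Dg (C.bJ J') N) :
    (∀ x, C.ext K J J' f (C.kap K J x) = C.kap K J' (f x)) ∧ ‖C.ext K J J' f‖ ≤ ‖qK K‖ ^ N := by
  have h1 : ∀ w, C.ext K J J' f (C0.sg w) = C.kap K J' (f (C.TJ J w)) :=
    C0.lift_sg ⟨_, fun w => (C.norm_kap_le K J' _ N).2 (hf w)⟩
  refine ⟨C.v1_lin K f h1, C0.opNorm_le (zpow_nonneg (norm_nonneg _) _) fun w => ?_⟩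
  rw [h1]
  exact (C.norm_kap_le K J' _ N).2 (hf w)

@[simp] theorem Rop_kap (J : Finset B) (h x : H) :
    C.Rop K J h (C.kap K J x) = C.kap K J (x * h) := by
  obtain ⟨N, hN⟩ := C.exists_right_bound J h
  exact (C.ext_kap K (LinearMap.mulRight Rq h) hN).1 x

theorem Rop_mul (J : Finset B) (h h' : H) :
    C.Rop K J (h * h') = C.Rop K J h' * C.Rop K J h := by
  exact C.op_ext J fun x => by
    rw [mul_apply_eq_comp, Rop_kap, Rop_kap, Rop_kap, mul_assoc]

theorem Rop_one (J : Finset B) : C.Rop K J 1 = 1 := by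
  exact C.op_ext J fun x => by rw [Rop_kap, mul_one, one_apply_eq_self]

theorem Rop_add (J : Finset B) (h h' : H) :
    C.Rop K J (h + h') = C.Rop K J h + C.Rop K J h' := by
  exact C.op_ext J fun x => by
    rw [add_apply, Rop_kap, Rop_kap, Rop_kap, mul_add, map_add]

theorem Rop_smul (J : Finset B) (r : Rq) (h : H) :
    C.Rop K J (r • h) = algebraMap Rq K r • C.Rop K J h := by
  exact C.op_ext J fun x => by
    rw [smul_apply, Rop_kap, Rop_kap, mul_smul_comm, map_smul, v1_smul]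

theorem Rop_adj (J : Finset B) (h : H) : C0.IsAdj (C.Rop K J h) (C.Rop K J (C.flat h)) := by
  exact C0.isAdj_of_sg fun w v => by
    rw [← C.kap_TJ K J, ← C.kap_TJ K J, Rop_kap, Rop_kap, ip_kap, ip_kap, ip_mul_right]

theorem norm_Rop (J : Finset B) {h : H} {k : ℤ} (hh : h ∈ Dg C.Tb k) :
    ‖C.Rop K J h‖ ≤ ‖qK K‖ ^ (k + C.Nb) := by
  exact (C.ext_kap K (LinearMap.mulRight Rq h) fun w =>
    map_mem_Dg (LinearMap.mulLeft Rq (C.TJ J w)) hh fun z _ => C.right_bound J w z).2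

variable {K} in
/-- right linear operators are determined by their value at `1` -/
theorem ext_one {J J' : Finset B} {F G : Op W K}
    (hF : ∀ h, F * C.Rop K J h = C.Rop K J' h * F) (hG : ∀ h, G * C.Rop K J h = C.Rop K J' h * G)
    (e : F (C.kap K J 1) = G (C.kap K J 1)) : F = G := by
  refine C.op_ext J fun x => ?_
  have e0 : C.kap K J x = C.Rop K J x (C.kap K J 1) := by rw [Rop_kap, one_mul]
  rw [e0, ← mul_apply_eq_comp, ← mul_apply_eq_comp G, hF, hG,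
    mul_apply_eq_comp, mul_apply_eq_comp, e]

variable {J : Finset B} (hJ : J ⊆ C.S0)
include hJ

theorem Lop_kap {a : H} (ha : a ∈ C.HJ J) (x : H) :
    C.Lop K J a (C.kap K J x) = C.kap K J (a * x) := by
  obtain ⟨N, hN⟩ := C.exists_left_boundJ hJ ha
  exact (C.ext_kap K (LinearMap.mulLeft Rq a) hN).1 x

theorem Lop_mul {a b : H} (ha : a ∈ C.HJ J) (hb : b ∈ C.HJ J) :
    C.Lop K J (a * b) = C.Lop K J a * C.Lop K J b := by
  exact C.op_ext J fun x => by
    rw [mul_apply_eq_comp, C.Lop_kap K hJ (mul_mem ha hb), C.Lop_kap K hJ hb,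
      C.Lop_kap K hJ ha, mul_assoc]

theorem Lop_one : C.Lop K J 1 = 1 := by
  exact C.op_ext J fun x => by
    rw [C.Lop_kap K hJ (one_mem _), one_mul, one_apply_eq_self]

theorem Lop_add {a b : H} (ha : a ∈ C.HJ J) (hb : b ∈ C.HJ J) :
    C.Lop K J (a + b) = C.Lop K J a + C.Lop K J b := by
  exact C.op_ext J fun x => by
    rw [add_apply, C.Lop_kap K hJ (add_mem ha hb), C.Lop_kap K hJ hb,
      C.Lop_kap K hJ ha, add_mul, map_add]

theorem Lop_smul (r : Rq) {a : H} (ha : a ∈ C.HJ J) :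
    C.Lop K J (r • a) = algebraMap Rq K r • C.Lop K J a := by
  exact C.op_ext J fun x => by
    rw [smul_apply, C.Lop_kap K hJ (Subalgebra.smul_mem _ ha r),
      C.Lop_kap K hJ ha, smul_mul_assoc, map_smul, v1_smul]

/-- `L` as an algebra homomorphism on `H^J` -/
theorem exists_Lhom : ∃ Λ : C.HJ J →+* Op W K, (∀ a, Λ a = C.Lop K J a) ∧
    ∀ r : Rq, Λ (algebraMap Rq _ r) = algebraMap K _ (algebraMap Rq K r) := by
  refine ⟨RingHom.mk' ⟨⟨fun a => C.Lop K J a, C.Lop_one K hJ⟩,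
    fun a b => C.Lop_mul K hJ a.2 b.2⟩ fun a b => C.Lop_add K hJ a.2 b.2, fun _ => rfl,
    fun r => ?_⟩
  show C.Lop K J (algebraMap Rq H r) = _
  rw [Algebra.algebraMap_eq_smul_one, C.Lop_smul K hJ r (one_mem _), C.Lop_one K hJ,
    Algebra.algebraMap_eq_smul_one (A := Op W K)]

theorem Lop_Rop {a : H} (ha : a ∈ C.HJ J) (h : H) :
    C.Lop K J a * C.Rop K J h = C.Rop K J h * C.Lop K J a := by
  exact C.op_ext J fun x => by
    rw [mul_apply_eq_comp, mul_apply_eq_comp, Rop_kap,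
      C.Lop_kap K hJ ha, C.Lop_kap K hJ ha, Rop_kap, mul_assoc]

theorem Lop_adj {a : H} (ha : a ∈ C.HJ J) :
    C0.IsAdj (C.Lop K J a) (C.Lop K J (C.adj J a)) := by
  exact C0.isAdj_of_sg fun w v => by
    rw [← C.kap_TJ K J, ← C.kap_TJ K J, C.Lop_kap K hJ ha, C.Lop_kap K hJ (C.adj_mem hJ a),
      ip_kap, ip_kap, C.ip_mul_left hJ ha]

theorem Lop_central {z : H} (hz : z ∈ Subring.center H) (ha : z ∈ C.HJ J) :
    C.Lop K J z = C.Rop K J z := by
  exact C.op_ext J fun x => by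
    rw [C.Lop_kap K hJ ha, Rop_kap, Subring.mem_center_iff.1 hz x]

theorem norm_Lop_Tb {u : W} (hu : u ∈ C.WJ J) : ‖C.Lop K J (C.Tb u)‖ ≤ ‖qK K‖ ^ C.Nb := by
  rw [← zpow_natCast]
  exact (C.ext_kap K (LinearMap.mulLeft Rq (C.Tb u)) (C.Tb_bound hJ hu)).2

theorem Tht_add (x y : Lat C.n) : C.Tht K J (x + y) = C.Tht K J x * C.Tht K J y := by
  rw [Tht, th_add, C.Lop_mul K hJ (C.th_mem_HJ J x) (C.th_mem_HJ J y), Tht, Tht]

theorem Tht_zero : C.Tht K J 0 = 1 := by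
  rw [Tht, th_zero, C.Lop_one K hJ]

theorem Tht_nsmul (k : ℕ) (x : Lat C.n) : C.Tht K J ((k : ℤ) • x) = C.Tht K J x ^ k := by
  induction k with
  | zero => rw [Nat.cast_zero, zero_smul, pow_zero, C.Tht_zero K hJ]
  | succ k ih => rw [Nat.cast_succ, add_smul, one_smul, C.Tht_add K hJ, ih, pow_succ]

theorem norm_Tht {x : Lat C.n} (hx : C.Dom J x) : ‖C.Tht K J x‖ ≤ ‖qK K‖ ^ C.Nb := by
  rw [← zpow_natCast]
  exact (C.ext_kap K (LinearMap.mulLeft Rq (C.th x)) (C.th_bound hJ hx)).2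

theorem Tht_sg {x : Lat C.n} (hx : C.Fix J x) (w : W) :
    C.Tht K J x (C0.sg w) = C0.sg (C.tr x * w) := by
  rw [← C.kap_TJ K J, Tht, C.Lop_kap K hJ (C.th_mem_HJ J x), C.th_mul_TJ hJ hx, kap_TJ]

theorem Tht_shift {x : Lat C.n} (hx : C.Fix J x) (h0 : x ≠ 0) :
    C0.Shift (C.Tht K J x) (C.tr x) := by
  refine ⟨C.Tht_sg K hJ hx, fun hf => ?_⟩
  obtain ⟨k, hk, e⟩ := isOfFinOrder_iff_pow_eq_one.1 hf
  have h1 : ∀ k : ℕ, C.tr x ^ k = C.tr (k • x) := fun k => by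
    induction k with
    | zero => rw [pow_zero, zero_smul, C.tr_zero]
    | succ k ih => rw [pow_succ, ih, succ_nsmul, C.tr_add]
  rw [h1, ← C.tr_zero] at e
  exact h0 ((smul_eq_zero.1 (C.tr_injective e)).resolve_left hk.ne')

omit hJ in
theorem v1_fix_neg {x : Lat C.n} (hx : C.Fix J x) : C.Fix J (-x) := fun j hj => by
  rw [map_neg, hx j hj, neg_zero]

theorem Tht_adj {x : Lat C.n} (hx : C.Fix J x) :
    C0.IsAdj (C.Tht K J x) (C.Tht K J (-x)) := by
  refine C0.isAdj_of_sg fun w v => ?_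
  rw [C.Tht_sg K hJ hx, C.Tht_sg K hJ (C.v1_fix_neg hx), C0.ip_sg, C0.ip_sg, C0.co_sg, C0.co_sg,
    C.tr_neg]
  exact if_congr eq_inv_mul_iff_mul_eq.symm rfl rfl

theorem norm_Tht_apply {x : Lat C.n} (hx : C.Fix J x) (ξ : C0 W K) :
    ‖C.Tht K J x ξ‖ = ‖ξ‖ := by
  have h1 : ∀ x, C.Fix J x → ∀ ξ, ‖C.Tht K J x ξ‖ ≤ ‖ξ‖ := fun x hx ξ => by
    have : ‖C.Tht K J x‖ ≤ 1 := C0.opNorm_le zero_le_one fun w => by
      rw [C.Tht_sg K hJ hx, C0.norm_sg]
    simpa using (C.Tht K J x).le_of_opNorm_le this ξ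
  refine (h1 x hx ξ).antisymm ?_
  have := h1 _ (C.v1_fix_neg hx) (C.Tht K J x ξ)
  rwa [← mul_apply_eq_comp, ← C.Tht_add K hJ, neg_add_cancel, C.Tht_zero K hJ,
    one_apply_eq_self] at this

theorem Lop_Tht {a : H} (ha : a ∈ C.HJ J) {x : Lat C.n} (hx : C.Fix J x) :
    C.Lop K J a * C.Tht K J x = C.Tht K J x * C.Lop K J a := by
  rw [Tht, ← C.Lop_mul K hJ ha (C.th_mem_HJ J x), ← C.Lop_mul K hJ (C.th_mem_HJ J x) ha,
    (C.HJ_comm_th hJ ha hx).eq]

omit hJ in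
theorem PD_sg (δ : Lat C.n) (w : W) :
    C.PD K J δ (C0.sg w) = if C.degW J w = δ then C0.sg w else 0 := by
  refine C0.lift_sg ⟨1, fun w => ?_⟩ w
  split_ifs <;> simp

omit hJ in
theorem co_PD (δ : Lat C.n) (ξ : C0 W K) (w : W) :
    (C.PD K J δ ξ).co w = if C.degW J w = δ then ξ.co w else 0 := by
  have : (C0.ev w).comp (C.PD K J δ) = if C.degW J w = δ then C0.ev w else 0 :=
    C0.clm_ext fun v => by
      rw [ContinuousLinearMap.comp_apply, PD_sg, C0.ev_apply]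
      by_cases e : w = v
      · subst e
        split_ifs <;> simp
      · split_ifs <;> simp [C0.co_sg, e]
  have h := congrArg (fun F => F ξ) this
  split_ifs at h ⊢ <;> exact h

omit hJ in
theorem PD_kap (δ : Lat C.n) (x : H) : C.PD K J δ (C.kap K J x) = C.kap K J (C.pd J δ x) := by
  refine C.v1_lin K (C.pd J δ) (fun w => ?_) x
  rw [PD_sg, pd_TJ]
  split_ifs
  · rw [kap_TJ]
  · rw [map_zero]

omit hJ in
theorem PD_adj (δ : Lat C.n) : C0.IsAdj (C.PD K J δ) (C.PD K J δ) := by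
  refine C0.isAdj_of_sg fun w v => ?_
  rw [C0.ip_comm, C0.ip_sg, C0.ip_sg, co_PD, co_PD, C0.co_sg, C0.co_sg]
  by_cases e : w = v
  · rw [e]
  · simp [e, Ne.symm e]

omit hJ in
theorem PD_mul (δ δ' : Lat C.n) :
    C.PD K J δ * C.PD K J δ' = if δ = δ' then C.PD K J δ else 0 := by
  refine C0.clm_ext fun w => ?_
  rw [mul_apply_eq_comp, PD_sg]
  by_cases e : δ = δ'
  · subst e
    rw [if_pos rfl, PD_sg]
    split_ifs with c
    · rw [PD_sg, if_pos c]
    · rw [map_zero]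
  · rw [if_neg e, zero_apply]
    split_ifs with c
    · rw [PD_sg, if_neg fun a => e (a.symm.trans c)]
    · rw [map_zero]

omit hJ in
theorem norm_PD (δ : Lat C.n) : ‖C.PD K J δ‖ ≤ 1 := by
  refine C0.opNorm_le zero_le_one fun w => ?_
  rw [PD_sg]
  split_ifs <;> simp

theorem PD_Tht (δ x : Lat C.n) :
    C.PD K J (δ + C.deg J x) * C.Tht K J x = C.Tht K J x * C.PD K J δ := by
  exact C.op_ext J fun ξ => by
    rw [mul_apply_eq_comp, mul_apply_eq_comp, Tht, PD_kap,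
      C.Lop_kap K hJ (C.th_mem_HJ J x), C.Lop_kap K hJ (C.th_mem_HJ J x), PD_kap, C.pd_th hJ]

theorem PD_Lop_Tb (δ : Lat C.n) {u : W} (hu : u ∈ C.WJ J) :
    C.PD K J δ * C.Lop K J (C.Tb u) = C.Lop K J (C.Tb u) * C.PD K J δ := by
  exact C.op_ext J fun ξ => by
    rw [mul_apply_eq_comp, mul_apply_eq_comp, PD_kap,
      C.Lop_kap K hJ (C.Tb_mem_HJ hJ hu), C.Lop_kap K hJ (C.Tb_mem_HJ hJ hu), PD_kap,
      C.pd_Tb hJ hu]

theorem v1_fin [Finite B] (w v : W) :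
    {x | C.Dom J x ∧ C0.ip (C0.sg w) (C.Tht K J x (C0.sg v)) ≠ 0}.Finite := by
  refine Set.Finite.of_finite_image (f := fun x => (C.tr x)⁻¹ * w)
    ((AD.finite_ball (cs := cs) (cs.length v)).subset ?_) fun x _ x' _ e =>
      C.tr_injective (inv_injective (mul_right_cancel e))
  rintro _ ⟨x, ⟨hx, h⟩, rfl⟩
  rw [C0.ip_sg, ← C.kap_TJ K J, Tht, C.Lop_kap K hJ (C.th_mem_HJ J x), co_kap,
    C.th_dom hJ hx] at h
  have hb := C.TJ_mul_ball J J (C.tr x) v
  rw [← show ⇑(C.bJ J) = C.TJ J from funext (C.bJ_apply J), Module.Basis.mem_span_image] at hb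
  refine hb (Finsupp.mem_support_iff.2 fun a => h ?_)
  rw [bJ_apply, bJ_apply] at a
  rw [a, map_zero]

/-- matrix coefficients of `Θ_x` tend to `0` in the dominant cone (`TJ_mul_ball`) -/
theorem Tht_weak [Finite B] (y ξ : C0 W K) {δ : ℝ} (hδ : 0 < δ) :
    {x | C.Dom J x ∧ δ ≤ ‖C0.ip y (C.Tht K J x ξ)‖}.Finite := by
  set A : ℝ := ‖qK K‖ ^ C.Nb with hA
  have A0 : 0 ≤ A := pow_nonneg (norm_nonneg _) _
  obtain ⟨g', hg', -⟩ := C0.exists_approx ξ (δ := δ / 2 / (‖y‖ * A + 1)) (by positivity)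
  obtain ⟨g, hg, -⟩ := C0.exists_approx y (δ := δ / 2 / (A * ‖C0.fs g'‖ + 1)) (by positivity)
  refine ((g.support.finite_toSet.biUnion fun w _ => g'.support.finite_toSet.biUnion
    fun v _ => C.v1_fin K hJ w v)).subset fun x ⟨hx, hd⟩ => ?_
  by_contra hn
  have h0 : C0.ip (C0.fs g) (C.Tht K J x (C0.fs g')) = 0 := by
    rw [C0.fs, Finsupp.linearCombination_apply, Finsupp.linearCombination_apply, Finsupp.sum,
      Finsupp.sum, map_sum, map_sum, map_sum]
    refine Finset.sum_eq_zero fun v hv => ?_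
    rw [sum_apply]
    refine Finset.sum_eq_zero fun w hw => ?_
    have : C0.ip (C0.sg w) (C.Tht K J x (C0.sg v)) = 0 := by
      by_contra a
      exact hn (Set.mem_biUnion hw (Set.mem_biUnion hv ⟨hx, a⟩))
    rw [map_smul, map_smul, map_smul, smul_apply, this, smul_zero, smul_zero]
  have e : C0.ip y (C.Tht K J x ξ) = C0.ip (y - C0.fs g) (C.Tht K J x (C0.fs g')) +
      C0.ip y (C.Tht K J x (ξ - C0.fs g')) := by
    rw [map_sub, sub_apply, h0, map_sub, map_sub]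
    ring
  have hT : ∀ η, ‖C.Tht K J x η‖ ≤ A * ‖η‖ := fun η =>
    (C.Tht K J x).le_of_opNorm_le (C.norm_Tht K hJ hx) η
  have b1 := (C0.norm_ip_le (y - C0.fs g) (C.Tht K J x (C0.fs g'))).trans
    (mul_le_mul_of_nonneg_left (hT _) (norm_nonneg _))
  have b2 := (C0.norm_ip_le y (C.Tht K J x (ξ - C0.fs g'))).trans
    (mul_le_mul_of_nonneg_left (hT _) (norm_nonneg _))
  rw [lt_div_iff₀ (by positivity)] at hg hg'
  have b3 := norm_add_le (C0.ip (y - C0.fs g) (C.Tht K J x (C0.fs g')))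
    (C0.ip y (C.Tht K J x (ξ - C0.fs g')))
  rw [← e] at b3
  have := norm_nonneg (y - C0.fs g)
  have := norm_nonneg (ξ - C0.fs g')
  nlinarith

theorem norm_dop {d : Lat C.n →₀ K} (hd : d ≠ 0) (hf : ∀ x ∈ d.support, C.Fix J x) :
    ∃ c : K, c ≠ 0 ∧ ∀ ξ, ‖C.dop K J d ξ‖ = ‖c‖ * ‖ξ‖ := by
  obtain ⟨c, hc, ⟨x, rfl⟩, h⟩ := C0.gauss C.tr C.tr_add C.tr_injective d hd (C.Tht K J)
    fun x hx => C.Tht_sg K hJ (hf x hx)
  exact ⟨d x, norm_pos_iff.1 hc, h⟩

theorem dop_adj {d : Lat C.n →₀ K} (hf : ∀ x ∈ d.support, C.Fix J x) :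
    C0.IsAdj (C.dop K J d) (C.dop K J (d.mapDomain fun x => -x)) := by
  intro ξ η
  rw [dop, dop, Finsupp.sum_mapDomain_index_inj neg_injective, Finsupp.sum, Finsupp.sum,
    sum_apply, sum_apply, map_sum, map_sum,
    sum_apply]
  exact Finset.sum_congr rfl fun x hx => (C.Tht_adj K hJ (hf x hx)).smul (d x) ξ η

end HC

end Pool.Agent.P.MP_74db7f_al
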