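import Pool.Agent.P.MP_74db7f_al.F.H10
import Pool.Agent.P.MP_74db7f_al.F.C3
import Pool.Agent.P.MP_74db7f_al.F.P2

/-! Operators on `V = c₀(W, K)` attached to the Hecke algebra: definitions (paper, 3-9). -/

namespace Pool.Agent.P.MP_74db7f_al

open scoped Classical Topology
open Filter

/-- bounded operators on `V` -/
abbrev Op (W K : Type*) [NontriviallyNormedField K] := C0 W K →L[K] C0 W K

namespace HC

variable {B W H : Type*} [Group W] {M : CoxeterMatrix B} {cs : CoxeterSystem M W} [Ring H]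
  [Algebra Rq H] (C : HC cs H) (K : Type*) [NontriviallyNormedField K] [Algebra Rq K]

/-- coordinates in the basis `T^J` -/
noncomputable def kap (J : Finset B) : H →ₗ[Rq] C0 W K := (C.bJ J).constr Rq C0.sg

/-- extension of a map `H → H` from level `J` to level `J'` -/
noncomputable def ext (J J' : Finset B) (f : H → H) : Op W K :=
  C0.lift fun w => C.kap K J' (f (C.TJ J w))

noncomputable def Rop (J : Finset B) (h : H) : Op W K := C.ext K J J fun x => x * h

noncomputable def Lop (J : Finset B) (a : H) : Op W K := C.ext K J J fun x => a * x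

noncomputable def Tht (J : Finset B) (x : Lat C.n) : Op W K := C.Lop K J (C.th x)

/-- left multiplication by `ι_w` from level `J` to level `J'` -/
noncomputable def Jop (J J' : Finset B) (w : W) : Op W K := C.ext K J J' fun x => C.iotw w * x

/-- projection to the degree `δ` -/
noncomputable def PD (J : Finset B) (δ : Lat C.n) : Op W K :=
  C0.lift fun w => if C.degW J w = δ then C0.sg w else 0

/-- the commutative algebra generated by the `Θ_x` and `e` -/
noncomputable def AJ (J : Finset B) (e : Op W K) : Subalgebra K (Op W K) :=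
  bic K (insert e (Set.range (C.Tht K J)))

/-- `l (l - Θ_{2Mx})⁻¹`, `l = q^{2k-1}` -/
noncomputable def bet (J : Finset B) (x : Lat C.n) (k : ℤ) : Op W K :=
  qK K ^ (2 * k - 1) • Ring.inverse (algebraMap K (Op W K) (qK K ^ (2 * k - 1)) -
    C.Tht K J ((2 * C.Mo : ℤ) • x))

/-- projection to the slopes `< k` -/
noncomputable def etaL (J : Finset B) (x : Lat C.n) (k : ℤ) : Op W K := nl (C.bet K J x k)

/-- projection to the slope `k` of `Θ_{Mx}` -/
noncomputable def eta (J : Finset B) (x : Lat C.n) (k : ℤ) : Op W K :=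
  C.etaL K J x (k + 1) - C.etaL K J x k

noncomputable def phi (J : Finset B) (x : Lat C.n) (k : ℤ) (j : ℕ) : Op W K :=
  (qK K ^ (-k) • C.Tht K J ((C.Mo : ℤ) • x)) ^ j * C.eta K J x k

/-- weak constant term projection `ε^{I,J}` -/
noncomputable def eps (I J : Finset B) : Op W K := C.eta K I (C.z J) 0

/-- `ι^I_J` -/
noncomputable def io (I J : Finset B) : Op W K :=
  C0.lift fun g => C.eps K I J (C.kap K I (C.TJ J g))

/-- natural families of operators -/
def Nat (c : Finset B → Op W K) : Prop :=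
  ∀ J ⊆ C.S0, ∀ J' ⊆ C.S0, ∀ F : Op W K,
    (∀ z ∈ Subring.center H, F * C.Rop K J z = C.Rop K J' z * F) → F * c J = c J' * F

/-- natural families with natural adjoint -/
def NatA (c c' : Finset B → Op W K) : Prop :=
  C.Nat K c ∧ C.Nat K c' ∧ ∀ J ⊆ C.S0, C0.IsAdj (c J) (c' J)

/-- natural contractions -/
def Nat1 (c : Finset B → Op W K) : Prop :=
  ∃ c', C.NatA K c c' ∧ ∀ J ⊆ C.S0, ‖c J‖ ≤ 1 ∧ ‖c' J‖ ≤ 1

/-- the continuous part -/
noncomputable def KK (J : Finset B) : Submodule K (C0 W K) :=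
  (Submodule.span K {v | ∃ J' ⊂ J, ∃ u ∈ C.WJ J, ∃ ξ,
    v = C.Lop K J (C.Tb u) (C.eps K J J' ξ)}).topologicalClosure

/-- the projection to the discrete part -/
noncomputable def eJ (J : Finset B) : Op W K :=
  Classical.epsilon fun e : Op W K => (∀ ξ, ξ - e ξ ∈ C.KK K J) ∧
    ∀ ξ, ∀ k ∈ C.KK K J, C0.ip (e ξ) k = 0

/-- `∑ d_x Θ_x` -/
noncomputable def dop (J : Finset B) (d : Lat C.n →₀ K) : Op W K :=
  d.sum fun x a => a • C.Tht K J x

/-- `G = span_K e L(H^J)` -/
noncomputable def GG (J : Finset B) : Submodule K (Op W K) :=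
  Submodule.span K {g | ∃ a ∈ C.HJ J, g = C.eJ K J * C.Lop K J a}

/-- `Y = span_K e κ(Jd)` -/
noncomputable def YY (J : Finset B) (Jd : Set H) : Submodule K (C0 W K) :=
  Submodule.span K {y | ∃ j ∈ Jd, y = C.eJ K J (C.kap K J j)}

/-- central selfadjoint idempotents of degree `0` in `G` -/
structure IsE (J : Finset B) (ε : Op W K) : Prop where
  mem : ε ∈ C.GG K J
  idem : ε * ε = ε
  adj : C0.IsAdj ε ε
  commL : ∀ a ∈ C.HJ J, ε * C.Lop K J a = C.Lop K J a * ε
  commP : ∀ δ, ε * C.PD K J δ = C.PD K J δ * ε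

/-- subspaces of `W →₀ K` defined over `ℚ(q)` -/
def Rat (N : Submodule K (W →₀ K)) : Prop :=
  ∀ ϱ : K →ₗ[Rq] K, ∀ f ∈ N, f.mapRange ϱ ϱ.map_zero ∈ N

/-- the kernel of `g` on finitely supported vectors -/
noncomputable def kerF (g : Op W K) : Submodule K (W →₀ K) :=
  LinearMap.ker ((g : C0 W K →ₗ[K] C0 W K) ∘ₗ C0.fs)

/-- the idempotent attached to a two-sided ideal -/
structure EpsOf (J : Finset B) (Jd : Set H) (ε : Op W K) : Prop extends C.IsE K J ε where
  kill : ∀ j ∈ Jd, (C.eJ K J - ε) (C.kap K J j) = 0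
  sat : ∃ d : Lat C.n →₀ K, d ≠ 0 ∧ (∀ x ∈ d.support, C.Fix J x) ∧
    C.dop K J d (ε (C.kap K J 1)) ∈ C.YY K J Jd
  rat : ∃ r : Rq, r ≠ 0 ∧ ∃ a ∈ C.HJ J, algebraMap Rq K r • ε = C.eJ K J * C.Lop K J a

/-- homogeneous operators of degree `γ` -/
def Homog (J : Finset B) (γ : Lat C.n) (g : Op W K) : Prop :=
  ∀ δ, C.PD K J (γ + δ) * g = g * C.PD K J δ

/-- two-sided ideals, as submodules -/
def IsId (Jd : Submodule Rq H) : Prop := ∀ j ∈ Jd, ∀ h, h * j ∈ Jd ∧ j * h ∈ Jd

/-- the monic polynomial `∏_{k ∈ s} (X - q^{2k})^N` evaluated at `θ_{2Mx}` -/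
noncomputable def Fpol (s : Finset ℤ) (N : ℕ) (x : Lat C.n) : H :=
  (∏ k ∈ s, (Polynomial.X - Polynomial.C (LaurentPolynomial.T (2 * k) : Rq)) ^ N).aeval
    (C.th ((2 * C.Mo : ℤ) • x))

end HC

end Pool.Agent.P.MP_74db7f_al
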